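import Mathlib

set_option autoImplicit false

namespace Pool.Agent.Helper53

universe u

section Defs

variable (A : Type u) [NonUnitalNormedRing A] [NormedSpace ℂ A]

/-- A Banach left `A`-module structure on a normed space `X`: a bounded bilinear action
`(a, x) ↦ a x` with `(a b) x = a (b x)`. No unit is assumed in `A`. -/
structure LeftModule (X : Type u) [NormedAddCommGroup X] [NormedSpace ℂ X] where
  act : A →L[ℂ] X →L[ℂ] X
  act_mul : ∀ (a b : A) (x : X), act (a * b) x = act a (act b x)

/-- A Banach right `A`-module structure on a normed space `X`: a bounded bilinear action,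
where `act a x` stands for `x a`, with `x (a b) = (x a) b`. -/
structure RightModule (X : Type u) [NormedAddCommGroup X] [NormedSpace ℂ X] where
  act : A →L[ℂ] X →L[ℂ] X
  act_mul : ∀ (a b : A) (x : X), act (a * b) x = act b (act a x)

variable {A}

/-- Every morphism `φ : Y → X` of Banach left `A`-modules which has a bounded linear right
inverse also has a right inverse which is a morphism of Banach left `A`-modules. -/
def LeftSplits {X Y : Type u} [NormedAddCommGroup X] [NormedSpace ℂ X]
    [NormedAddCommGroup Y] [NormedSpace ℂ Y] (mX : LeftModule A X) (mY : LeftModule A Y) : Prop :=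
  ∀ φ : Y →L[ℂ] X, (∀ a y, φ (mY.act a y) = mX.act a (φ y)) →
    (∃ s : X →L[ℂ] Y, ∀ x, φ (s x) = x) →
    ∃ ψ : X →L[ℂ] Y, (∀ a x, ψ (mX.act a x) = mY.act a (ψ x)) ∧ ∀ x, φ (ψ x) = x

/-- The same for Banach right `A`-modules. -/
def RightSplits {X Y : Type u} [NormedAddCommGroup X] [NormedSpace ℂ X]
    [NormedAddCommGroup Y] [NormedSpace ℂ Y] (mX : RightModule A X) (mY : RightModule A Y) :
    Prop :=
  ∀ φ : Y →L[ℂ] X, (∀ a y, φ (mY.act a y) = mX.act a (φ y)) →
    (∃ s : X →L[ℂ] Y, ∀ x, φ (s x) = x) →
    ∃ ψ : X →L[ℂ] Y, (∀ a x, ψ (mX.act a x) = mY.act a (ψ x)) ∧ ∀ x, φ (ψ x) = x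

/-- `X` is projective as a Banach left `A`-module: every morphism `Y → X` of Banach left
`A`-modules which has a bounded linear right inverse has a right inverse which is a morphism
of Banach left `A`-modules, for all Banach left `A`-modules `Y`. -/
def LeftProjective {X : Type u} [NormedAddCommGroup X] [NormedSpace ℂ X]
    (mX : LeftModule A X) : Prop :=
  ∀ (Y : Type u) [NormedAddCommGroup Y] [NormedSpace ℂ Y] [CompleteSpace Y]
    (mY : LeftModule A Y), LeftSplits mX mY

/-- `X` is projective as a Banach right `A`-module. -/
def RightProjective {X : Type u} [NormedAddCommGroup X] [NormedSpace ℂ X]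
    (mX : RightModule A X) : Prop :=
  ∀ (Y : Type u) [NormedAddCommGroup Y] [NormedSpace ℂ Y] [CompleteSpace Y]
    (mY : RightModule A Y), RightSplits mX mY

variable (A)

/-- `A` as a Banach left module over itself, by left multiplication. -/
noncomputable def leftRegular [IsScalarTower ℂ A A] [SMulCommClass ℂ A A] : LeftModule A A where
  act := ContinuousLinearMap.mul ℂ A
  act_mul := fun a b x => by simp [mul_assoc]

/-- `A` as a Banach right module over itself, by right multiplication. -/
noncomputable def rightRegular [IsScalarTower ℂ A A] [SMulCommClass ℂ A A] : RightModule A A where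
  act := (ContinuousLinearMap.mul ℂ A).flip
  act_mul := fun a b x => by simp [mul_assoc]

end Defs

section Compact

variable (E : Type u) [NormedAddCommGroup E] [NormedSpace ℂ E]

/-- The compact operators on `E` as a subalgebra of the algebra of bounded operators on `E`. -/
def compactOps : NonUnitalSubalgebra ℂ (E →L[ℂ] E) where
  carrier := {T | IsCompactOperator T}
  zero_mem' := isCompactOperator_zero
  add_mem' := fun h1 h2 => h1.add h2
  mul_mem' := fun {_ b} ha _ => ha.comp_clm b
  smul_mem' := fun c _ hT => hT.smul c

/-- The Banach algebra `K(E)` of all compact operators on `E`, with composition and the operator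
norm. -/
def KOp : Type u := compactOps E

/-- Composition and operator norm on `K(E)`, inherited from the bounded operators. -/
noncomputable instance KOp.instRing : NonUnitalNormedRing (KOp E) :=
  NonUnitalSubalgebra.nonUnitalNormedRing (compactOps E)

/-- `K(E)` as a complex normed space, inherited from the bounded operators. -/
noncomputable instance KOp.instSpace : NormedSpace ℂ (KOp E) where
  toModule := NonUnitalSubalgebra.instModule (S := compactOps E)
  norm_smul_le := fun c (x : compactOps E) => norm_smul_le c (x : E →L[ℂ] E)

instance KOp.instTower : IsScalarTower ℂ (KOp E) (KOp E) :=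
  ⟨fun _ _ _ => Subtype.ext (ContinuousLinearMap.ext fun _ => rfl)⟩

instance KOp.instComm : SMulCommClass ℂ (KOp E) (KOp E) :=
  ⟨fun c x y => Subtype.ext (ContinuousLinearMap.ext fun v => ((x.1).map_smul c (y.1 v)).symm)⟩

/-- `K(E)` is projective as a Banach left module over itself. -/
def KLeftProjective : Prop := LeftProjective (leftRegular (KOp E))

/-- `K(E)` is projective as a Banach right module over itself. -/
def KRightProjective : Prop := RightProjective (rightRegular (KOp E))

end Compact

end Pool.Agent.Helper53
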