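import Mathlib

set_option autoImplicit false
set_option maxSynthPendingDepth 3

namespace Pool.Agent.Helper53.Dim3

open Filter Topology Finset

/-- sign averaging -/
lemma sign_avg {ι V Y : Type*} [AddCommGroup V] [Module ℂ V] [NormedAddCommGroup Y]
    [NormedSpace ℂ Y] (ψ : ι → V →ₗ[ℂ] Y) (x : ι → V) (M : ℝ) (F : Finset ι) :
    ∀ (Φ : V →ₗ[ℂ] Y) (q : V),
    (∀ ε : ι → ℂ, (∀ n, ε n = 1 ∨ ε n = -1) →
      ‖(Φ + ∑ n ∈ F, ε n • ψ n) (q + ∑ n ∈ F, ε n • x n)‖ ≤ M) →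
    ‖Φ q + ∑ n ∈ F, ψ n (x n)‖ ≤ M := by
  classical
  induction F using Finset.induction_on with
  | empty =>
    intro Φ q h
    simpa using h (fun _ => 1) (fun _ => Or.inl rfl)
  | insert k F hk ih =>
    intro Φ q h
    have key : ∀ s : ℂ, (s = 1 ∨ s = -1) →
        ‖(Φ + s • ψ k) (q + s • x k) + ∑ n ∈ F, ψ n (x n)‖ ≤ M := by
      intro s hs
      apply ih
      intro ε hε
      have := h (Function.update ε k s) (by
        intro n
        by_cases hn : n = k
        · subst hn; simpa using hs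
        · simpa [Function.update_of_ne hn] using hε n)
      rw [sum_insert hk, sum_insert hk] at this
      have e1 : ∑ n ∈ F, Function.update ε k s n • ψ n = ∑ n ∈ F, ε n • ψ n :=
        sum_congr rfl (fun n hn => by
          rw [Function.update_of_ne (fun hnk : n = k => hk (hnk ▸ hn))])
      have e2 : ∑ n ∈ F, Function.update ε k s n • x n = ∑ n ∈ F, ε n • x n :=
        sum_congr rfl (fun n hn => by
          rw [Function.update_of_ne (fun hnk : n = k => hk (hnk ▸ hn))])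
      rw [e1, e2, Function.update_self, ← add_assoc, ← add_assoc] at this
      exact this
    have h1 := key 1 (Or.inl rfl)
    have h2 := key (-1) (Or.inr rfl)
    have h3 : Φ q + ∑ n ∈ insert k F, ψ n (x n)
        = (1 / 2 : ℂ) • (((Φ + (1 : ℂ) • ψ k) (q + (1 : ℂ) • x k) + ∑ n ∈ F, ψ n (x n))
          + ((Φ + (-1 : ℂ) • ψ k) (q + (-1 : ℂ) • x k) + ∑ n ∈ F, ψ n (x n))) := by
      rw [sum_insert hk]
      simp only [map_add, map_smul, LinearMap.add_apply, LinearMap.smul_apply]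
      module
    rw [h3, norm_smul]
    have h4 := norm_add_le ((Φ + (1 : ℂ) • ψ k) (q + (1 : ℂ) • x k) + ∑ n ∈ F, ψ n (x n))
      ((Φ + (-1 : ℂ) • ψ k) (q + (-1 : ℂ) • x k) + ∑ n ∈ F, ψ n (x n))
    have h5 : ‖(1 / 2 : ℂ)‖ = 1 / 2 := by norm_num
    rw [h5]
    linarith

/-- sign averaging, without the additional terms -/
lemma sign_avg0 {ι V Y : Type*} [AddCommGroup V] [Module ℂ V] [NormedAddCommGroup Y]
    [NormedSpace ℂ Y] (ψ : ι → V →ₗ[ℂ] Y) (x : ι → V) (M : ℝ) (F : Finset ι)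
    (h : ∀ ε : ι → ℂ, (∀ n, ε n = 1 ∨ ε n = -1) →
      ‖∑ n ∈ F, ε n • ψ n (∑ n ∈ F, ε n • x n)‖ ≤ M) :
    ‖∑ n ∈ F, ψ n (x n)‖ ≤ M := by
  have := sign_avg ψ x M F 0 0 (fun ε hε => by
    have := h ε hε
    rw [zero_add, zero_add, LinearMap.sum_apply]
    simpa only [LinearMap.smul_apply] using this)
  simpa using this

/-- an orthogonal family of idempotents `p` and a projection `β` such that `β a` is the sum of
the `p i * β a` and such that the diagonal sums of bounded bilinear forms are bounded -/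
structure Diag {Q : Type*} [NonUnitalNormedCommRing Q] [NormedSpace ℂ Q] {ι : Type*}
    (p : ι → Q) (β : Q →L[ℂ] Q) (K : ℝ) : Prop where
  K_nonneg : 0 ≤ K
  idem : ∀ i, p i * p i = p i
  orth : ∀ i j, i ≠ j → p i * p j = 0
  ββ : ∀ a, β (β a) = β a
  βp : ∀ i a, β (p i * β a) = p i * β a
  sum : ∀ a, HasSum (fun i => p i * β a) (β a)
  bound : ∀ (G : Q →L[ℂ] Q →L[ℂ] ℂ) (a : Q) (F : Finset ι),
    ‖∑ i ∈ F, G (p i) (p i * β a)‖ ≤ K * ‖G‖ * ‖β a‖

section Tau

variable {Q : Type*} [NonUnitalNormedCommRing Q] [NormedSpace ℂ Q] [IsScalarTower ℂ Q Q]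
  [SMulCommClass ℂ Q Q] {ι : Type*} {p : ι → Q} {β : Q →L[ℂ] Q} {K : ℝ}
variable {Y : Type*} [NormedAddCommGroup Y] [NormedSpace ℂ Y]

omit [IsScalarTower ℂ Q Q] [SMulCommClass ℂ Q Q] in
lemma Diag.bound' (D : Diag p β K) (G : Q →L[ℂ] Q →L[ℂ] Y) (a : Q) (F : Finset ι) :
    ‖∑ i ∈ F, G (p i) (p i * β a)‖ ≤ K * ‖G‖ * ‖β a‖ := by
  refine NormedSpace.norm_le_dual_bound ℂ _
    (mul_nonneg (mul_nonneg D.K_nonneg (norm_nonneg _)) (norm_nonneg _)) (fun f => ?_)
  have h1 := D.bound ((ContinuousLinearMap.compL ℂ Q Y ℂ f).comp G) a F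
  have h2 : ‖(ContinuousLinearMap.compL ℂ Q Y ℂ f).comp G‖ ≤ ‖f‖ * ‖G‖ := by
    refine (ContinuousLinearMap.opNorm_comp_le _ _).trans ?_
    refine mul_le_mul_of_nonneg_right ?_ (norm_nonneg _)
    refine ContinuousLinearMap.opNorm_le_bound _ (norm_nonneg _) (fun g => ?_)
    exact ContinuousLinearMap.opNorm_comp_le _ _
  have h3 : ∑ i ∈ F, ((ContinuousLinearMap.compL ℂ Q Y ℂ f).comp G) (p i) (p i * β a)
      = f (∑ i ∈ F, G (p i) (p i * β a)) := by
    rw [map_sum]; rfl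
  rw [h3] at h1
  refine h1.trans ?_
  have h4 := mul_le_mul_of_nonneg_right (mul_le_mul_of_nonneg_left h2 D.K_nonneg)
    (norm_nonneg (β a))
  calc _ ≤ _ := h4
    _ = _ := by ring

variable [CompleteSpace Y]

omit [IsScalarTower ℂ Q Q] [SMulCommClass ℂ Q Q] in
lemma Diag.summable (D : Diag p β K) (G : Q →L[ℂ] Q →L[ℂ] Y) (a : Q) :
    Summable (fun i => G (p i) (p i * β a)) := by
  classical
  rw [summable_iff_vanishing_norm]
  intro ε hε
  have hs := D.sum a
  have hpos : 0 < K * ‖G‖ + 1 := by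
    have := mul_nonneg D.K_nonneg (norm_nonneg G); linarith
  obtain ⟨s, hs'⟩ := (Metric.tendsto_atTop.1 hs) (ε / (K * ‖G‖ + 1)) (div_pos hε hpos)
  refine ⟨s, fun t ht => ?_⟩
  have h1 := hs' s le_rfl
  set a' : Q := β a - ∑ i ∈ s, p i * β a with ha'
  have hβ : β a' = a' := by
    rw [ha', map_sub, map_sum, D.ββ]
    congr 1
    exact sum_congr rfl (fun i _ => D.βp i a)
  have hp : ∀ i ∈ t, p i * β a' = p i * β a := by
    intro i hi
    have his : i ∉ s := fun h => Finset.disjoint_left.1 ht hi h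
    rw [hβ, ha', mul_sub, mul_sum, sum_eq_zero, sub_zero]
    intro j hj
    rw [← mul_assoc, D.orth i j (fun h => his (h ▸ hj)), zero_mul]
  have h2 := D.bound' G a' t
  rw [sum_congr rfl (fun i hi => by rw [hp i hi]), hβ] at h2
  have h3 : ‖a'‖ < ε / (K * ‖G‖ + 1) := by
    rw [ha', ← norm_neg, neg_sub]
    simpa [dist_eq_norm] using h1
  calc ‖∑ i ∈ t, G (p i) (p i * β a)‖ ≤ K * ‖G‖ * ‖a'‖ := h2
    _ ≤ (K * ‖G‖ + 1) * ‖a'‖ := by
        have := norm_nonneg a'
        nlinarith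
    _ < (K * ‖G‖ + 1) * (ε / (K * ‖G‖ + 1)) := mul_lt_mul_of_pos_left h3 hpos
    _ = ε := by field_simp

/-- the diagonal sum operator -/
noncomputable def Diag.tau (D : Diag p β K) (Y : Type*) [NormedAddCommGroup Y] [NormedSpace ℂ Y]
    [CompleteSpace Y] : (Q →L[ℂ] Q →L[ℂ] Y) →L[ℂ] (Q →L[ℂ] Y) :=
  LinearMap.mkContinuous₂
    (LinearMap.mk₂ ℂ (fun (G : Q →L[ℂ] Q →L[ℂ] Y) (a : Q) => ∑' i, G (p i) (p i * β a))
      (fun G H a => by
        rw [← (D.summable G a).tsum_add (D.summable H a)]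
        rfl)
      (fun c G a => by
        rw [← (D.summable G a).tsum_const_smul c]
        rfl)
      (fun G a b => by
        rw [← (D.summable G a).tsum_add (D.summable G b)]
        simp only [map_add, mul_add])
      (fun c G a => by
        rw [← (D.summable G a).tsum_const_smul c]
        simp only [map_smul, mul_smul_comm])) (K * ‖β‖) (fun G a => by
    show ‖∑' i, G (p i) (p i * β a)‖ ≤ _
    refine le_trans ?_ (?_ : K * ‖G‖ * ‖β a‖ ≤ _)
    · exact le_of_tendsto (D.summable G a).hasSum.norm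
        (Eventually.of_forall (fun F => D.bound' G a F))
    · calc K * ‖G‖ * ‖β a‖ ≤ K * ‖G‖ * (‖β‖ * ‖a‖) :=
            mul_le_mul_of_nonneg_left (β.le_opNorm a) (mul_nonneg D.K_nonneg (norm_nonneg _))
        _ = _ := by ring)

lemma Diag.hasSum_tau (D : Diag p β K) (G : Q →L[ℂ] Q →L[ℂ] Y) (a : Q) :
    HasSum (fun i => G (p i) (p i * β a)) (D.tau Y G a) :=
  (D.summable G a).hasSum

end Tau

end Pool.Agent.Helper53.Dim3
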