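import Mathlib

set_option autoImplicit false

namespace Pool.Agent.Helper53.Dim3

/-- A Banach bimodule structure on `Z` over the (possibly non-unital) Banach algebra `Q`:
`left a z` is `a z` and `right a z` is `z a`. -/
structure Bimod (Q : Type*) [NonUnitalNormedRing Q] [NormedSpace ℂ Q] (Z : Type*)
    [NormedAddCommGroup Z] [NormedSpace ℂ Z] where
  left : Q →L[ℂ] Z →L[ℂ] Z
  right : Q →L[ℂ] Z →L[ℂ] Z
  left_mul : ∀ a b z, left (a * b) z = left a (left b z)
  right_mul : ∀ a b z, right (a * b) z = right b (right a z)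
  left_right : ∀ a b z, left a (right b z) = right b (left a z)

/-- A Banach left module structure on `X` over the Banach algebra `A`. -/
structure LeftMod (A : Type*) [NonUnitalNormedRing A] [NormedSpace ℂ A] (X : Type*)
    [NormedAddCommGroup X] [NormedSpace ℂ X] where
  act : A →L[ℂ] X →L[ℂ] X
  act_mul : ∀ a b x, act (a * b) x = act a (act b x)

/-- The bimodule of bounded operators from `X` to `Y`: `(a φ)(x) = a (φ x)` and
`(φ a)(x) = φ (a x)`. -/
noncomputable def homBimod {A X Y : Type*} [NonUnitalNormedRing A] [NormedSpace ℂ A]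
    [NormedAddCommGroup X] [NormedSpace ℂ X] [NormedAddCommGroup Y] [NormedSpace ℂ Y]
    (mX : LeftMod A X) (mY : LeftMod A Y) : Bimod A (X →L[ℂ] Y) where
  left := (ContinuousLinearMap.compL ℂ X Y Y).comp mY.act
  right := (ContinuousLinearMap.compL ℂ X X Y).flip.comp mX.act
  left_mul := fun a b φ => by
    ext x
    exact mY.act_mul a b (φ x)
  right_mul := fun a b φ => by
    ext x
    exact congrArg φ (mX.act_mul a b x)
  left_right := fun a b φ => rfl

section

variable {Q Z : Type*} [NonUnitalNormedRing Q] [NormedSpace ℂ Q] [NormedAddCommGroup Z]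
  [NormedSpace ℂ Z]

/-- the bounded trilinear map `T` is a 3-cocycle -/
def IsCocycle3 (m : Bimod Q Z) (T : Q →L[ℂ] Q →L[ℂ] Q →L[ℂ] Z) : Prop :=
  ∀ a b c d, m.left a (T b c d) - T (a * b) c d + T a (b * c) d - T a b (c * d)
    + m.right d (T a b c) = 0

/-- the bounded trilinear map `T` is the coboundary of a bounded bilinear map -/
def IsCoboundary3 (m : Bimod Q Z) (T : Q →L[ℂ] Q →L[ℂ] Q →L[ℂ] Z) : Prop :=
  ∃ S : Q →L[ℂ] Q →L[ℂ] Z, ∀ a b c,
    T a b c = m.left a (S b c) - S (a * b) c + S a (b * c) - m.right c (S a b)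

/-- the bounded 4-linear map `T` is a 4-cocycle -/
def IsCocycle4 (m : Bimod Q Z) (T : Q →L[ℂ] Q →L[ℂ] Q →L[ℂ] Q →L[ℂ] Z) : Prop :=
  ∀ a b c d e, m.left a (T b c d e) - T (a * b) c d e + T a (b * c) d e - T a b (c * d) e
    + T a b c (d * e) - m.right e (T a b c d) = 0

/-- the bounded 4-linear map `T` is the coboundary of a bounded trilinear map -/
def IsCoboundary4 (m : Bimod Q Z) (T : Q →L[ℂ] Q →L[ℂ] Q →L[ℂ] Q →L[ℂ] Z) : Prop :=
  ∃ S : Q →L[ℂ] Q →L[ℂ] Q →L[ℂ] Z, ∀ a b c d,
    T a b c d = m.left a (S b c d) - S (a * b) c d + S a (b * c) d - S a b (c * d)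
      + m.right d (S a b c)

end

end Pool.Agent.Helper53.Dim3
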