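import Mathlib
import Pool.Agent.Helper53.Dim3A
import Pool.Agent.Helper53.Dim3Defs

set_option autoImplicit false
set_option maxSynthPendingDepth 3
set_option linter.unusedSectionVars false

namespace Pool.Agent.Helper53.Dim3

open Filter Topology Finset

lemma _root_.HasSum.ev {ι Q Y : Type*} [NormedAddCommGroup Q] [NormedSpace ℂ Q]
    [NormedAddCommGroup Y] [NormedSpace ℂ Y] {f : ι → Q →L[ℂ] Y} {s : Q →L[ℂ] Y}
    (h : HasSum f s) (c : Q) : HasSum (fun i => f i c) (s c) :=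
  (ContinuousLinearMap.apply ℂ Y c).hasSum h

lemma single_of_hasSum {ι Y : Type*} [NormedAddCommGroup Y] {f : ι → Y} {s : Y}
    (h : HasSum f s) (j : ι) (hf : ∀ i, i ≠ j → f i = 0) : s = f j :=
  h.unique (hasSum_single j hf)

section

variable {Q : Type*} [NonUnitalNormedCommRing Q] [NormedSpace ℂ Q] [IsScalarTower ℂ Q Q]
  [SMulCommClass ℂ Q Q]
variable {Z : Type*} [NormedAddCommGroup Z] [NormedSpace ℂ Z]

/-- the coboundary of a bounded 2-cochain, as a bounded 3-cochain -/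
noncomputable def d2 (m : Bimod Q Z) (S : Q →L[ℂ] Q →L[ℂ] Z) : Q →L[ℂ] Q →L[ℂ] Q →L[ℂ] Z :=
  ((ContinuousLinearMap.compL ℂ Q (Q →L[ℂ] Z) (Q →L[ℂ] Z)).flip S).comp
      ((ContinuousLinearMap.compL ℂ Q Z Z).comp m.left)
    - (ContinuousLinearMap.compL ℂ Q Q (Q →L[ℂ] Z) S).comp (ContinuousLinearMap.mul ℂ Q)
    + ((ContinuousLinearMap.compL ℂ Q (Q →L[ℂ] Q) (Q →L[ℂ] Z)).flip
        (ContinuousLinearMap.mul ℂ Q)).comp ((ContinuousLinearMap.compL ℂ Q Q Z).comp S)
    - (ContinuousLinearMap.compL ℂ Q Z (Q →L[ℂ] Z) m.right.flip).comp S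

@[simp] lemma d2_apply (m : Bimod Q Z) (S : Q →L[ℂ] Q →L[ℂ] Z) (a b c : Q) :
    d2 m S a b c = m.left a (S b c) - S (a * b) c + S a (b * c) - m.right c (S a b) := rfl

/-- the cocycle identity for 3-cochains -/
def Coc3 (m : Bimod Q Z) (T : Q →L[ℂ] Q →L[ℂ] Q →L[ℂ] Z) : Prop :=
  ∀ a b c d, m.left a (T b c d) - T (a * b) c d + T a (b * c) d - T a b (c * d)
    + m.right d (T a b c) = 0

lemma coc_d2 (m : Bimod Q Z) (S : Q →L[ℂ] Q →L[ℂ] Z) : Coc3 m (d2 m S) := by
  intro a b c d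
  simp only [d2_apply, map_add, map_sub, m.left_mul, m.right_mul, m.left_right, mul_assoc]
  abel

lemma Coc3.add {m : Bimod Q Z} {T T' : Q →L[ℂ] Q →L[ℂ] Q →L[ℂ] Z} (h : Coc3 m T)
    (h' : Coc3 m T') : Coc3 m (T + T') := by
  intro a b c d
  have h1 := h a b c d
  have h2 := h' a b c d
  simp only [add_apply, map_add]
  calc _ = (m.left a (T b c d) - T (a * b) c d + T a (b * c) d - T a b (c * d)
    + m.right d (T a b c)) + (m.left a (T' b c d) - T' (a * b) c d + T' a (b * c) d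
    - T' a b (c * d) + m.right d (T' a b c)) := by abel
    _ = 0 := by rw [h1, h2, add_zero]

lemma d2_add (m : Bimod Q Z) (S S' : Q →L[ℂ] Q →L[ℂ] Z) : d2 m (S + S') = d2 m S + d2 m S' := by
  ext a b c
  simp only [d2_apply, add_apply, map_add]
  abel

lemma d2_neg (m : Bimod Q Z) (S : Q →L[ℂ] Q →L[ℂ] Z) : d2 m (-S) = -d2 m S := by
  ext a b c
  simp only [d2_apply, neg_apply, map_neg]
  abel

/-- a set `B` closed under products, containing the idempotents, and a closed subspace stable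
under its actions -/
structure SubPair (m : Bimod Q Z) {ι : Type*} (p : ι → Q) where
  B : Set Q
  V : Submodule ℂ Z
  closed : IsClosed (V : Set Z)
  p_mem : ∀ i, p i ∈ B
  mul_mem : ∀ a ∈ B, ∀ b ∈ B, a * b ∈ B
  left_mem : ∀ a ∈ B, ∀ v ∈ V, m.left a v ∈ V
  right_mem : ∀ a ∈ B, ∀ v ∈ V, m.right a v ∈ V

variable {m : Bimod Q Z} {ι : Type*} {p : ι → Q}

/-- the 3-cochain maps `B` to `V` -/
def SubPair.Maps3 (P : SubPair m p) (T : Q →L[ℂ] Q →L[ℂ] Q →L[ℂ] Z) : Prop :=
  ∀ a ∈ P.B, ∀ b ∈ P.B, ∀ c ∈ P.B, T a b c ∈ P.V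

/-- the 2-cochain maps `B` to `V` -/
def SubPair.Maps2 (P : SubPair m p) (S : Q →L[ℂ] Q →L[ℂ] Z) : Prop :=
  ∀ a ∈ P.B, ∀ b ∈ P.B, S a b ∈ P.V

lemma SubPair.mem_of_hasSum (P : SubPair m p) {κ : Type*} {f : κ → Z} {s : Z} (h : HasSum f s)
    (hf : ∀ i, f i ∈ P.V) : s ∈ P.V := by
  refine P.closed.mem_of_tendsto h (Eventually.of_forall (fun F => ?_))
  exact Submodule.sum_mem _ (fun i _ => hf i)

lemma SubPair.maps_add (P : SubPair m p) {T T' : Q →L[ℂ] Q →L[ℂ] Q →L[ℂ] Z} (h : P.Maps3 T)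
    (h' : P.Maps3 T') : P.Maps3 (T + T') := fun a ha b hb c hc =>
  P.V.add_mem (h a ha b hb c hc) (h' a ha b hb c hc)

lemma SubPair.maps_d2 (P : SubPair m p) {S : Q →L[ℂ] Q →L[ℂ] Z} (h : P.Maps2 S) :
    P.Maps3 (d2 m S) := by
  intro a ha b hb c hc
  rw [d2_apply]
  refine P.V.sub_mem (P.V.add_mem (P.V.sub_mem ?_ ?_) ?_) ?_
  · exact P.left_mem a ha _ (h b hb c hc)
  · exact h _ (P.mul_mem a ha b hb) c hc
  · exact h a ha _ (P.mul_mem b hb c hc)
  · exact P.right_mem c hc _ (h a ha b hb)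

/-- modularity conditions for 3-cochains -/
def LL (m : Bimod Q Z) (p : ι → Q) (T : Q →L[ℂ] Q →L[ℂ] Q →L[ℂ] Z) : Prop :=
  ∀ j a b c, T (p j * a) b c = m.left (p j) (T a b c)

/-- modularity conditions for 3-cochains -/
def B12 (p : ι → Q) (T : Q →L[ℂ] Q →L[ℂ] Q →L[ℂ] Z) : Prop :=
  ∀ j a b c, T (p j * a) b c = T a (p j * b) c

/-- modularity conditions for 3-cochains -/
def B23 (p : ι → Q) (T : Q →L[ℂ] Q →L[ℂ] Q →L[ℂ] Z) : Prop :=
  ∀ j a b c, T a (p j * b) c = T a b (p j * c)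

/-- modularity conditions for 3-cochains -/
def RL (m : Bimod Q Z) (p : ι → Q) (T : Q →L[ℂ] Q →L[ℂ] Q →L[ℂ] Z) : Prop :=
  ∀ j a b c, T a b (p j * c) = m.right (p j) (T a b c)

variable [CompleteSpace Z] {K : ℝ}

section Steps

variable (D : Diag p (ContinuousLinearMap.id ℂ Q) K)
include D

lemma pp (i : ι) (a : Q) : p i * (p i * a) = p i * a := by rw [← mul_assoc, D.idem]

lemma pq {i j : ι} (h : i ≠ j) (a : Q) : p i * (p j * a) = 0 := by
  rw [← mul_assoc, D.orth i j h, zero_mul]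

lemma hasSum_p (a : Q) : HasSum (fun i => p i * a) a := D.sum a

lemma hasSum_p' {Y : Type*} [NormedAddCommGroup Y] [NormedSpace ℂ Y] (f : Q →L[ℂ] Y) (a : Q) :
    HasSum (fun i => f (p i * a)) (f a) := f.hasSum (D.sum a)

lemma hasSum_t {Y : Type*} [NormedAddCommGroup Y] [NormedSpace ℂ Y] [CompleteSpace Y]
    (G : Q →L[ℂ] Q →L[ℂ] Y) (a : Q) : HasSum (fun i => G (p i) (p i * a)) (D.tau Y G a) :=
  D.hasSum_tau G a

lemma step1_hasSum {T : Q →L[ℂ] Q →L[ℂ] Q →L[ℂ] Z} (hT : Coc3 m T) (a b c : Q) :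
    HasSum (fun i => m.left (p i) (T (p i * a) b c))
      ((T + d2 m (D.tau _ T)) a b c - m.left a (D.tau _ T b c)) := by
  have h1 := (hasSum_t D T (a * b)).ev c
  have h2 := (hasSum_t D T a).ev (b * c)
  have h3 := (m.right c).hasSum ((hasSum_t D T a).ev b)
  have h4 := ((hasSum_p' D T a).ev b).ev c
  have h := ((h4.sub h1).add h2).sub h3
  convert h using 1
  · funext i
    have e := hT (p i) (p i * a) b c
    rw [pp D, mul_assoc] at e
    linear_combination (norm := abel) e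
  · rw [add_apply, add_apply, add_apply, d2_apply]
    abel

lemma step1_LL {T : Q →L[ℂ] Q →L[ℂ] Q →L[ℂ] Z} (hT : Coc3 m T) :
    LL m p (T + d2 m (D.tau _ T)) := by
  intro j a b c
  have h1 := step1_hasSum D hT (p j * a) b c
  have h2 := (m.left (p j)).hasSum (step1_hasSum D hT a b c)
  have e1 := single_of_hasSum h1 j (fun i hi => by rw [pq D hi]; simp)
  have e2 := single_of_hasSum h2 j (fun i hi => by
    rw [← m.left_mul, D.orth j i hi.symm]; simp)
  rw [pp D] at e1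
  rw [← m.left_mul, D.idem, map_sub, ← m.left_mul] at e2
  have := e1.trans e2.symm
  exact sub_left_injective this

lemma stepLL {T : Q →L[ℂ] Q →L[ℂ] Q →L[ℂ] Z} (hT : Coc3 m T) :
    ∃ S : Q →L[ℂ] Q →L[ℂ] Z, (∀ P : SubPair m p, P.Maps3 T → P.Maps2 S) ∧
      LL m p (T + d2 m S) := by
  refine ⟨D.tau _ T, fun P hP a ha b hb => ?_, step1_LL D hT⟩
  refine P.mem_of_hasSum ((hasSum_t D T a).ev b) (fun i => ?_)
  exact hP _ (P.p_mem i) _ (P.mul_mem _ (P.p_mem i) a ha) b hb

/-- the operation on the second and third slot -/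
noncomputable def tau2 (T : Q →L[ℂ] Q →L[ℂ] Q →L[ℂ] Z) : Q →L[ℂ] Q →L[ℂ] Z :=
  (D.tau Z).comp T

lemma hasSum_tau2 (T : Q →L[ℂ] Q →L[ℂ] Q →L[ℂ] Z) (a b : Q) :
    HasSum (fun i => T a (p i) (p i * b)) (tau2 D T a b) := hasSum_t D (T a) b

/-- the operation on the second and third slot, flipped -/
noncomputable def tau3 (T : Q →L[ℂ] Q →L[ℂ] Q →L[ℂ] Z) : Q →L[ℂ] Q →L[ℂ] Z :=
  (D.tau Z).comp ((ContinuousLinearMap.flipₗᵢ ℂ Q Q Z).toContinuousLinearEquiv.toContinuousLinearMap.comp T)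

lemma hasSum_tau3 (T : Q →L[ℂ] Q →L[ℂ] Q →L[ℂ] Z) (a b : Q) :
    HasSum (fun i => T a (p i * b) (p i)) (tau3 D T a b) := hasSum_t D (T a).flip b

/-- the operation on the first and second slot, flipped -/
noncomputable def tau1 (T : Q →L[ℂ] Q →L[ℂ] Q →L[ℂ] Z) : Q →L[ℂ] Q →L[ℂ] Z :=
  D.tau _ T.flip

lemma hasSum_tau1 (T : Q →L[ℂ] Q →L[ℂ] Q →L[ℂ] Z) (a b : Q) :
    HasSum (fun i => T (p i * a) (p i) b) (tau1 D T a b) := (hasSum_t D T.flip a).ev b

lemma tau2_LL {T : Q →L[ℂ] Q →L[ℂ] Q →L[ℂ] Z} (hLL : LL m p T) (j : ι) (a b : Q) :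
    tau2 D T (p j * a) b = m.left (p j) (tau2 D T a b) := by
  refine (hasSum_tau2 D T (p j * a) b).unique ?_
  have h := (m.left (p j)).hasSum (hasSum_tau2 D T a b)
  have e : (fun i => T (p j * a) (p i) (p i * b)) = fun i => m.left (p j) (T a (p i) (p i * b)) :=
    funext (fun i => hLL j _ _ _)
  rw [e]; exact h

lemma tau3_LL {T : Q →L[ℂ] Q →L[ℂ] Q →L[ℂ] Z} (hLL : LL m p T) (j : ι) (a b : Q) :
    tau3 D T (p j * a) b = m.left (p j) (tau3 D T a b) := by
  refine (hasSum_tau3 D T (p j * a) b).unique ?_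
  have h := (m.left (p j)).hasSum (hasSum_tau3 D T a b)
  have e : (fun i => T (p j * a) (p i * b) (p i)) = fun i => m.left (p j) (T a (p i * b) (p i)) :=
    funext (fun i => hLL j _ _ _)
  rw [e]; exact h

lemma tau1_LL {T : Q →L[ℂ] Q →L[ℂ] Q →L[ℂ] Z} (hLL : LL m p T) (j : ι) (a b : Q) :
    tau1 D T (p j * a) b = m.left (p j) (tau1 D T a b) := by
  refine (hasSum_tau1 D T (p j * a) b).unique ?_
  have h := (m.left (p j)).hasSum (hasSum_tau1 D T a b)
  have e : (fun i => T (p i * (p j * a)) (p i) b) = fun i => m.left (p j) (T (p i * a) (p i) b) :=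
    funext (fun i => by rw [mul_left_comm]; exact hLL j _ _ _)
  rw [e]; exact h

omit D [CompleteSpace Z] in
lemma d2_LL {S : Q →L[ℂ] Q →L[ℂ] Z} (h : ∀ j a b, S (p j * a) b = m.left (p j) (S a b)) :
    LL m p (d2 m S) := by
  intro j a b c
  simp only [d2_apply, mul_assoc, h, map_add, map_sub, m.left_mul, m.left_right]

omit D [CompleteSpace Z] in
lemma LL_add {T T' : Q →L[ℂ] Q →L[ℂ] Q →L[ℂ] Z} (h : LL m p T) (h' : LL m p T') :
    LL m p (T + T') := by
  intro j a b c
  simp only [add_apply, h j a b c, h' j a b c, map_add]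

omit D [CompleteSpace Z] in
lemma RL_add {T T' : Q →L[ℂ] Q →L[ℂ] Q →L[ℂ] Z} (h : RL m p T) (h' : RL m p T') :
    RL m p (T + T') := by
  intro j a b c
  simp only [add_apply, h j a b c, h' j a b c, map_add]

/-- second step -/
lemma step2_hasSum {T : Q →L[ℂ] Q →L[ℂ] Q →L[ℂ] Z} (hT : Coc3 m T) (a b c : Q) :
    HasSum (fun i => T (p i * a) (p i * b) c)
      ((T + d2 m (-tau2 D T)) a b c + m.left a (D.tau _ T b c) + m.left a (tau2 D T b c)
        - tau2 D T (a * b) c) := by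
  have h1 := (m.left a).hasSum ((hasSum_t D T b).ev c)
  have h2 := ((hasSum_p' D (T a) b).ev c)
  have h3 := hasSum_tau2 D T a (b * c)
  have h4 := (m.right c).hasSum (hasSum_tau2 D T a b)
  have h := ((h1.add h2).sub h3).add h4
  convert h using 1
  · funext i
    have e := hT a (p i) (p i * b) c
    rw [pp D, mul_comm a, mul_assoc] at e
    linear_combination (norm := abel) -e
  · rw [add_apply, add_apply, add_apply, d2_apply]
    simp only [neg_apply, map_neg]
    abel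

lemma stepB12 {T : Q →L[ℂ] Q →L[ℂ] Q →L[ℂ] Z} (hT : Coc3 m T) (hLL : LL m p T) :
    ∃ S : Q →L[ℂ] Q →L[ℂ] Z, (∀ P : SubPair m p, P.Maps3 T → P.Maps2 S) ∧
      LL m p (T + d2 m S) ∧ B12 p (T + d2 m S) := by
  refine ⟨-tau2 D T, fun P hP a ha b hb => ?_, ?_, ?_⟩
  · refine P.V.neg_mem (P.mem_of_hasSum (hasSum_tau2 D T a b) (fun i => ?_))
    exact hP a ha _ (P.p_mem i) _ (P.mul_mem _ (P.p_mem i) b hb)
  · refine LL_add hLL (d2_LL (fun j a b => ?_))
    rw [neg_apply, neg_apply, neg_apply, neg_apply, tau2_LL D hLL, map_neg]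
  · intro j a b c
    have h1 := step2_hasSum D hT (p j * a) b c
    have h2 := step2_hasSum D hT a (p j * b) c
    have e1 := single_of_hasSum h1 j (fun i hi => by rw [pq D hi]; simp)
    have e2 := single_of_hasSum h2 j (fun i hi => by rw [pq D hi]; simp)
    rw [pp D] at e1 e2
    have e3 := e1.trans e2.symm
    have e4 : m.left (p j * a) (D.tau _ T b c) = m.left a (D.tau _ T (p j * b) c) := by
      have g1 := (m.left (p j)).hasSum ((hasSum_t D T b).ev c)
      have g2 := (hasSum_t D T (p j * b)).ev c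
      have k1 := single_of_hasSum g1 j (fun i hi => by
        rw [← hLL, D.orth j i hi.symm]; simp)
      have k2 := single_of_hasSum g2 j (fun i hi => by rw [pq D hi]; simp)
      rw [← hLL, D.idem] at k1
      rw [pp D] at k2
      rw [mul_comm, m.left_mul, k1, k2]
    have e5 : m.left (p j * a) (tau2 D T b c) = m.left a (tau2 D T (p j * b) c) := by
      rw [mul_comm, m.left_mul, tau2_LL D hLL]
    have e6 : p j * a * b = a * (p j * b) := by rw [mul_left_comm, mul_assoc]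
    rw [e4, e5, e6] at e3
    exact add_left_injective _ (add_left_injective _ (sub_left_injective e3))

/-- third step -/
lemma step3_hasSum {T : Q →L[ℂ] Q →L[ℂ] Q →L[ℂ] Z} (hT : Coc3 m T) (a b c : Q) :
    HasSum (fun i => m.right (p i) (T a b (p i * c)))
      ((T + d2 m (-tau3 D T)) a b c - m.right c (tau3 D T a b)) := by
  have h1 := (m.left a).hasSum (hasSum_tau3 D T b c)
  have h2 := hasSum_tau3 D T (a * b) c
  have h3 := hasSum_tau3 D T a (b * c)
  have h4 := hasSum_p' D (T a b) c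
  have h := ((h4.sub h1).add h2).sub h3
  convert h using 1
  · funext i
    have e := hT a b (p i * c) (p i)
    rw [mul_comm (p i * c) (p i), pp D, mul_left_comm b (p i) c] at e
    linear_combination (norm := abel) e
  · rw [add_apply, add_apply, add_apply, d2_apply]
    simp only [neg_apply, map_neg]
    abel

lemma stepRL {T : Q →L[ℂ] Q →L[ℂ] Q →L[ℂ] Z} (hT : Coc3 m T) (hLL : LL m p T)
    (hB : B12 p T) :
    ∃ S : Q →L[ℂ] Q →L[ℂ] Z, (∀ P : SubPair m p, P.Maps3 T → P.Maps2 S) ∧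
      LL m p (T + d2 m S) ∧ B12 p (T + d2 m S) ∧ RL m p (T + d2 m S) := by
  refine ⟨-tau3 D T, fun P hP a ha b hb => ?_, ?_, ?_, ?_⟩
  · refine P.V.neg_mem (P.mem_of_hasSum (hasSum_tau3 D T a b) (fun i => ?_))
    exact hP a ha _ (P.mul_mem _ (P.p_mem i) b hb) _ (P.p_mem i)
  · refine LL_add hLL (d2_LL (fun j a b => ?_))
    rw [neg_apply, neg_apply, neg_apply, neg_apply, tau3_LL D hLL, map_neg]
  · intro j a b c
    have h1 := step3_hasSum D hT (p j * a) b c
    have h2 := step3_hasSum D hT a (p j * b) c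
    have e0 : tau3 D T (p j * a) b = tau3 D T a (p j * b) := by
      refine (hasSum_tau3 D T (p j * a) b).unique ?_
      have := hasSum_tau3 D T a (p j * b)
      convert this using 2 with i
      rw [hB, mul_left_comm]
    have e1 : (fun i => m.right (p i) (T (p j * a) b (p i * c)))
        = fun i => m.right (p i) (T a (p j * b) (p i * c)) := by
      funext i; rw [hB]
    rw [e1, e0] at h1
    exact sub_left_injective (h1.unique h2)
  · intro j a b c
    have h1 := step3_hasSum D hT a b (p j * c)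
    have h2 := (m.right (p j)).hasSum (step3_hasSum D hT a b c)
    have e1 := single_of_hasSum h1 j (fun i hi => by rw [pq D hi]; simp)
    have e2 := single_of_hasSum h2 j (fun i hi => by
      rw [← m.right_mul, D.orth i j hi]; simp)
    rw [pp D] at e1
    rw [← m.right_mul, D.idem, map_sub, ← m.right_mul, mul_comm c] at e2
    exact sub_left_injective (e1.trans e2.symm)

lemma step4_F1 {T : Q →L[ℂ] Q →L[ℂ] Q →L[ℂ] Z} (hT : Coc3 m T) (hB : B12 p T) (a b c : Q) :
    HasSum (fun i => m.left (p i * a) (T (p i) b c))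
      (tau1 D T a (b * c) - m.right c (tau1 D T a b)) := by
  have h1 := hasSum_tau1 D T a (b * c)
  have h2 := (m.right c).hasSum (hasSum_tau1 D T a b)
  convert h1.sub h2 using 1
  funext i
  have e := hT (p i * a) (p i) b c
  rw [mul_comm (p i * a) (p i), pp D, ← hB i (p i * a) b c, pp D] at e
  linear_combination (norm := abel) e

lemma step4_F2 {T : Q →L[ℂ] Q →L[ℂ] Q →L[ℂ] Z} (hT : Coc3 m T) (a b c : Q) :
    HasSum (fun i => T a (p i * b) (p i * c))
      (T a b c + m.left a (tau1 D T b c) - tau1 D T (a * b) c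
        + m.right c (tau3 D T a b)) := by
  have h1 := (m.left a).hasSum (hasSum_tau1 D T b c)
  have h2 := hasSum_tau1 D T (a * b) c
  have h3 := (hasSum_p' D (T a) b).ev c
  have h4 := (m.right c).hasSum (hasSum_tau3 D T a b)
  have h := ((h3.add h1).sub h2).add h4
  convert h using 1
  funext i
  have e := hT a (p i * b) (p i) c
  rw [mul_comm (p i * b) (p i), pp D, mul_left_comm a (p i) b] at e
  linear_combination (norm := abel) -e

omit D [CompleteSpace Z] in
lemma d2_RL {S : Q →L[ℂ] Q →L[ℂ] Z} (h : ∀ j a b, S a (p j * b) = m.right (p j) (S a b)) :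
    RL m p (d2 m S) := by
  intro j a b c
  have e : m.right (p j * c) (S a b) = m.right (p j) (m.right c (S a b)) := by
    rw [mul_comm, m.right_mul]
  simp only [d2_apply, mul_left_comm b, h, map_add, map_sub, e, m.left_right]

lemma tau1_RL {T : Q →L[ℂ] Q →L[ℂ] Q →L[ℂ] Z} (hRL : RL m p T) (j : ι) (a b : Q) :
    tau1 D T a (p j * b) = m.right (p j) (tau1 D T a b) := by
  refine (hasSum_tau1 D T a (p j * b)).unique ?_
  have h := (m.right (p j)).hasSum (hasSum_tau1 D T a b)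
  have e : (fun i => T (p i * a) (p i) (p j * b)) = fun i => m.right (p j) (T (p i * a) (p i) b) :=
    funext (fun i => hRL j _ _ _)
  rw [e]; exact h

/-- full modularity -/
structure Mod3 (m : Bimod Q Z) (p : ι → Q) (T : Q →L[ℂ] Q →L[ℂ] Q →L[ℂ] Z) : Prop where
  ll : LL m p T
  b12 : B12 p T
  b23 : B23 p T
  rl : RL m p T

lemma stepB23 {T : Q →L[ℂ] Q →L[ℂ] Q →L[ℂ] Z} (hT : Coc3 m T) (hLL : LL m p T)
    (hB : B12 p T) (hRL : RL m p T) :
    ∃ S : Q →L[ℂ] Q →L[ℂ] Z, (∀ P : SubPair m p, P.Maps3 T → P.Maps2 S) ∧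
      Mod3 m p (T + d2 m S) := by
  have hS := tau1_LL D hLL
  have hS' := tau1_RL D hRL
  refine ⟨tau1 D T, fun P hP a ha b hb => ?_, LL_add hLL (d2_LL hS), ?_, ?_,
    RL_add hRL (d2_RL hS')⟩
  · refine P.mem_of_hasSum (hasSum_tau1 D T a b) (fun i => ?_)
    exact hP _ (P.mul_mem _ (P.p_mem i) a ha) _ (P.p_mem i) b hb
  · intro j a b c
    have h1 := step4_F1 D hT hB (p j * a) b c
    have h2 := step4_F1 D hT hB a (p j * b) c
    have e1 := single_of_hasSum h1 j (fun i hi => by rw [pq D hi]; simp)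
    have e2 := single_of_hasSum h2 j (fun i hi => by
      rw [← hB j, D.orth j i hi.symm]; simp)
    rw [pp D] at e1
    rw [← hB j, D.idem] at e2
    have e3 := e1.trans e2.symm
    have e4 : m.left a (tau1 D T (p j * b) c) = m.left (p j * a) (tau1 D T b c) := by
      rw [hS, ← m.left_mul, mul_comm a]
    simp only [add_apply, d2_apply]
    rw [hB j, e4, mul_left_comm a (p j) b, mul_assoc (p j) a b]
    linear_combination (norm := abel) e3
  · intro j a b c
    have h1 := step4_F2 D hT a (p j * b) c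
    have h2 := step4_F2 D hT a b (p j * c)
    have e1 := single_of_hasSum h1 j (fun i hi => by rw [pq D hi]; simp)
    have e2 := single_of_hasSum h2 j (fun i hi => by rw [pq D hi]; simp)
    rw [pp D] at e1 e2
    have e3 := e1.trans e2.symm
    have h3 := hasSum_tau3 D T a (p j * b)
    have h4 := (m.right (p j)).hasSum (hasSum_tau3 D T a b)
    have e4 := single_of_hasSum h3 j (fun i hi => by rw [pq D hi]; simp)
    have e5 := single_of_hasSum h4 j (fun i hi => by
      rw [← hRL, D.orth j i hi.symm]; simp)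
    rw [pp D] at e4
    rw [← hRL, D.idem] at e5
    have e6 : m.right (p j * c) (tau3 D T a b) = m.right c (tau3 D T a (p j * b)) := by
      rw [m.right_mul, e5, e4]
    have e7 : m.right (p j * c) (tau1 D T a b) = m.right c (tau1 D T a (p j * b)) := by
      rw [m.right_mul, hS']
    simp only [add_apply, d2_apply]
    rw [e7, mul_left_comm b (p j) c, mul_assoc (p j) b c]
    rw [e6] at e3
    linear_combination (norm := abel) e3

/-- reduction of a 3-cocycle to a modular one -/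
theorem M3 {T : Q →L[ℂ] Q →L[ℂ] Q →L[ℂ] Z} (hT : Coc3 m T) :
    ∃ S : Q →L[ℂ] Q →L[ℂ] Z, (∀ P : SubPair m p, P.Maps3 T → P.Maps2 S) ∧
      Mod3 m p (T + d2 m S) := by
  obtain ⟨S1, h1, k1⟩ := stepLL D hT
  obtain ⟨S2, h2, k2, l2⟩ := stepB12 D (hT.add (coc_d2 m S1)) k1
  obtain ⟨S3, h3, k3, l3, n3⟩ := stepRL D ((hT.add (coc_d2 m S1)).add (coc_d2 m S2)) k2 l2
  obtain ⟨S4, h4, k4⟩ := stepB23 D (((hT.add (coc_d2 m S1)).add (coc_d2 m S2)).add
    (coc_d2 m S3)) k3 l3 n3
  refine ⟨S1 + S2 + S3 + S4, fun P hP => ?_, ?_⟩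
  · have g1 := h1 P hP
    have q1 := P.maps_add hP (P.maps_d2 g1)
    have g2 := h2 P q1
    have q2 := P.maps_add q1 (P.maps_d2 g2)
    have g3 := h3 P q2
    have q3 := P.maps_add q2 (P.maps_d2 g3)
    have g4 := h4 P q3
    intro a ha b hb
    exact P.V.add_mem (P.V.add_mem (P.V.add_mem (g1 a ha b hb) (g2 a ha b hb)) (g3 a ha b hb))
      (g4 a ha b hb)
  · rw [d2_add, d2_add, d2_add, ← add_assoc, ← add_assoc, ← add_assoc]
    exact k4

end Steps

end

end Pool.Agent.Helper53.Dim3
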