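import Mathlib
import Pool.Agent.Helper53.Dim3B

set_option autoImplicit false
set_option maxSynthPendingDepth 3
set_option linter.unusedSectionVars false

namespace Pool.Agent.Helper53.Dim3

open Filter Topology Finset

section

variable {Q : Type*} [NonUnitalNormedCommRing Q] [NormedSpace ℂ Q] [IsScalarTower ℂ Q Q]
  [SMulCommClass ℂ Q Q]
variable {Z : Type*} [NormedAddCommGroup Z] [NormedSpace ℂ Z]
variable {m : Bimod Q Z} {ι : Type*} {p : ι → Q}

/-- modular 2-cochains -/
structure Mod2 (m : Bimod Q Z) (p : ι → Q) (S : Q →L[ℂ] Q →L[ℂ] Z) : Prop where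
  ll : ∀ j a b, S (p j * a) b = m.left (p j) (S a b)
  b : ∀ j a b, S (p j * a) b = S a (p j * b)
  rl : ∀ j a b, S a (p j * b) = m.right (p j) (S a b)

lemma Mod2.neg {S : Q →L[ℂ] Q →L[ℂ] Z} (h : Mod2 m p S) : Mod2 m p (-S) where
  ll := fun j a b => by simp only [neg_apply, h.ll, map_neg]
  b := fun j a b => by simp only [neg_apply, h.b]
  rl := fun j a b => by simp only [neg_apply, h.rl, map_neg]

lemma Mod3.add {T T' : Q →L[ℂ] Q →L[ℂ] Q →L[ℂ] Z} (h : Mod3 m p T) (h' : Mod3 m p T') :
    Mod3 m p (T + T') where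
  ll := LL_add h.ll h'.ll
  b12 := fun j a b c => by
    simp only [add_apply]; rw [h.b12 j a b c, h'.b12 j a b c]
  b23 := fun j a b c => by
    simp only [add_apply]; rw [h.b23 j a b c, h'.b23 j a b c]
  rl := RL_add h.rl h'.rl

lemma Mod2.d2 {S : Q →L[ℂ] Q →L[ℂ] Z} (h : Mod2 m p S) : Mod3 m p (d2 m S) where
  ll := d2_LL h.ll
  rl := d2_RL h.rl
  b12 := fun j a b c => by
    simp only [d2_apply]
    rw [h.b j a (b * c), h.b j a b, mul_left_comm a (p j) b, mul_assoc (p j) a b,
      mul_assoc (p j) b c, h.ll j b c, ← m.left_mul, mul_comm a (p j)]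
  b23 := fun j a b c => by
    simp only [d2_apply]
    rw [h.b j b c, mul_left_comm a (p j) b, h.b j (a * b) c, h.rl j a b, ← m.right_mul,
      mul_assoc (p j) b c, mul_left_comm b (p j) c]

variable [CompleteSpace Z] {K : ℝ}

section Norm

variable (D : Diag p (ContinuousLinearMap.id ℂ Q) K)
include D

lemma tau_mod2 {T : Q →L[ℂ] Q →L[ℂ] Q →L[ℂ] Z} (h : Mod3 m p T) : Mod2 m p (D.tau _ T) where
  ll := fun j a b => by
    have h1 := (hasSum_t D T (p j * a)).ev b
    have h2 := (m.left (p j)).hasSum ((hasSum_t D T a).ev b)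
    have e1 := single_of_hasSum h1 j (fun i hi => by rw [pq D hi]; simp)
    have e2 := single_of_hasSum h2 j (fun i hi => by
      rw [← h.ll, D.orth j i hi.symm]; simp)
    rw [pp D] at e1
    rw [← h.ll, D.idem] at e2
    rw [e1, e2]
  b := fun j a b => by
    refine ((hasSum_t D T (p j * a)).ev b).unique ?_
    convert (hasSum_t D T a).ev (p j * b) using 1
    funext i
    rw [mul_left_comm]
    exact h.b23 j _ _ _
  rl := fun j a b => by
    refine ((hasSum_t D T a).ev (p j * b)).unique ?_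
    convert (m.right (p j)).hasSum ((hasSum_t D T a).ev b) using 1
    funext i
    exact h.rl j _ _ _

lemma tau1_mod2 {T : Q →L[ℂ] Q →L[ℂ] Q →L[ℂ] Z} (h : Mod3 m p T) : Mod2 m p (tau1 D T) where
  ll := tau1_LL D h.ll
  b := fun j a b => by
    have h1 := hasSum_tau1 D T (p j * a) b
    have h2 := hasSum_tau1 D T a (p j * b)
    refine h1.unique ?_
    convert h2 using 1
    funext i
    rw [mul_left_comm, h.b12 j, h.b23 j]
  rl := tau1_RL D h.rl

lemma norm1 {T : Q →L[ℂ] Q →L[ℂ] Q →L[ℂ] Z} (hT : Coc3 m T) (h : Mod3 m p T) :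
    ∃ S, Mod3 m p (T + d2 m S) ∧ ∀ j b c, (T + d2 m S) (p j) b c = 0 := by
  have hS := tau_mod2 D h
  refine ⟨-D.tau _ T, h.add hS.neg.d2, fun j b c => ?_⟩
  have h1 := step1_hasSum D hT (p j) b c
  have h2 := (hasSum_p' D T (p j)).ev b |>.ev c
  have e1 : (fun i => m.left (p i) (T (p i * p j) b c)) = fun i => T (p i * p j) b c := by
    funext i
    rw [← h.ll, pp D]
  rw [e1] at h1
  have e2 := h1.unique h2
  have h3 := (m.left (p j)).hasSum ((hasSum_t D T b).ev c)
  have e3 := single_of_hasSum h3 j (fun i hi => by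
    rw [← h.ll, D.orth j i hi.symm]; simp)
  rw [← h.ll, D.idem, ← h.b12 j (p j) b c, D.idem] at e3
  rw [d2_neg]
  simp only [add_apply, neg_apply] at e2 ⊢
  rw [e3] at e2
  linear_combination (norm := abel) -e2

lemma norm2 {T : Q →L[ℂ] Q →L[ℂ] Q →L[ℂ] Z} (hT : Coc3 m T) (h : Mod3 m p T)
    (h0 : ∀ j b c, T (p j) b c = 0) :
    ∃ S, Mod3 m p (T + d2 m S) ∧ (∀ j b c, (T + d2 m S) (p j) b c = 0) ∧
      ∀ j a c, (T + d2 m S) a (p j) c = 0 := by
  have hS := tau1_mod2 D h
  have hSp : ∀ j x, tau1 D T (p j) x = 0 := by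
    intro j x
    have h1 := hasSum_tau1 D T (p j) x
    have e1 := single_of_hasSum h1 j (fun i hi => by rw [D.orth i j hi]; simp)
    rw [e1, D.idem, h0]
  refine ⟨tau1 D T, h.add hS.d2, fun j b c => ?_, fun j a c => ?_⟩
  · simp only [add_apply, d2_apply]
    rw [h0, hS.ll, hSp, hSp, map_zero]
    abel
  · have h1 := step4_F1 D hT h.b12 a (p j) c
    have e1 : tau1 D T a (p j * c) - m.right c (tau1 D T a (p j)) = 0 := by
      refine h1.unique ?_
      convert hasSum_zero (α := Z) (β := ι) using 1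
      funext i
      rw [h0, map_zero]
    have e2 : tau1 D T (a * p j) c = T a (p j) c := by
      have h2 := hasSum_tau1 D T (a * p j) c
      have e := single_of_hasSum h2 j (fun i hi => by rw [mul_comm a, pq D hi]; simp)
      rw [e, mul_comm a, pp D, h.b12 j, D.idem]
    simp only [add_apply, d2_apply]
    rw [hSp, e2, map_zero]
    linear_combination (norm := abel) e1

lemma norm3 {T : Q →L[ℂ] Q →L[ℂ] Q →L[ℂ] Z} (hT : Coc3 m T) (h : Mod3 m p T)
    (h1 : ∀ j a c, T a (p j) c = 0) (j : ι) (a b : Q) : T a b (p j) = 0 := by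
  have e := hT a (p j * b) (p j) (p j)
  rw [h1, h1, map_zero, D.idem, mul_comm (p j * b), pp D, ← h.rl, D.idem, h.b23, D.idem] at e
  linear_combination (norm := abel) e

end Norm

/-- the structure on `Q` used to show that the third cohomology vanishes -/
structure GStr {Q : Type*} [NonUnitalNormedCommRing Q] [NormedSpace ℂ Q] {ι κ : Type*}
    (p : ι → Q) (e : κ → Q) (β : Q →L[ℂ] Q) (K : ℝ) : Prop where
  hp : Diag p (ContinuousLinearMap.id ℂ Q) K
  he : Diag e β K
  min : ∀ t x, ∃ γ : ℂ, x * e t = γ • e t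
  βe : ∀ t, β (e t) = e t
  ideal : ∀ x a, β (x * β a) = x * β a
  βp : ∀ j a, β (p j * a) = p j * β a
  βp0 : ∀ j, β (p j) = 0
  dec : ∀ a, ∃ α : ι → ℂ, HasSum (fun i => α i • p i) (a - β a)

section J

variable {κ : Type*} {e : κ → Q} {β : Q →L[ℂ] Q}
variable (G : GStr p e β K)
include G

lemma J1_hasSum {T : Q →L[ℂ] Q →L[ℂ] Q →L[ℂ] Z} (hT : Coc3 m T) (a b c : Q) (ha : β a = a) :
    HasSum (fun t => m.left (e t) (T (e t * a) b c))
      ((T + d2 m (G.he.tau _ T)) a b c - m.left a (G.he.tau _ T b c)) := by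
  have hab : β (a * b) = a * b := by
    have := G.ideal b a
    rw [ha, mul_comm b a] at this
    exact this
  have h1 := (G.he.hasSum_tau T (a * b)).ev c
  have h2 := (G.he.hasSum_tau T a).ev (b * c)
  have h3 := (m.right c).hasSum ((G.he.hasSum_tau T a).ev b)
  have h4 := (T.hasSum (G.he.sum a)).ev b |>.ev c
  rw [hab] at h1
  rw [ha] at h2 h3 h4
  have h := ((h4.sub h1).add h2).sub h3
  convert h using 1
  · funext i
    have e := hT (e i) (e i * a) b c
    rw [← mul_assoc, G.he.idem, mul_assoc] at e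
    linear_combination (norm := abel) e
  · rw [add_apply, add_apply, add_apply, d2_apply]
    abel

lemma J1 {T : Q →L[ℂ] Q →L[ℂ] Q →L[ℂ] Z} (hT : Coc3 m T) (h : Mod3 m p T)
    (h1 : ∀ j b c, T (p j) b c = 0) (h2 : ∀ j a c, T a (p j) c = 0)
    (h3 : ∀ j a b, T a b (p j) = 0) :
    ∃ S, Mod3 m p (T + d2 m S) ∧ (∀ j b c, (T + d2 m S) (p j) b c = 0) ∧
      (∀ j a c, (T + d2 m S) a (p j) c = 0) ∧
      ∀ x a b c, β a = a → (T + d2 m S) (x * a) b c = m.left x ((T + d2 m S) a b c) := by
  have hsum : ∀ a b, HasSum (fun t => T (e t) (e t * β a) b) (G.he.tau _ T a b) :=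
    fun a b => (G.he.hasSum_tau T a).ev b
  have hS : Mod2 m p (G.he.tau _ T) :=
    { ll := fun j a b => by
        refine (hsum (p j * a) b).unique ?_
        convert (m.left (p j)).hasSum (hsum a b) using 1
        funext t
        rw [G.βp, mul_left_comm, ← h.b12, h.ll]
      b := fun j a b => by
        refine (hsum (p j * a) b).unique ?_
        convert hsum a (p j * b) using 1
        funext t
        rw [G.βp, mul_left_comm, h.b23]
      rl := fun j a b => by
        refine (hsum a (p j * b)).unique ?_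
        convert (m.right (p j)).hasSum (hsum a b) using 1
        funext t
        rw [h.rl] }
  have hS1 : ∀ j b, G.he.tau _ T (p j) b = 0 := by
    intro j b
    refine (hsum (p j) b).unique ?_
    convert hasSum_zero (α := Z) (β := κ) using 1
    funext t
    rw [G.βp0, mul_zero]; simp
  have hS2 : ∀ j a, G.he.tau _ T a (p j) = 0 := by
    intro j a
    refine (hsum a (p j)).unique ?_
    convert hasSum_zero (α := Z) (β := κ) using 1
    funext t
    rw [h3]
  refine ⟨G.he.tau _ T, h.add hS.d2, fun j b c => ?_, fun j a c => ?_, fun x a b c ha => ?_⟩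
  · simp only [add_apply, d2_apply]
    rw [h1, hS.ll, hS1, hS1, map_zero]
    abel
  · simp only [add_apply, d2_apply]
    rw [h2, hS1, hS2, map_zero, map_zero, mul_comm a, hS.b]
    abel
  · have hxa : β (x * a) = x * a := by
      have := G.ideal x a
      rwa [ha] at this
    have g1 := J1_hasSum G hT (x * a) b c hxa
    have g2 := (m.left x).hasSum (J1_hasSum G hT a b c ha)
    have e1 : (fun t => m.left (e t) (T (e t * (x * a)) b c))
        = fun t => m.left x (m.left (e t) (T (e t * a) b c)) := by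
      funext t
      obtain ⟨γ, hγ⟩ := G.min t x
      rw [← m.left_mul x, hγ, ← mul_assoc, mul_comm (e t) x, hγ, smul_mul_assoc]
      simp only [map_smul, smul_apply]
    rw [e1] at g1
    have e2 := g1.unique g2
    rw [map_sub, ← m.left_mul] at e2
    exact sub_left_injective e2

lemma J2 {R : Q →L[ℂ] Q →L[ℂ] Q →L[ℂ] Z} (hR : Coc3 m R) (h : Mod3 m p R)
    (h1 : ∀ j b c, R (p j) b c = 0) (h2 : ∀ j a c, R a (p j) c = 0)
    (h3 : ∀ x a b c, β a = a → R (x * a) b c = m.left x (R a b c)) :
    ∃ S, R = d2 m S := by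
  set S : Q →L[ℂ] Q →L[ℂ] Z := (G.he.tau Z).comp R with hSdef
  have hsum : ∀ a b, HasSum (fun t => R a (e t) (e t * β b)) (S a b) :=
    fun a b => G.he.hasSum_tau (R a) b
  have hJ : ∀ a b c, β b = b → R a b c = d2 m S a b c := by
    intro a b c hb
    have hbc : β (b * c) = b * c := by
      have := G.ideal c b
      rw [hb, mul_comm c b] at this
      exact this
    have g1 := (hsum b c)
    have g1' := (m.left a).hasSum g1
    have e1 : (fun t => m.left a (R b (e t) (e t * β c))) = fun t => R (a * b) (e t) (e t * β c) := by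
      funext t
      rw [h3 a b _ _ hb]
    rw [e1] at g1'
    have e2 := g1'.unique (hsum (a * b) c)
    have g2 := hsum a (b * c)
    have g3 := (m.right c).hasSum (hsum a b)
    have g4 := ((R a).hasSum (G.he.sum b)).ev c
    rw [hbc] at g2
    rw [hb] at g3 g4
    have e3 : R a b c = S a (b * c) - m.right c (S a b) := by
      refine g4.unique ?_
      convert g2.sub g3 using 1
      funext t
      have k := hR a (e t) (e t * b) c
      rw [h3 a (e t) _ _ (G.βe t), ← mul_assoc (e t) (e t) b, G.he.idem, mul_assoc (e t) b c] at k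
      linear_combination (norm := abel) k
    rw [d2_apply, e2, e3]
    abel
  have hp : ∀ a j c, R a (p j) c = d2 m S a (p j) c := by
    intro a j c
    have k1 : S (p j) c = 0 := by
      refine (hsum (p j) c).unique ?_
      convert hasSum_zero (α := Z) (β := κ) using 1
      funext t
      rw [h1]
    have k2 : S a (p j) = 0 := by
      refine (hsum a (p j)).unique ?_
      convert hasSum_zero (α := Z) (β := κ) using 1
      funext t
      rw [G.βp0, mul_zero, map_zero]
    have k3 : S (a * p j) c = S a (p j * c) := by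
      refine (hsum (a * p j) c).unique ?_
      convert hsum a (p j * c) using 1
      funext t
      rw [G.βp, mul_comm a, mul_left_comm, ← h.b23, h.b12]
    rw [h2, d2_apply, k1, k2, k3, map_zero, map_zero]
    abel
  refine ⟨S, ?_⟩
  ext a b c
  obtain ⟨α, hα⟩ := G.dec b
  have e1 : (R - d2 m S) a (b - β b) c = 0 := by
    refine ((((R - d2 m S) a).hasSum hα).ev c).unique ?_
    convert hasSum_zero (α := Z) (β := ι) using 1
    funext i
    rw [map_smul]
    simp only [smul_apply, sub_apply]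
    rw [hp, sub_self, smul_zero]
  have e2 : (R - d2 m S) a (β b) c = 0 := by
    simp only [sub_apply]
    rw [hJ a (β b) c (G.he.ββ b), sub_self]
  have e3 : (R - d2 m S) a b c = 0 := by
    have : b = (b - β b) + β b := by abel
    rw [this, map_add, add_apply, e1, e2, add_zero]
  simp only [sub_apply] at e3
  exact sub_eq_zero.1 e3

/-- vanishing of the third cohomology -/
theorem G3 {T : Q →L[ℂ] Q →L[ℂ] Q →L[ℂ] Z} (hT : Coc3 m T) : ∃ S, T = d2 m S := by
  obtain ⟨S1, -, k1⟩ := M3 G.hp hT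
  have c1 := hT.add (coc_d2 m S1)
  obtain ⟨S2, k2, l2⟩ := norm1 G.hp c1 k1
  have c2 := c1.add (coc_d2 m S2)
  obtain ⟨S3, k3, l3, n3⟩ := norm2 G.hp c2 k2 l2
  have c3 := c2.add (coc_d2 m S3)
  obtain ⟨S4, k4, l4, n4, o4⟩ := J1 G c3 k3 l3 n3 (norm3 G.hp c3 k3 n3)
  have c4 := c3.add (coc_d2 m S4)
  obtain ⟨S5, k5⟩ := J2 G c4 k4 l4 n4 o4
  refine ⟨S5 + -S4 + -S3 + -S2 + -S1, ?_⟩
  simp only [d2_add, d2_neg, ← k5]
  abel

end J

end

end Pool.Agent.Helper53.Dim3
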