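import Mathlib
import Pool.Agent.Helper53.Dim3C

set_option autoImplicit false
set_option maxSynthPendingDepth 3
set_option linter.unusedSectionVars false

namespace Pool.Agent.Helper53.Dim3

open Filter Topology Finset
open scoped BoundedContinuousFunction

section Shift

variable {Q : Type*} [NonUnitalNormedCommRing Q] [NormedSpace ℂ Q] [IsScalarTower ℂ Q Q]
  [SMulCommClass ℂ Q Q]
variable {Z : Type*} [NormedAddCommGroup Z] [NormedSpace ℂ Z]

/-- the bimodule of operators from `Q` to `Z`, with `(a φ)(b) = a (φ b)` and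
`(φ a)(b) = φ (a b) - (φ a) b` -/
noncomputable def Bimod.shift (m : Bimod Q Z) : Bimod Q (Q →L[ℂ] Z) where
  left := (ContinuousLinearMap.compL ℂ Q Z Z).comp m.left
  right := (ContinuousLinearMap.compL ℂ Q Q Z).flip.comp (ContinuousLinearMap.mul ℂ Q)
    - (ContinuousLinearMap.compL ℂ (Q →L[ℂ] Z) Z (Q →L[ℂ] Z) m.right.flip).comp
        (ContinuousLinearMap.apply ℂ Z)
  left_mul := fun a b φ => by
    ext x
    exact m.left_mul a b (φ x)
  right_mul := fun a b φ => by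
    ext x
    show φ (a * b * x) - m.right x (φ (a * b))
      = (φ (a * (b * x)) - m.right (b * x) (φ a)) - m.right x (φ (a * b) - m.right b (φ a))
    rw [map_sub, m.right_mul, mul_assoc]
    abel
  left_right := fun a b φ => by
    ext x
    show m.left a (φ (b * x) - m.right x (φ b)) = m.left a (φ (b * x)) - m.right x (m.left a (φ b))
    rw [map_sub, m.left_right]

@[simp] lemma Bimod.shift_left (m : Bimod Q Z) (a : Q) (φ : Q →L[ℂ] Z) (x : Q) :
    m.shift.left a φ x = m.left a (φ x) := rfl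

@[simp] lemma Bimod.shift_right (m : Bimod Q Z) (a : Q) (φ : Q →L[ℂ] Z) (x : Q) :
    m.shift.right a φ x = φ (a * x) - m.right x (φ a) := rfl

/-- the cocycle identity for 4-cochains -/
def Coc4 (m : Bimod Q Z) (T : Q →L[ℂ] Q →L[ℂ] Q →L[ℂ] Q →L[ℂ] Z) : Prop :=
  ∀ a b c d e, m.left a (T b c d e) - T (a * b) c d e + T a (b * c) d e - T a b (c * d) e
    + T a b c (d * e) - m.right e (T a b c d) = 0

lemma coc4_iff (m : Bimod Q Z) (T : Q →L[ℂ] Q →L[ℂ] Q →L[ℂ] Q →L[ℂ] Z) :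
    Coc4 m T ↔ Coc3 m.shift T := by
  constructor
  · intro h a b c d
    ext e
    have := h a b c d e
    simp only [add_apply, sub_apply, Bimod.shift_left, Bimod.shift_right, zero_apply]
    linear_combination (norm := abel) this
  · intro h a b c d e
    have := congrArg (fun f : Q →L[ℂ] Z => f e) (h a b c d)
    simp only [add_apply, sub_apply, Bimod.shift_left, Bimod.shift_right, zero_apply] at this
    linear_combination (norm := abel) this

/-- the coboundary of a bounded 3-cochain -/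
noncomputable def d3 (m : Bimod Q Z) (S : Q →L[ℂ] Q →L[ℂ] Q →L[ℂ] Z) :
    Q →L[ℂ] Q →L[ℂ] Q →L[ℂ] Q →L[ℂ] Z := d2 m.shift S

@[simp] lemma d3_apply (m : Bimod Q Z) (S : Q →L[ℂ] Q →L[ℂ] Q →L[ℂ] Z) (a b c d : Q) :
    d3 m S a b c d = m.left a (S b c d) - S (a * b) c d + S a (b * c) d - S a b (c * d)
      + m.right d (S a b c) := by
  show m.left a (S b c d) - S (a * b) c d + S a (b * c) d
    - (S a b (c * d) - m.right d (S a b c)) = _
  abel

lemma d3_add (m : Bimod Q Z) (S S' : Q →L[ℂ] Q →L[ℂ] Q →L[ℂ] Z) :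
    d3 m (S + S') = d3 m S + d3 m S' := d2_add _ _ _

lemma d3_neg (m : Bimod Q Z) (S : Q →L[ℂ] Q →L[ℂ] Q →L[ℂ] Z) : d3 m (-S) = -d3 m S :=
  d2_neg _ _

lemma coc_d3 (m : Bimod Q Z) (S : Q →L[ℂ] Q →L[ℂ] Q →L[ℂ] Z) : Coc4 m (d3 m S) :=
  (coc4_iff m _).2 (coc_d2 _ _)

lemma Coc4.add {m : Bimod Q Z} {T T' : Q →L[ℂ] Q →L[ℂ] Q →L[ℂ] Q →L[ℂ] Z} (h : Coc4 m T)
    (h' : Coc4 m T') : Coc4 m (T + T') :=
  (coc4_iff m _).2 (((coc4_iff m _).1 h).add ((coc4_iff m _).1 h'))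

end Shift

section Van

variable (Q : Type) [NonUnitalNormedCommRing Q] [NormedSpace ℂ Q] [IsScalarTower ℂ Q Q]
  [SMulCommClass ℂ Q Q]

/-- vanishing of the third cohomology with all coefficients -/
def Van3 : Prop := ∀ (Z : Type) [NormedAddCommGroup Z] [NormedSpace ℂ Z] [CompleteSpace Z]
  (m : Bimod Q Z) (T : Q →L[ℂ] Q →L[ℂ] Q →L[ℂ] Z), Coc3 m T → ∃ S, T = d2 m S

/-- vanishing of the fourth cohomology with all coefficients -/
def Van4 : Prop := ∀ (Z : Type) [NormedAddCommGroup Z] [NormedSpace ℂ Z] [CompleteSpace Z]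
  (m : Bimod Q Z) (T : Q →L[ℂ] Q →L[ℂ] Q →L[ℂ] Q →L[ℂ] Z), Coc4 m T → ∃ S, T = d3 m S

variable {Q}

lemma Van3.van4 (h : Van3 Q) : Van4 Q := by
  intro Z _ _ _ m T hT
  exact h (Q →L[ℂ] Z) m.shift T ((coc4_iff m T).1 hT)

lemma van3_of_gStr {ι κ : Type*} {p : ι → Q} {e : κ → Q} {β : Q →L[ℂ] Q} {K : ℝ}
    (G : GStr p e β K) : Van3 Q := by
  intro Z _ _ _ m T hT
  exact G3 G hT

end Van

section Pull

/-- restriction of a multilinear map along `φ`, one slot -/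
noncomputable def up {A F X Y : Type*} [NormedAddCommGroup A] [NormedSpace ℂ A]
    [NormedAddCommGroup F] [NormedSpace ℂ F] [NormedAddCommGroup X] [NormedSpace ℂ X]
    [NormedAddCommGroup Y] [NormedSpace ℂ Y] (φ : F →L[ℂ] A) (Φ : X →L[ℂ] Y) :
    (A →L[ℂ] X) →L[ℂ] (F →L[ℂ] Y) :=
  ((ContinuousLinearMap.compL ℂ F A Y).flip φ).comp (ContinuousLinearMap.compL ℂ A X Y Φ)

variable {A F X Y : Type*} [NormedAddCommGroup A] [NormedSpace ℂ A]
    [NormedAddCommGroup F] [NormedSpace ℂ F] [NormedAddCommGroup X] [NormedSpace ℂ X]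
    [NormedAddCommGroup Y] [NormedSpace ℂ Y]

@[simp] lemma up_apply (φ : F →L[ℂ] A) (Φ : X →L[ℂ] Y) (T : A →L[ℂ] X) (x : F) :
    up φ Φ T x = Φ (T (φ x)) := rfl

lemma norm_up_le (φ : F →L[ℂ] A) (Φ : X →L[ℂ] Y) : ‖up φ Φ‖ ≤ ‖φ‖ * ‖Φ‖ := by
  refine ContinuousLinearMap.opNorm_le_bound _ (by positivity) (fun T => ?_)
  refine ContinuousLinearMap.opNorm_le_bound _ (by positivity) (fun x => ?_)
  rw [up_apply]
  calc ‖Φ (T (φ x))‖ ≤ ‖Φ‖ * (‖T‖ * (‖φ‖ * ‖x‖)) :=
        (Φ.le_opNorm _).trans (mul_le_mul_of_nonneg_left ((T.le_opNorm _).trans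
          (mul_le_mul_of_nonneg_left (φ.le_opNorm _) (norm_nonneg _))) (norm_nonneg _))
    _ = _ := by ring

/-- bounded sequences -/
noncomputable def seqMk {Y : Type*} [NormedAddCommGroup Y] (f : ℕ → Y) (C : ℝ)
    (h : ∀ k, ‖f k‖ ≤ C) : ℕ →ᵇ Y :=
  BoundedContinuousFunction.ofNormedAddCommGroupDiscrete f C h

@[simp] lemma seqMk_apply {Y : Type*} [NormedAddCommGroup Y] (f : ℕ → Y) (C : ℝ)
    (h : ∀ k, ‖f k‖ ≤ C) (k : ℕ) : seqMk f C h k = f k := rfl

lemma norm_seqMk_le {Y : Type*} [NormedAddCommGroup Y] (f : ℕ → Y) (C : ℝ)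
    (h : ∀ k, ‖f k‖ ≤ C) : ‖seqMk f C h‖ ≤ C :=
  (BoundedContinuousFunction.norm_le ((norm_nonneg _).trans (h 0))).2 h

/-- bounded families of operators as operators into bounded families -/
noncomputable def famL (F Y : Type*) [NormedAddCommGroup F] [NormedSpace ℂ F]
    [NormedAddCommGroup Y] [NormedSpace ℂ Y] :
    (ℕ →ᵇ (F →L[ℂ] Y)) →L[ℂ] (F →L[ℂ] (ℕ →ᵇ Y)) :=
  LinearMap.mkContinuous₂
    (LinearMap.mk₂ ℂ (fun (b : ℕ →ᵇ (F →L[ℂ] Y)) (x : F) =>
        seqMk (fun k => b k x) (‖b‖ * ‖x‖)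
          (fun k => ((b k).le_opNorm x).trans
            (mul_le_mul_of_nonneg_right (b.norm_coe_le_norm k) (norm_nonneg _))))
      (fun b b' x => by ext k; rfl)
      (fun c b x => by ext k; rfl)
      (fun b x y => by ext k; exact (b k).map_add x y)
      (fun c b x => by ext k; exact (b k).map_smul c x)) 1 (fun b x => by
    rw [one_mul]
    exact (BoundedContinuousFunction.norm_le (by positivity)).2 (fun k =>
      ((b k).le_opNorm x).trans
            (mul_le_mul_of_nonneg_right (b.norm_coe_le_norm k) (norm_nonneg _))))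

@[simp] lemma famL_apply (b : ℕ →ᵇ (F →L[ℂ] Y)) (x : F) (k : ℕ) :
    famL F Y b x k = b k x := rfl

/-- three-variable version -/
noncomputable def famL4 (F Z : Type*) [NormedAddCommGroup F] [NormedSpace ℂ F]
    [NormedAddCommGroup Z] [NormedSpace ℂ Z] (b : ℕ →ᵇ (F →L[ℂ] F →L[ℂ] F →L[ℂ] F →L[ℂ] Z)) :
    F →L[ℂ] F →L[ℂ] F →L[ℂ] F →L[ℂ] (ℕ →ᵇ Z) :=
  ((ContinuousLinearMap.compL ℂ F _ _
    ((ContinuousLinearMap.compL ℂ F _ _ (famL F Z)).comp (famL F (F →L[ℂ] Z)))).comp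
      (famL F (F →L[ℂ] F →L[ℂ] Z))).comp (famL F (F →L[ℂ] F →L[ℂ] F →L[ℂ] Z) b)

@[simp] lemma famL4_apply {F Z : Type*} [NormedAddCommGroup F] [NormedSpace ℂ F]
    [NormedAddCommGroup Z] [NormedSpace ℂ Z] (b : ℕ →ᵇ (F →L[ℂ] F →L[ℂ] F →L[ℂ] F →L[ℂ] Z))
    (x y z w : F) (k : ℕ) : famL4 F Z b x y z w k = b k x y z w := rfl

end Pull

section Sum3

variable {A Z : Type*} [NormedAddCommGroup A] [NormedSpace ℂ A] [NormedAddCommGroup Z]
  [NormedSpace ℂ Z] [CompleteSpace Z]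

lemma exists_sum3 (B : ℕ → A →L[ℂ] A →L[ℂ] A →L[ℂ] Z) (M : ℝ) (hM : 0 ≤ M)
    (hB : ∀ a b c (s : Finset ℕ), ∑ k ∈ s, ‖B k a b c‖ ≤ M * ‖a‖ * ‖b‖ * ‖c‖) :
    ∃ S : A →L[ℂ] A →L[ℂ] A →L[ℂ] Z, ∀ a b c, HasSum (fun k => B k a b c) (S a b c) := by
  have hs : ∀ a b c, Summable (fun k => B k a b c) := fun a b c =>
    Summable.of_norm (summable_of_sum_le (fun _ => norm_nonneg _) (hB a b c))
  have hn : ∀ a b c, ‖∑' k, B k a b c‖ ≤ M * ‖a‖ * ‖b‖ * ‖c‖ := by
    intro a b c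
    refine le_of_tendsto (hs a b c).hasSum.norm (Eventually.of_forall (fun s => ?_))
    exact (norm_sum_le _ _).trans (hB a b c s)
  let S1 : A → A →L[ℂ] A →L[ℂ] Z := fun a =>
    LinearMap.mkContinuous₂ (LinearMap.mk₂ ℂ (fun b c => ∑' k, B k a b c)
      (fun b b' c => by
        rw [← (hs a b c).tsum_add (hs a b' c)]; simp only [map_add, add_apply])
      (fun r b c => by
        rw [← (hs a b c).tsum_const_smul r]; simp only [map_smul, smul_apply])
      (fun b c c' => by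
        rw [← (hs a b c).tsum_add (hs a b c')]; simp only [map_add])
      (fun r b c => by
        rw [← (hs a b c).tsum_const_smul r]; simp only [map_smul])) (M * ‖a‖) (hn a)
  have hS1 : ∀ a b c, S1 a b c = ∑' k, B k a b c := fun a b c => rfl
  let S : A →L[ℂ] A →L[ℂ] A →L[ℂ] Z :=
    LinearMap.mkContinuous
      { toFun := S1
        map_add' := fun a a' => by
          ext b c
          rw [add_apply, add_apply, hS1, hS1, hS1, ← (hs a b c).tsum_add (hs a' b c)]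
          simp only [map_add, add_apply]
        map_smul' := fun r a => by
          ext b c
          rw [RingHom.id_apply, smul_apply, smul_apply, hS1, hS1,
            ← (hs a b c).tsum_const_smul r]
          simp only [map_smul, smul_apply] } M
      (fun a => LinearMap.mkContinuous₂_norm_le _ (by positivity) (hn a))
  exact ⟨S, fun a b c => (hs a b c).hasSum⟩

end Sum3

section Pullback

variable {A F : Type*} [NonUnitalNormedCommRing A] [NormedSpace ℂ A] [IsScalarTower ℂ A A]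
  [SMulCommClass ℂ A A] [NonUnitalNormedCommRing F] [NormedSpace ℂ F] [IsScalarTower ℂ F F]
  [SMulCommClass ℂ F F] {Z : Type*} [NormedAddCommGroup Z] [NormedSpace ℂ Z]

/-- restriction of a bimodule along a homomorphism -/
noncomputable def Bimod.pull (m : Bimod A Z) (φ : F →L[ℂ] A) (hφ : ∀ x y, φ (x * y) = φ x * φ y) :
    Bimod F Z where
  left := m.left.comp φ
  right := m.right.comp φ
  left_mul := fun a b z => by
    rw [ContinuousLinearMap.comp_apply, hφ]; exact m.left_mul _ _ _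
  right_mul := fun a b z => by
    rw [ContinuousLinearMap.comp_apply, hφ]; exact m.right_mul _ _ _
  left_right := fun a b z => m.left_right _ _ _

omit [IsScalarTower ℂ A A] [SMulCommClass ℂ A A] [IsScalarTower ℂ F F] [SMulCommClass ℂ F F] in
lemma seqAct_bound (L : A →L[ℂ] Z →L[ℂ] Z) (φ : ℕ → F →L[ℂ] A) (M : ℝ) (hM : ∀ k, ‖φ k‖ ≤ M)
    (x : F) (w : ℕ →ᵇ Z) (k : ℕ) : ‖L (φ k x) (w k)‖ ≤ ‖L‖ * M * ‖x‖ * ‖w‖ := by
  have h1 := w.norm_coe_le_norm k
  have h2 := (φ k).le_of_opNorm_le (hM k) x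
  have h3 := L.le_opNorm (φ k x)
  have hM0 : 0 ≤ M := (norm_nonneg _).trans (hM k)
  calc ‖L (φ k x) (w k)‖ ≤ ‖L (φ k x)‖ * ‖w k‖ := (L _).le_opNorm _
    _ ≤ (‖L‖ * (M * ‖x‖)) * ‖w‖ := by gcongr; exact h3.trans (by gcongr)
    _ = _ := by ring

/-- the action on bounded sequences -/
noncomputable def seqAct (L : A →L[ℂ] Z →L[ℂ] Z) (φ : ℕ → F →L[ℂ] A) (M : ℝ)
    (hM : ∀ k, ‖φ k‖ ≤ M) : F →L[ℂ] (ℕ →ᵇ Z) →L[ℂ] (ℕ →ᵇ Z) :=
  LinearMap.mkContinuous₂
    (LinearMap.mk₂ ℂ (fun (x : F) (w : ℕ →ᵇ Z) =>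
        seqMk (fun k => L (φ k x) (w k)) (‖L‖ * M * ‖x‖ * ‖w‖) (seqAct_bound L φ M hM x w))
      (fun x y w => by ext k; show L (φ k (x + y)) (w k) = _; rw [map_add, map_add]; rfl)
      (fun c x w => by ext k; show L (φ k (c • x)) (w k) = _; rw [map_smul, map_smul]; rfl)
      (fun x w w' => by ext k; exact (L (φ k x)).map_add _ _)
      (fun c x w => by ext k; exact (L (φ k x)).map_smul _ _)) (‖L‖ * M) (fun x w =>
    (BoundedContinuousFunction.norm_le (by
      have hM0 : 0 ≤ M := (norm_nonneg _).trans (hM 0)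
      positivity)).2 (seqAct_bound L φ M hM x w))

omit [IsScalarTower ℂ A A] [SMulCommClass ℂ A A] [IsScalarTower ℂ F F] [SMulCommClass ℂ F F] in
@[simp] lemma seqAct_apply (L : A →L[ℂ] Z →L[ℂ] Z) (φ : ℕ → F →L[ℂ] A) (M : ℝ)
    (hM : ∀ k, ‖φ k‖ ≤ M) (x : F) (w : ℕ →ᵇ Z) (k : ℕ) :
    seqAct L φ M hM x w k = L (φ k x) (w k) := rfl

/-- the bimodule of bounded sequences, over a bounded sequence of homomorphisms -/
noncomputable def Bimod.seq (m : Bimod A Z) (φ : ℕ → F →L[ℂ] A) (M : ℝ) (hM : ∀ k, ‖φ k‖ ≤ M)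
    (hφ : ∀ k x y, φ k (x * y) = φ k x * φ k y) : Bimod F (ℕ →ᵇ Z) where
  left := seqAct m.left φ M hM
  right := seqAct m.right φ M hM
  left_mul := fun a b w => by
    ext k
    rw [seqAct_apply, seqAct_apply, seqAct_apply, hφ, m.left_mul]
  right_mul := fun a b w => by
    ext k
    rw [seqAct_apply, seqAct_apply, seqAct_apply, hφ, m.right_mul]
  left_right := fun a b w => by
    ext k
    rw [seqAct_apply, seqAct_apply, seqAct_apply, seqAct_apply, m.left_right]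

end Pullback

end Pool.Agent.Helper53.Dim3
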