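import Mathlib
import Pool.Agent.Helper53.Dim3D

set_option autoImplicit false
set_option maxSynthPendingDepth 3
set_option linter.unusedSectionVars false

namespace Pool.Agent.Helper53.Dim3

open Filter Topology Finset

variable {Q R : Type} [NonUnitalNormedCommRing Q] [NormedSpace ℂ Q] [IsScalarTower ℂ Q Q]
  [SMulCommClass ℂ Q Q] [NonUnitalNormedCommRing R] [NormedSpace ℂ R] [IsScalarTower ℂ R R]
  [SMulCommClass ℂ R R] {ι : Type*}

/-- `R` is an ideal of `Q` and the idempotents `p` span a complement -/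
structure Lvl (p : ι → Q) (j : R →L[ℂ] Q) (θ : Q →L[ℂ] R) : Prop where
  j_mul : ∀ x y, j (x * y) = j x * j y
  θj : ∀ x, θ (j x) = x
  ideal : ∀ a x, j (θ (a * j x)) = a * j x
  θp : ∀ i, θ (p i) = 0
  θmul : ∀ i a, j (θ (p i * a)) = p i * j (θ a)
  dec : ∀ a, ∃ α : ι → ℂ, HasSum (fun i => α i • p i) (a - j (θ a))

section Step

variable {Z : Type} [NormedAddCommGroup Z] [NormedSpace ℂ Z] [CompleteSpace Z]
variable {m : Bimod Q Z} {p : ι → Q} {K : ℝ} {j : R →L[ℂ] Q} {θ : Q →L[ℂ] R}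

/-- the block diagonal part of a 2-cochain -/
lemma exists_blockDiag (D : Diag p (ContinuousLinearMap.id ℂ Q) K) (L : Lvl p j θ)
    (S : R →L[ℂ] R →L[ℂ] Z) : ∃ S' : R →L[ℂ] R →L[ℂ] Z, ∀ x y, HasSum
      (fun i => m.left (p i) (m.right (p i) (S (θ (p i * j x)) (θ (p i * j y))))) (S' x y) := by
  have hj : Function.Injective j := fun x y h => by rw [← L.θj x, h, L.θj]
  -- first step: left multiplication
  let G1 : Q →L[ℂ] Q →L[ℂ] (R →L[ℂ] Z) :=
    (((ContinuousLinearMap.compL ℂ Q (R →L[ℂ] Z) (R →L[ℂ] Z)).flip (S.comp θ)).comp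
      ((ContinuousLinearMap.compL ℂ R Z Z).comp m.left))
  have hG1 : ∀ q a y, G1 q a y = m.left q (S (θ a) y) := fun _ _ _ => rfl
  let S1 : R →L[ℂ] R →L[ℂ] Z := (D.tau _ G1).comp j
  have h1 : ∀ x y, HasSum (fun i => m.left (p i) (S (θ (p i * j x)) y)) (S1 x y) := by
    intro x y
    exact (hasSum_t D G1 (j x)).ev y
  have h1' : ∀ k x y, S1 (θ (p k * j x)) y = m.left (p k) (S (θ (p k * j x)) y) := by
    intro k x y
    have h := h1 (θ (p k * j x)) y
    rw [L.ideal] at h
    have := single_of_hasSum h k (fun i hi => by rw [pq D hi]; simp)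
    rw [this, pp D]
  -- second step
  let G2 : R →L[ℂ] Q →L[ℂ] Q →L[ℂ] Z :=
    ((ContinuousLinearMap.compL ℂ Q (R →L[ℂ] Z) (Q →L[ℂ] Z)
        ((ContinuousLinearMap.compL ℂ Q R Z).flip θ)).comp
      ((ContinuousLinearMap.compL ℂ Q R (R →L[ℂ] Z) S1).comp
        ((ContinuousLinearMap.compL ℂ Q Q R θ).comp
          ((ContinuousLinearMap.mul ℂ Q).flip.comp j))))
  have hG2 : ∀ x q b, G2 x q b = S1 (θ (q * j x)) (θ b) := fun _ _ _ => rfl
  let S2 : R →L[ℂ] R →L[ℂ] Z :=
    ((ContinuousLinearMap.compL ℂ R Q Z).flip j).comp ((D.tau Z).comp G2)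
  have h2 : ∀ x y, HasSum (fun i => S1 (θ (p i * j x)) (θ (p i * j y))) (S2 x y) := by
    intro x y
    exact hasSum_t D (G2 x) (j y)
  have h2' : ∀ k x y, S2 x (θ (p k * j y)) = S1 (θ (p k * j x)) (θ (p k * j y)) := by
    intro k x y
    have h := h2 x (θ (p k * j y))
    rw [L.ideal] at h
    have := single_of_hasSum h k (fun i hi => by rw [pq D hi]; simp)
    rw [this, pp D]
  -- third step
  let G3 : R →L[ℂ] Q →L[ℂ] Q →L[ℂ] Z :=
    ((ContinuousLinearMap.compL ℂ Q (R →L[ℂ] Z) (Q →L[ℂ] Z)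
        ((ContinuousLinearMap.compL ℂ Q R Z).flip θ)).comp
      (((ContinuousLinearMap.compL ℂ Q (Z →L[ℂ] Z) (R →L[ℂ] Z)).flip m.right).comp
        ((ContinuousLinearMap.compL ℂ R Z Z).flip.comp S2)))
  have hG3 : ∀ x q b, G3 x q b = m.right q (S2 x (θ b)) := fun _ _ _ => rfl
  let S3 : R →L[ℂ] R →L[ℂ] Z :=
    ((ContinuousLinearMap.compL ℂ R Q Z).flip j).comp ((D.tau Z).comp G3)
  refine ⟨S3, fun x y => ?_⟩
  have h3 : HasSum (fun i => m.right (p i) (S2 x (θ (p i * j y)))) (S3 x y) :=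
    hasSum_t D (G3 x) (j y)
  convert h3 using 1
  funext i
  rw [h2', h1', m.left_right]

/-- if the third cohomology of the ideal vanishes then so does that of the algebra -/
theorem Lvl.step (D : Diag p (ContinuousLinearMap.id ℂ Q) K) (L : Lvl p j θ) (m : Bimod Q Z)
    (hR : Van3 R) {T : Q →L[ℂ] Q →L[ℂ] Q →L[ℂ] Z} (hT : Coc3 m T) : ∃ S, T = d2 m S := by
  obtain ⟨A1, -, k1⟩ := M3 D hT
  have t1 : Coc3 m (T + d2 m A1) := hT.add (coc_d2 m A1)
  obtain ⟨A2, k2, z2⟩ := norm1 D t1 k1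
  have t2 : Coc3 m (T + d2 m A1 + d2 m A2) := t1.add (coc_d2 m A2)
  obtain ⟨A3, k3, z3, z3'⟩ := norm2 D t2 k2 z2
  have t3 : Coc3 m (T + d2 m A1 + d2 m A2 + d2 m A3) := t2.add (coc_d2 m A3)
  have z3'' := norm3 D t3 k3 z3'
  set U : Q →L[ℂ] Q →L[ℂ] Q →L[ℂ] Z := T + d2 m A1 + d2 m A2 + d2 m A3 with hU
  -- restriction to the ideal
  let mR : Bimod R Z := m.pull j L.j_mul
  let UR : R →L[ℂ] R →L[ℂ] R →L[ℂ] Z :=
    up j (up j (up j (ContinuousLinearMap.id ℂ Z))) U
  have hUR : ∀ x y z, UR x y z = U (j x) (j y) (j z) := fun _ _ _ => rfl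
  have cUR : Coc3 mR UR := by
    intro a b c d
    have h := t3 (j a) (j b) (j c) (j d)
    rw [← L.j_mul, ← L.j_mul, ← L.j_mul] at h
    exact h
  obtain ⟨S, hS⟩ := hR Z mR UR cUR
  obtain ⟨S', hS'⟩ := exists_blockDiag (m := m) D L S
  have hjj : ∀ i x, j (θ (p i * j x)) = p i * j x := fun i x => L.ideal _ _
  have hinj : ∀ x y, j x = j y → x = y := fun x y h => by rw [← L.θj x, h, L.θj]
  have b1 : ∀ k x y, S' (θ (p k * j x)) y = m.left (p k) (S' x y) := by
    intro k x y
    have h := hS' (θ (p k * j x)) y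
    rw [L.ideal] at h
    have e1 := single_of_hasSum h k (fun i hi => by rw [pq D hi]; simp)
    have h2 := (m.left (p k)).hasSum (hS' x y)
    have e2 := single_of_hasSum h2 k (fun i hi => by
      rw [← m.left_mul, D.orth k i hi.symm]; simp)
    rw [pp D] at e1
    rw [e1, e2, ← m.left_mul, D.idem]
  have b3 : ∀ k x y, S' x (θ (p k * j y)) = m.right (p k) (S' x y) := by
    intro k x y
    have h := hS' x (θ (p k * j y))
    rw [L.ideal] at h
    have e1 := single_of_hasSum h k (fun i hi => by rw [pq D hi]; simp)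
    have h2 := (m.right (p k)).hasSum (hS' x y)
    have e2 := single_of_hasSum h2 k (fun i hi => by
      rw [← m.left_right, ← m.right_mul, D.orth i k hi]; simp)
    rw [pp D] at e1
    rw [e1, e2, ← m.left_right, ← m.right_mul, D.idem]
  have b2 : ∀ k x y, S' (θ (p k * j x)) y = S' x (θ (p k * j y)) := by
    intro k x y
    rw [b1, b3]
    have h2 := (m.left (p k)).hasSum (hS' x y)
    have e2 := single_of_hasSum h2 k (fun i hi => by
      rw [← m.left_mul, D.orth k i hi.symm]; simp)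
    have h3 := (m.right (p k)).hasSum (hS' x y)
    have e3 := single_of_hasSum h3 k (fun i hi => by
      rw [← m.left_right, ← m.right_mul, D.orth i k hi]; simp)
    rw [e2, e3, ← m.left_mul, ← m.left_right, ← m.right_mul, D.idem]
  have dS' : ∀ x y z, m.left (j x) (S' y z) - S' (x * y) z + S' x (y * z)
      - m.right (j z) (S' x y) = U (j x) (j y) (j z) := by
    intro x y z
    have h1 := (m.left (j x)).hasSum (hS' y z)
    have h2 := hS' (x * y) z
    have h3 := hS' x (y * z)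
    have h4 := (m.right (j z)).hasSum (hS' x y)
    have h := ((h1.sub h2).add h3).sub h4
    refine h.unique ?_
    have hU3 := ((hasSum_p' D U (j x)).ev (j y)).ev (j z)
    convert hU3 using 1
    funext i
    have e := congrArg (fun F : R →L[ℂ] R →L[ℂ] R →L[ℂ] Z =>
      F (θ (p i * j x)) (θ (p i * j y)) (θ (p i * j z))) hS
    simp only [d2_apply, hUR, hjj] at e
    have e0 : U (p i * j x) (p i * j y) (p i * j z) = U (p i * j x) (j y) (j z) := by
      rw [← k3.b12, pp D, ← k3.b23, ← k3.b12, pp D]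
    have e1 : θ (p i * j x) * θ (p i * j y) = θ (p i * j (x * y)) := by
      apply hinj
      rw [L.j_mul, hjj, hjj, hjj, L.j_mul, mul_mul_mul_comm, D.idem]
    have e2 : θ (p i * j y) * θ (p i * j z) = θ (p i * j (y * z)) := by
      apply hinj
      rw [L.j_mul, hjj, hjj, hjj, L.j_mul, mul_mul_mul_comm, D.idem]
    have e3 : ∀ w : Z, mR.left (θ (p i * j x)) w = m.left (p i * j x) w := by
      intro w
      show m.left (j (θ (p i * j x))) w = _
      rw [hjj]
    have e4 : ∀ w : Z, mR.right (θ (p i * j z)) w = m.right (p i * j z) w := by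
      intro w
      show m.right (j (θ (p i * j z))) w = _
      rw [hjj]
    have e5 : m.left (p i) (m.right (p i) (U (p i * j x) (j y) (j z)))
        = U (p i * j x) (j y) (j z) := by
      rw [← k3.rl, ← k3.b23, ← k3.b12, pp D, ← k3.ll, pp D]
    rw [e1, e2, e3, e4, e0] at e
    have e' := congrArg (fun w => m.left (p i) (m.right (p i) w)) e
    simp only [e5] at e'
    simp only [map_add, map_sub] at e'
    rw [e']
    have f1 : m.left (p i) (m.right (p i) (m.left (p i * j x)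
        (S (θ (p i * j y)) (θ (p i * j z))))) = m.left (j x) (m.left (p i)
          (m.right (p i) (S (θ (p i * j y)) (θ (p i * j z))))) := by
      rw [← m.left_right, ← m.left_mul, ← m.left_mul, pp D, mul_comm (j x)]
    have f4 : m.left (p i) (m.right (p i) (m.right (p i * j z)
        (S (θ (p i * j x)) (θ (p i * j y))))) = m.right (j z) (m.left (p i)
          (m.right (p i) (S (θ (p i * j x)) (θ (p i * j y))))) := by
      rw [← m.right_mul, mul_comm (p i * j z), pp D, ← m.left_right, ← m.right_mul]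
    rw [f1, f4]
  let St : Q →L[ℂ] Q →L[ℂ] Z := up θ (up θ (ContinuousLinearMap.id ℂ Z)) S'
  have hSt : ∀ a b, St a b = S' (θ a) (θ b) := fun _ _ => rfl
  set E : Q →L[ℂ] Q →L[ℂ] Q →L[ℂ] Z := U - d2 m St with hE
  have hEa : ∀ a b c, E a b c = U a b c - (m.left a (S' (θ b) (θ c)) - S' (θ (a * b)) (θ c)
      + S' (θ a) (θ (b * c)) - m.right c (S' (θ a) (θ b))) := fun _ _ _ => rfl
  have hθp : ∀ i a, θ (p i * a) = θ (p i * j (θ a)) := by
    intro i a
    apply hinj
    rw [L.θmul, L.ideal]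
  have E1 : ∀ i b c, E (p i) b c = 0 := by
    intro i b c
    rw [hEa, z3, L.θp, hθp, b1, map_zero, zero_apply, zero_apply, map_zero]
    abel
  have E2 : ∀ i x c, E (j x) (p i) c = 0 := by
    intro i x c
    rw [hEa, z3', L.θp, mul_comm (j x), hθp i c, L.θj, map_zero, zero_apply, map_zero, map_zero,
      map_zero, b2]
    abel
  have E3 : ∀ i x y, E (j x) (j y) (p i) = 0 := by
    intro i x y
    rw [hEa, z3'', L.θp, mul_comm (j y), L.θj, L.θj, map_zero, map_zero, map_zero, b3]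
    abel
  have E4 : ∀ x y z, E (j x) (j y) (j z) = 0 := by
    intro x y z
    rw [hEa, ← dS', L.θj, L.θj, L.θj, ← L.j_mul, ← L.j_mul, L.θj, L.θj]
    abel
  have red : ∀ (F : Q →L[ℂ] Z), (∀ i, F (p i) = 0) → (∀ x, F (j x) = 0) → ∀ a, F a = 0 := by
    intro F h1 h2 a
    obtain ⟨α, hα⟩ := L.dec a
    have h3 := F.hasSum hα
    simp only [map_smul, h1, smul_zero, map_sub, h2, sub_zero] at h3
    exact h3.unique hasSum_zero
  have E5 : ∀ x y c, E (j x) (j y) c = 0 := fun x y => red _ (fun i => E3 i x y) (E4 x y)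
  have E6 : ∀ x b c, E (j x) b c = 0 := fun x b c =>
    red ((ContinuousLinearMap.apply ℂ Z c).comp (E (j x))) (fun i => E2 i x c)
      (fun y => E5 x y c) b
  have E7 : ∀ a b c, E a b c = 0 := fun a b c =>
    red ((ContinuousLinearMap.apply ℂ Z c).comp ((ContinuousLinearMap.apply ℂ _ b).comp E))
      (fun i => E1 i b c) (fun x => E6 x b c) a
  refine ⟨St - A1 - A2 - A3, ?_⟩
  ext a b c
  have h := E7 a b c
  rw [hE, hU] at h
  simp only [sub_apply, add_apply, d2_apply, map_sub] at h ⊢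
  linear_combination (norm := abel) h

/-- vanishing of the third cohomology passes from the ideal to the algebra -/
theorem Lvl.van3 (D : Diag p (ContinuousLinearMap.id ℂ Q) K) (L : Lvl p j θ) (hR : Van3 R) :
    Van3 Q := fun _ _ _ _ m _ hT => L.step D m hR hT

end Step

end Pool.Agent.Helper53.Dim3
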