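import Mathlib
import Pool.Agent.Helper53.CxA

set_option autoImplicit false
set_option maxSynthPendingDepth 3
set_option linter.unusedSectionVars false

namespace Pool.Agent.Helper53.CX

open Filter Topology Finset Pool.Agent.Helper53.Dim3

section

variable {X : Type} [TopologicalSpace X] [CompactSpace X]

/-- the functions vanishing outside `U` -/
def Qs (U : Set X) : NonUnitalSubalgebra ℂ C(X, ℂ) where
  carrier := {f | ∀ x ∉ U, f x = 0}
  add_mem' := fun {f g} hf hg x hx => by
    rw [ContinuousMap.add_apply, hf x hx, hg x hx, add_zero]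
  mul_mem' := fun {f g} hf hg x hx => by
    rw [ContinuousMap.mul_apply, hf x hx, zero_mul]
  zero_mem' := fun x _ => rfl
  smul_mem' := fun c f hf x hx => by
    rw [ContinuousMap.smul_apply, hf x hx, smul_zero]

/-- the ideal of functions vanishing outside `U` -/
def QU (U : Set X) : Type := Qs U

variable {U : Set X}

noncomputable instance : NonUnitalNormedCommRing (QU U) :=
  (Qs U).nonUnitalNormedCommRing

noncomputable instance : Module ℂ (QU U) := inferInstanceAs (Module ℂ (Qs U))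

noncomputable instance : NormedSpace ℂ (QU U) where
  norm_smul_le := fun c f => (norm_smul_le c (f : Qs U).1 : ‖c • (f : Qs U).1‖ ≤ ‖c‖ * ‖(f : Qs U).1‖)

instance : IsScalarTower ℂ (QU U) (QU U) := inferInstanceAs (IsScalarTower ℂ (Qs U) (Qs U))

instance : SMulCommClass ℂ (QU U) (QU U) := inferInstanceAs (SMulCommClass ℂ (Qs U) (Qs U))

/-- the underlying function -/
noncomputable def vl : QU U →L[ℂ] C(X, ℂ) :=
  LinearMap.mkContinuous
    { toFun := fun f => (f : Qs U).1
      map_add' := fun _ _ => rfl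
      map_smul' := fun _ _ => rfl } 1 (fun f => by
    rw [one_mul]; exact le_rfl)

/-- make an element of the ideal -/
def mkQ (f : C(X, ℂ)) (hf : ∀ x ∉ U, f x = 0) : QU U := (⟨f, hf⟩ : Qs U)

@[simp] lemma vl_mkQ (f : C(X, ℂ)) (hf : ∀ x ∉ U, f x = 0) : vl (mkQ f hf : QU U) = f := rfl

lemma vl_off (f : QU U) {x : X} (hx : x ∉ U) : vl f x = 0 := (f : Qs U).2 x hx

lemma vl_inj {f g : QU U} (h : vl f = vl g) : f = g := Subtype.ext h

lemma norm_vl (f : QU U) : ‖vl f‖ = ‖f‖ := rfl

@[simp] lemma vl_mul (f g : QU U) : vl (f * g) = vl f * vl g := rfl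

lemma qext {f g : QU U} (h : ∀ x ∈ U, vl f x = vl g x) : f = g := by
  apply vl_inj
  ext x
  by_cases hx : x ∈ U
  · exact h x hx
  · rw [vl_off _ hx, vl_off _ hx]

lemma qnorm_le {f : QU U} {C : ℝ} (hC : 0 ≤ C) (h : ∀ x ∈ U, ‖vl f x‖ ≤ C) : ‖f‖ ≤ C := by
  rw [← norm_vl, ContinuousMap.norm_le _ hC]
  intro x
  by_cases hx : x ∈ U
  · exact h x hx
  · rw [vl_off _ hx, norm_zero]; exact hC

lemma norm_vl_le (f : QU U) (x : X) : ‖vl f x‖ ≤ ‖f‖ := ContinuousMap.norm_coe_le_norm (vl f) x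

end

section Ptn

variable {X : Type} [TopologicalSpace X] [CompactSpace X]

/-- a partition of `U` into clopen sets -/
structure Ptn (U : Set X) (ι : Type) (V : ι → Set X) : Prop where
  clopen : ∀ i, IsClopen (V i)
  disj : ∀ i j, i ≠ j → Disjoint (V i) (V j)
  un : ⋃ i, V i = U

variable {U : Set X} {ι : Type} {V : ι → Set X}

lemma Ptn.sub (P : Ptn U ι V) (i : ι) : V i ⊆ U := P.un ▸ Set.subset_iUnion V i

lemma Ptn.isOpen (P : Ptn U ι V) : IsOpen U := P.un ▸ isOpen_iUnion fun i => (P.clopen i).isOpen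

/-- the indicator function of a clopen set -/
noncomputable def ind (W : Set X) (hW : IsClopen W) : C(X, ℂ) where
  toFun := W.indicator (fun _ => 1)
  continuous_toFun := by
    refine continuous_indicator ?_ continuousOn_const
    rw [hW.frontier_eq]
    intro x hx
    exact absurd hx (Set.notMem_empty x)

lemma ind_mem {W : Set X} (hW : IsClopen W) {x : X} (hx : x ∈ W) : ind W hW x = 1 := by
  show W.indicator (fun _ => (1 : ℂ)) x = 1
  exact Set.indicator_of_mem hx _

lemma ind_not_mem {W : Set X} (hW : IsClopen W) {x : X} (hx : x ∉ W) : ind W hW x = 0 := by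
  show W.indicator (fun _ => (1 : ℂ)) x = 0
  exact Set.indicator_of_notMem hx _

/-- the idempotents of a partition -/
noncomputable def Ptn.p (P : Ptn U ι V) (i : ι) : QU U :=
  mkQ (ind (V i) (P.clopen i)) (fun x hx => ind_not_mem (P.clopen i) (fun h => hx (P.sub i h)))

lemma Ptn.p_mem (P : Ptn U ι V) {i : ι} {x : X} (hx : x ∈ V i) : vl (P.p i) x = 1 :=
  ind_mem (P.clopen i) hx

lemma Ptn.p_not_mem (P : Ptn U ι V) {i : ι} {x : X} (hx : x ∉ V i) : vl (P.p i) x = 0 :=
  ind_not_mem (P.clopen i) hx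

lemma Ptn.exists_mem (P : Ptn U ι V) {x : X} (hx : x ∈ U) : ∃ i, x ∈ V i := by
  rw [← P.un] at hx
  exact Set.mem_iUnion.1 hx

lemma Ptn.eq_of_mem (P : Ptn U ι V) {i j : ι} {x : X} (hi : x ∈ V i) (hj : x ∈ V j) : i = j := by
  by_contra h
  exact Set.disjoint_left.1 (P.disj i j h) hi hj

lemma Ptn.idem (P : Ptn U ι V) (i : ι) : P.p i * P.p i = P.p i := by
  apply qext
  intro x _
  rw [vl_mul, ContinuousMap.mul_apply]
  by_cases h : x ∈ V i
  · rw [P.p_mem h, one_mul]
  · rw [P.p_not_mem h, zero_mul]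

lemma Ptn.orth (P : Ptn U ι V) (i j : ι) (h : i ≠ j) : P.p i * P.p j = 0 := by
  apply qext
  intro x _
  rw [vl_mul, ContinuousMap.mul_apply, map_zero]
  by_cases hi : x ∈ V i
  · rw [P.p_not_mem (i := j) (fun hj => h (P.eq_of_mem hi hj)), mul_zero]; rfl
  · rw [P.p_not_mem hi, zero_mul]; rfl

lemma vl_sum {κ : Type} (F : Finset κ) (f : κ → QU U) (x : X) :
    vl (∑ i ∈ F, f i) x = ∑ i ∈ F, vl (f i) x := by
  rw [map_sum, ContinuousMap.sum_apply]

open Classical in
lemma Ptn.vl_sum_p (P : Ptn U ι V) (F : Finset ι) (α : ι → ℂ) {x : X} {i : ι} (hx : x ∈ V i) :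
    vl (∑ k ∈ F, α k • P.p k) x = if i ∈ F then α i else 0 := by
  rw [vl_sum]
  have h : ∀ k ∈ F, vl (α k • P.p k) x = if k = i then α i else 0 := by
    intro k _
    rw [map_smul, ContinuousMap.smul_apply]
    split_ifs with hk
    · subst hk; rw [P.p_mem hx, smul_eq_mul, mul_one]
    · rw [P.p_not_mem (fun h => hk (P.eq_of_mem h hx)), smul_zero]
  rw [sum_congr rfl h, Finset.sum_ite_eq']

open Classical in
lemma Ptn.vl_sum_pm (P : Ptn U ι V) (F : Finset ι) (α : ι → ℂ) (a : QU U) {x : X} {i : ι}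
    (hx : x ∈ V i) : vl (∑ k ∈ F, α k • (P.p k * a)) x = if i ∈ F then α i * vl a x else 0 := by
  rw [vl_sum]
  have h : ∀ k ∈ F, vl (α k • (P.p k * a)) x = if k = i then α i * vl a x else 0 := by
    intro k _
    rw [map_smul, ContinuousMap.smul_apply, vl_mul, ContinuousMap.mul_apply]
    split_ifs with hk
    · subst hk; rw [P.p_mem hx, smul_eq_mul, one_mul]
    · rw [P.p_not_mem (fun h => hk (P.eq_of_mem h hx)), zero_mul, smul_zero]
  rw [sum_congr rfl h, Finset.sum_ite_eq']

/-- an element of the ideal is small outside finitely many pieces -/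
lemma Ptn.small (P : Ptn U ι V) (a : QU U) {ε : ℝ} (hε : 0 < ε) :
    ∃ F : Finset ι, ∀ i ∉ F, ∀ x ∈ V i, ‖vl a x‖ < ε := by
  have hc : IsCompact {x : X | ε ≤ ‖vl a x‖} :=
    (isClosed_le continuous_const (vl a).continuous.norm).isCompact
  have hsub : {x : X | ε ≤ ‖vl a x‖} ⊆ ⋃ i, V i := by
    intro x hx
    rw [P.un]
    by_contra h
    change ε ≤ ‖vl a x‖ at hx
    rw [vl_off a h, norm_zero] at hx
    exact absurd hx (not_le.2 hε)
  obtain ⟨F, hF⟩ := hc.elim_finite_subcover V (fun i => (P.clopen i).isOpen) hsub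
  refine ⟨F, fun i hi x hx => ?_⟩
  by_contra h
  obtain ⟨k, hk, hxk⟩ := Set.mem_iUnion₂.1 (hF (not_lt.1 h))
  exact hi (P.eq_of_mem hx hxk ▸ hk)

lemma Ptn.hasSum_mul (P : Ptn U ι V) (a : QU U) : HasSum (fun i => P.p i * a) a := by
  classical
  rw [HasSum, SummationFilter.unconditional_filter, Metric.tendsto_atTop]
  intro ε hε
  obtain ⟨F, hF⟩ := P.small a (half_pos hε)
  refine ⟨F, fun G hG => ?_⟩
  rw [dist_eq_norm]
  refine lt_of_le_of_lt (qnorm_le (half_pos hε).le fun x hx => ?_) (half_lt_self hε)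
  obtain ⟨i, hi⟩ := P.exists_mem hx
  have e : ∑ k ∈ G, P.p k * a = ∑ k ∈ G, (1 : ℂ) • (P.p k * a) := by simp
  rw [map_sub, ContinuousMap.sub_apply, e, P.vl_sum_pm G (fun _ => 1) a hi]
  split_ifs with h
  · rw [one_mul, sub_self, norm_zero]; exact (half_pos hε).le
  · rw [zero_sub, norm_neg]
    exact (hF i (fun h' => h (hG h')) x hi).le

/-- sums of multiples of the idempotents -/
lemma Ptn.hasSum_smul (P : Ptn U ι V) (α : ι → ℂ) (f : QU U)
    (hf : ∀ i, ∀ x ∈ V i, vl f x = α i)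
    (hα : ∀ ε > 0, ∃ F : Finset ι, ∀ i ∉ F, ‖α i‖ < ε) :
    HasSum (fun i => α i • P.p i) f := by
  classical
  rw [HasSum, SummationFilter.unconditional_filter, Metric.tendsto_atTop]
  intro ε hε
  obtain ⟨F, hF⟩ := hα _ (half_pos hε)
  refine ⟨F, fun G hG => ?_⟩
  rw [dist_eq_norm]
  refine lt_of_le_of_lt (qnorm_le (half_pos hε).le fun x hx => ?_) (half_lt_self hε)
  obtain ⟨i, hi⟩ := P.exists_mem hx
  rw [map_sub, ContinuousMap.sub_apply, P.vl_sum_p G α hi, hf i x hi]
  split_ifs with h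
  · rw [sub_self, norm_zero]; exact (half_pos hε).le
  · rw [zero_sub, norm_neg]
    exact (hF i (fun h' => h (hG h'))).le

/-- the partition gives a diagonal structure -/
lemma Ptn.diag (P : Ptn U ι V) : Diag P.p (ContinuousLinearMap.id ℂ (QU U)) 1 where
  K_nonneg := zero_le_one
  idem := P.idem
  orth := P.orth
  ββ := fun _ => rfl
  βp := fun _ _ => rfl
  sum := P.hasSum_mul
  bound := fun G a F => by
    rw [one_mul]
    have := sign_avg0 (fun i => (G (P.p i)).toLinearMap) (fun i => P.p i * a) (‖G‖ * ‖a‖) F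
      (fun ε hε => by
        have e : ∑ n ∈ F, ε n • (G (P.p n)).toLinearMap (∑ n ∈ F, ε n • (P.p n * a))
            = G (∑ n ∈ F, ε n • P.p n) (∑ n ∈ F, ε n • (P.p n * a)) := by
          have e' : G (∑ n ∈ F, ε n • P.p n) = ∑ n ∈ F, ε n • G (P.p n) := by
            rw [map_sum]
            simp only [map_smul]
          rw [e', _root_.sum_apply]
          rfl
        rw [e]
        have hε1 : ∀ i, ‖ε i‖ ≤ 1 := fun i => by
          rcases hε i with h | h <;> rw [h] <;> simp
        have h1 : ‖∑ n ∈ F, ε n • P.p n‖ ≤ 1 := by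
          classical
          refine qnorm_le zero_le_one fun x hx => ?_
          obtain ⟨i, hi⟩ := P.exists_mem hx
          rw [P.vl_sum_p F ε hi]
          split_ifs
          · exact hε1 i
          · rw [norm_zero]; exact zero_le_one
        have h2 : ‖∑ n ∈ F, ε n • (P.p n * a)‖ ≤ ‖a‖ := by
          classical
          refine qnorm_le (norm_nonneg _) fun x hx => ?_
          obtain ⟨i, hi⟩ := P.exists_mem hx
          rw [P.vl_sum_pm F ε a hi]
          split_ifs
          · rw [norm_mul]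
            exact (mul_le_of_le_one_left (norm_nonneg _) (hε1 i)).trans (norm_vl_le a x)
          · rw [norm_zero]; exact norm_nonneg _
        calc _ ≤ ‖G‖ * ‖∑ n ∈ F, ε n • P.p n‖ * ‖∑ n ∈ F, ε n • (P.p n * a)‖ :=
              G.le_opNorm₂ _ _
          _ ≤ ‖G‖ * 1 * ‖a‖ := by gcongr
          _ = ‖G‖ * ‖a‖ := by rw [mul_one])
    exact this

end Ptn

end Pool.Agent.Helper53.CX
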