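import Mathlib
import Pool.Agent.Helper53.CxB

set_option autoImplicit false
set_option maxSynthPendingDepth 3
set_option linter.unusedSectionVars false

namespace Pool.Agent.Helper53.CX

open Filter Topology Finset Pool.Agent.Helper53.Dim3

section

variable {X : Type} [TopologicalSpace X] [CompactSpace X]
variable {U : Set X} {ι : Type} {V : ι → Set X}

open Classical in
/-- the value of `a` at the centre of the piece containing `x` -/
noncomputable def rhoFun (V : ι → Set X) (c : ι → X) (a : C(X, ℂ)) (x : X) : ℂ :=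
  if h : ∃ i, x ∈ V i then a (c h.choose) else 0

lemma rhoFun_of_mem (P : Ptn U ι V) (c : ι → X) (a : C(X, ℂ)) {x : X} {i : ι} (hx : x ∈ V i) :
    rhoFun V c a x = a (c i) := by
  have h : ∃ i, x ∈ V i := ⟨i, hx⟩
  rw [rhoFun, dif_pos h, P.eq_of_mem h.choose_spec hx]

lemma rhoFun_off (P : Ptn U ι V) (c : ι → X) (a : C(X, ℂ)) {x : X} (hx : x ∉ U) :
    rhoFun V c a x = 0 := by
  rw [rhoFun, dif_neg]
  rintro ⟨i, hi⟩
  exact hx (P.sub i hi)

lemma rhoFun_continuous (P : Ptn U ι V) {c : ι → X} (hc : ∀ i, c i ∈ V i) (a : QU U) :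
    Continuous (rhoFun V c (vl a)) := by
  rw [continuous_iff_continuousAt]
  intro x
  by_cases hx : x ∈ U
  · obtain ⟨i, hi⟩ := P.exists_mem hx
    have h1 : rhoFun V c (vl a) =ᶠ[𝓝 x] fun _ => vl a (c i) := by
      filter_upwards [(P.clopen i).isOpen.mem_nhds hi] with y hy
      exact rhoFun_of_mem P c _ hy
    exact (continuousAt_const).congr h1.symm
  · rw [ContinuousAt, rhoFun_off P c _ hx, Metric.tendsto_nhds]
    intro ε hε
    obtain ⟨F, hF⟩ := P.small a hε
    have hcl : IsClosed (⋃ i ∈ F, V i) :=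
      isClosed_biUnion_finset fun i _ => (P.clopen i).isClosed
    have hxn : x ∉ ⋃ i ∈ F, V i := by
      intro h
      obtain ⟨i, _, hi⟩ := Set.mem_iUnion₂.1 h
      exact hx (P.sub i hi)
    filter_upwards [hcl.isOpen_compl.mem_nhds hxn] with y hy
    rw [dist_zero_right]
    by_cases hyU : y ∈ U
    · obtain ⟨i, hi⟩ := P.exists_mem hyU
      rw [rhoFun_of_mem P c _ hi]
      have hiF : i ∉ F := fun h => hy (Set.mem_biUnion h hi)
      exact hF i hiF _ (hc i)
    · rw [rhoFun_off P c _ hyU, norm_zero]; exact hε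

/-- the function constant on the pieces -/
noncomputable def rho (P : Ptn U ι V) {c : ι → X} (hc : ∀ i, c i ∈ V i) (a : QU U) : QU U :=
  mkQ ⟨rhoFun V c (vl a), rhoFun_continuous P hc a⟩ (fun _ hx => rhoFun_off P c _ hx)

lemma vl_rho (P : Ptn U ι V) {c : ι → X} (hc : ∀ i, c i ∈ V i) (a : QU U) {x : X} {i : ι}
    (hx : x ∈ V i) : vl (rho P hc a) x = vl a (c i) := rhoFun_of_mem P c _ hx

/-- the complement of the centres -/
def cut (U : Set X) (c : ι → X) : Set X := U \ Set.range c

lemma rho_center (P : Ptn U ι V) {c : ι → X} (hc : ∀ i, c i ∈ V i) (a : QU U) :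
    ∀ x ∉ cut U c, vl (a - rho P hc a) x = 0 := by
  intro x hx
  by_cases hU : x ∈ U
  · have h2 : x ∈ Set.range c := by
      by_contra h
      exact hx ⟨hU, h⟩
    obtain ⟨i, rfl⟩ := h2
    rw [map_sub, ContinuousMap.sub_apply, vl_rho P hc a (hc i), sub_self]
  · exact vl_off _ hU

/-- the projection onto the ideal -/
noncomputable def theta (P : Ptn U ι V) {c : ι → X} (hc : ∀ i, c i ∈ V i) :
    QU U →L[ℂ] QU (cut U c) :=
  LinearMap.mkContinuous
    { toFun := fun a => mkQ (vl (a - rho P hc a)) (rho_center P hc a)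
      map_add' := fun a b => by
        apply qext
        intro x hx
        obtain ⟨i, hi⟩ := P.exists_mem hx.1
        rw [map_add, ContinuousMap.add_apply, vl_mkQ, vl_mkQ, vl_mkQ, map_sub, map_sub, map_sub,
          ContinuousMap.sub_apply, ContinuousMap.sub_apply, ContinuousMap.sub_apply,
          vl_rho P hc _ hi, vl_rho P hc _ hi, vl_rho P hc _ hi, map_add, ContinuousMap.add_apply,
          ContinuousMap.add_apply]
        ring
      map_smul' := fun r a => by
        apply qext
        intro x hx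
        obtain ⟨i, hi⟩ := P.exists_mem hx.1
        rw [map_smul, ContinuousMap.smul_apply, vl_mkQ, vl_mkQ, map_sub, map_sub,
          ContinuousMap.sub_apply, ContinuousMap.sub_apply,
          vl_rho P hc _ hi, vl_rho P hc _ hi, map_smul, ContinuousMap.smul_apply,
          ContinuousMap.smul_apply, smul_sub]
        rfl } 2 (fun a => by
    refine qnorm_le (by positivity) fun x hx => ?_
    obtain ⟨i, hi⟩ := P.exists_mem hx.1
    show ‖vl (a - rho P hc a) x‖ ≤ _
    rw [map_sub, ContinuousMap.sub_apply, vl_rho P hc _ hi]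
    calc _ ≤ ‖vl a x‖ + ‖vl a (c i)‖ := norm_sub_le _ _
      _ ≤ ‖a‖ + ‖a‖ := add_le_add (norm_vl_le _ _) (norm_vl_le _ _)
      _ = 2 * ‖a‖ := by ring)

lemma vl_theta (P : Ptn U ι V) {c : ι → X} (hc : ∀ i, c i ∈ V i) (a : QU U) {x : X} {i : ι}
    (hx : x ∈ V i) : vl (theta P hc a) x = vl a x - vl a (c i) := by
  show vl (a - rho P hc a) x = _
  rw [map_sub, ContinuousMap.sub_apply, vl_rho P hc _ hx]

/-- the inclusion of the ideal -/
noncomputable def incl {U' : Set X} (h : U' ⊆ U) : QU U' →L[ℂ] QU U :=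
  LinearMap.mkContinuous
    { toFun := fun a => mkQ (vl a) (fun _ hx => vl_off a (fun h' => hx (h h')))
      map_add' := fun _ _ => rfl
      map_smul' := fun _ _ => rfl } 1 (fun a => by rw [one_mul]; exact le_rfl)

@[simp] lemma vl_incl {U' : Set X} (h : U' ⊆ U) (a : QU U') : vl (incl h a) = vl a := rfl

lemma cut_sub (U : Set X) (c : ι → X) : cut U c ⊆ U := Set.sdiff_subset

lemma lvl (P : Ptn U ι V) {c : ι → X} (hc : ∀ i, c i ∈ V i) :
    Lvl P.p (incl (cut_sub U c)) (theta P hc) where
  j_mul := fun _ _ => rfl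
  θj := fun x => by
    apply qext
    intro y hy
    obtain ⟨i, hi⟩ := P.exists_mem hy.1
    rw [vl_theta P hc _ hi, vl_incl, vl_off x (x := c i) (fun h => h.2 ⟨i, rfl⟩), sub_zero]
  ideal := fun a x => by
    apply qext
    intro y hy
    obtain ⟨i, hi⟩ := P.exists_mem hy
    rw [vl_incl, vl_theta P hc _ hi, vl_mul, ContinuousMap.mul_apply, ContinuousMap.mul_apply,
      vl_incl, vl_off x (x := c i) (fun h => h.2 ⟨i, rfl⟩), mul_zero, sub_zero]
  θp := fun i => by
    apply qext
    intro y hy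
    obtain ⟨k, hk⟩ := P.exists_mem hy.1
    rw [vl_theta P hc _ hk, map_zero]
    by_cases h : k = i
    · subst h
      rw [P.p_mem hk, P.p_mem (hc k), sub_self]; rfl
    · rw [P.p_not_mem (fun h' => h (P.eq_of_mem hk h')),
        P.p_not_mem (fun h' => h (P.eq_of_mem (hc k) h')), sub_self]; rfl
  θmul := fun i a => by
    apply qext
    intro y hy
    obtain ⟨k, hk⟩ := P.exists_mem hy
    rw [vl_incl, vl_theta P hc _ hk, vl_mul, vl_mul, ContinuousMap.mul_apply,
      ContinuousMap.mul_apply, ContinuousMap.mul_apply, vl_incl, vl_theta P hc _ hk]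
    by_cases h : k = i
    · subst h
      rw [P.p_mem hk, P.p_mem (hc k)]; ring
    · rw [P.p_not_mem (fun h' => h (P.eq_of_mem hk h')),
        P.p_not_mem (fun h' => h (P.eq_of_mem (hc k) h'))]; ring
  dec := fun a => by
    refine ⟨fun i => vl a (c i), P.hasSum_smul _ _ (fun i x hx => ?_) (fun ε hε => ?_)⟩
    · rw [map_sub, ContinuousMap.sub_apply, vl_incl, vl_theta P hc _ hx]; ring
    · obtain ⟨F, hF⟩ := P.small a hε
      exact ⟨F, fun i hi => hF i hi _ (hc i)⟩

/-- one step of the induction -/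
lemma Ptn.van3 (P : Ptn U ι V) {c : ι → X} (hc : ∀ i, c i ∈ V i) (h : Van3 (QU (cut U c))) :
    Van3 (QU U) := Lvl.van3 P.diag (lvl P hc) h

end

end Pool.Agent.Helper53.CX
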