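import Mathlib
import Pool.Agent.Helper53.CxC

set_option autoImplicit false
set_option maxSynthPendingDepth 3
set_option linter.unusedSectionVars false

namespace Pool.Agent.Helper53.CX

open Filter Topology Finset Pool.Agent.Helper53.Dim3

section

variable (X : Type) [TopologicalSpace X]

/-- the iterated derived sets of `X` -/
def cb : ℕ → Set X
  | 0 => Set.univ
  | n + 1 => derivedSet (cb n)

/-- the complement of every point is a disjoint union of clopen sets -/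
def PropD : Prop := ∀ x : X, ∃ (ι : Type) (V : ι → Set X), Ptn {x}ᶜ ι V

variable {X} [CompactSpace X] [T2Space X]
variable {U : Set X} {ι : Type} {V : ι → Set X}

lemma PropD.sep (h : PropD X) {y z : X} (hyz : y ≠ z) : ∃ C : Set X, IsClopen C ∧ y ∈ C ∧ z ∉ C := by
  obtain ⟨ι, V, P⟩ := h z
  obtain ⟨i, hi⟩ := P.exists_mem (x := y) (by simpa using hyz)
  refine ⟨V i, P.clopen i, hi, fun h' => ?_⟩
  exact P.sub i h' rfl

lemma finite_inter (P : Ptn U ι V) {n : ℕ} (h : U ∩ cb X (n + 1) = ∅) (i : ι) :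
    (V i ∩ cb X n).Finite := by
  by_contra hinf
  obtain ⟨x, hx, hacc⟩ := Set.Infinite.exists_accPt_of_subset_isCompact (K := V i) hinf
    (P.clopen i).isClosed.isCompact Set.inter_subset_left
  have h1 : x ∈ cb X (n + 1) := by
    show AccPt x (𝓟 (cb X n))
    exact hacc.mono (principal_mono.2 Set.inter_subset_right)
  have h2 : x ∈ U ∩ cb X (n + 1) := ⟨P.sub i hx, h1⟩
  rw [h] at h2
  exact h2

/-- refinement of a partition such that every piece contains at most one point of a set -/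
lemma exists_refine (hD : PropD X) (P : Ptn U ι V) (A : Set X) (hA : ∀ i, (V i ∩ A).Finite) :
    ∃ (κ : Type) (W : κ → Set X) (c : κ → X), Ptn U κ W ∧ (∀ k, c k ∈ W k) ∧
      ∀ k, ∀ x ∈ W k, x ∈ A → x = c k := by
  classical
  have hsep : ∀ q : X × X, ∃ C : Set X, IsClopen C ∧ (q.1 ≠ q.2 → q.1 ∈ C ∧ q.2 ∉ C) := by
    intro q
    by_cases h : q.1 = q.2
    · exact ⟨∅, isClopen_empty, fun h' => absurd h h'⟩
    · obtain ⟨C, h1, h2, h3⟩ := hD.sep h
      exact ⟨C, h1, fun _ => ⟨h2, h3⟩⟩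
  choose C hC1 hC2 using hsep
  let F : ι → Finset (X × X) := fun i => (hA i).toFinset ×ˢ (hA i).toFinset
  let cls : ι → X → Set X := fun i x => V i ∩ ⋂ q ∈ F i, {x' | x' ∈ C q ↔ x ∈ C q}
  have hcls : ∀ i x x', x' ∈ cls i x ↔ x' ∈ V i ∧ ∀ q ∈ F i, (x' ∈ C q ↔ x ∈ C q) := by
    intro i x x'
    simp only [cls, Set.mem_inter_iff, Set.mem_iInter]
    rfl
  have hclo : ∀ i x, IsClopen (cls i x) := by
    intro i x
    refine (P.clopen i).inter (isClopen_biInter_finset fun q _ => ?_)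
    by_cases h : x ∈ C q
    · have e : {x' | x' ∈ C q ↔ x ∈ C q} = C q := by
        ext y; exact ⟨fun hy => hy.2 h, fun hy => ⟨fun _ => h, fun _ => hy⟩⟩
      rw [e]; exact hC1 q
    · have e : {x' | x' ∈ C q ↔ x ∈ C q} = (C q)ᶜ := by
        ext y
        exact ⟨fun hy hy' => h (hy.1 hy'), fun hy => ⟨fun h' => absurd h' hy, fun h' => absurd h' h⟩⟩
      rw [e]; exact (hC1 q).compl
  let κ : Type := {W : Set X // ∃ i, ∃ x ∈ V i, W = cls i x}
  have hne : ∀ k : κ, ∃ x ∈ k.1, ∀ y ∈ k.1, y ∈ A → y = x := by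
    rintro ⟨W, i, x, hx, rfl⟩
    have hxx : x ∈ cls i x := (hcls i x x).2 ⟨hx, fun q _ => Iff.rfl⟩
    by_cases h : ∃ z ∈ cls i x, z ∈ A
    · obtain ⟨z, hz, hzA⟩ := h
      refine ⟨z, hz, fun y hy hyA => ?_⟩
      by_contra hyz
      have hq : (y, z) ∈ F i := by
        simp only [F, Finset.mem_product, Set.Finite.mem_toFinset]
        exact ⟨⟨((hcls _ _ _).1 hy).1, hyA⟩, ⟨((hcls _ _ _).1 hz).1, hzA⟩⟩
      have h1 := ((hcls _ _ _).1 hy).2 _ hq
      have h2 := ((hcls _ _ _).1 hz).2 _ hq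
      have h3 := hC2 (y, z) hyz
      exact h3.2 (h2.2 (h1.1 h3.1))
    · push Not at h
      exact ⟨x, hxx, fun y hy hyA => absurd hyA (h y hy)⟩
  choose c hc1 hc2 using hne
  refine ⟨κ, fun k => k.1, c, ⟨?_, ?_, ?_⟩, hc1, hc2⟩
  · rintro ⟨W, i, x, hx, rfl⟩
    exact hclo i x
  · rintro ⟨W, i, x, hx, rfl⟩ ⟨W', i', x', hx', rfl⟩ hne
    rw [Set.disjoint_left]
    intro y hy hy'
    apply hne
    have h1 := (hcls _ _ _).1 hy
    have h2 := (hcls _ _ _).1 hy'
    have hii : i = i' := P.eq_of_mem h1.1 h2.1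
    subst hii
    apply Subtype.ext
    ext z
    rw [hcls, hcls]
    refine and_congr_right fun _ => ?_
    refine forall₂_congr fun q hq => ?_
    rw [← h1.2 q hq, ← h2.2 q hq]
  · apply Set.Subset.antisymm
    · refine Set.iUnion_subset ?_
      rintro ⟨W, i, x, hx, rfl⟩ y hy
      exact P.sub i ((hcls _ _ _).1 hy).1
    · intro x hx
      obtain ⟨i, hi⟩ := P.exists_mem hx
      exact Set.mem_iUnion.2 ⟨⟨cls i x, i, x, hi, rfl⟩, (hcls i x x).2 ⟨hi, fun q _ => Iff.rfl⟩⟩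

/-- the complement of the centres has a partition -/
lemma exists_cut (hD : PropD X) (P : Ptn U ι V) {c : ι → X} (hc : ∀ i, c i ∈ V i) :
    ∃ (κ : Type) (W : κ → Set X), Ptn (cut U c) κ W := by
  choose κ W hW using hD
  refine ⟨Σ i : ι, κ (c i), fun k => V k.1 ∩ W (c k.1) k.2, ⟨?_, ?_, ?_⟩⟩
  · rintro ⟨i, k⟩
    exact (P.clopen i).inter ((hW (c i)).clopen k)
  · rintro ⟨i, k⟩ ⟨i', k'⟩ hne
    rw [Set.disjoint_left]
    rintro y ⟨h1, h2⟩ ⟨h3, h4⟩
    have hii : i = i' := P.eq_of_mem h1 h3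
    subst hii
    have hkk : k = k' := (hW (c i)).eq_of_mem h2 h4
    subst hkk
    exact hne rfl
  · ext y
    simp only [Set.mem_iUnion]
    constructor
    · rintro ⟨⟨i, k⟩, h1, h2⟩
      refine ⟨P.sub i h1, ?_⟩
      rintro ⟨i', rfl⟩
      have hii : i = i' := P.eq_of_mem h1 (hc i')
      subst hii
      exact (hW (c i)).sub k h2 rfl
    · rintro ⟨h1, h2⟩
      obtain ⟨i, hi⟩ := P.exists_mem h1
      have h3 : y ∈ ({c i}ᶜ : Set X) := fun h => h2 ⟨i, h.symm⟩
      obtain ⟨k, hk⟩ := (hW (c i)).exists_mem h3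
      exact ⟨⟨i, k⟩, hi, hk⟩

theorem van3_of_rank (hD : PropD X) (n : ℕ) : ∀ (U : Set X) (ι : Type) (V : ι → Set X),
    Ptn U ι V → U ∩ cb X n = ∅ → Van3 (QU U) := by
  induction n with
  | zero =>
    intro U ι V P h
    have hU : U = ∅ := by rw [← h]; exact (Set.inter_univ U).symm
    subst hU
    have hz : ∀ a : QU (∅ : Set X), a = 0 := fun a => qext (fun x hx => absurd hx (Set.notMem_empty x))
    intro Z _ _ _ m T hT
    refine ⟨0, ?_⟩
    ext a b c
    rw [hz a, map_zero, map_zero]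
  | succ n ih =>
    intro U ι V P h
    obtain ⟨κ, W, c, P', hc, hu⟩ := exists_refine hD P (cb X n) (finite_inter P h)
    obtain ⟨κ', W', P''⟩ := exists_cut hD P' hc
    refine P'.van3 hc (ih _ _ _ P'' ?_)
    rw [Set.eq_empty_iff_forall_notMem]
    rintro x ⟨⟨h1, h2⟩, h3⟩
    obtain ⟨k, hk⟩ := P'.exists_mem h1
    exact h2 ⟨k, (hu k x hk h3).symm⟩

/-- the third cohomology of `C(X)` vanishes if `X` has finite Cantor-Bendixson rank and the
complement of every point is a disjoint union of clopen sets -/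
theorem van3_of_propD (hD : PropD X) {n : ℕ} (hn : cb X n = ∅) : Van3 C(X, ℂ) := by
  have P : Ptn (Set.univ : Set X) Unit (fun _ => Set.univ) :=
    ⟨fun _ => isClopen_univ, fun i j h => absurd rfl h, Set.iUnion_const _⟩
  have h := van3_of_rank hD n _ _ _ P (by rw [hn, Set.inter_empty])
  intro Z _ _ _ m T hT
  let j : QU (Set.univ : Set X) →L[ℂ] C(X, ℂ) := vl
  let i : C(X, ℂ) →L[ℂ] QU (Set.univ : Set X) :=
    LinearMap.mkContinuous
      { toFun := fun f => mkQ f (fun x hx => absurd (Set.mem_univ x) hx)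
        map_add' := fun _ _ => rfl
        map_smul' := fun _ _ => rfl } 1 (fun f => by rw [one_mul]; exact le_rfl)
  have hji : ∀ f, j (i f) = f := fun _ => rfl
  obtain ⟨S, hS⟩ := h Z (m.pull j (fun _ _ => rfl))
    (up j (up j (up j (ContinuousLinearMap.id ℂ Z))) T) (fun a b c d => hT _ _ _ _)
  refine ⟨up i (up i (ContinuousLinearMap.id ℂ Z)) S, ?_⟩
  ext a b c
  have e := congrArg (fun F : QU (Set.univ : Set X) →L[ℂ] QU (Set.univ : Set X) →L[ℂ]
    QU (Set.univ : Set X) →L[ℂ] Z => F (i a) (i b) (i c)) hS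
  exact e

end

end Pool.Agent.Helper53.CX
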