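import Mathlib

set_option autoImplicit false

namespace Pool.Agent.Helper53.BanachHomology

section

variable (A B : Type) [NonUnitalNormedRing A] [NormedSpace ℂ A]
  [NonUnitalNormedRing B] [NormedSpace ℂ B]

/-- A left Banach `A`-module: a Banach space with a bounded bilinear action `(a, x) ↦ a x` such
that `(a b) x = a (b x)`. -/
structure LMod where
  carrier : Type
  [grp : NormedAddCommGroup carrier]
  [spc : NormedSpace ℂ carrier]
  [cpl : CompleteSpace carrier]
  act : A →L[ℂ] carrier →L[ℂ] carrier
  act_mul : ∀ a b x, act (a * b) x = act a (act b x)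

/-- A Banach `A`-`B`-bimodule: `left a x` is `a x` and `right b x` is `x b`. -/
structure Bim where
  carrier : Type
  [grp : NormedAddCommGroup carrier]
  [spc : NormedSpace ℂ carrier]
  [cpl : CompleteSpace carrier]
  left : A →L[ℂ] carrier →L[ℂ] carrier
  right : B →L[ℂ] carrier →L[ℂ] carrier
  left_mul : ∀ a b x, left (a * b) x = left a (left b x)
  right_mul : ∀ a b x, right (a * b) x = right b (right a x)
  left_right : ∀ a b x, left a (right b x) = right b (left a x)

end

attribute [instance] LMod.grp LMod.spc LMod.cpl Bim.grp Bim.spc Bim.cpl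

variable {A B : Type} [NonUnitalNormedRing A] [NormedSpace ℂ A]
  [NonUnitalNormedRing B] [NormedSpace ℂ B]

namespace LMod

/-- bounded operators between the underlying Banach spaces -/
abbrev Op (X Y : LMod A) : Type := X.carrier →L[ℂ] Y.carrier

/-- the bounded operator `f` is a morphism of left Banach modules -/
def IsHom {X Y : LMod A} (f : Op X Y) : Prop := ∀ a x, f (X.act a x) = Y.act a (f x)

/-- `f` has a right inverse which is a bounded operator -/
def IsAdmissibleEpi {X Y : LMod A} (f : Op X Y) : Prop := ∃ g : Op Y X, ∀ y, f (g y) = y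

/-- `P` is (relatively) projective: morphisms from `P` lift along all admissible epimorphisms. -/
def Projective (P : LMod A) : Prop :=
  ∀ (Y Z : LMod A) (σ : Op Y Z) (φ : Op P Z), IsHom σ → IsAdmissibleEpi σ → IsHom φ →
    ∃ ψ : Op P Y, IsHom ψ ∧ ∀ p, σ (ψ p) = φ p

/-- A sequence `0 ← X ← P₀ ← P₁ ← ⋯` of left Banach modules and bounded operators, together
with bounded operators `X → P₀ → P₁ → ⋯` in the other direction. -/
structure Cplx (X : LMod A) where
  P : ℕ → LMod A
  ε : Op (P 0) X
  d : ∀ i, Op (P (i + 1)) (P i)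
  s' : Op X (P 0)
  s : ∀ i, Op (P i) (P (i + 1))

/-- the sequence is a complex of projective modules and morphisms -/
structure Cplx.IsProjectiveComplex {X : LMod A} (R : Cplx X) : Prop where
  projective : ∀ i, (R.P i).Projective
  ε_hom : IsHom R.ε
  d_hom : ∀ i, IsHom (R.d i)
  ε_d : ∀ x, R.ε (R.d 0 x) = 0
  d_d : ∀ i x, R.d i (R.d (i + 1) x) = 0

/-- the operators in the other direction are a contracting homotopy -/
structure Cplx.IsContractingHomotopy {X : LMod A} (R : Cplx X) : Prop where
  ε_s : ∀ x, R.ε (R.s' x) = x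
  h_zero : ∀ x, R.s' (R.ε x) + R.d 0 (R.s 0 x) = x
  h_succ : ∀ i x, R.s i (R.d i x) + R.d (i + 1) (R.s (i + 1) x) = x

/-- `X` has an admissible resolution `0 ← X ← P₀ ← ⋯ ← Pₙ ← 0` by projective modules. -/
def HasResolution (X : LMod A) (n : ℕ) : Prop :=
  ∃ R : Cplx X, R.IsProjectiveComplex ∧ R.IsContractingHomotopy ∧
    ∀ i, n < i → Subsingleton (R.P i).carrier

/-- the homological dimension of `X` -/
noncomputable def dh (X : LMod A) : ℕ∞ := ⨅ (n : ℕ) (_ : X.HasResolution n), (n : ℕ∞)

end LMod

namespace Bim

/-- bounded operators between the underlying Banach spaces -/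
abbrev Op (X Y : Bim A B) : Type := X.carrier →L[ℂ] Y.carrier

/-- the bounded operator `f` is a morphism of Banach bimodules -/
def IsHom {X Y : Bim A B} (f : Op X Y) : Prop :=
  (∀ a x, f (X.left a x) = Y.left a (f x)) ∧ ∀ b x, f (X.right b x) = Y.right b (f x)

/-- `f` has a right inverse which is a bounded operator -/
def IsAdmissibleEpi {X Y : Bim A B} (f : Op X Y) : Prop := ∃ g : Op Y X, ∀ y, f (g y) = y

/-- `P` is (relatively) projective: morphisms from `P` lift along all admissible epimorphisms. -/
def Projective (P : Bim A B) : Prop :=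
  ∀ (Y Z : Bim A B) (σ : Op Y Z) (φ : Op P Z), IsHom σ → IsAdmissibleEpi σ → IsHom φ →
    ∃ ψ : Op P Y, IsHom ψ ∧ ∀ p, σ (ψ p) = φ p

/-- A sequence `0 ← X ← P₀ ← P₁ ← ⋯` of Banach bimodules and bounded operators, together
with bounded operators `X → P₀ → P₁ → ⋯` in the other direction. -/
structure Cplx (X : Bim A B) where
  P : ℕ → Bim A B
  ε : Op (P 0) X
  d : ∀ i, Op (P (i + 1)) (P i)
  s' : Op X (P 0)
  s : ∀ i, Op (P i) (P (i + 1))

/-- the sequence is a complex of projective bimodules and morphisms -/
structure Cplx.IsProjectiveComplex {X : Bim A B} (R : Cplx X) : Prop where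
  projective : ∀ i, (R.P i).Projective
  ε_hom : IsHom R.ε
  d_hom : ∀ i, IsHom (R.d i)
  ε_d : ∀ x, R.ε (R.d 0 x) = 0
  d_d : ∀ i x, R.d i (R.d (i + 1) x) = 0

/-- the operators in the other direction are a contracting homotopy -/
structure Cplx.IsContractingHomotopy {X : Bim A B} (R : Cplx X) : Prop where
  ε_s : ∀ x, R.ε (R.s' x) = x
  h_zero : ∀ x, R.s' (R.ε x) + R.d 0 (R.s 0 x) = x
  h_succ : ∀ i x, R.s i (R.d i x) + R.d (i + 1) (R.s (i + 1) x) = x

/-- `X` has an admissible resolution `0 ← X ← P₀ ← ⋯ ← Pₙ ← 0` by projective bimodules. -/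
def HasResolution (X : Bim A B) (n : ℕ) : Prop :=
  ∃ R : Cplx X, R.IsProjectiveComplex ∧ R.IsContractingHomotopy ∧
    ∀ i, n < i → Subsingleton (R.P i).carrier

/-- the homological dimension of `X` -/
noncomputable def dh (X : Bim A B) : ℕ∞ := ⨅ (n : ℕ) (_ : X.HasResolution n), (n : ℕ∞)

end Bim

section Unitization

variable (A)

/-- the Banach space underlying the unitization `A₊` of `A`: pairs `(r, x)` with the norm
`|r| + ‖x‖` -/
abbrev Plus : Type := WithLp 1 (ℂ × A)

variable {A}

omit [NormedSpace ℂ A] in
lemma plus_norm (x : Plus A) : ‖x‖ = ‖x.fst‖ + ‖x.snd‖ := WithLp.prod_norm_eq_of_L1 x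

omit [NonUnitalNormedRing A] [NormedSpace ℂ A] in
lemma plus_ext {x y : Plus A} (h1 : x.fst = y.fst) (h2 : x.snd = y.snd) : x = y :=
  (WithLp.equiv 1 (ℂ × A)).injective (Prod.ext h1 h2)

variable [CompleteSpace A] [IsScalarTower ℂ A A] [SMulCommClass ℂ A A]

/-- the left action on the unitization: `a (r, x) = (0, r a + a x)` -/
noncomputable def plusLeft : A →L[ℂ] Plus A →L[ℂ] Plus A :=
  LinearMap.mkContinuous₂
    (LinearMap.mk₂ ℂ (fun (a : A) (x : Plus A) =>
        (WithLp.toLp 1 ((0 : ℂ), x.fst • a + a * x.snd) : Plus A))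
      (fun a b x => plus_ext (by simp) (by simp [add_mul]; abel))
      (fun c a x => plus_ext (by simp) (by
        show x.fst • (c • a) + (c • a) * x.snd = c • (x.fst • a + a * x.snd)
        rw [smul_add, smul_mul_assoc, smul_comm]))
      (fun a x y => plus_ext (by simp) (by simp [mul_add, add_smul]; abel))
      (fun c a x => plus_ext (by simp) (by
        show (c * x.fst) • a + a * (c • x.snd) = c • (x.fst • a + a * x.snd)
        rw [smul_add, mul_smul_comm, mul_smul]))) 1
    (fun a x => by
      rw [plus_norm]
      show ‖(0 : ℂ)‖ + ‖x.fst • a + a * x.snd‖ ≤ 1 * ‖a‖ * ‖x‖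
      rw [plus_norm x, norm_zero, zero_add]
      refine (norm_add_le _ _).trans ?_
      have h1 := norm_mul_le a x.snd
      rw [norm_smul]
      nlinarith)

/-- the right action on the unitization: `(r, x) a = (0, r a + x a)` -/
noncomputable def plusRight : A →L[ℂ] Plus A →L[ℂ] Plus A :=
  LinearMap.mkContinuous₂
    (LinearMap.mk₂ ℂ (fun (a : A) (x : Plus A) =>
        (WithLp.toLp 1 ((0 : ℂ), x.fst • a + x.snd * a) : Plus A))
      (fun a b x => plus_ext (by simp) (by simp [mul_add]; abel))
      (fun c a x => plus_ext (by simp) (by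
        show x.fst • (c • a) + x.snd * (c • a) = c • (x.fst • a + x.snd * a)
        rw [smul_add, mul_smul_comm, smul_comm]))
      (fun a x y => plus_ext (by simp) (by simp [add_mul, add_smul]; abel))
      (fun c a x => plus_ext (by simp) (by
        show (c * x.fst) • a + (c • x.snd) * a = c • (x.fst • a + x.snd * a)
        rw [smul_add, smul_mul_assoc, mul_smul]))) 1
    (fun a x => by
      rw [plus_norm]
      show ‖(0 : ℂ)‖ + ‖x.fst • a + x.snd * a‖ ≤ 1 * ‖a‖ * ‖x‖
      rw [plus_norm x, norm_zero, zero_add]
      refine (norm_add_le _ _).trans ?_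
      have h1 := norm_mul_le x.snd a
      rw [norm_smul]
      nlinarith)

omit [CompleteSpace A] in
lemma plusLeft_apply (a : A) (x : Plus A) :
    plusLeft a x = WithLp.toLp 1 ((0 : ℂ), x.fst • a + a * x.snd) := rfl

omit [CompleteSpace A] in
lemma plusRight_apply (a : A) (x : Plus A) :
    plusRight a x = WithLp.toLp 1 ((0 : ℂ), x.fst • a + x.snd * a) := rfl

variable (A)

/-- the unitization `A₊` as a Banach `A`-bimodule -/
noncomputable def plusBim : Bim A A where
  carrier := Plus A
  left := plusLeft
  right := plusRight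
  left_mul := fun a b x => by
    simp only [plusLeft_apply]
    refine plus_ext rfl ?_
    simp [mul_add, mul_assoc, mul_smul_comm]
  right_mul := fun a b x => by
    simp only [plusRight_apply]
    refine plus_ext rfl ?_
    simp [add_mul, mul_assoc, smul_mul_assoc]
  left_right := fun a b x => by
    simp only [plusLeft_apply, plusRight_apply]
    refine plus_ext rfl ?_
    simp [add_mul, mul_add, mul_assoc, smul_mul_assoc, mul_smul_comm]

/-- the bidimension of `A`: the homological dimension of the Banach `A`-bimodule `A₊` -/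
noncomputable def db : ℕ∞ := (plusBim A).dh

end Unitization

/-- the global dimension of `A`: the supremum of the homological dimensions of all left Banach
`A`-modules -/
noncomputable def dg (A : Type) [NonUnitalNormedRing A] [NormedSpace ℂ A] : ℕ∞ :=
  ⨆ X : LMod A, X.dh

/-- A Banach function algebra: a commutative semisimple Banach algebra, i.e. a commutative
complex Banach algebra whose characters separate its elements. -/
structure FunctionAlgebra where
  carrier : Type
  [ring : NonUnitalNormedCommRing carrier]
  [space : NormedSpace ℂ carrier]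
  [tower : IsScalarTower ℂ carrier carrier]
  [comm : SMulCommClass ℂ carrier carrier]
  [complete : CompleteSpace carrier]
  semisimple : ∀ a : carrier, a ≠ 0 → ∃ χ : carrier →ₙₐ[ℂ] ℂ, χ a ≠ 0

attribute [instance] FunctionAlgebra.ring FunctionAlgebra.space FunctionAlgebra.tower
  FunctionAlgebra.comm FunctionAlgebra.complete

/-- the set of values of the global dimension on Banach function algebras -/
def Mg : Set ℕ∞ := Set.range (fun A : FunctionAlgebra => dg A.carrier)

/-- the set of values of the bidimension on Banach function algebras -/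
def Mb : Set ℕ∞ := Set.range (fun A : FunctionAlgebra => db A.carrier)

end Pool.Agent.Helper53.BanachHomology
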