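import Mathlib
import Pool.Agent.Helper53.HomB
import Pool.Agent.Helper53.Dim3D

set_option autoImplicit false
set_option maxSynthPendingDepth 3
set_option linter.unusedSectionVars false

namespace Pool.Agent.Helper53.BanachHomology

open ContinuousLinearMap
open Pool.Agent.Helper53.Dim3 (Bimod Van4 Coc4 d3 d3_apply)

section Cod

variable {E Y : Type} [NormedAddCommGroup E] [NormedSpace ℂ E] [NormedAddCommGroup Y]
  [NormedSpace ℂ Y]

/-- operators with values in a subspace -/
def funSub (E : Type) [NormedAddCommGroup E] [NormedSpace ℂ E] (N : Submodule ℂ Y) :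
    Submodule ℂ (E →L[ℂ] Y) where
  carrier := {f | ∀ x, f x ∈ N}
  add_mem' := fun hf hg x => N.add_mem (hf x) (hg x)
  zero_mem' := fun _ => N.zero_mem
  smul_mem' := fun c _ hf x => N.smul_mem c (hf x)

/-- restriction of the codomain -/
noncomputable def codL (E : Type) [NormedAddCommGroup E] [NormedSpace ℂ E] (N : Submodule ℂ Y) :
    (funSub E N) →L[ℂ] (E →L[ℂ] N) :=
  LinearMap.mkContinuous₂
    (LinearMap.mk₂ ℂ (fun (f : funSub E N) (x : E) => (⟨(f : E →L[ℂ] Y) x, f.2 x⟩ : N))
      (fun f g x => by ext; simp) (fun c f x => by ext; simp)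
      (fun f x y => by ext; simp) (fun c f x => by ext; simp))
    1 (fun f x => by
      rw [one_mul]
      exact (f : E →L[ℂ] Y).le_opNorm x)

@[simp] lemma codL_coe (N : Submodule ℂ Y) (f : funSub E N) (x : E) :
    ((codL E N f x : N) : Y) = (f : E →L[ℂ] Y) x := rfl

/-- restriction of the codomain of a bilinear map -/
noncomputable def cod2 {E' : Type} [NormedAddCommGroup E'] [NormedSpace ℂ E']
    (N : Submodule ℂ Y) (T : E →L[ℂ] E' →L[ℂ] Y) (h : ∀ x y, T x y ∈ N) :
    E →L[ℂ] E' →L[ℂ] N :=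
  (codL E' N).comp (T.codRestrict (funSub E' N) h)

@[simp] lemma cod2_coe {E' : Type} [NormedAddCommGroup E'] [NormedSpace ℂ E']
    (N : Submodule ℂ Y) (T : E →L[ℂ] E' →L[ℂ] Y) (h : ∀ x y, T x y ∈ N) (x : E) (y : E') :
    ((cod2 N T h x y : N) : Y) = T x y := rfl

/-- restriction of the codomain of a 4-linear map -/
noncomputable def cod4 (N : Submodule ℂ Y) (T : E →L[ℂ] E →L[ℂ] E →L[ℂ] E →L[ℂ] Y)
    (h : ∀ x y z w, T x y z w ∈ N) : E →L[ℂ] E →L[ℂ] E →L[ℂ] E →L[ℂ] N :=
  ((compL ℂ E (funSub E (funSub E N)) (E →L[ℂ] E →L[ℂ] N)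
      ((compL ℂ E (funSub E N) (E →L[ℂ] N) (codL E N)).comp (codL E (funSub E N)))).comp
    (codL E (funSub E (funSub E N)))).comp
      (T.codRestrict (funSub E (funSub E (funSub E N))) h)

@[simp] lemma cod4_coe (N : Submodule ℂ Y) (T : E →L[ℂ] E →L[ℂ] E →L[ℂ] E →L[ℂ] Y)
    (h : ∀ x y z w, T x y z w ∈ N) (x y z w : E) :
    ((cod4 N T h x y z w : N) : Y) = T x y z w := rfl

/-- restriction of an action to an invariant subspace -/
noncomputable def res2 {A : Type} [NormedAddCommGroup A] [NormedSpace ℂ A] (N : Submodule ℂ Y)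
    (L : A →L[ℂ] Y →L[ℂ] Y) (h : ∀ a, ∀ y ∈ N, L a y ∈ N) : A →L[ℂ] N →L[ℂ] N :=
  LinearMap.mkContinuous₂
    (LinearMap.mk₂ ℂ (fun (a : A) (y : N) => (⟨L a y, h a y y.2⟩ : N))
      (fun a b y => by ext; simp) (fun c a y => by ext; simp)
      (fun a y z => by ext; simp) (fun c a y => by ext; simp))
    ‖L‖ (fun a y => L.le_opNorm₂ a (y : Y))

@[simp] lemma res2_coe {A : Type} [NormedAddCommGroup A] [NormedSpace ℂ A] (N : Submodule ℂ Y)
    (L : A →L[ℂ] Y →L[ℂ] Y) (h : ∀ a, ∀ y ∈ N, L a y ∈ N) (a : A) (y : N) :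
    ((res2 N L h a y : N) : Y) = L a y := rfl

end Cod

namespace Bim

section Criterion

variable {A B : Type} [NonUnitalNormedRing A] [NormedSpace ℂ A] [IsScalarTower ℂ A A]
  [SMulCommClass ℂ A A] [NonUnitalNormedRing B] [NormedSpace ℂ B]

/-- a criterion for projectivity -/
lemma Projective.of_derivation {K : Bim A B} (hK : K.RProj)
    (h : ∀ (Z : Bim A B) (D : A →L[ℂ] K.carrier →L[ℂ] Z.carrier),
      (∀ a, IsRight (X := K) (Y := Z) (D a)) →
      (∀ a b k, D (a * b) k = Z.left a (D b k) + D a (K.left b k)) →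
      ∃ g : K.carrier →L[ℂ] Z.carrier, IsRight (X := K) (Y := Z) g ∧
        ∀ a k, D a k = Z.left a (g k) - g (K.left a k)) : K.Projective := by
  intro Y Z σ φ hσ hσ' hφ
  obtain ⟨ψ0, h0, h0'⟩ := hK Y Z σ φ hσ hσ' hφ.2
  let D0 : A →L[ℂ] K.carrier →L[ℂ] Y.carrier :=
    ((compL ℂ K.carrier Y.carrier Y.carrier).flip ψ0).comp Y.left
      - (compL ℂ K.carrier K.carrier Y.carrier ψ0).comp K.left
  have hD0 : ∀ a k, D0 a k = Y.left a (ψ0 k) - ψ0 (K.left a k) := fun a k => rfl
  have hmem : ∀ a k, σ (D0 a k) = 0 := by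
    intro a k
    rw [hD0, map_sub, hσ.1, h0', h0', hφ.1, sub_self]
  obtain ⟨g, hg, hg'⟩ := h (ker σ hσ) (kerCod2 σ hσ D0 hmem) (by
      intro a r k
      apply kerVal_inj
      rw [kerVal_right, kerVal_kerCod2, kerVal_kerCod2]
      rw [hD0, hD0, map_sub, h0, K.left_right, Y.left_right, h0]) (by
      intro a b k
      apply kerVal_inj
      rw [map_add, kerVal_left, kerVal_kerCod2, kerVal_kerCod2, kerVal_kerCod2]
      rw [hD0, hD0, hD0, map_sub, K.left_mul, Y.left_mul]
      abel)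
  refine ⟨ψ0 - (kerVal σ hσ).comp g, ⟨?_, ?_⟩, ?_⟩
  · intro a k
    have h2 := congrArg (kerVal σ hσ) (hg' a k)
    rw [map_sub, kerVal_left, kerVal_kerCod2, hD0] at h2
    rw [sub_apply, sub_apply, comp_apply, comp_apply, map_sub]
    linear_combination (norm := abel) -h2
  · intro r k
    have h2 := congrArg (kerVal σ hσ) (hg r k)
    rw [kerVal_right] at h2
    rw [sub_apply, sub_apply, comp_apply, comp_apply, map_sub, h2, h0]
  · intro k
    rw [sub_apply, comp_apply, map_sub, h0', map_kerVal, sub_zero]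

variable (X Z : Bim A B)

/-- the right-linear operators -/
def rightSub : Submodule ℂ (X.carrier →L[ℂ] Z.carrier) where
  carrier := {f | ∀ r x, f (X.right r x) = Z.right r (f x)}
  add_mem' := fun {f g} hf hg r x => by
    rw [add_apply, add_apply, map_add, hf, hg]
  zero_mem' := fun r x => by
    rw [zero_apply, zero_apply, map_zero]
  smul_mem' := fun c f hf r x => by
    rw [smul_apply, smul_apply, map_smul, hf]

lemma isClosed_rightSub : IsClosed (rightSub X Z : Set (X.carrier →L[ℂ] Z.carrier)) := by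
  have : (rightSub X Z : Set (X.carrier →L[ℂ] Z.carrier))
      = ⋂ (r : B) (x : X.carrier), {f | f (X.right r x) = Z.right r (f x)} := by
    ext f
    simp only [Set.mem_iInter]
    rfl
  rw [this]
  refine isClosed_iInter (fun r => isClosed_iInter (fun x => ?_))
  refine isClosed_eq ?_ ?_
  · exact (ContinuousLinearMap.apply ℂ Z.carrier (X.right r x)).continuous
  · exact (Z.right r).continuous.comp (ContinuousLinearMap.apply ℂ Z.carrier x).continuous

instance : CompleteSpace (rightSub X Z) := (isClosed_rightSub X Z).completeSpace_coe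

/-- the bimodule of right-linear operators: `(a φ)(x) = a (φ x)`, `(φ a)(x) = φ (a x)` -/
noncomputable def rightBimod : Bimod A (rightSub X Z) where
  left := res2 (rightSub X Z) ((compL ℂ X.carrier Z.carrier Z.carrier).comp Z.left)
    (fun a φ hφ r x => by
      show Z.left a (φ (X.right r x)) = Z.right r (Z.left a (φ x))
      rw [hφ r x, Z.left_right])
  right := res2 (rightSub X Z) ((compL ℂ X.carrier X.carrier Z.carrier).flip.comp X.left)
    (fun a φ hφ r x => by
      show φ (X.left a (X.right r x)) = Z.right r (φ (X.left a x))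
      rw [X.left_right, hφ r])
  left_mul := fun a b φ => Subtype.ext (ContinuousLinearMap.ext (fun x =>
    Z.left_mul a b ((φ : X.carrier →L[ℂ] Z.carrier) x)))
  right_mul := fun a b φ => Subtype.ext (ContinuousLinearMap.ext (fun x =>
    congrArg (φ : X.carrier →L[ℂ] Z.carrier) (X.left_mul a b x)))
  left_right := fun a b φ => Subtype.ext (ContinuousLinearMap.ext (fun x => rfl))

lemma rightBimod_left (a : A) (φ : rightSub X Z) (x : X.carrier) :
    (((rightBimod X Z).left a φ : rightSub X Z) : X.carrier →L[ℂ] Z.carrier) x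
      = Z.left a ((φ : X.carrier →L[ℂ] Z.carrier) x) := rfl

lemma rightBimod_right (a : A) (φ : rightSub X Z) (x : X.carrier) :
    (((rightBimod X Z).right a φ : rightSub X Z) : X.carrier →L[ℂ] Z.carrier) x
      = (φ : X.carrier →L[ℂ] Z.carrier) (X.left a x) := rfl

end Criterion

section K3

variable {A B : Type} [NonUnitalNormedCommRing A] [NormedSpace ℂ A] [IsScalarTower ℂ A A]
  [SMulCommClass ℂ A A] [NonUnitalNormedRing B] [NormedSpace ℂ B]

variable (X Z : Bim A B)

/-- elementary tensors in the third kernel module -/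
noncomputable def t3 (b c d : A) (x : X.carrier) : X.K.K.K.carrier :=
  X.K.K.tn b (X.K.tn c (X.tn d x))

lemma t3_ext {X : Bim A B} {E : Type} [NormedAddCommGroup E] [NormedSpace ℂ E]
    {f g : X.K.K.K.carrier →L[ℂ] E}
    (h : ∀ b c d x, f (X.t3 b c d x) = g (X.t3 b c d x)) : f = g := by
  refine tn_ext (fun b y => ?_)
  have h1 : f.comp (X.K.K.tn b) = g.comp (X.K.K.tn b) := by
    refine tn_ext (fun c z => ?_)
    have h2 : (f.comp (X.K.K.tn b)).comp (X.K.tn c) = (g.comp (X.K.K.tn b)).comp (X.K.tn c) := by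
      refine tn_ext (fun d x => ?_)
      exact h b c d x
    exact congrArg (fun F : X.K.carrier →L[ℂ] E => F z) h2
  exact congrArg (fun F : X.K.K.carrier →L[ℂ] E => F y) h1

lemma t3_right (r : B) (b c d : A) (x : X.carrier) :
    X.K.K.K.right r (X.t3 b c d x) = X.t3 b c d (X.right r x) := by
  unfold t3
  rw [tn_right, tn_right, tn_right]

lemma t3_left (a b c d : A) (x : X.carrier) :
    X.K.K.K.left a (X.t3 b c d x) = X.t3 (a * b) c d x - X.t3 a (b * c) d x
      + X.t3 a b (c * d) x - X.t3 a b c (X.left d x) := by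
  unfold t3
  rw [tn_left, tn_left, tn_left, map_sub, map_sub, map_sub]
  abel

/-- the 4-linear map of an operator-valued map -/
noncomputable def un3 : (X.K.K.K.carrier →L[ℂ] Z.carrier) →L[ℂ]
    (A →L[ℂ] A →L[ℂ] A →L[ℂ] X.carrier →L[ℂ] Z.carrier) :=
  (compL ℂ A (X.K.K.carrier →L[ℂ] Z.carrier) (A →L[ℂ] A →L[ℂ] X.carrier →L[ℂ] Z.carrier)
    ((compL ℂ A (X.K.carrier →L[ℂ] Z.carrier) (A →L[ℂ] X.carrier →L[ℂ] Z.carrier)
      (X.un Z.carrier)).comp (X.K.un Z.carrier))).comp (X.K.K.un Z.carrier)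

lemma un3_apply (f : X.K.K.K.carrier →L[ℂ] Z.carrier) (b c d : A) (x : X.carrier) :
    un3 X Z f b c d x = f (X.t3 b c d x) := rfl

/-- the operator on the third kernel module defined by a trilinear map -/
noncomputable def li3 : (A →L[ℂ] A →L[ℂ] A →L[ℂ] X.carrier →L[ℂ] Z.carrier) →L[ℂ]
    (X.K.K.K.carrier →L[ℂ] Z.carrier) :=
  (X.K.K.li Z.carrier).comp
    (compL ℂ A (A →L[ℂ] A →L[ℂ] X.carrier →L[ℂ] Z.carrier) (X.K.K.carrier →L[ℂ] Z.carrier)
      ((X.K.li Z.carrier).comp
        (compL ℂ A (A →L[ℂ] X.carrier →L[ℂ] Z.carrier) (X.K.carrier →L[ℂ] Z.carrier)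
          (X.li Z.carrier))))

lemma li3_t3 (S : A →L[ℂ] A →L[ℂ] A →L[ℂ] X.carrier →L[ℂ] Z.carrier) (b c d : A)
    (x : X.carrier) : li3 X Z S (X.t3 b c d x) = S b c d x := by
  refine (li_apply X.K.K _ _ _).trans ?_
  refine (li_apply X.K _ _ _).trans ?_
  exact li_apply X _ _ _

theorem K3_projective (hA : Van4 A) {X : Bim A B} (hX : X.RProj) : X.K.K.K.Projective := by
  refine Projective.of_derivation (hX.K.K.K) ?_
  intro Z D hD hder
  let T0 : A →L[ℂ] A →L[ℂ] A →L[ℂ] A →L[ℂ] X.carrier →L[ℂ] Z.carrier := (un3 X Z).comp D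
  have hT0 : ∀ a b c d x, T0 a b c d x = D a (X.t3 b c d x) := fun a b c d x => rfl
  let T : A →L[ℂ] A →L[ℂ] A →L[ℂ] A →L[ℂ] rightSub X Z := cod4 (rightSub X Z) T0
    (fun a b c d r x => by
      rw [hT0, hT0, ← t3_right]
      exact hD a r _)
  have hT : ∀ a b c d x, (T a b c d : X.carrier →L[ℂ] Z.carrier) x = D a (X.t3 b c d x) :=
    fun a b c d x => rfl
  have hcoc : Coc4 (rightBimod X Z) T := by
    intro a b c d e
    refine Subtype.ext (ContinuousLinearMap.ext (fun x => ?_))
    have h := hder a b (X.t3 c d e x)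
    rw [t3_left, map_sub, map_add, map_sub] at h
    show Z.left a (D b (X.t3 c d e x)) - D (a * b) (X.t3 c d e x) + D a (X.t3 (b * c) d e x)
      - D a (X.t3 b (c * d) e x) + D a (X.t3 b c (d * e) x) - D a (X.t3 b c d (X.left e x)) = 0
    rw [h]
    abel
  obtain ⟨S, hS⟩ := hA (rightSub X Z) (rightBimod X Z) T hcoc
  let S' : A →L[ℂ] A →L[ℂ] A →L[ℂ] X.carrier →L[ℂ] Z.carrier :=
    (compL ℂ A (A →L[ℂ] rightSub X Z) (A →L[ℂ] X.carrier →L[ℂ] Z.carrier)
      (compL ℂ A (rightSub X Z) (X.carrier →L[ℂ] Z.carrier) (rightSub X Z).subtypeL)).comp S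
  have hS' : ∀ b c d x, S' b c d x = (S b c d : X.carrier →L[ℂ] Z.carrier) x :=
    fun b c d x => rfl
  have hg : ∀ b c d x, li3 X Z S' (X.t3 b c d x) = (S b c d : X.carrier →L[ℂ] Z.carrier) x :=
    fun b c d x => by rw [li3_t3, hS']
  refine ⟨li3 X Z S', ?_, ?_⟩
  · intro r k
    have : (li3 X Z S').comp (X.K.K.K.right r) = (Z.right r).comp (li3 X Z S') :=
      t3_ext (fun b c d x => by
        rw [comp_apply, comp_apply, t3_right, hg, hg]
        exact (S b c d).2 r x)
    exact congrArg (fun F : X.K.K.K.carrier →L[ℂ] Z.carrier => F k) this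
  · intro a k
    have : D a = (Z.left a).comp (li3 X Z S') - (li3 X Z S').comp (X.K.K.K.left a) :=
      t3_ext (fun b c d x => by
        rw [sub_apply, comp_apply, comp_apply, t3_left, map_sub, map_add, map_sub, hg, hg, hg,
          hg, hg, ← hT, hS, d3_apply]
        show Z.left a ((S b c d : X.carrier →L[ℂ] Z.carrier) x)
          - (S (a * b) c d : X.carrier →L[ℂ] Z.carrier) x
          + (S a (b * c) d : X.carrier →L[ℂ] Z.carrier) x
          - (S a b (c * d) : X.carrier →L[ℂ] Z.carrier) x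
          + (S a b c : X.carrier →L[ℂ] Z.carrier) (X.left d x) = _
        abel)
    exact congrArg (fun F : X.K.K.K.carrier →L[ℂ] Z.carrier => F k) this

/-- vanishing of the fourth cohomology gives resolutions of length 3 -/
theorem hasResolution_three (hA : Van4 A) {X : Bim A B} (hX : X.RProj) : X.HasResolution 3 :=
  (((K3_projective hA hX).hasResolution.step hX.K.K).step hX.K).step hX

end K3

end Bim

end Pool.Agent.Helper53.BanachHomology
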