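import Mathlib
import Pool.Agent.Helper53.HomC
import Pool.Agent.Helper53.CxB

set_option autoImplicit false
set_option maxSynthPendingDepth 3
set_option linter.unusedSectionVars false

namespace Pool.Agent.Helper53.CX

open Filter Topology Finset Pool.Agent.Helper53.Dim3 Pool.Agent.Helper53.BanachHomology

section TensorMod

variable {A E : Type} [NormedAddCommGroup A] [NormedSpace ℂ A] [NormedAddCommGroup E]
  [NormedSpace ℂ E]

/-- the action on the first factor -/
noncomputable def tl (L : A →L[ℂ] E →L[ℂ] E) : A →L[ℂ] Tens E E →L[ℂ] Tens E E :=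
  (lift (P := E) (Q := E) (Z := Tens E E)).comp
    ((ContinuousLinearMap.compL ℂ E E (E →L[ℂ] Tens E E) tens).comp L)

/-- the action on the second factor -/
noncomputable def tr (L : A →L[ℂ] E →L[ℂ] E) : A →L[ℂ] Tens E E →L[ℂ] Tens E E :=
  (lift (P := E) (Q := E) (Z := Tens E E)).comp
    (((ContinuousLinearMap.compL ℂ E (E →L[ℂ] Tens E E) (E →L[ℂ] Tens E E)).flip tens).comp
      ((ContinuousLinearMap.compL ℂ E E (Tens E E)).flip.comp L))

lemma tl_tens (L : A →L[ℂ] E →L[ℂ] E) (a : A) (u v : E) :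
    tl L a (tens u v) = tens (L a u) v := lift_tens _ _ _

lemma tr_tens (L : A →L[ℂ] E →L[ℂ] E) (a : A) (u v : E) :
    tr L a (tens u v) = tens u (L a v) := lift_tens _ _ _

/-- evaluation at a pair of functionals -/
noncomputable def pr (φ ψ : E →L[ℂ] ℂ) : Tens E E →L[ℂ] ℂ :=
  (ContinuousLinearMap.apply ℂ ℂ (φ.smulRight ψ)).comp tensVal

lemma pr_apply (φ ψ : E →L[ℂ] ℂ) (t : Tens E E) : pr φ ψ t = tensVal t (φ.smulRight ψ) := rfl

lemma pr_tens (φ ψ : E →L[ℂ] ℂ) (u v : E) : pr φ ψ (tens u v) = φ u * ψ v := rfl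

variable [CompleteSpace E]

/-- the slice `u ⊗ v ↦ φ u • v` -/
noncomputable def sl1 (φ : E →L[ℂ] ℂ) : Tens E E →L[ℂ] E :=
  lift (φ.smulRight (ContinuousLinearMap.id ℂ E))

/-- the slice `u ⊗ v ↦ ψ v • u` -/
noncomputable def sl2 (ψ : E →L[ℂ] ℂ) : Tens E E →L[ℂ] E :=
  lift (ψ.smulRight (ContinuousLinearMap.id ℂ E)).flip

lemma sl1_tens (φ : E →L[ℂ] ℂ) (u v : E) : sl1 φ (tens u v) = φ u • v := lift_tens _ _ _

lemma sl2_tens (ψ : E →L[ℂ] ℂ) (u v : E) : sl2 ψ (tens u v) = ψ v • u := lift_tens _ _ _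

lemma apply_sl1 (φ ψ : E →L[ℂ] ℂ) (t : Tens E E) : ψ (sl1 φ t) = pr φ ψ t := by
  have : ψ.comp (sl1 φ) = pr φ ψ := tens_ext fun u v => by
    rw [ContinuousLinearMap.comp_apply, sl1_tens, pr_tens, map_smul, smul_eq_mul]
  exact congrArg (fun F : Tens E E →L[ℂ] ℂ => F t) this

lemma apply_sl2 (φ ψ : E →L[ℂ] ℂ) (t : Tens E E) : φ (sl2 ψ t) = pr φ ψ t := by
  have : φ.comp (sl2 ψ) = pr φ ψ := tens_ext fun u v => by
    rw [ContinuousLinearMap.comp_apply, sl2_tens, pr_tens, map_smul, smul_eq_mul, mul_comm]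
  exact congrArg (fun F : Tens E E →L[ℂ] ℂ => F t) this

end TensorMod

section

variable {X : Type} [TopologicalSpace X] [CompactSpace X]

/-- functions on the square vanishing on the diagonal and on `X × {p}` -/
def Nsub (p : X) : Submodule ℂ C(X × X, ℂ) where
  carrier := {F | (∀ x, F (x, x) = 0) ∧ ∀ s, F (s, p) = 0}
  add_mem' := fun {F G} hF hG => ⟨fun x => by
    rw [ContinuousMap.add_apply, hF.1, hG.1, add_zero], fun x => by
    rw [ContinuousMap.add_apply, hF.2, hG.2, add_zero]⟩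
  zero_mem' := ⟨fun _ => rfl, fun _ => rfl⟩
  smul_mem' := fun c F hF => ⟨fun x => by
    rw [ContinuousMap.smul_apply, hF.1, smul_zero], fun x => by
    rw [ContinuousMap.smul_apply, hF.2, smul_zero]⟩

lemma isClosed_Nsub (p : X) : IsClosed (Nsub p : Set C(X × X, ℂ)) := by
  have : (Nsub p : Set C(X × X, ℂ)) = (⋂ x : X, {F : C(X × X, ℂ) | F (x, x) = 0})
      ∩ ⋂ s : X, {F : C(X × X, ℂ) | F (s, p) = 0} := by
    ext F
    simp only [Set.mem_inter_iff, Set.mem_iInter]
    rfl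
  rw [this]
  exact (isClosed_iInter fun x => isClosed_eq (continuous_eval_const _) continuous_const).inter
    (isClosed_iInter fun x => isClosed_eq (continuous_eval_const _) continuous_const)

instance (p : X) : CompleteSpace (Nsub p) := (isClosed_Nsub p).completeSpace_coe

/-- a function of the first variable -/
noncomputable def fstF : C(X, ℂ) →L[ℂ] C(X × X, ℂ) :=
  LinearMap.mkContinuous
    { toFun := fun a => a.comp ⟨Prod.fst, continuous_fst⟩
      map_add' := fun _ _ => rfl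
      map_smul' := fun _ _ => rfl } 1 (fun a => by
    rw [one_mul, ContinuousMap.norm_le _ (norm_nonneg _)]
    exact fun x => a.norm_coe_le_norm _)

/-- a function of the second variable -/
noncomputable def sndF : C(X, ℂ) →L[ℂ] C(X × X, ℂ) :=
  LinearMap.mkContinuous
    { toFun := fun a => a.comp ⟨Prod.snd, continuous_snd⟩
      map_add' := fun _ _ => rfl
      map_smul' := fun _ _ => rfl } 1 (fun a => by
    rw [one_mul, ContinuousMap.norm_le _ (norm_nonneg _)]
    exact fun x => a.norm_coe_le_norm _)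

/-- evaluation at a point -/
noncomputable def evp (p : X) : C(X, ℂ) →L[ℂ] ℂ :=
  LinearMap.mkContinuous
    { toFun := fun a => a p
      map_add' := fun _ _ => rfl
      map_smul' := fun _ _ => rfl } 1 (fun a => by
    rw [one_mul]; exact a.norm_coe_le_norm _)

/-- `a ↦ (x ↦ a x - a p)` as a function of the second variable -/
noncomputable def dif (p : X) : C(X, ℂ) →L[ℂ] C(X × X, ℂ) :=
  sndF - (evp p).smulRight (1 : C(X × X, ℂ))

lemma dif_apply (p : X) (a : C(X, ℂ)) (w : X × X) : dif p a w = a w.2 - a p := by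
  show a w.2 - a p • (1 : ℂ) = _
  rw [smul_eq_mul, mul_one]

/-- the cocycle, without the restriction of the codomain -/
noncomputable def phi0 (p : X) : C(X, ℂ) →L[ℂ] C(X, ℂ) →L[ℂ] C(X × X, ℂ) :=
  ((ContinuousLinearMap.compL ℂ C(X, ℂ) C(X × X, ℂ) C(X × X, ℂ)).flip (dif p)).comp
      ((ContinuousLinearMap.mul ℂ C(X × X, ℂ)).comp fstF)
    - (ContinuousLinearMap.compL ℂ C(X, ℂ) C(X, ℂ) C(X × X, ℂ) (dif p)).comp
        (ContinuousLinearMap.mul ℂ C(X, ℂ))
    + (ContinuousLinearMap.smulRightL ℂ C(X, ℂ) C(X × X, ℂ) (evp p)).comp (dif p)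

lemma phi0_apply (p : X) (a b : C(X, ℂ)) (w : X × X) :
    phi0 p a b w = a w.1 * (b w.2 - b p) - (a w.2 * b w.2 - a p * b p) + b p * (a w.2 - a p) := by
  show a w.1 * (dif p b w) - dif p (a * b) w + b p • dif p a w = _
  rw [dif_apply, dif_apply, dif_apply]
  rfl

/-- the cocycle -/
noncomputable def phi (p : X) : C(X, ℂ) →L[ℂ] C(X, ℂ) →L[ℂ] Nsub p :=
  cod2 (Nsub p) (phi0 p) (fun a b => ⟨fun x => by
    rw [phi0_apply]; ring, fun s => by rw [phi0_apply]; ring⟩)

lemma phi_apply (p : X) (a b : C(X, ℂ)) (w : X × X) :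
    (phi p a b : C(X × X, ℂ)) w
      = a w.1 * (b w.2 - b p) - (a w.2 * b w.2 - a p * b p) + b p * (a w.2 - a p) :=
  phi0_apply p a b w

/-- the left action -/
noncomputable def actN (p : X) : C(X, ℂ) →L[ℂ] Nsub p →L[ℂ] Nsub p :=
  res2 (Nsub p) ((ContinuousLinearMap.mul ℂ C(X × X, ℂ)).comp fstF) (fun a F hF => ⟨fun x => by
    show a x * F (x, x) = 0
    rw [hF.1, mul_zero], fun s => by
    show a s * F (s, p) = 0
    rw [hF.2, mul_zero]⟩)

lemma actN_apply (p : X) (a : C(X, ℂ)) (F : Nsub p) (w : X × X) :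
    (actN p a F : C(X × X, ℂ)) w = a w.1 * (F : C(X × X, ℂ)) w := rfl

lemma N_ext {p : X} {F G : Nsub p} (h : ∀ w, (F : C(X × X, ℂ)) w = (G : C(X × X, ℂ)) w) :
    F = G := Subtype.ext (ContinuousMap.ext h)

/-- evaluation at a point of the square -/
noncomputable def evN (p : X) (w : X × X) : Nsub p →L[ℂ] ℂ :=
  LinearMap.mkContinuous
    { toFun := fun F => (F : C(X × X, ℂ)) w
      map_add' := fun _ _ => rfl
      map_smul' := fun _ _ => rfl } 1 (fun F => by
    rw [one_mul]; exact (F : C(X × X, ℂ)).norm_coe_le_norm _)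

lemma evN_apply (p : X) (w : X × X) (F : Nsub p) : evN p w F = (F : C(X × X, ℂ)) w := rfl

lemma norm_evN (p : X) (w : X × X) : ‖evN p w‖ ≤ 1 :=
  LinearMap.mkContinuous_norm_le _ zero_le_one _

lemma phi_coc (p : X) (a b c : C(X, ℂ)) :
    actN p a (phi p b c) - phi p (a * b) c + phi p a (b * c) - c p • phi p a b = 0 := by
  refine N_ext fun w => ?_
  show a w.1 * (phi p b c : C(X × X, ℂ)) w - (phi p (a * b) c : C(X × X, ℂ)) w
    + (phi p a (b * c) : C(X × X, ℂ)) w - c p * (phi p a b : C(X × X, ℂ)) w = 0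
  simp only [phi_apply, ContinuousMap.mul_apply]
  ring

/-- the bimodule -/
noncomputable def bimT (p : X) : Bimod C(X, ℂ) (Tens (Nsub p) (Nsub p)) where
  left := tl (actN p)
  right := tr (actN p)
  left_mul := fun a b t => by
    have : tl (actN p) (a * b) = (tl (actN p) a).comp (tl (actN p) b) := tens_ext fun u v => by
      rw [ContinuousLinearMap.comp_apply, tl_tens, tl_tens, tl_tens]
      congr 1
      congr 1
      refine N_ext fun w => ?_
      rw [actN_apply, actN_apply, actN_apply, ContinuousMap.mul_apply, mul_assoc]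
    exact congrArg (fun F : Tens (Nsub p) (Nsub p) →L[ℂ] Tens (Nsub p) (Nsub p) => F t) this
  right_mul := fun a b t => by
    have : tr (actN p) (a * b) = (tr (actN p) b).comp (tr (actN p) a) := tens_ext fun u v => by
      rw [ContinuousLinearMap.comp_apply, tr_tens, tr_tens, tr_tens]
      congr 1
      refine N_ext fun w => ?_
      rw [actN_apply, actN_apply, actN_apply, ContinuousMap.mul_apply]
      ring
    exact congrArg (fun F : Tens (Nsub p) (Nsub p) →L[ℂ] Tens (Nsub p) (Nsub p) => F t) this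
  left_right := fun a b t => by
    have : (tl (actN p) a).comp (tr (actN p) b) = (tr (actN p) b).comp (tl (actN p) a) :=
      tens_ext fun u v => by
        rw [ContinuousLinearMap.comp_apply, ContinuousLinearMap.comp_apply, tl_tens, tr_tens,
          tl_tens, tr_tens]
    exact congrArg (fun F : Tens (Nsub p) (Nsub p) →L[ℂ] Tens (Nsub p) (Nsub p) => F t) this

/-- the 4-cocycle -/
noncomputable def TT4 (p : X) :
    C(X, ℂ) →L[ℂ] C(X, ℂ) →L[ℂ] C(X, ℂ) →L[ℂ] C(X, ℂ) →L[ℂ] Tens (Nsub p) (Nsub p) :=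
  (ContinuousLinearMap.compL ℂ C(X, ℂ) (Nsub p) (C(X, ℂ) →L[ℂ] C(X, ℂ) →L[ℂ] Tens (Nsub p) (Nsub p))
    ((((ContinuousLinearMap.compL ℂ C(X, ℂ) (C(X, ℂ) →L[ℂ] Nsub p)
      (C(X, ℂ) →L[ℂ] Tens (Nsub p) (Nsub p))).flip (phi p).flip).comp
        (ContinuousLinearMap.compL ℂ C(X, ℂ) (Nsub p) (Tens (Nsub p) (Nsub p)))).comp tens)).comp
    (phi p)

lemma TT4_apply (p : X) (a b c d : C(X, ℂ)) :
    TT4 p a b c d = tens (phi p a b) (phi p d c) := rfl

lemma coc_TT4 (p : X) : Coc4 (bimT p) (TT4 p) := by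
  intro a b c d e
  have h1 := phi_coc p a b c
  have h2 := phi_coc p e d c
  show tl (actN p) a (TT4 p b c d e) - TT4 p (a * b) c d e + TT4 p a (b * c) d e
    - TT4 p a b (c * d) e + TT4 p a b c (d * e) - tr (actN p) e (TT4 p a b c d) = 0
  simp only [TT4_apply]
  rw [tl_tens, tr_tens]
  have e1 : actN p a (phi p b c) = phi p (a * b) c - phi p a (b * c) + c p • phi p a b := by
    linear_combination (norm := abel) h1
  have e2 : actN p e (phi p d c) = phi p (e * d) c - phi p e (d * c) + c p • phi p e d := by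
    linear_combination (norm := abel) h2
  rw [e1, e2, mul_comm d e, mul_comm c d]
  simp only [map_add, map_sub, map_smul, _root_.add_apply, _root_.sub_apply, _root_.smul_apply]
  abel

lemma bimT_left (p : X) : (bimT p).left = tl (actN p) := rfl

lemma bimT_right (p : X) : (bimT p).right = tr (actN p) := rfl

lemma pr_tl (p : X) (w z : X × X) (a : C(X, ℂ)) (t : Tens (Nsub p) (Nsub p)) :
    pr (evN p w) (evN p z) (tl (actN p) a t) = a w.1 * pr (evN p w) (evN p z) t := by
  have : (pr (evN p w) (evN p z)).comp (tl (actN p) a) = a w.1 • pr (evN p w) (evN p z) :=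
    tens_ext fun u v => by
      rw [ContinuousLinearMap.comp_apply, tl_tens, pr_tens, _root_.smul_apply, pr_tens,
        smul_eq_mul, evN_apply, evN_apply, evN_apply, actN_apply, mul_assoc]
  exact congrArg (fun F : Tens (Nsub p) (Nsub p) →L[ℂ] ℂ => F t) this

lemma pr_tr (p : X) (w z : X × X) (a : C(X, ℂ)) (t : Tens (Nsub p) (Nsub p)) :
    pr (evN p w) (evN p z) (tr (actN p) a t) = a z.1 * pr (evN p w) (evN p z) t := by
  have : (pr (evN p w) (evN p z)).comp (tr (actN p) a) = a z.1 • pr (evN p w) (evN p z) :=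
    tens_ext fun u v => by
      rw [ContinuousLinearMap.comp_apply, tr_tens, pr_tens, _root_.smul_apply, pr_tens,
        smul_eq_mul, evN_apply, evN_apply, evN_apply, actN_apply]
      ring
  exact congrArg (fun F : Tens (Nsub p) (Nsub p) →L[ℂ] ℂ => F t) this

lemma exists_S0 (h : Van4 C(X, ℂ)) (p : X) :
    ∃ S : C(X, ℂ) →L[ℂ] C(X, ℂ) →L[ℂ] C(X, ℂ) →L[ℂ] Tens (Nsub p) (Nsub p),
      TT4 p = d3 (bimT p) S := h _ (bimT p) (TT4 p) (coc_TT4 p)

lemma exists_S1 (h : Van4 C(X, ℂ)) (p : X) :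
    ∃ S : C(X, ℂ) →L[ℂ] C(X, ℂ) →L[ℂ] C(X, ℂ) →L[ℂ] Tens (Nsub p) (Nsub p),
      ∀ a b c d, TT4 p a b c d = (bimT p).left a (S b c d) - S (a * b) c d + S a (b * c) d
        - S a b (c * d) + (bimT p).right d (S a b c) := by
  obtain ⟨S, hS⟩ := exists_S0 h p
  refine ⟨S, fun a b c d => ?_⟩
  rw [hS]
  exact d3_apply _ _ _ _ _ _

lemma split5 (p : X) (L : Tens (Nsub p) (Nsub p) →L[ℂ] ℂ) (x1 x2 x3 x4 x5 : Tens (Nsub p) (Nsub p)) :
    L (x1 - x2 + x3 - x4 + x5) = L x1 - L x2 + L x3 - L x4 + L x5 := by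
  rw [map_add, map_sub, map_add, map_sub]

/-- the identity obtained from the vanishing of the cohomology -/
theorem exists_S (h : Van4 C(X, ℂ)) (p : X) :
    ∃ S : C(X, ℂ) →L[ℂ] C(X, ℂ) →L[ℂ] C(X, ℂ) →L[ℂ] Tens (Nsub p) (Nsub p),
      ∀ (a b c d : C(X, ℂ)) (w z : X × X),
        (phi p a b : C(X × X, ℂ)) w * (phi p d c : C(X × X, ℂ)) z
          = a w.1 * pr (evN p w) (evN p z) (S b c d) - pr (evN p w) (evN p z) (S (a * b) c d)
            + pr (evN p w) (evN p z) (S a (b * c) d) - pr (evN p w) (evN p z) (S a b (c * d))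
            + d z.1 * pr (evN p w) (evN p z) (S a b c) := by
  obtain ⟨S, hS⟩ := exists_S1 h p
  refine ⟨S, fun a b c d w z => ?_⟩
  have e1 : (phi p a b : C(X × X, ℂ)) w * (phi p d c : C(X × X, ℂ)) z
      = pr (evN p w) (evN p z) (TT4 p a b c d) := rfl
  rw [e1, hS a b c d, split5]
  refine congrArg₂ (· + ·) ?_ (pr_tr p w z d _)
  refine congrArg₂ (· - ·) ?_ rfl
  refine congrArg₂ (· + ·) ?_ rfl
  exact congrArg₂ (· - ·) (pr_tl p w z a _) rfl

end

end Pool.Agent.Helper53.CX
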