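import Mathlib
import Pool.Agent.Helper53.CxE
import Pool.Agent.Helper53.CxD
import Pool.Agent.Helper53.CxHilb

set_option autoImplicit false
set_option maxSynthPendingDepth 3
set_option linter.unusedSectionVars false

namespace Pool.Agent.Helper53.CX

open Filter Topology Finset Pool.Agent.Helper53.Dim3 Pool.Agent.Helper53.BanachHomology

section

variable {X : Type} [TopologicalSpace X] [CompactSpace X]

/-- the values of the cocycle -/
noncomputable def phiv (p : X) (a b : C(X, ℂ)) (w : X × X) : ℂ :=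
  a w.1 * (b w.2 - b p) - (a w.2 * b w.2 - a p * b p) + b p * (a w.2 - a p)

/-- the values of the coboundary of `G` -/
noncomputable def cobv (p : X) (G : C(X, ℂ) →ₗ[ℂ] Nsub p) (a b : C(X, ℂ)) (w : X × X) : ℂ :=
  a w.1 * (G b : C(X × X, ℂ)) w - (G (a * b) : C(X × X, ℂ)) w

/-- combinations of two elementary chains -/
structure Ch (X : Type) [TopologicalSpace X] where
  γ : Fin 2 → ℂ
  w : Fin 2 → X × X
  a : Fin 2 → C(X, ℂ)
  b : Fin 2 → C(X, ℂ)

/-- the functions of the chain are supported in `L` and have norm at most one -/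
def Ch.Off (z : Ch X) (L : Set X) : Prop :=
  ∀ q, (∀ y ∉ L, z.a q y = 0) ∧ (∀ y ∉ L, z.b q y = 0) ∧ ‖z.a q‖ ≤ 1 ∧ ‖z.b q‖ ≤ 1

/-- the value of the cocycle on a chain -/
noncomputable def Ch.ph (p : X) (z : Ch X) : ℂ := ∑ q, z.γ q * phiv p (z.a q) (z.b q) (z.w q)

/-- the value of a coboundary on a chain -/
noncomputable def Ch.kap (p : X) (z : Ch X) (G : C(X, ℂ) →ₗ[ℂ] Nsub p) : ℂ :=
  ∑ q, z.γ q * cobv p G (z.a q) (z.b q) (z.w q)

/-- the cocycle is close to the coboundary of `G` off `K` -/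
def Good (p : X) (K : Set X) (G : C(X, ℂ) →ₗ[ℂ] Nsub p) : Prop :=
  ∀ L : Set X, IsClopen L → p ∉ L → Disjoint L K → ∀ a b : C(X, ℂ), (∀ y ∉ L, a y = 0) →
    (∀ y ∉ L, b y = 0) → ‖a‖ ≤ 1 → ‖b‖ ≤ 1 → ∀ w, ‖phiv p a b w - cobv p G a b w‖ ≤ 1 / 16

end

end Pool.Agent.Helper53.CX
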