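import Mathlib
import Pool.Agent.Helper53.CxF

set_option autoImplicit false
set_option maxSynthPendingDepth 3
set_option linter.unusedSectionVars false

namespace Pool.Agent.Helper53.CX

open Filter Topology Finset Pool.Agent.Helper53.Dim3 Pool.Agent.Helper53.BanachHomology



section

variable {X : Type} [TopologicalSpace X] [CompactSpace X]



lemma pb3 {M : Type} [NormedAddCommGroup M] [NormedSpace ℂ M]
    (S : C(X, ℂ) →L[ℂ] C(X, ℂ) →L[ℂ] C(X, ℂ) →L[ℂ] M)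
    (e : X × X → X × X → M →ₗ[ℂ] ℂ) (h : ℕ → ℕ → ℂ) (N : ℕ) (D : ℝ) (hD : 0 ≤ D)
    (hH : ∀ u v : ℕ → ℂ, (∀ i, ‖u i‖ ≤ 528) → (∀ l, ‖v l‖ ≤ 528) →
      ∀ (w z : ℕ → X × X) (t : M),
        ‖∑ i ∈ range N, ∑ l ∈ range N, u i * v l * h i l * e (w i) (z l) t‖ ≤ D * ‖t‖)
    (u v : ℕ → ℂ) (hu : ∀ i, ‖u i‖ ≤ 528) (hv : ∀ l, ‖v l‖ ≤ 528) (w z : ℕ → X × X)
    (β c : C(X, ℂ)) (d : ℕ → C(X, ℂ)) (hβ : ‖β‖ ≤ 1) (hc : ‖c‖ ≤ 1)
    (hd : ∀ ε : ℕ → ℂ, (∀ n, ε n = 1 ∨ ε n = -1) → ‖∑ n ∈ range N, ε n • d n‖ ≤ 1) :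
    ‖∑ i ∈ range N, ∑ l ∈ range N, u i * v l * h i l * e (w i) (z l) (S β c (d l))‖
      ≤ D * ‖S‖ := by
  have key := sign_avg0 (fun l => ∑ i ∈ range N, (u i * v l * h i l) •
    ((e (w i) (z l)) ∘ₗ (S β c).toLinearMap)) d (D * ‖S‖) (range N) (by
    intro ε hε
    have h1 := hH u (fun l => ε l * v l) hu (fun l => by
      rcases hε l with h | h <;> simp [h, hv l]) w z (S β c (∑ n ∈ range N, ε n • d n))
    have h2 : ‖S β c (∑ n ∈ range N, ε n • d n)‖ ≤ ‖S‖ := by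
      have g1 := (S β c).le_opNorm (∑ n ∈ range N, ε n • d n)
      have g2 := (S β).le_opNorm c
      have g3 := S.le_opNorm β
      have g4 := hd ε hε
      have k3 : ‖S β‖ ≤ ‖S‖ := g3.trans (mul_le_of_le_one_right (norm_nonneg _) hβ)
      have k2 : ‖S β c‖ ≤ ‖S‖ :=
        (g2.trans (mul_le_of_le_one_right (norm_nonneg _) hc)).trans k3
      exact (g1.trans (mul_le_of_le_one_right (norm_nonneg _) g4)).trans k2
    have h3 := h1.trans (mul_le_mul_of_nonneg_left h2 hD)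
    refine le_trans (le_of_eq ?_) h3
    congr 1
    rw [Finset.sum_comm]
    refine sum_congr rfl fun l _ => ?_
    rw [LinearMap.sum_apply, smul_sum]
    refine sum_congr rfl fun i _ => ?_
    simp only [LinearMap.smul_apply, LinearMap.comp_apply, smul_eq_mul,
      ContinuousLinearMap.coe_coe]
    ring)
  refine le_trans (le_of_eq ?_) key
  congr 1
  rw [Finset.sum_comm]
  refine sum_congr rfl fun l _ => ?_
  rw [LinearMap.sum_apply]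
  rfl

lemma pb2 {M : Type} [NormedAddCommGroup M] [NormedSpace ℂ M]
    (S : C(X, ℂ) →L[ℂ] C(X, ℂ) →L[ℂ] C(X, ℂ) →L[ℂ] M)
    (e : X × X → X × X → M →ₗ[ℂ] ℂ) (h : ℕ → ℕ → ℂ) (N : ℕ) (D : ℝ) (hD : 0 ≤ D)
    (hH : ∀ u v : ℕ → ℂ, (∀ i, ‖u i‖ ≤ 528) → (∀ l, ‖v l‖ ≤ 528) →
      ∀ (w z : ℕ → X × X) (t : M),
        ‖∑ i ∈ range N, ∑ l ∈ range N, u i * v l * h i l * e (w i) (z l) t‖ ≤ D * ‖t‖)
    (u v : ℕ → ℂ) (hu : ∀ i, ‖u i‖ ≤ 528) (hv : ∀ l, ‖v l‖ ≤ 528) (w z : ℕ → X × X)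
    (β : C(X, ℂ)) (c d : ℕ → C(X, ℂ)) (hβ : ‖β‖ ≤ 1)
    (hc : ∀ ε : ℕ → ℂ, (∀ n, ε n = 1 ∨ ε n = -1) → ‖∑ n ∈ range N, ε n • c n‖ ≤ 1)
    (hd : ∀ ε : ℕ → ℂ, (∀ n, ε n = 1 ∨ ε n = -1) → ‖∑ n ∈ range N, ε n • d n‖ ≤ 1) :
    ‖∑ i ∈ range N, ∑ l ∈ range N, u i * v l * h i l * e (w i) (z l) (S β (c l) (d l))‖
      ≤ D * ‖S‖ := by
  have key := sign_avg0 (fun l => ∑ i ∈ range N, (u i * v l * h i l) •
    ((e (w i) (z l)) ∘ₗ ((S β).flip (d l)).toLinearMap)) c (D * ‖S‖) (range N) (by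
    intro ε hε
    have h3 := pb3 S e h N D hD hH u (fun l => ε l * v l) hu (fun l => by
      rcases hε l with h | h <;> simp [h, hv l]) w z β (∑ n ∈ range N, ε n • c n) d hβ
      (hc ε hε) hd
    refine le_trans (le_of_eq ?_) h3
    congr 1
    rw [Finset.sum_comm]
    refine sum_congr rfl fun l _ => ?_
    rw [LinearMap.sum_apply, smul_sum]
    refine sum_congr rfl fun i _ => ?_
    simp only [LinearMap.smul_apply, LinearMap.comp_apply, smul_eq_mul,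
      ContinuousLinearMap.coe_coe, ContinuousLinearMap.flip_apply]
    ring)
  refine le_trans (le_of_eq ?_) key
  congr 1
  rw [Finset.sum_comm]
  refine sum_congr rfl fun l _ => ?_
  rw [LinearMap.sum_apply]
  rfl

lemma pb1 {M : Type} [NormedAddCommGroup M] [NormedSpace ℂ M]
    (S : C(X, ℂ) →L[ℂ] C(X, ℂ) →L[ℂ] C(X, ℂ) →L[ℂ] M)
    (e : X × X → X × X → M →ₗ[ℂ] ℂ) (h : ℕ → ℕ → ℂ) (N : ℕ) (D : ℝ) (hD : 0 ≤ D)
    (hH : ∀ u v : ℕ → ℂ, (∀ i, ‖u i‖ ≤ 528) → (∀ l, ‖v l‖ ≤ 528) →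
      ∀ (w z : ℕ → X × X) (t : M),
        ‖∑ i ∈ range N, ∑ l ∈ range N, u i * v l * h i l * e (w i) (z l) t‖ ≤ D * ‖t‖)
    (u v : ℕ → ℂ) (hu : ∀ i, ‖u i‖ ≤ 528) (hv : ∀ l, ‖v l‖ ≤ 528) (w z : ℕ → X × X)
    (β c d : ℕ → C(X, ℂ))
    (hβ : ∀ ε : ℕ → ℂ, (∀ n, ε n = 1 ∨ ε n = -1) → ‖∑ n ∈ range N, ε n • β n‖ ≤ 1)
    (hc : ∀ ε : ℕ → ℂ, (∀ n, ε n = 1 ∨ ε n = -1) → ‖∑ n ∈ range N, ε n • c n‖ ≤ 1)
    (hd : ∀ ε : ℕ → ℂ, (∀ n, ε n = 1 ∨ ε n = -1) → ‖∑ n ∈ range N, ε n • d n‖ ≤ 1) :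
    ‖∑ i ∈ range N, ∑ l ∈ range N, u i * v l * h i l * e (w i) (z l) (S (β i) (c l) (d l))‖
      ≤ D * ‖S‖ := by
  have key := sign_avg0 (fun i => ∑ l ∈ range N, (u i * v l * h i l) •
    ((e (w i) (z l)) ∘ₗ ((S.flip (c l)).flip (d l)).toLinearMap)) β (D * ‖S‖) (range N) (by
    intro ε hε
    have h3 := pb2 S e h N D hD hH (fun i => ε i * u i) v (fun i => by
      rcases hε i with h | h <;> simp [h, hu i]) hv w z (∑ n ∈ range N, ε n • β n) c d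
      (hβ ε hε) hc hd
    refine le_trans (le_of_eq ?_) h3
    congr 1
    refine sum_congr rfl fun i _ => ?_
    rw [LinearMap.sum_apply, smul_sum]
    refine sum_congr rfl fun l _ => ?_
    simp only [LinearMap.smul_apply, LinearMap.comp_apply, smul_eq_mul,
      ContinuousLinearMap.coe_coe, ContinuousLinearMap.flip_apply]
    ring)
  refine le_trans (le_of_eq ?_) key
  congr 1
  refine sum_congr rfl fun i _ => ?_
  rw [LinearMap.sum_apply]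
  rfl

lemma disj_norm (β : ℕ → C(X, ℂ)) (U : ℕ → Set X) (hU : ∀ i j, i ≠ j → Disjoint (U i) (U j))
    (h0 : ∀ i, ∀ y ∉ U i, β i y = 0) (h1 : ∀ i, ‖β i‖ ≤ 1) (N : ℕ) (ε : ℕ → ℂ)
    (hε : ∀ n, ε n = 1 ∨ ε n = -1) : ‖∑ n ∈ range N, ε n • β n‖ ≤ 1 := by
  rw [ContinuousMap.norm_le _ zero_le_one]
  intro y
  rw [ContinuousMap.sum_apply]
  by_cases hy : ∃ i ∈ range N, y ∈ U i
  · obtain ⟨i, hi, hyi⟩ := hy
    rw [Finset.sum_eq_single i]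
    · have h2 : ‖ε i‖ = 1 := by
        rcases hε i with h | h <;> simp [h]
      rw [ContinuousMap.smul_apply, norm_smul, h2, one_mul]
      exact ((β i).norm_coe_le_norm y).trans (h1 i)
    · intro j _ hji
      rw [ContinuousMap.smul_apply, h0 j y (fun hyj => Set.disjoint_left.1 (hU j i hji) hyj hyi),
        smul_zero]
    · intro hi'
      exact absurd hi hi'
  · rw [Finset.sum_eq_zero]
    · simp
    · intro i hi
      rw [ContinuousMap.smul_apply, h0 i y (fun hyi => hy ⟨i, hi, hyi⟩), smul_zero]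

theorem bil_bound {M : Type} [NormedAddCommGroup M] [NormedSpace ℂ M]
    (S : C(X, ℂ) →L[ℂ] C(X, ℂ) →L[ℂ] C(X, ℂ) →L[ℂ] M)
    (e : X × X → X × X → M →ₗ[ℂ] ℂ) (h : ℕ → ℕ → ℂ) (N : ℕ) (D : ℝ) (hD : 0 ≤ D)
    (hH : ∀ u v : ℕ → ℂ, (∀ i, ‖u i‖ ≤ 528) → (∀ l, ‖v l‖ ≤ 528) →
      ∀ (w z : ℕ → X × X) (t : M),
        ‖∑ i ∈ range N, ∑ l ∈ range N, u i * v l * h i l * e (w i) (z l) t‖ ≤ D * ‖t‖)
    (Lf Rt : ℕ → Ch X) (U V : ℕ → Set X) (hU : ∀ i j, i ≠ j → Disjoint (U i) (U j))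
    (hV : ∀ i j, i ≠ j → Disjoint (V i) (V j)) (hL : ∀ i, (Lf i).Off (U i))
    (hR : ∀ l, (Rt l).Off (V l)) (hγ : ∀ i q, ‖(Lf i).γ q‖ ≤ 528)
    (hγ' : ∀ l r, ‖(Rt l).γ r‖ ≤ 528) :
    ‖∑ i ∈ range N, ∑ l ∈ range N, h i l * ∑ q, ∑ r, (Lf i).γ q * (Rt l).γ r *
      ((Lf i).a q ((Lf i).w q).1 * e ((Lf i).w q) ((Rt l).w r)
          (S ((Lf i).b q) ((Rt l).b r) ((Rt l).a r))
        - e ((Lf i).w q) ((Rt l).w r)
          (S ((Lf i).a q * (Lf i).b q) ((Rt l).b r) ((Rt l).a r)))‖ ≤ 8 * D * ‖S‖ := by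
  have hA : ∀ q r, ‖∑ i ∈ range N, ∑ l ∈ range N,
      ((Lf i).γ q * (Lf i).a q ((Lf i).w q).1) * (Rt l).γ r * h i l *
        e ((Lf i).w q) ((Rt l).w r) (S ((Lf i).b q) ((Rt l).b r) ((Rt l).a r))‖
        ≤ D * ‖S‖ := by
    intro q r
    refine pb1 S e h N D hD hH (fun i => (Lf i).γ q * (Lf i).a q ((Lf i).w q).1)
      (fun l => (Rt l).γ r) ?_ (fun l => hγ' l r) (fun i => (Lf i).w q) (fun l => (Rt l).w r)
      (fun i => (Lf i).b q) (fun l => (Rt l).b r) (fun l => (Rt l).a r) ?_ ?_ ?_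
    · intro i
      rw [norm_mul]
      have h1 := ((Lf i).a q).norm_coe_le_norm ((Lf i).w q).1
      have h2 := (hL i q).2.2.1
      calc ‖(Lf i).γ q‖ * ‖(Lf i).a q ((Lf i).w q).1‖ ≤ 528 * 1 :=
            mul_le_mul (hγ i q) (h1.trans h2) (norm_nonneg _) (by norm_num)
        _ = 528 := by norm_num
    · exact disj_norm _ U hU (fun i => (hL i q).2.1) (fun i => (hL i q).2.2.2) N
    · exact disj_norm _ V hV (fun i => (hR i r).2.1) (fun i => (hR i r).2.2.2) N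
    · exact disj_norm _ V hV (fun i => (hR i r).1) (fun i => (hR i r).2.2.1) N
  have hB : ∀ q r, ‖∑ i ∈ range N, ∑ l ∈ range N,
      (Lf i).γ q * (Rt l).γ r * h i l *
        e ((Lf i).w q) ((Rt l).w r) (S ((Lf i).a q * (Lf i).b q) ((Rt l).b r) ((Rt l).a r))‖
        ≤ D * ‖S‖ := by
    intro q r
    refine pb1 S e h N D hD hH (fun i => (Lf i).γ q)
      (fun l => (Rt l).γ r) (fun i => hγ i q) (fun l => hγ' l r) (fun i => (Lf i).w q)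
      (fun l => (Rt l).w r)
      (fun i => (Lf i).a q * (Lf i).b q) (fun l => (Rt l).b r) (fun l => (Rt l).a r) ?_ ?_ ?_
    · refine disj_norm _ U hU (fun i y hy => ?_) (fun i => ?_) N
      · rw [ContinuousMap.mul_apply, (hL i q).1 y hy, zero_mul]
      · refine (norm_mul_le _ _).trans ?_
        calc ‖(Lf i).a q‖ * ‖(Lf i).b q‖ ≤ 1 * 1 :=
              mul_le_mul (hL i q).2.2.1 (hL i q).2.2.2 (norm_nonneg _) (by norm_num)
          _ = 1 := by norm_num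
    · exact disj_norm _ V hV (fun i => (hR i r).2.1) (fun i => (hR i r).2.2.2) N
    · exact disj_norm _ V hV (fun i => (hR i r).1) (fun i => (hR i r).2.2.1) N
  set A : Fin 2 → Fin 2 → ℂ := fun q r => ∑ i ∈ range N, ∑ l ∈ range N,
      ((Lf i).γ q * (Lf i).a q ((Lf i).w q).1) * (Rt l).γ r * h i l *
        e ((Lf i).w q) ((Rt l).w r) (S ((Lf i).b q) ((Rt l).b r) ((Rt l).a r)) with hAd
  set B : Fin 2 → Fin 2 → ℂ := fun q r => ∑ i ∈ range N, ∑ l ∈ range N,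
      (Lf i).γ q * (Rt l).γ r * h i l *
        e ((Lf i).w q) ((Rt l).w r) (S ((Lf i).a q * (Lf i).b q) ((Rt l).b r) ((Rt l).a r))
    with hBd
  have hA' : ∀ q r, ‖A q r‖ ≤ D * ‖S‖ := hA
  have hB' : ∀ q r, ‖B q r‖ ≤ D * ‖S‖ := hB
  have e1 : ∑ i ∈ range N, ∑ l ∈ range N, h i l * ∑ q, ∑ r, (Lf i).γ q * (Rt l).γ r *
      ((Lf i).a q ((Lf i).w q).1 * e ((Lf i).w q) ((Rt l).w r)
          (S ((Lf i).b q) ((Rt l).b r) ((Rt l).a r))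
        - e ((Lf i).w q) ((Rt l).w r)
          (S ((Lf i).a q * (Lf i).b q) ((Rt l).b r) ((Rt l).a r))) =
      (A 0 0 - B 0 0) + (A 0 1 - B 0 1) + ((A 1 0 - B 1 0) + (A 1 1 - B 1 1)) := by
    simp only [hAd, hBd, ← Finset.sum_sub_distrib, ← Finset.sum_add_distrib]
    refine sum_congr rfl fun i _ => sum_congr rfl fun l _ => ?_
    rw [Fin.sum_univ_two, Fin.sum_univ_two, Fin.sum_univ_two]
    ring
  rw [e1]
  have n1 : ∀ q r, ‖A q r - B q r‖ ≤ 2 * (D * ‖S‖) := by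
    intro q r
    have := norm_sub_le (A q r) (B q r)
    linarith [hA' q r, hB' q r]
  have m1 := norm_add_le ((A 0 0 - B 0 0) + (A 0 1 - B 0 1)) ((A 1 0 - B 1 0) + (A 1 1 - B 1 1))
  have m2 := norm_add_le (A 0 0 - B 0 0) (A 0 1 - B 0 1)
  have m3 := norm_add_le (A 1 0 - B 1 0) (A 1 1 - B 1 1)
  linarith [n1 0 0, n1 0 1, n1 1 0, n1 1 1]


end

end Pool.Agent.Helper53.CX
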