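import Mathlib
import Pool.Agent.Helper53.CxF

set_option autoImplicit false
set_option maxSynthPendingDepth 3
set_option linter.unusedSectionVars false

namespace Pool.Agent.Helper53.CX

open Filter Topology Finset Pool.Agent.Helper53.Dim3 Pool.Agent.Helper53.BanachHomology



lemma hc_range {f : ℕ → ℝ} {i N : ℕ} (h : i ≤ N) :
    ∑ l ∈ range N, (if l < i then f l else 0) = ∑ l ∈ range i, f l := by
  rw [← Finset.sum_filter]
  congr 1
  ext l
  simp only [Finset.mem_filter, Finset.mem_range]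
  omega

lemma hc_A (l : ℕ) : ∑ i ∈ range (l + 1), 1 / ((l : ℝ) - i + 1 / 2) = ∑ m ∈ range (l + 1), 1 / ((m : ℝ) + 1 / 2) := by
  rw [← Finset.sum_range_reflect]
  refine Finset.sum_congr rfl fun m hm => ?_
  rw [Finset.mem_range] at hm
  have : ((l + 1 - 1 - m : ℕ) : ℝ) = (l : ℝ) - m := by
    rw [Nat.add_sub_cancel, Nat.cast_sub (by omega)]
  rw [this]
  congr 1
  ring

lemma hc_U (i : ℕ) : ∑ l ∈ range i, 1 / ((i : ℝ) - l - 1 / 2) = ∑ m ∈ range i, 1 / ((m : ℝ) + 1 / 2) := by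
  rw [← Finset.sum_range_reflect]
  refine Finset.sum_congr rfl fun m hm => ?_
  rw [Finset.mem_range] at hm
  have : ((i - 1 - m : ℕ) : ℝ) = (i : ℝ) - 1 - m := by
    rw [Nat.cast_sub (by omega), Nat.cast_sub (by omega), Nat.cast_one]
  rw [this]
  congr 1
  ring

lemma hc_UA (i : ℕ) : ∑ l ∈ range i, 1 / ((i : ℝ) - l - 1 / 2) ≤ ∑ j ∈ range (i + 1), 1 / ((i : ℝ) - j + 1 / 2) := by
  rw [hc_A, hc_U, Finset.sum_range_succ]
  have : (0 : ℝ) ≤ 1 / ((i : ℝ) + 1 / 2) := by positivity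
  linarith

lemma hc_tri (N : ℕ) : triSum N = ∑ l ∈ range N, ∑ i ∈ range (l + 1), 1 / ((l : ℝ) - i + 1 / 2) := by
  unfold triSum
  rw [Finset.sum_comm]
  refine Finset.sum_congr rfl fun l hl => ?_
  rw [Finset.mem_range] at hl
  rw [← hc_range (N := N) (i := l + 1) (by omega)]
  refine Finset.sum_congr rfl fun i _ => ?_
  by_cases h : i ≤ l
  · rw [if_pos h, if_pos (by omega)]
  · rw [if_neg h, if_neg (by omega)]

theorem hilbert_contra (K : ℕ → ℕ → ℝ) (C : ℝ)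
    (h1 : ∀ i : ℕ, ∑ l ∈ range i, 1 / ((i : ℝ) - l - 1 / 2) * K i l
      ≤ 1 / 4 * ∑ l ∈ range i, 1 / ((i : ℝ) - l - 1 / 2))
    (h2 : ∀ l : ℕ, ∑ i ∈ range (l + 1), 1 / ((l : ℝ) - i + 1 / 2) * (1 - K i l)
      ≤ 1 / 4 * ∑ i ∈ range (l + 1), 1 / ((l : ℝ) - i + 1 / 2))
    (h3 : ∀ N : ℕ, -(C * N) ≤ ∑ i ∈ range N, ∑ l ∈ range N, 1 / ((i : ℝ) - l - 1 / 2) * K i l) :
    False := by
  obtain ⟨N, hN⟩ := triSum_large (2 * C)
  have hS : ∑ i ∈ range N, ∑ l ∈ range N, 1 / ((i : ℝ) - l - 1 / 2) * K i l =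
      ∑ i ∈ range N, ∑ l ∈ range i, 1 / ((i : ℝ) - l - 1 / 2) * K i l +
      ∑ l ∈ range N, ∑ i ∈ range (l + 1), 1 / ((i : ℝ) - l - 1 / 2) * K i l := by
    have e1 : ∑ i ∈ range N, ∑ l ∈ range i, 1 / ((i : ℝ) - l - 1 / 2) * K i l =
        ∑ i ∈ range N, ∑ l ∈ range N, (if l < i then 1 / ((i : ℝ) - l - 1 / 2) * K i l else 0) := by
      refine Finset.sum_congr rfl fun i hi => ?_
      rw [Finset.mem_range] at hi
      rw [hc_range hi.le]
    have e2 : ∑ l ∈ range N, ∑ i ∈ range (l + 1), 1 / ((i : ℝ) - l - 1 / 2) * K i l =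
        ∑ i ∈ range N, ∑ l ∈ range N, (if l < i then 0 else 1 / ((i : ℝ) - l - 1 / 2) * K i l) := by
      rw [Finset.sum_comm (s := range N) (t := range N)]
      refine Finset.sum_congr rfl fun l hl => ?_
      rw [Finset.mem_range] at hl
      rw [← hc_range (N := N) (i := l + 1) (by omega)]
      refine Finset.sum_congr rfl fun i _ => ?_
      by_cases h : i ≤ l
      · rw [if_pos (by omega), if_neg (by omega)]
      · rw [if_neg (by omega), if_pos (by omega)]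
    rw [e1, e2, ← Finset.sum_add_distrib]
    refine Finset.sum_congr rfl fun i _ => ?_
    rw [← Finset.sum_add_distrib]
    refine Finset.sum_congr rfl fun l _ => ?_
    by_cases h : l < i
    · rw [if_pos h, if_pos h, add_zero]
    · rw [if_neg h, if_neg h, zero_add]
  have hB : ∀ l : ℕ, ∑ i ∈ range (l + 1), 1 / ((i : ℝ) - l - 1 / 2) * K i l ≤
      -(3 / 4) * ∑ i ∈ range (l + 1), 1 / ((l : ℝ) - i + 1 / 2) := by
    intro l
    have e : ∑ i ∈ range (l + 1), 1 / ((i : ℝ) - l - 1 / 2) * K i l =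
        ∑ i ∈ range (l + 1), 1 / ((l : ℝ) - i + 1 / 2) * (1 - K i l) - ∑ i ∈ range (l + 1), 1 / ((l : ℝ) - i + 1 / 2) := by
      rw [← Finset.sum_sub_distrib]
      refine Finset.sum_congr rfl fun i _ => ?_
      have : (i : ℝ) - l - 1 / 2 = -((l : ℝ) - i + 1 / 2) := by ring
      rw [this, one_div, one_div, inv_neg]
      ring
    rw [e]
    have := h2 l
    linarith
  have hA : ∑ i ∈ range N, ∑ l ∈ range i, 1 / ((i : ℝ) - l - 1 / 2) * K i l ≤ 1 / 4 * triSum N := by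
    rw [hc_tri, Finset.mul_sum]
    refine Finset.sum_le_sum fun i _ => (h1 i).trans ?_
    exact mul_le_mul_of_nonneg_left (hc_UA i) (by norm_num)
  have hB' : ∑ l ∈ range N, ∑ i ∈ range (l + 1), 1 / ((i : ℝ) - l - 1 / 2) * K i l ≤ -(3 / 4) * triSum N := by
    rw [hc_tri, Finset.mul_sum]
    exact Finset.sum_le_sum fun l _ => hB l
  have h := h3 N
  rw [hS] at h
  linarith


end Pool.Agent.Helper53.CX
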