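import Mathlib
import Pool.Agent.Helper53.CxF

set_option autoImplicit false
set_option maxSynthPendingDepth 3
set_option linter.unusedSectionVars false

namespace Pool.Agent.Helper53.CX

open Filter Topology Finset Pool.Agent.Helper53.Dim3 Pool.Agent.Helper53.BanachHomology

section

variable {X : Type} [TopologicalSpace X] [CompactSpace X]





theorem ec_phiv_le (p : X) {L : Set X} (hpL : p ∉ L) {a b : C(X, ℂ)} (ha : ∀ y ∉ L, a y = 0)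
    (hb : ∀ y ∉ L, b y = 0) (ha1 : ‖a‖ ≤ 1) (hb1 : ‖b‖ ≤ 1) (w : X × X) :
    ‖phiv p a b w‖ ≤ 2 := by
  unfold phiv
  rw [ha p hpL, hb p hpL]
  have e : a w.1 * (b w.2 - 0) - (a w.2 * b w.2 - 0 * 0) + 0 * (a w.2 - 0)
      = a w.1 * b w.2 - a w.2 * b w.2 := by ring
  rw [e]
  have h1 : ∀ x, ‖a x‖ ≤ 1 := fun x => (a.norm_coe_le_norm x).trans ha1
  have h2 : ∀ x, ‖b x‖ ≤ 1 := fun x => (b.norm_coe_le_norm x).trans hb1
  refine (norm_sub_le _ _).trans ?_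
  rw [norm_mul, norm_mul]
  have h3 := mul_le_one₀ (h1 w.1) (norm_nonneg _) (h2 w.2)
  have h4 := mul_le_one₀ (h1 w.2) (norm_nonneg _) (h2 w.2)
  linarith

theorem ec_cobv_zero (p : X) (a b : C(X, ℂ)) (w : X × X) :
    cobv p (0 : C(X, ℂ) →ₗ[ℂ] Nsub p) a b w = 0 := by
  unfold cobv
  simp

theorem ec_cobv_smul (p : X) (c : ℂ) (G : C(X, ℂ) →ₗ[ℂ] Nsub p) (a b : C(X, ℂ)) (w : X × X) :
    cobv p (c • G) a b w = c * cobv p G a b w := by
  unfold cobv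
  simp only [LinearMap.smul_apply, Submodule.coe_smul, ContinuousMap.smul_apply, smul_eq_mul]
  ring

theorem ec_not_good {p : X} {K : Set X} {G : C(X, ℂ) →ₗ[ℂ] Nsub p} (h : ¬ Good p K G) :
    ∃ (L : Set X) (a b : C(X, ℂ)) (w : X × X), IsClopen L ∧ p ∉ L ∧ Disjoint L K ∧
      (∀ y ∉ L, a y = 0) ∧ (∀ y ∉ L, b y = 0) ∧ ‖a‖ ≤ 1 ∧ ‖b‖ ≤ 1 ∧
      1 / 16 < ‖phiv p a b w - cobv p G a b w‖ := by
  by_contra hcon
  apply h
  intro L hL hpL hLK a b ha hb ha1 hb1 w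
  by_contra hlt
  exact hcon ⟨L, a, b, w, hL, hpL, hLK, ha, hb, ha1, hb1, not_le.1 hlt⟩

theorem ec_inv_le {δ : ℂ} (h : 1 / 16 < ‖δ‖) : ‖1 / δ‖ ≤ 16 := by
  rw [norm_div, norm_one, div_le_iff₀ (by linarith)]
  linarith

theorem exists_chain (p : X)
    (h : ∀ (K : Set X) (G : C(X, ℂ) →ₗ[ℂ] Nsub p), IsClopen K → p ∉ K → ¬ Good p K G)
    (K : Set X) (G : C(X, ℂ) →ₗ[ℂ] Nsub p) (hK : IsClopen K) (hp : p ∉ K) :
    ∃ (L : Set X) (z : Ch X), IsClopen L ∧ p ∉ L ∧ Disjoint L K ∧ z.Off L ∧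
      (∀ q, ‖z.γ q‖ ≤ 528) ∧ z.ph p = 1 ∧ (z.kap p G).re ≤ 1 / 4 := by
  obtain ⟨L0, a0, b0, w0, hL0, hpL0, hLK0, ha0, hb0, ha01, hb01, hw0⟩ := ec_not_good (h K 0 hK hp)
  rw [ec_cobv_zero, sub_zero] at hw0
  obtain ⟨φ0, hφ0⟩ : ∃ φ0, φ0 = phiv p a0 b0 w0 := ⟨_, rfl⟩
  obtain ⟨κ0, hκ0⟩ : ∃ κ0, κ0 = cobv p G a0 b0 w0 := ⟨_, rfl⟩
  rw [← hφ0] at hw0
  have hφne : φ0 ≠ 0 := by
    intro h0
    rw [h0, norm_zero] at hw0
    norm_num at hw0
  obtain ⟨c, hc⟩ : ∃ c, c = κ0 / φ0 := ⟨_, rfl⟩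
  by_cases hcre : c.re ≤ 1 / 4
  · refine ⟨L0, ⟨![1 / φ0, 0], fun _ => w0, fun _ => a0, fun _ => b0⟩, hL0, hpL0, hLK0,
      fun q => ⟨ha0, hb0, ha01, hb01⟩, ?_, ?_, ?_⟩
    · intro q
      have h16 := ec_inv_le hw0
      fin_cases q
      · change ‖1 / φ0‖ ≤ 528
        linarith
      · change ‖(0 : ℂ)‖ ≤ 528
        rw [norm_zero]
        norm_num
    · unfold Ch.ph
      rw [Fin.sum_univ_two]
      change (1 / φ0) * phiv p a0 b0 w0 + 0 * phiv p a0 b0 w0 = 1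
      rw [← hφ0]
      field_simp
      ring
    · unfold Ch.kap
      rw [Fin.sum_univ_two]
      change ((1 / φ0) * cobv p G a0 b0 w0 + 0 * cobv p G a0 b0 w0).re ≤ 1 / 4
      rw [← hκ0]
      have : (1 / φ0) * κ0 + 0 * κ0 = c := by
        rw [hc]
        ring
      rw [this]
      exact hcre
  · have hc0 : c ≠ 0 := by
      intro h0
      rw [h0] at hcre
      apply hcre
      norm_num
    obtain ⟨L1, a1, b1, w1, hL1, hpL1, hLK1, ha1, hb1, ha11, hb11, hw1⟩ :=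
      ec_not_good (h K (c⁻¹ • G) hK hp)
    rw [ec_cobv_smul] at hw1
    obtain ⟨φ1, hφ1⟩ : ∃ φ1, φ1 = phiv p a1 b1 w1 := ⟨_, rfl⟩
    obtain ⟨κ1, hκ1⟩ : ∃ κ1, κ1 = cobv p G a1 b1 w1 := ⟨_, rfl⟩
    have hφ1n : ‖φ1‖ ≤ 2 := by
      rw [hφ1]
      exact ec_phiv_le p hpL1 ha1 hb1 ha11 hb11 w1
    rw [← hφ1, ← hκ1] at hw1
    obtain ⟨δ, hδ⟩ : ∃ δ, δ = φ1 - c⁻¹ * κ1 := ⟨_, rfl⟩
    rw [← hδ] at hw1
    have hδne : δ ≠ 0 := by
      intro h0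
      rw [h0, norm_zero] at hw1
      norm_num at hw1
    obtain ⟨γ1, hγ1⟩ : ∃ γ1, γ1 = 1 / δ := ⟨_, rfl⟩
    obtain ⟨γ0, hγ0⟩ : ∃ γ0, γ0 = (1 - γ1 * φ1) / φ0 := ⟨_, rfl⟩
    have hn1 : ‖γ1‖ ≤ 16 := by
      rw [hγ1]
      exact ec_inv_le hw1
    have hn0 : ‖γ0‖ ≤ 528 := by
      have e1 : γ0 = (1 - γ1 * φ1) * (1 / φ0) := by rw [hγ0]; ring
      rw [e1, norm_mul]
      have e2 : ‖1 - γ1 * φ1‖ ≤ 33 := by
        refine (norm_sub_le _ _).trans ?_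
        rw [norm_one, norm_mul]
        have := mul_le_mul hn1 hφ1n (norm_nonneg _) (by norm_num)
        linarith
      have := mul_le_mul e2 (ec_inv_le hw0) (norm_nonneg _) (by norm_num)
      linarith
    refine ⟨L0 ∪ L1, ⟨![γ0, γ1], ![w0, w1], ![a0, a1], ![b0, b1]⟩, hL0.union hL1, ?_, ?_, ?_,
      ?_, ?_, ?_⟩
    · rintro (h' | h')
      · exact hpL0 h'
      · exact hpL1 h'
    · exact Disjoint.union_left hLK0 hLK1
    · intro q
      fin_cases q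
      · exact ⟨fun y hy => ha0 y (fun h' => hy (Or.inl h')), fun y hy => hb0 y (fun h' => hy (Or.inl h')),
          ha01, hb01⟩
      · exact ⟨fun y hy => ha1 y (fun h' => hy (Or.inr h')), fun y hy => hb1 y (fun h' => hy (Or.inr h')),
          ha11, hb11⟩
    · intro q
      fin_cases q
      · exact hn0
      · change ‖γ1‖ ≤ 528
        linarith
    · unfold Ch.ph
      rw [Fin.sum_univ_two]
      change γ0 * phiv p a0 b0 w0 + γ1 * phiv p a1 b1 w1 = 1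
      rw [← hφ0, ← hφ1, hγ0]
      field_simp
      ring
    · unfold Ch.kap
      rw [Fin.sum_univ_two]
      change (γ0 * cobv p G a0 b0 w0 + γ1 * cobv p G a1 b1 w1).re ≤ 1 / 4
      rw [← hκ0, ← hκ1]
      have : γ0 * κ0 + γ1 * κ1 = 0 := by
        have e1 : γ0 * κ0 = (1 - γ1 * φ1) * c := by
          rw [hγ0, hc]
          ring
        have e2 : κ1 = c * (φ1 - δ) := by
          rw [hδ]
          field_simp
          ring
        have e3 : γ1 * δ = 1 := by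
          rw [hγ1]
          field_simp
        rw [e1, e2]
        linear_combination (-c) * e3
      rw [this]
      norm_num


end

end Pool.Agent.Helper53.CX
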