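import Mathlib
import Pool.Agent.Helper53.CxF

set_option autoImplicit false
set_option maxSynthPendingDepth 3
set_option linter.unusedSectionVars false

namespace Pool.Agent.Helper53.CX

open Filter Topology Finset Pool.Agent.Helper53.Dim3 Pool.Agent.Helper53.BanachHomology

section

variable {X : Type} [TopologicalSpace X] [CompactSpace X]






theorem rec_exists {α : Type} [Inhabited α] (P : ℕ → (ℕ → α) → α → Prop)
    (hP : ∀ n g g' a, (∀ l < n, g l = g' l) → P n g a → P n g' a)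
    (h : ∀ n g, (∀ l < n, P l g (g l)) → ∃ a, P n g a) : ∃ f : ℕ → α, ∀ n, P n f (f n) := by
  classical
  let nx : ℕ → (ℕ → α) → α := fun n g => if hh : ∃ a, P n g a then hh.choose else default
  have hnx : ∀ n g, (∃ a, P n g a) → P n g (nx n g) := by
    intro n g hh
    simp only [nx, dif_pos hh]
    exact hh.choose_spec
  let F : ℕ → (ℕ → α) := fun n => Nat.rec (fun _ => default) (fun n G => Function.update G n (nx n G)) n
  have hF : ∀ n, F (n + 1) = Function.update (F n) n (nx n (F n)) := fun n => rfl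
  let f : ℕ → α := fun n => nx n (F n)
  have hFf : ∀ n l, l < n → F n l = f l := by
    intro n
    induction n with
    | zero => intro l hl; omega
    | succ n ih =>
      intro l hl
      rw [hF n]
      by_cases hln : l = n
      · subst hln
        rw [Function.update_self]
      · rw [Function.update_of_ne hln]
        exact ih l (by omega)
  refine ⟨f, fun n => ?_⟩
  induction n using Nat.strong_induction_on with
  | _ n ih =>
    have h1 : ∃ a, P n f a := h n f (fun l hl => ih l hl)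
    obtain ⟨a, ha⟩ := h1
    have h2 : P n (F n) a := hP n f (F n) a (fun l hl => (hFf n l hl).symm) ha
    have h3 := hnx n (F n) ⟨a, h2⟩
    exact hP n (F n) f (nx n (F n)) (fun l hl => hFf n l hl) h3

theorem cobv_add (p : X) (G H : C(X, ℂ) →ₗ[ℂ] Nsub p) (a b : C(X, ℂ)) (w : X × X) :
    cobv p (G + H) a b w = cobv p G a b w + cobv p H a b w := by
  simp only [cobv, LinearMap.add_apply, Submodule.coe_add, ContinuousMap.add_apply]
  ring

theorem cobv_smul (p : X) (c : ℂ) (G : C(X, ℂ) →ₗ[ℂ] Nsub p) (a b : C(X, ℂ)) (w : X × X) :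
    cobv p (c • G) a b w = c * cobv p G a b w := by
  simp only [cobv, LinearMap.smul_apply, Submodule.coe_smul, ContinuousMap.smul_apply, smul_eq_mul]
  ring

theorem kap_add (p : X) (z : Ch X) (G H : C(X, ℂ) →ₗ[ℂ] Nsub p) :
    z.kap p (G + H) = z.kap p G + z.kap p H := by
  simp only [Ch.kap, cobv_add, mul_add, Finset.sum_add_distrib]

theorem kap_smul (p : X) (z : Ch X) (c : ℂ) (G : C(X, ℂ) →ₗ[ℂ] Nsub p) :
    z.kap p (c • G) = c * z.kap p G := by
  simp only [Ch.kap, cobv_smul, Finset.mul_sum]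
  refine Finset.sum_congr rfl fun q _ => ?_
  ring

theorem kap_zero (p : X) (z : Ch X) : z.kap p (0 : C(X, ℂ) →ₗ[ℂ] Nsub p) = 0 := by
  have := kap_smul p z 0 (0 : C(X, ℂ) →ₗ[ℂ] Nsub p)
  rwa [zero_smul, zero_mul] at this

theorem kap_sum (p : X) (z : Ch X) (s : Finset ℕ) (d : ℕ → ℂ)
    (G : ℕ → (C(X, ℂ) →ₗ[ℂ] Nsub p)) :
    z.kap p (∑ l ∈ s, d l • G l) = ∑ l ∈ s, d l * z.kap p (G l) := by
  classical
  induction s using Finset.induction_on with
  | empty => simp only [Finset.sum_empty]; exact kap_zero p z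
  | insert a s ha ih => rw [Finset.sum_insert ha, Finset.sum_insert ha, kap_add, kap_smul, ih]

theorem one_step (p : X)
    (hex : ∀ (K : Set X) (G : C(X, ℂ) →ₗ[ℂ] Nsub p), IsClopen K → p ∉ K →
      ∃ (L : Set X) (z : Ch X), IsClopen L ∧ p ∉ L ∧ Disjoint L K ∧ z.Off L ∧
        (∀ q, ‖z.γ q‖ ≤ 528) ∧ z.ph p = 1 ∧ (z.kap p G).re ≤ 1 / 4)
    (K : Set X) (hK : IsClopen K) (hp : p ∉ K) (s : Finset ℕ) (d : ℕ → ℝ)
    (hd : ∀ l ∈ s, 0 ≤ d l) (G : ℕ → (C(X, ℂ) →ₗ[ℂ] Nsub p)) :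
    ∃ (L : Set X) (z : Ch X), IsClopen L ∧ p ∉ L ∧ Disjoint L K ∧ z.Off L ∧
        (∀ q, ‖z.γ q‖ ≤ 528) ∧ z.ph p = 1 ∧
        ∑ l ∈ s, d l * (z.kap p (G l)).re ≤ 1 / 4 * ∑ l ∈ s, d l := by
  by_cases hW : ∑ l ∈ s, d l = 0
  · obtain ⟨L, z, h1, h2, h3, h4, h5, h6, -⟩ := hex K 0 hK hp
    refine ⟨L, z, h1, h2, h3, h4, h5, h6, ?_⟩
    have h0 : ∀ l ∈ s, d l = 0 := (Finset.sum_eq_zero_iff_of_nonneg hd).1 hW
    rw [hW, mul_zero]
    refine le_of_eq (Finset.sum_eq_zero fun l hl => ?_)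
    rw [h0 l hl, zero_mul]
  · have hWpos : 0 < ∑ l ∈ s, d l := lt_of_le_of_ne (Finset.sum_nonneg hd) (Ne.symm hW)
    set W := ∑ l ∈ s, d l with hWdef
    obtain ⟨L, z, h1, h2, h3, h4, h5, h6, h7⟩ :=
      hex K (∑ l ∈ s, (((d l / W : ℝ) : ℂ)) • G l) hK hp
    refine ⟨L, z, h1, h2, h3, h4, h5, h6, ?_⟩
    rw [kap_sum] at h7
    rw [Complex.re_sum] at h7
    have h8 : ∀ l, ((((d l / W : ℝ) : ℂ)) * z.kap p (G l)).re = d l / W * (z.kap p (G l)).re := by
      intro l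
      rw [Complex.re_ofReal_mul]
    simp only [h8] at h7
    have h9 : ∑ l ∈ s, d l / W * (z.kap p (G l)).re = (∑ l ∈ s, d l * (z.kap p (G l)).re) / W := by
      rw [Finset.sum_div]
      refine Finset.sum_congr rfl fun l _ => ?_
      ring
    rw [h9, div_le_iff₀ hWpos] at h7
    linarith

structure St (X : Type) [TopologicalSpace X] where
  Lf : Ch X
  Rt : Ch X
  U : Set X
  V : Set X

theorem exists_two_seq (p : X)
    (hex : ∀ (K : Set X) (G : C(X, ℂ) →ₗ[ℂ] Nsub p), IsClopen K → p ∉ K →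
      ∃ (L : Set X) (z : Ch X), IsClopen L ∧ p ∉ L ∧ Disjoint L K ∧ z.Off L ∧
        (∀ q, ‖z.γ q‖ ≤ 528) ∧ z.ph p = 1 ∧ (z.kap p G).re ≤ 1 / 4)
    (Gl Gr : Ch X → (C(X, ℂ) →ₗ[ℂ] Nsub p)) (c c' : ℕ → ℕ → ℝ)
    (hc : ∀ i l, l < i → 0 ≤ c i l) (hc' : ∀ i l, i ≤ l → 0 ≤ c' i l) :
    ∃ (Lf Rt : ℕ → Ch X) (U V : ℕ → Set X), (∀ i, (Lf i).Off (U i)) ∧ (∀ l, (Rt l).Off (V l)) ∧
      (∀ i j, i ≠ j → Disjoint (U i) (U j)) ∧ (∀ i j, i ≠ j → Disjoint (V i) (V j)) ∧
      (∀ i l, Disjoint (U i) (V l)) ∧ (∀ i q, ‖(Lf i).γ q‖ ≤ 528) ∧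
      (∀ l r, ‖(Rt l).γ r‖ ≤ 528) ∧ (∀ i, (Lf i).ph p = 1) ∧ (∀ l, (Rt l).ph p = 1) ∧
      (∀ i, ∑ l ∈ range i, c i l * ((Lf i).kap p (Gr (Rt l))).re
        ≤ 1 / 4 * ∑ l ∈ range i, c i l) ∧
      (∀ l, ∑ i ∈ range (l + 1), c' i l * ((Rt l).kap p (Gl (Lf i))).re
        ≤ 1 / 4 * ∑ i ∈ range (l + 1), c' i l) := by
  classical
  have : Inhabited (St X) := ⟨⟨⟨fun _ => 0, fun _ => (p, p), fun _ => 0, fun _ => 0⟩,
    ⟨fun _ => 0, fun _ => (p, p), fun _ => 0, fun _ => 0⟩, ∅, ∅⟩⟩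
  let P : ℕ → (ℕ → St X) → St X → Prop := fun n g s =>
    (IsClopen s.U ∧ p ∉ s.U ∧ IsClopen s.V ∧ p ∉ s.V) ∧ Disjoint s.U s.V ∧
    (∀ l < n, Disjoint s.U (g l).U ∧ Disjoint s.U (g l).V ∧ Disjoint s.V (g l).U ∧
      Disjoint s.V (g l).V) ∧ s.Lf.Off s.U ∧ s.Rt.Off s.V ∧ (∀ q, ‖s.Lf.γ q‖ ≤ 528) ∧
    (∀ q, ‖s.Rt.γ q‖ ≤ 528) ∧ s.Lf.ph p = 1 ∧ s.Rt.ph p = 1 ∧
    (∑ l ∈ range n, c n l * (s.Lf.kap p (Gr (g l).Rt)).re ≤ 1 / 4 * ∑ l ∈ range n, c n l) ∧
    (∑ i ∈ range (n + 1), c' i n * (s.Rt.kap p (Gl (if i < n then (g i).Lf else s.Lf))).re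
      ≤ 1 / 4 * ∑ i ∈ range (n + 1), c' i n)
  have hP1 : ∀ n g g' a, (∀ l < n, g l = g' l) → P n g a → P n g' a := by
    intro n g g' a hg h
    obtain ⟨h1, h2, h3, h4, h5, h6, h7, h8, h9, h10, h11⟩ := h
    refine ⟨h1, h2, ?_, h4, h5, h6, h7, h8, h9, ?_, ?_⟩
    · intro l hl
      rw [← hg l hl]
      exact h3 l hl
    · refine le_trans (le_of_eq ?_) h10
      refine Finset.sum_congr rfl fun l hl => ?_
      rw [hg l (Finset.mem_range.1 hl)]
    · refine le_trans (le_of_eq ?_) h11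
      refine Finset.sum_congr rfl fun l hl => ?_
      by_cases hln : l < n
      · rw [if_pos hln, if_pos hln, hg l hln]
      · rw [if_neg hln, if_neg hln]
  have hP2 : ∀ n g, (∀ l < n, P l g (g l)) → ∃ a, P n g a := by
    intro n g hg
    let K : Set X := ⋃ l ∈ Finset.range n, ((g l).U ∪ (g l).V)
    have hK : IsClopen K := by
      refine Set.Finite.isClopen_biUnion (Finset.finite_toSet _) ?_
      intro l hl
      have h := (hg l (by simpa using hl)).1
      exact h.1.union h.2.2.1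
    have hpK : p ∉ K := by
      intro hp
      simp only [K, Set.mem_iUnion, Finset.mem_range, Set.mem_union] at hp
      obtain ⟨l, hl, hp⟩ := hp
      have h := (hg l hl).1
      rcases hp with hp | hp
      · exact h.2.1 hp
      · exact h.2.2.2 hp
    have hsub : ∀ l < n, (g l).U ⊆ K ∧ (g l).V ⊆ K := by
      intro l hl
      constructor
      · intro y hy
        simp only [K, Set.mem_iUnion, Finset.mem_range, Set.mem_union]
        exact ⟨l, hl, Or.inl hy⟩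
      · intro y hy
        simp only [K, Set.mem_iUnion, Finset.mem_range, Set.mem_union]
        exact ⟨l, hl, Or.inr hy⟩
    obtain ⟨U, z, a1, a2, a3, a4, a5, a6, a7⟩ := one_step p hex K hK hpK (range n) (c n)
      (fun l hl => hc n l (Finset.mem_range.1 hl)) (fun l => Gr (g l).Rt)
    have hK2 : IsClopen (K ∪ U) := hK.union a1
    have hpK2 : p ∉ K ∪ U := by
      intro h
      rcases h with h | h
      · exact hpK h
      · exact a2 h
    obtain ⟨V, z', b1, b2, b3, b4, b5, b6, b7⟩ := one_step p hex (K ∪ U) hK2 hpK2 (range (n + 1))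
      (fun i => c' i n) (fun i hi => hc' i n (by have := Finset.mem_range.1 hi; omega))
      (fun i => Gl (if i < n then (g i).Lf else z))
    refine ⟨⟨z, z', U, V⟩, ⟨a1, a2, b1, b2⟩, ?_, ?_, a4, b4, a5, b5, a6, b6, a7, b7⟩
    · exact (b3.mono_right Set.subset_union_right).symm
    · intro l hl
      refine ⟨a3.mono_right (hsub l hl).1, a3.mono_right (hsub l hl).2,
        b3.mono_right ((hsub l hl).1.trans Set.subset_union_left),
        b3.mono_right ((hsub l hl).2.trans Set.subset_union_left)⟩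
  obtain ⟨f, hf⟩ := rec_exists P hP1 hP2
  refine ⟨fun i => (f i).Lf, fun i => (f i).Rt, fun i => (f i).U, fun i => (f i).V, ?_, ?_, ?_, ?_,
    ?_, ?_, ?_, ?_, ?_, ?_, ?_⟩
  · intro i; exact (hf i).2.2.2.1
  · intro i; exact (hf i).2.2.2.2.1
  · intro i j hij
    rcases lt_or_gt_of_ne hij with h | h
    · exact ((hf j).2.2.1 i h).1.symm
    · exact ((hf i).2.2.1 j h).1
  · intro i j hij
    rcases lt_or_gt_of_ne hij with h | h
    · exact ((hf j).2.2.1 i h).2.2.2.symm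
    · exact ((hf i).2.2.1 j h).2.2.2
  · intro i l
    rcases lt_trichotomy i l with h | h | h
    · exact ((hf l).2.2.1 i h).2.2.1.symm
    · subst h; exact (hf i).2.1
    · exact ((hf i).2.2.1 l h).2.1
  · intro i; exact (hf i).2.2.2.2.2.1
  · intro i; exact (hf i).2.2.2.2.2.2.1
  · intro i; exact (hf i).2.2.2.2.2.2.2.1
  · intro i; exact (hf i).2.2.2.2.2.2.2.2.1
  · intro i; exact (hf i).2.2.2.2.2.2.2.2.2.1
  · intro l
    refine le_trans (le_of_eq ?_) (hf l).2.2.2.2.2.2.2.2.2.2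
    refine Finset.sum_congr rfl fun i hi => ?_
    by_cases hil : i < l
    · rw [if_pos hil]
    · have : i = l := by have := Finset.mem_range.1 hi; omega
      subst this
      rw [if_neg hil]



end

end Pool.Agent.Helper53.CX
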