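import Mathlib
import Pool.Agent.Helper53.CxF

set_option autoImplicit false
set_option maxSynthPendingDepth 3
set_option linter.unusedSectionVars false

namespace Pool.Agent.Helper53.CX

open Filter Topology Finset Pool.Agent.Helper53.Dim3 Pool.Agent.Helper53.BanachHomology

section

variable {X : Type} [TopologicalSpace X] [CompactSpace X]



theorem ptn_of_E [T2Space X] [TotallyDisconnectedSpace X] (p : X) (K : Set X) (hK : IsClopen K)
    (hpK : p ∉ K) (E : Set X → C(X × X, ℂ))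
    (hdiag : ∀ V, IsClopen V → p ∉ V → Disjoint V K → ∀ x ∈ V, E V (x, x) = 1)
    (hp : ∀ V, IsClopen V → p ∉ V → Disjoint V K → ∀ s, E V (s, p) = 0)
    (hnear : ∀ V V', IsClopen V → IsClopen V' → p ∉ V → Disjoint V K → V' ⊆ V →
      ∀ s ∈ V', ∀ x, ‖E V (s, x) - E V' (s, x)‖ ≤ 1 / 16) :
    ∃ (ι : Type) (V : ι → Set X), Ptn {p}ᶜ ι V := by
  classical
  set W : Set X := (K ∪ {p})ᶜ with hW
  have hWo : IsOpen W := (hK.isClosed.union isClosed_singleton).isOpen_compl
  have hWK : ∀ V : Set X, V ⊆ W → p ∉ V ∧ Disjoint V K := by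
    intro V hV
    refine ⟨fun h => hV h (Or.inr rfl), ?_⟩
    rw [Set.disjoint_left]
    intro x hx hxK
    exact hV hx (Or.inl hxK)
  have hex : ∀ s : X, ∃ V : Set X, s ∈ W → IsClopen V ∧ s ∈ V ∧ V ⊆ W := by
    intro s
    by_cases hs : s ∈ W
    · obtain ⟨V, h1, h2, h3⟩ := compact_exists_isClopen_in_isOpen hWo hs
      exact ⟨V, fun _ => ⟨h1, h2, h3⟩⟩
    · exact ⟨∅, fun h => absurd h hs⟩
  choose Vs hVs using hex
  -- (a)
  have ha : ∀ V V' : Set X, IsClopen V → IsClopen V' → V ⊆ W → V' ⊆ W → ∀ s, s ∈ V → s ∈ V' → ∀ x,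
      ‖E V (s, x) - E V' (s, x)‖ ≤ 1 / 8 := by
    intro V V' h1 h2 h3 h4 s hs hs' x
    have e1 := hnear V (V ∩ V') h1 (h1.inter h2) (hWK V h3).1 (hWK V h3).2 Set.inter_subset_left s ⟨hs, hs'⟩ x
    have e2 := hnear V' (V ∩ V') h2 (h1.inter h2) (hWK V' h4).1 (hWK V' h4).2 Set.inter_subset_right s ⟨hs, hs'⟩ x
    have e3 : E V (s, x) - E V' (s, x) = (E V (s, x) - E (V ∩ V') (s, x)) - (E V' (s, x) - E (V ∩ V') (s, x)) := by
      ring
    rw [e3]
    refine (norm_sub_le _ _).trans ?_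
    linarith
  set R : X → X → ℂ := fun s x => E (Vs s) (s, x) with hR
  have hRs : ∀ s ∈ W, R s s = 1 := fun s hs =>
    hdiag _ (hVs s hs).1 (hWK _ (hVs s hs).2.2).1 (hWK _ (hVs s hs).2.2).2 s (hVs s hs).2.1
  have hRp : ∀ s ∈ W, R s p = 0 := fun s hs =>
    hp _ (hVs s hs).1 (hWK _ (hVs s hs).2.2).1 (hWK _ (hVs s hs).2.2).2 s
  have hRc : ∀ s, Continuous (R s) := by
    intro s
    exact (E (Vs s)).continuous.comp (Continuous.prodMk continuous_const continuous_id)
  -- (c)
  have hO : ∀ s : X, ∃ O : Set X, s ∈ W → IsOpen O ∧ s ∈ O ∧ O ⊆ W ∧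
      ∀ s' ∈ O, ∀ x, ‖R s x - R s' x‖ ≤ 1 / 4 := by
    intro s
    by_cases hs : s ∈ W
    · obtain ⟨h1, h2, h3⟩ := hVs s hs
      set c : C(X, C(X, ℂ)) := (E (Vs s)).curry with hc
      refine ⟨{s' | dist (c s') (c s) < 1 / 16} ∩ Vs s, fun _ => ⟨?_, ?_, ?_, ?_⟩⟩
      · refine IsOpen.inter ?_ h1.isOpen
        exact isOpen_lt (c.continuous.dist continuous_const) continuous_const
      · refine ⟨?_, h2⟩
        change dist (c s) (c s) < 1 / 16
        rw [dist_self]; norm_num
      · exact Set.inter_subset_right.trans h3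
      · rintro s' ⟨h4, h5⟩ x
        have hs' : s' ∈ W := h3 h5
        have h6 : dist (c s' x) (c s x) < 1 / 16 := lt_of_le_of_lt (ContinuousMap.dist_apply_le_dist x) h4
        rw [dist_eq_norm] at h6
        have h7 : ‖E (Vs s) (s', x) - E (Vs s) (s, x)‖ < 1 / 16 := h6
        have h8 := ha (Vs s) (Vs s') h1 (hVs s' hs').1 h3 (hVs s' hs').2.2 s' h5 (hVs s' hs').2.1 x
        have e : R s x - R s' x = -(E (Vs s) (s', x) - E (Vs s) (s, x)) + (E (Vs s) (s', x) - E (Vs s') (s', x)) := by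
          simp only [hR]; ring
        rw [e]
        refine (norm_add_le _ _).trans ?_
        rw [norm_neg]
        linarith
    · exact ⟨∅, fun h => absurd h hs⟩
  choose O hO using hO
  -- compact subsets of W
  have hcl : ∀ C : Set X, IsCompact C → C ⊆ W → ∃ V : Set X, IsClopen V ∧ C ⊆ V ∧ V ⊆ W := by
    intro C hC hCW
    obtain ⟨t, ht, hcov⟩ := hC.elim_nhds_subcover Vs (fun x hx =>
      (hVs x (hCW hx)).1.isOpen.mem_nhds (hVs x (hCW hx)).2.1)
    refine ⟨⋃ x ∈ t, Vs x, ?_, hcov, ?_⟩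
    · exact Set.Finite.isClopen_biUnion (Finset.finite_toSet t) (fun x hx => (hVs x (hCW (ht x hx))).1)
    · exact Set.iUnion₂_subset (fun x hx => (hVs x (hCW (ht x hx))).2.2)
  -- (d)
  have hd : ∀ V : Set X, ∃ V' : Set X, (IsClopen V ∧ V ⊆ W) → (IsClopen V' ∧ V' ⊆ W) ∧ V ⊆ V' ∧
      ∀ s ∈ V, ∀ s' ∈ W, (∀ x, ‖R s x - R s' x‖ ≤ 1 / 4) → s' ∈ V' := by
    intro V
    by_cases hV : IsClopen V ∧ V ⊆ W
    · obtain ⟨hV1, hV2⟩ := hV
      have hVc : IsCompact V := hV1.isClosed.isCompact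
      obtain ⟨t, ht, hcov⟩ := hVc.elim_nhds_subcover O (fun x hx =>
        (hO x (hV2 hx)).1.mem_nhds (hO x (hV2 hx)).2.1)
      set C : Set X := (⋃ k ∈ t, {x | 1 / 2 ≤ ‖R k x‖}) \ K with hC
      have hCc : IsClosed C := by
        rw [hC, Set.sdiff_eq]
        refine IsClosed.inter ?_ hK.isOpen.isClosed_compl
        exact Set.Finite.isClosed_biUnion (Finset.finite_toSet t)
          (fun k _ => isClosed_le continuous_const (hRc k).norm)
      have hCW : C ⊆ W := by
        rintro x ⟨hx1, hx2⟩ hx3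
        rcases hx3 with hx3 | hx3
        · exact hx2 hx3
        · have : x = p := hx3
          subst this
          simp only [Set.mem_iUnion, Set.mem_ofPred_eq] at hx1
          obtain ⟨k, hk, hk2⟩ := hx1
          rw [hRp k (hV2 (ht k hk)), norm_zero] at hk2
          norm_num at hk2
      obtain ⟨V2, h1, h2, h3⟩ := hcl C hCc.isCompact hCW
      refine ⟨V ∪ V2, fun _ => ⟨⟨hV1.union h1, Set.union_subset hV2 h3⟩, Set.subset_union_left, ?_⟩⟩
      intro s hs s' hs' hss
      right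
      apply h2
      refine ⟨?_, fun h => hs' (Or.inl h)⟩
      have := hcov hs
      simp only [Set.mem_iUnion] at this
      obtain ⟨k, hk, hk2⟩ := this
      simp only [Set.mem_iUnion, Set.mem_ofPred_eq]
      refine ⟨k, hk, ?_⟩
      have a1 := (hO k (hV2 (ht k hk))).2.2.2 s hk2 s'
      have a2 := hss s'
      have a3 := hRs s' hs'
      have a4 : ‖R s' s'‖ ≤ ‖R k s'‖ + (‖R k s' - R s s'‖ + ‖R s s' - R s' s'‖) := by
        have e : R s' s' = R k s' - ((R k s' - R s s') + (R s s' - R s' s')) := by ring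
        calc ‖R s' s'‖ = ‖R k s' - ((R k s' - R s s') + (R s s' - R s' s'))‖ := by rw [← e]
          _ ≤ ‖R k s'‖ + ‖(R k s' - R s s') + (R s s' - R s' s')‖ := norm_sub_le _ _
          _ ≤ _ := by gcongr; exact norm_add_le _ _
      have a5 : ‖R s' s'‖ = 1 := by rw [a3, norm_one]
      linarith
    · exact ⟨∅, fun h => absurd h hV⟩
  choose pl hpl using hd
  -- (e)
  set rel : W → W → Prop := fun s s' => ∀ x, ‖R s x - R s' x‖ ≤ 1 / 4 with hrel
  have hrsymm : ∀ a b, rel a b → rel b a := by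
    intro a b h x
    rw [norm_sub_rev]; exact h x
  set St : Setoid W := Relation.EqvGen.setoid rel with hSt
  set Cl : Quotient St → Set X := fun c => {x | ∃ h : x ∈ W, (Quotient.mk St ⟨x, h⟩) = c} with hClD
  have hClo : ∀ c, IsOpen (Cl c) := by
    intro c
    rw [isOpen_iff_mem_nhds]
    rintro x ⟨hx, hxc⟩
    refine Filter.mem_of_superset ((hO x hx).1.mem_nhds (hO x hx).2.1) ?_
    intro y hy
    have hyW : y ∈ W := (hO x hx).2.2.1 hy
    refine ⟨hyW, ?_⟩
    rw [← hxc]
    apply Quotient.sound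
    exact Relation.EqvGen.rel _ _ (hrsymm _ _ ((hO x hx).2.2.2 y hy))
  have hClW : ∀ c, Cl c ⊆ W := by
    rintro c x ⟨h, _⟩; exact h
  have hClo' : ∀ c, IsOpen (W \ Cl c) := by
    intro c
    have : W \ Cl c = ⋃ c' ∈ {c' | c' ≠ c}, Cl c' := by
      ext x
      simp only [Set.mem_sdiff, Set.mem_iUnion, Set.mem_ofPred_eq]
      constructor
      · rintro ⟨h1, h2⟩
        refine ⟨Quotient.mk St ⟨x, h1⟩, fun h => h2 ⟨h1, h⟩, ⟨h1, rfl⟩⟩
      · rintro ⟨c', hc', h1, h2⟩
        refine ⟨h1, ?_⟩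
        rintro ⟨h3, h4⟩
        exact hc' (h2.symm.trans h4)
    rw [this]
    exact isOpen_biUnion (fun c' _ => hClo c')
  set V0 : Quotient St → Set X := fun c => Vs (Quotient.out c : W) with hV0
  set Vn : Quotient St → ℕ → Set X := fun c n => Nat.rec (V0 c) (fun _ V => pl V) n with hVn
  have hVn0 : ∀ c, Vn c 0 = V0 c := fun c => rfl
  have hVnS : ∀ c n, Vn c (n + 1) = pl (Vn c n) := fun c n => rfl
  have hVnc : ∀ c n, IsClopen (Vn c n) ∧ Vn c n ⊆ W := by
    intro c n
    induction n with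
    | zero =>
      have h := hVs (Quotient.out c : W) (Quotient.out c : W).2
      exact ⟨h.1, h.2.2⟩
    | succ n ih =>
      rw [hVnS]
      exact (hpl _ ih).1
  have hVnm : ∀ c n, Vn c n ⊆ Vn c (n + 1) := by
    intro c n
    rw [hVnS]
    exact (hpl _ (hVnc c n)).2.1
  have hVnmono : ∀ c, Monotone (Vn c) := fun c => monotone_nat_of_le_succ (hVnm c)
  have hcover : ∀ c, ∀ x ∈ Cl c, ∃ n, x ∈ Vn c n := by
    rintro c x ⟨hx, hxc⟩
    have key : ∀ a b : W, Relation.EqvGen rel a b → ((∃ n, (a : X) ∈ Vn c n) ↔ ∃ n, (b : X) ∈ Vn c n) := by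
      have key1 : ∀ a b : W, rel a b → (∃ n, (a : X) ∈ Vn c n) → ∃ n, (b : X) ∈ Vn c n := by
        rintro a b h ⟨n, hn⟩
        refine ⟨n + 1, ?_⟩
        rw [hVnS]
        exact (hpl _ (hVnc c n)).2.2 a hn b b.2 h
      intro a b h
      induction h with
      | rel a b h => exact ⟨key1 a b h, key1 b a (hrsymm a b h)⟩
      | refl a => exact Iff.rfl
      | symm a b _ ih => exact ih.symm
      | trans a b d _ _ ih1 ih2 => exact ih1.trans ih2
    have h1 : Relation.EqvGen rel (Quotient.out c) ⟨x, hx⟩ := by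
      have : Quotient.mk St (Quotient.out c) = Quotient.mk St ⟨x, hx⟩ := by
        rw [hxc]; exact Quotient.out_eq c
      exact Quotient.exact this
    refine (key _ _ h1).1 ⟨0, ?_⟩
    exact (hVs (Quotient.out c : W) (Quotient.out c : W).2).2.1
  -- pieces
  set Pc : Quotient St × ℕ → Set X := fun cn => Cl cn.1 ∩ (Vn cn.1 cn.2 \ ⋃ m ∈ Finset.range cn.2, Vn cn.1 m) with hPc
  have hPcc : ∀ cn, IsClopen (Pc cn) := by
    rintro ⟨c, n⟩
    have h1 : IsClopen (Cl c ∩ Vn c n) := by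
      constructor
      · have : Cl c ∩ Vn c n = Vn c n \ (W \ Cl c) := by
          ext x
          constructor
          · rintro ⟨h1, h2⟩; exact ⟨h2, fun h => h.2 h1⟩
          · rintro ⟨h1, h2⟩
            refine ⟨?_, h1⟩
            by_contra h3
            exact h2 ⟨(hVnc c n).2 h1, h3⟩
        rw [this, Set.sdiff_eq]
        exact (hVnc c n).1.isClosed.inter (hClo' c).isClosed_compl
      · exact (hClo c).inter (hVnc c n).1.isOpen
    have h2 : IsClopen (⋃ m ∈ Finset.range n, Vn c m) :=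
      Set.Finite.isClopen_biUnion (Finset.finite_toSet (Finset.range n)) (fun m _ => (hVnc c m).1)
    have h3 : Pc (c, n) = (Cl c ∩ Vn c n) \ (⋃ m ∈ Finset.range n, Vn c m) := by
      simp only [hPc]
      rw [Set.inter_sdiff_assoc]
    rw [h3]
    exact h1.diff h2
  refine ⟨Option (Quotient St × ℕ), fun i => Option.elim i K Pc, ?_, ?_, ?_⟩
  · rintro (_ | cn)
    · exact hK
    · exact hPcc cn
  · have hKP : ∀ cn, Disjoint K (Pc cn) := by
      intro cn
      rw [Set.disjoint_left]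
      intro x hx h
      exact hClW _ h.1 (Or.inl hx)
    have hlt : ∀ (c : Quotient St) (m n : ℕ), m < n → Disjoint (Pc (c, m)) (Pc (c, n)) := by
      intro c m n hmn
      rw [Set.disjoint_left]
      intro x hx h
      apply h.2.2
      simp only [Set.mem_iUnion, Finset.mem_range]
      exact ⟨m, hmn, hx.2.1⟩
    rintro (_ | ⟨c, m⟩) (_ | ⟨c', n⟩) hne
    · exact absurd rfl hne
    · exact hKP _
    · exact (hKP _).symm
    · change Disjoint (Pc (c, m)) (Pc (c', n))
      by_cases hcc : c = c'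
      · subst hcc
        rcases lt_trichotomy m n with h | h | h
        · exact hlt c m n h
        · subst h; exact absurd rfl hne
        · exact (hlt c n m h).symm
      · rw [Set.disjoint_left]
        rintro x ⟨⟨h1, h2⟩, _⟩ ⟨⟨h3, h4⟩, _⟩
        exact hcc (h2.symm.trans h4)
  · ext x
    simp only [Set.mem_iUnion, Set.mem_compl_iff, Set.mem_singleton_iff]
    constructor
    · rintro ⟨i, hi⟩ hxp
      subst hxp
      rcases i with _ | cn
      · exact hpK hi
      · exact hClW _ hi.1 (Or.inr rfl)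
    · intro hx
      by_cases hxK : x ∈ K
      · exact ⟨none, hxK⟩
      · have hxW : x ∈ W := by
          rintro (h | h)
          · exact hxK h
          · exact hx h
        set c := Quotient.mk St ⟨x, hxW⟩ with hcd
        have hxc : x ∈ Cl c := ⟨hxW, rfl⟩
        have hex := hcover c x hxc
        refine ⟨some (c, Nat.find hex), hxc, Nat.find_spec hex, ?_⟩
        simp only [Set.mem_iUnion, Finset.mem_range, not_exists]
        intro m hm
        exact Nat.find_min hex hm

end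

end Pool.Agent.Helper53.CX
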