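import Mathlib
import Pool.Agent.Helper53.CxF
import Pool.Agent.Helper53.CxJ1
import Pool.Agent.Helper53.CxJ2
import Pool.Agent.Helper53.CxJ3
import Pool.Agent.Helper53.CxJ4
import Pool.Agent.Helper53.CxJ5

set_option autoImplicit false
set_option maxSynthPendingDepth 3
set_option linter.unusedSectionVars false

namespace Pool.Agent.Helper53.CX

open Filter Topology Finset Pool.Agent.Helper53.Dim3 Pool.Agent.Helper53.BanachHomology

section

variable {X : Type} [TopologicalSpace X] [CompactSpace X]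

/-- the bilinear functional with the Hilbert matrix -/
theorem hilbert_tens (p : X) (N : ℕ) (u v : ℕ → ℂ) (hu : ∀ i, ‖u i‖ ≤ 528) (hv : ∀ l, ‖v l‖ ≤ 528)
    (w z : ℕ → X × X) (t : Tens (Nsub p) (Nsub p)) :
    ‖∑ i ∈ range N, ∑ l ∈ range N, u i * v l * (1 / ((i : ℂ) - l - 1 / 2))
      * pr (evN p (w i)) (evN p (z l)) t‖ ≤ Real.pi * N * (528 * 528) * ‖t‖ := by
  let β : Nsub p →L[ℂ] Nsub p →L[ℂ] ℂ := ∑ i ∈ range N, ∑ l ∈ range N,
    (u i * v l * (1 / ((i : ℂ) - l - 1 / 2))) • (evN p (w i)).smulRight (evN p (z l))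
  have e : ∑ i ∈ range N, ∑ l ∈ range N, u i * v l * (1 / ((i : ℂ) - l - 1 / 2))
      * pr (evN p (w i)) (evN p (z l)) t = tensVal t β := by
    simp only [β, map_sum, map_smul]
    rfl
  have hβ : ‖β‖ ≤ Real.pi * N * (528 * 528) := by
    have hpi := Real.pi_pos
    refine ContinuousLinearMap.opNorm_le_bound₂ _ (by positivity) fun F G => ?_
    have h := hilbert N (fun i => u i * (F : C(X × X, ℂ)) (w i))
      (fun l => v l * (G : C(X × X, ℂ)) (z l)) (X := 528 * ‖F‖) (Y := 528 * ‖G‖)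
      (by positivity) (by positivity)
      (fun i => by
        rw [norm_mul]
        exact mul_le_mul (hu i) ((F : C(X × X, ℂ)).norm_coe_le_norm _) (norm_nonneg _)
          (by norm_num))
      (fun l => by
        rw [norm_mul]
        exact mul_le_mul (hv l) ((G : C(X × X, ℂ)).norm_coe_le_norm _) (norm_nonneg _)
          (by norm_num))
    have e2 : β F G = ∑ i ∈ range N, ∑ l ∈ range N, u i * (F : C(X × X, ℂ)) (w i)
        * (v l * (G : C(X × X, ℂ)) (z l)) / ((i : ℂ) - l - 1 / 2) := by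
      simp only [β, _root_.sum_apply, _root_.smul_apply]
      refine sum_congr rfl fun i _ => sum_congr rfl fun l _ => ?_
      show (u i * v l * (1 / ((i : ℂ) - l - 1 / 2))) * ((F : C(X × X, ℂ)) (w i) * (G : C(X × X, ℂ)) (z l)) = _
      ring
    rw [e2]
    refine h.trans (le_of_eq ?_)
    ring
  rw [e]
  calc ‖tensVal t β‖ ≤ ‖tensVal t‖ * ‖β‖ := (tensVal t).le_opNorm β
    _ ≤ ‖t‖ * (Real.pi * N * (528 * 528)) := mul_le_mul_of_nonneg_left hβ (norm_nonneg _)
    _ = _ := by ring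

variable (p : X) (S : C(X, ℂ) →L[ℂ] C(X, ℂ) →L[ℂ] C(X, ℂ) →L[ℂ] Tens (Nsub p) (Nsub p))

/-- the operator of a left chain -/
noncomputable def opL (z : Ch X) : C(X, ℂ) →ₗ[ℂ] Nsub p :=
  ∑ q, z.γ q • ((sl1 (evN p (z.w q))).comp (S (z.a q) (z.b q))).toLinearMap

/-- the operator of a right chain -/
noncomputable def opR (z : Ch X) : C(X, ℂ) →ₗ[ℂ] Nsub p :=
  ∑ r, z.γ r • ((sl2 (evN p (z.w r))).comp ((S.flip (z.b r)).flip (z.a r))).toLinearMap

lemma opL_apply (z : Ch X) (c : C(X, ℂ)) (w : X × X) :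
    (opL p S z c : C(X × X, ℂ)) w
      = ∑ q, z.γ q * pr (evN p (z.w q)) (evN p w) (S (z.a q) (z.b q) c) := by
  have h : (opL p S z c : C(X × X, ℂ)) w = evN p w (opL p S z c) := rfl
  rw [h]
  unfold opL
  rw [LinearMap.sum_apply, map_sum]
  refine sum_congr rfl fun q _ => ?_
  rw [LinearMap.smul_apply, map_smul, smul_eq_mul]
  congr 1
  exact apply_sl1 _ _ _

lemma opR_apply (z : Ch X) (b : C(X, ℂ)) (w : X × X) :
    (opR p S z b : C(X × X, ℂ)) w
      = ∑ r, z.γ r * pr (evN p w) (evN p (z.w r)) (S b (z.b r) (z.a r)) := by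
  have h : (opR p S z b : C(X × X, ℂ)) w = evN p w (opR p S z b) := rfl
  rw [h]
  unfold opR
  rw [LinearMap.sum_apply, map_sum]
  refine sum_congr rfl fun q _ => ?_
  rw [LinearMap.smul_apply, map_smul, smul_eq_mul]
  congr 1
  exact apply_sl2 _ _ _

lemma kap_opR (ℓ ρ : Ch X) : ℓ.kap p (opR p S ρ) = ∑ q, ∑ r, ℓ.γ q * ρ.γ r *
      (ℓ.a q (ℓ.w q).1 * pr (evN p (ℓ.w q)) (evN p (ρ.w r)) (S (ℓ.b q) (ρ.b r) (ρ.a r))
        - pr (evN p (ℓ.w q)) (evN p (ρ.w r)) (S (ℓ.a q * ℓ.b q) (ρ.b r) (ρ.a r))) := by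
  unfold Ch.kap cobv
  refine sum_congr rfl fun q _ => ?_
  rw [opR_apply, opR_apply, mul_sum, ← sum_sub_distrib, mul_sum]
  refine sum_congr rfl fun r _ => ?_
  ring

lemma kap_opL (ℓ ρ : Ch X) : ρ.kap p (opL p S ℓ) = ∑ q, ∑ r, ℓ.γ q * ρ.γ r *
      (ρ.a r (ρ.w r).1 * pr (evN p (ℓ.w q)) (evN p (ρ.w r)) (S (ℓ.a q) (ℓ.b q) (ρ.b r))
        - pr (evN p (ℓ.w q)) (evN p (ρ.w r)) (S (ℓ.a q) (ℓ.b q) (ρ.a r * ρ.b r))) := by
  unfold Ch.kap cobv
  rw [sum_comm]
  refine sum_congr rfl fun r _ => ?_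
  rw [opL_apply, opL_apply, mul_sum, ← sum_sub_distrib, mul_sum]
  refine sum_congr rfl fun q _ => ?_
  ring

lemma kap_sum_eq (hS : ∀ (a b c d : C(X, ℂ)) (w z : X × X),
        (phi p a b : C(X × X, ℂ)) w * (phi p d c : C(X × X, ℂ)) z
          = a w.1 * pr (evN p w) (evN p z) (S b c d) - pr (evN p w) (evN p z) (S (a * b) c d)
            + pr (evN p w) (evN p z) (S a (b * c) d) - pr (evN p w) (evN p z) (S a b (c * d))
            + d z.1 * pr (evN p w) (evN p z) (S a b c))
    (ℓ ρ : Ch X) (hd : ∀ q r, ℓ.b q * ρ.b r = 0) :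
    ℓ.kap p (opR p S ρ) + ρ.kap p (opL p S ℓ) = ℓ.ph p * ρ.ph p := by
  rw [kap_opR, kap_opL, ← sum_add_distrib]
  unfold Ch.ph
  rw [sum_mul]
  refine sum_congr rfl fun q _ => ?_
  rw [← sum_add_distrib, mul_sum]
  refine sum_congr rfl fun r _ => ?_
  have h := hS (ℓ.a q) (ℓ.b q) (ρ.b r) (ρ.a r) (ℓ.w q) (ρ.w r)
  rw [hd q r, phi_apply, phi_apply] at h
  have h0 : pr (evN p (ℓ.w q)) (evN p (ρ.w r)) (S (ℓ.a q) 0 (ρ.a r)) = 0 := by
    rw [map_zero, _root_.zero_apply, map_zero]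
  rw [h0, mul_comm (ρ.b r) (ρ.a r)] at h
  unfold phiv
  linear_combination (-(ℓ.γ q * ρ.γ r)) * h

/-- the complement of every point has a clopen partition if the fourth cohomology vanishes -/
theorem ptn_of_van4 [T2Space X] [TotallyDisconnectedSpace X] (h4 : Van4 C(X, ℂ)) (p : X) :
    ∃ (ι : Type) (V : ι → Set X), Ptn {p}ᶜ ι V := by
  obtain ⟨S, hS⟩ := exists_S h4 p
  -- a good pair exists
  have hgood : ∃ (K : Set X) (G : C(X, ℂ) →ₗ[ℂ] Nsub p), IsClopen K ∧ p ∉ K ∧ Good p K G := by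
    by_contra hno
    push Not at hno
    have hex := exists_chain p hno
    obtain ⟨Lf, Rt, U, V, hL, hR, hU, hV, hUV, hγ, hγ', hp1, hp2, h1, h2⟩ :=
      exists_two_seq p hex (opL p S) (opR p S) (fun i l => 1 / ((i : ℝ) - l - 1 / 2))
        (fun i l => 1 / ((l : ℝ) - i + 1 / 2))
        (fun i l hil => by
          have : (l : ℝ) + 1 ≤ i := by exact_mod_cast hil
          have h3 : (0 : ℝ) < (i : ℝ) - l - 1 / 2 := by linarith
          positivity)
        (fun i l hil => by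
          have : (i : ℝ) ≤ l := by exact_mod_cast hil
          have h3 : (0 : ℝ) < (l : ℝ) - i + 1 / 2 := by linarith
          positivity)
    have hadd : ∀ i l, (Lf i).kap p (opR p S (Rt l)) + (Rt l).kap p (opL p S (Lf i)) = 1 := by
      intro i l
      rw [kap_sum_eq p S hS (Lf i) (Rt l) (fun q r => by
        ext y
        rw [ContinuousMap.mul_apply]
        by_cases hy : y ∈ U i
        · rw [(hR l r).2.1 y (Set.disjoint_left.1 (hUV i l) hy), mul_zero]; rfl
        · rw [(hL i q).2.1 y hy, zero_mul]; rfl), hp1, hp2, one_mul]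
    refine hilbert_contra (fun i l => ((Lf i).kap p (opR p S (Rt l))).re)
      (8 * (Real.pi * (528 * 528)) * ‖S‖) h1 ?_ ?_
    · intro l
      have := h2 l
      have e : ∀ i, ((Rt l).kap p (opL p S (Lf i))).re
          = 1 - ((Lf i).kap p (opR p S (Rt l))).re := by
        intro i
        have := congrArg Complex.re (hadd i l)
        rw [Complex.add_re, Complex.one_re] at this
        linarith
      simp only [e] at this
      exact this
    · intro N
      have hD := bil_bound S (fun w z => (pr (evN p w) (evN p z)).toLinearMap)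
        (fun i l => 1 / ((i : ℂ) - l - 1 / 2)) N (Real.pi * N * (528 * 528))
        (by have := Real.pi_pos; positivity)
        (fun u v hu hv w z t => hilbert_tens p N u v hu hv w z t) Lf Rt U V hU hV hL hR hγ hγ'
      have e : ∑ i ∈ range N, ∑ l ∈ range N, 1 / ((i : ℝ) - l - 1 / 2)
          * ((Lf i).kap p (opR p S (Rt l))).re = (∑ i ∈ range N, ∑ l ∈ range N,
            1 / ((i : ℂ) - l - 1 / 2) * (Lf i).kap p (opR p S (Rt l))).re := by
        rw [Complex.re_sum]
        refine sum_congr rfl fun i _ => ?_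
        rw [Complex.re_sum]
        refine sum_congr rfl fun l _ => ?_
        have e1 : (1 / ((i : ℂ) - l - 1 / 2)) = ((1 / ((i : ℝ) - l - 1 / 2) : ℝ) : ℂ) := by
          push_cast; rfl
        rw [e1, Complex.re_ofReal_mul]
      rw [e]
      have e3 : ∑ i ∈ range N, ∑ l ∈ range N,
            1 / ((i : ℂ) - l - 1 / 2) * (Lf i).kap p (opR p S (Rt l)) =
          ∑ i ∈ range N, ∑ l ∈ range N, 1 / ((i : ℂ) - l - 1 / 2) * ∑ q, ∑ r,
            (Lf i).γ q * (Rt l).γ r *
            ((Lf i).a q ((Lf i).w q).1 * pr (evN p ((Lf i).w q)) (evN p ((Rt l).w r))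
                (S ((Lf i).b q) ((Rt l).b r) ((Rt l).a r))
              - pr (evN p ((Lf i).w q)) (evN p ((Rt l).w r))
                (S ((Lf i).a q * (Lf i).b q) ((Rt l).b r) ((Rt l).a r))) :=
        sum_congr rfl fun i _ => sum_congr rfl fun l _ => by rw [kap_opR]
      rw [e3]
      have h5 := (neg_le_abs _).trans ((Complex.abs_re_le_norm _).trans hD)
      have h6 : 8 * (Real.pi * N * (528 * 528)) * ‖S‖
          = 8 * (Real.pi * (528 * 528)) * ‖S‖ * N := by ring
      rw [h6] at h5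
      have h7 : ∀ x y : ℝ, -x ≤ y → -y ≤ x := fun x y h => by linarith
      exact h7 _ _ h5
  obtain ⟨K, G, hK, hpK, hG⟩ := hgood
  classical
  let E : Set X → C(X × X, ℂ) := fun V =>
    if h : IsClopen V then sndF (ind V h) - (G (ind V h) : C(X × X, ℂ)) else 0
  have hE : ∀ (V : Set X) (h : IsClopen V) (w : X × X),
      E V w = ind V h w.2 - (G (ind V h) : C(X × X, ℂ)) w := by
    intro V h w
    simp only [E, dif_pos h]
    rfl
  refine ptn_of_E p K hK hpK E ?_ ?_ ?_
  · intro V hV _ _ x hx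
    rw [hE V hV, (G (ind V hV)).2.1 x, sub_zero]
    exact ind_mem hV hx
  · intro V hV hpV _ s
    rw [hE V hV, (G (ind V hV)).2.2 s, sub_zero]
    exact ind_not_mem hV hpV
  · intro V V' hV hV' hpV hVK hsub s hs x
    have hn : ∀ (V : Set X) (h : IsClopen V), ‖ind V h‖ ≤ 1 := by
      intro V h
      rw [ContinuousMap.norm_le _ zero_le_one]
      intro y
      by_cases hy : y ∈ V
      · rw [ind_mem h hy, norm_one]
      · rw [ind_not_mem h hy, norm_zero]; exact zero_le_one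
    have hmul : ind V' hV' * ind V hV = ind V' hV' := by
      ext y
      rw [ContinuousMap.mul_apply]
      by_cases hy : y ∈ V'
      · rw [ind_mem hV' hy, ind_mem hV (hsub hy), one_mul]
      · rw [ind_not_mem hV' hy, zero_mul]
    have h := hG V hV hpV hVK (ind V' hV') (ind V hV)
      (fun y hy => ind_not_mem hV' (fun h => hy (hsub h))) (fun y hy => ind_not_mem hV hy)
      (hn _ _) (hn _ _) (s, x)
    rw [phiv, cobv, hmul] at h
    rw [hE V hV, hE V' hV']
    have e1 : ind V' hV' s = 1 := ind_mem hV' hs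
    have e2 : ind V' hV' p = 0 := ind_not_mem hV' (fun h => hpV (hsub h))
    have e3 : ind V hV p = 0 := ind_not_mem hV hpV
    have e4 : ind V' hV' x * ind V hV x = ind V' hV' x := by
      rw [← ContinuousMap.mul_apply, hmul]
    simp only [e1, e2, e3, e4] at h
    refine le_trans (le_of_eq ?_) h
    congr 1
    ring

theorem propD_of_van4 [T2Space X] [TotallyDisconnectedSpace X] (h4 : Van4 C(X, ℂ)) : PropD X :=
  fun p => ptn_of_van4 h4 p

end

end Pool.Agent.Helper53.CX
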