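import Mathlib
import Pool.Agent.Helper53.HomB

set_option autoImplicit false
set_option maxSynthPendingDepth 3
set_option linter.unusedSectionVars false

namespace Pool.Agent.Helper53.BanachHomology

open ContinuousLinearMap

namespace Bim

variable {A B : Type} [NonUnitalNormedRing A] [NormedSpace ℂ A] [IsScalarTower ℂ A A]
  [SMulCommClass ℂ A A] [NonUnitalNormedRing B] [NormedSpace ℂ B]

section Co

variable (Z : Bim A B)

/-- the coinduced module: `a (z, F) = (F a, c ↦ F (c a))` -/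
noncomputable def Co : Bim A B where
  carrier := Z.carrier × (A →L[ℂ] Z.carrier)
  left := (compL ℂ (Z.carrier × (A →L[ℂ] Z.carrier)) Z.carrier
      (Z.carrier × (A →L[ℂ] Z.carrier)) (inl ℂ Z.carrier (A →L[ℂ] Z.carrier))).comp
        (snd ℂ Z.carrier (A →L[ℂ] Z.carrier)).flip
    + (compL ℂ (Z.carrier × (A →L[ℂ] Z.carrier)) (A →L[ℂ] Z.carrier)
      (Z.carrier × (A →L[ℂ] Z.carrier)) (inr ℂ Z.carrier (A →L[ℂ] Z.carrier))).comp
        (((compL ℂ (Z.carrier × (A →L[ℂ] Z.carrier)) (A →L[ℂ] Z.carrier)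
          (A →L[ℂ] Z.carrier)).flip (snd ℂ Z.carrier (A →L[ℂ] Z.carrier))).comp
          ((compL ℂ A A Z.carrier).flip.comp (ContinuousLinearMap.mul ℂ A).flip))
  right := (prodMapL ℂ Z.carrier Z.carrier (A →L[ℂ] Z.carrier) (A →L[ℂ] Z.carrier)).comp
    (Z.right.prod ((compL ℂ A Z.carrier Z.carrier).comp Z.right))
  left_mul := fun a b t => by
    refine Prod.ext ?_ (ContinuousLinearMap.ext (fun c => ?_))
    · show t.2 (a * b) + 0 = (0 + t.2 (a * b)) + 0
      rw [zero_add]
    · show (0 : Z.carrier) + t.2 (c * (a * b)) = 0 + (0 + t.2 (c * a * b))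
      rw [mul_assoc]
      abel
  right_mul := fun r s t => by
    refine Prod.ext ?_ (ContinuousLinearMap.ext (fun c => ?_))
    · exact Z.right_mul r s t.1
    · exact Z.right_mul r s (t.2 c)
  left_right := fun a r t => by
    refine Prod.ext ?_ (ContinuousLinearMap.ext (fun c => ?_))
    · show Z.right r (t.2 a) + 0 = Z.right r (t.2 a + 0)
      rw [add_zero, add_zero]
    · show (0 : Z.carrier) + Z.right r (t.2 (c * a)) = Z.right r (0 + t.2 (c * a))
      rw [zero_add, zero_add]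

lemma Co_left (a : A) (t : Z.carrier × (A →L[ℂ] Z.carrier)) :
    Z.Co.left a t = (t.2 a, t.2.comp ((ContinuousLinearMap.mul ℂ A).flip a)) := by
  refine Prod.ext ?_ (ContinuousLinearMap.ext (fun c => ?_))
  · show t.2 a + 0 = t.2 a
    rw [add_zero]
  · show (0 : Z.carrier) + t.2 (c * a) = t.2 (c * a)
    rw [zero_add]

end Co

/-- a projective module has the lifting property for right-linear operators -/
lemma Projective.rproj {P : Bim A B} (hP : P.Projective) : P.RProj := by
  intro Y Z σ φ hσ hσ' hφ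
  obtain ⟨g, hg⟩ := hσ'
  have e1 : IsHom (X := Y.Co) (Y := Z.Co)
      (prodMap σ ((compL ℂ A Y.carrier Z.carrier) σ)) := by
    refine ⟨fun a t => ?_, fun r t => ?_⟩
    · rw [Co_left, Co_left]
      rfl
    · refine Prod.ext ?_ (ContinuousLinearMap.ext (fun c => ?_))
      · exact hσ.2 r t.1
      · exact hσ.2 r (t.2 c)
  have e2 : IsAdmissibleEpi (X := Y.Co) (Y := Z.Co)
      (prodMap σ ((compL ℂ A Y.carrier Z.carrier) σ)) :=
    ⟨prodMap g ((compL ℂ A Z.carrier Y.carrier) g), fun t =>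
      Prod.ext (hg t.1) (ContinuousLinearMap.ext (fun c => hg (t.2 c)))⟩
  have e3 : IsHom (X := P) (Y := Z.Co)
      (φ.prod ((compL ℂ A P.carrier Z.carrier φ).comp P.left.flip)) := by
    refine ⟨fun a p => ?_, fun r p => ?_⟩
    · rw [Co_left]
      refine Prod.ext ?_ (ContinuousLinearMap.ext (fun c => ?_))
      · rfl
      · show φ (P.left c (P.left a p)) = φ (P.left (c * a) p)
        rw [P.left_mul]
    · refine Prod.ext ?_ (ContinuousLinearMap.ext (fun c => ?_))
      · exact hφ r p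
      · show φ (P.left c (P.right r p)) = Z.right r (φ (P.left c p))
        rw [P.left_right]
        exact hφ r _
  obtain ⟨ψ, h1, h2⟩ := hP Y.Co Z.Co _ _ e1 e2 e3
  refine ⟨(fst ℂ Y.carrier (A →L[ℂ] Y.carrier)).comp ψ, fun r p => ?_, fun p => ?_⟩
  · exact congrArg Prod.fst (h1.2 r p)
  · exact congrArg Prod.fst (h2 p)

section N

variable (Z : Bim A B)

/-- the first cosyzygy: `(a ψ)(c) = ψ (c a) - c (ψ a)` -/
noncomputable def N : Bim A B where
  carrier := A →L[ℂ] Z.carrier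
  left := (compL ℂ A A Z.carrier).flip.comp (ContinuousLinearMap.mul ℂ A).flip
    - (compL ℂ A Z.carrier (A →L[ℂ] Z.carrier) Z.left.flip).flip
  right := (compL ℂ A Z.carrier Z.carrier).comp Z.right
  left_mul := fun a b ψ => by
    refine ContinuousLinearMap.ext (fun c => ?_)
    show ψ (c * (a * b)) - Z.left c (ψ (a * b))
      = (ψ (c * a * b) - Z.left (c * a) (ψ b)) - Z.left c (ψ (a * b) - Z.left a (ψ b))
    rw [mul_assoc, Z.left_mul, map_sub]
    abel
  right_mul := fun r s ψ => ContinuousLinearMap.ext (fun c => Z.right_mul r s (ψ c))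
  left_right := fun a r ψ => by
    refine ContinuousLinearMap.ext (fun c => ?_)
    show Z.right r (ψ (c * a)) - Z.left c (Z.right r (ψ a))
      = Z.right r (ψ (c * a) - Z.left c (ψ a))
    rw [map_sub, Z.left_right]

/-- evaluation of elements of the cosyzygy -/
noncomputable def ev (c : A) : Z.N.carrier →L[ℂ] Z.carrier := ContinuousLinearMap.apply ℂ Z.carrier c

lemma N_ext {Z : Bim A B} {x y : Z.N.carrier} (h : ∀ c, Z.ev c x = Z.ev c y) : x = y :=
  ContinuousLinearMap.ext h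

lemma ev_left (a c : A) (ψ : Z.N.carrier) :
    Z.ev c (Z.N.left a ψ) = Z.ev (c * a) ψ - Z.left c (Z.ev a ψ) := rfl

lemma ev_right (r : B) (c : A) (ψ : Z.N.carrier) :
    Z.ev c (Z.N.right r ψ) = Z.right r (Z.ev c ψ) := rfl

/-- the coboundary of an operator -/
noncomputable def delta (P Z : Bim A B) (g : P.carrier →L[ℂ] Z.carrier) :
    P.carrier →L[ℂ] Z.N.carrier :=
  (Z.left.flip.comp g : P.carrier →L[ℂ] A →L[ℂ] Z.carrier)
    - ((compL ℂ A P.carrier Z.carrier g).comp P.left.flip : P.carrier →L[ℂ] A →L[ℂ] Z.carrier)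

lemma ev_delta {P Z : Bim A B} (g : P.carrier →L[ℂ] Z.carrier) (c : A) (p : P.carrier) :
    Z.ev c (delta P Z g p) = Z.left c (g p) - g (P.left c p) := rfl

lemma delta_hom {P Z : Bim A B} {g : P.carrier →L[ℂ] Z.carrier}
    (hg : IsRight (X := P) (Y := Z) g) : IsHom (X := P) (Y := Z.N) (delta P Z g) := by
  refine ⟨fun a p => N_ext (fun c => ?_), fun r p => N_ext (fun c => ?_)⟩
  · rw [ev_left, ev_delta, ev_delta, ev_delta, P.left_mul, Z.left_mul, map_sub]
    abel
  · rw [ev_right, ev_delta, ev_delta, hg, Z.left_right, P.left_right, hg, map_sub]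

lemma delta_eq_zero_iff {P Z : Bim A B} {g : P.carrier →L[ℂ] Z.carrier} {p : P.carrier} :
    delta P Z g p = 0 ↔ ∀ c, g (P.left c p) = Z.left c (g p) := by
  constructor
  · intro h c
    have := congrArg (Z.ev c) h
    rw [ev_delta, map_zero, sub_eq_zero] at this
    exact this.symm
  · intro h
    refine N_ext (fun c => ?_)
    rw [ev_delta, map_zero, h c, sub_self]

/-- the extension module of a morphism into the cosyzygy -/
noncomputable def extMod (P Z : Bim A B) (f : P.carrier →L[ℂ] Z.N.carrier)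
    (hf : IsHom (X := P) (Y := Z.N) f) : Bim A B where
  carrier := Z.carrier × P.carrier
  left := (prodMapL ℂ Z.carrier Z.carrier P.carrier P.carrier).comp (Z.left.prod P.left)
    + (compL ℂ (Z.carrier × P.carrier) Z.carrier (Z.carrier × P.carrier)
        (inl ℂ Z.carrier P.carrier)).comp
      (((compL ℂ (Z.carrier × P.carrier) P.carrier Z.carrier).flip
        (snd ℂ Z.carrier P.carrier)).comp (ContinuousLinearMap.flip (show P.carrier →L[ℂ] A →L[ℂ] Z.carrier from f)))
  right := (prodMapL ℂ Z.carrier Z.carrier P.carrier P.carrier).comp (Z.right.prod P.right)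
  left_mul := fun a b t => by
    have h1 : Z.ev a (f (P.left b t.2)) = Z.ev (a * b) (f t.2) - Z.left a (Z.ev b (f t.2)) := by
      rw [hf.1, ev_left]
    refine Prod.ext ?_ ?_
    · show Z.left (a * b) t.1 + Z.ev (a * b) (f t.2)
        = Z.left a (Z.left b t.1 + Z.ev b (f t.2)) + Z.ev a (f (P.left b t.2 + 0))
      rw [add_zero, h1, Z.left_mul, map_add]
      abel
    · show P.left (a * b) t.2 + 0 = P.left a (P.left b t.2 + 0) + 0
      rw [add_zero, add_zero, add_zero, P.left_mul]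
  right_mul := fun r s t => Prod.ext (Z.right_mul r s t.1) (P.right_mul r s t.2)
  left_right := fun a r t => by
    have h1 : Z.ev a (f (P.right r t.2)) = Z.right r (Z.ev a (f t.2)) := by
      rw [hf.2, ev_right]
    refine Prod.ext ?_ ?_
    · show Z.left a (Z.right r t.1) + Z.ev a (f (P.right r t.2))
        = Z.right r (Z.left a t.1 + Z.ev a (f t.2))
      rw [h1, Z.left_right, map_add]
    · show P.left a (P.right r t.2) + 0 = P.right r (P.left a t.2 + 0)
      rw [add_zero, add_zero, P.left_right]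

/-- morphisms from a projective module into the cosyzygy are coboundaries -/
lemma Projective.exists_delta {P Z : Bim A B} (hP : P.Projective)
    {f : P.carrier →L[ℂ] Z.N.carrier} (hf : IsHom (X := P) (Y := Z.N) f) :
    ∃ g : P.carrier →L[ℂ] Z.carrier, IsRight (X := P) (Y := Z) g ∧
      ∀ p, delta P Z g p = f p := by
  have e1 : IsHom (X := extMod P Z f hf) (Y := P) (snd ℂ Z.carrier P.carrier) := by
    refine ⟨fun a t => ?_, fun r t => rfl⟩
    show P.left a t.2 + 0 = P.left a t.2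
    rw [add_zero]
  have e2 : IsAdmissibleEpi (X := extMod P Z f hf) (Y := P) (snd ℂ Z.carrier P.carrier) :=
    ⟨inr ℂ Z.carrier P.carrier, fun y => rfl⟩
  have e3 : IsHom (X := P) (Y := P) (ContinuousLinearMap.id ℂ P.carrier) :=
    ⟨fun _ _ => rfl, fun _ _ => rfl⟩
  obtain ⟨ψ, h1, h2⟩ := hP (extMod P Z f hf) P _ _ e1 e2 e3
  let ψ' : P.carrier →L[ℂ] Z.carrier × P.carrier := ψ
  have h2' : ∀ p, (ψ' p).2 = p := h2
  refine ⟨-((fst ℂ Z.carrier P.carrier).comp ψ'), fun r p => ?_, fun p => N_ext (fun c => ?_)⟩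
  · have h3 : (ψ' (P.right r p)).1 = Z.right r (ψ' p).1 := congrArg Prod.fst (h1.2 r p)
    show -(ψ' (P.right r p)).1 = Z.right r (-(ψ' p).1)
    rw [h3, map_neg]
  · have h3 : (ψ' (P.left c p)).1 = Z.left c (ψ' p).1 + Z.ev c (f (ψ' p).2) :=
      congrArg Prod.fst (h1.1 c p)
    rw [h2'] at h3
    rw [ev_delta]
    show Z.left c (-(ψ' p).1) - -(ψ' (P.left c p)).1 = Z.ev c (f p)
    rw [h3, map_neg]
    abel

end N

/-- the third cohomology of a module with a resolution of length two vanishes -/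
theorem exists_delta_of_hasResolution {X : Bim A B} (hX : X.RProj) (h2 : X.HasResolution 2)
    (Z : Bim A B) (f : X.carrier →L[ℂ] Z.N.N.N.carrier)
    (hf : IsHom (X := X) (Y := Z.N.N.N) f) :
    ∃ G : X.carrier →L[ℂ] Z.N.N.carrier, IsRight (X := X) (Y := Z.N.N) G ∧
      ∀ x, delta X Z.N.N G x = f x := by
  obtain ⟨R, hR, hR', hn⟩ := h2
  -- right-linear contraction
  obtain ⟨r', hr', hr'2⟩ := hX (R.P 0) X R.ε (ContinuousLinearMap.id ℂ X.carrier) hR.ε_hom
    ⟨R.s', hR'.ε_s⟩ (fun _ _ => rfl)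
  have hr'2 : ∀ x, R.ε (r' x) = x := hr'2
  -- first step
  have hd0 : IsHom (X := R.P 1) (Y := ker R.ε hR.ε_hom)
      (kerCod R.ε hR.ε_hom (R.d 0) hR.ε_d) := by
    refine ⟨fun a x => kerVal_inj _ _ ?_, fun a x => kerVal_inj _ _ ?_⟩
    · rw [kerVal_left, kerVal_kerCod, kerVal_kerCod]
      exact (hR.d_hom 0).1 a x
    · rw [kerVal_right, kerVal_kerCod, kerVal_kerCod]
      exact (hR.d_hom 0).2 a x
  have hd0' : IsAdmissibleEpi (X := R.P 1) (Y := ker R.ε hR.ε_hom)
      (kerCod R.ε hR.ε_hom (R.d 0) hR.ε_d) := by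
    refine ⟨(R.s 0).comp (kerVal R.ε hR.ε_hom), fun y => kerVal_inj _ _ ?_⟩
    rw [kerVal_kerCod, comp_apply]
    have := hR'.h_zero (kerVal R.ε hR.ε_hom y)
    rw [map_kerVal, map_zero, zero_add] at this
    exact this
  obtain ⟨r0, hr0, hr0'⟩ := (hR.projective 0).rproj (R.P 1) (ker R.ε hR.ε_hom) _
    (kerCod R.ε hR.ε_hom (ContinuousLinearMap.id ℂ (R.P 0).carrier - r'.comp R.ε) (fun x => by
      rw [sub_apply, comp_apply, map_sub, hr'2]
      exact sub_self _)) hd0 hd0' (fun r x => kerVal_inj _ _ (by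
        rw [kerVal_right, kerVal_kerCod, kerVal_kerCod, sub_apply, sub_apply, comp_apply,
          comp_apply, map_sub, hR.ε_hom.2, hr']
        rfl))
  have hr0'' : ∀ p, R.d 0 (r0 p) = p - r' (R.ε p) := by
    intro p
    have := congrArg (kerVal R.ε hR.ε_hom) (hr0' p)
    rw [kerVal_kerCod, kerVal_kerCod] at this
    exact this
  -- second step
  have hd1 : IsHom (X := R.P 2) (Y := ker (R.d 0) (hR.d_hom 0))
      (kerCod (R.d 0) (hR.d_hom 0) (R.d 1) (hR.d_d 0)) := by
    refine ⟨fun a x => kerVal_inj _ _ ?_, fun a x => kerVal_inj _ _ ?_⟩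
    · rw [kerVal_left, kerVal_kerCod, kerVal_kerCod]
      exact (hR.d_hom 1).1 a x
    · rw [kerVal_right, kerVal_kerCod, kerVal_kerCod]
      exact (hR.d_hom 1).2 a x
  have hd1' : IsAdmissibleEpi (X := R.P 2) (Y := ker (R.d 0) (hR.d_hom 0))
      (kerCod (R.d 0) (hR.d_hom 0) (R.d 1) (hR.d_d 0)) := by
    refine ⟨(R.s 1).comp (kerVal (R.d 0) (hR.d_hom 0)), fun y => kerVal_inj _ _ ?_⟩
    rw [kerVal_kerCod, comp_apply]
    have := hR'.h_succ 0 (kerVal (R.d 0) (hR.d_hom 0) y)
    rw [map_kerVal, map_zero] at this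
    exact (zero_add (R.d 1 (R.s 1 (kerVal (R.d 0) (hR.d_hom 0) y)))).symm.trans this
  obtain ⟨r1, hr1, hr1'⟩ := (hR.projective 1).rproj (R.P 2) (ker (R.d 0) (hR.d_hom 0)) _
    (kerCod (R.d 0) (hR.d_hom 0)
      (ContinuousLinearMap.id ℂ (R.P 1).carrier - r0.comp (R.d 0)) (fun x => by
      rw [sub_apply, comp_apply, map_sub, hr0'', hR.ε_d, map_zero, sub_zero]
      exact sub_self _)) hd1 hd1' (fun r x => kerVal_inj _ _ (by
        rw [kerVal_right, kerVal_kerCod, kerVal_kerCod, sub_apply, sub_apply, comp_apply,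
          comp_apply, map_sub, (hR.d_hom 0).2, hr0]
        rfl))
  have hr1'' : ∀ p, R.d 1 (r1 p) = p - r0 (R.d 0 p) := by
    intro p
    have := congrArg (kerVal (R.d 0) (hR.d_hom 0)) (hr1' p)
    rw [kerVal_kerCod, kerVal_kerCod] at this
    exact this
  have hinj : ∀ x, R.s 1 (R.d 1 x) = x := by
    intro x
    have h3 : Subsingleton (R.P 3).carrier := hn 3 (by norm_num)
    have := hR'.h_succ 1 x
    have e : R.s (1 + 1) x = 0 := Subsingleton.elim _ _
    rw [e, map_zero, add_zero] at this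
    exact this
  have hr1d : ∀ q, r1 (R.d 1 q) = q := by
    intro q
    have h := hr1'' (R.d 1 q)
    rw [hR.d_d, map_zero, sub_zero] at h
    have := congrArg (R.s 1) h
    rw [hinj, hinj] at this
    exact this
  -- primitives
  obtain ⟨g0, hg0, hg0'⟩ := (hR.projective 0).exists_delta (Z := Z.N.N) (f := f.comp R.ε)
    ⟨fun a p => by rw [comp_apply, comp_apply, hR.ε_hom.1, hf.1],
      fun a p => by rw [comp_apply, comp_apply, hR.ε_hom.2, hf.2]⟩
  have k0 : ∀ p, delta (R.P 0) Z.N.N g0 (R.d 0 p) = 0 := fun p => by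
    rw [hg0', comp_apply, hR.ε_d, map_zero]
  obtain ⟨g1, hg1, hg1'⟩ := (hR.projective 1).exists_delta (Z := Z.N) (f := g0.comp (R.d 0))
    ⟨fun a p => by
      rw [comp_apply, comp_apply, (hR.d_hom 0).1]
      exact (delta_eq_zero_iff.1 (k0 p)) a,
      fun a p => by rw [comp_apply, comp_apply, (hR.d_hom 0).2, hg0]⟩
  have k1 : ∀ p, delta (R.P 1) Z.N g1 (R.d 1 p) = 0 := fun p => by
    rw [hg1', comp_apply, hR.d_d, map_zero]
  obtain ⟨g2, hg2, hg2'⟩ := (hR.projective 2).exists_delta (Z := Z) (f := g1.comp (R.d 1))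
    ⟨fun a p => by
      rw [comp_apply, comp_apply, (hR.d_hom 1).1]
      exact (delta_eq_zero_iff.1 (k1 p)) a,
      fun a p => by rw [comp_apply, comp_apply, (hR.d_hom 1).2, hg1]⟩
  -- going back
  have hh1 : IsRight (X := R.P 1) (Y := Z) (g2.comp r1) := fun r p => by
    rw [comp_apply, comp_apply, hr1, hg2]
  have hδ1 : IsHom (X := R.P 1) (Y := Z.N) (delta (R.P 1) Z (g2.comp r1)) := delta_hom hh1
  have m1 : ∀ q, g1 (R.d 1 q) - delta (R.P 1) Z (g2.comp r1) (R.d 1 q) = 0 := by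
    intro q
    rw [sub_eq_zero]
    refine N_ext (fun c => ?_)
    have e := congrArg (Z.ev c) (hg2' q)
    rw [ev_delta, comp_apply] at e
    rw [← e, ev_delta, comp_apply, comp_apply, hr1d, ← (hR.d_hom 1).1, hr1d]
  have hh0 : IsRight (X := R.P 0) (Y := Z.N)
      ((g1 - delta (R.P 1) Z (g2.comp r1)).comp r0) := fun r p => by
    rw [comp_apply, comp_apply, sub_apply, sub_apply, hr0, hg1, hδ1.2, map_sub]
  have hδ0 : IsHom (X := R.P 0) (Y := Z.N.N)
      (delta (R.P 0) Z.N ((g1 - delta (R.P 1) Z (g2.comp r1)).comp r0)) := delta_hom hh0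
  have hh0d : ∀ p, (g1 - delta (R.P 1) Z (g2.comp r1)) (r0 (R.d 0 p))
      = (g1 - delta (R.P 1) Z (g2.comp r1)) p := by
    intro p
    have h := hr1'' p
    have h' : r0 (R.d 0 p) = p - R.d 1 (r1 p) := by rw [h]; abel
    rw [h', map_sub, sub_apply (x := R.d 1 (r1 p)), m1, sub_zero]
  have m0 : ∀ p, g0 (R.d 0 p)
      - delta (R.P 0) Z.N ((g1 - delta (R.P 1) Z (g2.comp r1)).comp r0) (R.d 0 p) = 0 := by
    intro p
    rw [sub_eq_zero]
    refine N_ext (fun c => ?_)
    have e := congrArg (Z.N.ev c) (hg1' p)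
    rw [ev_delta, comp_apply] at e
    rw [← e, ev_delta, comp_apply, comp_apply, hh0d, ← (hR.d_hom 0).1, hh0d, sub_apply,
      sub_apply, map_sub, hδ1.1]
    abel
  refine ⟨(g0 - delta (R.P 0) Z.N ((g1 - delta (R.P 1) Z (g2.comp r1)).comp r0)).comp r',
    fun r x => ?_, fun x => ?_⟩
  · rw [comp_apply, comp_apply, hr', sub_apply, sub_apply, hg0, hδ0.2, map_sub]
  · have hG : ∀ p, (g0 - delta (R.P 0) Z.N ((g1 - delta (R.P 1) Z (g2.comp r1)).comp r0))
        (r' (R.ε p))
        = (g0 - delta (R.P 0) Z.N ((g1 - delta (R.P 1) Z (g2.comp r1)).comp r0)) p := by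
      intro p
      have h := hr0'' p
      have h' : r' (R.ε p) = p - R.d 0 (r0 p) := by rw [h]; abel
      rw [h', map_sub, sub_apply (x := R.d 0 (r0 p)), m0, sub_zero]
    have hx : x = R.ε (r' x) := (hr'2 x).symm
    rw [hx]
    have e0 := hg0' (r' x)
    rw [comp_apply] at e0
    rw [← e0]
    refine N_ext (fun c => ?_)
    rw [ev_delta, ev_delta, comp_apply, comp_apply, hG, ← hR.ε_hom.1, hG, sub_apply, sub_apply,
      map_sub, hδ0.1]
    abel

end Bim

end Pool.Agent.Helper53.BanachHomology
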