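import Mathlib
import Pool.Agent.Helper53.HomE
import Pool.Agent.Helper53.Dim3Defs

set_option autoImplicit false
set_option maxSynthPendingDepth 3
set_option linter.unusedSectionVars false

namespace Pool.Agent.Helper53.BanachHomology

open ContinuousLinearMap

/-- exchange of variables -/
noncomputable def flp (E F G : Type) [NormedAddCommGroup E] [NormedSpace ℂ E]
    [NormedAddCommGroup F] [NormedSpace ℂ F] [NormedAddCommGroup G] [NormedSpace ℂ G] :
    (E →L[ℂ] F →L[ℂ] G) →L[ℂ] (F →L[ℂ] E →L[ℂ] G) :=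
  (flipₗᵢ ℂ E F G).toContinuousLinearEquiv.toContinuousLinearMap

lemma flp_apply {E F G : Type} [NormedAddCommGroup E] [NormedSpace ℂ E]
    [NormedAddCommGroup F] [NormedSpace ℂ F] [NormedAddCommGroup G] [NormedSpace ℂ G]
    (T : E →L[ℂ] F →L[ℂ] G) (x : E) (y : F) : flp E F G T y x = T x y := rfl

namespace Bim

section

variable {A B : Type} [NonUnitalNormedRing A] [NormedSpace ℂ A] [IsScalarTower ℂ A A]
  [SMulCommClass ℂ A A] [NonUnitalNormedRing B] [NormedSpace ℂ B]

/-- reversal of the order of the variables -/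
noncomputable def rev {X Z : Bim A B}
    (T : A →L[ℂ] A →L[ℂ] A →L[ℂ] X.carrier →L[ℂ] Z.carrier) :
    X.carrier →L[ℂ] Z.N.N.N.carrier :=
  (flp A A (A →L[ℂ] Z.carrier)).comp
    ((compL ℂ A (A →L[ℂ] A →L[ℂ] Z.carrier) (A →L[ℂ] A →L[ℂ] Z.carrier)
      (flp A A Z.carrier)).comp
      ((flp A A (A →L[ℂ] Z.carrier)).comp
        (((flp A X.carrier (A →L[ℂ] Z.carrier)).comp
          ((compL ℂ A (A →L[ℂ] X.carrier →L[ℂ] Z.carrier) (X.carrier →L[ℂ] A →L[ℂ] Z.carrier)
            (flp A X.carrier Z.carrier)).comp T)).flip)))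

lemma ev_rev {X Z : Bim A B} (T : A →L[ℂ] A →L[ℂ] A →L[ℂ] X.carrier →L[ℂ] Z.carrier)
    (a b c : A) (x : X.carrier) :
    Z.ev a (Z.N.ev b (Z.N.N.ev c (rev T x))) = T a b c x := rfl

/-- reversal of the order of the variables -/
noncomputable def rev' {X Z : Bim A B} (G : X.carrier →L[ℂ] Z.N.N.carrier) :
    A →L[ℂ] A →L[ℂ] X.carrier →L[ℂ] Z.carrier :=
  ((flp X.carrier A Z.carrier).comp
    (ContinuousLinearMap.flip (show X.carrier →L[ℂ] A →L[ℂ] A →L[ℂ] Z.carrier from G))).flip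

lemma rev'_apply {X Z : Bim A B} (G : X.carrier →L[ℂ] Z.N.N.carrier) (a b : A)
    (x : X.carrier) : rev' G a b x = Z.ev a (Z.N.ev b (G x)) := rfl

/-- a module with a resolution of length two has no third cohomology -/
theorem exists_primitive {X : Bim A B} (hX : X.RProj) (h2 : X.HasResolution 2) (Z : Bim A B)
    (T : A →L[ℂ] A →L[ℂ] A →L[ℂ] X.carrier →L[ℂ] Z.carrier)
    (hr : ∀ a b c r x, T a b c (X.right r x) = Z.right r (T a b c x))
    (hT : ∀ a b c d x, Z.left a (T b c d x) - T (a * b) c d x + T a (b * c) d x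
      - T a b (c * d) x + T a b c (X.left d x) = 0) :
    ∃ S : A →L[ℂ] A →L[ℂ] X.carrier →L[ℂ] Z.carrier,
      (∀ a b r x, S a b (X.right r x) = Z.right r (S a b x)) ∧
      ∀ a b c x, T a b c x = Z.left a (S b c x) - S (a * b) c x + S a (b * c) x
        - S a b (X.left c x) := by
  have hf : IsHom (X := X) (Y := Z.N.N.N) (rev T) := by
    refine ⟨fun d x => ?_, fun r x => ?_⟩
    · refine N_ext (fun c => N_ext (fun b => N_ext (fun a => ?_)))
      rw [ev_left, map_sub, ev_left, map_sub, map_sub, ev_left, ev_rev, ev_rev, ev_rev, ev_rev,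
        ev_rev]
      have := hT a b c d x
      linear_combination (norm := abel) this
    · refine N_ext (fun c => N_ext (fun b => N_ext (fun a => ?_)))
      rw [ev_right, ev_right, ev_right, ev_rev, ev_rev, hr]
  obtain ⟨G, hG, hG'⟩ := exists_delta_of_hasResolution hX h2 Z (rev T) hf
  refine ⟨rev' G, fun a b r x => ?_, fun a b c x => ?_⟩
  · rw [rev'_apply, rev'_apply, hG, ev_right, ev_right]
  · rw [← ev_rev T, ← hG', ev_delta, map_sub, ev_left, map_sub, map_sub, ev_left, rev'_apply,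
      rev'_apply, rev'_apply, rev'_apply]
    abel

end

section Plus

variable {A : Type} [NonUnitalNormedRing A] [NormedSpace ℂ A] [IsScalarTower ℂ A A]
  [SMulCommClass ℂ A A] [CompleteSpace A]

/-- the unit of the unitization -/
noncomputable def pone (A : Type) [NonUnitalNormedRing A] [NormedSpace ℂ A] : Plus A :=
  WithLp.toLp 1 ((1 : ℂ), (0 : A))

/-- first coordinate -/
noncomputable def pfst (A : Type) [NonUnitalNormedRing A] [NormedSpace ℂ A] : Plus A →L[ℂ] ℂ :=
  WithLp.fstL 1 ℂ ℂ A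

/-- second coordinate -/
noncomputable def psnd (A : Type) [NonUnitalNormedRing A] [NormedSpace ℂ A] : Plus A →L[ℂ] A :=
  WithLp.sndL 1 ℂ ℂ A

lemma pfst_apply (x : Plus A) : pfst A x = x.fst := rfl
lemma psnd_apply (x : Plus A) : psnd A x = x.snd := rfl

/-- the right-linear operator from the unitization with value `z` at the unit -/
noncomputable def Lam (Z : Bim A A) : Z.carrier →L[ℂ] (Plus A →L[ℂ] Z.carrier) :=
  smulRightL ℂ (Plus A) Z.carrier (pfst A)
    + ((compL ℂ (Plus A) A Z.carrier).flip (psnd A)).comp Z.right.flip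

lemma Lam_apply (Z : Bim A A) (z : Z.carrier) (x : Plus A) :
    Z.Lam z x = x.fst • z + Z.right x.snd z := rfl

lemma Lam_one (Z : Bim A A) (z : Z.carrier) : Z.Lam z (pone A) = z := by
  rw [Lam_apply]
  show (1 : ℂ) • z + Z.right (0 : A) z = z
  rw [one_smul, map_zero, zero_apply, add_zero]

lemma Lam_right (Z : Bim A A) (z : Z.carrier) (r : A) (x : Plus A) :
    Z.Lam z (plusRight r x) = Z.right r (Z.Lam z x) := by
  rw [Lam_apply, Lam_apply, plusRight_apply]
  show (0 : ℂ) • z + Z.right (x.fst • r + x.snd * r) z = _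
  rw [zero_smul, zero_add, map_add, map_smul, add_apply, smul_apply, Z.right_mul, map_add,
    map_smul]

lemma Lam_left (Z : Bim A A) (z : Z.carrier) (a : A) (x : Plus A) :
    Z.Lam z (plusLeft a x) = Z.Lam (Z.right a z) x := by
  rw [Lam_apply, Lam_apply, plusLeft_apply]
  show (0 : ℂ) • z + Z.right (x.fst • a + a * x.snd) z = _
  rw [zero_smul, zero_add, map_add, map_smul, add_apply, smul_apply, Z.right_mul]

lemma left_Lam (Z : Bim A A) (z : Z.carrier) (a : A) (x : Plus A) :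
    Z.left a (Z.Lam z x) = Z.Lam (Z.left a z) x := by
  rw [Lam_apply, Lam_apply, map_add, map_smul, Z.left_right]

lemma eq_smul_pone_add (x : Plus A) : x = x.fst • pone A + plusRight x.snd (pone A) := by
  rw [plusRight_apply]
  refine plus_ext ?_ ?_
  · show x.fst = x.fst * 1 + 0
    ring
  · show x.snd = x.fst • (0 : A) + ((1 : ℂ) • x.snd + (0 : A) * x.snd)
    rw [smul_zero, one_smul, zero_mul, add_zero, zero_add]

lemma plusBim_rproj : (plusBim A).RProj := by
  intro Y Z σ φ hσ hσ' hφ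
  obtain ⟨g, hg⟩ := hσ'
  refine ⟨Y.Lam (g (φ (pone A))), fun r x => Y.Lam_right _ r x, fun x => ?_⟩
  show σ (Y.Lam (g (φ (pone A))) x) = φ x
  rw [Lam_apply, map_add, map_smul, hσ.2, hg]
  have h1 : φ x = φ (x.fst • pone A + plusRight x.snd (pone A)) :=
    congrArg φ (eq_smul_pone_add x)
  have h2 : φ (plusRight x.snd (pone A)) = Z.right x.snd (φ (pone A)) := hφ x.snd (pone A)
  rw [h1]
  refine Eq.trans ?_ (map_add φ _ _).symm
  refine congrArg₂ (· + ·) ?_ h2.symm
  exact (map_smul φ x.fst (pone A)).symm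

/-- if the unitization has a bimodule resolution of length two, the third cohomology vanishes -/
theorem exists_primitive_plus (h2 : (plusBim A).HasResolution 2) (Z : Bim A A)
    (T : A →L[ℂ] A →L[ℂ] A →L[ℂ] Z.carrier)
    (hT : ∀ a b c d, Z.left a (T b c d) - T (a * b) c d + T a (b * c) d
      - T a b (c * d) + Z.right d (T a b c) = 0) :
    ∃ S : A →L[ℂ] A →L[ℂ] Z.carrier, ∀ a b c,
      T a b c = Z.left a (S b c) - S (a * b) c + S a (b * c) - Z.right c (S a b) := by
  let T' : A →L[ℂ] A →L[ℂ] A →L[ℂ] (plusBim A).carrier →L[ℂ] Z.carrier :=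
    (compL ℂ A (A →L[ℂ] Z.carrier) (A →L[ℂ] Plus A →L[ℂ] Z.carrier)
      (compL ℂ A Z.carrier (Plus A →L[ℂ] Z.carrier) Z.Lam)).comp T
  have hT' : ∀ a b c x, T' a b c x = Z.Lam (T a b c) x := fun a b c x => rfl
  obtain ⟨S, hS, hS'⟩ := exists_primitive plusBim_rproj h2 Z T'
    (fun a b c r x => by
      rw [hT', hT']
      exact Z.Lam_right _ r x)
    (fun a b c d x => by
      rw [hT', hT', hT', hT', hT', left_Lam]
      have e : Z.Lam (T a b c) ((plusBim A).left d x) = Z.Lam (Z.right d (T a b c)) x :=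
        Z.Lam_left _ d x
      rw [e]
      have := congrArg (fun z => Z.Lam z x) (hT a b c d)
      simp only [map_add, map_sub, add_apply, sub_apply, map_zero, zero_apply] at this
      exact this)
  refine ⟨(compL ℂ A (Plus A →L[ℂ] Z.carrier) Z.carrier
    (ContinuousLinearMap.apply ℂ Z.carrier (pone A))).comp S, fun a b c => ?_⟩
  have h := hS' a b c (pone A)
  rw [hT', Lam_one] at h
  have e : (plusBim A).left c (pone A) = (plusBim A).right c (pone A) := by
    show plusLeft c (pone A) = plusRight c (pone A)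
    rw [plusLeft_apply, plusRight_apply]
    refine plus_ext rfl ?_
    show (1 : ℂ) • c + c * (0 : A) = (1 : ℂ) • c + (0 : A) * c
    rw [mul_zero, zero_mul]
  rw [e, hS] at h
  exact h

end Plus

end Bim

section Transfer

variable {A : Type} [NonUnitalNormedRing A] [NormedSpace ℂ A]

/-- a left module as a bimodule over `A` and the zero algebra -/
noncomputable def LMod.toBim (X : LMod A) : Bim A PUnit where
  carrier := X.carrier
  left := X.act
  right := 0
  left_mul := X.act_mul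
  right_mul := fun _ _ _ => rfl
  left_right := fun a _ x => by
    show X.act a 0 = 0
    rw [map_zero]

/-- forgetting the right action -/
noncomputable def Bim.toLMod {B : Type} [NonUnitalNormedRing B] [NormedSpace ℂ B]
    (X : Bim A B) : LMod A where
  carrier := X.carrier
  act := X.left
  act_mul := X.left_mul

lemma Bim.right_punit (X : Bim A PUnit) (r : PUnit) (x : X.carrier) : X.right r x = 0 := by
  have : r = 0 := rfl
  rw [this, map_zero]
  rfl

lemma Bim.isHom_iff {X Y : Bim A PUnit} (f : Bim.Op X Y) :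
    Bim.IsHom f ↔ LMod.IsHom (X := X.toLMod) (Y := Y.toLMod) f := by
  constructor
  · exact fun h => h.1
  · intro h
    exact ⟨h, fun r x => by rw [Bim.right_punit, Bim.right_punit, map_zero]⟩

lemma Bim.Projective.toLMod {P : Bim A PUnit} (hP : P.Projective) : P.toLMod.Projective := by
  intro Y Z σ φ hσ hσ' hφ
  obtain ⟨ψ, h1, h2⟩ := hP Y.toBim Z.toBim σ φ ((Bim.isHom_iff (X := Y.toBim) (Y := Z.toBim) σ).2 hσ)
    hσ' ((Bim.isHom_iff (X := P) (Y := Z.toBim) φ).2 hφ)
  exact ⟨ψ, h1.1, h2⟩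

lemma LMod.Projective.toBim {P : LMod A} (hP : P.Projective) : P.toBim.Projective := by
  intro Y Z σ φ hσ hσ' hφ
  obtain ⟨ψ, h1, h2⟩ := hP Y.toLMod Z.toLMod σ φ hσ.1 hσ' hφ.1
  exact ⟨ψ, (Bim.isHom_iff (X := P.toBim) (Y := Y) ψ).2 h1, h2⟩

lemma LMod.hasResolution_of_toBim {X : LMod A} {n : ℕ} (h : X.toBim.HasResolution n) :
    X.HasResolution n := by
  obtain ⟨R, hR, hR', hn⟩ := h
  exact ⟨{ P := fun i => (R.P i).toLMod, ε := R.ε, d := R.d, s' := R.s', s := R.s },
    ⟨fun i => (hR.projective i).toLMod, hR.ε_hom.1, fun i => (hR.d_hom i).1, hR.ε_d, hR.d_d⟩,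
    ⟨hR'.ε_s, hR'.h_zero, hR'.h_succ⟩, hn⟩

lemma LMod.toBim_hasResolution {X : LMod A} {n : ℕ} (h : X.HasResolution n) :
    X.toBim.HasResolution n := by
  obtain ⟨R, hR, hR', hn⟩ := h
  exact ⟨{ P := fun i => (R.P i).toBim, ε := R.ε, d := R.d, s' := R.s', s := R.s },
    ⟨fun i => (hR.projective i).toBim,
      (Bim.isHom_iff (X := (R.P 0).toBim) (Y := X.toBim) R.ε).2 hR.ε_hom,
      fun i => (Bim.isHom_iff (X := (R.P (i + 1)).toBim) (Y := (R.P i).toBim) (R.d i)).2
        (hR.d_hom i), hR.ε_d, hR.d_d⟩,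
    ⟨hR'.ε_s, hR'.h_zero, hR'.h_succ⟩, hn⟩

lemma LMod.toBim_rproj (X : LMod A) : X.toBim.RProj := by
  intro Y Z σ φ hσ hσ' hφ
  obtain ⟨g, hg⟩ := hσ'
  refine ⟨g.comp φ, fun r x => ?_, fun x => hg _⟩
  have h1 : X.toBim.right r x = 0 := rfl
  rw [h1, map_zero, Bim.right_punit]

lemma LMod.dh_le {X : LMod A} {n : ℕ} (h : X.HasResolution n) : X.dh ≤ n := iInf₂_le n h

lemma LMod.le_dh {X : LMod A} {n : ℕ} (h : ¬ X.HasResolution n) : ((n + 1 : ℕ) : ℕ∞) ≤ X.dh := by
  refine le_iInf₂ (fun m hm => ?_)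
  rw [Nat.cast_le]
  by_contra hc
  push Not at hc
  apply h
  obtain ⟨R, hR, hR', hn⟩ := hm
  exact ⟨R, hR, hR', fun i hi => hn i (by omega)⟩

lemma Bim.dh_le {B : Type} [NonUnitalNormedRing B] [NormedSpace ℂ B] {X : Bim A B} {n : ℕ}
    (h : X.HasResolution n) : X.dh ≤ n := iInf₂_le n h

lemma Bim.le_dh {B : Type} [NonUnitalNormedRing B] [NormedSpace ℂ B] {X : Bim A B} {n : ℕ}
    (h : ¬ X.HasResolution n) : ((n + 1 : ℕ) : ℕ∞) ≤ X.dh := by
  refine le_iInf₂ (fun m hm => ?_)
  rw [Nat.cast_le]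
  by_contra hc
  push Not at hc
  apply h
  obtain ⟨R, hR, hR', hn⟩ := hm
  exact ⟨R, hR, hR', fun i hi => hn i (by omega)⟩

end Transfer

end Pool.Agent.Helper53.BanachHomology
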