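import Mathlib
import Pool.Agent.Helper53.HomF

set_option autoImplicit false
set_option maxSynthPendingDepth 3
set_option linter.unusedSectionVars false

namespace Pool.Agent.Helper53.BanachHomology

open ContinuousLinearMap

section Rot

variable {E X P Q R : Type} [NormedAddCommGroup E] [NormedSpace ℂ E] [NormedAddCommGroup X]
  [NormedSpace ℂ X] [NormedAddCommGroup P] [NormedSpace ℂ P] [NormedAddCommGroup Q]
  [NormedSpace ℂ Q] [NormedAddCommGroup R] [NormedSpace ℂ R]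

/-- moving the last variable to the front, one step -/
noncomputable def rot (E : Type) [NormedAddCommGroup E] [NormedSpace ℂ E]
    (m : P →L[ℂ] (X →L[ℂ] Q)) : (E →L[ℂ] P) →L[ℂ] (X →L[ℂ] E →L[ℂ] Q) :=
  (flp E X Q).comp (compL ℂ E P (X →L[ℂ] Q) m)

/-- moving the first variable to the end, one step -/
noncomputable def lst (l : (E →L[ℂ] Q) →L[ℂ] P) : (E →L[ℂ] E →L[ℂ] Q) →L[ℂ] (E →L[ℂ] P) :=
  (compL ℂ E (E →L[ℂ] Q) P l).comp (flp E E Q)

/-- moving the first variable to the end, one step -/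
noncomputable def lsx (E : Type) [NormedAddCommGroup E] [NormedSpace ℂ E]
    (l : (X →L[ℂ] Q) →L[ℂ] P) : (X →L[ℂ] E →L[ℂ] Q) →L[ℂ] (E →L[ℂ] P) :=
  (compL ℂ E (X →L[ℂ] Q) P l).comp (flp X E Q)

variable (E P)

/-- reversal of three variables -/
noncomputable def rv3 : (E →L[ℂ] E →L[ℂ] E →L[ℂ] P) →L[ℂ] (E →L[ℂ] E →L[ℂ] E →L[ℂ] P) :=
  (lst (flp E E P)).comp (compL ℂ E (E →L[ℂ] E →L[ℂ] P) (E →L[ℂ] E →L[ℂ] P) (flp E E P))

/-- reversal of four variables -/
noncomputable def rv4 : (E →L[ℂ] E →L[ℂ] E →L[ℂ] E →L[ℂ] P) →L[ℂ]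
    (E →L[ℂ] E →L[ℂ] E →L[ℂ] E →L[ℂ] P) :=
  (lst (lst (flp E E P))).comp (compL ℂ E (E →L[ℂ] E →L[ℂ] E →L[ℂ] P)
    (E →L[ℂ] E →L[ℂ] E →L[ℂ] P) (rv3 E P))

end Rot

namespace Bim

section Gen4

variable {A B : Type} [NonUnitalNormedRing A] [NormedSpace ℂ A] [IsScalarTower ℂ A A]
  [SMulCommClass ℂ A A] [NonUnitalNormedRing B] [NormedSpace ℂ B]

lemma rproj_ker4 {P X : Bim A B} (hP : P.RProj) (ε : Op P X) (hε : IsHom ε)
    (π : P.carrier →L[ℂ] (ker ε hε).carrier) (hπ : IsRight (X := P) (Y := ker ε hε) π)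
    (hπ' : ∀ y, π (kerVal ε hε y) = y) : (ker ε hε).RProj := by
  intro Y Z σ φ hσ hσ' hφ
  obtain ⟨ψ, h1, h2⟩ := hP Y Z σ (φ.comp π) hσ hσ' (fun r p => by
    rw [comp_apply, comp_apply, hπ, hφ])
  refine ⟨ψ.comp (kerVal ε hε), fun r y => ?_, fun y => ?_⟩
  · rw [comp_apply, comp_apply, kerVal_right, h1]
  · rw [comp_apply, h2, comp_apply, hπ']

lemma ker_hasResolution4 {X : Bim A B} {n : ℕ} (R : Cplx X) (hR : R.IsProjectiveComplex)
    (hR' : R.IsContractingHomotopy) (hn : ∀ i, n + 1 < i → Subsingleton (R.P i).carrier) :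
    (ker R.ε hR.ε_hom).HasResolution n := by
  refine ⟨{ P := fun i => R.P (i + 1), ε := kerCod R.ε hR.ε_hom (R.d 0) hR.ε_d,
            d := fun i => R.d (i + 1), s' := (R.s 0).comp (kerVal R.ε hR.ε_hom),
            s := fun i => R.s (i + 1) },
    ⟨fun i => hR.projective (i + 1), ⟨fun a x => kerVal_inj _ _ ?_, fun a x => kerVal_inj _ _ ?_⟩,
      fun i => hR.d_hom (i + 1), fun x => kerVal_inj _ _ ?_, fun i x => hR.d_d (i + 1) x⟩,
    ⟨fun y => kerVal_inj _ _ ?_, fun x => ?_, fun i x => hR'.h_succ (i + 1) x⟩,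
    fun i hi => hn (i + 1) (by omega)⟩
  · exact (hR.d_hom 0).1 a x
  · exact (hR.d_hom 0).2 a x
  · exact hR.d_d 0 x
  · have := hR'.h_zero (kerVal R.ε hR.ε_hom y)
    rw [map_kerVal, map_zero, zero_add] at this
    exact this
  · exact hR'.h_succ 0 x

/-- the fourth cohomology of a module with a resolution of length three vanishes -/
theorem exists_delta_of_hasResolution3 {X : Bim A B} (hX : X.RProj) (h3 : X.HasResolution 3)
    (Z : Bim A B) (f : X.carrier →L[ℂ] Z.N.N.N.N.carrier)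
    (hf : IsHom (X := X) (Y := Z.N.N.N.N) f) :
    ∃ G : X.carrier →L[ℂ] Z.N.N.N.carrier, IsRight (X := X) (Y := Z.N.N.N) G ∧
      ∀ x, delta X Z.N.N.N G x = f x := by
  obtain ⟨R, hR, hR', hn⟩ := h3
  obtain ⟨r', hr', hr'2⟩ := hX (R.P 0) X R.ε (ContinuousLinearMap.id ℂ X.carrier) hR.ε_hom
    ⟨R.s', hR'.ε_s⟩ (fun _ _ => rfl)
  have hr'2 : ∀ x, R.ε (r' x) = x := hr'2
  let π : (R.P 0).carrier →L[ℂ] (ker R.ε hR.ε_hom).carrier :=
    kerCod R.ε hR.ε_hom (ContinuousLinearMap.id ℂ (R.P 0).carrier - r'.comp R.ε) (fun x => by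
      rw [sub_apply, comp_apply, map_sub, hr'2]
      exact sub_self _)
  have hπv : ∀ p, kerVal R.ε hR.ε_hom (π p) = p - r' (R.ε p) := fun p => rfl
  have hπ : IsRight (X := R.P 0) (Y := ker R.ε hR.ε_hom) π := fun r x => kerVal_inj _ _ (by
    rw [kerVal_right, hπv, hπv, map_sub, hR.ε_hom.2, hr'])
  have hπ' : ∀ y, π (kerVal R.ε hR.ε_hom y) = y := fun y => kerVal_inj _ _ (by
    rw [hπv, map_kerVal, map_zero, sub_zero])
  have hK : (ker R.ε hR.ε_hom).RProj := rproj_ker4 (hR.projective 0).rproj R.ε hR.ε_hom π hπ hπ'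
  have hK2 : (ker R.ε hR.ε_hom).HasResolution 2 :=
    ker_hasResolution4 R hR hR' (fun i hi => hn i (by omega))
  obtain ⟨g0, hg0, hg0'⟩ := (hR.projective 0).exists_delta (Z := Z.N.N.N) (f := f.comp R.ε)
    ⟨fun a p => by rw [comp_apply, comp_apply, hR.ε_hom.1, hf.1],
      fun a p => by rw [comp_apply, comp_apply, hR.ε_hom.2, hf.2]⟩
  have hg0K : IsHom (X := ker R.ε hR.ε_hom) (Y := Z.N.N.N) (g0.comp (kerVal R.ε hR.ε_hom)) := by
    refine ⟨fun a y => ?_, fun r y => ?_⟩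
    · rw [comp_apply, comp_apply, kerVal_left]
      refine delta_eq_zero_iff.1 ?_ a
      rw [hg0', comp_apply, map_kerVal, map_zero]
    · rw [comp_apply, comp_apply, kerVal_right, hg0]
  obtain ⟨h, hh, hh'⟩ := exists_delta_of_hasResolution hK hK2 Z
    (g0.comp (kerVal R.ε hR.ε_hom)) hg0K
  have hh1 : IsRight (X := R.P 0) (Y := Z.N.N) (h.comp π) := fun r p => by
    rw [comp_apply, comp_apply, hπ, hh]
  have hδ : IsHom (X := R.P 0) (Y := Z.N.N.N) (delta (R.P 0) Z.N.N (h.comp π)) := delta_hom hh1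
  -- the corrected operator vanishes on the kernel
  have hvan : ∀ y, g0 (kerVal R.ε hR.ε_hom y)
      - delta (R.P 0) Z.N.N (h.comp π) (kerVal R.ε hR.ε_hom y) = 0 := by
    intro y
    rw [sub_eq_zero]
    refine N_ext (fun c => ?_)
    have e := congrArg (Z.N.N.ev c) (hh' y)
    rw [ev_delta, comp_apply] at e
    rw [← e, ev_delta, comp_apply, comp_apply, hπ', ← kerVal_left, hπ']
  refine ⟨(g0 - delta (R.P 0) Z.N.N (h.comp π)).comp r', fun r x => ?_, fun x => ?_⟩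
  · rw [comp_apply, comp_apply, hr', sub_apply, sub_apply, hg0, hδ.2, map_sub]
  · have hG : ∀ p, (g0 - delta (R.P 0) Z.N.N (h.comp π)) (r' (R.ε p))
        = (g0 - delta (R.P 0) Z.N.N (h.comp π)) p := by
      intro p
      have h' : r' (R.ε p) = p - kerVal R.ε hR.ε_hom (π p) := by rw [hπv]; abel
      rw [h', map_sub, sub_apply (x := kerVal R.ε hR.ε_hom (π p)), hvan, sub_zero]
    have hx : x = R.ε (r' x) := (hr'2 x).symm
    rw [hx]
    have e0 := hg0' (r' x)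
    rw [comp_apply] at e0
    rw [← e0]
    refine N_ext (fun c => ?_)
    rw [ev_delta, ev_delta, comp_apply, comp_apply, hG, ← hR.ε_hom.1, hG, sub_apply, sub_apply,
      map_sub, hδ.1]
    abel

/-- reversal of the order of the variables -/
noncomputable def rev4 {X Z : Bim A B}
    (T : A →L[ℂ] A →L[ℂ] A →L[ℂ] A →L[ℂ] X.carrier →L[ℂ] Z.carrier) :
    X.carrier →L[ℂ] Z.N.N.N.N.carrier :=
  ((rv4 A Z.carrier).comp (rot A (rot A (rot A (flp A X.carrier Z.carrier))) T) :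
    X.carrier →L[ℂ] A →L[ℂ] A →L[ℂ] A →L[ℂ] A →L[ℂ] Z.carrier)

lemma ev_rev4 {X Z : Bim A B} (T : A →L[ℂ] A →L[ℂ] A →L[ℂ] A →L[ℂ] X.carrier →L[ℂ] Z.carrier)
    (a b c d : A) (x : X.carrier) :
    Z.ev a (Z.N.ev b (Z.N.N.ev c (Z.N.N.N.ev d (rev4 T x)))) = T a b c d x := rfl

/-- reversal of the order of the variables -/
noncomputable def rev4' {X Z : Bim A B} (G : X.carrier →L[ℂ] Z.N.N.N.carrier) :
    A →L[ℂ] A →L[ℂ] A →L[ℂ] X.carrier →L[ℂ] Z.carrier :=
  let G' : X.carrier →L[ℂ] A →L[ℂ] A →L[ℂ] A →L[ℂ] Z.carrier := G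
  (lsx A (flp X.carrier A Z.carrier)).comp (flp X.carrier A _ ((rv3 A Z.carrier).comp G'))

lemma rev4'_apply {X Z : Bim A B} (G : X.carrier →L[ℂ] Z.N.N.N.carrier) (a b c : A)
    (x : X.carrier) : rev4' G a b c x = Z.ev a (Z.N.ev b (Z.N.N.ev c (G x))) := rfl

lemma ev_left2 {Z : Bim A B} (a b c : A) (ψ : Z.N.N.carrier) :
    Z.ev a (Z.N.ev b (Z.N.N.left c ψ)) = Z.ev a (Z.N.ev (b * c) ψ) - Z.ev (a * b) (Z.N.ev c ψ)
      + Z.left a (Z.ev b (Z.N.ev c ψ)) := by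
  rw [ev_left, map_sub, ev_left]
  abel

lemma ev_left3 {Z : Bim A B} (a b c d : A) (ψ : Z.N.N.N.carrier) :
    Z.ev a (Z.N.ev b (Z.N.N.ev c (Z.N.N.N.left d ψ)))
      = Z.ev a (Z.N.ev b (Z.N.N.ev (c * d) ψ)) - Z.ev a (Z.N.ev (b * c) (Z.N.N.ev d ψ))
        + Z.ev (a * b) (Z.N.ev c (Z.N.N.ev d ψ)) - Z.left a (Z.ev b (Z.N.ev c (Z.N.N.ev d ψ))) := by
  have h : Z.N.N.ev c (Z.N.N.N.left d ψ) = Z.N.N.ev (c * d) ψ - Z.N.N.left c (Z.N.N.ev d ψ) :=
    ev_left (Z := Z.N.N) d c ψ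
  rw [h, map_sub, map_sub, ev_left2]
  abel

lemma ev_left4 {Z : Bim A B} (a b c d e : A) (ψ : Z.N.N.N.N.carrier) :
    Z.ev a (Z.N.ev b (Z.N.N.ev c (Z.N.N.N.ev d (Z.N.N.N.N.left e ψ))))
      = Z.ev a (Z.N.ev b (Z.N.N.ev c (Z.N.N.N.ev (d * e) ψ)))
        - Z.ev a (Z.N.ev b (Z.N.N.ev (c * d) (Z.N.N.N.ev e ψ)))
        + Z.ev a (Z.N.ev (b * c) (Z.N.N.ev d (Z.N.N.N.ev e ψ)))
        - Z.ev (a * b) (Z.N.ev c (Z.N.N.ev d (Z.N.N.N.ev e ψ)))
        + Z.left a (Z.ev b (Z.N.ev c (Z.N.N.ev d (Z.N.N.N.ev e ψ)))) := by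
  have h : Z.N.N.N.ev d (Z.N.N.N.N.left e ψ)
      = Z.N.N.N.ev (d * e) ψ - Z.N.N.N.left d (Z.N.N.N.ev e ψ) :=
    ev_left (Z := Z.N.N.N) e d ψ
  rw [h, map_sub, map_sub, map_sub, ev_left3]
  abel

/-- a module with a resolution of length three has no fourth cohomology -/
theorem exists_primitive4 {X : Bim A B} (hX : X.RProj) (h3 : X.HasResolution 3) (Z : Bim A B)
    (T : A →L[ℂ] A →L[ℂ] A →L[ℂ] A →L[ℂ] X.carrier →L[ℂ] Z.carrier)
    (hr : ∀ a b c d r x, T a b c d (X.right r x) = Z.right r (T a b c d x))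
    (hT : ∀ a b c d e x, Z.left a (T b c d e x) - T (a * b) c d e x + T a (b * c) d e x
      - T a b (c * d) e x + T a b c (d * e) x - T a b c d (X.left e x) = 0) :
    ∃ S : A →L[ℂ] A →L[ℂ] A →L[ℂ] X.carrier →L[ℂ] Z.carrier,
      (∀ a b c r x, S a b c (X.right r x) = Z.right r (S a b c x)) ∧
      ∀ a b c d x, T a b c d x = Z.left a (S b c d x) - S (a * b) c d x + S a (b * c) d x
        - S a b (c * d) x + S a b c (X.left d x) := by
  have hf : IsHom (X := X) (Y := Z.N.N.N.N) (rev4 T) := by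
    refine ⟨fun e x => ?_, fun r x => ?_⟩
    · refine N_ext (fun d => N_ext (fun c => N_ext (fun b => N_ext (fun a => ?_))))
      rw [ev_left4, ev_rev4, ev_rev4, ev_rev4, ev_rev4, ev_rev4, ev_rev4]
      have := hT a b c d e x
      have h2 := sub_eq_zero.1 this
      rw [← h2]
      abel
    · refine N_ext (fun d => N_ext (fun c => N_ext (fun b => N_ext (fun a => ?_))))
      rw [ev_right, ev_right, ev_right, ev_right, ev_rev4, ev_rev4, hr]
  obtain ⟨G, hG, hG'⟩ := exists_delta_of_hasResolution3 hX h3 Z (rev4 T) hf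
  refine ⟨-rev4' G, fun a b c r x => ?_, fun a b c d x => ?_⟩
  · show -(rev4' G a b c (X.right r x)) = Z.right r (-(rev4' G a b c x))
    rw [rev4'_apply, rev4'_apply, hG, ev_right, ev_right, ev_right, map_neg]
  · show T a b c d x = Z.left a (-(rev4' G b c d x)) - -(rev4' G (a * b) c d x)
      + -(rev4' G a (b * c) d x) - -(rev4' G a b (c * d) x) + -(rev4' G a b c (X.left d x))
    have h1 : Z.N.N.N.ev d (rev4 T x) = Z.N.N.N.left d (G x) - G (X.left d x) := by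
      rw [← hG', ev_delta]
    rw [← ev_rev4 T, h1, map_sub, map_sub, map_sub, ev_left3, rev4'_apply, rev4'_apply,
      rev4'_apply, rev4'_apply, rev4'_apply, map_neg]
    abel

end Gen4

section

variable {A : Type} [NonUnitalNormedRing A] [NormedSpace ℂ A] [IsScalarTower ℂ A A]
  [SMulCommClass ℂ A A] [CompleteSpace A]

/-- vanishing of the fourth cohomology from a resolution of length three -/
theorem exists_primitive4_plus (h3 : (plusBim A).HasResolution 3) (Z : Bim A A)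
    (T : A →L[ℂ] A →L[ℂ] A →L[ℂ] A →L[ℂ] Z.carrier)
    (hT : ∀ a b c d e, Z.left a (T b c d e) - T (a * b) c d e + T a (b * c) d e
      - T a b (c * d) e + T a b c (d * e) - Z.right e (T a b c d) = 0) :
    ∃ S : A →L[ℂ] A →L[ℂ] A →L[ℂ] Z.carrier, ∀ a b c d,
      T a b c d = Z.left a (S b c d) - S (a * b) c d + S a (b * c) d - S a b (c * d)
        + Z.right d (S a b c) := by
  let T' : A →L[ℂ] A →L[ℂ] A →L[ℂ] A →L[ℂ] (plusBim A).carrier →L[ℂ] Z.carrier :=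
    (compL ℂ A (A →L[ℂ] A →L[ℂ] Z.carrier) (A →L[ℂ] A →L[ℂ] Plus A →L[ℂ] Z.carrier)
      (compL ℂ A (A →L[ℂ] Z.carrier) (A →L[ℂ] Plus A →L[ℂ] Z.carrier)
        (compL ℂ A Z.carrier (Plus A →L[ℂ] Z.carrier) Z.Lam))).comp T
  have hT' : ∀ a b c d x, T' a b c d x = Z.Lam (T a b c d) x := fun a b c d x => rfl
  obtain ⟨S, hS, hS'⟩ := exists_primitive4 plusBim_rproj h3 Z T'
    (fun a b c d r x => by
      rw [hT', hT']
      exact Z.Lam_right _ r x)
    (fun a b c d e x => by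
      rw [hT', hT', hT', hT', hT', hT', left_Lam]
      have e' : Z.Lam (T a b c d) ((plusBim A).left e x) = Z.Lam (Z.right e (T a b c d)) x :=
        Z.Lam_left _ e x
      rw [e']
      have := congrArg (fun z => Z.Lam z x) (hT a b c d e)
      simp only [map_add, map_sub, add_apply, sub_apply, map_zero, zero_apply] at this
      exact this)
  refine ⟨(compL ℂ A (A →L[ℂ] Plus A →L[ℂ] Z.carrier) (A →L[ℂ] Z.carrier)
    (compL ℂ A (Plus A →L[ℂ] Z.carrier) Z.carrier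
      (ContinuousLinearMap.apply ℂ Z.carrier (pone A)))).comp S, fun a b c d => ?_⟩
  have h := hS' a b c d (pone A)
  rw [hT', Lam_one] at h
  have e : (plusBim A).left d (pone A) = (plusBim A).right d (pone A) := by
    show plusLeft d (pone A) = plusRight d (pone A)
    rw [plusLeft_apply, plusRight_apply]
    refine plus_ext rfl ?_
    show (1 : ℂ) • d + d * (0 : A) = (1 : ℂ) • d + (0 : A) * d
    rw [mul_zero, zero_mul]
  rw [e, hS] at h
  exact h

end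

end Bim

end Pool.Agent.Helper53.BanachHomology
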