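import Mathlib
import Pool.Agent.Helper53.HomC

set_option autoImplicit false
set_option maxSynthPendingDepth 3
set_option linter.unusedSectionVars false

namespace Pool.Agent.Helper53.BanachHomology

open ContinuousLinearMap
open Pool.Agent.Helper53.Dim3 (Bimod Van3 Coc3 d2 d2_apply)

namespace Bim

section

variable {A B : Type} [NonUnitalNormedCommRing A] [NormedSpace ℂ A] [IsScalarTower ℂ A A]
  [SMulCommClass ℂ A A] [NonUnitalNormedRing B] [NormedSpace ℂ B]

/-- restriction of the codomain of a trilinear map -/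
noncomputable def cod3 {E Y : Type} [NormedAddCommGroup E] [NormedSpace ℂ E]
    [NormedAddCommGroup Y] [NormedSpace ℂ Y] (N : Submodule ℂ Y)
    (T : E →L[ℂ] E →L[ℂ] E →L[ℂ] Y)
    (h : ∀ x y z, T x y z ∈ N) : E →L[ℂ] E →L[ℂ] E →L[ℂ] N :=
  ((compL ℂ E (funSub E N) (E →L[ℂ] N) (codL E N)).comp (codL E (funSub E N))).comp
      (T.codRestrict (funSub E (funSub E N)) h)

variable (X Z : Bim A B)

/-- elementary tensors in the second kernel module -/
noncomputable def t2 (b c : A) (x : X.carrier) : X.K.K.carrier :=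
  X.K.tn b (X.tn c x)

lemma t2_ext {X : Bim A B} {E : Type} [NormedAddCommGroup E] [NormedSpace ℂ E]
    {f g : X.K.K.carrier →L[ℂ] E}
    (h : ∀ b c x, f (X.t2 b c x) = g (X.t2 b c x)) : f = g := by
  refine tn_ext (fun b y => ?_)
  have h1 : f.comp (X.K.tn b) = g.comp (X.K.tn b) := by
    refine tn_ext (fun c x => ?_)
    exact h b c x
  exact congrArg (fun F : X.K.carrier →L[ℂ] E => F y) h1

lemma t2_right (r : B) (b c : A) (x : X.carrier) :
    X.K.K.right r (X.t2 b c x) = X.t2 b c (X.right r x) := by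
  unfold t2
  rw [tn_right, tn_right]

lemma t2_left (a b c : A) (x : X.carrier) :
    X.K.K.left a (X.t2 b c x) = X.t2 (a * b) c x - X.t2 a (b * c) x
      + X.t2 a b (X.left c x) := by
  unfold t2
  rw [tn_left, tn_left, map_sub]
  abel

/-- the trilinear map of an operator-valued map -/
noncomputable def un2 : (X.K.K.carrier →L[ℂ] Z.carrier) →L[ℂ]
    (A →L[ℂ] A →L[ℂ] X.carrier →L[ℂ] Z.carrier) :=
  (compL ℂ A (X.K.carrier →L[ℂ] Z.carrier) (A →L[ℂ] X.carrier →L[ℂ] Z.carrier)
      (X.un Z.carrier)).comp (X.K.un Z.carrier)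

/-- the operator on the second kernel module defined by a trilinear map -/
noncomputable def li2 : (A →L[ℂ] A →L[ℂ] X.carrier →L[ℂ] Z.carrier) →L[ℂ]
    (X.K.K.carrier →L[ℂ] Z.carrier) :=
  (X.K.li Z.carrier).comp
        (compL ℂ A (A →L[ℂ] X.carrier →L[ℂ] Z.carrier) (X.K.carrier →L[ℂ] Z.carrier)
          (X.li Z.carrier))

lemma li2_t2 (S : A →L[ℂ] A →L[ℂ] X.carrier →L[ℂ] Z.carrier) (b c : A)
    (x : X.carrier) : li2 X Z S (X.t2 b c x) = S b c x := by
  refine (li_apply X.K _ _ _).trans ?_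
  exact li_apply X _ _ _

theorem K2_projective (hA : Van3 A) {X : Bim A B} (hX : X.RProj) : X.K.K.Projective := by
  refine Projective.of_derivation (hX.K.K) ?_
  intro Z D hD hder
  let T0 : A →L[ℂ] A →L[ℂ] A →L[ℂ] X.carrier →L[ℂ] Z.carrier := (un2 X Z).comp D
  have hT0 : ∀ a b c x, T0 a b c x = D a (X.t2 b c x) := fun a b c x => rfl
  let T : A →L[ℂ] A →L[ℂ] A →L[ℂ] rightSub X Z := cod3 (rightSub X Z) T0
    (fun a b c r x => by
      rw [hT0, hT0, ← t2_right]
      exact hD a r _)
  have hT : ∀ a b c x, (T a b c : X.carrier →L[ℂ] Z.carrier) x = D a (X.t2 b c x) :=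
    fun a b c x => rfl
  have hcoc : Coc3 (rightBimod X Z) T := by
    intro a b c d
    refine Subtype.ext (ContinuousLinearMap.ext (fun x => ?_))
    have h := hder a b (X.t2 c d x)
    rw [t2_left, map_add, map_sub] at h
    show Z.left a (D b (X.t2 c d x)) - D (a * b) (X.t2 c d x) + D a (X.t2 (b * c) d x)
      - D a (X.t2 b (c * d) x) + D a (X.t2 b c (X.left d x)) = 0
    rw [h]
    abel
  obtain ⟨S, hS⟩ := hA (rightSub X Z) (rightBimod X Z) T hcoc
  let S' : A →L[ℂ] A →L[ℂ] X.carrier →L[ℂ] Z.carrier :=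
    (compL ℂ A (rightSub X Z) (X.carrier →L[ℂ] Z.carrier) (rightSub X Z).subtypeL).comp S
  have hS' : ∀ b c x, S' b c x = (S b c : X.carrier →L[ℂ] Z.carrier) x :=
    fun b c x => rfl
  have hg : ∀ b c x, li2 X Z S' (X.t2 b c x) = (S b c : X.carrier →L[ℂ] Z.carrier) x :=
    fun b c x => by rw [li2_t2, hS']
  refine ⟨li2 X Z S', ?_, ?_⟩
  · intro r k
    have : (li2 X Z S').comp (X.K.K.right r) = (Z.right r).comp (li2 X Z S') :=
      t2_ext (fun b c x => by
        rw [comp_apply, comp_apply, t2_right, hg, hg]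
        exact (S b c).2 r x)
    exact congrArg (fun F : X.K.K.carrier →L[ℂ] Z.carrier => F k) this
  · intro a k
    have : D a = (Z.left a).comp (li2 X Z S') - (li2 X Z S').comp (X.K.K.left a) :=
      t2_ext (fun b c x => by
        rw [sub_apply, comp_apply, comp_apply, t2_left, map_add, map_sub, hg, hg, hg,
          hg, ← hT, hS, d2_apply]
        show Z.left a ((S b c : X.carrier →L[ℂ] Z.carrier) x)
          - (S (a * b) c : X.carrier →L[ℂ] Z.carrier) x
          + (S a (b * c) : X.carrier →L[ℂ] Z.carrier) x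
          - (S a b : X.carrier →L[ℂ] Z.carrier) (X.left c x) = _
        abel)
    exact congrArg (fun F : X.K.K.carrier →L[ℂ] Z.carrier => F k) this

/-- TARGET -/
theorem hasResolution_two (hA : Van3 A) {X : Bim A B} (hX : X.RProj) : X.HasResolution 2 :=
  ((K2_projective hA hX).hasResolution.step hX.K).step hX

end

end Bim

end Pool.Agent.Helper53.BanachHomology
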