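import Mathlib
import Pool.Agent.Helper53.Dim3D

set_option autoImplicit false
set_option maxSynthPendingDepth 3
set_option linter.unusedSectionVars false

namespace Pool.Agent.Helper53.Dim3

open Filter Topology Finset
open scoped BoundedContinuousFunction

variable {A C F E : Type}
  [NonUnitalNormedCommRing A] [NormedSpace ℂ A] [IsScalarTower ℂ A A] [SMulCommClass ℂ A A]
  [NonUnitalNormedCommRing C] [NormedSpace ℂ C] [IsScalarTower ℂ C C] [SMulCommClass ℂ C C]
  [NonUnitalNormedCommRing F] [NormedSpace ℂ F] [IsScalarTower ℂ F F] [SMulCommClass ℂ F F]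
  [NonUnitalNormedCommRing E] [NormedSpace ℂ E] [IsScalarTower ℂ E E] [SMulCommClass ℂ E E]

/-- the block structure -/
structure Blocks (A C F E : Type)
    [NonUnitalNormedCommRing A] [NormedSpace ℂ A]
    [NonUnitalNormedCommRing C] [NormedSpace ℂ C]
    [NonUnitalNormedCommRing F] [NormedSpace ℂ F]
    [NonUnitalNormedCommRing E] [NormedSpace ℂ E] where
  jC : C →L[ℂ] A
  jC_mul : ∀ x y, jC (x * y) = jC x * jC y
  πC : A →L[ℂ] C
  πC_jC : ∀ x, πC (jC x) = x
  jE : E →L[ℂ] F
  jE_mul : ∀ x y, jE (x * y) = jE x * jE y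
  πE : F →L[ℂ] E
  πE_jE : ∀ x, πE (jE x) = x
  K : ℝ
  χ : ℕ → A
  diag : Diag χ (ContinuousLinearMap.id ℂ A) K
  χC : ∀ k, ∃ c, χ k = jC c
  M : ℝ
  χ_le : ∀ k, ‖χ k‖ ≤ M
  ι : ℕ → F →L[ℂ] A
  ι_mul : ∀ k x y, ι k (x * y) = ι k x * ι k y
  ι_le : ∀ k, ‖ι k‖ ≤ M
  pr : ℕ → A →L[ℂ] F
  pr_mul : ∀ k x y, pr k (x * y) = pr k x * pr k y
  pr_le : ∀ k, ‖pr k‖ ≤ M
  ι_pr : ∀ k a, ι k (pr k a) = χ k * a
  ι_jE : ∀ k x, ∃ c, ι k (jE x) = jC c
  d : F
  u : F →L[ℂ] ℂ
  dec : ∀ f, f = jE (πE f) + u f • d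
  sum_u : ∀ a (s : Finset ℕ), ∑ k ∈ s, ‖u (pr k a)‖ ≤ M * ‖a‖

variable {Z : Type} [NormedAddCommGroup Z] [NormedSpace ℂ Z] [CompleteSpace Z] {m : Bimod A Z}

/-- first reduction: the cocycle vanishes on `C` -/
lemma kill_C (b : Blocks A C F E) (hC : Van4 C)
    {T : A →L[ℂ] A →L[ℂ] A →L[ℂ] A →L[ℂ] Z} (hT : Coc4 m T) :
    ∃ S, ∀ x y z w, (T + d3 m S) (b.jC x) (b.jC y) (b.jC z) (b.jC w) = 0 := by
  set TC : C →L[ℂ] C →L[ℂ] C →L[ℂ] C →L[ℂ] Z :=
    up b.jC (up b.jC (up b.jC (up b.jC (ContinuousLinearMap.id ℂ Z)))) T with hTC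
  have h1 : Coc4 (m.pull b.jC b.jC_mul) TC := by
    intro x y z w v
    have := hT (b.jC x) (b.jC y) (b.jC z) (b.jC w) (b.jC v)
    simp only [← b.jC_mul] at this
    exact this
  obtain ⟨S0, hS0⟩ := hC Z (m.pull b.jC b.jC_mul) TC h1
  set S : A →L[ℂ] A →L[ℂ] A →L[ℂ] Z :=
    up b.πC (up b.πC (up b.πC (ContinuousLinearMap.id ℂ Z))) S0 with hS
  have hSa : ∀ x y z, S x y z = S0 (b.πC x) (b.πC y) (b.πC z) := fun _ _ _ => rfl
  refine ⟨-S, fun x y z w => ?_⟩
  have h2 : TC x y z w = d3 (m.pull b.jC b.jC_mul) S0 x y z w := by rw [hS0]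
  have h3 : TC x y z w = T (b.jC x) (b.jC y) (b.jC z) (b.jC w) := rfl
  rw [h3, d3_apply] at h2
  rw [d3_neg]
  simp only [add_apply, neg_apply, d3_apply, ← b.jC_mul, hSa, b.πC_jC]
  rw [h2]
  exact add_neg_cancel _

/-- second reduction: linearity in the last variable -/
lemma right_lin {K : ℝ} {ι : Type*} {χ : ι → A} (D : Diag χ (ContinuousLinearMap.id ℂ A) K)
    {T : A →L[ℂ] A →L[ℂ] A →L[ℂ] A →L[ℂ] Z} (hT : Coc4 m T) (B : Set A)
    (hB : ∀ i, χ i ∈ B) (hBm : ∀ a ∈ B, ∀ b ∈ B, a * b ∈ B)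
    (hTB : ∀ a ∈ B, ∀ b ∈ B, ∀ c ∈ B, ∀ e ∈ B, T a b c e = 0) :
    ∃ S, (∀ a ∈ B, ∀ b ∈ B, ∀ c ∈ B, ∀ e ∈ B, (T + d3 m S) a b c e = 0) ∧
      ∀ a b c j e, (T + d3 m S) a b c (χ j * e) = m.right (χ j) ((T + d3 m S) a b c e) := by
  set rho : (A →L[ℂ] A →L[ℂ] Z) →L[ℂ] (A →L[ℂ] Z) :=
    (D.tau Z).comp
      (ContinuousLinearMap.flipₗᵢ ℂ A A Z).toContinuousLinearEquiv.toContinuousLinearMap with hrho
  set S : A →L[ℂ] A →L[ℂ] A →L[ℂ] Z :=
    (ContinuousLinearMap.compL ℂ A (A →L[ℂ] A →L[ℂ] Z) (A →L[ℂ] Z) rho).comp T with hS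
  have hsum : ∀ a b c, HasSum (fun i => T a b (χ i * c) (χ i)) (S a b c) := fun a b c =>
    hasSum_t D (T a b).flip c
  have key : ∀ a b c e, HasSum (fun i => m.right (χ i) (T a b c (χ i * e)))
      ((T + d3 m S) a b c e - m.right e (S a b c)) := by
    intro a b c e
    have h1 := (m.left a).hasSum (hsum b c e)
    have h2 := hsum (a * b) c e
    have h3 := hsum a (b * c) e
    have h4 := hsum a b (c * e)
    have h5 := hasSum_p' D (T a b c) e
    have h := (((h1.sub h2).add h3).sub h4).add h5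
    convert h using 1
    · funext i
      have k := hT a b c (χ i * e) (χ i)
      rw [mul_comm (χ i * e) (χ i), pp D, mul_left_comm c (χ i) e] at k
      linear_combination (norm := abel) -k
    · rw [add_apply, add_apply, add_apply, add_apply, d3_apply]
      abel
  refine ⟨S, fun a ha b hb c hc e he => ?_, fun a b c j e => ?_⟩
  · have hz : ∀ x ∈ B, ∀ y ∈ B, ∀ z ∈ B, S x y z = 0 := by
      intro x hx y hy z hz
      refine (hsum x y z).unique ?_
      convert hasSum_zero (α := Z) (β := ι) using 1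
      funext i
      exact hTB x hx y hy _ (hBm _ (hB i) z hz) _ (hB i)
    simp only [add_apply, d3_apply]
    rw [hTB a ha b hb c hc e he, hz b hb c hc e he, hz _ (hBm a ha b hb) c hc e he,
      hz a ha _ (hBm b hb c hc) e he, hz a ha b hb _ (hBm c hc e he), hz a ha b hb c hc,
      map_zero, map_zero]
    simp
  · have h1 := key a b c (χ j * e)
    have h2 := (m.right (χ j)).hasSum (key a b c e)
    have e1 := single_of_hasSum h1 j (fun i hi => by rw [pq D hi]; simp)
    have e2 := single_of_hasSum h2 j (fun i hi => by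
      rw [← m.right_mul, D.orth i j hi]; simp)
    rw [pp D] at e1
    rw [← m.right_mul, D.idem, map_sub, ← m.right_mul, mul_comm e] at e2
    exact sub_left_injective (e1.trans e2.symm)

/-- fully modular 4-cochains -/
structure Mod4 (m : Bimod A Z) {ι : Type*} (p : ι → A)
    (T : A →L[ℂ] A →L[ℂ] A →L[ℂ] A →L[ℂ] Z) : Prop where
  ll : ∀ j a b c e, T (p j * a) b c e = m.left (p j) (T a b c e)
  b12 : ∀ j a b c e, T (p j * a) b c e = T a (p j * b) c e
  b23 : ∀ j a b c e, T a (p j * b) c e = T a b (p j * c) e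
  b34 : ∀ j a b c e, T a b (p j * c) e = T a b c (p j * e)
  rl : ∀ j a b c e, T a b c (p j * e) = m.right (p j) (T a b c e)

/-- third reduction: full modularity -/
lemma full_mod {K : ℝ} {ι : Type*} {χ : ι → A} (D : Diag χ (ContinuousLinearMap.id ℂ A) K)
    {T : A →L[ℂ] A →L[ℂ] A →L[ℂ] A →L[ℂ] Z} (hT : Coc4 m T) (B : Set A)
    (hB : ∀ i, χ i ∈ B) (hBm : ∀ a ∈ B, ∀ b ∈ B, a * b ∈ B)
    (hTB : ∀ a ∈ B, ∀ b ∈ B, ∀ c ∈ B, ∀ e ∈ B, T a b c e = 0) :
    ∃ S, (∀ a ∈ B, ∀ b ∈ B, ∀ c ∈ B, ∀ e ∈ B, (T + d3 m S) a b c e = 0) ∧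
      Mod4 m χ (T + d3 m S) := by
  obtain ⟨S1, h1, h2⟩ := right_lin D hT B hB hBm hTB
  set T1 := T + d3 m S1 with hT1
  have c1 : Coc4 m T1 := hT.add (coc_d3 m S1)
  let P1 : SubPair m.shift χ :=
    { B := Set.univ
      V :=
        { carrier := {φ | ∀ j e, φ (χ j * e) = m.right (χ j) (φ e)}
          add_mem' := fun {φ ψ} h h' j e => by
            rw [add_apply, add_apply, h j e, h' j e, map_add]
          zero_mem' := fun j e => by simp
          smul_mem' := fun c φ h j e => by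
            rw [smul_apply, smul_apply, h j e, map_smul] }
      closed := by
        show IsClosed {φ : A →L[ℂ] Z | ∀ j e, φ (χ j * e) = m.right (χ j) (φ e)}
        simp only [Set.ofPred_forall]
        refine isClosed_iInter (fun j => isClosed_iInter (fun e => ?_))
        exact isClosed_eq ((ContinuousLinearMap.apply ℂ Z (χ j * e)).continuous)
          ((m.right (χ j)).continuous.comp (ContinuousLinearMap.apply ℂ Z e).continuous)
      p_mem := fun _ => Set.mem_univ _
      mul_mem := fun _ _ _ _ => Set.mem_univ _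
      left_mem := fun a _ φ h j e => by
        rw [Bimod.shift_left, Bimod.shift_left, h j e, m.left_right]
      right_mem := fun a _ φ h j e => by
        rw [Bimod.shift_right, Bimod.shift_right, mul_left_comm a (χ j) e, h j (a * e), map_sub,
          mul_comm (χ j) e, m.right_mul] }
  let P2 : SubPair m.shift χ :=
    { B := B
      V :=
        { carrier := {φ | ∀ e ∈ B, φ e = 0}
          add_mem' := fun {φ ψ} h h' e he => by
            rw [add_apply, h e he, h' e he, add_zero]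
          zero_mem' := fun e he => by simp
          smul_mem' := fun c φ h e he => by
            rw [smul_apply, h e he, smul_zero] }
      closed := by
        show IsClosed {φ : A →L[ℂ] Z | ∀ e ∈ B, φ e = 0}
        simp only [Set.ofPred_forall]
        refine isClosed_iInter (fun e => isClosed_iInter (fun _ => ?_))
        exact isClosed_eq ((ContinuousLinearMap.apply ℂ Z e).continuous) continuous_const
      p_mem := hB
      mul_mem := hBm
      left_mem := fun a _ φ h e he => by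
        rw [Bimod.shift_left, h e he, map_zero]
      right_mem := fun a ha φ h e he => by
        rw [Bimod.shift_right, h _ (hBm a ha e he), h a ha, map_zero, sub_zero] }
  obtain ⟨S2, h3, h4⟩ := M3 (m := m.shift) D ((coc4_iff m T1).1 c1)
  have k1 : P1.Maps3 T1 := fun a _ b _ c _ j e => h2 a b c j e
  have k2 : P2.Maps3 T1 := fun a ha b hb c hc e he => h1 a ha b hb c hc e he
  have l1 := P1.maps_add k1 (P1.maps_d2 (h3 P1 k1))
  have l2 := P2.maps_add k2 (P2.maps_d2 (h3 P2 k2))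
  set T2 := T1 + d2 m.shift S2 with hT2
  have r1 : ∀ j a b c e, T2 a b c (χ j * e) = m.right (χ j) (T2 a b c e) := fun j a b c e =>
    l1 a (Set.mem_univ _) b (Set.mem_univ _) c (Set.mem_univ _) j e
  have r2 : ∀ j a b c e, T2 a b (χ j * c) e = T2 a b c (χ j * e) - m.right e (T2 a b c (χ j)) :=
    fun j a b c e => congrArg (fun f : A →L[ℂ] Z => f e) (h4.rl j a b c)
  have r3 : ∀ l a b c, T2 a b c (χ l) = 0 := by
    intro l a b c
    have q : ∀ j, T2 a b (χ j * c) (χ l) = 0 := by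
      intro j
      rw [r2]
      by_cases hjl : j = l
      · subst hjl
        rw [r1, sub_self]
      · rw [D.orth j l hjl, map_zero, zero_sub, neg_eq_zero]
        have : T2 a b c (χ j) = m.right (χ j) (T2 a b c (χ j)) := by
          conv_lhs => rw [← D.idem j]
          rw [r1]
        rw [this, ← m.right_mul, D.orth j l hjl, map_zero, zero_apply]
    have h5 := (hasSum_p' D (T2 a b) c).ev (χ l)
    refine h5.unique ?_
    convert hasSum_zero (α := Z) (β := ι) using 1
    funext j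
    exact q j
  refine ⟨S1 + S2, ?_, ?_⟩
  · rw [d3_add, ← add_assoc, ← hT1]
    exact fun a ha b hb c hc e he => l2 a ha b hb c hc e he
  · rw [d3_add, ← add_assoc, ← hT1]
    exact
      { ll := fun j a b c e => congrArg (fun f : A →L[ℂ] Z => f e) (h4.ll j a b c)
        b12 := fun j a b c e => congrArg (fun f : A →L[ℂ] Z => f e) (h4.b12 j a b c)
        b23 := fun j a b c e => congrArg (fun f : A →L[ℂ] Z => f e) (h4.b23 j a b c)
        b34 := fun j a b c e => by
          have := r2 j a b c e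
          rw [r3, map_zero, sub_zero] at this
          exact this
        rl := r1 }

end Pool.Agent.Helper53.Dim3
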