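import Mathlib
import Pool.Agent.Helper53.Dim3E

set_option autoImplicit false
set_option maxSynthPendingDepth 3
set_option linter.unusedSectionVars false

namespace Pool.Agent.Helper53.Dim3

open Filter Topology Finset
open scoped BoundedContinuousFunction

variable {A C F E : Type}
  [NonUnitalNormedCommRing A] [NormedSpace ℂ A] [IsScalarTower ℂ A A] [SMulCommClass ℂ A A]
  [NonUnitalNormedCommRing C] [NormedSpace ℂ C] [IsScalarTower ℂ C C] [SMulCommClass ℂ C C]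
  [NonUnitalNormedCommRing F] [NormedSpace ℂ F] [IsScalarTower ℂ F F] [SMulCommClass ℂ F F]
  [NonUnitalNormedCommRing E] [NormedSpace ℂ E] [IsScalarTower ℂ E E] [SMulCommClass ℂ E E]

variable {Z : Type} [NormedAddCommGroup Z] [NormedSpace ℂ Z] [CompleteSpace Z] {m : Bimod A Z}

lemma norm_pb4_le (φ : F →L[ℂ] A) (M : ℝ) (h : ‖φ‖ ≤ M)
    (T : A →L[ℂ] A →L[ℂ] A →L[ℂ] A →L[ℂ] Z) :
    ‖up φ (up φ (up φ (up φ (ContinuousLinearMap.id ℂ Z)))) T‖ ≤ M * (M * (M * (M * 1))) * ‖T‖ := by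
  have hM : 0 ≤ M := (norm_nonneg _).trans h
  refine ((up φ (up φ (up φ (up φ (ContinuousLinearMap.id ℂ Z))))).le_opNorm T).trans
    (mul_le_mul_of_nonneg_right ?_ (norm_nonneg _))
  have h1 : ‖up φ (ContinuousLinearMap.id ℂ Z)‖ ≤ M * 1 :=
    (norm_up_le _ _).trans (mul_le_mul h ContinuousLinearMap.norm_id_le (norm_nonneg _) hM)
  have h2 : ‖up φ (up φ (ContinuousLinearMap.id ℂ Z))‖ ≤ M * (M * 1) :=
    (norm_up_le _ _).trans (mul_le_mul h h1 (norm_nonneg _) hM)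
  have h3 : ‖up φ (up φ (up φ (ContinuousLinearMap.id ℂ Z)))‖ ≤ M * (M * (M * 1)) :=
    (norm_up_le _ _).trans (mul_le_mul h h2 (norm_nonneg _) hM)
  exact (norm_up_le _ _).trans (mul_le_mul h h3 (norm_nonneg _) hM)

lemma Blocks.M_nonneg (b : Blocks A C F E) : 0 ≤ b.M := (norm_nonneg _).trans (b.ι_le 0)

/-- solution on the blocks -/
lemma block_solution (b : Blocks A C F E) (hF : Van4 F) (hE : Van3 E)
    {T : A →L[ℂ] A →L[ℂ] A →L[ℂ] A →L[ℂ] Z} (hT : Coc4 m T)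
    (h0 : ∀ x y z w, T (b.jC x) (b.jC y) (b.jC z) (b.jC w) = 0) :
    ∃ S : F →L[ℂ] F →L[ℂ] F →L[ℂ] (ℕ →ᵇ Z),
      (∀ x y z w k, T (b.ι k x) (b.ι k y) (b.ι k z) (b.ι k w)
        = m.left (b.ι k x) (S y z w k) - S (x * y) z w k + S x (y * z) w k - S x y (z * w) k
          + m.right (b.ι k w) (S x y z k)) ∧
      ∀ x y z, S (b.jE x) (b.jE y) (b.jE z) = 0 := by
  set fam : ℕ →ᵇ (F →L[ℂ] F →L[ℂ] F →L[ℂ] F →L[ℂ] Z) :=
    seqMk (fun k => up (b.ι k) (up (b.ι k) (up (b.ι k) (up (b.ι k) (ContinuousLinearMap.id ℂ Z)))) T)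
      _ (fun k => norm_pb4_le (b.ι k) b.M (b.ι_le k) T) with hfam
  set TT := famL4 F Z fam with hTT
  have hTTa : ∀ x y z w k, TT x y z w k = T (b.ι k x) (b.ι k y) (b.ι k z) (b.ι k w) :=
    fun _ _ _ _ _ => rfl
  set mW := m.seq b.ι b.M b.ι_le b.ι_mul with hmW
  have hl : ∀ x (w : ℕ →ᵇ Z) k, mW.left x w k = m.left (b.ι k x) (w k) := fun _ _ _ => rfl
  have hr : ∀ x (w : ℕ →ᵇ Z) k, mW.right x w k = m.right (b.ι k x) (w k) := fun _ _ _ => rfl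
  have hc : Coc4 mW TT := by
    intro x y z w v
    ext k
    have := hT (b.ι k x) (b.ι k y) (b.ι k z) (b.ι k w) (b.ι k v)
    simp only [← b.ι_mul] at this
    exact this
  obtain ⟨S0, hS0⟩ := hF (ℕ →ᵇ Z) mW TT hc
  set t : E →L[ℂ] E →L[ℂ] E →L[ℂ] (ℕ →ᵇ Z) :=
    up b.jE (up b.jE (up b.jE (ContinuousLinearMap.id ℂ (ℕ →ᵇ Z)))) S0 with ht
  have hta : ∀ x y z, t x y z = S0 (b.jE x) (b.jE y) (b.jE z) := fun _ _ _ => rfl
  have hct : Coc3 (mW.pull b.jE b.jE_mul) t := by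
    intro x y z w
    have h1 : TT (b.jE x) (b.jE y) (b.jE z) (b.jE w) = 0 := by
      ext k
      rw [hTTa]
      obtain ⟨c1, e1⟩ := b.ι_jE k x
      obtain ⟨c2, e2⟩ := b.ι_jE k y
      obtain ⟨c3, e3⟩ := b.ι_jE k z
      obtain ⟨c4, e4⟩ := b.ι_jE k w
      rw [e1, e2, e3, e4, h0]
      rfl
    rw [hS0, d3_apply] at h1
    simp only [hta, b.jE_mul]
    exact h1
  obtain ⟨r, hr'⟩ := hE (ℕ →ᵇ Z) (mW.pull b.jE b.jE_mul) t hct
  set r' : F →L[ℂ] F →L[ℂ] (ℕ →ᵇ Z) :=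
    up b.πE (up b.πE (ContinuousLinearMap.id ℂ (ℕ →ᵇ Z))) r with hr''
  have hr'a : ∀ x y, r' x y = r (b.πE x) (b.πE y) := fun _ _ => rfl
  have hdd : d3 mW (d2 mW r') = 0 := by
    ext x y z w : 4
    rw [d3_apply]
    exact coc_d2 mW r' x y z w
  refine ⟨S0 + -d2 mW r', fun x y z w k => ?_, fun x y z => ?_⟩
  · have h1 : TT = d3 mW (S0 + -d2 mW r') := by
      rw [d3_add, d3_neg, hdd, neg_zero, add_zero, hS0]
    have h2 : TT x y z w k = d3 mW (S0 + -d2 mW r') x y z w k := by rw [h1]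
    rw [hTTa, d3_apply] at h2
    exact h2
  · have h1 : t x y z = d2 (mW.pull b.jE b.jE_mul) r x y z := by rw [hr']
    rw [hta, d2_apply] at h1
    simp only [add_apply, neg_apply, d2_apply, hr'a, ← b.jE_mul, b.πE_jE]
    rw [h1]
    exact add_neg_cancel _

/-- the sum of the solutions on the blocks -/
lemma blocks_final (b : Blocks A C F E) (hF : Van4 F) (hE : Van3 E)
    {T : A →L[ℂ] A →L[ℂ] A →L[ℂ] A →L[ℂ] Z} (hT : Coc4 m T)
    (h0 : ∀ x y z w, T (b.jC x) (b.jC y) (b.jC z) (b.jC w) = 0) (hM : Mod4 m b.χ T) :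
    ∃ S, T = d3 m S := by
  obtain ⟨S', h1, h2⟩ := block_solution b hF hE hT h0
  have hM0 := b.M_nonneg
  set N : ℝ := ‖b.jE‖ * ‖b.πE‖ with hN
  have hN0 : 0 ≤ N := by positivity
  have hj : ∀ x, ‖b.jE (b.πE x)‖ ≤ N * ‖x‖ := by
    intro x
    calc ‖b.jE (b.πE x)‖ ≤ ‖b.jE‖ * (‖b.πE‖ * ‖x‖) :=
          (b.jE.le_opNorm _).trans (mul_le_mul_of_nonneg_left (b.πE.le_opNorm _) (norm_nonneg _))
      _ = _ := by ring
  have h3 : ∀ x y z, S' x y z = b.u x • S' b.d y z + b.u y • S' (b.jE (b.πE x)) b.d z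
      + b.u z • S' (b.jE (b.πE x)) (b.jE (b.πE y)) b.d := by
    intro x y z
    have e1 : S' x y z = S' (b.jE (b.πE x)) y z + b.u x • S' b.d y z := by
      conv_lhs => rw [b.dec x]
      simp only [map_add, map_smul, add_apply, smul_apply]
    have e2 : S' (b.jE (b.πE x)) y z = S' (b.jE (b.πE x)) (b.jE (b.πE y)) z
        + b.u y • S' (b.jE (b.πE x)) b.d z := by
      conv_lhs => rw [b.dec y]
      simp only [map_add, map_smul, add_apply, smul_apply]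
    have e3 : S' (b.jE (b.πE x)) (b.jE (b.πE y)) z
        = b.u z • S' (b.jE (b.πE x)) (b.jE (b.πE y)) b.d := by
      conv_lhs => rw [b.dec z]
      simp only [map_add, map_smul]
      rw [h2, zero_add]
    rw [e1, e2, e3]
    abel
  set c0 : ℝ := ‖S'‖ * ‖b.d‖ * (1 + N + N * N) with hc0
  have hn3 : ∀ x y z, ‖S' x y z‖ ≤ ‖S'‖ * ‖x‖ * ‖y‖ * ‖z‖ := by
    intro x y z
    refine ((S' x y).le_opNorm z).trans ?_
    refine mul_le_mul_of_nonneg_right ?_ (norm_nonneg _)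
    exact ((S' x).le_opNorm y).trans (mul_le_mul_of_nonneg_right (S'.le_opNorm x) (norm_nonneg _))
  have hbd : ∀ x y z, ‖S' x y z‖ ≤ c0 * (‖b.u x‖ * ‖y‖ * ‖z‖ + ‖x‖ * ‖b.u y‖ * ‖z‖
      + ‖x‖ * ‖y‖ * ‖b.u z‖) := by
    intro x y z
    rw [h3]
    refine (norm_add₃_le).trans ?_
    rw [norm_smul, norm_smul, norm_smul]
    have k1 := hn3 b.d y z
    have k2 := hn3 (b.jE (b.πE x)) b.d z
    have k3 := hn3 (b.jE (b.πE x)) (b.jE (b.πE y)) b.d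
    have k2' : ‖S' (b.jE (b.πE x)) b.d z‖ ≤ ‖S'‖ * (N * ‖x‖) * ‖b.d‖ * ‖z‖ :=
      k2.trans (by have := hj x; gcongr)
    have k3' : ‖S' (b.jE (b.πE x)) (b.jE (b.πE y)) b.d‖
        ≤ ‖S'‖ * (N * ‖x‖) * (N * ‖y‖) * ‖b.d‖ :=
      k3.trans (by have := hj x; have := hj y; gcongr)
    calc _ ≤ ‖b.u x‖ * (‖S'‖ * ‖b.d‖ * ‖y‖ * ‖z‖)
          + ‖b.u y‖ * (‖S'‖ * (N * ‖x‖) * ‖b.d‖ * ‖z‖)
          + ‖b.u z‖ * (‖S'‖ * (N * ‖x‖) * (N * ‖y‖) * ‖b.d‖) := by gcongr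
      _ = (‖S'‖ * ‖b.d‖ * 1) * (‖b.u x‖ * ‖y‖ * ‖z‖)
          + (‖S'‖ * ‖b.d‖ * N) * (‖x‖ * ‖b.u y‖ * ‖z‖)
          + (‖S'‖ * ‖b.d‖ * (N * N)) * (‖x‖ * ‖y‖ * ‖b.u z‖) := by ring
      _ ≤ c0 * (‖b.u x‖ * ‖y‖ * ‖z‖) + c0 * (‖x‖ * ‖b.u y‖ * ‖z‖)
          + c0 * (‖x‖ * ‖y‖ * ‖b.u z‖) := by
          have i1 : ‖S'‖ * ‖b.d‖ * 1 ≤ c0 := by rw [hc0]; gcongr; nlinarith
          have i2 : ‖S'‖ * ‖b.d‖ * N ≤ c0 := by rw [hc0]; gcongr; nlinarith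
          have i3 : ‖S'‖ * ‖b.d‖ * (N * N) ≤ c0 := by rw [hc0]; gcongr; nlinarith
          gcongr
      _ = _ := by ring
  have hc00 : 0 ≤ c0 := by rw [hc0]; positivity
  set Φ : ℕ → (ℕ →ᵇ Z) →L[ℂ] Z := fun k =>
    (m.left (b.χ k)).comp ((m.right (b.χ k)).comp (BoundedContinuousFunction.evalCLM ℂ k)) with hΦ
  set B : ℕ → A →L[ℂ] A →L[ℂ] A →L[ℂ] Z := fun k =>
    up (b.pr k) (up (b.pr k) (up (b.pr k) (Φ k))) S' with hB
  have hBa : ∀ k x y z, B k x y z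
      = m.left (b.χ k) (m.right (b.χ k) (S' (b.pr k x) (b.pr k y) (b.pr k z) k)) :=
    fun _ _ _ _ => rfl
  set c1 : ℝ := (‖m.left‖ * b.M) * ((‖m.right‖ * b.M) * (c0 * b.M ^ 2)) with hc1
  have hc10 : 0 ≤ c1 := by rw [hc1]; positivity
  have hBn : ∀ x y z (s : Finset ℕ), ∑ k ∈ s, ‖B k x y z‖ ≤ (3 * c1 * b.M) * ‖x‖ * ‖y‖ * ‖z‖ := by
    intro x y z s
    have hpr : ∀ k a, ‖b.pr k a‖ ≤ b.M * ‖a‖ := fun k a => (b.pr k).le_of_opNorm_le (b.pr_le k) a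
    have k1 : ∀ k ∈ s, ‖B k x y z‖ ≤ c1 * (‖b.u (b.pr k x)‖ * (‖y‖ * ‖z‖)
        + ‖b.u (b.pr k y)‖ * (‖x‖ * ‖z‖) + ‖b.u (b.pr k z)‖ * (‖x‖ * ‖y‖)) := by
      intro k _
      rw [hBa]
      have a1 : ‖m.left (b.χ k)‖ ≤ ‖m.left‖ * b.M :=
        (m.left.le_opNorm _).trans (mul_le_mul_of_nonneg_left (b.χ_le k) (norm_nonneg _))
      have a2 : ‖m.right (b.χ k)‖ ≤ ‖m.right‖ * b.M :=
        (m.right.le_opNorm _).trans (mul_le_mul_of_nonneg_left (b.χ_le k) (norm_nonneg _))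
      have a3 : ‖S' (b.pr k x) (b.pr k y) (b.pr k z) k‖
          ≤ ‖S' (b.pr k x) (b.pr k y) (b.pr k z)‖ :=
        BoundedContinuousFunction.norm_coe_le_norm _ _
      have a4 := hbd (b.pr k x) (b.pr k y) (b.pr k z)
      have a5 : ‖b.u (b.pr k x)‖ * ‖b.pr k y‖ * ‖b.pr k z‖ + ‖b.pr k x‖ * ‖b.u (b.pr k y)‖
          * ‖b.pr k z‖ + ‖b.pr k x‖ * ‖b.pr k y‖ * ‖b.u (b.pr k z)‖
          ≤ ‖b.u (b.pr k x)‖ * (b.M * ‖y‖) * (b.M * ‖z‖) + (b.M * ‖x‖) * ‖b.u (b.pr k y)‖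
          * (b.M * ‖z‖) + (b.M * ‖x‖) * (b.M * ‖y‖) * ‖b.u (b.pr k z)‖ := by
        have := hpr k x; have := hpr k y; have := hpr k z
        gcongr
      calc _ ≤ ‖m.left (b.χ k)‖ * (‖m.right (b.χ k)‖ * ‖S' (b.pr k x) (b.pr k y) (b.pr k z) k‖) :=
            ((m.left _).le_opNorm _).trans
              (mul_le_mul_of_nonneg_left ((m.right _).le_opNorm _) (norm_nonneg _))
        _ ≤ (‖m.left‖ * b.M) * ((‖m.right‖ * b.M) * (c0 * (‖b.u (b.pr k x)‖ * (b.M * ‖y‖)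
          * (b.M * ‖z‖) + (b.M * ‖x‖) * ‖b.u (b.pr k y)‖
          * (b.M * ‖z‖) + (b.M * ‖x‖) * (b.M * ‖y‖) * ‖b.u (b.pr k z)‖))) := by
            have a6 := a3.trans (a4.trans (mul_le_mul_of_nonneg_left a5 hc00))
            gcongr
        _ = _ := by rw [hc1]; ring
    refine (sum_le_sum k1).trans ?_
    rw [← mul_sum, sum_add_distrib, sum_add_distrib, ← sum_mul, ← sum_mul, ← sum_mul]
    have s1 := b.sum_u x s
    have s2 := b.sum_u y s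
    have s3 := b.sum_u z s
    calc _ ≤ c1 * ((b.M * ‖x‖) * (‖y‖ * ‖z‖) + (b.M * ‖y‖) * (‖x‖ * ‖z‖)
          + (b.M * ‖z‖) * (‖x‖ * ‖y‖)) := by gcongr
      _ = _ := by ring
  obtain ⟨S, hS⟩ := exists_sum3 B (3 * c1 * b.M) (by positivity) hBn
  refine ⟨S, ?_⟩
  ext x y z w
  have g1 : HasSum (fun k => m.left x (B k y z w) - B k (x * y) z w + B k x (y * z) w
      - B k x y (z * w) + m.right w (B k x y z)) (d3 m S x y z w) := by
    rw [d3_apply]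
    exact (((((m.left x).hasSum (hS y z w)).sub (hS (x * y) z w)).add (hS x (y * z) w)).sub
      (hS x y (z * w))).add ((m.right w).hasSum (hS x y z))
  have g2 := ((((T.hasSum (hasSum_p b.diag x)).ev y).ev z).ev w)
  refine g2.unique ?_
  convert g1 using 1
  funext k
  have e1 : T (b.χ k * x) y z w
      = T (b.χ k * x) (b.χ k * y) (b.χ k * z) (b.χ k * w) := by
    have q := b.diag.idem k
    calc T (b.χ k * x) y z w = T (b.χ k * (b.χ k * x)) y z w := by rw [pp b.diag]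
      _ = T (b.χ k * x) (b.χ k * y) z w := hM.b12 _ _ _ _ _
      _ = T (b.χ k * x) (b.χ k * (b.χ k * y)) z w := by rw [pp b.diag]
      _ = T (b.χ k * x) (b.χ k * y) (b.χ k * z) w := hM.b23 _ _ _ _ _
      _ = T (b.χ k * x) (b.χ k * y) (b.χ k * (b.χ k * z)) w := by rw [pp b.diag]
      _ = _ := hM.b34 _ _ _ _ _
  have e2 := h1 (b.pr k x) (b.pr k y) (b.pr k z) (b.pr k w) k
  rw [b.ι_pr, b.ι_pr, b.ι_pr, b.ι_pr] at e2
  have e3 : m.left (b.χ k) (m.right (b.χ k)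
      (T (b.χ k * x) (b.χ k * y) (b.χ k * z) (b.χ k * w)))
      = T (b.χ k * x) (b.χ k * y) (b.χ k * z) (b.χ k * w) := by
    rw [← hM.rl, pp b.diag, ← hM.ll, pp b.diag]
  have e4 : ∀ v, m.left x (m.left (b.χ k) (m.right (b.χ k) v))
      = m.left (b.χ k) (m.right (b.χ k) (m.left (b.χ k * x) v)) := by
    intro v
    rw [← m.left_right (b.χ k * x), ← m.left_mul, ← m.left_mul, pp b.diag, mul_comm x]
  have e5 : ∀ v, m.right w (m.left (b.χ k) (m.right (b.χ k) v))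
      = m.left (b.χ k) (m.right (b.χ k) (m.right (b.χ k * w) v)) := by
    intro v
    rw [← m.left_right, ← m.right_mul, ← m.right_mul, mul_comm (b.χ k * w), pp b.diag]
  rw [e1, ← e3, e2]
  simp only [hBa, map_add, map_sub, b.pr_mul, e4, e5]

/-- vanishing of the fourth cohomology of `A` -/
theorem Blocks.van4 (b : Blocks A C F E) (hC : Van4 C) (hF : Van4 F) (hE : Van3 E) : Van4 A := by
  intro Z _ _ _ m T hT
  obtain ⟨S1, h1⟩ := kill_C b hC hT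
  have c1 := hT.add (coc_d3 m S1)
  obtain ⟨S2, h2, h3⟩ := full_mod b.diag c1 (Set.range b.jC)
    (fun i => by obtain ⟨c, hc⟩ := b.χC i; exact ⟨c, hc.symm⟩)
    (by
      rintro _ ⟨x, rfl⟩ _ ⟨y, rfl⟩
      exact ⟨x * y, b.jC_mul x y⟩)
    (by
      rintro _ ⟨x, rfl⟩ _ ⟨y, rfl⟩ _ ⟨z, rfl⟩ _ ⟨w, rfl⟩
      exact h1 x y z w)
  obtain ⟨S3, h4⟩ := blocks_final b hF hE (c1.add (coc_d3 m S2))
    (fun x y z w => h2 _ ⟨x, rfl⟩ _ ⟨y, rfl⟩ _ ⟨z, rfl⟩ _ ⟨w, rfl⟩) h3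
  refine ⟨S3 + -S2 + -S1, ?_⟩
  rw [d3_add, d3_add, d3_neg, d3_neg, ← h4]
  abel

end Pool.Agent.Helper53.Dim3
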