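import Mathlib

set_option autoImplicit false
set_option maxSynthPendingDepth 3
set_option linter.unusedSectionVars false

namespace Pool.Agent.Helper53.Dim3

open Filter Topology Finset
open scoped ENNReal ZeroAtInfty

/-- the Banach space `ℓ¹(T)` -/
abbrev L1 (T : Type) : Type := lp (fun _ : T => ℂ) 1

namespace L1

variable {T : Type}

lemma hasSum_norm (x : L1 T) : HasSum (fun i => ‖x i‖) ‖x‖ := by
  have := lp.hasSum_norm (p := 1) (by simp) x
  simpa using this

lemma summable_norm (x : L1 T) : Summable (fun i => ‖x i‖) := (hasSum_norm x).summable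

lemma sum_norm_le (x : L1 T) (F : Finset T) : ∑ i ∈ F, ‖x i‖ ≤ ‖x‖ :=
  sum_le_hasSum F (fun _ _ => norm_nonneg _) (hasSum_norm x)

lemma norm_apply_le (x : L1 T) (i : T) : ‖x i‖ ≤ ‖x‖ := by
  simpa using sum_norm_le x {i}

lemma norm_le_of_sum_le (x : L1 T) (C : ℝ) (h : ∀ F : Finset T, ∑ i ∈ F, ‖x i‖ ≤ C) :
    ‖x‖ ≤ C :=
  hasSum_le_of_sum_le (hasSum_norm x) h

lemma mem_of_summable (f : T → ℂ) (hf : Summable (fun i => ‖f i‖)) :
    Memℓp f (1 : ℝ≥0∞) := by
  refine memℓp_gen ?_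
  simpa using hf

/-- an element of `ℓ¹` from an absolutely summable family -/
noncomputable def mk (f : T → ℂ) (hf : Summable (fun i => ‖f i‖)) : L1 T :=
  ⟨f, mem_of_summable f hf⟩

@[simp] lemma mk_apply (f : T → ℂ) (hf : Summable (fun i => ‖f i‖)) (i : T) :
    mk f hf i = f i := rfl

/-- an element of `ℓ¹` dominated by another one -/
lemma summable_of_le (x : L1 T) (c : ℝ) (f : T → ℂ) (h : ∀ i, ‖f i‖ ≤ c * ‖x i‖) :
    Summable (fun i => ‖f i‖) :=
  Summable.of_nonneg_of_le (fun _ => norm_nonneg _) h ((summable_norm x).mul_left c)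

open scoped Classical in
/-- unit vectors -/
noncomputable def e (s : T) : L1 T := lp.single 1 s (1 : ℂ)

open scoped Classical in
lemma e_apply (s i : T) : e s i = if i = s then 1 else 0 := by
  unfold e
  rw [lp.single_apply]
  by_cases h : i = s
  · subst h; simp
  · simp [h]

@[simp] lemma e_self (s : T) : e s s = 1 := by classical simp [e_apply]

lemma e_ne {s i : T} (h : i ≠ s) : e s i = 0 := by classical simp [e_apply, h]

lemma norm_e (s : T) : ‖e s‖ = 1 := by
  classical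
  unfold e
  rw [lp.norm_single (by simp)]; simp

lemma hasSum_e (x : L1 T) : HasSum (fun i => x i • e i) x := by
  classical
  have h := lp.hasSum_single (p := (1 : ℝ≥0∞)) (by simp) x
  convert h using 1
  funext i
  unfold e
  rw [← lp.single_smul]
  simp

end L1

/-- `E0` is the space `ℂ ⊕ ℓ¹(Bool × ℕ)` with the sum norm; it will be the unitization of the
algebra `ℓ¹(Bool × ℕ)` with coordinatewise product -/
def E0 : Type := WithLp 1 (ℂ × L1 (Bool × ℕ))

noncomputable instance : NormedAddCommGroup E0 :=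
  inferInstanceAs (NormedAddCommGroup (WithLp 1 (ℂ × L1 (Bool × ℕ))))
noncomputable instance : NormedSpace ℂ E0 :=
  inferInstanceAs (NormedSpace ℂ (WithLp 1 (ℂ × L1 (Bool × ℕ))))
instance : CompleteSpace E0 := inferInstanceAs (CompleteSpace (WithLp 1 (ℂ × L1 (Bool × ℕ))))

namespace E0

/-- the scalar part -/
def c (a : E0) : ℂ := WithLp.fst (show WithLp 1 (ℂ × L1 (Bool × ℕ)) from a)
/-- the `ℓ¹` part -/
def v (a : E0) : L1 (Bool × ℕ) := WithLp.snd (show WithLp 1 (ℂ × L1 (Bool × ℕ)) from a)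
/-- constructor -/
def mk (c : ℂ) (v : L1 (Bool × ℕ)) : E0 := WithLp.toLp 1 (c, v)

@[simp] lemma c_mk (c₀ : ℂ) (v₀ : L1 (Bool × ℕ)) : (mk c₀ v₀).c = c₀ := rfl
@[simp] lemma v_mk (c₀ : ℂ) (v₀ : L1 (Bool × ℕ)) : (mk c₀ v₀).v = v₀ := rfl
@[simp] lemma c_add (a b : E0) : (a + b).c = a.c + b.c := rfl
@[simp] lemma v_add (a b : E0) : (a + b).v = a.v + b.v := rfl
@[simp] lemma c_sub (a b : E0) : (a - b).c = a.c - b.c := rfl
@[simp] lemma v_sub (a b : E0) : (a - b).v = a.v - b.v := rfl
@[simp] lemma c_neg (a : E0) : (-a).c = -a.c := rfl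
@[simp] lemma v_neg (a : E0) : (-a).v = -a.v := rfl
@[simp] lemma c_zero : (0 : E0).c = 0 := rfl
@[simp] lemma v_zero : (0 : E0).v = 0 := rfl
@[simp] lemma c_smul (s : ℂ) (a : E0) : (s • a).c = s * a.c := rfl
@[simp] lemma v_smul (s : ℂ) (a : E0) : (s • a).v = s • a.v := rfl

lemma ext' {a b : E0} (hc : a.c = b.c) (hv : ∀ t, a.v t = b.v t) : a = b := by
  have h2 : a.v = b.v := by ext n; exact hv n
  have h3 : ∀ c : E0, c = mk c.c c.v := fun c => rfl
  rw [h3 a, h3 b, hc, h2]

lemma norm_def (a : E0) : ‖a‖ = ‖a.c‖ + ‖a.v‖ :=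
  WithLp.prod_norm_eq_of_L1 (show WithLp 1 (ℂ × L1 (Bool × ℕ)) from a)

lemma norm_c_le (a : E0) : ‖a.c‖ ≤ ‖a‖ := by
  rw [norm_def]; linarith [norm_nonneg a.v]

lemma norm_v_le (a : E0) : ‖a.v‖ ≤ ‖a‖ := by
  rw [norm_def]; linarith [norm_nonneg a.c]

lemma summable_mulV (r s : ℂ) (x y : L1 (Bool × ℕ)) :
    Summable (fun t => ‖r * y t + x t * s + x t * y t‖) := by
  refine Summable.of_nonneg_of_le (f := fun t => ‖r‖ * ‖y t‖ + ‖s‖ * ‖x t‖ + ‖x‖ * ‖y t‖)
    (fun _ => norm_nonneg _) (fun t => ?_) ?_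
  · refine (norm_add₃_le).trans ?_
    rw [norm_mul, norm_mul, norm_mul]
    have h3 := L1.norm_apply_le x t
    nlinarith [norm_nonneg (y t), norm_nonneg (x t)]
  · exact (((L1.summable_norm y).mul_left _).add ((L1.summable_norm x).mul_left _)).add
      ((L1.summable_norm y).mul_left _)

/-- the `ℓ¹` part of a product -/
noncomputable def mulV (r s : ℂ) (x y : L1 (Bool × ℕ)) : L1 (Bool × ℕ) :=
  L1.mk (fun t => r * y t + x t * s + x t * y t) (summable_mulV r s x y)

lemma norm_mulV_le (r s : ℂ) (x y : L1 (Bool × ℕ)) :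
    ‖mulV r s x y‖ ≤ ‖r‖ * ‖y‖ + ‖x‖ * ‖s‖ + ‖x‖ * ‖y‖ := by
  have h0 := L1.hasSum_norm (mulV r s x y)
  have h1 : HasSum (fun t => ‖r‖ * ‖y t‖ + ‖x t‖ * ‖s‖ + ‖x‖ * ‖y t‖)
      (‖r‖ * ‖y‖ + ‖x‖ * ‖s‖ + ‖x‖ * ‖y‖) :=
    (((L1.hasSum_norm y).mul_left _).add ((L1.hasSum_norm x).mul_right _)).add
      ((L1.hasSum_norm y).mul_left _)
  refine hasSum_le (fun t => ?_) h0 h1
  show ‖r * y t + x t * s + x t * y t‖ ≤ _
  refine (norm_add₃_le).trans ?_
  rw [norm_mul, norm_mul, norm_mul]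
  have h3 := L1.norm_apply_le x t
  nlinarith [norm_nonneg (y t), norm_nonneg (x t)]

noncomputable instance : Mul E0 := ⟨fun a b => mk (a.c * b.c) (mulV a.c b.c a.v b.v)⟩
noncomputable instance : One E0 := ⟨mk 1 0⟩

@[simp] lemma c_mul (a b : E0) : (a * b).c = a.c * b.c := rfl
@[simp] lemma v_mul (a b : E0) (t : Bool × ℕ) : (a * b).v t
    = a.c * b.v t + a.v t * b.c + a.v t * b.v t := rfl
@[simp] lemma c_one : (1 : E0).c = 1 := rfl
@[simp] lemma v_one : (1 : E0).v = 0 := rfl

/-- the unitization of `ℓ¹(Bool × ℕ)` as a Banach algebra: the product of `(r, x)` and `(s, y)`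
is `(r s, r y + s x + x y)` -/
noncomputable instance : NormedCommRing E0 :=
  { (inferInstance : NormedAddCommGroup E0) with
    mul := fun a b => a * b
    one := 1
    left_distrib := fun a b c => by
      apply ext'
      · simp [mul_add]
      · intro n; simp; ring
    right_distrib := fun a b c => by
      apply ext'
      · simp [add_mul]
      · intro n; simp; ring
    zero_mul := fun a => by
      apply ext'
      · simp
      · intro n; simp
    mul_zero := fun a => by
      apply ext'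
      · simp
      · intro n; simp
    mul_assoc := fun a b c => by
      apply ext'
      · simp [mul_assoc]
      · intro n; simp; ring
    one_mul := fun a => by
      apply ext'
      · simp
      · intro n; simp
    mul_one := fun a => by
      apply ext'
      · simp
      · intro n; simp
    mul_comm := fun a b => by
      apply ext'
      · simp [mul_comm]
      · intro n; simp; ring
    norm_mul_le := fun a b => by
      rw [norm_def, norm_def, norm_def]
      have h1 : ‖(a * b).c‖ ≤ ‖a.c‖ * ‖b.c‖ := norm_mul_le _ _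
      have h2 : ‖(a * b).v‖ ≤ ‖a.c‖ * ‖b.v‖ + ‖a.v‖ * ‖b.c‖ + ‖a.v‖ * ‖b.v‖ :=
        norm_mulV_le _ _ _ _
      calc _ ≤ ‖a.c‖ * ‖b.c‖ + (‖a.c‖ * ‖b.v‖ + ‖a.v‖ * ‖b.c‖ + ‖a.v‖ * ‖b.v‖) :=
            add_le_add h1 h2
        _ = _ := by ring }

noncomputable instance : NormedAlgebra ℂ E0 :=
  { Algebra.ofModule (R := ℂ) (A := E0)
      (fun s a b => by
        apply ext'
        · simp; ring
        · intro n; simp; ring)
      (fun s a b => by
        apply ext'
        · simp; ring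
        · intro n; simp; ring) with
    norm_smul_le := fun s a => (norm_smul s a).le }

lemma norm_one : ‖(1 : E0)‖ = 1 := by
  rw [norm_def]; simp

/-- the projection to the `ℓ¹` part -/
noncomputable def β : E0 →L[ℂ] E0 :=
  LinearMap.mkContinuous
    { toFun := fun a => mk 0 a.v
      map_add' := fun a b => by apply ext' <;> simp
      map_smul' := fun s a => by apply ext' <;> simp } 1 (fun a => by
    rw [one_mul]
    show ‖mk 0 a.v‖ ≤ ‖a‖
    rw [norm_def, norm_def]
    simp)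

@[simp] lemma β_c (a : E0) : (β a).c = 0 := rfl
@[simp] lemma β_v (a : E0) : (β a).v = a.v := rfl

lemma norm_β_le (a : E0) : ‖β a‖ ≤ ‖a‖ := by
  rw [norm_def, norm_def]; simp

lemma summable_p2 (x : L1 (Bool × ℕ)) :
    Summable (fun t : Bool × ℕ => ‖(if t.1 = true then x t else 0 : ℂ)‖) := by
  refine L1.summable_of_le x 1 _ (fun t => ?_)
  rw [one_mul]
  split_ifs
  · exact le_rfl
  · simp

/-- the part of the `ℓ¹` part over `true` -/
noncomputable def p2 (a : E0) : E0 :=
  mk 0 (L1.mk (fun t : Bool × ℕ => (if t.1 = true then a.v t else 0 : ℂ)) (summable_p2 a.v))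

@[simp] lemma p2_c (a : E0) : (p2 a).c = 0 := rfl
@[simp] lemma p2_v (a : E0) (t : Bool × ℕ) : (p2 a).v t = if t.1 = true then a.v t else 0 := rfl

lemma norm_p2_le (a : E0) : ‖p2 a‖ ≤ ‖a.v‖ := by
  rw [norm_def]
  simp only [p2_c, norm_zero, zero_add]
  refine hasSum_le (fun t => ?_) (L1.hasSum_norm _) (L1.hasSum_norm a.v)
  rw [p2_v]
  split_ifs
  · exact le_rfl
  · simp

lemma p2_add (a b : E0) : p2 (a + b) = p2 a + p2 b := by
  apply ext'
  · simp
  · intro t
    simp only [p2_v, v_add, lp.coeFn_add, Pi.add_apply]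
    split_ifs <;> simp

lemma p2_smul (s : ℂ) (a : E0) : p2 (s • a) = s • p2 a := by
  apply ext'
  · simp
  · intro t
    simp only [p2_v, v_smul, lp.coeFn_smul, Pi.smul_apply]
    split_ifs <;> simp

/-- the unit vectors of the `ℓ¹` part -/
noncomputable def e (t : Bool × ℕ) : E0 := mk 0 (L1.e t)

@[simp] lemma e_c (t : Bool × ℕ) : (e t).c = 0 := rfl
@[simp] lemma e_v (t : Bool × ℕ) : (e t).v = L1.e t := rfl

lemma norm_e (t : Bool × ℕ) : ‖e t‖ = 1 := by
  rw [norm_def]; simp [L1.norm_e]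

lemma mul_e (a : E0) (t : Bool × ℕ) : a * e t = (a.c + a.v t) • e t := by
  apply ext'
  · simp
  · intro s
    by_cases h : s = t
    · subst h; simp
    · simp [L1.e_ne h]

end E0

end Pool.Agent.Helper53.Dim3
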