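import Mathlib
import Pool.Agent.Helper53.Dim3G

set_option autoImplicit false
set_option maxSynthPendingDepth 3
set_option linter.unusedSectionVars false

namespace Pool.Agent.Helper53.Dim3

open Filter Topology Finset
open scoped ENNReal ZeroAtInfty

/-- the Banach algebra `c₀(I; E0)` -/
abbrev Qa (I : Type) [TopologicalSpace I] : Type := C₀(I, E0)

namespace Qa

variable {I : Type} [TopologicalSpace I] [DiscreteTopology I]

/-- construction of elements -/
noncomputable def mk (f : I → E0) (hf : Tendsto f cofinite (𝓝 0)) : Qa I where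
  toFun := f
  continuous_toFun := continuous_of_discreteTopology
  zero_at_infty' := by rwa [cocompact_eq_cofinite]

@[simp] lemma mk_apply (f : I → E0) (hf : Tendsto f cofinite (𝓝 0)) (i : I) : mk f hf i = f i :=
  rfl

lemma tendsto (f : Qa I) : Tendsto f cofinite (𝓝 0) := by
  have := zero_at_infty f
  rwa [cocompact_eq_cofinite] at this

lemma tendsto_of_le (f : Qa I) (c : ℝ) (g : I → E0) (h : ∀ i, ‖g i‖ ≤ c * ‖f i‖) :
    Tendsto g cofinite (𝓝 0) := by
  refine squeeze_zero_norm h ?_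
  simpa using (tendsto_zero_iff_norm_tendsto_zero.1 f.tendsto).const_mul c

lemma apply_le (f : Qa I) (i : I) : ‖f i‖ ≤ ‖f‖ := by
  rw [← ZeroAtInftyContinuousMap.norm_toBCF_eq_norm]
  exact BoundedContinuousFunction.norm_coe_le_norm f.toBCF i

lemma norm_le (f : Qa I) {C : ℝ} (hC : 0 ≤ C) (h : ∀ i, ‖f i‖ ≤ C) : ‖f‖ ≤ C := by
  rw [← ZeroAtInftyContinuousMap.norm_toBCF_eq_norm]
  exact (BoundedContinuousFunction.norm_le hC).2 h

/-- evaluation -/
noncomputable def ev (i : I) : Qa I →L[ℂ] E0 :=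
  LinearMap.mkContinuous
    { toFun := fun f => f i
      map_add' := fun _ _ => rfl
      map_smul' := fun _ _ => rfl } 1 (fun f => by rw [one_mul]; exact apply_le f i)

@[simp] lemma ev_apply (i : I) (f : Qa I) : ev i f = f i := rfl

lemma norm_ev_le (i : I) : ‖(ev i : Qa I →L[ℂ] E0)‖ ≤ 1 :=
  LinearMap.mkContinuous_norm_le _ zero_le_one _

lemma sum_apply {κ : Type*} (s : Finset κ) (f : κ → Qa I) (i : I) :
    (∑ k ∈ s, f k) i = ∑ k ∈ s, f k i := by
  exact map_sum (ev i) f s

open scoped Classical in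
lemma tendsto_single (i : I) (x : E0) :
    Tendsto (fun j => if j = i then x else 0) cofinite (𝓝 0) := by
  refine tendsto_const_nhds.congr' ?_
  rw [EventuallyEq, eventually_cofinite]
  refine (Set.finite_singleton i).subset (fun j hj => ?_)
  simp only [Set.mem_ofPred_eq] at hj
  by_contra h
  simp only [Set.mem_singleton_iff] at h
  simp [h] at hj

open scoped Classical in
/-- the element supported at `i` -/
noncomputable def sgl (i : I) (x : E0) : Qa I :=
  mk (fun j => if j = i then x else 0) (tendsto_single i x)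

open scoped Classical in
lemma sgl_apply (i : I) (x : E0) (j : I) : sgl i x j = if j = i then x else 0 := rfl

@[simp] lemma sgl_self (i : I) (x : E0) : sgl i x i = x := by classical simp [sgl_apply]

lemma sgl_ne {i j : I} (h : j ≠ i) (x : E0) : sgl i x j = 0 := by classical simp [sgl_apply, h]

lemma norm_sgl (i : I) (x : E0) : ‖sgl i x‖ = ‖x‖ := by
  refine le_antisymm (norm_le _ (norm_nonneg _) (fun j => ?_)) ?_
  · by_cases h : j = i
    · subst h; simp
    · rw [sgl_ne h]; simp
  · simpa using apply_le (sgl i x) i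

lemma sgl_mul (i : I) (x y : E0) : sgl i (x * y) = sgl i x * sgl i y := by
  ext j
  by_cases h : j = i
  · subst h; simp
  · simp [sgl_ne h]

lemma mul_sgl (f : Qa I) (i : I) (x : E0) : f * sgl i x = sgl i (f i * x) := by
  ext j
  by_cases h : j = i
  · subst h; simp
  · simp [sgl_ne h]

lemma sgl_mul' (f : Qa I) (i : I) (x : E0) : sgl i x * f = sgl i (x * f i) := by
  rw [mul_comm, mul_sgl, mul_comm]

lemma sgl_smul (s : ℂ) (i : I) (x : E0) : sgl i (s • x) = s • sgl i x := by
  ext j
  by_cases h : j = i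
  · subst h; simp
  · simp [sgl_ne h]

lemma sgl_add (i : I) (x y : E0) : sgl i (x + y) = sgl i x + sgl i y := by
  ext j
  by_cases h : j = i
  · subst h; simp
  · simp [sgl_ne h]

lemma sgl_zero (i : I) : sgl i 0 = 0 := by
  ext j
  by_cases h : j = i
  · subst h; simp
  · simp [sgl_ne h]

lemma sgl_mul_ne {i j : I} (h : i ≠ j) (x y : E0) : sgl i x * sgl j y = 0 := by
  rw [mul_sgl, sgl_ne h.symm, zero_mul, sgl_zero]

/-- the inclusion at `i` -/
noncomputable def sglL (i : I) : E0 →L[ℂ] Qa I :=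
  LinearMap.mkContinuous
    { toFun := sgl i
      map_add' := sgl_add i
      map_smul' := fun s x => sgl_smul s i x } 1 (fun x => by
        rw [one_mul]; exact (norm_sgl i x).le)

@[simp] lemma sglL_apply (i : I) (x : E0) : sglL i x = sgl i x := rfl

/-- weighted sums of elements supported at distinct points -/
lemma norm_sum_sgl_le (s : Finset I) (x : I → E0) (C : ℝ) (hC : 0 ≤ C)
    (hx : ∀ i ∈ s, ‖x i‖ ≤ C) : ‖∑ i ∈ s, sgl i (x i)‖ ≤ C := by
  classical
  refine norm_le _ hC (fun j => ?_)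
  rw [sum_apply]
  by_cases hj : j ∈ s
  · rw [sum_eq_single j (fun i _ hi => sgl_ne hi.symm _) (fun h => absurd hj h), sgl_self]
    exact hx j hj
  · rw [sum_eq_zero (fun i hi => sgl_ne (fun h : j = i => hj (h.symm ▸ hi)) _), norm_zero]
    exact hC

lemma hasSum_sgl (f : Qa I) : HasSum (fun i => sgl i (f i)) f := by
  classical
  rw [HasSum, SummationFilter.unconditional_filter, Metric.tendsto_atTop]
  intro ε hε
  have h1 : {i | ¬ ‖f i‖ < ε / 2}.Finite := by
    have h2 := (tendsto_zero_iff_norm_tendsto_zero.1 f.tendsto)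
    have h3 := h2.eventually (gt_mem_nhds (half_pos hε))
    exact eventually_cofinite.1 h3
  refine ⟨h1.toFinset, fun t ht => ?_⟩
  rw [dist_eq_norm]
  refine lt_of_le_of_lt (norm_le _ (half_pos hε).le (fun j => ?_)) (half_lt_self hε)
  have h4 : (∑ i ∈ t, sgl i (f i) - f) j = (∑ i ∈ t, sgl i (f i) j) - f j := by
    rw [← sum_apply]; rfl
  rw [h4]
  by_cases hj : j ∈ t
  · rw [sum_eq_single j (fun i _ hi => sgl_ne hi.symm _) (fun h => absurd hj h), sgl_self,
      sub_self, norm_zero]
    exact (half_pos hε).le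
  · rw [sum_eq_zero (fun i hi => sgl_ne (fun h : j = i => hj (h.symm ▸ hi)) _), zero_sub, norm_neg]
    by_contra hc
    exact hj (ht (by
      rw [Set.Finite.mem_toFinset]
      exact fun h : ‖f j‖ < ε / 2 => hc h.le))

/-- pointwise projection to the `ℓ¹` parts -/
noncomputable def β : Qa I →L[ℂ] Qa I :=
  LinearMap.mkContinuous
    { toFun := fun f => mk (fun i => E0.β (f i))
        (tendsto_of_le f 1 _ (fun i => by rw [one_mul]; exact E0.norm_β_le _))
      map_add' := fun f g => by ext i; simp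
      map_smul' := fun s f => by ext i; simp } 1 (fun f => by
    rw [one_mul]
    refine norm_le _ (norm_nonneg _) (fun i => ?_)
    exact (E0.norm_β_le _).trans (apply_le f i))

@[simp] lemma β_apply (f : Qa I) (i : I) : β f i = E0.β (f i) := rfl

/-- the mixed product term -/
noncomputable def D (g : Qa I) (v : L1 I) : Qa I :=
  mk (fun i => v i • E0.p2 (g i)) (tendsto_of_le g ‖v‖ _ (fun i => by
    rw [norm_smul]
    have h1 := L1.norm_apply_le v i
    have h2 := (E0.norm_p2_le (g i)).trans (E0.norm_v_le (g i))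
    gcongr))

@[simp] lemma D_apply (g : Qa I) (v : L1 I) (i : I) : D g v i = v i • E0.p2 (g i) := rfl

lemma summable_D (g : Qa I) (v : L1 I) : Summable (fun i => ‖v i‖ * ‖(g i).v‖) := by
  refine Summable.of_nonneg_of_le (fun _ => by positivity) (fun i => ?_)
    ((L1.summable_norm v).mul_right ‖g‖)
  exact mul_le_mul_of_nonneg_left ((E0.norm_v_le _).trans (apply_le g i)) (norm_nonneg _)

lemma norm_D_le (g : Qa I) (v : L1 I) : ‖D g v‖ ≤ ∑' i, ‖v i‖ * ‖(g i).v‖ := by
  refine norm_le _ (tsum_nonneg (fun _ => by positivity)) (fun i => ?_)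
  rw [D_apply, norm_smul]
  calc ‖v i‖ * ‖E0.p2 (g i)‖ ≤ ‖v i‖ * ‖(g i).v‖ :=
        mul_le_mul_of_nonneg_left (E0.norm_p2_le _) (norm_nonneg _)
    _ ≤ _ := (summable_D g v).le_tsum i (fun _ _ => by positivity)

lemma summable_cv (g : Qa I) (v : L1 I) : Summable (fun i => ‖(g i).c * v i‖) := by
  refine L1.summable_of_le v ‖g‖ _ (fun i => ?_)
  rw [norm_mul]
  exact mul_le_mul_of_nonneg_right ((E0.norm_c_le _).trans (apply_le g i)) (norm_nonneg _)

lemma norm_D_add_le (g : Qa I) (v : L1 I) :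
    ‖D g v‖ + ∑' i, ‖(g i).c * v i‖ ≤ ‖g‖ * ‖v‖ := by
  refine (add_le_add (norm_D_le g v) le_rfl).trans ?_
  rw [← (summable_D g v).tsum_add (summable_cv g v)]
  have h1 : HasSum (fun i => ‖g‖ * ‖v i‖) (‖g‖ * ‖v‖) := (L1.hasSum_norm v).mul_left _
  rw [← h1.tsum_eq]
  refine ((summable_D g v).add (summable_cv g v)).tsum_le_tsum (fun i => ?_) h1.summable
  rw [norm_mul]
  have h2 := apply_le g i
  rw [E0.norm_def] at h2
  nlinarith [norm_nonneg (v i)]

end Qa

/-- the Banach space `c₀(I; E0) ⊕ ℓ¹(I)`, with the sum norm -/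
def Alg (I : Type) [TopologicalSpace I] : Type := WithLp 1 (Qa I × L1 I)

section

variable (I : Type) [TopologicalSpace I]

noncomputable instance : NormedAddCommGroup (Alg I) :=
  inferInstanceAs (NormedAddCommGroup (WithLp 1 (Qa I × L1 I)))
noncomputable instance : NormedSpace ℂ (Alg I) :=
  inferInstanceAs (NormedSpace ℂ (WithLp 1 (Qa I × L1 I)))
instance : CompleteSpace (Alg I) := inferInstanceAs (CompleteSpace (WithLp 1 (Qa I × L1 I)))

end

namespace Alg

variable {I : Type} [TopologicalSpace I]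

/-- first component -/
def g (a : Alg I) : Qa I := WithLp.fst (show WithLp 1 (Qa I × L1 I) from a)
/-- second component -/
def u (a : Alg I) : L1 I := WithLp.snd (show WithLp 1 (Qa I × L1 I) from a)
/-- constructor -/
def mk (g : Qa I) (u : L1 I) : Alg I := WithLp.toLp 1 (g, u)

@[simp] lemma g_mk (g₀ : Qa I) (u₀ : L1 I) : (mk g₀ u₀).g = g₀ := rfl
@[simp] lemma u_mk (g₀ : Qa I) (u₀ : L1 I) : (mk g₀ u₀).u = u₀ := rfl
@[simp] lemma g_add (a b : Alg I) : (a + b).g = a.g + b.g := rfl
@[simp] lemma u_add (a b : Alg I) : (a + b).u = a.u + b.u := rfl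
@[simp] lemma g_sub (a b : Alg I) : (a - b).g = a.g - b.g := rfl
@[simp] lemma u_sub (a b : Alg I) : (a - b).u = a.u - b.u := rfl
@[simp] lemma g_neg (a : Alg I) : (-a).g = -a.g := rfl
@[simp] lemma u_neg (a : Alg I) : (-a).u = -a.u := rfl
@[simp] lemma g_zero : (0 : Alg I).g = 0 := rfl
@[simp] lemma u_zero : (0 : Alg I).u = 0 := rfl
@[simp] lemma g_smul (s : ℂ) (a : Alg I) : (s • a).g = s • a.g := rfl
@[simp] lemma u_smul (s : ℂ) (a : Alg I) : (s • a).u = s • a.u := rfl

lemma ext' {a b : Alg I} (hc : ∀ i, (a.g i).c = (b.g i).c) (hv : ∀ i t, (a.g i).v t = (b.g i).v t)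
    (hu : ∀ i, a.u i = b.u i) : a = b := by
  have h1 : a.g = b.g := ZeroAtInftyContinuousMap.ext (fun i => E0.ext' (hc i) (hv i))
  have h2 : a.u = b.u := by ext n; exact hu n
  have h3 : ∀ c : Alg I, c = mk c.g c.u := fun c => rfl
  rw [h3 a, h3 b, h1, h2]

lemma ext_gu {a b : Alg I} (hg : a.g = b.g) (hu : a.u = b.u) : a = b := by
  have h3 : ∀ c : Alg I, c = mk c.g c.u := fun c => rfl
  rw [h3 a, h3 b, hg, hu]

lemma norm_def (a : Alg I) : ‖a‖ = ‖a.g‖ + ‖a.u‖ :=
  WithLp.prod_norm_eq_of_L1 (show WithLp 1 (Qa I × L1 I) from a)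

lemma norm_g_le (a : Alg I) : ‖a.g‖ ≤ ‖a‖ := by
  rw [norm_def]; linarith [norm_nonneg a.u]

lemma norm_u_le (a : Alg I) : ‖a.u‖ ≤ ‖a‖ := by
  rw [norm_def]; linarith [norm_nonneg a.g]

variable [DiscreteTopology I]

lemma norm_mulU_bound (g h : Qa I) (v w : L1 I) (i : I) :
    ‖(g i).c * w i + v i * (h i).c + v i * w i‖
      ≤ ‖(g i).c * w i‖ + ‖(h i).c * v i‖ + ‖v‖ * ‖w i‖ := by
  refine (norm_add₃_le).trans ?_
  rw [mul_comm (v i) (h i).c, norm_mul (v i) (w i)]
  have h3 := L1.norm_apply_le v i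
  gcongr

lemma summable_mulU (g h : Qa I) (v w : L1 I) :
    Summable (fun i => ‖(g i).c * w i + v i * (h i).c + v i * w i‖) :=
  Summable.of_nonneg_of_le (fun _ => norm_nonneg _) (norm_mulU_bound g h v w)
    (((Qa.summable_cv g w).add (Qa.summable_cv h v)).add ((L1.summable_norm w).mul_left _))

/-- second component of a product -/
noncomputable def mulU (g h : Qa I) (v w : L1 I) : L1 I :=
  L1.mk (fun i => (g i).c * w i + v i * (h i).c + v i * w i) (summable_mulU g h v w)

lemma norm_mulU_le (g h : Qa I) (v w : L1 I) :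
    ‖mulU g h v w‖ ≤ (∑' i, ‖(g i).c * w i‖) + (∑' i, ‖(h i).c * v i‖) + ‖v‖ * ‖w‖ := by
  have h1 := (((Qa.summable_cv g w).hasSum.add (Qa.summable_cv h v).hasSum).add
    ((L1.hasSum_norm w).mul_left ‖v‖))
  exact hasSum_le (norm_mulU_bound g h v w) (L1.hasSum_norm (mulU g h v w)) h1

noncomputable instance : Mul (Alg I) :=
  ⟨fun a b => mk (a.g * b.g + Qa.D a.g b.u + Qa.D b.g a.u) (mulU a.g b.g a.u b.u)⟩

@[simp] lemma g_mul (a b : Alg I) : (a * b).g = a.g * b.g + Qa.D a.g b.u + Qa.D b.g a.u := rfl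
@[simp] lemma u_mul (a b : Alg I) (i : I) : (a * b).u i
    = (a.g i).c * b.u i + a.u i * (b.g i).c + a.u i * b.u i := rfl

/-- the Banach algebra `A`: the product of `(g, u)` and `(h, v)` is
`(g h + v g' + u h', ε(g) v + u ε(h) + u v)`, where `g'` is the part of `g` over `true` -/
noncomputable instance : NonUnitalNormedCommRing (Alg I) :=
  { (inferInstance : NormedAddCommGroup (Alg I)) with
    mul := fun a b => a * b
    left_distrib := fun a b c => by
      apply ext'
      · intro i; simp; ring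
      · rintro i ⟨b, n⟩; cases b <;> simp <;> ring
      · intro i; simp; ring
    right_distrib := fun a b c => by
      apply ext'
      · intro i; simp; ring
      · rintro i ⟨b, n⟩; cases b <;> simp <;> ring
      · intro i; simp; ring
    zero_mul := fun a => by
      apply ext'
      · intro i; simp
      · rintro i ⟨b, n⟩; cases b <;> simp
      · intro i; simp
    mul_zero := fun a => by
      apply ext'
      · intro i; simp
      · rintro i ⟨b, n⟩; cases b <;> simp
      · intro i; simp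
    mul_assoc := fun a b c => by
      apply ext'
      · intro i; simp; ring
      · rintro i ⟨b, n⟩; cases b <;> simp <;> ring
      · intro i; simp; ring
    mul_comm := fun a b => by
      apply ext'
      · intro i; simp; ring
      · rintro i ⟨b, n⟩; cases b <;> simp <;> ring
      · intro i; simp; ring
    norm_mul_le := fun a b => by
      rw [norm_def, norm_def a, norm_def b]
      have h1 : ‖(a * b).g‖ ≤ ‖a.g‖ * ‖b.g‖ + ‖Qa.D a.g b.u‖ + ‖Qa.D b.g a.u‖ :=
        (norm_add₃_le).trans (add_le_add (add_le_add (norm_mul_le _ _) le_rfl) le_rfl)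
      have h2 := norm_mulU_le a.g b.g a.u b.u
      have h3 := Qa.norm_D_add_le a.g b.u
      have h4 := Qa.norm_D_add_le b.g a.u
      have h5 : ‖(a * b).u‖ = ‖mulU a.g b.g a.u b.u‖ := rfl
      rw [h5]
      calc _ ≤ ‖a.g‖ * ‖b.g‖ + ‖a.g‖ * ‖b.u‖ + ‖b.g‖ * ‖a.u‖ + ‖a.u‖ * ‖b.u‖ := by linarith
        _ = _ := by ring }

instance : IsScalarTower ℂ (Alg I) (Alg I) :=
  ⟨fun s a b => by
    apply ext'
    · intro i; simp
    · rintro i ⟨b, n⟩; cases b <;> simp <;> ring
    · intro i; simp; ring⟩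

instance : SMulCommClass ℂ (Alg I) (Alg I) :=
  ⟨fun s a b => by
    apply ext'
    · intro i; simp
    · rintro i ⟨b, n⟩; cases b <;> simp <;> ring
    · intro i; simp; ring⟩

end Alg

end Pool.Agent.Helper53.Dim3
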