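import Mathlib
import Pool.Agent.Helper53.Dim3F
import Pool.Agent.Helper53.Dim3H

set_option autoImplicit false
set_option maxSynthPendingDepth 3
set_option linter.unusedSectionVars false

namespace Pool.Agent.Helper53.Dim3

open Filter Topology Finset
open scoped ENNReal ZeroAtInfty

/-- averaging for bounded bilinear forms -/
lemma bil_avg {ι X Y W : Type*} [NormedAddCommGroup X] [NormedSpace ℂ X]
    [NormedAddCommGroup Y] [NormedSpace ℂ Y] [NormedAddCommGroup W] [NormedSpace ℂ W]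
    (G : X →L[ℂ] Y →L[ℂ] W) (x : ι → X) (y : ι → Y) (s : Finset ι) (M₁ M₂ : ℝ)
    (h₁ : ∀ ε : ι → ℂ, (∀ n, ε n = 1 ∨ ε n = -1) → ‖∑ n ∈ s, ε n • x n‖ ≤ M₁)
    (h₂ : ∀ ε : ι → ℂ, (∀ n, ε n = 1 ∨ ε n = -1) → ‖∑ n ∈ s, ε n • y n‖ ≤ M₂) :
    ‖∑ n ∈ s, G (x n) (y n)‖ ≤ ‖G‖ * M₁ * M₂ := by
  refine sign_avg0 (fun n => ((G.flip (y n)).toLinearMap)) x _ s (fun ε hε => ?_)
  have e1 : ∑ n ∈ s, ε n • ((G.flip (y n)).toLinearMap) (∑ k ∈ s, ε k • x k)
      = G (∑ k ∈ s, ε k • x k) (∑ n ∈ s, ε n • y n) := by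
    rw [map_sum (G _)]
    refine sum_congr rfl (fun n _ => ?_)
    rw [map_smul (G _)]
    rfl
  rw [e1]
  refine ((G _).le_opNorm _).trans ?_
  have a1 := h₁ ε hε
  have a2 := h₂ ε hε
  have a3 := G.le_opNorm (∑ k ∈ s, ε k • x k)
  have a4 : 0 ≤ M₁ := (norm_nonneg _).trans a1
  calc _ ≤ (‖G‖ * ‖∑ k ∈ s, ε k • x k‖) * ‖∑ n ∈ s, ε n • y n‖ := by gcongr
    _ ≤ _ := by gcongr

lemma norm_sign {ε : ℂ} (h : ε = 1 ∨ ε = -1) : ‖ε‖ = 1 := by
  rcases h with h | h <;> simp [h]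

namespace Qa

variable {I : Type} [TopologicalSpace I] [DiscreteTopology I]

lemma smul_sgl_sum (s : Finset I) (ε : I → ℂ) (x : I → E0) :
    ∑ i ∈ s, ε i • sgl i (x i) = ∑ i ∈ s, sgl i (ε i • x i) :=
  sum_congr rfl (fun i _ => (sgl_smul _ _ _).symm)

lemma diag_p : Diag (fun i : I => sgl i (1 : E0)) (ContinuousLinearMap.id ℂ (Qa I)) 1 where
  K_nonneg := zero_le_one
  idem := fun i => by rw [← sgl_mul, mul_one]
  orth := fun _ _ h => sgl_mul_ne h _ _
  ββ := fun _ => rfl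
  βp := fun _ _ => rfl
  sum := fun a => by
    have e1 : (fun i : I => sgl i (1 : E0) * (ContinuousLinearMap.id ℂ (Qa I)) a)
        = fun i => sgl i (a i) := by
      funext i
      rw [ContinuousLinearMap.id_apply, sgl_mul', one_mul]
    rw [e1]
    exact hasSum_sgl a
  bound := fun G a F => by
    have h := bil_avg G (fun i : I => sgl i (1 : E0)) (fun i : I => sgl i (1 : E0) * a) F 1 ‖a‖
      (fun ε hε => by
        rw [smul_sgl_sum]
        refine norm_sum_sgl_le _ _ _ zero_le_one (fun i _ => ?_)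
        rw [norm_smul, norm_sign (hε i), E0.norm_one, one_mul])
      (fun ε hε => by
        have e : ∀ i : I, sgl i (1 : E0) * a = sgl i (a i) := fun i => by rw [sgl_mul', one_mul]
        simp only [e]
        rw [smul_sgl_sum]
        refine norm_sum_sgl_le _ _ _ (norm_nonneg _) (fun i _ => ?_)
        rw [norm_smul, norm_sign (hε i), one_mul]
        exact apply_le a i)
    calc _ ≤ _ := h
      _ = _ := by rw [ContinuousLinearMap.id_apply]; ring

/-- the minimal idempotents -/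
noncomputable def e (x : I × (Bool × ℕ)) : Qa I := sgl x.1 (E0.e x.2)

lemma e_mul_β (x : I × (Bool × ℕ)) (a : Qa I) : e x * β a = (a x.1).v x.2 • e x := by
  unfold e
  rw [sgl_mul', mul_comm, E0.mul_e, β_apply, E0.β_c, E0.β_v, zero_add, sgl_smul]

lemma mul_e (x : I × (Bool × ℕ)) (a : Qa I) :
    a * e x = ((a x.1).c + (a x.1).v x.2) • e x := by
  unfold e
  rw [mul_sgl, E0.mul_e, sgl_smul]

lemma β_e (x : I × (Bool × ℕ)) : β (e x) = e x := by
  ext j
  unfold e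
  rw [β_apply]
  by_cases h : j = x.1
  · subst h
    rw [sgl_self]
    apply E0.ext' <;> simp
  · rw [sgl_ne h, map_zero]

lemma β_ideal (x a : Qa I) : β (x * β a) = x * β a := by
  ext j
  rw [β_apply, ZeroAtInftyContinuousMap.mul_apply, β_apply]
  apply E0.ext' <;> simp

lemma β_sgl_one_mul (j : I) (a : Qa I) : β (sgl j 1 * a) = sgl j 1 * β a := by
  ext i
  rw [β_apply, ZeroAtInftyContinuousMap.mul_apply, ZeroAtInftyContinuousMap.mul_apply, β_apply]
  by_cases h : i = j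
  · subst h; rw [sgl_self, one_mul, one_mul]
  · rw [sgl_ne h, zero_mul, zero_mul, map_zero]

lemma β_sgl_one (j : I) : β (sgl j 1) = 0 := by
  ext i
  rw [β_apply]
  by_cases h : i = j
  · subst h
    rw [sgl_self]
    apply E0.ext' <;> simp
  · rw [sgl_ne h, map_zero]; rfl

lemma e_idem (x : I × (Bool × ℕ)) : e x * e x = e x := by
  rw [mul_e]
  unfold e
  rw [sgl_self]
  simp

lemma e_orth {x y : I × (Bool × ℕ)} (h : x ≠ y) : e x * e y = 0 := by
  rw [mul_e]
  unfold e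
  by_cases h1 : y.1 = x.1
  · have h2 : y.2 ≠ x.2 := fun h2 => h (Prod.ext h1.symm h2.symm)
    rw [h1, sgl_self, E0.e_c, E0.e_v, L1.e_ne h2]
    simp
  · rw [sgl_ne h1]
    simp

lemma norm_sub_partial_le (x : E0) (G : Finset (Bool × ℕ)) :
    ‖∑ t ∈ G, x.v t • E0.e t - E0.β x‖ ≤ ‖x‖ := by
  classical
  have hc : ∀ (s : Finset (Bool × ℕ)), (∑ t ∈ s, x.v t • E0.e t).c = 0 ∧
      ∀ r, (∑ t ∈ s, x.v t • E0.e t).v r = if r ∈ s then x.v r else 0 := by
    intro s
    induction s using Finset.induction_on with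
    | empty => simp
    | insert t s ht ih =>
      rw [sum_insert ht]
      refine ⟨by rw [E0.c_add, ih.1, E0.c_smul, E0.e_c, mul_zero, zero_add], fun r => ?_⟩
      rw [E0.v_add, lp.coeFn_add, Pi.add_apply, ih.2 r]
      by_cases hr : r = t
      · subst hr
        simp [ht]
      · simp [L1.e_ne hr, hr]
  rw [E0.norm_def, E0.norm_def x]
  have h1 : (∑ t ∈ G, x.v t • E0.e t - E0.β x).c = 0 := by
    rw [E0.c_sub, (hc G).1, E0.β_c, sub_zero]
  rw [h1, norm_zero]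
  refine add_le_add (norm_nonneg _) ?_
  refine hasSum_le (fun r => ?_) (L1.hasSum_norm _) (L1.hasSum_norm x.v)
  rw [E0.v_sub, lp.coeFn_sub, Pi.sub_apply, (hc G).2 r, E0.β_v]
  split_ifs <;> simp

lemma hasSum_E0 (x : E0) : HasSum (fun t => x.v t • E0.e t) (E0.β x) := by
  let J : L1 (Bool × ℕ) →L[ℂ] E0 :=
    LinearMap.mkContinuous
      { toFun := fun v => E0.mk 0 v
        map_add' := fun a b => by apply E0.ext' <;> simp
        map_smul' := fun s a => by apply E0.ext' <;> simp } 1 (fun a => by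
      rw [one_mul]
      show ‖E0.mk 0 a‖ ≤ ‖a‖
      rw [E0.norm_def]
      simp)
  have h := J.hasSum (L1.hasSum_e x.v)
  have e1 : ∀ t, J (x.v t • L1.e t) = x.v t • E0.e t := fun t => by rw [map_smul]; rfl
  simp only [e1] at h
  exact h

lemma hasSum_e (a : Qa I) : HasSum (fun x => e x * β a) (β a) := by
  classical
  simp only [e_mul_β]
  rw [HasSum, SummationFilter.unconditional_filter, Metric.tendsto_atTop]
  intro ε hε
  have h1 : {i | ¬ ‖a i‖ < ε / 2}.Finite := by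
    have h2 := (tendsto_zero_iff_norm_tendsto_zero.1 a.tendsto)
    have h3 := h2.eventually (gt_mem_nhds (half_pos hε))
    exact eventually_cofinite.1 h3
  have h2 : ∀ i : I, ∃ s : Finset (Bool × ℕ), ∀ t, s ⊆ t →
      ‖∑ r ∈ t, (a i).v r • E0.e r - E0.β (a i)‖ < ε / 2 := by
    intro i
    have := hasSum_E0 (a i)
    rw [HasSum, SummationFilter.unconditional_filter, Metric.tendsto_atTop] at this
    obtain ⟨s, hs⟩ := this (ε / 2) (half_pos hε)
    exact ⟨s, fun t ht => by rw [← dist_eq_norm]; exact hs t ht⟩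
  choose G hG using h2
  refine ⟨h1.toFinset.biUnion (fun i => (G i).image (Prod.mk i)), fun T hT => ?_⟩
  rw [dist_eq_norm]
  refine lt_of_le_of_lt (norm_le _ (half_pos hε).le (fun j => ?_)) (half_lt_self hε)
  have h4 : (∑ x ∈ T, (a x.1).v x.2 • e x - β a) j
      = ∑ r ∈ T.preimage (Prod.mk j) (fun _ _ _ _ h => (Prod.ext_iff.1 h).2),
          (a j).v r • E0.e r - E0.β (a j) := by
    have h5 : (∑ x ∈ T, (a x.1).v x.2 • e x) j = ∑ x ∈ T, ((a x.1).v x.2 • e x) j :=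
      sum_apply _ _ _
    have h6 := Finset.sum_preimage (Prod.mk j) T (fun _ _ _ _ h => (Prod.ext_iff.1 h).2)
      (fun x => ((a x.1).v x.2 • e x) j) (fun x _ hx => by
        have hne : j ≠ x.1 := fun h => hx ⟨x.2, Prod.ext h rfl⟩
        show (a x.1).v x.2 • (sgl x.1 (E0.e x.2) j) = 0
        rw [sgl_ne hne, smul_zero])
    rw [ZeroAtInftyContinuousMap.sub_apply, h5, ← h6]
    congr 1
    refine sum_congr rfl (fun r _ => ?_)
    show (a j).v r • (sgl j (E0.e r) j) = _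
    rw [sgl_self]
  rw [h4]
  by_cases hj : ‖a j‖ < ε / 2
  · exact (norm_sub_partial_le _ _).trans hj.le
  · refine (hG j _ (fun r hr => ?_)).le
    rw [mem_preimage]
    refine hT (mem_biUnion.2 ⟨j, ?_, mem_image_of_mem _ hr⟩)
    rw [Set.Finite.mem_toFinset]
    exact hj

lemma diag_e_bound (G : Qa I →L[ℂ] Qa I →L[ℂ] ℂ) (a : Qa I) (F : Finset (I × (Bool × ℕ))) :
    ‖∑ x ∈ F, G (e x) (e x * β a)‖ ≤ 1 * ‖G‖ * ‖β a‖ := by
  classical
  have hne : ∀ i ∈ F.image Prod.fst, (F.filter (fun x => x.1 = i)).Nonempty := by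
    intro i hi
    obtain ⟨x, hx, rfl⟩ := mem_image.1 hi
    exact ⟨x, mem_filter.2 ⟨hx, rfl⟩⟩
  have hmax : ∀ i : I, ∃ t : Bool × ℕ, ∀ x ∈ F, x.1 = i → ‖G (e x) (e x)‖
      ≤ ‖G (e (i, t)) (e (i, t))‖ := by
    intro i
    by_cases hi : i ∈ F.image Prod.fst
    · obtain ⟨y, hy, hy'⟩ := exists_max_image (F.filter (fun x => x.1 = i))
        (fun x => ‖G (e x) (e x)‖) (hne i hi)
      refine ⟨y.2, fun x hx hxi => ?_⟩
      have h1 := hy' x (mem_filter.2 ⟨hx, hxi⟩)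
      have h2 : y = (i, y.2) := Prod.ext (mem_filter.1 hy).2 rfl
      rwa [h2] at h1
    · exact ⟨(true, 0), fun x hx hxi => absurd (mem_image.2 ⟨x, hx, hxi⟩) hi⟩
  choose τ hτ using hmax
  have hlam : ∀ i : I, ∃ c : ℂ, ‖c‖ = 1 ∧
      ((‖G (e (i, τ i)) (e (i, τ i))‖ : ℝ) : ℂ) = c * G (e (i, τ i)) (e (i, τ i)) :=
    fun i => RCLike.exists_norm_eq_mul_self _
  choose lam hlam1 hlam2 using hlam
  have h1 : ‖∑ i ∈ F.image Prod.fst, G (e (i, τ i)) (lam i • e (i, τ i))‖ ≤ ‖G‖ * 1 * 1 := by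
    refine bil_avg G _ _ _ 1 1 (fun ε hε => ?_) (fun ε hε => ?_)
    · unfold e
      rw [smul_sgl_sum]
      refine norm_sum_sgl_le _ _ _ zero_le_one (fun i _ => ?_)
      rw [norm_smul, norm_sign (hε i), E0.norm_e, one_mul]
    · have e1 : ∀ i, ε i • lam i • e (i, τ i) = (ε i * lam i) • e (i, τ i) := fun i => by
        rw [smul_smul]
      simp only [e1]
      unfold e
      rw [smul_sgl_sum]
      refine norm_sum_sgl_le _ _ _ zero_le_one (fun i _ => ?_)
      rw [norm_smul, norm_mul, norm_sign (hε i), hlam1, E0.norm_e, one_mul, one_mul]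
  have h2 : ∑ i ∈ F.image Prod.fst, G (e (i, τ i)) (lam i • e (i, τ i))
      = ((∑ i ∈ F.image Prod.fst, ‖G (e (i, τ i)) (e (i, τ i))‖ : ℝ) : ℂ) := by
    rw [Complex.ofReal_sum]
    refine sum_congr rfl (fun i _ => ?_)
    rw [hlam2, map_smul, smul_eq_mul]
  rw [h2, Complex.norm_real, Real.norm_eq_abs, abs_of_nonneg (sum_nonneg (fun _ _ => norm_nonneg _))]
    at h1
  have h3 : ‖∑ x ∈ F, G (e x) (e x * β a)‖
      ≤ ∑ x ∈ F, ‖(a x.1).v x.2‖ * ‖G (e (x.1, τ x.1)) (e (x.1, τ x.1))‖ := by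
    refine (norm_sum_le _ _).trans (sum_le_sum (fun x hx => ?_))
    rw [e_mul_β, map_smul, norm_smul]
    exact mul_le_mul_of_nonneg_left (hτ x.1 x hx rfl) (norm_nonneg _)
  refine h3.trans ?_
  rw [← sum_fiberwise_of_maps_to (g := Prod.fst) (t := F.image Prod.fst)
    (fun x hx => mem_image_of_mem _ hx)]
  have h4 : ∀ i ∈ F.image Prod.fst, ∑ x ∈ F with x.1 = i,
      ‖(a x.1).v x.2‖ * ‖G (e (x.1, τ x.1)) (e (x.1, τ x.1))‖
      ≤ ‖β a‖ * ‖G (e (i, τ i)) (e (i, τ i))‖ := by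
    intro i _
    have e1 : ∑ x ∈ F with x.1 = i,
        ‖(a x.1).v x.2‖ * ‖G (e (x.1, τ x.1)) (e (x.1, τ x.1))‖
        = (∑ x ∈ F with x.1 = i, ‖(a i).v x.2‖) * ‖G (e (i, τ i)) (e (i, τ i))‖ := by
      rw [sum_mul]
      refine sum_congr rfl (fun x hx => ?_)
      rw [(mem_filter.1 hx).2]
    rw [e1]
    refine mul_le_mul_of_nonneg_right ?_ (norm_nonneg _)
    have e2 : ∑ x ∈ F with x.1 = i, ‖(a i).v x.2‖
        = ∑ t ∈ (F.filter (fun x => x.1 = i)).image Prod.snd, ‖(a i).v t‖ := by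
      rw [sum_image]
      intro x hx y hy hxy
      exact Prod.ext ((mem_filter.1 hx).2.trans (mem_filter.1 hy).2.symm) hxy
    rw [e2]
    refine (L1.sum_norm_le _ _).trans ?_
    have e3 := apply_le (β a) i
    rw [β_apply, E0.norm_def, E0.β_c, E0.β_v, norm_zero, zero_add] at e3
    exact e3
  refine (sum_le_sum h4).trans ?_
  rw [← mul_sum]
  calc ‖β a‖ * ∑ i ∈ F.image Prod.fst, ‖G (e (i, τ i)) (e (i, τ i))‖ ≤ ‖β a‖ * (‖G‖ * 1 * 1) :=
        mul_le_mul_of_nonneg_left h1 (norm_nonneg _)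
    _ = _ := by ring

lemma diag_e : Diag (e : I × (Bool × ℕ) → Qa I) β 1 where
  K_nonneg := zero_le_one
  idem := e_idem
  orth := fun _ _ h => e_orth h
  ββ := fun a => by
    ext j
    rw [β_apply, β_apply]
    apply E0.ext' <;> simp
  βp := fun x a => β_ideal _ _
  sum := hasSum_e
  bound := diag_e_bound

lemma gStr : GStr (fun i : I => sgl i (1 : E0)) e β 1 where
  hp := diag_p
  he := diag_e
  min := fun t x => ⟨_, mul_e t x⟩
  βe := β_e
  ideal := β_ideal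
  βp := β_sgl_one_mul
  βp0 := β_sgl_one
  dec := fun a => by
    refine ⟨fun i => (a i).c, ?_⟩
    have e1 : (fun i : I => (a i).c • sgl i (1 : E0)) = fun i => sgl i ((a - β a) i) := by
      funext i
      rw [← sgl_smul]
      congr 1
      apply E0.ext'
      · simp
      · intro t; simp
    rw [e1]
    exact hasSum_sgl (a - β a)

theorem van3 : Van3 (Qa I) := van3_of_gStr gStr

theorem van4 : Van4 (Qa I) := van3.van4

end Qa

end Pool.Agent.Helper53.Dim3
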