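import Mathlib
import Pool.Agent.Helper53.Dim3I

set_option autoImplicit false
set_option maxSynthPendingDepth 3
set_option linter.unusedSectionVars false

namespace Pool.Agent.Helper53.Dim3

open Filter Topology Finset
open scoped ENNReal ZeroAtInfty

namespace Alg

variable {I : Type} [TopologicalSpace I] [DiscreteTopology I]

/-- the inclusion of `c₀(I; E0)` -/
noncomputable def inc : Qa I →L[ℂ] Alg I :=
  LinearMap.mkContinuous
    { toFun := fun g => mk g 0
      map_add' := fun g h => ext_gu rfl (by simp)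
      map_smul' := fun s g => ext_gu rfl (by simp) } 1 (fun g => by
    rw [one_mul]
    show ‖mk g 0‖ ≤ ‖g‖
    rw [norm_def]
    simp)

@[simp] lemma inc_g (x : Qa I) : (inc x).g = x := rfl
@[simp] lemma inc_u (x : Qa I) : (inc x).u = 0 := rfl

lemma norm_inc (x : Qa I) : ‖inc x‖ = ‖x‖ := by rw [norm_def]; simp

lemma norm_inc_le : ‖(inc : Qa I →L[ℂ] Alg I)‖ ≤ 1 :=
  LinearMap.mkContinuous_norm_le _ zero_le_one _

/-- the inclusion of `ℓ¹(I)` -/
noncomputable def incU : L1 I →L[ℂ] Alg I :=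
  LinearMap.mkContinuous
    { toFun := fun u => mk 0 u
      map_add' := fun g h => ext_gu (by simp) rfl
      map_smul' := fun s g => ext_gu (by simp) rfl } 1 (fun g => by
    rw [one_mul]
    show ‖mk 0 g‖ ≤ ‖g‖
    rw [norm_def]
    simp)

@[simp] lemma incU_g (x : L1 I) : (incU x).g = 0 := rfl
@[simp] lemma incU_u (x : L1 I) : (incU x).u = x := rfl

/-- the projection to `c₀(I; E0)` -/
noncomputable def proj : Alg I →L[ℂ] Qa I :=
  LinearMap.mkContinuous
    { toFun := g
      map_add' := fun _ _ => rfl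
      map_smul' := fun _ _ => rfl } 1 (fun a => by rw [one_mul]; exact norm_g_le a)

@[simp] lemma proj_apply (a : Alg I) : proj a = a.g := rfl

lemma norm_proj_le : ‖(proj : Alg I →L[ℂ] Qa I)‖ ≤ 1 :=
  LinearMap.mkContinuous_norm_le _ zero_le_one _

/-- the coordinates of the second component -/
noncomputable def coordU (i : I) : Alg I →L[ℂ] ℂ :=
  LinearMap.mkContinuous
    { toFun := fun a => a.u i
      map_add' := fun _ _ => rfl
      map_smul' := fun _ _ => rfl } 1 (fun a => by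
    rw [one_mul]; exact (L1.norm_apply_le a.u i).trans (norm_u_le a))

@[simp] lemma coordU_apply (i : I) (a : Alg I) : coordU i a = a.u i := rfl

lemma norm_coordU_le (i : I) : ‖(coordU i : Alg I →L[ℂ] ℂ)‖ ≤ 1 :=
  LinearMap.mkContinuous_norm_le _ zero_le_one _

/-- the idempotent `d` in block `i` -/
noncomputable def d (i : I) : Alg I := incU (L1.e i)

@[simp] lemma d_g (i : I) : (d i).g = 0 := rfl
@[simp] lemma d_u (i : I) : (d i).u = L1.e i := rfl

lemma norm_d (i : I) : ‖d i‖ = 1 := by rw [norm_def]; simp [L1.norm_e]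

/-- the unit of block `i` -/
noncomputable def χ (i : I) : Alg I := inc (Qa.sgl i 1)

@[simp] lemma χ_g (i : I) : (χ i).g = Qa.sgl i 1 := rfl
@[simp] lemma χ_u (i : I) : (χ i).u = 0 := rfl

lemma norm_χ (i : I) : ‖χ i‖ = 1 := by
  rw [χ, norm_inc, Qa.norm_sgl, E0.norm_one]

lemma D_zero_right (g : Qa I) : Qa.D g 0 = 0 := by
  ext i
  simp

lemma D_zero_left (u : L1 I) : Qa.D 0 u = 0 := by
  ext i
  rw [Qa.D_apply]
  have : E0.p2 ((0 : Qa I) i) = 0 := by apply E0.ext' <;> simp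
  rw [this, smul_zero]
  rfl

lemma inc_mul (x y : Qa I) : inc (x * y) = inc x * inc y := by
  refine ext_gu ?_ ?_
  · rw [g_mul, inc_g, inc_g, inc_g, inc_u, inc_u, D_zero_right, D_zero_right, add_zero, add_zero]
  · ext i
    rw [u_mul]
    simp

lemma χ_mul (i : I) (a : Alg I) :
    χ i * a = inc (Qa.sgl i 1 * a.g) + a.u i • d i := by
  apply ext'
  · intro j
    by_cases h : j = i
    · subst h; simp
    · simp [Qa.sgl_ne h]
  · rintro j ⟨b, n⟩
    by_cases h : j = i
    · subst h; cases b <;> simp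
    · cases b <;> simp [Qa.sgl_ne h]
  · intro j
    by_cases h : j = i
    · subst h; simp
    · simp [Qa.sgl_ne h, L1.e_ne h]

lemma χ_idem (i : I) : χ i * χ i = χ i := by
  rw [χ, ← inc_mul, ← Qa.sgl_mul, mul_one]

lemma χ_orth {i j : I} (h : i ≠ j) : χ i * χ j = 0 := by
  rw [χ, χ, ← inc_mul, Qa.sgl_mul_ne h, map_zero]

lemma hasSum_χ (a : Alg I) : HasSum (fun i => χ i * a) a := by
  have h1 := inc.hasSum (Qa.diag_p.sum a.g)
  have h2 := incU.hasSum (L1.hasSum_e a.u)
  have h3 := h1.add h2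
  have e1 : inc ((ContinuousLinearMap.id ℂ (Qa I)) a.g) + incU a.u = a := by
    refine ext_gu ?_ ?_ <;> simp
  rw [e1] at h3
  have e2 : (fun i => χ i * a) = fun i => inc (Qa.sgl i 1 * (ContinuousLinearMap.id ℂ (Qa I)) a.g)
      + incU (a.u i • L1.e i) := by
    funext i
    rw [χ_mul, map_smul]
    rfl
  rw [e2]
  exact h3

/-- pulling back a bilinear form along the inclusion -/
noncomputable def pb (G : Alg I →L[ℂ] Alg I →L[ℂ] ℂ) : Qa I →L[ℂ] Qa I →L[ℂ] ℂ :=
  up inc (up inc (ContinuousLinearMap.id ℂ ℂ)) G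

lemma pb_apply (G : Alg I →L[ℂ] Alg I →L[ℂ] ℂ) (x y : Qa I) : pb G x y = G (inc x) (inc y) := rfl

lemma norm_pb_le (G : Alg I →L[ℂ] Alg I →L[ℂ] ℂ) : ‖pb G‖ ≤ ‖G‖ := by
  refine ContinuousLinearMap.opNorm_le_bound _ (norm_nonneg _) (fun x => ?_)
  refine ContinuousLinearMap.opNorm_le_bound _ (by positivity) (fun y => ?_)
  rw [pb_apply]
  calc ‖G (inc x) (inc y)‖ ≤ (‖G‖ * ‖inc x‖) * ‖inc y‖ :=
        ((G _).le_opNorm _).trans (mul_le_mul_of_nonneg_right (G.le_opNorm _) (norm_nonneg _))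
    _ = _ := by rw [norm_inc, norm_inc]

lemma diag_χ : Diag (χ : I → Alg I) (ContinuousLinearMap.id ℂ (Alg I)) 1 where
  K_nonneg := zero_le_one
  idem := χ_idem
  orth := fun _ _ h => χ_orth h
  ββ := fun _ => rfl
  βp := fun _ _ => rfl
  sum := fun a => hasSum_χ a
  bound := fun G a F => by
    rw [ContinuousLinearMap.id_apply]
    have e1 : ∑ i ∈ F, G (χ i) (χ i * a)
        = ∑ i ∈ F, pb G (Qa.sgl i 1) (Qa.sgl i 1 * (ContinuousLinearMap.id ℂ (Qa I)) a.g)
          + ∑ i ∈ F, a.u i * G (χ i) (d i) := by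
      rw [← sum_add_distrib]
      refine sum_congr rfl (fun i _ => ?_)
      rw [χ_mul, map_add, map_smul, smul_eq_mul]
      rfl
    have h1 := Qa.diag_p.bound (pb G) a.g F
    have h2 : ‖∑ i ∈ F, a.u i * G (χ i) (d i)‖ ≤ ‖G‖ * ‖a.u‖ := by
      calc _ ≤ ∑ i ∈ F, ‖G‖ * ‖a.u i‖ := by
            refine (norm_sum_le _ _).trans (sum_le_sum (fun i _ => ?_))
            rw [norm_mul, mul_comm]
            refine mul_le_mul_of_nonneg_right ?_ (norm_nonneg _)
            refine ((G _).le_opNorm _).trans ?_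
            rw [norm_d, mul_one]
            refine (G.le_opNorm _).trans ?_
            rw [norm_χ, mul_one]
        _ = ‖G‖ * ∑ i ∈ F, ‖a.u i‖ := by rw [mul_sum]
        _ ≤ _ := mul_le_mul_of_nonneg_left (L1.sum_norm_le _ _) (norm_nonneg _)
    rw [e1, norm_def a]
    refine (norm_add_le _ _).trans ?_
    have h3 := norm_pb_le G
    rw [ContinuousLinearMap.id_apply] at h1
    have h4 : 1 * ‖pb G‖ * ‖a.g‖ ≤ 1 * ‖G‖ * ‖a.g‖ := by gcongr
    calc _ ≤ 1 * ‖G‖ * ‖a.g‖ + ‖G‖ * ‖a.u‖ := add_le_add (h1.trans h4) h2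
      _ = _ := by ring

/-- the projection to the `ℓ¹` parts -/
noncomputable def βA : Alg I →L[ℂ] Alg I := inc.comp (Qa.β.comp proj)

lemma βA_apply (a : Alg I) : βA a = inc (Qa.β a.g) := rfl

/-- the minimal idempotents -/
noncomputable def e (x : I × (Bool × ℕ)) : Alg I := inc (Qa.e x)

lemma e_mul_βA (x : I × (Bool × ℕ)) (a : Alg I) : e x * βA a = inc (Qa.e x * Qa.β a.g) := by
  rw [inc_mul]; rfl

lemma mul_inc_β_g (x : Alg I) (y : Qa I) : Qa.β (x * inc (Qa.β y)).g = (x * inc (Qa.β y)).g := by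
  ext j
  rw [Qa.β_apply]
  apply E0.ext' <;> simp

lemma mul_inc_β_u (x : Alg I) (y : Qa I) : (x * inc (Qa.β y)).u = 0 := by
  ext j
  rw [u_mul]
  simp

lemma βA_ideal (x a : Alg I) : βA (x * βA a) = x * βA a := by
  rw [βA_apply, βA_apply]
  refine ext_gu ?_ ?_
  · rw [inc_g, mul_inc_β_g]
  · rw [mul_inc_β_u]; rfl

lemma diag_e : Diag (e : I × (Bool × ℕ) → Alg I) βA 1 where
  K_nonneg := zero_le_one
  idem := fun x => by rw [e, ← inc_mul, Qa.e_idem]
  orth := fun x y h => by rw [e, e, ← inc_mul, Qa.e_orth h, map_zero]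
  ββ := fun a => by
    rw [βA_apply, βA_apply, inc_g, Qa.diag_e.ββ]
  βp := fun x a => βA_ideal _ _
  sum := fun a => by
    have h := inc.hasSum (Qa.diag_e.sum a.g)
    have e1 : (fun x => e x * βA a) = fun x => inc (Qa.e x * Qa.β a.g) :=
      funext (fun x => e_mul_βA x a)
    rw [e1]
    exact h
  bound := fun G a F => by
    have h1 := Qa.diag_e.bound (pb G) a.g F
    have e1 : ∑ x ∈ F, G (e x) (e x * βA a) = ∑ x ∈ F, pb G (Qa.e x) (Qa.e x * Qa.β a.g) :=
      sum_congr rfl (fun x _ => by rw [e_mul_βA]; rfl)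
    have h3 := norm_pb_le G
    rw [e1, βA_apply, norm_inc]
    refine h1.trans ?_
    gcongr

lemma mul_e (x : I × (Bool × ℕ)) (a : Alg I) : a * e x =
    ((a.g x.1).c + (a.g x.1).v x.2 + (if x.2.1 = true then a.u x.1 else 0)) • e x := by
  obtain ⟨i, ⟨b, n⟩⟩ := x
  apply ext'
  · intro j
    by_cases h : j = i
    · subst h; simp [e, Qa.e]
    · simp [e, Qa.e, Qa.sgl_ne h]
  · rintro j ⟨b', n'⟩
    by_cases h : j = i
    · subst h
      by_cases h2 : (b', n') = (b, n)
      · obtain ⟨rfl, rfl⟩ := Prod.ext_iff.1 h2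
        cases b' <;> simp [e, Qa.e]
      · cases b' <;> simp [e, Qa.e, L1.e_ne h2]
    · cases b' <;> simp [e, Qa.e, Qa.sgl_ne h]
  · intro j
    by_cases h : j = i
    · subst h; simp [e, Qa.e]
    · simp [e, Qa.e, Qa.sgl_ne h]

/-- the transfer between blocks -/
noncomputable def tr {J : Type} [TopologicalSpace J] [DiscreteTopology J] (i : I) (j : J) :
    Alg I →L[ℂ] Alg J :=
  inc.comp ((Qa.sglL j).comp ((Qa.ev i).comp proj)) + (coordU i).smulRight (d j)

section tr

variable {J : Type} [TopologicalSpace J] [DiscreteTopology J]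

lemma tr_apply (i : I) (j : J) (a : Alg I) :
    tr i j a = inc (Qa.sgl j (a.g i)) + a.u i • d j := rfl

lemma norm_tr_le (i : I) (j : J) : ‖tr i j‖ ≤ 2 := by
  refine ContinuousLinearMap.opNorm_le_bound _ zero_le_two (fun a => ?_)
  rw [tr_apply]
  refine (norm_add_le _ _).trans ?_
  rw [norm_inc, Qa.norm_sgl, norm_smul, norm_d, mul_one]
  have h1 := (Qa.apply_le a.g i).trans (norm_g_le a)
  have h2 := (L1.norm_apply_le a.u i).trans (norm_u_le a)
  linarith

lemma tr_mul (i : I) (j : J) (a b : Alg I) : tr i j (a * b) = tr i j a * tr i j b := by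
  simp only [tr_apply]
  apply ext'
  · intro k
    by_cases h : k = j
    · subst h; simp
    · simp [Qa.sgl_ne h]
  · rintro k ⟨b', n'⟩
    by_cases h : k = j
    · subst h; cases b' <;> simp
    · cases b' <;> simp [Qa.sgl_ne h]
  · intro k
    by_cases h : k = j
    · subst h; simp
    · simp [Qa.sgl_ne h, L1.e_ne h]

end tr

end Alg

end Pool.Agent.Helper53.Dim3
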