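import Mathlib
import Pool.Agent.Helper53.Dim3J

set_option autoImplicit false
set_option maxSynthPendingDepth 3
set_option linter.unusedSectionVars false

namespace Pool.Agent.Helper53.Dim3

open Filter Topology Finset
open scoped ENNReal ZeroAtInfty

namespace Alg

lemma χ_mul_unit (a : Alg Unit) : χ () * a = a := by
  rw [χ_mul]
  refine ext' (fun i => ?_) (fun i t => ?_) (fun i => ?_) <;> cases i <;> simp

/-- the two idempotents of a block -/
noncomputable def p (b : Bool) : Alg Unit := if b = true then d () else χ () - d ()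

lemma d_idem {I : Type} [TopologicalSpace I] [DiscreteTopology I] (i : I) :
    (d i : Alg I) * d i = d i := by
  apply ext'
  · intro j
    simp
  · rintro j ⟨b, n⟩
    cases b <;> simp
  · intro j
    by_cases h : j = i
    · subst h; simp
    · simp [L1.e_ne h]

lemma p_true : p true = d () := rfl
lemma p_false : p false = χ () - d () := rfl

lemma p_idem (b : Bool) : p b * p b = p b := by
  cases b
  · rw [p_false, sub_mul, mul_sub, mul_sub, χ_mul_unit, χ_mul_unit, mul_comm (d ()) (χ ()),
      χ_mul_unit, d_idem]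
    abel
  · rw [p_true, d_idem]

lemma p_orth {b b' : Bool} (h : b ≠ b') : p b * p b' = 0 := by
  have h1 : p false * p true = 0 := by
    rw [p_false, p_true, sub_mul, χ_mul_unit, d_idem, sub_self]
  cases b <;> cases b'
  · exact absurd rfl h
  · exact h1
  · rw [mul_comm]; exact h1
  · exact absurd rfl h

lemma sum_p (a : Alg Unit) : HasSum (fun b => p b * a) a := by
  have h := hasSum_fintype (fun b => p b * a)
  have e1 : ∑ b : Bool, p b * a = a := by
    rw [Fintype.sum_bool, p_true, p_false, sub_mul, χ_mul_unit]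
    abel
  rw [e1] at h
  exact h

/-- a bound for the diagonal sums -/
noncomputable def KK : ℝ := ∑ b : Bool, ‖p b‖ * ‖p b‖

lemma KK_nonneg : 0 ≤ KK := Finset.sum_nonneg (fun _ _ => by positivity)

lemma diag_p : Diag p (ContinuousLinearMap.id ℂ (Alg Unit)) KK where
  K_nonneg := KK_nonneg
  idem := p_idem
  orth := fun _ _ h => p_orth h
  ββ := fun _ => rfl
  βp := fun _ _ => rfl
  sum := fun a => sum_p a
  bound := fun G a F => by
    rw [ContinuousLinearMap.id_apply]
    calc _ ≤ ∑ b ∈ F, (‖p b‖ * ‖p b‖) * (‖G‖ * ‖a‖) := by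
          refine (norm_sum_le _ _).trans (Finset.sum_le_sum (fun b _ => ?_))
          calc ‖G (p b) (p b * a)‖ ≤ (‖G‖ * ‖p b‖) * (‖p b‖ * ‖a‖) :=
                ((G _).le_opNorm _).trans (mul_le_mul (G.le_opNorm _) (norm_mul_le _ _)
                  (norm_nonneg _) (by positivity))
            _ = _ := by ring
      _ ≤ ∑ b : Bool, (‖p b‖ * ‖p b‖) * (‖G‖ * ‖a‖) :=
          Finset.sum_le_sum_of_subset_of_nonneg (Finset.subset_univ _)
            (fun _ _ _ => by positivity)
      _ = _ := by rw [← Finset.sum_mul, KK]; ring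

lemma βA_d_mul (a : Alg Unit) : βA (d () * a) = d () * βA a := by
  rw [βA_apply, βA_apply]
  apply ext'
  · intro j; cases j; simp
  · rintro j ⟨b, n⟩; cases j; cases b <;> simp
  · intro j; cases j; simp

lemma βA_p_mul (b : Bool) (a : Alg Unit) : βA (p b * a) = p b * βA a := by
  cases b
  · rw [p_false, sub_mul, sub_mul, map_sub, χ_mul_unit, χ_mul_unit, βA_d_mul]
  · exact βA_d_mul a

lemma βA_d : βA (d ()) = 0 := by
  rw [βA_apply, d_g, map_zero, map_zero]

lemma βA_p (b : Bool) : βA (p b) = 0 := by
  cases b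
  · rw [p_false, map_sub, βA_d, sub_zero, βA_apply, χ_g, Qa.β_sgl_one, map_zero]
  · exact βA_d

lemma Diag.mono {Q : Type*} [NonUnitalNormedCommRing Q] [NormedSpace ℂ Q] {ι : Type*}
    {p : ι → Q} {β : Q →L[ℂ] Q} {K K' : ℝ} (D : Diag p β K) (h : K ≤ K') : Diag p β K' where
  K_nonneg := D.K_nonneg.trans h
  idem := D.idem
  orth := D.orth
  ββ := D.ββ
  βp := D.βp
  sum := D.sum
  bound := fun G a F => (D.bound G a F).trans (by gcongr)

lemma gStr : GStr p (e : Unit × (Bool × ℕ) → Alg Unit) βA (KK + 1) where
  hp := Diag.mono diag_p (by linarith)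
  he := Diag.mono diag_e (by linarith [KK_nonneg])
  min := fun t x => ⟨_, mul_e t x⟩
  βe := fun t => by
    rw [βA_apply, e, inc_g, Qa.β_e]
  ideal := βA_ideal
  βp := βA_p_mul
  βp0 := βA_p
  dec := fun a => by
    refine ⟨fun b => if b = true then (a.g ()).c + a.u () else (a.g ()).c, ?_⟩
    have h := hasSum_fintype (fun b : Bool =>
      (if b = true then (a.g ()).c + a.u () else (a.g ()).c) • p b)
    have e1 : ∑ b : Bool, (if b = true then (a.g ()).c + a.u () else (a.g ()).c) • p b
        = a - βA a := by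
      rw [Fintype.sum_bool, p_true, p_false, βA_apply]
      apply ext'
      · intro j; cases j; simp
      · rintro j ⟨b, n⟩; cases j; simp
      · intro j; cases j; simp
    rw [e1] at h
    exact h

theorem van3_unit : Van3 (Alg Unit) := van3_of_gStr gStr

/-- the block structure -/
noncomputable def blocks : Blocks (Alg ℕ) (Qa ℕ) (Alg Unit) (Qa Unit) where
  jC := inc
  jC_mul := inc_mul
  πC := proj
  πC_jC := fun _ => rfl
  jE := inc
  jE_mul := inc_mul
  πE := proj
  πE_jE := fun _ => rfl
  K := 1
  χ := χ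
  diag := diag_χ
  χC := fun _ => ⟨_, rfl⟩
  M := 2
  χ_le := fun k => by rw [norm_χ]; norm_num
  ι := fun k => tr () k
  ι_mul := fun k => tr_mul () k
  ι_le := fun k => norm_tr_le () k
  pr := fun k => tr k ()
  pr_mul := fun k => tr_mul k ()
  pr_le := fun k => norm_tr_le k ()
  ι_pr := fun k a => by
    rw [χ_mul, tr_apply, tr_apply]
    apply ext'
    · intro j
      by_cases h : j = k
      · subst h; simp
      · simp [Qa.sgl_ne h]
    · rintro j ⟨b, n⟩
      by_cases h : j = k
      · subst h; simp
      · simp [Qa.sgl_ne h]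
    · intro j
      by_cases h : j = k
      · subst h; simp
      · simp [L1.e_ne h]
  ι_jE := fun k x => by
    refine ⟨Qa.sgl k (x ()), ?_⟩
    rw [tr_apply, inc_g, inc_u]
    simp
  d := d ()
  u := coordU ()
  dec := fun f => by
    refine ext_gu ?_ ?_
    · simp
    · ext j; cases j; simp
  sum_u := fun a s => by
    have e1 : ∀ k, coordU () (tr k () a) = a.u k := fun k => by
      rw [coordU_apply, tr_apply]
      simp
    simp only [e1]
    have h1 := L1.sum_norm_le a.u s
    have h2 := norm_u_le a
    have h3 := norm_nonneg a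
    linarith

/-- all fourth cohomology groups of `A` vanish -/
theorem van4 : Van4 (Alg ℕ) := blocks.van4 Qa.van4 van3_unit.van4 Qa.van3

end Alg

end Pool.Agent.Helper53.Dim3
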