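import Mathlib
import Pool.Agent.Helper53.Dim3J

set_option autoImplicit false
set_option maxSynthPendingDepth 3
set_option linter.unusedSectionVars false

namespace Pool.Agent.Helper53.Dim3

open Filter Topology Finset
open scoped ENNReal ZeroAtInfty BoundedContinuousFunction

@[simp] lemma homBimod_left {A X Y : Type*} [NonUnitalNormedRing A] [NormedSpace ℂ A]
    [NormedAddCommGroup X] [NormedSpace ℂ X] [NormedAddCommGroup Y] [NormedSpace ℂ Y]
    (mX : LeftMod A X) (mY : LeftMod A Y) (a : A) (φ : X →L[ℂ] Y) (x : X) :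
    (homBimod mX mY).left a φ x = mY.act a (φ x) := rfl

@[simp] lemma homBimod_right {A X Y : Type*} [NonUnitalNormedRing A] [NormedSpace ℂ A]
    [NormedAddCommGroup X] [NormedSpace ℂ X] [NormedAddCommGroup Y] [NormedSpace ℂ Y]
    (mX : LeftMod A X) (mY : LeftMod A Y) (a : A) (φ : X →L[ℂ] Y) (x : X) :
    (homBimod mX mY).right a φ x = φ (mX.act a x) := rfl

/-- the universal property of `ℓ¹` -/
noncomputable def lift {T Y : Type} [NormedAddCommGroup Y] [NormedSpace ℂ Y] [CompleteSpace Y]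
    (f : T → Y) (C : ℝ) (hf : ∀ t, ‖f t‖ ≤ C) : L1 T →L[ℂ] Y :=
  LinearMap.mkContinuous
    { toFun := fun x => ∑' t, x t • f t
      map_add' := fun x y => by
        have h : ∀ z : L1 T, Summable (fun t => z t • f t) := fun z =>
          Summable.of_norm_bounded ((L1.summable_norm z).mul_right C) (fun t => by
            rw [norm_smul]; exact mul_le_mul_of_nonneg_left (hf t) (norm_nonneg _))
        rw [← (h x).tsum_add (h y)]
        refine tsum_congr (fun t => ?_)
        rw [lp.coeFn_add, Pi.add_apply, add_smul]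
      map_smul' := fun s x => by
        have h : ∀ z : L1 T, Summable (fun t => z t • f t) := fun z =>
          Summable.of_norm_bounded ((L1.summable_norm z).mul_right C) (fun t => by
            rw [norm_smul]; exact mul_le_mul_of_nonneg_left (hf t) (norm_nonneg _))
        rw [RingHom.id_apply, ← (h x).tsum_const_smul s]
        refine tsum_congr (fun t => ?_)
        rw [lp.coeFn_smul, Pi.smul_apply, smul_assoc] } C (fun x => by
    have h1 : HasSum (fun t => C * ‖x t‖) (C * ‖x‖) := (L1.hasSum_norm x).mul_left C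
    have h2 : ∀ t, ‖x t • f t‖ ≤ C * ‖x t‖ := fun t => by
      rw [norm_smul, mul_comm]; exact mul_le_mul_of_nonneg_right (hf t) (norm_nonneg _)
    exact tsum_of_norm_bounded h1 h2)

lemma hasSum_lift {T Y : Type} [NormedAddCommGroup Y] [NormedSpace ℂ Y] [CompleteSpace Y]
    (f : T → Y) (C : ℝ) (hf : ∀ t, ‖f t‖ ≤ C) (x : L1 T) :
    HasSum (fun t => x t • f t) (lift f C hf x) :=
  (Summable.of_norm_bounded ((L1.summable_norm x).mul_right C) (fun t => by
    rw [norm_smul]; exact mul_le_mul_of_nonneg_left (hf t) (norm_nonneg _))).hasSum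

lemma norm_lift_le {T Y : Type} [NormedAddCommGroup Y] [NormedSpace ℂ Y] [CompleteSpace Y]
    (f : T → Y) (C : ℝ) (hC : 0 ≤ C) (hf : ∀ t, ‖f t‖ ≤ C) : ‖lift f C hf‖ ≤ C :=
  LinearMap.mkContinuous_norm_le _ hC _

namespace Alg

/-- bounded double sequences -/
abbrev XX : Type := (ℕ × ℕ) →ᵇ ℂ

/-- absolutely summable double sequences -/
abbrev YY : Type := L1 (ℕ × ℕ)

lemma v1_bound (a : Alg ℕ) (x : ℕ × ℕ) : ‖(a.g x.1).c + (a.g x.1).v (false, x.2)‖ ≤ ‖a‖ := by
  refine (norm_add_le _ _).trans ?_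
  have h1 := L1.norm_apply_le (a.g x.1).v (false, x.2)
  have h2 := Qa.apply_le a.g x.1
  rw [E0.norm_def] at h2
  linarith [norm_g_le a]

/-- the values at the points of the first part -/
noncomputable def V1 : Alg ℕ →L[ℂ] XX :=
  LinearMap.mkContinuous
    { toFun := fun a => BoundedContinuousFunction.ofNormedAddCommGroupDiscrete
        (fun x : ℕ × ℕ => (a.g x.1).c + (a.g x.1).v (false, x.2)) ‖a‖ (v1_bound a)
      map_add' := fun a b => by
        ext x
        show ((a + b).g x.1).c + ((a + b).g x.1).v (false, x.2)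
          = ((a.g x.1).c + (a.g x.1).v (false, x.2)) + ((b.g x.1).c + (b.g x.1).v (false, x.2))
        simp
        ring
      map_smul' := fun s a => by
        ext x
        show ((s • a).g x.1).c + ((s • a).g x.1).v (false, x.2)
          = s * ((a.g x.1).c + (a.g x.1).v (false, x.2))
        simp
        ring } 1 (fun a => by
      rw [one_mul]
      exact (BoundedContinuousFunction.norm_le (norm_nonneg _)).2 (v1_bound a))

lemma V1_apply (a : Alg ℕ) (x : ℕ × ℕ) : V1 a x = (a.g x.1).c + (a.g x.1).v (false, x.2) := rfl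

lemma V1_mul (a b : Alg ℕ) : V1 (a * b) = V1 a * V1 b := by
  ext x
  rw [BoundedContinuousFunction.mul_apply]
  simp only [V1_apply]
  simp
  ring

lemma v2_bound (a : Alg ℕ) (x : ℕ × ℕ) :
    ‖(a.g x.1).c + a.u x.1 + (a.g x.1).v (true, x.2)‖ ≤ ‖a‖ := by
  refine norm_add₃_le.trans ?_
  have h1 := L1.norm_apply_le (a.g x.1).v (true, x.2)
  have h2 := Qa.apply_le a.g x.1
  have h3 := L1.norm_apply_le a.u x.1
  rw [E0.norm_def] at h2
  rw [norm_def]
  linarith

/-- the values at the points of the second part -/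
noncomputable def V2 : Alg ℕ →L[ℂ] XX :=
  LinearMap.mkContinuous
    { toFun := fun a => BoundedContinuousFunction.ofNormedAddCommGroupDiscrete
        (fun x : ℕ × ℕ => (a.g x.1).c + a.u x.1 + (a.g x.1).v (true, x.2)) ‖a‖ (v2_bound a)
      map_add' := fun a b => by
        ext x
        show ((a + b).g x.1).c + (a + b).u x.1 + ((a + b).g x.1).v (true, x.2)
          = ((a.g x.1).c + a.u x.1 + (a.g x.1).v (true, x.2))
            + ((b.g x.1).c + b.u x.1 + (b.g x.1).v (true, x.2))
        simp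
        ring
      map_smul' := fun s a => by
        ext x
        show ((s • a).g x.1).c + (s • a).u x.1 + ((s • a).g x.1).v (true, x.2)
          = s * ((a.g x.1).c + a.u x.1 + (a.g x.1).v (true, x.2))
        simp
        ring } 1 (fun a => by
      rw [one_mul]
      exact (BoundedContinuousFunction.norm_le (norm_nonneg _)).2 (v2_bound a))

lemma V2_apply (a : Alg ℕ) (x : ℕ × ℕ) :
    V2 a x = (a.g x.1).c + a.u x.1 + (a.g x.1).v (true, x.2) := rfl

lemma V2_mul (a b : Alg ℕ) : V2 (a * b) = V2 a * V2 b := by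
  ext x
  rw [BoundedContinuousFunction.mul_apply]
  simp only [V2_apply]
  simp
  ring

lemma mulY_bound (b : XX) (y : YY) (i : ℕ × ℕ) : ‖b i * y i‖ ≤ ‖b‖ * ‖y i‖ := by
  rw [norm_mul]
  exact mul_le_mul_of_nonneg_right (b.norm_coe_le_norm i) (norm_nonneg _)

/-- coordinatewise multiplication of bounded and summable families -/
noncomputable def mulY : XX →L[ℂ] YY →L[ℂ] YY :=
  LinearMap.mkContinuous₂
    (LinearMap.mk₂ ℂ (fun (b : XX) (y : YY) =>
        L1.mk (fun i => b i * y i) (L1.summable_of_le y ‖b‖ _ (mulY_bound b y)))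
      (fun a b y => by ext i; simp [add_mul]) (fun c a y => by ext i; simp [mul_assoc])
      (fun a y z => by ext i; simp [mul_add]) (fun c a y => by ext i; simp [mul_left_comm]))
    1 (fun b y => by
      rw [one_mul]
      exact hasSum_le (mulY_bound b y)
        (L1.hasSum_norm (L1.mk (fun i => b i * y i) (L1.summable_of_le y ‖b‖ _ (mulY_bound b y))))
        ((L1.hasSum_norm y).mul_left ‖b‖))

lemma mulY_apply (b : XX) (y : YY) (i : ℕ × ℕ) : mulY b y i = b i * y i := rfl

/-- the module of bounded double sequences, on which `a` acts as multiplication by its values at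
the points of the first part -/
noncomputable def modX : LeftMod (Alg ℕ) XX where
  act := (ContinuousLinearMap.mul ℂ XX).comp V1
  act_mul := fun a b x => by
    rw [ContinuousLinearMap.comp_apply, V1_mul]
    exact mul_assoc _ _ _

/-- the module of absolutely summable double sequences, on which `a` acts as multiplication by
its values at the points of the second part -/
noncomputable def modY : LeftMod (Alg ℕ) YY where
  act := mulY.comp V2
  act_mul := fun a b y => by
    rw [ContinuousLinearMap.comp_apply, V2_mul]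
    ext i
    show (V2 a * V2 b) i * y i = V2 a i * (V2 b i * y i)
    rw [BoundedContinuousFunction.mul_apply, mul_assoc]

lemma modX_apply (a : Alg ℕ) (x : XX) (i : ℕ × ℕ) : modX.act a x i = V1 a i * x i := rfl
lemma modY_apply (a : Alg ℕ) (y : YY) (i : ℕ × ℕ) : modY.act a y i = V2 a i * y i := rfl

/-- the `ℓ¹` part at `k` as an operator -/
noncomputable def vL (k : ℕ) : Alg ℕ →L[ℂ] L1 (Bool × ℕ) :=
  LinearMap.mkContinuous
    { toFun := fun a => (a.g k).v
      map_add' := fun _ _ => rfl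
      map_smul' := fun _ _ => rfl } 1 (fun a => by
    rw [one_mul]
    exact ((E0.norm_v_le _).trans (Qa.apply_le a.g k)).trans (norm_g_le a))

lemma vL_apply (k : ℕ) (a : Alg ℕ) : vL k a = (a.g k).v := rfl

lemma norm_vL_le (k : ℕ) : ‖vL k‖ ≤ 1 := LinearMap.mkContinuous_norm_le _ zero_le_one _

/-- the second component as an operator -/
noncomputable def uL : Alg ℕ →L[ℂ] L1 ℕ :=
  LinearMap.mkContinuous
    { toFun := fun a => a.u
      map_add' := fun _ _ => rfl
      map_smul' := fun _ _ => rfl } 1 (fun a => by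
    rw [one_mul]
    exact norm_u_le a)

lemma uL_apply (a : Alg ℕ) : uL a = a.u := rfl

lemma psiF_le (k : ℕ) (t : Bool × ℕ) :
    ‖(if t.1 = true then L1.e (k, t.2) else 0 : YY)‖ ≤ 1 := by
  split_ifs
  · rw [L1.norm_e]
  · simp

/-- `ψ_k` -/
noncomputable def psi (k : ℕ) : Alg ℕ →L[ℂ] YY :=
  (lift (fun t : Bool × ℕ => (if t.1 = true then L1.e (k, t.2) else 0 : YY)) 1 (psiF_le k)).comp
    (vL k)

lemma norm_psi_le (k : ℕ) : ‖psi k‖ ≤ 1 := by
  refine (ContinuousLinearMap.opNorm_comp_le _ _).trans ?_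
  calc _ ≤ (1 : ℝ) * 1 := mul_le_mul (norm_lift_le _ _ zero_le_one _) (norm_vL_le k)
        (norm_nonneg _) zero_le_one
    _ = 1 := one_mul 1

lemma psi_apply (k : ℕ) (a : Alg ℕ) (x : ℕ × ℕ) :
    psi k a x = if x.1 = k then (a.g k).v (true, x.2) else 0 := by
  have h := hasSum_lift (fun t : Bool × ℕ => (if t.1 = true then L1.e (k, t.2) else 0 : YY)) 1
    (psiF_le k) (a.g k).v
  have h1 := (lp.evalCLM ℂ (fun _ : ℕ × ℕ => ℂ) 1 x).hasSum h
  have h2 : psi k a x = (lp.evalCLM ℂ (fun _ : ℕ × ℕ => ℂ) 1 x)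
      (lift (fun t : Bool × ℕ => (if t.1 = true then L1.e (k, t.2) else 0 : YY)) 1
    (psiF_le k) (a.g k).v) := rfl
  rw [h2, single_of_hasSum h1 (true, x.2) (fun t ht => ?_)]
  · obtain ⟨l, i⟩ := x
    show ((a.g k).v (true, i) • (if (true, i).1 = true then L1.e (k, (true, i).2) else 0 : YY))
      (l, i) = _
    rw [if_pos rfl, lp.coeFn_smul, Pi.smul_apply, smul_eq_mul]
    by_cases h3 : l = k
    · subst h3; simp
    · rw [if_neg h3, L1.e_ne (fun h => h3 (Prod.ext_iff.1 h).1), mul_zero]
  · obtain ⟨l, i⟩ := x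
    obtain ⟨b, n⟩ := t
    show ((a.g k).v (b, n) • (if (b, n).1 = true then L1.e (k, (b, n).2) else 0 : YY))
      (l, i) = 0
    rw [lp.coeFn_smul, Pi.smul_apply, smul_eq_mul]
    cases b
    · simp
    · have h3 : n ≠ i := fun h => ht (by rw [h])
      rw [if_pos rfl, L1.e_ne (fun h => h3 (Prod.ext_iff.1 h).2.symm), mul_zero]

/-- the evaluation functionals -/
noncomputable def evX (x : ℕ × ℕ) : XX →L[ℂ] ℂ := BoundedContinuousFunction.evalCLM ℂ x

lemma evX_apply (x : ℕ × ℕ) (z : XX) : evX x z = z x := rfl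

lemma norm_evX_le (x : ℕ × ℕ) : ‖evX x‖ ≤ 1 :=
  ContinuousLinearMap.opNorm_le_bound _ zero_le_one (fun z => by
    rw [one_mul]; exact z.norm_coe_le_norm x)

lemma phiF_le (k : ℕ) (t : Bool × ℕ) :
    ‖(if t.1 = false then evX (k, t.2) else 0 : XX →L[ℂ] ℂ)‖ ≤ 1 := by
  split_ifs
  · exact norm_evX_le _
  · simp

/-- `φ_k` -/
noncomputable def phi (k : ℕ) : Alg ℕ →L[ℂ] (XX →L[ℂ] ℂ) :=
  (lift (fun t : Bool × ℕ => (if t.1 = false then evX (k, t.2) else 0 : XX →L[ℂ] ℂ)) 1
    (phiF_le k)).comp (vL k)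

lemma norm_phi_le (k : ℕ) : ‖phi k‖ ≤ 1 := by
  refine (ContinuousLinearMap.opNorm_comp_le _ _).trans ?_
  calc _ ≤ (1 : ℝ) * 1 := mul_le_mul (norm_lift_le _ _ zero_le_one _) (norm_vL_le k)
        (norm_nonneg _) zero_le_one
    _ = 1 := one_mul 1

lemma hasSum_phi (k : ℕ) (a : Alg ℕ) (z : XX) :
    HasSum (fun t : Bool × ℕ => (a.g k).v t * (if t.1 = false then z (k, t.2) else 0))
      (phi k a z) := by
  have h := (hasSum_lift (fun t : Bool × ℕ => (if t.1 = false then evX (k, t.2) else 0 :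
    XX →L[ℂ] ℂ)) 1 (phiF_le k) (a.g k).v).ev z
  have e1 : (fun t : Bool × ℕ => (a.g k).v t * (if t.1 = false then z (k, t.2) else 0))
      = fun t : Bool × ℕ => ((a.g k).v t • (if t.1 = false then evX (k, t.2) else 0 :
    XX →L[ℂ] ℂ)) z := by
    funext t
    rw [smul_apply, smul_eq_mul]
    split_ifs <;> rfl
  rw [e1]
  exact h

lemma phi_act (k : ℕ) (a b : Alg ℕ) (z : XX) :
    phi k a (modX.act b z) = phi k (a * b) z - (a.g k).c * phi k b z := by
  have h1 := hasSum_phi k a (modX.act b z)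
  have h2 := (hasSum_phi k (a * b) z).sub ((hasSum_phi k b z).mul_left (a.g k).c)
  have e1 : (fun t : Bool × ℕ => (a.g k).v t * (if t.1 = false then (modX.act b z) (k, t.2) else 0))
      = fun t : Bool × ℕ => ((a * b).g k).v t * (if t.1 = false then z (k, t.2) else 0)
        - (a.g k).c * ((b.g k).v t * (if t.1 = false then z (k, t.2) else 0)) := by
    funext t
    obtain ⟨s, n⟩ := t
    cases s
    · simp only [if_true, modX_apply, V1_apply]
      simp
      ring
    · simp
  rw [e1] at h1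
  exact h1.unique h2

lemma psi_act (k : ℕ) (a b : Alg ℕ) :
    modY.act a (psi k b) = psi k (a * b) - ((b.g k).c + b.u k) • psi k a := by
  ext x
  rw [modY_apply, lp.coeFn_sub, Pi.sub_apply, lp.coeFn_smul, Pi.smul_apply, smul_eq_mul,
    psi_apply, psi_apply, psi_apply, V2_apply]
  by_cases h : x.1 = k
  · rw [if_pos h, if_pos h, if_pos h, h]
    simp
    ring
  · rw [if_neg h, if_neg h, if_neg h]
    simp

/-- the rank one operators -/
noncomputable def PP (k : ℕ) : Alg ℕ →L[ℂ] Alg ℕ →L[ℂ] (XX →L[ℂ] YY) :=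
  ((ContinuousLinearMap.smulRightL ℂ XX YY).comp (phi k)).flip.comp (psi k)

lemma PP_apply (k : ℕ) (a c : Alg ℕ) (z : XX) : PP k a c z = phi k c z • psi k a := rfl

lemma norm_PP_le (k : ℕ) : ‖PP k‖ ≤ 1 := by
  refine ContinuousLinearMap.opNorm_le_bound _ zero_le_one (fun a => ?_)
  refine ContinuousLinearMap.opNorm_le_bound _ (by positivity) (fun c => ?_)
  refine ContinuousLinearMap.opNorm_le_bound _ (by positivity) (fun z => ?_)
  rw [PP_apply, norm_smul, one_mul]
  have h1 := (phi k c).le_opNorm z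
  have h2 := (phi k).le_of_opNorm_le (norm_phi_le k) c
  have h3 := (psi k).le_of_opNorm_le (norm_psi_le k) a
  calc ‖phi k c z‖ * ‖psi k a‖ ≤ (‖phi k c‖ * ‖z‖) * (1 * ‖a‖) := by gcongr
    _ ≤ ((1 * ‖c‖) * ‖z‖) * (1 * ‖a‖) := by gcongr
    _ = _ := by ring

/-- the cocycle -/
noncomputable def TT : Alg ℕ →L[ℂ] Alg ℕ →L[ℂ] Alg ℕ →L[ℂ] (XX →L[ℂ] YY) :=
  -((lift PP 1 norm_PP_le).comp uL).flip

lemma hasSum_TT (a b c : Alg ℕ) (z : XX) :
    HasSum (fun k => -(b.u k • phi k c z • psi k a)) (TT a b c z) := by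
  have h := (((hasSum_lift PP 1 norm_PP_le b.u).ev a).ev c).ev z
  exact h.neg

lemma coc_TT : Coc3 (homBimod modX modY) TT := by
  intro a b c d
  ext1 z
  have h1 := (modY.act a).hasSum (hasSum_TT b c d z)
  have h2 := hasSum_TT (a * b) c d z
  have h3 := hasSum_TT a (b * c) d z
  have h4 := hasSum_TT a b (c * d) z
  have h5 := hasSum_TT a b c (modX.act d z)
  have h := (((h1.sub h2).add h3).sub h4).add h5
  have e1 : (fun k => modY.act a (-(c.u k • phi k d z • psi k b))
      - -(c.u k • phi k d z • psi k (a * b)) + -((b * c).u k • phi k d z • psi k a)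
      - -(b.u k • phi k (c * d) z • psi k a) + -(b.u k • phi k c (modX.act d z) • psi k a))
      = fun _ => (0 : YY) := by
    funext k
    rw [map_neg, map_smul, map_smul, psi_act, phi_act, u_mul]
    simp only [smul_sub, sub_smul, smul_smul, ← neg_smul]
    module
  rw [e1] at h
  exact h.unique hasSum_zero

/-- unit vectors of the bounded double sequences -/
noncomputable def del (x : ℕ × ℕ) : XX :=
  BoundedContinuousFunction.ofNormedAddCommGroupDiscrete
    (fun y : ℕ × ℕ => (if y = x then 1 else 0 : ℂ)) 1 (fun y => by split_ifs <;> simp)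

lemma del_apply (x y : ℕ × ℕ) : del x y = if y = x then 1 else 0 := rfl

end Alg

end Pool.Agent.Helper53.Dim3
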