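import Mathlib
import Pool.Agent.Helper53.Dim3L

set_option autoImplicit false
set_option maxSynthPendingDepth 3
set_option linter.unusedSectionVars false

namespace Pool.Agent.Helper53.Dim3

open Filter Topology Finset
open scoped ENNReal ZeroAtInfty BoundedContinuousFunction

namespace Alg

lemma norm_sum_del_le (s : Finset ℕ) (θ : ℕ → ℂ) (f : ℕ → ℕ × ℕ) (hf : Function.Injective f)
    (hθ : ∀ n, ‖θ n‖ ≤ 1) : ‖∑ n ∈ s, θ n • del (f n)‖ ≤ 1 := by
  refine (BoundedContinuousFunction.norm_le zero_le_one).2 (fun x => ?_)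
  have e1 : (∑ n ∈ s, θ n • del (f n)) x = ∑ n ∈ s, θ n * (if x = f n then 1 else 0) := by
    rw [BoundedContinuousFunction.sum_apply]
    rfl
  rw [e1]
  by_cases h : ∃ m ∈ s, x = f m
  · obtain ⟨m, hm, rfl⟩ := h
    rw [sum_eq_single m (fun n _ hn => by rw [if_neg (fun h => hn (hf h).symm), mul_zero])
      (fun h => absurd hm h), if_pos rfl, mul_one]
    exact hθ m
  · rw [sum_eq_zero (fun n hn => by rw [if_neg (fun h' => h ⟨n, hn, h'⟩), mul_zero]), norm_zero]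
    exact zero_le_one

lemma norm_sum_e_le (s : Finset ℕ) (θ : ℕ → ℂ) (t : Bool × ℕ) (hθ : ∀ n, ‖θ n‖ ≤ 1) :
    ‖∑ n ∈ s, θ n • (e (n, t) : Alg ℕ)‖ ≤ 1 := by
  have e1 : ∑ n ∈ s, θ n • (e (n, t) : Alg ℕ) = inc (∑ n ∈ s, Qa.sgl n (θ n • E0.e t)) := by
    rw [map_sum]
    refine sum_congr rfl (fun n _ => ?_)
    rw [Qa.sgl_smul, map_smul]
    rfl
  rw [e1, norm_inc]
  refine Qa.norm_sum_sgl_le _ _ _ zero_le_one (fun n _ => ?_)
  rw [norm_smul, E0.norm_e, mul_one]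
  exact hθ n

lemma norm_e (x : ℕ × (Bool × ℕ)) : ‖(e x : Alg ℕ)‖ = 1 := by
  rw [e, norm_inc, Qa.e, Qa.norm_sgl, E0.norm_e]

lemma norm_del_le (x : ℕ × ℕ) : ‖del x‖ ≤ 1 :=
  (BoundedContinuousFunction.norm_le zero_le_one).2 (fun y => by
    rw [del_apply]; split_ifs <;> simp)

variable (S : Alg ℕ →L[ℂ] Alg ℕ →L[ℂ] (XX →L[ℂ] YY))

lemma norm_S_le (a b : Alg ℕ) (z : XX) : ‖S a b z‖ ≤ ‖S‖ * ‖a‖ * ‖b‖ * ‖z‖ := by
  refine ((S a b).le_opNorm z).trans (mul_le_mul_of_nonneg_right ?_ (norm_nonneg _))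
  exact ((S a).le_opNorm b).trans (mul_le_mul_of_nonneg_right (S.le_opNorm a) (norm_nonneg _))

/-- row sums -/
lemma row_le (a b : Alg ℕ) (ha : ‖a‖ ≤ 1) (hb : ‖b‖ ≤ 1) (k i : ℕ) (s : Finset ℕ) :
    ∑ j ∈ s, ‖S a b (del (k, j)) (k, i)‖ ≤ ‖S‖ := by
  have hlam : ∀ j : ℕ, ∃ c : ℂ, ‖c‖ = 1 ∧
      ((‖S a b (del (k, j)) (k, i)‖ : ℝ) : ℂ) = c * S a b (del (k, j)) (k, i) :=
    fun j => RCLike.exists_norm_eq_mul_self _
  choose lam h1 h2 using hlam
  have e1 : ((∑ j ∈ s, ‖S a b (del (k, j)) (k, i)‖ : ℝ) : ℂ)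
      = S a b (∑ j ∈ s, lam j • del (k, j)) (k, i) := by
    rw [Complex.ofReal_sum, map_sum, lp.coeFn_sum, Finset.sum_apply]
    refine sum_congr rfl (fun j _ => ?_)
    rw [h2, map_smul, lp.coeFn_smul, Pi.smul_apply, smul_eq_mul]
  have e2 : ‖((∑ j ∈ s, ‖S a b (del (k, j)) (k, i)‖ : ℝ) : ℂ)‖
      = ∑ j ∈ s, ‖S a b (del (k, j)) (k, i)‖ := by
    rw [Complex.norm_real, Real.norm_eq_abs, abs_of_nonneg (sum_nonneg (fun _ _ => norm_nonneg _))]
  rw [← e2, e1]
  refine (L1.norm_apply_le _ _).trans ((norm_S_le S a b _).trans ?_)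
  have h3 := norm_sum_del_le s lam (fun j => (k, j)) (fun _ _ h => (Prod.ext_iff.1 h).2)
    (fun n => (h1 n).le)
  calc _ ≤ ‖S‖ * 1 * 1 * 1 := by gcongr
    _ = _ := by ring

/-- column sums -/
lemma col_le (a b : Alg ℕ) (ha : ‖a‖ ≤ 1) (hb : ‖b‖ ≤ 1) (k j : ℕ) (s : Finset ℕ) :
    ∑ i ∈ s, ‖S a b (del (k, j)) (k, i)‖ ≤ ‖S‖ := by
  have e1 : ∑ i ∈ s, ‖S a b (del (k, j)) (k, i)‖
      = ∑ x ∈ s.map ⟨fun i => (k, i), fun _ _ h => (Prod.ext_iff.1 h).2⟩,
        ‖S a b (del (k, j)) x‖ := by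
    rw [sum_map]; rfl
  rw [e1]
  refine (L1.sum_norm_le _ _).trans ((norm_S_le S a b _).trans ?_)
  have h3 := norm_del_le (k, j)
  calc _ ≤ ‖S‖ * 1 * 1 * 1 := by gcongr
    _ = _ := by ring

/-- diagonal sums -/
lemma dia_le (i j : ℕ) (s : Finset ℕ) :
    ∑ k ∈ s, ‖S (e (k, (true, i))) (e (k, (false, j))) (del (k, j)) (k, i)‖ ≤ ‖S‖ := by
  have hlam : ∀ k : ℕ, ∃ c : ℂ, ‖c‖ = 1 ∧
      ((‖S (e (k, (true, i))) (e (k, (false, j))) (del (k, j)) (k, i)‖ : ℝ) : ℂ)
        = c * S (e (k, (true, i))) (e (k, (false, j))) (del (k, j)) (k, i) :=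
    fun k => RCLike.exists_norm_eq_mul_self _
  choose lam h1 h2 using hlam
  have e2 : ‖∑ k ∈ s, lam k * S (e (k, (true, i))) (e (k, (false, j))) (del (k, j)) (k, i)‖
      = ∑ k ∈ s, ‖S (e (k, (true, i))) (e (k, (false, j))) (del (k, j)) (k, i)‖ := by
    simp only [← h2]
    rw [← Complex.ofReal_sum, Complex.norm_real, Real.norm_eq_abs,
      abs_of_nonneg (sum_nonneg (fun _ _ => norm_nonneg _))]
  rw [← e2]
  -- first variable
  let c1 : ℕ → (Alg ℕ →ₗ[ℂ] ℂ) := fun k =>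
    { toFun := fun v => lam k * S v (e (k, (false, j))) (del (k, j)) (k, i)
      map_add' := fun v w => by
        simp only [map_add, add_apply, lp.coeFn_add, Pi.add_apply, mul_add]
      map_smul' := fun r v => by
        simp only [map_smul, smul_apply, lp.coeFn_smul, Pi.smul_apply, smul_eq_mul,
          RingHom.id_apply]
        ring }
  refine sign_avg0 c1 (fun k => (e (k, (true, i)) : Alg ℕ)) _ s (fun ε hε => ?_)
  set v : Alg ℕ := ∑ n ∈ s, ε n • (e (n, (true, i)) : Alg ℕ) with hv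
  have hv1 : ‖v‖ ≤ 1 := norm_sum_e_le s ε _ (fun n => (norm_sign (hε n)).le)
  let c2 : ℕ → (Alg ℕ →ₗ[ℂ] ℂ) := fun k =>
    { toFun := fun w => ε k * (lam k * S v w (del (k, j)) (k, i))
      map_add' := fun w w' => by
        simp only [map_add, add_apply, lp.coeFn_add, Pi.add_apply, mul_add]
      map_smul' := fun r w => by
        simp only [map_smul, smul_apply, lp.coeFn_smul, Pi.smul_apply, smul_eq_mul,
          RingHom.id_apply]
        ring }
  refine sign_avg0 c2 (fun k => (e (k, (false, j)) : Alg ℕ)) _ s (fun η hη => ?_)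
  set w : Alg ℕ := ∑ n ∈ s, η n • (e (n, (false, j)) : Alg ℕ) with hw
  have hw1 : ‖w‖ ≤ 1 := norm_sum_e_le s η _ (fun n => (norm_sign (hη n)).le)
  let c3 : ℕ → (XX →ₗ[ℂ] ℂ) := fun k =>
    { toFun := fun z => η k * (ε k * (lam k * S v w z (k, i)))
      map_add' := fun z z' => by
        simp only [map_add, lp.coeFn_add, Pi.add_apply, mul_add]
      map_smul' := fun r z => by
        simp only [map_smul, lp.coeFn_smul, Pi.smul_apply, smul_eq_mul,
          RingHom.id_apply]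
        ring }
  refine sign_avg0 c3 (fun k => del (k, j)) _ s (fun θ hθ => ?_)
  set z : XX := ∑ n ∈ s, θ n • del (n, j) with hz
  have hz1 : ‖z‖ ≤ 1 := norm_sum_del_le s θ (fun n => (n, j)) (fun _ _ h => (Prod.ext_iff.1 h).1)
    (fun n => (norm_sign (hθ n)).le)
  have h4 : ∀ k ∈ s, ‖θ k • c3 k z‖ ≤ ‖S v w z (k, i)‖ := by
    intro k _
    show ‖θ k * (η k * (ε k * (lam k * S v w z (k, i))))‖ ≤ _
    rw [norm_mul, norm_mul, norm_mul, norm_mul, norm_sign (hθ k), norm_sign (hη k),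
      norm_sign (hε k), h1, one_mul, one_mul, one_mul, one_mul]
  refine (norm_sum_le _ _).trans ((sum_le_sum h4).trans ?_)
  have e1 : ∑ k ∈ s, ‖S v w z (k, i)‖
      = ∑ x ∈ s.map ⟨fun k => (k, i), fun _ _ h => (Prod.ext_iff.1 h).1⟩,
        ‖S v w z x‖ := by
    rw [sum_map]; rfl
  rw [e1]
  refine (L1.sum_norm_le _ _).trans ((norm_S_le S v w z).trans ?_)
  calc _ ≤ ‖S‖ * 1 * 1 * 1 := by gcongr
    _ = _ := by ring

lemma e_mul_d (k i : ℕ) : (e (k, (true, i)) : Alg ℕ) * d k = e (k, (true, i)) := by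
  rw [mul_comm, mul_e]
  simp

lemma d_mul_e (k j : ℕ) : d k * (e (k, (false, j)) : Alg ℕ) = 0 := by
  rw [mul_e]
  simp

/-- the cocycle is not a coboundary -/
theorem not_cob : ¬ ∃ S, TT = d2 (homBimod modX modY) S := by
  rintro ⟨S, hS⟩
  have key : ∀ k i j : ℕ,
      (1 : ℝ) ≤ ‖S (e (k, (true, i))) (e (k, (false, j))) (del (k, j)) (k, i)‖
        + ‖S (e (k, (true, i))) (d k) (del (k, j)) (k, i)‖
        + ‖S (d k) (e (k, (false, j))) (del (k, j)) (k, i)‖ := by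
    intro k i j
    have h1 : TT (e (k, (true, i))) (d k) (e (k, (false, j))) (del (k, j)) (k, i) = -1 := by
      have h := hasSum_TT (e (k, (true, i))) (d k) (e (k, (false, j))) (del (k, j))
      have e1 := single_of_hasSum h k (fun l hl => by
        rw [d_u, L1.e_ne hl]; simp)
      have e2 : phi k (e (k, (false, j))) (del (k, j)) = 1 := by
        have h2 := hasSum_phi k (e (k, (false, j))) (del (k, j))
        have e3 := single_of_hasSum h2 (false, j) (fun t ht => by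
          simp [e, Qa.e, L1.e_ne ht])
        rw [e3]
        simp [e, Qa.e, del_apply]
      rw [e1, lp.coeFn_neg, Pi.neg_apply, e2, lp.coeFn_smul, Pi.smul_apply, lp.coeFn_smul,
        Pi.smul_apply, psi_apply]
      simp [e, Qa.e]
    have h2 : TT (e (k, (true, i))) (d k) (e (k, (false, j))) (del (k, j)) (k, i)
        = d2 (homBimod modX modY) S (e (k, (true, i))) (d k) (e (k, (false, j)))
          (del (k, j)) (k, i) := by rw [hS]
    rw [h1, d2_apply, e_mul_d, d_mul_e, map_zero] at h2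
    have h3 : modX.act (e (k, (false, j))) (del (k, j)) = del (k, j) := by
      ext y
      rw [modX_apply, del_apply, V1_apply]
      by_cases h : y = (k, j)
      · subst h
        simp [e, Qa.e]
      · rw [if_neg h, mul_zero]
    have h4 : V2 (e (k, (true, i))) (k, i) = 1 := by
      rw [V2_apply]
      simp [e, Qa.e]
    have h5 : (modY.act (e (k, (true, i))) (S (d k) (e (k, (false, j))) (del (k, j)))) (k, i)
        = S (d k) (e (k, (false, j))) (del (k, j)) (k, i) := by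
      rw [modY_apply, h4, one_mul]
    simp only [sub_apply, add_apply, zero_apply, homBimod_left, homBimod_right, h3,
      lp.coeFn_sub, lp.coeFn_add, Pi.sub_apply, Pi.add_apply, lp.coeFn_zero, Pi.zero_apply,
      h5] at h2
    have h6 : (1 : ℂ) = S (e (k, (true, i))) (e (k, (false, j))) (del (k, j)) (k, i)
        + S (e (k, (true, i))) (d k) (del (k, j)) (k, i)
        - S (d k) (e (k, (false, j))) (del (k, j)) (k, i) := by
      linear_combination -h2
    calc (1 : ℝ) = ‖(1 : ℂ)‖ := by simp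
      _ ≤ _ := by
        rw [h6]
        refine (norm_sub_le _ _).trans (add_le_add (norm_add_le _ _) le_rfl)
  obtain ⟨N, hN⟩ := exists_nat_gt (3 * ‖S‖)
  have hS0 := norm_nonneg S
  have hN0 : (0 : ℝ) < N := lt_of_le_of_lt (by positivity) hN
  have h1 : ∑ k ∈ range N, ∑ i ∈ range N, ∑ j ∈ range N, (1 : ℝ)
      ≤ ∑ k ∈ range N, ∑ i ∈ range N, ∑ j ∈ range N,
        (‖S (e (k, (true, i))) (e (k, (false, j))) (del (k, j)) (k, i)‖
        + ‖S (e (k, (true, i))) (d k) (del (k, j)) (k, i)‖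
        + ‖S (d k) (e (k, (false, j))) (del (k, j)) (k, i)‖) :=
    sum_le_sum (fun k _ => sum_le_sum (fun i _ => sum_le_sum (fun j _ => key k i j)))
  simp only [sum_add_distrib] at h1
  have a1 : ∑ k ∈ range N, ∑ i ∈ range N, ∑ j ∈ range N,
      ‖S (e (k, (true, i))) (e (k, (false, j))) (del (k, j)) (k, i)‖ ≤ N * (N * ‖S‖) := by
    rw [sum_comm]
    calc _ = ∑ i ∈ range N, ∑ j ∈ range N, ∑ k ∈ range N,
          ‖S (e (k, (true, i))) (e (k, (false, j))) (del (k, j)) (k, i)‖ :=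
          sum_congr rfl (fun i _ => sum_comm)
      _ ≤ ∑ i ∈ range N, ∑ j ∈ range N, ‖S‖ :=
          sum_le_sum (fun i _ => sum_le_sum (fun j _ => dia_le S i j _))
      _ = _ := by simp
  have a2 : ∑ k ∈ range N, ∑ i ∈ range N, ∑ j ∈ range N,
      ‖S (e (k, (true, i))) (d k) (del (k, j)) (k, i)‖ ≤ N * (N * ‖S‖) := by
    calc _ ≤ ∑ k ∈ range N, ∑ i ∈ range N, ‖S‖ :=
          sum_le_sum (fun k _ => sum_le_sum (fun i _ =>
            row_le S _ _ (norm_e _).le (norm_d k).le k i _))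
      _ = _ := by simp
  have a3 : ∑ k ∈ range N, ∑ i ∈ range N, ∑ j ∈ range N,
      ‖S (d k) (e (k, (false, j))) (del (k, j)) (k, i)‖ ≤ N * (N * ‖S‖) := by
    calc _ = ∑ k ∈ range N, ∑ j ∈ range N, ∑ i ∈ range N,
          ‖S (d k) (e (k, (false, j))) (del (k, j)) (k, i)‖ :=
          sum_congr rfl (fun k _ => sum_comm)
      _ ≤ ∑ k ∈ range N, ∑ j ∈ range N, ‖S‖ :=
          sum_le_sum (fun k _ => sum_le_sum (fun j _ =>
            col_le S _ _ (norm_d k).le (norm_e _).le k j _))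
      _ = _ := by simp
  have a0 : ∑ k ∈ range N, ∑ i ∈ range N, ∑ j ∈ range N, (1 : ℝ) = N * (N * N) := by simp
  rw [a0] at h1
  have h7 : (N : ℝ) * (N * N) ≤ 3 * (N * (N * ‖S‖)) := by linarith
  have h8 : (N : ℝ) * N * N ≤ N * N * (3 * ‖S‖) := by linarith
  have h9 : (N : ℝ) ≤ 3 * ‖S‖ := le_of_mul_le_mul_left h8 (by positivity)
  linarith

end Alg

end Pool.Agent.Helper53.Dim3
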