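import Mathlib
import Pool.Agent.Helper53.Dim3H

set_option autoImplicit false
set_option maxSynthPendingDepth 3
set_option linter.unusedSectionVars false

namespace Pool.Agent.Helper53.Dim3

open scoped ENNReal ZeroAtInfty

namespace Alg

/-- characters -/
noncomputable def ch0 (k : ℕ) : Alg ℕ →ₙₐ[ℂ] ℂ where
  toFun := fun a => (a.g k).c
  map_smul' := fun s a => by simp
  map_zero' := by simp
  map_add' := fun a b => by simp
  map_mul' := fun a b => by simp

/-- characters -/
noncomputable def ch1 (k : ℕ) : Alg ℕ →ₙₐ[ℂ] ℂ where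
  toFun := fun a => (a.g k).c + a.u k
  map_smul' := fun s a => by simp; ring
  map_zero' := by simp
  map_add' := fun a b => by simp; ring
  map_mul' := fun a b => by simp; ring

/-- characters -/
noncomputable def ch2 (k n : ℕ) : Alg ℕ →ₙₐ[ℂ] ℂ where
  toFun := fun a => (a.g k).c + (a.g k).v (false, n)
  map_smul' := fun s a => by simp; ring
  map_zero' := by simp
  map_add' := fun a b => by simp; ring
  map_mul' := fun a b => by simp; ring

/-- characters -/
noncomputable def ch3 (k n : ℕ) : Alg ℕ →ₙₐ[ℂ] ℂ where
  toFun := fun a => (a.g k).c + a.u k + (a.g k).v (true, n)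
  map_smul' := fun s a => by simp; ring
  map_zero' := by simp
  map_add' := fun a b => by simp; ring
  map_mul' := fun a b => by simp; ring

/-- the characters separate the points of `A` -/
lemma separates (a : Alg ℕ) (ha : a ≠ 0) : ∃ φ : Alg ℕ →ₙₐ[ℂ] ℂ, φ a ≠ 0 := by
  by_contra hc
  push Not at hc
  apply ha
  have h0 : ∀ k, (a.g k).c = 0 := fun k => hc (ch0 k)
  have h1 : ∀ k, (a.g k).c + a.u k = 0 := fun k => hc (ch1 k)
  have h2 : ∀ k n, (a.g k).c + (a.g k).v (false, n) = 0 := fun k n => hc (ch2 k n)
  have h3 : ∀ k n, (a.g k).c + a.u k + (a.g k).v (true, n) = 0 := fun k n => hc (ch3 k n)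
  have h4 : ∀ k, a.u k = 0 := fun k => by
    have := h1 k; rwa [h0, zero_add] at this
  apply ext'
  · intro k; simpa using h0 k
  · rintro k ⟨b, n⟩
    cases b
    · have := h2 k n
      rw [h0, zero_add] at this
      simpa using this
    · have := h3 k n
      rw [h0, h4, zero_add, zero_add] at this
      simpa using this
  · intro k; simpa using h4 k

end Alg

end Pool.Agent.Helper53.Dim3
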