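import Mathlib
import Pool.Agent.Helper53.HomC
import Pool.Agent.Helper53.HomF
import Pool.Agent.Helper53.Dim3K
import Pool.Agent.Helper53.Dim3M
import Pool.Agent.Helper53.Dim3N

set_option autoImplicit false
set_option maxSynthPendingDepth 3
set_option linter.unusedSectionVars false

namespace Pool.Agent.Helper53.BanachHomology

open ContinuousLinearMap
open Pool.Agent.Helper53.Dim3 (Alg Van4)

section Upper

variable {A : Type} [NonUnitalNormedCommRing A] [NormedSpace ℂ A] [IsScalarTower ℂ A A]
  [SMulCommClass ℂ A A]

theorem dg_le_three (h : Van4 A) : dg A ≤ 3 :=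
  iSup_le (fun X => LMod.dh_le (LMod.hasResolution_of_toBim
    (Bim.hasResolution_three h X.toBim_rproj)))

theorem db_le_three [CompleteSpace A] (h : Van4 A) : db A ≤ 3 :=
  Bim.dh_le (Bim.hasResolution_three h Bim.plusBim_rproj)

end Upper

section Lower

/-- the module of bounded double sequences -/
noncomputable def modXX : LMod (Alg ℕ) where
  carrier := Alg.XX
  act := Alg.modX.act
  act_mul := Alg.modX.act_mul

/-- the module of absolutely summable double sequences -/
noncomputable def modYY : LMod (Alg ℕ) where
  carrier := Alg.YY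
  act := Alg.modY.act
  act_mul := Alg.modY.act_mul

lemma not_hasResolution_modXX : ¬ modXX.HasResolution 2 := by
  intro h
  obtain ⟨S, -, hS⟩ := Bim.exists_primitive modXX.toBim_rproj (LMod.toBim_hasResolution h)
    modYY.toBim Alg.TT (fun a b c r x => by
      have e1 : modXX.toBim.right r x = 0 := rfl
      rw [e1, map_zero, Bim.right_punit])
    (fun a b c d x => by
      have := congrArg (fun F : Alg.XX →L[ℂ] Alg.YY => F x) (Alg.coc_TT a b c d)
      exact this)
  refine Alg.not_cob ⟨S, ?_⟩
  refine ContinuousLinearMap.ext (fun a => ContinuousLinearMap.ext (fun b =>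
    ContinuousLinearMap.ext (fun c => ContinuousLinearMap.ext (fun x => ?_))))
  have h1 := hS a b c x
  rw [Dim3.d2_apply]
  exact h1

/-- the bimodule of operators between the two modules -/
noncomputable def homXY : Bim (Alg ℕ) (Alg ℕ) where
  carrier := Alg.XX →L[ℂ] Alg.YY
  left := (Dim3.homBimod Alg.modX Alg.modY).left
  right := (Dim3.homBimod Alg.modX Alg.modY).right
  left_mul := (Dim3.homBimod Alg.modX Alg.modY).left_mul
  right_mul := (Dim3.homBimod Alg.modX Alg.modY).right_mul
  left_right := (Dim3.homBimod Alg.modX Alg.modY).left_right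

lemma not_hasResolution_plus : ¬ (plusBim (Alg ℕ)).HasResolution 2 := by
  intro h
  obtain ⟨S, hS⟩ := Bim.exists_primitive_plus h homXY Alg.TT (fun a b c d => Alg.coc_TT a b c d)
  refine Alg.not_cob ⟨S, ?_⟩
  refine ContinuousLinearMap.ext (fun a => ContinuousLinearMap.ext (fun b =>
    ContinuousLinearMap.ext (fun c => ?_)))
  rw [Dim3.d2_apply]
  exact hS a b c

end Lower

theorem dg_alg : dg (Alg ℕ) = 3 := by
  refine le_antisymm (dg_le_three Alg.van4) ?_
  exact (LMod.le_dh not_hasResolution_modXX).trans (le_iSup (fun X : LMod (Alg ℕ) => X.dh) modXX)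

theorem db_alg : db (Alg ℕ) = 3 :=
  le_antisymm (db_le_three Alg.van4) (Bim.le_dh not_hasResolution_plus)

/-- the algebra as a Banach function algebra -/
noncomputable def algFA : FunctionAlgebra where
  carrier := Alg ℕ
  semisimple := Alg.separates

end Pool.Agent.Helper53.BanachHomology
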