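import Mathlib
import Pool.Agent.Helper53.HomStmt
import Pool.Agent.Helper53.HomG

set_option autoImplicit false
set_option maxSynthPendingDepth 3
set_option linter.unusedSectionVars false

namespace Pool.Agent.Helper53.Homology

open Pool.Agent.Helper53

variable {A : Type} [NonUnitalNormedRing A] [NormedSpace ℂ A]

namespace LMod

/-- a module in operator form -/
noncomputable def toC (X : LMod A) : BanachHomology.LMod A where
  carrier := X.carrier
  act := X.bdd.toContinuousLinearMap
  act_mul := X.act_mul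

/-- a module in function form -/
noncomputable def ofC (X : BanachHomology.LMod A) : LMod A where
  carrier := X.carrier
  act := fun a x => X.act a x
  bdd := X.act.isBoundedBilinearMap
  act_mul := X.act_mul

/-- an operator from a bounded linear function -/
noncomputable def opOf {E F : Type} [NormedAddCommGroup E] [NormedSpace ℂ E]
    [NormedAddCommGroup F] [NormedSpace ℂ F] {f : E → F} (hf : IsBoundedLinearMap ℂ f) :
    E →L[ℂ] F := hf.toContinuousLinearMap

@[simp] lemma opOf_apply {E F : Type} [NormedAddCommGroup E] [NormedSpace ℂ E]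
    [NormedAddCommGroup F] [NormedSpace ℂ F] {f : E → F} (hf : IsBoundedLinearMap ℂ f) (x : E) :
    opOf hf x = f x := rfl

lemma toC_projective {P : LMod A} (hP : P.Projective) : P.toC.Projective := by
  intro Y Z σ φ hσ hσ' hφ
  obtain ⟨g, hg⟩ := hσ'
  obtain ⟨ψ, h1, h2⟩ := hP (ofC Y) (ofC Z) σ φ ⟨σ.isBoundedLinearMap, hσ⟩
    ⟨g, g.isBoundedLinearMap, hg⟩ ⟨φ.isBoundedLinearMap, hφ⟩
  exact ⟨opOf h1.1, h1.2, h2⟩

lemma ofC_projective {P : BanachHomology.LMod A} (hP : P.Projective) :
    (ofC P).Projective := by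
  intro Y Z σ φ hσ hσ' hφ
  obtain ⟨g, hg, hg'⟩ := hσ'
  obtain ⟨ψ, h1, h2⟩ := hP (toC Y) (toC Z) (opOf hσ.1) (opOf hφ.1) hσ.2
    ⟨opOf hg, hg'⟩ hφ.2
  exact ⟨ψ, ⟨ψ.isBoundedLinearMap, h1⟩, h2⟩

lemma hasResolution_of_toC {X : LMod A} {n : ℕ} (h : X.toC.HasResolution n) :
    X.HasResolution n := by
  obtain ⟨R, hR, hR', hn⟩ := h
  exact ⟨{ P := fun i => ofC (R.P i)
           ε := R.ε
           d := fun i => R.d i
           s' := R.s'
           s := fun i => R.s i
           projective := fun i => ofC_projective (hR.projective i)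
           ε_hom := ⟨R.ε.isBoundedLinearMap, hR.ε_hom⟩
           d_hom := fun i => ⟨(R.d i).isBoundedLinearMap, hR.d_hom i⟩
           s'_bdd := R.s'.isBoundedLinearMap
           s_bdd := fun i => (R.s i).isBoundedLinearMap
           ε_d := hR.ε_d
           d_d := hR.d_d
           ε_s := hR'.ε_s
           h_zero := hR'.h_zero
           h_succ := hR'.h_succ }, hn⟩

lemma of_ofC_hasResolution {X : BanachHomology.LMod A} {n : ℕ}
    (h : (ofC X).HasResolution n) : X.HasResolution n := by
  obtain ⟨R, hn⟩ := h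
  exact ⟨{ P := fun i => (R.P i).toC
           ε := opOf R.ε_hom.1
           d := fun i => opOf (R.d_hom i).1
           s' := opOf R.s'_bdd
           s := fun i => opOf (R.s_bdd i) },
    ⟨fun i => toC_projective (R.projective i), R.ε_hom.2, fun i => (R.d_hom i).2, R.ε_d, R.d_d⟩,
    ⟨R.ε_s, R.h_zero, R.h_succ⟩, hn⟩

lemma dh_le {X : LMod A} {n : ℕ} (h : X.HasResolution n) : X.dh ≤ n := iInf₂_le n h

lemma le_dh {X : LMod A} {n : ℕ} (h : ¬ X.HasResolution n) : ((n + 1 : ℕ) : ℕ∞) ≤ X.dh := by
  refine le_iInf₂ (fun m hm => ?_)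
  rw [Nat.cast_le]
  by_contra hc
  push Not at hc
  apply h
  obtain ⟨R, hn⟩ := hm
  exact ⟨R, fun i hi => hn i (by omega)⟩

end LMod

namespace BMod

open LMod (opOf)

/-- a bimodule in operator form -/
noncomputable def toC (X : BMod A) : BanachHomology.Bim A A where
  carrier := X.carrier
  left := X.left_bdd.toContinuousLinearMap
  right := X.right_bdd.toContinuousLinearMap
  left_mul := X.left_mul
  right_mul := X.right_mul
  left_right := X.left_right

/-- a bimodule in function form -/
noncomputable def ofC (X : BanachHomology.Bim A A) : BMod A where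
  carrier := X.carrier
  left := fun a x => X.left a x
  right := fun a x => X.right a x
  left_bdd := X.left.isBoundedBilinearMap
  right_bdd := X.right.isBoundedBilinearMap
  left_mul := X.left_mul
  right_mul := X.right_mul
  left_right := X.left_right

lemma toC_projective {P : BMod A} (hP : P.Projective) : P.toC.Projective := by
  intro Y Z σ φ hσ hσ' hφ
  obtain ⟨g, hg⟩ := hσ'
  obtain ⟨ψ, h1, h2⟩ := hP (ofC Y) (ofC Z) σ φ ⟨σ.isBoundedLinearMap, hσ⟩
    ⟨g, g.isBoundedLinearMap, hg⟩ ⟨φ.isBoundedLinearMap, hφ⟩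
  exact ⟨opOf h1.1, h1.2, h2⟩

lemma ofC_projective {P : BanachHomology.Bim A A} (hP : P.Projective) :
    (ofC P).Projective := by
  intro Y Z σ φ hσ hσ' hφ
  obtain ⟨g, hg, hg'⟩ := hσ'
  obtain ⟨ψ, h1, h2⟩ := hP (toC Y) (toC Z) (opOf hσ.1) (opOf hφ.1) hσ.2
    ⟨opOf hg, hg'⟩ hφ.2
  exact ⟨ψ, ⟨ψ.isBoundedLinearMap, h1⟩, h2⟩

lemma ofC_hasResolution {X : BanachHomology.Bim A A} {n : ℕ} (h : X.HasResolution n) :
    (ofC X).HasResolution n := by
  obtain ⟨R, hR, hR', hn⟩ := h
  exact ⟨{ P := fun i => ofC (R.P i)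
           ε := R.ε
           d := fun i => R.d i
           s' := R.s'
           s := fun i => R.s i
           projective := fun i => ofC_projective (hR.projective i)
           ε_hom := ⟨R.ε.isBoundedLinearMap, hR.ε_hom⟩
           d_hom := fun i => ⟨(R.d i).isBoundedLinearMap, hR.d_hom i⟩
           s'_bdd := R.s'.isBoundedLinearMap
           s_bdd := fun i => (R.s i).isBoundedLinearMap
           ε_d := hR.ε_d
           d_d := hR.d_d
           ε_s := hR'.ε_s
           h_zero := hR'.h_zero
           h_succ := hR'.h_succ }, hn⟩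

lemma of_ofC_hasResolution {X : BanachHomology.Bim A A} {n : ℕ}
    (h : (ofC X).HasResolution n) : X.HasResolution n := by
  obtain ⟨R, hn⟩ := h
  exact ⟨{ P := fun i => (R.P i).toC
           ε := opOf R.ε_hom.1
           d := fun i => opOf (R.d_hom i).1
           s' := opOf R.s'_bdd
           s := fun i => opOf (R.s_bdd i) },
    ⟨fun i => toC_projective (R.projective i), R.ε_hom.2, fun i => (R.d_hom i).2, R.ε_d, R.d_d⟩,
    ⟨R.ε_s, R.h_zero, R.h_succ⟩, hn⟩

lemma dh_le {X : BMod A} {n : ℕ} (h : X.HasResolution n) : X.dh ≤ n := iInf₂_le n h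

lemma le_dh {X : BMod A} {n : ℕ} (h : ¬ X.HasResolution n) : ((n + 1 : ℕ) : ℕ∞) ≤ X.dh := by
  refine le_iInf₂ (fun m hm => ?_)
  rw [Nat.cast_le]
  by_contra hc
  push Not at hc
  apply h
  obtain ⟨R, hn⟩ := hm
  exact ⟨R, fun i hi => hn i (by omega)⟩

lemma ofC_plusBim [IsScalarTower ℂ A A] [SMulCommClass ℂ A A] [CompleteSpace A] :
    ofC (BanachHomology.plusBim A) = plusBMod A := rfl

end BMod

open Pool.Agent.Helper53.Dim3 (Alg Van4)

theorem dg_alg : dg (Alg ℕ) = 3 := by
  refine le_antisymm (iSup_le (fun X => LMod.dh_le (LMod.hasResolution_of_toC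
    (BanachHomology.LMod.hasResolution_of_toBim
      (BanachHomology.Bim.hasResolution_three Alg.van4 X.toC.toBim_rproj))))) ?_
  exact (LMod.le_dh (fun h => BanachHomology.not_hasResolution_modXX
    (LMod.of_ofC_hasResolution h))).trans
      (le_iSup (fun X : LMod (Alg ℕ) => X.dh) (LMod.ofC BanachHomology.modXX))

theorem db_alg : db (Alg ℕ) = 3 := by
  show (plusBMod (Alg ℕ)).dh = 3
  rw [← BMod.ofC_plusBim]
  refine le_antisymm (BMod.dh_le (BMod.ofC_hasResolution
    (BanachHomology.Bim.hasResolution_three Alg.van4 BanachHomology.Bim.plusBim_rproj))) ?_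
  exact BMod.le_dh (fun h => BanachHomology.not_hasResolution_plus
    (BMod.of_ofC_hasResolution h))

/-- the algebra as a Banach function algebra -/
noncomputable def algFA : FunctionAlgebra where
  carrier := Alg ℕ
  semisimple := Alg.separates

end Pool.Agent.Helper53.Homology
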