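import Mathlib
import Pool.Agent.Helper53.CxD
import Pool.Agent.Helper53.CxK
import Pool.Agent.Helper53.CxL1
import Pool.Agent.Helper53.CxL3
import Pool.Agent.Helper53.HomH

set_option autoImplicit false
set_option maxSynthPendingDepth 3
set_option linter.unusedSectionVars false

namespace Pool.Agent.Helper53.CX

open Filter Topology
open Pool.Agent.Helper53.Dim3 (Bimod Van3 Van4 Coc4 d3 d3_apply)

section

variable {A : Type} [NonUnitalNormedCommRing A] [NormedSpace ℂ A] [IsScalarTower ℂ A A]
  [SMulCommClass ℂ A A] [CompleteSpace A]

/-- a resolution of length three gives the vanishing of the fourth cohomology -/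
theorem van4_of_hasResolution (h3 : (BanachHomology.plusBim A).HasResolution 3) : Van4 A := by
  intro Z _ _ _ m T hT
  obtain ⟨S, hS⟩ := BanachHomology.Bim.exists_primitive4_plus h3
    { carrier := Z, left := m.left, right := m.right, left_mul := m.left_mul,
      right_mul := m.right_mul, left_right := m.left_right } T hT
  refine ⟨S, ?_⟩
  ext a b c d
  rw [d3_apply]
  exact hS a b c d

end

section

variable {X : Type} [TopologicalSpace X] [CompactSpace X] [T2Space X]

lemma preconnected_subset_cb {s : Set X} (hs : IsPreconnected s) (hn : s.Nontrivial) :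
    ∀ n : ℕ, s ⊆ cb X n
  | 0 => Set.subset_univ s
  | n + 1 => fun x hx => by
    show AccPt x (𝓟 (cb X n))
    exact (hs.preperfect_of_nontrivial hn x hx).mono
      (principal_mono.2 (preconnected_subset_cb hs hn n))

theorem totallyDisconnected_of_cb {n : ℕ} (h : cb X n = ∅) : TotallyDisconnectedSpace X := by
  refine ⟨fun s _ hs => ?_⟩
  by_contra hc
  rw [Set.not_subsingleton_iff] at hc
  have h1 := preconnected_subset_cb hs hc n
  obtain ⟨x, hx⟩ := hc.nonempty
  have h2 := h1 hx
  rw [h] at h2
  exact h2

/-- finite rank and vanishing of the fourth cohomology give the vanishing of the third one -/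
theorem van3_of_van4 {n : ℕ} (h : cb X n = ∅) (h4 : Van4 C(X, ℂ)) : Van3 C(X, ℂ) := by
  haveI := totallyDisconnected_of_cb h
  exact van3_of_propD (propD_of_van4 h4) h

end

end Pool.Agent.Helper53.CX
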