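import Mathlib

set_option autoImplicit false
set_option maxSynthPendingDepth 3

namespace Pool.Agent.Helper53.DbwOne

open Filter Topology Finset

/-- sign averaging: a diagonal sum is bounded by the values on signed sums -/
lemma sign_avg {A : Type*} [AddCommGroup A] [Module ℂ A]
    (B : A →ₗ[ℂ] A →ₗ[ℂ] ℂ) (chi : ℕ → A) (M : ℝ) (k : ℕ) : ∀ (p : A),
    (∀ ε : ℕ → ℂ, (∀ n, ε n = 1 ∨ ε n = -1) →
      ‖B (p + ∑ n ∈ range k, ε n • chi n) (p + ∑ n ∈ range k, ε n • chi n)‖ ≤ M) →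
    ‖B p p + ∑ n ∈ range k, B (chi n) (chi n)‖ ≤ M := by
  induction k with
  | zero =>
    intro p h
    simpa using h (fun _ => 1) (fun _ => Or.inl rfl)
  | succ k ih =>
    intro p h
    have h1 : ‖B (p + chi k) (p + chi k) + ∑ n ∈ range k, B (chi n) (chi n)‖ ≤ M := by
      apply ih
      intro ε hε
      have := h (Function.update ε k 1) (by
        intro n
        by_cases hn : n = k
        · subst hn; left; simp
        · simpa [Function.update_of_ne hn] using hε n)
      rw [sum_range_succ] at this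
      have hs : ∑ n ∈ range k, Function.update ε k (1 : ℂ) n • chi n
          = ∑ n ∈ range k, ε n • chi n := by
        apply sum_congr rfl
        intro n hn
        rw [Function.update_of_ne (by have := mem_range.1 hn; omega)]
      rw [hs] at this
      simp only [Function.update_self, one_smul] at this
      have he : p + (∑ n ∈ range k, ε n • chi n + chi k)
          = p + chi k + ∑ n ∈ range k, ε n • chi n := by abel
      rwa [he] at this
    have h2 : ‖B (p - chi k) (p - chi k) + ∑ n ∈ range k, B (chi n) (chi n)‖ ≤ M := by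
      apply ih
      intro ε hε
      have := h (Function.update ε k (-1)) (by
        intro n
        by_cases hn : n = k
        · subst hn; right; simp
        · simpa [Function.update_of_ne hn] using hε n)
      rw [sum_range_succ] at this
      have hs : ∑ n ∈ range k, Function.update ε k (-1 : ℂ) n • chi n
          = ∑ n ∈ range k, ε n • chi n := by
        apply sum_congr rfl
        intro n hn
        rw [Function.update_of_ne (by have := mem_range.1 hn; omega)]
      rw [hs] at this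
      simp only [Function.update_self, neg_smul, one_smul] at this
      have he : p + (∑ n ∈ range k, ε n • chi n + -chi k)
          = p - chi k + ∑ n ∈ range k, ε n • chi n := by abel
      rwa [he] at this
    have h3 : B p p + ∑ n ∈ range (k + 1), B (chi n) (chi n)
        = (1 / 2 : ℂ) * ((B (p + chi k) (p + chi k) + ∑ n ∈ range k, B (chi n) (chi n))
          + (B (p - chi k) (p - chi k) + ∑ n ∈ range k, B (chi n) (chi n))) := by
      rw [sum_range_succ]
      simp only [map_add, map_sub, LinearMap.add_apply, LinearMap.sub_apply]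
      ring
    rw [h3, norm_mul]
    have h4 := norm_add_le (B (p + chi k) (p + chi k) + ∑ n ∈ range k, B (chi n) (chi n))
      (B (p - chi k) (p - chi k) + ∑ n ∈ range k, B (chi n) (chi n))
    have h5 : ‖(1 / 2 : ℂ)‖ = 1 / 2 := by norm_num
    rw [h5]
    linarith

/-- limits of uniformly bounded sequences of bilinear forms along an ultrafilter -/
lemma exists_limit {A E : Type*} [NormedAddCommGroup A] [NormedSpace ℂ A]
    [NormedAddCommGroup E] [NormedSpace ℂ E] (f : ℕ → A →ₗ[ℂ] E →ₗ[ℂ] ℂ) (C : ℝ)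
    (hC : ∀ k a x, ‖f k a x‖ ≤ C * ‖a‖ * ‖x‖) :
    ∃ S : A →L[ℂ] E →L[ℂ] ℂ, ∀ a x,
      Tendsto (fun k => f k a x) (hyperfilter ℕ : Filter ℕ) (𝓝 (S a x)) := by
  have hl : ∀ (a : A) (x : E), ∃ l : ℂ,
      Tendsto (fun k => f k a x) (hyperfilter ℕ : Filter ℕ) (𝓝 l) := by
    intro a x
    have hK : IsCompact (Metric.closedBall (0 : ℂ) (C * ‖a‖ * ‖x‖)) :=
      isCompact_closedBall _ _
    have := hK.ultrafilter_le_nhds' ((hyperfilter ℕ).map (fun k => f k a x)) (by
      rw [Ultrafilter.mem_map]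
      filter_upwards with k
      simpa using hC k a x)
    obtain ⟨l, -, hl⟩ := this
    exact ⟨l, hl⟩
  choose l hl using hl
  have hadd₁ : ∀ a b x, l (a + b) x = l a x + l b x := by
    intro a b x
    refine tendsto_nhds_unique (hl (a + b) x) ?_
    simpa using (hl a x).add (hl b x)
  have hsmul₁ : ∀ (c : ℂ) a x, l (c • a) x = c • l a x := by
    intro c a x
    refine tendsto_nhds_unique (hl (c • a) x) ?_
    simpa using (hl a x).const_mul c
  have hadd₂ : ∀ a x y, l a (x + y) = l a x + l a y := by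
    intro a x y
    refine tendsto_nhds_unique (hl a (x + y)) ?_
    simpa using (hl a x).add (hl a y)
  have hsmul₂ : ∀ (c : ℂ) a x, l a (c • x) = c • l a x := by
    intro c a x
    refine tendsto_nhds_unique (hl a (c • x)) ?_
    simpa using (hl a x).const_mul c
  have hb : ∀ a x, ‖l a x‖ ≤ C * ‖a‖ * ‖x‖ := by
    intro a x
    exact le_of_tendsto (hl a x).norm (Eventually.of_forall (fun k => hC k a x))
  refine ⟨LinearMap.mkContinuous₂ (LinearMap.mk₂ ℂ l hadd₁ hsmul₁ hadd₂ hsmul₂) C hb, ?_⟩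
  intro a x
  exact hl a x

section Criterion

variable {A : Type*} [NormedCommRing A] [NormedAlgebra ℂ A]
variable {E : Type*} [NormedAddCommGroup E] [NormedSpace ℂ E]

/-- the rest `1 - ∑_{n<k} (c n + d n)` -/
noncomputable def rho (c d : ℕ → A) (k : ℕ) : A := 1 - ∑ n ∈ range k, (c n + d n)

/-- the summand of index `n` of the approximate solution -/
noncomputable def gFun (c d : ℕ → A) (p q : ℕ → A →ₐ[ℂ] ℂ) (L : A →L[ℂ] E →L[ℂ] E)
    (T : A →L[ℂ] A →L[ℂ] (E →L[ℂ] ℂ)) (n : ℕ) (a : A) (x : E) : ℂ :=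
  (q n a - p n a) * (T (d n) (d n) (L (c n) x) - T (c n) (c n) (L (d n) x))

/-- the approximate solution, as a function -/
noncomputable def sFun (c d : ℕ → A) (p q : ℕ → A →ₐ[ℂ] ℂ) (L : A →L[ℂ] E →L[ℂ] E)
    (T : A →L[ℂ] A →L[ℂ] (E →L[ℂ] ℂ)) (k : ℕ) (a : A) (x : E) : ℂ :=
  -(T a 1 (L 1 x) - T 1 1 (L a x)
    - (T a (rho c d k) (L (rho c d k) x) + ∑ n ∈ range k, T a (c n + d n) (L (c n + d n) x))
    + (T 1 (rho c d k) (L (rho c d k) (L a x))
        + ∑ n ∈ range k, T 1 (c n + d n) (L (c n + d n) (L a x)))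
    + ∑ n ∈ range k, gFun c d p q L T n a x)

variable (L R : A →L[ℂ] E →L[ℂ] E) (T : A →L[ℂ] A →L[ℂ] (E →L[ℂ] ℂ))

lemma defect_first (hL : ∀ a b : A, L (a * b) = (L a).comp (L b))
    (hLR : ∀ a b : A, (L a).comp (R b) = (R b).comp (L a))
    (hT : ∀ (a b c : A) (x : E),
      T b c (R a x) - T (a * b) c x + T a (b * c) x - T a b (L c x) = 0) (a b : A) (x : E) :
    (T b 1 (L 1 (R a x)) - T 1 1 (L b (R a x))) - (T (a * b) 1 (L 1 x) - T 1 1 (L (a * b) x))
      + (T a 1 (L 1 (L b x)) - T 1 1 (L a (L b x))) = 0 := by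
  have hLL : ∀ (s t : A) (y : E), L s (L t y) = L (s * t) y := fun s t y => by
    rw [hL]; rfl
  have hLR' : ∀ (s t : A) (y : E), L s (R t y) = R t (L s y) := fun s t y =>
    congrArg (fun f : E →L[ℂ] E => f y) (hLR s t)
  have h1 := hT a b 1 (L 1 x)
  have h2 := hT a 1 1 (L b x)
  rw [hLR', hLR']
  simp only [hLL, mul_one, one_mul] at h1 h2 ⊢
  linear_combination h1 - h2

lemma defect_idem (hL : ∀ a b : A, L (a * b) = (L a).comp (L b))
    (hLR : ∀ a b : A, (L a).comp (R b) = (R b).comp (L a))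
    (hT : ∀ (a b c : A) (x : E),
      T b c (R a x) - T (a * b) c x + T a (b * c) x - T a b (L c x) = 0)
    (r : A) (hr : r * r = r) (a b : A) (x : E) :
    (T b r (L r (R a x)) - T 1 r (L r (L b (R a x))))
      - (T (a * b) r (L r x) - T 1 r (L r (L (a * b) x)))
      + (T a r (L r (L b x)) - T 1 r (L r (L a (L b x))))
      = T a b (L r x) - T a 1 (L r (L b x)) - (T a (b * r) (L r x) - T a r (L r (L b x))) := by
  have hLL : ∀ (s t : A) (y : E), L s (L t y) = L (s * t) y := fun s t y => by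
    rw [hL]; rfl
  have hLR' : ∀ (s t : A) (y : E), L s (R t y) = R t (L s y) := fun s t y =>
    congrArg (fun f : E →L[ℂ] E => f y) (hLR s t)
  have h1 := hT a b r (L r x)
  have h2 := hT a 1 r (L r (L b x))
  have hrr : ∀ y : E, L r (L r y) = L r y := fun y => by rw [hLL, hr]
  have e1 : T b r (L r (R a x)) = T b r (R a (L r x)) := by rw [hLR']
  have e2 : T 1 r (L r (L b (R a x))) = T 1 r (R a (L r (L b x))) := by
    rw [hLR' b a, hLR']
  have e3 : L r (L (a * b) x) = L r (L a (L b x)) := by rw [hLL a b]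
  rw [e1, e2, e3]
  simp only [hrr, mul_one, one_mul] at h1 h2 ⊢
  linear_combination h1 - h2

lemma defect_g (c d : ℕ → A) (p q : ℕ → A →ₐ[ℂ] ℂ)
    (hc : ∀ n a, a * c n = p n a • c n) (hd : ∀ n a, a * d n = q n a • d n)
    (hcd : ∀ n, c n * d n = 0) (hcc : ∀ n, c n * c n = c n) (hdd : ∀ n, d n * d n = d n)
    (hL : ∀ a b : A, L (a * b) = (L a).comp (L b))
    (hLR : ∀ a b : A, (L a).comp (R b) = (R b).comp (L a))
    (hT : ∀ (a b c : A) (x : E),
      T b c (R a x) - T (a * b) c x + T a (b * c) x - T a b (L c x) = 0)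
    (n : ℕ) (a b : A) (x : E) :
    gFun c d p q L T n b (R a x) - gFun c d p q L T n (a * b) x + gFun c d p q L T n a (L b x)
      = - (T a (b * (c n + d n)) (L (c n + d n) x)
            - T a (c n + d n) (L (c n + d n) (L b x))) := by
  have hLL : ∀ (s t : A) (y : E), L s (L t y) = L (s * t) y := fun s t y => by
    rw [hL]; rfl
  have hLR' : ∀ (s t : A) (y : E), L s (R t y) = R t (L s y) := fun s t y =>
    congrArg (fun f : E →L[ℂ] E => f y) (hLR s t)
  have hdc : d n * c n = 0 := by rw [mul_comm, hcd]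
  have h1 := hT a (d n) (d n) (L (c n) x)
  have h2 := hT a (c n) (c n) (L (d n) x)
  have h3 : L (c n) (L b x) = p n b • L (c n) x := by
    rw [hLL, mul_comm, hc, map_smul]; rfl
  have h4 : L (d n) (L b x) = q n b • L (d n) x := by
    rw [hLL, mul_comm, hd, map_smul]; rfl
  have h5 : b * (c n + d n) = p n b • c n + q n b • d n := by rw [mul_add, hc, hd]
  have e1 : L (c n + d n) (L b x) = p n b • L (c n) x + q n b • L (d n) x := by
    rw [map_add, add_apply, h3, h4]
  rw [h5, e1]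
  unfold gFun
  rw [hLR', hLR', h3, h4]
  rw [hdd] at h1
  rw [hcc] at h2
  simp only [hLL, hdc, hcd, hc, hd, map_zero, map_add, map_mul, map_smul, zero_apply, add_apply,
    smul_apply, smul_eq_mul, sub_zero] at h1 h2 ⊢
  linear_combination (q n b - p n b) * h1 - (q n b - p n b) * h2

omit [NormedAlgebra ℂ A] in
lemma chi_idem (c d : ℕ → A) (hcd : ∀ n, c n * d n = 0) (hcc : ∀ n, c n * c n = c n)
    (hdd : ∀ n, d n * d n = d n) (n : ℕ) : (c n + d n) * (c n + d n) = c n + d n := by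
  rw [mul_add, add_mul, add_mul, hcc, hdd, hcd, mul_comm (d n) (c n), hcd, add_zero, zero_add]

omit [NormedAlgebra ℂ A] in
lemma rho_idem (c d : ℕ → A) (hcd : ∀ n, c n * d n = 0) (hcc : ∀ n, c n * c n = c n)
    (hdd : ∀ n, d n * d n = d n)
    (horth : ∀ m n, m ≠ n → (c m + d m) * (c n + d n) = 0) (k : ℕ) :
    rho c d k * rho c d k = rho c d k := by
  have h : (∑ n ∈ range k, (c n + d n)) * (∑ n ∈ range k, (c n + d n))
      = ∑ n ∈ range k, (c n + d n) := by
    rw [sum_mul]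
    apply sum_congr rfl
    intro m hm
    rw [mul_sum, sum_eq_single m]
    · exact chi_idem c d hcd hcc hdd m
    · intro n _ hnm
      exact horth m n (Ne.symm hnm)
    · intro h; exact absurd hm h
  unfold rho
  rw [mul_sub, sub_mul, sub_mul, h]
  simp

lemma defect_sFun (c d : ℕ → A) (p q : ℕ → A →ₐ[ℂ] ℂ)
    (hc : ∀ n a, a * c n = p n a • c n) (hd : ∀ n a, a * d n = q n a • d n)
    (hcd : ∀ n, c n * d n = 0) (hcc : ∀ n, c n * c n = c n) (hdd : ∀ n, d n * d n = d n)
    (horth : ∀ m n, m ≠ n → (c m + d m) * (c n + d n) = 0)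
    (hL : ∀ a b : A, L (a * b) = (L a).comp (L b))
    (hLR : ∀ a b : A, (L a).comp (R b) = (R b).comp (L a))
    (hT : ∀ (a b c : A) (x : E),
      T b c (R a x) - T (a * b) c x + T a (b * c) x - T a b (L c x) = 0)
    (k : ℕ) (a b : A) (x : E) :
    sFun c d p q L T k b (R a x) - sFun c d p q L T k (a * b) x + sFun c d p q L T k a (L b x)
      = T a b (L 1 x) - T a 1 (L b x)
        - (T a (b * rho c d k) (L (rho c d k) x)
            - T a (rho c d k) (L (rho c d k) (L b x))) := by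
  have hLL : ∀ (s t : A) (y : E), L s (L t y) = L (s * t) y := fun s t y => by
    rw [hL]; rfl
  have h1 := defect_first L R T hL hLR hT a b x
  have h2 := defect_idem L R T hL hLR hT (rho c d k) (rho_idem c d hcd hcc hdd horth k) a b x
  have h3 : ∀ n ∈ range k, _ := fun n _ =>
    defect_idem L R T hL hLR hT (c n + d n) (chi_idem c d hcd hcc hdd n) a b x
  have h4 : ∀ n ∈ range k, _ := fun n _ =>
    defect_g L R T c d p q hc hd hcd hcc hdd hL hLR hT n a b x
  have h3' := sum_congr (rfl : range k = range k) h3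
  have h4' := sum_congr (rfl : range k = range k) h4
  have hone : ∀ y : E, L 1 y = L (rho c d k) y + ∑ n ∈ range k, L (c n + d n) y := by
    intro y
    have : (1 : A) = rho c d k + ∑ n ∈ range k, (c n + d n) := by unfold rho; abel
    conv_lhs => rw [this]
    rw [map_add, map_sum, add_apply, _root_.sum_apply]
  have h5 : T a b (L 1 x) = T a b (L (rho c d k) x) + ∑ n ∈ range k, T a b (L (c n + d n) x) := by
    rw [hone x, map_add, map_sum]
  have h6 : T a 1 (L b x) = T a 1 (L (rho c d k) (L b x))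
      + ∑ n ∈ range k, T a 1 (L (c n + d n) (L b x)) := by
    have : L b x = L 1 (L b x) := by rw [hLL, one_mul]
    conv_lhs => rw [this, hone (L b x), map_add, map_sum]
  rw [h5, h6]
  unfold sFun
  simp only [sum_add_distrib, sum_sub_distrib, sum_neg_distrib] at h3' h4' ⊢
  linear_combination -h1 + h2 + h3' - h4'

/-- the linear version of `sFun` -/
noncomputable def sLin (c d : ℕ → A) (p q : ℕ → A →ₐ[ℂ] ℂ) (k : ℕ) : A →ₗ[ℂ] E →ₗ[ℂ] ℂ :=
  LinearMap.mk₂ ℂ (fun a x => sFun c d p q L T k a x)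
    (fun a b x => by
      simp only [sFun, gFun, map_add, add_apply, sum_add_distrib]
      simp only [add_sub_add_comm, add_mul, sum_add_distrib]
      ring)
    (fun s a x => by
      simp only [sFun, gFun, map_smul, smul_apply, smul_eq_mul, ← mul_sum, ← mul_sub, mul_assoc]
      ring)
    (fun a x y => by
      simp only [sFun, gFun, map_add, sum_add_distrib]
      simp only [add_sub_add_comm, mul_add, sum_add_distrib]
      ring)
    (fun s a x => by
      simp only [sFun, gFun, map_smul, smul_eq_mul, ← mul_sum, ← mul_sub, mul_left_comm _ s]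
      ring)

lemma norm_T_le (a b c : A) (x : E) :
    ‖T a b (L c x)‖ ≤ ‖T‖ * ‖a‖ * ‖b‖ * (‖L‖ * ‖c‖ * ‖x‖) := by
  have h1 := (T a b).le_opNorm (L c x)
  have h2 := (L c).le_opNorm x
  have h3 := L.le_opNorm c
  have h4 := (T a).le_opNorm b
  have h5 := T.le_opNorm a
  have h6 : ‖L c x‖ ≤ ‖L‖ * ‖c‖ * ‖x‖ :=
    h2.trans (mul_le_mul_of_nonneg_right h3 (norm_nonneg _))
  have h7 : ‖T a b‖ ≤ ‖T‖ * ‖a‖ * ‖b‖ :=
    h4.trans (mul_le_mul_of_nonneg_right h5 (norm_nonneg _))
  exact h1.trans (mul_le_mul h7 h6 (norm_nonneg _) (by positivity))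

/-- the bilinear form used for the averaging -/
noncomputable def avgForm (a : A) (x : E) : A →ₗ[ℂ] A →ₗ[ℂ] ℂ :=
  LinearMap.mk₂ ℂ (fun s t => T a s (L t x))
    (fun s s' t => by simp) (fun r s t => by simp) (fun s t t' => by simp)
    (fun r s t => by simp)

lemma norm_avg_le (c d : ℕ → A) (M : ℝ) (hM : 0 ≤ M)
    (hsign : ∀ (k : ℕ) (ε : ℕ → ℂ), (∀ n, ε n = 1 ∨ ε n = -1) →
      ‖rho c d k + ∑ n ∈ range k, ε n • (c n + d n)‖ ≤ M) (k : ℕ) (a : A) (x : E) :
    ‖T a (rho c d k) (L (rho c d k) x) + ∑ n ∈ range k, T a (c n + d n) (L (c n + d n) x)‖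
      ≤ ‖T‖ * ‖a‖ * M * (‖L‖ * M * ‖x‖) := by
  refine sign_avg (avgForm L T a x) (fun n => c n + d n) _ k (rho c d k) ?_
  intro ε hε
  have h := hsign k ε hε
  refine (norm_T_le L T a _ _ x).trans ?_
  gcongr

lemma norm_sFun_le (c d : ℕ → A) (p q : ℕ → A →ₐ[ℂ] ℂ) (M : ℝ) (hM : 0 ≤ M)
    (hcn : ∀ n, ‖c n‖ ≤ M) (hdn : ∀ n, ‖d n‖ ≤ M)
    (hsign : ∀ (k : ℕ) (ε : ℕ → ℂ), (∀ n, ε n = 1 ∨ ε n = -1) →
      ‖rho c d k + ∑ n ∈ range k, ε n • (c n + d n)‖ ≤ M)
    (hu : ∀ (a : A) (k : ℕ), ∑ n ∈ range k, ‖q n a - p n a‖ ≤ M * ‖a‖) :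
    ∃ C : ℝ, ∀ (k : ℕ) (a : A) (x : E), ‖sFun c d p q L T k a x‖ ≤ C * ‖a‖ * ‖x‖ := by
  refine ⟨‖T‖ * ‖(1 : A)‖ * ‖L‖ * ‖(1 : A)‖ + ‖T‖ * ‖(1 : A)‖ * ‖(1 : A)‖ * ‖L‖
    + ‖T‖ * M * ‖L‖ * M + ‖T‖ * ‖(1 : A)‖ * M * ‖L‖ * M * ‖L‖
    + M * (2 * (‖T‖ * M * M * ‖L‖ * M)), ?_⟩
  intro k a x
  have h1 := norm_T_le L T a 1 1 x
  have h2 := norm_T_le L T 1 1 a x
  have h3 := norm_avg_le L T c d M hM hsign k a x
  have h4 := norm_avg_le L T c d M hM hsign k 1 (L a x)
  have h4' : ‖L a x‖ ≤ ‖L‖ * ‖a‖ * ‖x‖ :=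
    ((L a).le_opNorm x).trans (mul_le_mul_of_nonneg_right (L.le_opNorm a) (norm_nonneg _))
  have h4'' : ‖T 1 (rho c d k) (L (rho c d k) (L a x))
      + ∑ n ∈ range k, T 1 (c n + d n) (L (c n + d n) (L a x))‖
      ≤ ‖T‖ * ‖(1 : A)‖ * M * (‖L‖ * M * (‖L‖ * ‖a‖ * ‖x‖)) := by
    refine h4.trans ?_
    gcongr
  have h5 : ‖∑ n ∈ range k, gFun c d p q L T n a x‖
      ≤ (M * ‖a‖) * (2 * (‖T‖ * M * M * (‖L‖ * M * ‖x‖))) := by
    refine (norm_sum_le _ _).trans ?_
    refine le_trans ?_ (mul_le_mul_of_nonneg_right (hu a k) (by positivity))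
    rw [sum_mul]
    apply sum_le_sum
    intro n _
    unfold gFun
    rw [norm_mul]
    apply mul_le_mul_of_nonneg_left _ (norm_nonneg _)
    refine (norm_sub_le _ _).trans ?_
    have e1 : ‖T (d n) (d n) (L (c n) x)‖ ≤ ‖T‖ * M * M * (‖L‖ * M * ‖x‖) := by
      refine (norm_T_le L T _ _ _ x).trans ?_
      have := hcn n
      have := hdn n
      gcongr
    have e2 : ‖T (c n) (c n) (L (d n) x)‖ ≤ ‖T‖ * M * M * (‖L‖ * M * ‖x‖) := by
      refine (norm_T_le L T _ _ _ x).trans ?_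
      have := hcn n
      have := hdn n
      gcongr
    linarith
  unfold sFun
  rw [norm_neg]
  refine (norm_add_le _ _).trans ?_
  have h6 := norm_add_le (T a 1 (L 1 x) - T 1 1 (L a x)
    - (T a (rho c d k) (L (rho c d k) x) + ∑ n ∈ range k, T a (c n + d n) (L (c n + d n) x)))
    (T 1 (rho c d k) (L (rho c d k) (L a x))
        + ∑ n ∈ range k, T 1 (c n + d n) (L (c n + d n) (L a x)))
  have h7 := norm_sub_le (T a 1 (L 1 x) - T 1 1 (L a x))
    (T a (rho c d k) (L (rho c d k) x) + ∑ n ∈ range k, T a (c n + d n) (L (c n + d n) x))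
  have h8 := norm_sub_le (T a 1 (L 1 x)) (T 1 1 (L a x))
  nlinarith [h1, h2, h3, h4'', h5, h6, h7, h8]

/-- the criterion -/
theorem exists_primitive (c d : ℕ → A) (p q : ℕ → A →ₐ[ℂ] ℂ)
    (hc : ∀ n a, a * c n = p n a • c n) (hd : ∀ n a, a * d n = q n a • d n)
    (hcd : ∀ n, c n * d n = 0) (hcc : ∀ n, c n * c n = c n) (hdd : ∀ n, d n * d n = d n)
    (horth : ∀ m n, m ≠ n → (c m + d m) * (c n + d n) = 0)
    (M : ℝ) (hM : 0 ≤ M)
    (hcn : ∀ n, ‖c n‖ ≤ M) (hdn : ∀ n, ‖d n‖ ≤ M)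
    (hrho : ∀ k, ‖rho c d k‖ ≤ M)
    (hsign : ∀ (k : ℕ) (ε : ℕ → ℂ), (∀ n, ε n = 1 ∨ ε n = -1) →
      ‖rho c d k + ∑ n ∈ range k, ε n • (c n + d n)‖ ≤ M)
    (hu : ∀ (a : A) (k : ℕ), ∑ n ∈ range k, ‖q n a - p n a‖ ≤ M * ‖a‖)
    (htail : ∀ b : A, ∃ s : ℂ, Tendsto (fun k => (b - s • (1 : A)) * rho c d k) atTop (𝓝 0))
    (hL : ∀ a b : A, L (a * b) = (L a).comp (L b))
    (hR : ∀ a b : A, R (a * b) = (R b).comp (R a))
    (hLR : ∀ a b : A, (L a).comp (R b) = (R b).comp (L a))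
    (hT : ∀ (a b c : A) (x : E),
      T b c (R a x) - T (a * b) c x + T a (b * c) x - T a b (L c x) = 0) :
    ∃ S : A →L[ℂ] (E →L[ℂ] ℂ), ∀ (a b : A) (x : E),
      T a b x = S b (R a x) - S (a * b) x + S a (L b x) := by
  have hLL : ∀ (s t : A) (y : E), L s (L t y) = L (s * t) y := fun s t y => by
    rw [hL]; rfl
  obtain ⟨C, hC⟩ := norm_sFun_le L T c d p q M hM hcn hdn hsign hu
  obtain ⟨S, hS⟩ := exists_limit (fun k => sLin L T c d p q k) C hC
  have hS' : ∀ a x, Tendsto (fun k => sFun c d p q L T k a x) (hyperfilter ℕ : Filter ℕ)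
      (𝓝 (S a x)) := hS
  -- the error term
  have herr : ∀ (a b : A) (x : E), Tendsto (fun k => T a (b * rho c d k) (L (rho c d k) x)
            - T a (rho c d k) (L (rho c d k) (L b x))) (hyperfilter ℕ : Filter ℕ) (𝓝 0) := by
    intro a b x
    obtain ⟨s, hs⟩ := htail b
    have hs' : Tendsto (fun k => ‖(b - s • (1 : A)) * rho c d k‖) (hyperfilter ℕ : Filter ℕ)
        (𝓝 0) := by
      have := (hs.mono_left Nat.hyperfilter_le_atTop).norm
      simpa using this
    have e : ∀ k, T a (b * rho c d k) (L (rho c d k) x)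
            - T a (rho c d k) (L (rho c d k) (L b x))
            = T a ((b - s • (1 : A)) * rho c d k) (L (rho c d k) x)
            - T a (rho c d k) (L ((b - s • (1 : A)) * rho c d k) x) := by
      intro k
      rw [hLL, mul_comm (rho c d k) b, sub_mul, smul_mul_assoc, one_mul]
      simp only [map_sub, map_smul, sub_apply, smul_apply, smul_eq_mul]
      ring
    have hb : ∀ k, ‖T a (b * rho c d k) (L (rho c d k) x)
            - T a (rho c d k) (L (rho c d k) (L b x))‖
            ≤ (2 * (‖T‖ * ‖a‖ * (‖L‖ * M * ‖x‖))) * ‖(b - s • (1 : A)) * rho c d k‖ := by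
      intro k
      rw [e k]
      refine (norm_sub_le _ _).trans ?_
      have e1 := norm_T_le L T a ((b - s • (1 : A)) * rho c d k) (rho c d k) x
      have e2 := norm_T_le L T a (rho c d k) ((b - s • (1 : A)) * rho c d k) x
      have e3 : ‖T‖ * ‖a‖ * ‖(b - s • (1 : A)) * rho c d k‖ * (‖L‖ * ‖rho c d k‖ * ‖x‖)
          ≤ ‖T‖ * ‖a‖ * ‖(b - s • (1 : A)) * rho c d k‖ * (‖L‖ * M * ‖x‖) := by
        have := hrho k
        gcongr
      have e4 : ‖T‖ * ‖a‖ * ‖rho c d k‖ * (‖L‖ * ‖(b - s • (1 : A)) * rho c d k‖ * ‖x‖)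
          ≤ ‖T‖ * ‖a‖ * M * (‖L‖ * ‖(b - s • (1 : A)) * rho c d k‖ * ‖x‖) := by
        have := hrho k
        gcongr
      calc _ ≤ _ := add_le_add (e1.trans e3) (e2.trans e4)
        _ = _ := by ring
    refine squeeze_zero_norm hb ?_
    simpa using hs'.const_mul (2 * (‖T‖ * ‖a‖ * (‖L‖ * M * ‖x‖)))
  -- the limit identity
  have hlim : ∀ (a b : A) (x : E),
      S b (R a x) - S (a * b) x + S a (L b x) = T a b (L 1 x) - T a 1 (L b x) := by
    intro a b x
    have h1 := ((hS' b (R a x)).sub (hS' (a * b) x)).add (hS' a (L b x))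
    have h2 : Tendsto (fun k => sFun c d p q L T k b (R a x) - sFun c d p q L T k (a * b) x
        + sFun c d p q L T k a (L b x)) (hyperfilter ℕ : Filter ℕ)
        (𝓝 (T a b (L 1 x) - T a 1 (L b x))) := by
      have h3 := (tendsto_const_nhds (x := T a b (L 1 x) - T a 1 (L b x))
        (f := (hyperfilter ℕ : Filter ℕ))).sub (herr a b x)
      rw [sub_zero] at h3
      refine h3.congr (fun k => ?_)
      exact (defect_sFun L R T c d p q hc hd hcd hcc hdd horth hL hLR hT k a b x).symm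
    exact tendsto_nhds_unique h1 h2
  refine ⟨S - T.flip 1 + (2 : ℂ) • ((ContinuousLinearMap.compL ℂ E E ℂ (T 1 1)).comp R), ?_⟩
  intro a b x
  have h1 := hlim a b x
  have h2 := hT a b 1 x
  have h3 := hT a 1 1 (L b x)
  have h4 : R (a * b) x = R b (R a x) := by rw [hR]; rfl
  have h5 : R a (L b x) = L b (R a x) :=
    (congrArg (fun f : E →L[ℂ] E => f x) (hLR b a)).symm
  simp only [add_apply, sub_apply, smul_apply, ContinuousLinearMap.flip_apply, smul_eq_mul,
    ContinuousLinearMap.comp_apply, ContinuousLinearMap.compL_apply, h4]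
  simp only [mul_one, one_mul, hLL] at h1 h2 h3
  linear_combination -h1 + h2 - 2 * h3

end Criterion

end Pool.Agent.Helper53.DbwOne
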