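import Mathlib

set_option autoImplicit false
set_option maxSynthPendingDepth 3

namespace Pool.Agent.Helper53

open scoped ENNReal

/-- the Banach space `ℓ¹` -/
abbrev Ell1 : Type := lp (fun _ : ℕ => ℂ) 1

namespace Ell1

lemma hasSum_norm (x : Ell1) : HasSum (fun i => ‖x i‖) ‖x‖ := by
  have := lp.hasSum_norm (p := 1) (by simp) x
  simpa using this

lemma summable_norm (x : Ell1) : Summable (fun i => ‖x i‖) := (hasSum_norm x).summable

lemma norm_eq (x : Ell1) : ‖x‖ = ∑' i, ‖x i‖ := (hasSum_norm x).tsum_eq.symm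

lemma sum_norm_le (x : Ell1) (F : Finset ℕ) : ∑ i ∈ F, ‖x i‖ ≤ ‖x‖ :=
  sum_le_hasSum F (fun _ _ => norm_nonneg _) (hasSum_norm x)

lemma norm_apply_le (x : Ell1) (i : ℕ) : ‖x i‖ ≤ ‖x‖ := by
  simpa using sum_norm_le x {i}

lemma norm_le_of_sum_le (x : Ell1) (C : ℝ) (h : ∀ F : Finset ℕ, ∑ i ∈ F, ‖x i‖ ≤ C) :
    ‖x‖ ≤ C :=
  hasSum_le_of_sum_le (hasSum_norm x) h

lemma mem_of_summable (f : ℕ → ℂ) (hf : Summable (fun i => ‖f i‖)) :
    Memℓp f (1 : ℝ≥0∞) := by
  refine memℓp_gen ?_
  simpa using hf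

/-- an element of `ℓ¹` from an absolutely summable family -/
noncomputable def mk (f : ℕ → ℂ) (hf : Summable (fun i => ‖f i‖)) : Ell1 :=
  ⟨f, mem_of_summable f hf⟩

@[simp] lemma mk_apply (f : ℕ → ℂ) (hf : Summable (fun i => ‖f i‖)) (i : ℕ) :
    mk f hf i = f i := rfl

lemma summable_indicator (x : Ell1) (B : Set ℕ) :
    Summable (fun i => ‖B.indicator (fun i => x i) i‖) := by
  refine Summable.of_nonneg_of_le (fun _ => norm_nonneg _) (fun i => ?_) (summable_norm x)
  exact norm_indicator_le_norm_self _ _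

/-- restriction of the coordinates to `B` -/
noncomputable def restr (B : Set ℕ) : Ell1 →L[ℂ] Ell1 :=
  LinearMap.mkContinuous
    { toFun := fun x => mk (B.indicator (fun i => x i)) (summable_indicator x B)
      map_add' := fun x y => by
        ext i
        simp only [mk_apply, lp.coeFn_add, Pi.add_apply]
        by_cases h : i ∈ B <;> simp [h]
      map_smul' := fun c x => by
        ext i
        simp only [mk_apply, lp.coeFn_smul, Pi.smul_apply, RingHom.id_apply]
        by_cases h : i ∈ B <;> simp [h] }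
    1 (fun x => by
      rw [one_mul]
      refine norm_le_of_sum_le _ _ (fun F => ?_)
      refine le_trans (Finset.sum_le_sum (fun i _ => ?_)) (sum_norm_le x F)
      exact norm_indicator_le_norm_self _ _)

lemma restr_apply (B : Set ℕ) (x : Ell1) (i : ℕ) :
    restr B x i = B.indicator (fun i => x i) i := rfl

lemma restr_apply_mem {B : Set ℕ} (x : Ell1) {i : ℕ} (h : i ∈ B) : restr B x i = x i := by
  rw [restr_apply, Set.indicator_of_mem h]

lemma restr_apply_notMem {B : Set ℕ} (x : Ell1) {i : ℕ} (h : i ∉ B) : restr B x i = 0 := by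
  rw [restr_apply, Set.indicator_of_notMem h]

lemma norm_restr_le (B : Set ℕ) : ‖restr B‖ ≤ 1 :=
  LinearMap.mkContinuous_norm_le _ zero_le_one _

lemma norm_restr_apply_le (B : Set ℕ) (x : Ell1) : ‖restr B x‖ ≤ ‖x‖ := by
  simpa using (restr B).le_of_opNorm_le (norm_restr_le B) x

lemma norm_restr_add_le {B B' : Set ℕ} (h : Disjoint B B') (x : Ell1) :
    ‖restr B x‖ + ‖restr B' x‖ ≤ ‖x‖ := by
  have h1 := (hasSum_norm (restr B x)).add (hasSum_norm (restr B' x))
  refine hasSum_le (fun i => ?_) h1 (hasSum_norm x)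
  by_cases hi : i ∈ B
  · have hi' : i ∉ B' := Set.disjoint_left.mp h hi
    rw [restr_apply_mem x hi, restr_apply_notMem x hi']; simp
  · rw [restr_apply_notMem x hi]
    by_cases hi' : i ∈ B'
    · rw [restr_apply_mem x hi']; simp
    · rw [restr_apply_notMem x hi']; simp

lemma restr_union {B B' : Set ℕ} (h : Disjoint B B') : restr (B ∪ B') = restr B + restr B' := by
  ext x i
  simp only [add_apply, lp.coeFn_add, Pi.add_apply]
  by_cases hi : i ∈ B
  · have hi' : i ∉ B' := Set.disjoint_left.mp h hi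
    rw [restr_apply_mem x hi, restr_apply_notMem x hi', restr_apply_mem x (Or.inl hi)]; simp
  · rw [restr_apply_notMem x hi]
    by_cases hi' : i ∈ B'
    · rw [restr_apply_mem x hi', restr_apply_mem x (Or.inr hi')]; simp
    · rw [restr_apply_notMem x hi', restr_apply_notMem x (by simp [hi, hi'])]; simp

lemma restr_univ : restr Set.univ = ContinuousLinearMap.id ℂ Ell1 := by
  ext x i
  rw [restr_apply_mem x (Set.mem_univ i)]; rfl

lemma restr_restr (B B' : Set ℕ) (x : Ell1) : restr B (restr B' x) = restr (B ∩ B') x := by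
  ext i
  by_cases hi : i ∈ B
  · rw [restr_apply_mem _ hi]
    by_cases hi' : i ∈ B'
    · rw [restr_apply_mem x hi', restr_apply_mem x (B := B ∩ B') ⟨hi, hi'⟩]
    · rw [restr_apply_notMem x hi', restr_apply_notMem x (B := B ∩ B') (fun h => hi' h.2)]
  · rw [restr_apply_notMem _ hi, restr_apply_notMem x (B := B ∩ B') (fun h => hi h.1)]

/-- the unit vectors -/
noncomputable def e (s : ℕ) : Ell1 := lp.single 1 s (1 : ℂ)

lemma e_apply (s i : ℕ) : e s i = if i = s then 1 else 0 := by
  unfold e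
  rw [lp.single_apply]
  by_cases h : i = s
  · subst h; simp
  · simp [h]

@[simp] lemma e_self (s : ℕ) : e s s = 1 := by simp [e_apply]

lemma e_ne {s i : ℕ} (h : i ≠ s) : e s i = 0 := by simp [e_apply, h]

lemma norm_e (s : ℕ) : ‖e s‖ = 1 := by
  unfold e
  rw [lp.norm_single (by simp)]; simp

/-- coordinate functionals -/
noncomputable def coord (i : ℕ) : Ell1 →L[ℂ] ℂ := lp.evalCLM ℂ (fun _ : ℕ => ℂ) 1 i

@[simp] lemma coord_apply (i : ℕ) (x : Ell1) : coord i x = x i := rfl

lemma norm_coord_le (i : ℕ) : ‖coord i‖ ≤ 1 :=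
  ContinuousLinearMap.opNorm_le_bound _ zero_le_one (fun x => by
    simpa using norm_apply_le x i)

lemma restr_Iio_eq (M : ℕ) (x : Ell1) :
    restr (Set.Iio M) x = ∑ m ∈ Finset.range M, x m • e m := by
  ext i
  rw [lp.coeFn_sum, Finset.sum_apply]
  simp only [lp.coeFn_smul, Pi.smul_apply, e_apply, smul_eq_mul, mul_ite, mul_one, mul_zero]
  rw [Finset.sum_ite_eq]
  by_cases hi : i < M
  · rw [restr_apply_mem x (by simpa using hi)]; simp [hi]
  · rw [restr_apply_notMem x (by simpa using hi)]; simp [hi]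

lemma tendsto_restr_Ici (x : Ell1) :
    Filter.Tendsto (fun M : ℕ => ‖restr (Set.Ici M) x‖) Filter.atTop (nhds 0) := by
  have h1 : ∀ M : ℕ, ‖restr (Set.Ici M) x‖ = ‖x‖ - ∑ i ∈ Finset.range M, ‖x i‖ := by
    intro M
    have hs := hasSum_norm (restr (Set.Ici M) x)
    have hx := hasSum_norm x
    have hsub := (hx.sub hs)
    have h2 : HasSum (fun i => ‖x i‖ - ‖restr (Set.Ici M) x i‖)
        (∑ i ∈ Finset.range M, ‖x i‖) := by
      have h3 : ∀ i ∉ Finset.range M, ‖x i‖ - ‖restr (Set.Ici M) x i‖ = 0 := by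
        intro i hi
        have : i ∈ Set.Ici M := by simpa using hi
        rw [restr_apply_mem x this]; simp
      have h4 := hasSum_sum_of_ne_finset_zero (L := .unconditional ℕ) h3
      convert h4 using 1
      refine Finset.sum_congr rfl (fun i hi => ?_)
      have : i ∉ Set.Ici M := by simpa using hi
      rw [restr_apply_notMem x this]; simp
    have h5 := hsub.unique h2
    linarith
  have h6 := (hasSum_norm x).tendsto_sum_nat
  simp_rw [h1]
  simpa using (tendsto_const_nhds (x := ‖x‖)).sub h6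

end Ell1

end Pool.Agent.Helper53
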