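import Mathlib
import Pool.Agent.Helper53.EllOne
import Pool.Agent.Helper53.DbwOne

set_option autoImplicit false
set_option maxSynthPendingDepth 3

namespace Pool.Agent.Helper53.DbwModel

open Filter Topology Finset
open scoped ENNReal

/-- convergent sequences -/
abbrev CX : Type := C(OnePoint ℕ, ℂ)

/-- the underlying Banach space `c ⊕ ℓ¹` -/
def Alg : Type := WithLp 1 (CX × Ell1)

noncomputable instance : NormedAddCommGroup Alg :=
  inferInstanceAs (NormedAddCommGroup (WithLp 1 (CX × Ell1)))
noncomputable instance : NormedSpace ℂ Alg :=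
  inferInstanceAs (NormedSpace ℂ (WithLp 1 (CX × Ell1)))
instance : CompleteSpace Alg := inferInstanceAs (CompleteSpace (WithLp 1 (CX × Ell1)))

namespace Alg

/-- first component -/
def g (a : Alg) : CX := WithLp.fst (show WithLp 1 (CX × Ell1) from a)
/-- second component -/
def u (a : Alg) : Ell1 := WithLp.snd (show WithLp 1 (CX × Ell1) from a)
/-- constructor -/
def mk (g : CX) (u : Ell1) : Alg := WithLp.toLp 1 (g, u)

@[simp] lemma g_mk (g₀ : CX) (u₀ : Ell1) : (mk g₀ u₀).g = g₀ := rfl
@[simp] lemma u_mk (g₀ : CX) (u₀ : Ell1) : (mk g₀ u₀).u = u₀ := rfl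
@[simp] lemma g_add (a b : Alg) : (a + b).g = a.g + b.g := rfl
@[simp] lemma u_add (a b : Alg) : (a + b).u = a.u + b.u := rfl
@[simp] lemma g_sub (a b : Alg) : (a - b).g = a.g - b.g := rfl
@[simp] lemma u_sub (a b : Alg) : (a - b).u = a.u - b.u := rfl
@[simp] lemma g_neg (a : Alg) : (-a).g = -a.g := rfl
@[simp] lemma u_neg (a : Alg) : (-a).u = -a.u := rfl
@[simp] lemma g_zero : (0 : Alg).g = 0 := rfl
@[simp] lemma u_zero : (0 : Alg).u = 0 := rfl
@[simp] lemma g_smul (s : ℂ) (a : Alg) : (s • a).g = s • a.g := rfl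
@[simp] lemma u_smul (s : ℂ) (a : Alg) : (s • a).u = s • a.u := rfl

lemma ext' {a b : Alg} (hg : ∀ x, a.g x = b.g x) (hu : ∀ n, a.u n = b.u n) : a = b := by
  have h1 : a.g = b.g := ContinuousMap.ext hg
  have h2 : a.u = b.u := by ext n; exact hu n
  have h3 : ∀ c : Alg, c = mk c.g c.u := fun c => rfl
  rw [h3 a, h3 b, h1, h2]

lemma norm_def (a : Alg) : ‖a‖ = ‖a.g‖ + ‖a.u‖ :=
  WithLp.prod_norm_eq_of_L1 (show WithLp 1 (CX × Ell1) from a)

lemma norm_g_le (a : Alg) : ‖a.g‖ ≤ ‖a‖ := by
  rw [norm_def]; linarith [norm_nonneg a.u]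

lemma norm_u_le (a : Alg) : ‖a.u‖ ≤ ‖a‖ := by
  rw [norm_def]; linarith [norm_nonneg a.g]

lemma summable_mulU (g h : CX) (v w : Ell1) :
    Summable (fun n : ℕ => ‖g (n : OnePoint ℕ) * w n + v n * h (n : OnePoint ℕ) + v n * w n‖) := by
  refine Summable.of_nonneg_of_le (f := fun n => ‖g‖ * ‖w n‖ + ‖h‖ * ‖v n‖ + ‖v‖ * ‖w n‖)
    (fun _ => norm_nonneg _) (fun n => ?_) ?_
  · refine (norm_add₃_le).trans ?_
    rw [norm_mul, norm_mul, norm_mul]
    have h1 := g.norm_coe_le_norm (n : OnePoint ℕ)
    have h2 := h.norm_coe_le_norm (n : OnePoint ℕ)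
    have h3 := Ell1.norm_apply_le v n
    nlinarith [norm_nonneg (w n), norm_nonneg (v n)]
  · exact (((Ell1.summable_norm w).mul_left _).add ((Ell1.summable_norm v).mul_left _)).add
      ((Ell1.summable_norm w).mul_left _)

/-- second component of a product -/
noncomputable def mulU (g h : CX) (v w : Ell1) : Ell1 :=
  Ell1.mk (fun n : ℕ => g (n : OnePoint ℕ) * w n + v n * h (n : OnePoint ℕ) + v n * w n)
    (summable_mulU g h v w)

lemma norm_mulU_le (g h : CX) (v w : Ell1) :
    ‖mulU g h v w‖ ≤ ‖g‖ * ‖w‖ + ‖v‖ * ‖h‖ + ‖v‖ * ‖w‖ := by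
  have h0 := Ell1.hasSum_norm (mulU g h v w)
  have h1 : HasSum (fun n : ℕ => ‖g‖ * ‖w n‖ + ‖v n‖ * ‖h‖ + ‖v‖ * ‖w n‖)
      (‖g‖ * ‖w‖ + ‖v‖ * ‖h‖ + ‖v‖ * ‖w‖) :=
    (((Ell1.hasSum_norm w).mul_left _).add ((Ell1.hasSum_norm v).mul_right _)).add
      ((Ell1.hasSum_norm w).mul_left _)
  refine hasSum_le (fun n => ?_) h0 h1
  show ‖g (n : OnePoint ℕ) * w n + v n * h (n : OnePoint ℕ) + v n * w n‖ ≤ _
  refine (norm_add₃_le).trans ?_
  rw [norm_mul, norm_mul, norm_mul]
  have h1 := g.norm_coe_le_norm (n : OnePoint ℕ)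
  have h2 := h.norm_coe_le_norm (n : OnePoint ℕ)
  have h3 := Ell1.norm_apply_le v n
  nlinarith [norm_nonneg (w n), norm_nonneg (v n)]

noncomputable instance : Mul Alg := ⟨fun a b => mk (a.g * b.g) (mulU a.g b.g a.u b.u)⟩
noncomputable instance : One Alg := ⟨mk 1 0⟩

@[simp] lemma g_mul (a b : Alg) : (a * b).g = a.g * b.g := rfl
@[simp] lemma u_mul (a b : Alg) (n : ℕ) : (a * b).u n
    = a.g (n : OnePoint ℕ) * b.u n + a.u n * b.g (n : OnePoint ℕ) + a.u n * b.u n := rfl
@[simp] lemma g_one : (1 : Alg).g = 1 := rfl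
@[simp] lemma u_one : (1 : Alg).u = 0 := rfl

noncomputable instance : NormedCommRing Alg :=
  { (inferInstance : NormedAddCommGroup Alg) with
    mul := fun a b => a * b
    one := 1
    left_distrib := fun a b c => by
      apply ext'
      · intro x; simp [mul_add]
      · intro n; simp; ring
    right_distrib := fun a b c => by
      apply ext'
      · intro x; simp [add_mul]
      · intro n; simp; ring
    zero_mul := fun a => by
      apply ext'
      · intro x; simp
      · intro n; simp
    mul_zero := fun a => by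
      apply ext'
      · intro x; simp
      · intro n; simp
    mul_assoc := fun a b c => by
      apply ext'
      · intro x; simp [mul_assoc]
      · intro n; simp; ring
    one_mul := fun a => by
      apply ext'
      · intro x; simp
      · intro n; simp
    mul_one := fun a => by
      apply ext'
      · intro x; simp
      · intro n; simp
    mul_comm := fun a b => by
      apply ext'
      · intro x; simp [mul_comm]
      · intro n; simp; ring
    norm_mul_le := fun a b => by
      rw [norm_def, norm_def, norm_def]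
      have h1 : ‖(a * b).g‖ ≤ ‖a.g‖ * ‖b.g‖ := norm_mul_le _ _
      have h2 : ‖(a * b).u‖ ≤ ‖a.g‖ * ‖b.u‖ + ‖a.u‖ * ‖b.g‖ + ‖a.u‖ * ‖b.u‖ :=
        norm_mulU_le _ _ _ _
      calc _ ≤ ‖a.g‖ * ‖b.g‖ + (‖a.g‖ * ‖b.u‖ + ‖a.u‖ * ‖b.g‖ + ‖a.u‖ * ‖b.u‖) :=
            add_le_add h1 h2
        _ = _ := by ring }

noncomputable instance : NormedAlgebra ℂ Alg :=
  { Algebra.ofModule (R := ℂ) (A := Alg)
      (fun s a b => by
        apply ext'
        · intro x; simp
        · intro n; simp; ring)
      (fun s a b => by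
        apply ext'
        · intro x; simp
        · intro n; simp; ring) with
    norm_smul_le := fun s a => (norm_smul s a).le }

@[simp] lemma g_sum {ι : Type*} (F : Finset ι) (f : ι → Alg) :
    (∑ i ∈ F, f i).g = ∑ i ∈ F, (f i).g := by
  classical
  induction F using Finset.induction_on with
  | empty => simp
  | insert i F hi ih => rw [sum_insert hi, sum_insert hi, g_add, ih]

@[simp] lemma u_sum {ι : Type*} (F : Finset ι) (f : ι → Alg) :
    (∑ i ∈ F, f i).u = ∑ i ∈ F, (f i).u := by
  classical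
  induction F using Finset.induction_on with
  | empty => simp
  | insert i F hi ih => rw [sum_insert hi, sum_insert hi, u_add, ih]

end Alg

/-- a sequence with a limit as a continuous function -/
noncomputable def seq (f : ℕ → ℂ) (y : ℂ) (h : Tendsto f atTop (𝓝 y)) : CX :=
  OnePoint.continuousMapMkNat f y h

@[simp] lemma seq_coe (f : ℕ → ℂ) (y : ℂ) (h : Tendsto f atTop (𝓝 y)) (n : ℕ) :
    seq f y h (n : OnePoint ℕ) = f n := rfl

@[simp] lemma seq_infty (f : ℕ → ℂ) (y : ℂ) (h : Tendsto f atTop (𝓝 y)) :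
    seq f y h OnePoint.infty = y := rfl

lemma tendsto_ell1 (v : Ell1) : Tendsto (fun n => v n) atTop (𝓝 0) := by
  have := (Ell1.summable_norm v).tendsto_atTop_zero
  exact tendsto_zero_iff_norm_tendsto_zero.2 this

/-- inclusion of `ℓ¹` in the convergent sequences -/
noncomputable def iota (v : Ell1) : CX := seq (fun n => v n) 0 (tendsto_ell1 v)

@[simp] lemma iota_coe (v : Ell1) (n : ℕ) : iota v (n : OnePoint ℕ) = v n := rfl
@[simp] lemma iota_infty (v : Ell1) : iota v OnePoint.infty = 0 := rfl

lemma norm_iota_le (v : Ell1) : ‖iota v‖ ≤ ‖v‖ := by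
  rw [ContinuousMap.norm_le _ (norm_nonneg _)]
  intro x
  induction x using OnePoint.rec with
  | infty => simp
  | coe n => simpa using Ell1.norm_apply_le v n

/-- the second evaluation, on the whole sequence space -/
noncomputable def hmap (a : Alg) : CX := a.g + iota a.u

lemma hmap_coe (a : Alg) (n : ℕ) :
    hmap a (n : OnePoint ℕ) = a.g (n : OnePoint ℕ) + a.u n := rfl
lemma hmap_infty (a : Alg) : hmap a OnePoint.infty = a.g OnePoint.infty := by
  show a.g OnePoint.infty + 0 = _
  rw [add_zero]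

lemma hmap_mul (a b : Alg) : hmap (a * b) = hmap a * hmap b := by
  ext x
  induction x using OnePoint.rec with
  | infty => rw [ContinuousMap.mul_apply, hmap_infty, hmap_infty, hmap_infty]; rfl
  | coe n =>
    rw [ContinuousMap.mul_apply, hmap_coe, hmap_coe, hmap_coe, Alg.u_mul, Alg.g_mul,
      ContinuousMap.mul_apply]
    ring

lemma norm_hmap_le (a : Alg) : ‖hmap a‖ ≤ ‖a‖ := by
  rw [Alg.norm_def]
  refine (norm_add_le _ _).trans ?_
  linarith [norm_iota_le a.u]

/-- first family of characters -/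
noncomputable def p (n : ℕ) : Alg →ₐ[ℂ] ℂ :=
  AlgHom.ofLinearMap
    { toFun := fun a => a.g (n : OnePoint ℕ)
      map_add' := fun _ _ => rfl
      map_smul' := fun _ _ => rfl }
    rfl (fun _ _ => rfl)

/-- second family of characters -/
noncomputable def q (n : ℕ) : Alg →ₐ[ℂ] ℂ :=
  AlgHom.ofLinearMap
    { toFun := fun a => a.g (n : OnePoint ℕ) + a.u n
      map_add' := fun a b => by
        simp only [Alg.g_add, Alg.u_add, ContinuousMap.add_apply, lp.coeFn_add, Pi.add_apply]
        ring
      map_smul' := fun s a => by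
        simp only [Alg.g_smul, Alg.u_smul, ContinuousMap.smul_apply, lp.coeFn_smul,
          Pi.smul_apply, smul_eq_mul, RingHom.id_apply]
        ring }
    (by simp) (fun a b => by
      simp only [LinearMap.coe_mk, AddHom.coe_mk, Alg.u_mul, Alg.g_mul, ContinuousMap.mul_apply]
      ring)

lemma p_apply (n : ℕ) (a : Alg) : p n a = a.g (n : OnePoint ℕ) := rfl
lemma q_apply (n : ℕ) (a : Alg) : q n a = a.g (n : OnePoint ℕ) + a.u n := rfl

/-- unit vectors of the convergent sequences -/
noncomputable def del (n : ℕ) : CX := iota (Ell1.e n)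

lemma del_coe (n m : ℕ) : del n (m : OnePoint ℕ) = if m = n then 1 else 0 :=
  Ell1.e_apply n m
@[simp] lemma del_infty (n : ℕ) : del n OnePoint.infty = 0 := rfl

/-- the idempotent at the first copy of `n` -/
noncomputable def c (n : ℕ) : Alg := Alg.mk (del n) (-(Ell1.e n))
/-- the idempotent at the second copy of `n` -/
noncomputable def d (n : ℕ) : Alg := Alg.mk 0 (Ell1.e n)

lemma c_g (n : ℕ) : (c n).g = del n := rfl
lemma d_g (n : ℕ) : (d n).g = 0 := rfl
lemma c_u (n m : ℕ) : (c n).u m = -(if m = n then 1 else 0) := by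
  show (-(Ell1.e n) : Ell1) m = _
  rw [lp.coeFn_neg, Pi.neg_apply, Ell1.e_apply]
lemma d_u (n m : ℕ) : (d n).u m = if m = n then 1 else 0 := Ell1.e_apply n m

lemma mul_c (n : ℕ) (a : Alg) : a * c n = p n a • c n := by
  apply Alg.ext'
  · intro x
    induction x using OnePoint.rec with
    | infty => simp [c_g]
    | coe m =>
      simp only [Alg.g_mul, c_g, ContinuousMap.mul_apply, del_coe, Alg.g_smul,
        ContinuousMap.smul_apply, p_apply, smul_eq_mul]
      by_cases h : m = n
      · subst h; simp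
      · simp [h]
  · intro m
    simp only [Alg.u_mul, c_g, c_u, del_coe, Alg.u_smul, lp.coeFn_smul, Pi.smul_apply, p_apply,
      smul_eq_mul]
    by_cases h : m = n
    · subst h; simp
    · simp [h]

lemma mul_d (n : ℕ) (a : Alg) : a * d n = q n a • d n := by
  apply Alg.ext'
  · intro x
    simp [d_g]
  · intro m
    simp only [Alg.u_mul, d_g, d_u, Alg.u_smul, lp.coeFn_smul, Pi.smul_apply, q_apply,
      smul_eq_mul, ContinuousMap.zero_apply]
    by_cases h : m = n
    · subst h; simp
    · simp [h]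

lemma p_c (n m : ℕ) : p n (c m) = if n = m then 1 else 0 := del_coe m n
lemma q_c (n m : ℕ) : q n (c m) = 0 := by
  rw [q_apply, c_u, c_g, del_coe]; ring
lemma p_d (n m : ℕ) : p n (d m) = 0 := rfl
lemma q_d (n m : ℕ) : q n (d m) = if n = m then 1 else 0 := by
  rw [q_apply, d_u, d_g]; simp

lemma c_mul_d (n : ℕ) : c n * d n = 0 := by rw [mul_d, q_c, zero_smul]
lemma c_mul_c (n : ℕ) : c n * c n = c n := by rw [mul_c, p_c]; simp
lemma d_mul_d (n : ℕ) : d n * d n = d n := by rw [mul_d, q_d]; simp

lemma chi_orth (m n : ℕ) (h : m ≠ n) : (c m + d m) * (c n + d n) = 0 := by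
  rw [mul_add, mul_c, mul_d, map_add, map_add, p_c, q_c, p_d, q_d]
  simp [Ne.symm h]

lemma norm_d_le (n : ℕ) : ‖d n‖ ≤ 2 := by
  rw [Alg.norm_def, d_g]
  show ‖(0 : CX)‖ + ‖Ell1.e n‖ ≤ 2
  rw [norm_zero, Ell1.norm_e]; norm_num

lemma norm_c_le (n : ℕ) : ‖c n‖ ≤ 2 := by
  rw [Alg.norm_def, c_g]
  show ‖iota (Ell1.e n)‖ + ‖-(Ell1.e n)‖ ≤ 2
  have h1 := norm_iota_le (Ell1.e n)
  rw [norm_neg]
  rw [Ell1.norm_e] at *
  linarith

lemma sum_norm_le (a : Alg) (k : ℕ) : ∑ n ∈ range k, ‖q n a - p n a‖ ≤ 2 * ‖a‖ := by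
  have h : ∀ n, q n a - p n a = a.u n := fun n => by rw [q_apply, p_apply]; ring
  simp_rw [h]
  have h1 := Ell1.sum_norm_le a.u (range k)
  have h2 := Alg.norm_u_le a
  linarith [norm_nonneg a]

open DbwOne (rho)

lemma chi_g (n : ℕ) : (c n + d n).g = del n := by
  rw [Alg.g_add, c_g, d_g, add_zero]

lemma chi_u (n : ℕ) : (c n + d n).u = 0 := by
  show -(Ell1.e n) + Ell1.e n = 0
  simp

lemma rho_u (k : ℕ) : (rho c d k).u = 0 := by
  unfold rho
  rw [Alg.u_sub, Alg.u_sum]
  simp only [chi_u, Alg.u_one, sum_const_zero, sub_zero]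

lemma rho_g_infty (k : ℕ) : (rho c d k).g OnePoint.infty = 1 := by
  unfold rho
  rw [Alg.g_sub, Alg.g_sum]
  simp only [chi_g, Alg.g_one, ContinuousMap.sub_apply, ContinuousMap.one_apply,
    ContinuousMap.coe_sum, Finset.sum_apply, del_infty, sum_const_zero, sub_zero]

lemma rho_g_coe (k m : ℕ) : (rho c d k).g (m : OnePoint ℕ) = if m < k then 0 else 1 := by
  unfold rho
  rw [Alg.g_sub, Alg.g_sum]
  simp only [chi_g, Alg.g_one, ContinuousMap.sub_apply, ContinuousMap.one_apply,
    ContinuousMap.coe_sum, Finset.sum_apply, del_coe, Finset.sum_ite_eq, Finset.mem_range]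
  by_cases h : m < k <;> simp [h]

lemma norm_sign_le (k : ℕ) (ε : ℕ → ℂ) (hε : ∀ n, ε n = 1 ∨ ε n = -1) :
    ‖rho c d k + ∑ n ∈ range k, ε n • (c n + d n)‖ ≤ 2 := by
  have hn : ∀ n, ‖ε n‖ = 1 := fun n => by
    rcases hε n with h | h <;> rw [h] <;> simp
  rw [Alg.norm_def, Alg.g_add, Alg.u_add, rho_u, Alg.u_sum, Alg.g_sum]
  simp only [Alg.g_smul, Alg.u_smul, chi_g, chi_u, smul_zero, sum_const_zero, add_zero, norm_zero]
  refine le_trans ?_ one_le_two
  rw [ContinuousMap.norm_le _ zero_le_one]
  intro x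
  induction x using OnePoint.rec with
  | infty =>
    simp [rho_g_infty]
  | coe m =>
    simp only [ContinuousMap.add_apply, rho_g_coe, ContinuousMap.coe_sum, Finset.sum_apply,
      ContinuousMap.smul_apply, del_coe, smul_eq_mul, mul_ite, mul_one, mul_zero,
      Finset.sum_ite_eq, Finset.mem_range]
    by_cases h : m < k <;> simp [h, hn]

lemma norm_rho_le (k : ℕ) : ‖rho c d k‖ ≤ 2 := by
  rw [Alg.norm_def, rho_u, norm_zero, add_zero]
  refine le_trans ?_ one_le_two
  rw [ContinuousMap.norm_le _ zero_le_one]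
  intro x
  induction x using OnePoint.rec with
  | infty => simp [rho_g_infty]
  | coe m =>
    rw [rho_g_coe]
    by_cases h : m < k <;> simp [h]

lemma tail (b : Alg) : ∃ s : ℂ, Tendsto (fun k => (b - s • (1 : Alg)) * rho c d k) atTop (𝓝 0) := by
  refine ⟨b.g OnePoint.infty, ?_⟩
  rw [tendsto_zero_iff_norm_tendsto_zero]
  set s := b.g OnePoint.infty with hs
  have hu : ∀ k, ((b - s • (1 : Alg)) * rho c d k).u = Ell1.restr (Set.Ici k) b.u := by
    intro k
    ext n
    simp only [Alg.u_mul, rho_u, lp.coeFn_zero, Pi.zero_apply, mul_zero, zero_add, add_zero,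
      rho_g_coe, Alg.u_sub, Alg.u_smul, Alg.u_one, smul_zero, sub_zero]
    by_cases h : n < k
    · rw [Ell1.restr_apply_notMem _ (by simpa using h)]; simp [h]
    · rw [Ell1.restr_apply_mem _ (by simpa using h)]; simp [h]
  have hgt : Tendsto (fun k => ‖((b - s • (1 : Alg)) * rho c d k).g‖) atTop (𝓝 0) := by
    rw [Metric.tendsto_atTop]
    intro ε hε
    have hc : Tendsto (fun n : ℕ => b.g (n : OnePoint ℕ)) atTop (𝓝 s) :=
      (OnePoint.continuous_iff_from_nat _).1 b.g.continuous
    obtain ⟨K, hK⟩ := (Metric.tendsto_atTop.1 hc) (ε / 2) (by positivity)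
    refine ⟨K, fun k hk => ?_⟩
    rw [dist_zero_right, norm_norm]
    refine lt_of_le_of_lt ?_ (half_lt_self hε)
    rw [ContinuousMap.norm_le _ (by positivity)]
    intro x
    simp only [Alg.g_mul, ContinuousMap.mul_apply, Alg.g_sub, Alg.g_smul, Alg.g_one,
      ContinuousMap.sub_apply, ContinuousMap.smul_apply, ContinuousMap.one_apply, smul_eq_mul,
      mul_one]
    induction x using OnePoint.rec with
    | infty => rw [← hs]; simp; positivity
    | coe m =>
      rw [rho_g_coe]
      by_cases h : m < k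
      · simp [h]; positivity
      · have := hK m (by omega)
        rw [dist_eq_norm] at this
        simpa [h] using this.le
  have hut := Ell1.tendsto_restr_Ici b.u
  have := hgt.add hut
  rw [add_zero] at this
  refine this.congr (fun k => ?_)
  rw [Alg.norm_def, hu]

/-- second cohomology of the algebra vanishes -/
theorem exists_primitive {E : Type*} [NormedAddCommGroup E] [NormedSpace ℂ E]
    (L R : Alg →L[ℂ] E →L[ℂ] E) (T : Alg →L[ℂ] Alg →L[ℂ] (E →L[ℂ] ℂ))
    (hL : ∀ a b : Alg, L (a * b) = (L a).comp (L b))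
    (hR : ∀ a b : Alg, R (a * b) = (R b).comp (R a))
    (hLR : ∀ a b : Alg, (L a).comp (R b) = (R b).comp (L a))
    (hT : ∀ (a b c : Alg) (x : E),
      T b c (R a x) - T (a * b) c x + T a (b * c) x - T a b (L c x) = 0) :
    ∃ S : Alg →L[ℂ] (E →L[ℂ] ℂ), ∀ (a b : Alg) (x : E),
      T a b x = S b (R a x) - S (a * b) x + S a (L b x) :=
  DbwOne.exists_primitive L R T c d p q mul_c mul_d c_mul_d c_mul_c d_mul_d chi_orth 2
    zero_le_two norm_c_le norm_d_le norm_rho_le norm_sign_le sum_norm_le tail hL hR hLR hT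

/-! ### the spectrum -/

/-- two copies of `ℕ` and a point at infinity -/
abbrev Kspace : Type := OnePoint (ℕ × Bool)

/-- values of an element of the algebra at the isolated points -/
noncomputable def val (a : Alg) (t : ℕ × Bool) : ℂ :=
  if t.2 then a.g (t.1 : OnePoint ℕ) + a.u t.1 else a.g (t.1 : OnePoint ℕ)

lemma tendsto_val (a : Alg) : Tendsto (val a) cofinite (𝓝 (a.g OnePoint.infty)) := by
  have h1 : Tendsto (fun n : ℕ => a.g (n : OnePoint ℕ)) atTop (𝓝 (a.g OnePoint.infty)) :=
    (OnePoint.continuous_iff_from_nat _).1 a.g.continuous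
  have h2 : Tendsto (fun n : ℕ => hmap a (n : OnePoint ℕ)) atTop (𝓝 (a.g OnePoint.infty)) := by
    have := (OnePoint.continuous_iff_from_nat _).1 (hmap a).continuous
    rwa [hmap_infty] at this
  rw [Metric.tendsto_nhds]
  intro ε hε
  rw [Filter.eventually_cofinite]
  obtain ⟨N1, hN1⟩ := (Metric.tendsto_atTop.1 h1) ε hε
  obtain ⟨N2, hN2⟩ := (Metric.tendsto_atTop.1 h2) ε hε
  refine Set.Finite.subset ((Set.finite_Iio (max N1 N2)).prod (Set.finite_univ (α := Bool))) ?_
  rintro ⟨n, b⟩ h
  refine ⟨?_, Set.mem_univ _⟩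
  by_contra hn
  have hn' : max N1 N2 ≤ n := by simpa using hn
  apply h
  cases b with
  | false => simpa [val] using hN1 n (le_trans (le_max_left _ _) hn')
  | true => simpa [val, hmap_coe] using hN2 n (le_trans (le_max_right _ _) hn')

/-- the Gelfand representation as a function -/
noncomputable def gel (a : Alg) : C(Kspace, ℂ) :=
  OnePoint.continuousMapMkDiscrete (val a) (a.g OnePoint.infty) (tendsto_val a)

lemma gel_coe (a : Alg) (t : ℕ × Bool) : gel a (t : Kspace) = val a t := rfl
lemma gel_infty (a : Alg) : gel a OnePoint.infty = a.g OnePoint.infty := rfl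

/-- the Gelfand representation -/
noncomputable def gelHom : Alg →ₐ[ℂ] C(Kspace, ℂ) :=
  AlgHom.ofLinearMap
    { toFun := gel
      map_add' := fun a b => by
        ext x
        induction x using OnePoint.rec with
        | infty => rfl
        | coe t =>
          rw [ContinuousMap.add_apply, gel_coe, gel_coe, gel_coe]
          unfold val
          rcases t with ⟨n, _ | _⟩
          · simp
          · simp; ring
      map_smul' := fun s a => by
        ext x
        induction x using OnePoint.rec with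
        | infty => rfl
        | coe t =>
          rw [ContinuousMap.smul_apply, gel_coe, gel_coe]
          unfold val
          rcases t with ⟨n, _ | _⟩
          · simp
          · simp; ring }
    (by
      ext x
      induction x using OnePoint.rec with
      | infty => rfl
      | coe t =>
        show gel 1 (t : Kspace) = 1
        rw [gel_coe]
        unfold val
        rcases t with ⟨n, _ | _⟩ <;> simp)
    (fun a b => by
      ext x
      induction x using OnePoint.rec with
      | infty => rfl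
      | coe t =>
        show gel (a * b) (t : Kspace) = gel a (t : Kspace) * gel b (t : Kspace)
        rw [gel_coe, gel_coe, gel_coe]
        unfold val
        rcases t with ⟨n, _ | _⟩
        · simp
        · simp; ring)

lemma gelHom_apply (a : Alg) : gelHom a = gel a := rfl

lemma gelHom_injective : Function.Injective gelHom := by
  rw [injective_iff_map_eq_zero]
  intro a ha
  rw [gelHom_apply] at ha
  have h0 : ∀ n : ℕ, a.g (n : OnePoint ℕ) = 0 := fun n => by
    have := congrArg (fun f : C(Kspace, ℂ) => f (((n, false) : ℕ × Bool) : Kspace)) ha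
    simpa [gel_coe, val] using this
  apply Alg.ext'
  · intro x
    induction x using OnePoint.rec with
    | infty =>
      have := congrArg (fun f : C(Kspace, ℂ) => f OnePoint.infty) ha
      simpa [gel_infty] using this
    | coe n => simpa using h0 n
  · intro n
    have := congrArg (fun f : C(Kspace, ℂ) => f (((n, true) : ℕ × Bool) : Kspace)) ha
    simpa [gel_coe, val, h0 n] using this

lemma gel_c (n m : ℕ) (b : Bool) :
    gel (c n) (((m, b) : ℕ × Bool) : Kspace) = if m = n ∧ b = false then 1 else 0 := by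
  rw [gel_coe]
  unfold val
  rw [c_g, del_coe]
  rcases b with _ | _
  · by_cases h : m = n <;> simp [h]
  · rw [c_u]
    by_cases h : m = n <;> simp [h]

lemma gel_d (n m : ℕ) (b : Bool) :
    gel (d n) (((m, b) : ℕ × Bool) : Kspace) = if m = n ∧ b = true then 1 else 0 := by
  rw [gel_coe]
  unfold val
  rw [d_g]
  rcases b with _ | _
  · by_cases h : m = n <;> simp
  · rw [d_u]
    by_cases h : m = n <;> simp [h]

/-- for every isolated point there is an element that is one there and zero elsewhere -/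
lemma exists_peak (t : ℕ × Bool) : ∃ a : Alg, gel a (t : Kspace) = 1 ∧
    ∀ x : Kspace, x ≠ (t : Kspace) → gel a x = 0 := by
  rcases t with ⟨n, _ | _⟩
  · refine ⟨c n, by rw [gel_c]; simp, fun x hx => ?_⟩
    induction x using OnePoint.rec with
    | infty => rfl
    | coe s =>
      rcases s with ⟨m, b⟩
      rw [gel_c]
      rw [if_neg]
      rintro ⟨rfl, rfl⟩
      exact hx rfl
  · refine ⟨d n, by rw [gel_d]; simp, fun x hx => ?_⟩
    induction x using OnePoint.rec with
    | infty => rfl
    | coe s =>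
      rcases s with ⟨m, b⟩
      rw [gel_d]
      rw [if_neg]
      rintro ⟨rfl, rfl⟩
      exact hx rfl

lemma separates (x y : Kspace) (hxy : x ≠ y) : ∃ a : Alg, gelHom a x ≠ gelHom a y := by
  simp only [gelHom_apply]
  induction x using OnePoint.rec with
  | infty =>
    induction y using OnePoint.rec with
    | infty => exact absurd rfl hxy
    | coe t =>
      obtain ⟨a, h1, h2⟩ := exists_peak t
      exact ⟨a, by rw [h1, h2 _ hxy]; exact zero_ne_one⟩
  | coe t =>
    obtain ⟨a, h1, h2⟩ := exists_peak t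
    exact ⟨a, by rw [h1, h2 _ hxy.symm]; exact one_ne_zero⟩

/-! ### a derivation that is not inner -/

/-- left action -/
noncomputable def actL : Alg →L[ℂ] CX →L[ℂ] CX :=
  LinearMap.mkContinuous₂ (LinearMap.mk₂ ℂ (fun (a : Alg) (x : CX) => a.g * x)
    (fun a b x => by rw [Alg.g_add, add_mul]) (fun s a x => by rw [Alg.g_smul, smul_mul_assoc])
    (fun a x y => by rw [mul_add]) (fun s a x => by rw [mul_smul_comm])) 1
    (fun a x => by
      rw [one_mul]
      exact (norm_mul_le _ _).trans
        (mul_le_mul_of_nonneg_right (Alg.norm_g_le a) (norm_nonneg _)))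

lemma actL_apply (a : Alg) (x : CX) : actL a x = a.g * x := rfl

lemma hmap_add (a b : Alg) : hmap (a + b) = hmap a + hmap b := by
  ext x
  induction x using OnePoint.rec with
  | infty => rw [ContinuousMap.add_apply, hmap_infty, hmap_infty, hmap_infty]; rfl
  | coe n =>
    rw [ContinuousMap.add_apply, hmap_coe, hmap_coe, hmap_coe]
    simp only [Alg.g_add, Alg.u_add, ContinuousMap.add_apply, lp.coeFn_add, Pi.add_apply]
    ring

lemma hmap_smul (s : ℂ) (a : Alg) : hmap (s • a) = s • hmap a := by
  ext x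
  induction x using OnePoint.rec with
  | infty => rw [ContinuousMap.smul_apply, hmap_infty, hmap_infty]; rfl
  | coe n =>
    rw [ContinuousMap.smul_apply, hmap_coe, hmap_coe]
    simp only [Alg.g_smul, Alg.u_smul, ContinuousMap.smul_apply, lp.coeFn_smul, Pi.smul_apply,
      smul_eq_mul]
    ring

/-- right action -/
noncomputable def actR : Alg →L[ℂ] CX →L[ℂ] CX :=
  LinearMap.mkContinuous₂ (LinearMap.mk₂ ℂ (fun (a : Alg) (x : CX) => hmap a * x)
    (fun a b x => by rw [hmap_add, add_mul]) (fun s a x => by rw [hmap_smul, smul_mul_assoc])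
    (fun a x y => by rw [mul_add]) (fun s a x => by rw [mul_smul_comm])) 1
    (fun a x => by
      rw [one_mul]
      exact (norm_mul_le _ _).trans
        (mul_le_mul_of_nonneg_right (norm_hmap_le a) (norm_nonneg _)))

lemma actR_apply (a : Alg) (x : CX) : actR a x = hmap a * x := rfl

lemma summable_der (v : Ell1) (x : CX) : Summable (fun n : ℕ => v n * x (n : OnePoint ℕ)) := by
  refine Summable.of_norm_bounded (g := fun n => ‖v n‖ * ‖x‖)
    ((Ell1.summable_norm v).mul_right _) (fun n => ?_)
  rw [norm_mul]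
  exact mul_le_mul_of_nonneg_left (x.norm_coe_le_norm _) (norm_nonneg _)

/-- the derivation -/
noncomputable def der : Alg →L[ℂ] (CX →L[ℂ] ℂ) :=
  LinearMap.mkContinuous₂ (LinearMap.mk₂ ℂ
    (fun (a : Alg) (x : CX) => ∑' n : ℕ, a.u n * x (n : OnePoint ℕ))
    (fun a b x => by
      rw [← (summable_der a.u x).tsum_add (summable_der b.u x)]
      refine tsum_congr (fun n => ?_)
      simp only [Alg.u_add, lp.coeFn_add, Pi.add_apply]
      ring)
    (fun s a x => by
      rw [smul_eq_mul, ← tsum_mul_left]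
      refine tsum_congr (fun n => ?_)
      simp only [Alg.u_smul, lp.coeFn_smul, Pi.smul_apply, smul_eq_mul]
      ring)
    (fun a x y => by
      rw [← (summable_der a.u x).tsum_add (summable_der a.u y)]
      refine tsum_congr (fun n => ?_)
      simp only [ContinuousMap.add_apply]
      ring)
    (fun s a x => by
      rw [smul_eq_mul, ← tsum_mul_left]
      refine tsum_congr (fun n => ?_)
      simp only [ContinuousMap.smul_apply, smul_eq_mul]
      ring)) 1
    (fun a x => by
      rw [one_mul]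
      have h1 : ‖∑' n : ℕ, a.u n * x (n : OnePoint ℕ)‖ ≤ ‖a.u‖ * ‖x‖ := by
        refine tsum_of_norm_bounded ((Ell1.hasSum_norm a.u).mul_right ‖x‖) (fun n => ?_)
        rw [norm_mul]
        exact mul_le_mul_of_nonneg_left (x.norm_coe_le_norm _) (norm_nonneg _)
      exact h1.trans (mul_le_mul_of_nonneg_right (Alg.norm_u_le a) (norm_nonneg _)))

lemma der_apply (a : Alg) (x : CX) : der a x = ∑' n : ℕ, a.u n * x (n : OnePoint ℕ) := rfl

lemma der_mul (a b : Alg) (x : CX) :
    der (a * b) x = der b (actR a x) + der a (actL b x) := by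
  rw [der_apply, der_apply, der_apply, actR_apply, actL_apply,
    ← (summable_der b.u _).tsum_add (summable_der a.u _)]
  refine tsum_congr (fun n => ?_)
  rw [Alg.u_mul, ContinuousMap.mul_apply, ContinuousMap.mul_apply, hmap_coe]
  ring

lemma der_not_inner : ¬ ∃ f : CX →L[ℂ] ℂ, ∀ (a : Alg) (x : CX),
    der a x = f (actR a x) - f (actL a x) := by
  rintro ⟨f, hf⟩
  have h1 : ∀ n, f (del n) = 1 := by
    intro n
    have h := hf (d n) 1
    rw [der_apply, actR_apply, actL_apply, mul_one, mul_one, d_g, map_zero, sub_zero] at h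
    have h2 : hmap (d n) = del n := by
      show (0 : CX) + iota (Ell1.e n) = iota (Ell1.e n)
      rw [zero_add]
    have h3 : ∑' m : ℕ, (d n).u m * (1 : CX) (m : OnePoint ℕ) = 1 := by
      simp only [d_u, ContinuousMap.one_apply, mul_one]
      rw [tsum_ite_eq]
    rw [h2, h3] at h
    exact h.symm
  have h2 : ∀ N : ℕ, (N : ℝ) ≤ ‖f‖ := by
    intro N
    have h3 : f (∑ n ∈ range N, del n) = N := by
      rw [map_sum]; simp [h1]
    have h4 : ‖∑ n ∈ range N, del n‖ ≤ 1 := by
      rw [ContinuousMap.norm_le _ zero_le_one]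
      intro x
      induction x using OnePoint.rec with
      | infty => simp
      | coe m =>
        simp only [ContinuousMap.coe_sum, Finset.sum_apply, del_coe, Finset.sum_ite_eq,
          Finset.mem_range]
        by_cases h : m < N <;> simp [h]
    have h5 := f.le_opNorm (∑ n ∈ range N, del n)
    rw [h3] at h5
    have h6 : ‖(N : ℂ)‖ = N := by simp
    rw [h6] at h5
    exact h5.trans (mul_le_of_le_one_right (norm_nonneg _) h4)
  obtain ⟨N, hN⟩ := exists_nat_gt ‖f‖
  exact absurd (h2 N) (not_le.2 hN)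

end Pool.Agent.Helper53.DbwModel
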