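import Pool.Agent.Helper53.BanachMod

set_option autoImplicit false

namespace Pool.Agent.Helper53

universe u

section Defs

variable {A : Type u} [NonUnitalNormedRing A] [NormedSpace ℂ A]

/-- The product `a x` in a Banach left module. -/
noncomputable def LeftModule.op {X : Type u} [NormedAddCommGroup X] [NormedSpace ℂ X] (m : LeftModule A X)
    (a : A) (x : X) : X := m.act a x

/-- The product `x a` in a Banach right module. -/
noncomputable def RightModule.op {X : Type u} [NormedAddCommGroup X] [NormedSpace ℂ X] (m : RightModule A X)
    (x : X) (a : A) : X := m.act a x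

/-- Morphisms of Banach left modules, among the bounded linear maps. -/
def IsLeftMor {X Y : Type u} [NormedAddCommGroup X] [NormedSpace ℂ X]
    [NormedAddCommGroup Y] [NormedSpace ℂ Y] (mX : LeftModule A X) (mY : LeftModule A Y)
    (f : X →L[ℂ] Y) : Prop :=
  ∀ a x, f (mX.op a x) = mY.op a (f x)

/-- Morphisms of Banach right modules, among the bounded linear maps. -/
def IsRightMor {X Y : Type u} [NormedAddCommGroup X] [NormedSpace ℂ X]
    [NormedAddCommGroup Y] [NormedSpace ℂ Y] (mX : RightModule A X) (mY : RightModule A Y)
    (f : X →L[ℂ] Y) : Prop :=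
  ∀ a x, f (mX.op x a) = mY.op (f x) a

/-- For every morphism `σ : X → Y` of Banach left modules with a bounded linear right inverse,
every morphism `φ : P → Y` factors as `σ ψ` for some morphism `ψ : P → X`. -/
def LeftLifts {P X Y : Type u} [NormedAddCommGroup P] [NormedSpace ℂ P]
    [NormedAddCommGroup X] [NormedSpace ℂ X] [NormedAddCommGroup Y] [NormedSpace ℂ Y]
    (mP : LeftModule A P) (mX : LeftModule A X) (mY : LeftModule A Y) : Prop :=
  ∀ (σ : X →L[ℂ] Y) (φ : P →L[ℂ] Y), IsLeftMor mX mY σ → IsLeftMor mP mY φ →
    (∃ s : Y →L[ℂ] X, ∀ y, σ (s y) = y) →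
    ∃ ψ : P →L[ℂ] X, IsLeftMor mP mX ψ ∧ ∀ p, σ (ψ p) = φ p

/-- The same for Banach right modules. -/
def RightLifts {P X Y : Type u} [NormedAddCommGroup P] [NormedSpace ℂ P]
    [NormedAddCommGroup X] [NormedSpace ℂ X] [NormedAddCommGroup Y] [NormedSpace ℂ Y]
    (mP : RightModule A P) (mX : RightModule A X) (mY : RightModule A Y) : Prop :=
  ∀ (σ : X →L[ℂ] Y) (φ : P →L[ℂ] Y), IsRightMor mX mY σ → IsRightMor mP mY φ →
    (∃ s : Y →L[ℂ] X, ∀ y, σ (s y) = y) →
    ∃ ψ : P →L[ℂ] X, IsRightMor mP mX ψ ∧ ∀ p, σ (ψ p) = φ p

/-- `P` is a projective Banach left module, in the relative sense of Banach homology. -/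
def LeftProj {P : Type u} [NormedAddCommGroup P] [NormedSpace ℂ P] (mP : LeftModule A P) :
    Prop :=
  ∀ (X Y : Type u) [NormedAddCommGroup X] [NormedSpace ℂ X] [CompleteSpace X]
    [NormedAddCommGroup Y] [NormedSpace ℂ Y] [CompleteSpace Y]
    (mX : LeftModule A X) (mY : LeftModule A Y), LeftLifts mP mX mY

/-- `P` is a projective Banach right module, in the relative sense of Banach homology. -/
def RightProj {P : Type u} [NormedAddCommGroup P] [NormedSpace ℂ P] (mP : RightModule A P) :
    Prop :=
  ∀ (X Y : Type u) [NormedAddCommGroup X] [NormedSpace ℂ X] [CompleteSpace X]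
    [NormedAddCommGroup Y] [NormedSpace ℂ Y] [CompleteSpace Y]
    (mX : RightModule A X) (mY : RightModule A Y), RightLifts mP mX mY

variable (A)

/-- Closed left ideals: closed linear subspaces `I` with `A I ⊆ I`. -/
structure ClosedLeftIdeal where
  carrier : Submodule ℂ A
  closed : IsClosed (carrier : Set A)
  mul_mem : ∀ (a : A), ∀ x ∈ carrier, a * x ∈ carrier

/-- Closed right ideals: closed linear subspaces `I` with `I A ⊆ I`. -/
structure ClosedRightIdeal where
  carrier : Submodule ℂ A
  closed : IsClosed (carrier : Set A)
  mul_mem : ∀ (a : A), ∀ x ∈ carrier, x * a ∈ carrier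

variable {A}

/-- The Banach space of the elements of a closed left ideal, with the norm of `A`. -/
def ClosedLeftIdeal.Elt (I : ClosedLeftIdeal A) : Type u := I.carrier

noncomputable instance ClosedLeftIdeal.instGroup (I : ClosedLeftIdeal A) :
    NormedAddCommGroup I.Elt :=
  Submodule.normedAddCommGroup I.carrier

noncomputable instance ClosedLeftIdeal.instSpace (I : ClosedLeftIdeal A) :
    NormedSpace ℂ I.Elt :=
  Submodule.normedSpace I.carrier

/-- An element of the ideal as an element of `A`. -/
def ClosedLeftIdeal.val (I : ClosedLeftIdeal A) (x : I.Elt) : A := Subtype.val x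

/-- The Banach space of the elements of a closed right ideal, with the norm of `A`. -/
def ClosedRightIdeal.Elt (I : ClosedRightIdeal A) : Type u := I.carrier

noncomputable instance ClosedRightIdeal.instGroup (I : ClosedRightIdeal A) :
    NormedAddCommGroup I.Elt :=
  Submodule.normedAddCommGroup I.carrier

noncomputable instance ClosedRightIdeal.instSpace (I : ClosedRightIdeal A) :
    NormedSpace ℂ I.Elt :=
  Submodule.normedSpace I.carrier

/-- An element of the ideal as an element of `A`. -/
def ClosedRightIdeal.val (I : ClosedRightIdeal A) (x : I.Elt) : A := Subtype.val x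

variable (A)

/-- `A` is left hereditary: every closed left ideal `I` of `A`, with the Banach left module
structure given by multiplication in `A`, is projective. -/
def LeftHereditary : Prop :=
  ∀ (I : ClosedLeftIdeal A) (mI : LeftModule A I.Elt),
    (∀ (a : A) (x : I.Elt), I.val (mI.op a x) = a * I.val x) → LeftProj mI

/-- `A` is right hereditary: every closed right ideal `I` of `A`, with the Banach right module
structure given by multiplication in `A`, is projective. -/
def RightHereditary : Prop :=
  ∀ (I : ClosedRightIdeal A) (mI : RightModule A I.Elt),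
    (∀ (a : A) (x : I.Elt), I.val (mI.op x a) = I.val x * a) → RightProj mI

end Defs

section Compact

variable (E : Type u) [NormedAddCommGroup E] [NormedSpace ℂ E]

/-- The Banach algebra `K(E)` is left hereditary. -/
def KLeftHereditary : Prop := LeftHereditary (KOp E)

/-- The Banach algebra `K(E)` is right hereditary. -/
def KRightHereditary : Prop := RightHereditary (KOp E)

end Compact

section Modules

variable {A : Type u} [NonUnitalNormedRing A] [NormedSpace ℂ A]
  [IsScalarTower ℂ A A] [SMulCommClass ℂ A A]

/-- A closed left ideal as a Banach left module, under multiplication in `A`. -/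
noncomputable def ClosedLeftIdeal.moduleC (I : ClosedLeftIdeal A) :
    LeftModule A I.carrier where
  act := LinearMap.mkContinuous₂
    (LinearMap.mk₂ ℂ (fun (a : A) (x : I.carrier) =>
        (⟨a * (x : A), I.mul_mem a x x.2⟩ : I.carrier))
      (fun a b x => Subtype.ext (add_mul a b (x : A)))
      (fun c a x => Subtype.ext (smul_mul_assoc c a (x : A)))
      (fun a x y => Subtype.ext (mul_add a (x : A) (y : A)))
      (fun c a x => Subtype.ext (mul_smul_comm c a (x : A))))
    1 (fun a x => by rw [one_mul]; exact norm_mul_le a (x : A))
  act_mul := fun a b x => Subtype.ext (mul_assoc a b (x : A))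

/-- A closed right ideal as a Banach right module, under multiplication in `A`. -/
noncomputable def ClosedRightIdeal.moduleC (I : ClosedRightIdeal A) :
    RightModule A I.carrier where
  act := LinearMap.mkContinuous₂
    (LinearMap.mk₂ ℂ (fun (a : A) (x : I.carrier) =>
        (⟨(x : A) * a, I.mul_mem a x x.2⟩ : I.carrier))
      (fun a b x => Subtype.ext (mul_add (x : A) a b))
      (fun c a x => Subtype.ext (mul_smul_comm c (x : A) a))
      (fun a x y => Subtype.ext (add_mul (x : A) (y : A) a))
      (fun c a x => Subtype.ext (smul_mul_assoc c (x : A) a)))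
    1 (fun a x => by
      rw [one_mul, mul_comm]; exact norm_mul_le (x : A) a)
  act_mul := fun a b x => Subtype.ext (mul_assoc (x : A) a b).symm

/-- A closed left ideal as a Banach left module, under multiplication in `A`. -/
noncomputable def ClosedLeftIdeal.module (I : ClosedLeftIdeal A) : LeftModule A I.Elt :=
  I.moduleC

/-- A closed right ideal as a Banach right module, under multiplication in `A`. -/
noncomputable def ClosedRightIdeal.module (I : ClosedRightIdeal A) : RightModule A I.Elt :=
  I.moduleC

/-- every closed left ideal carries the module structure used above -/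
lemma ClosedLeftIdeal.module_act (I : ClosedLeftIdeal A) (a : A) (x : I.Elt) :
    I.val (I.module.op a x) = a * I.val x := rfl

/-- every closed right ideal carries the module structure used above -/
lemma ClosedRightIdeal.module_act (I : ClosedRightIdeal A) (a : A) (x : I.Elt) :
    I.val (I.module.op x a) = I.val x * a := rfl

end Modules

section Transfer

variable {A : Type u} [NonUnitalNormedRing A] [NormedSpace ℂ A]
  [IsScalarTower ℂ A A] [SMulCommClass ℂ A A] [CompleteSpace A]

/-- the whole algebra as a closed left ideal -/
def topLeft (A : Type u) [NonUnitalNormedRing A] [NormedSpace ℂ A] : ClosedLeftIdeal A where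
  carrier := ⊤
  closed := isClosed_univ
  mul_mem := fun _ _ _ => Submodule.mem_top

/-- the whole algebra as a closed right ideal -/
def topRight (A : Type u) [NonUnitalNormedRing A] [NormedSpace ℂ A] : ClosedRightIdeal A where
  carrier := ⊤
  closed := isClosed_univ
  mul_mem := fun _ _ _ => Submodule.mem_top

/-- identification of an algebra with its top subspace -/
noncomputable def toTop (A : Type u) [NonUnitalNormedRing A] [NormedSpace ℂ A] :
    A →L[ℂ] (⊤ : Submodule ℂ A) :=
  ContinuousLinearMap.codRestrict (ContinuousLinearMap.id ℂ A) ⊤ (fun _ => Submodule.mem_top)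

/-- inclusion of a closed left ideal -/
noncomputable def inclLeft (I : ClosedLeftIdeal A) : I.Elt →L[ℂ] A := I.carrier.subtypeL

/-- inclusion of a closed right ideal -/
noncomputable def inclRight (I : ClosedRightIdeal A) : I.Elt →L[ℂ] A := I.carrier.subtypeL

/-- the algebra as its own top left ideal -/
noncomputable def toTopLeft : A →L[ℂ] (topLeft A).Elt := toTop A

/-- the algebra as its own top right ideal -/
noncomputable def toTopRight : A →L[ℂ] (topRight A).Elt := toTop A

theorem leftProjective_of_leftHereditary (h : LeftHereditary A) :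
    LeftProjective (leftRegular A) := by
  intro Y _ _ _ mY φ hφ hs
  obtain ⟨ψ, h1, h2⟩ := h (topLeft A) (topLeft A).module (fun _ _ => rfl) Y A mY
    (leftRegular A) φ (inclLeft (topLeft A)) hφ (fun a x => rfl) hs
  refine ⟨ψ.comp toTopLeft, fun a x => ?_, fun x => ?_⟩
  · exact h1 a (toTopLeft x)
  · exact h2 (toTopLeft x)

theorem rightProjective_of_rightHereditary (h : RightHereditary A) :
    RightProjective (rightRegular A) := by
  intro Y _ _ _ mY φ hφ hs
  obtain ⟨ψ, h1, h2⟩ := h (topRight A) (topRight A).module (fun _ _ => rfl) Y A mY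
    (rightRegular A) φ (inclRight (topRight A)) hφ (fun a x => rfl) hs
  refine ⟨ψ.comp toTopRight, fun a x => ?_, fun x => ?_⟩
  · exact h1 a (toTopRight x)
  · exact h2 (toTopRight x)

end Transfer

end Pool.Agent.Helper53
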