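import Mathlib

/-!
Finite combinatorics for the lower bound (adapted from the files of helper5 for the global
dimension of the algebra of continuous functions on the Cantor set).
-/

set_option autoImplicit false

namespace Pool.Agent.Helper53.LB

open Finset Filter Topology
open scoped BigOperators ComplexConjugate

noncomputable section

section MergeN

variable {A : Type*} [Mul A]

/-- Merging for infinite sequences. -/
def mergeN (i : ℕ) (x : ℕ → A) : ℕ → A := fun k =>
  if k < i then x k else if k = i then x k * x (k + 1) else x (k + 1)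

lemma mergeN_lt {i k : ℕ} (x : ℕ → A) (h : k < i) : mergeN i x k = x k := by
  simp [mergeN, h]

lemma mergeN_eq (i : ℕ) (x : ℕ → A) : mergeN i x i = x i * x (i + 1) := by
  simp [mergeN]

lemma mergeN_gt {i k : ℕ} (x : ℕ → A) (h : i < k) : mergeN i x k = x (k + 1) := by
  have h1 : ¬ k < i := by omega
  have h2 : k ≠ i := by omega
  simp [mergeN, h1, h2]

end MergeN

/-- The alternating double sum cancels. -/
lemma double_sum_zero {Z : Type*} [AddCommGroup Z] [Module ℂ Z] (F : ℕ → ℕ → Z)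
    (hF : ∀ i j, j ≤ i → F (i + 1) j = F j i) (n : ℕ) :
    ∑ i ∈ range (n + 1), (-1 : ℂ) ^ (i + 1) • ∑ j ∈ range n, (-1 : ℂ) ^ (j + 1) • F i j = 0 := by
  have h1 : ∀ n, ∑ i ∈ range (n + 1), ∑ j ∈ range n, (-1 : ℂ) ^ (i + j) • F i j = 0 := by
    intro n
    induction n with
    | zero => simp
    | succ n ih =>
      rw [sum_range_succ]
      have e1 : ∑ i ∈ range (n + 1), ∑ j ∈ range (n + 1), (-1 : ℂ) ^ (i + j) • F i j =
          ∑ i ∈ range (n + 1), ∑ j ∈ range n, (-1 : ℂ) ^ (i + j) • F i j +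
          ∑ i ∈ range (n + 1), (-1 : ℂ) ^ (i + n) • F i n := by
        rw [← sum_add_distrib]
        exact sum_congr rfl fun i _ => sum_range_succ _ _
      rw [e1, ih, zero_add, ← sum_add_distrib]
      refine sum_eq_zero fun i hi => ?_
      rw [mem_range] at hi
      rw [hF n i (by omega), ← add_smul]
      have : (-1 : ℂ) ^ (i + n) + (-1) ^ (n + 1 + i) = 0 := by ring
      rw [this, zero_smul]
  have h2 := h1 n
  rw [← h2]
  refine sum_congr rfl fun i _ => ?_
  rw [smul_sum]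
  refine sum_congr rfl fun j _ => ?_
  rw [smul_smul]
  congr 1
  ring

/-- Insert the value `x` at position `i`. -/
def insN {α : Type*} (i : ℕ) (x : α) (μ : ℕ → α) : ℕ → α := fun t =>
  if t < i then μ t else if t = i then x else μ (t - 1)

lemma insN_lt {α : Type*} {i t : ℕ} (x : α) (μ : ℕ → α) (h : t < i) : insN i x μ t = μ t := by
  simp [insN, h]

lemma insN_eq {α : Type*} (i : ℕ) (x : α) (μ : ℕ → α) : insN i x μ i = x := by simp [insN]

lemma insN_gt {α : Type*} {i t : ℕ} (x : α) (μ : ℕ → α) (h : i < t) :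
    insN i x μ t = μ (t - 1) := by
  have h1 : ¬ t < i := by omega
  have h2 : t ≠ i := by omega
  simp [insN, h1, h2]

lemma insN_insN' {α : Type*} {i j : ℕ} (h : j ≤ i) (x y : α) (μ : ℕ → α) :
    insN (i + 1) x (insN j y μ) = insN j y (insN i x μ) := by
  funext t
  rcases lt_trichotomy t j with ht | ht | ht
  · rw [insN_lt _ _ (by omega), insN_lt _ _ ht, insN_lt _ _ ht, insN_lt _ _ (by omega)]
  · subst ht
    rw [insN_lt _ _ (by omega), insN_eq, insN_eq]
  · rw [insN_gt _ (insN i x μ) ht]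
    rcases lt_trichotomy t (i + 1) with h' | h' | h'
    · rw [insN_lt _ _ h', insN_gt _ _ ht, insN_lt _ _ (by omega)]
    · subst h'
      rw [insN_eq, Nat.add_sub_cancel, insN_eq]
    · rw [insN_gt _ _ h', insN_gt _ _ (by omega), insN_gt _ _ (by omega)]

lemma insN_insN {α : Type*} {i j : ℕ} (h : j ≤ i) (x : α) (μ : ℕ → α) :
    insN (i + 1) x (insN j x μ) = insN j x (insN i x μ) := insN_insN' h x x μ

/-- The degeneracy. -/
def sj (j t : ℕ) : ℕ := if t ≤ j then t else t - 1

lemma sj_le {j t : ℕ} (h : t ≤ j) : sj j t = t := by simp [sj, h]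

lemma sj_gt {j t : ℕ} (h : j < t) : sj j t = t - 1 := by
  have : ¬ t ≤ j := by omega
  simp [sj, this]

lemma comp_insN {α β : Type*} (f : α → β) (i : ℕ) (x : α) (μ : ℕ → α) :
    f ∘ insN i x μ = insN i (f x) (f ∘ μ) := by
  funext t
  rcases lt_trichotomy t i with h | h | h
  · rw [Function.comp, insN_lt _ _ h, insN_lt _ _ h, Function.comp]
  · subst h
    rw [Function.comp, insN_eq, insN_eq]
  · rw [Function.comp, insN_gt _ _ h, insN_gt _ _ h, Function.comp]

/-- The value of the explicit boundary. -/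
def Th (q : ℕ) (ν : ℕ → ℕ) : ℂ := ∏ i ∈ range q, if i + 1 ≤ ν i then 1 else 0

lemma Th_zero (ν : ℕ → ℕ) : Th 0 ν = 1 := by simp [Th]

lemma sj_ge_iff (j t i : ℕ) : i + 1 ≤ sj j t ↔ (if i < j then i + 1 ≤ t else i + 2 ≤ t) := by
  unfold sj
  split_ifs <;> omega

lemma Th_ins_eq {k : ℕ} (μ : ℕ → ℕ) {i : ℕ} (hi : i ≤ k) :
    Th (k + 1) (insN i (k + 1) μ) = Th k (sj i ∘ μ) := by
  have h1 : ∀ t ∈ range (k + 1), (if t + 1 ≤ insN i (k + 1) μ t then (1 : ℂ) else 0) =
      insN i 1 (fun t => if t + 1 ≤ (sj i ∘ μ) t then (1 : ℂ) else 0) t := by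
    intro t ht
    rw [mem_range] at ht
    rcases lt_trichotomy t i with h | h | h
    · rw [insN_lt _ _ h, insN_lt _ _ h, Function.comp]
      congr 1
      rw [eq_iff_iff, sj_ge_iff, if_pos h]
    · subst h
      rw [insN_eq, insN_eq, if_pos (by omega)]
    · rw [insN_gt _ _ h, insN_gt _ _ h, Function.comp]
      congr 1
      rw [eq_iff_iff, sj_ge_iff, if_neg (by omega)]
      omega
  have h2 : ∀ (f : ℕ → ℂ) (n : ℕ), i ≤ n → ∏ t ∈ range (n + 1), insN i 1 f t =
      ∏ t ∈ range n, f t := by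
    intro f n hn
    induction n with
    | zero =>
      have : i = 0 := by omega
      subst this
      rw [range_one, prod_singleton, insN_eq, range_zero, prod_empty]
    | succ n ih =>
      rcases Nat.lt_or_ge n i with h | h
      · have hin : i = n + 1 := by omega
        rw [prod_range_succ]
        have e1 : insN i 1 f (n + 1) = 1 := by rw [← hin, insN_eq]
        rw [e1, mul_one]
        exact prod_congr rfl fun t ht => insN_lt _ _ (by rw [mem_range] at ht; omega)
      · rw [prod_range_succ, ih h, insN_gt _ _ (by omega), prod_range_succ, Nat.add_sub_cancel]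
  unfold Th
  rw [prod_congr rfl h1, h2 _ k hi]

lemma Th_ins_last {k : ℕ} (μ : ℕ → ℕ) (x : ℕ) (h : ∃ i < k, μ i = 0) :
    Th k (insN k x μ) = 0 := by
  obtain ⟨i, hi, h0⟩ := h
  unfold Th
  refine prod_eq_zero (mem_range.2 hi) ?_
  rw [insN_lt _ _ hi, h0, if_neg (by omega)]

theorem alg_contra (k : ℕ) (G : (ℕ → ℕ) → ℂ)
    (h1 : ∀ lam : ℕ → ℕ, (∀ i, lam i ≤ k + 2) → (∃ i ≤ k + 1, lam i = 0) →
      ∑ j ∈ range (k + 2), (-1 : ℂ) ^ j * G (sj j ∘ lam) = 0)
    (h2 : ∀ μ : ℕ → ℕ, (∀ i, μ i ≤ k + 1) → (∃ i ≤ k, μ i = 0) →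
      ∑ i ∈ range (k + 2), (-1 : ℂ) ^ i * G (insN i (k + 1) μ) =
        ∑ j ∈ range (k + 1), (-1 : ℂ) ^ j * Th k (sj j ∘ μ)) : False := by
  induction k generalizing G with
  | zero =>
    have a1 := h1 (fun t => if t = 1 then 1 else 0) (fun i => by split_ifs <;> omega)
      ⟨0, by omega, by simp⟩
    have a2 := h1 (fun t => if t = 0 then 1 else 0) (fun i => by split_ifs <;> omega)
      ⟨1, by omega, by simp⟩
    have a3 := h2 (fun _ => 0) (fun _ => by omega) ⟨0, le_rfl, rfl⟩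
    have e1 : sj 0 ∘ (fun t : ℕ => if t = 1 then 1 else 0) = fun _ => 0 := by
      funext t
      simp only [Function.comp, sj]
      split_ifs <;> omega
    have e2 : sj 1 ∘ (fun t : ℕ => if t = 1 then 1 else 0) = fun t => if t = 1 then 1 else 0 := by
      funext t
      simp only [Function.comp, sj]
      split_ifs <;> omega
    have e3 : sj 0 ∘ (fun t : ℕ => if t = 0 then 1 else 0) = fun _ => 0 := by
      funext t
      simp only [Function.comp, sj]
      split_ifs <;> omega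
    have e4 : sj 1 ∘ (fun t : ℕ => if t = 0 then 1 else 0) = fun t => if t = 0 then 1 else 0 := by
      funext t
      simp only [Function.comp, sj]
      split_ifs <;> omega
    have e5 : insN 0 1 (fun _ : ℕ => 0) = fun t => if t = 0 then 1 else 0 := by
      funext t
      unfold insN
      split_ifs <;> first | rfl | omega
    have e6 : insN 1 1 (fun _ : ℕ => 0) = fun t => if t = 1 then 1 else 0 := by
      funext t
      unfold insN
      split_ifs <;> first | rfl | omega
    simp only [sum_range_succ, range_zero, sum_empty, zero_add, pow_zero, one_mul, pow_one,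
      neg_mul] at a1 a2 a3
    rw [e1, e2] at a1
    rw [e3, e4] at a2
    rw [e5, e6, Th_zero] at a3
    have : (0 : ℂ) = 1 := by linear_combination a3 - a1 + a2
    exact zero_ne_one this
  | succ k ih =>
    -- cone formula
    have cone : ∀ ν : ℕ → ℕ, (∀ i, ν i ≤ k + 2) → (∃ i ≤ k + 2, ν i = 0) →
        G ν = (-1) ^ (k + 1) * ∑ j ∈ range (k + 2), (-1 : ℂ) ^ j * G (sj j ∘ ν) := by
      intro ν hν h0
      have := h1 ν (fun i => (hν i).trans (by omega)) h0
      rw [sum_range_succ] at this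
      have e : sj (k + 2) ∘ ν = ν := by
        funext t
        exact sj_le (hν t)
      rw [e] at this
      have h3 : ((-1 : ℂ) ^ (k + 2)) * ((-1) ^ (k + 1)) = -1 := by
        rw [← pow_add]
        exact Odd.neg_one_pow ⟨k + 1, by ring⟩
      have h4 : ((-1 : ℂ) ^ (k + 1)) * ((-1) ^ (k + 1)) = 1 := by
        rw [← pow_add]
        exact Even.neg_one_pow ⟨k + 1, rfl⟩
      have h5 : (-1 : ℂ) ^ (k + 2) = - (-1) ^ (k + 1) := by ring
      rw [h5] at this
      linear_combination -(-1 : ℂ) ^ (k + 1) * this - G ν * h4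
    refine ih (fun ν => Th (k + 1) ν - (-1) ^ (k + 1) *
      ∑ i ∈ range (k + 3), (-1 : ℂ) ^ i * G (insN i (k + 1) ν)) ?_ ?_
    · intro lam hlam h0
      have a := h2 lam (fun i => hlam i) h0
      have b : ∀ i ∈ range (k + 3), (-1 : ℂ) ^ i * G (insN i (k + 2) lam) =
          (-1) ^ (k + 1) * ∑ j ∈ range (k + 2), (-1 : ℂ) ^ j * ((-1) ^ i *
            G (insN i (k + 1) (sj j ∘ lam))) := by
        intro i hi
        rw [mem_range] at hi
        rw [cone (insN i (k + 2) lam)]
        · rw [mul_left_comm, mul_sum]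
          congr 1
          refine sum_congr rfl fun j hj => ?_
          rw [mem_range] at hj
          rw [comp_insN, sj_gt (by omega : j < k + 2)]
          have : k + 2 - 1 = k + 1 := by omega
          rw [this]
          ring
        · intro t
          unfold insN
          split_ifs
          · exact hlam _
          · exact le_rfl
          · exact hlam _
        · obtain ⟨i', hi', h0'⟩ := h0
          rcases Nat.lt_or_ge i' i with h | h
          · exact ⟨i', by omega, by rw [insN_lt _ _ h, h0']⟩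
          · exact ⟨i' + 1, by omega, by rw [insN_gt _ _ (by omega), Nat.add_sub_cancel, h0']⟩
      have e0 : k + 1 + 2 = k + 3 := rfl
      have e1 : k + 1 + 1 = k + 2 := rfl
      rw [e0, e1] at a
      rw [sum_congr rfl b, ← mul_sum, sum_comm] at a
      calc ∑ j ∈ range (k + 2), (-1 : ℂ) ^ j * (Th (k + 1) (sj j ∘ lam) - (-1) ^ (k + 1) *
            ∑ i ∈ range (k + 3), (-1 : ℂ) ^ i * G (insN i (k + 1) (sj j ∘ lam)))
          = ∑ j ∈ range (k + 2), (-1 : ℂ) ^ j * Th (k + 1) (sj j ∘ lam) -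
            (-1) ^ (k + 1) * ∑ j ∈ range (k + 2), ∑ i ∈ range (k + 3), (-1 : ℂ) ^ j *
              ((-1) ^ i * G (insN i (k + 1) (sj j ∘ lam))) := by
            rw [mul_sum, ← sum_sub_distrib]
            refine sum_congr rfl fun j _ => ?_
            rw [← mul_sum]
            ring
        _ = 0 := by
            rw [a, sub_self]
    · intro μ hμ h0
      have dbl : ∑ i ∈ range (k + 2), (-1 : ℂ) ^ i * ∑ i' ∈ range (k + 3), (-1 : ℂ) ^ i' *
          G (insN i' (k + 1) (insN i (k + 1) μ)) = 0 := by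
        have := double_sum_zero (fun i' i => G (insN i' (k + 1) (insN i (k + 1) μ)))
          (fun i' i h => by rw [insN_insN h]) (k + 2)
        rw [← this]
        simp only [mul_sum, smul_sum]
        rw [sum_comm]
        refine sum_congr rfl fun i _ => sum_congr rfl fun j _ => ?_
        rw [smul_eq_mul, smul_eq_mul]
        ring
      have main : ∑ i ∈ range (k + 2), (-1 : ℂ) ^ i * Th (k + 1) (insN i (k + 1) μ) =
          ∑ j ∈ range (k + 1), (-1 : ℂ) ^ j * Th k (sj j ∘ μ) := by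
        rw [sum_range_succ]
        have hz : Th (k + 1) (insN (k + 1) (k + 1) μ) = 0 :=
          Th_ins_last μ _ (by obtain ⟨i, hi, h⟩ := h0; exact ⟨i, by omega, h⟩)
        rw [hz, mul_zero, add_zero]
        refine sum_congr rfl fun i hi => ?_
        rw [mem_range] at hi
        rw [Th_ins_eq μ (by omega : i ≤ k)]
      calc ∑ i ∈ range (k + 2), (-1 : ℂ) ^ i * (Th (k + 1) (insN i (k + 1) μ) - (-1) ^ (k + 1) *
            ∑ i' ∈ range (k + 3), (-1 : ℂ) ^ i' * G (insN i' (k + 1) (insN i (k + 1) μ)))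
          = ∑ i ∈ range (k + 2), (-1 : ℂ) ^ i * Th (k + 1) (insN i (k + 1) μ) -
            (-1) ^ (k + 1) * ∑ i ∈ range (k + 2), (-1 : ℂ) ^ i * ∑ i' ∈ range (k + 3),
              (-1 : ℂ) ^ i' * G (insN i' (k + 1) (insN i (k + 1) μ)) := by
            rw [mul_sum, ← sum_sub_distrib]
            refine sum_congr rfl fun j _ => ?_
            ring
        _ = _ := by rw [dbl, mul_zero, sub_zero, main]

section CEsec

/-- Points of the finite cube. -/
abbrev Pt (N : ℕ) : Type := Fin N → Bool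

variable {N : ℕ}

/-- First `n` coordinates from `x`, the others from `y`. -/
def mix (n : ℕ) (x y : Pt N) : Pt N := fun i => if (i : ℕ) < n then x i else y i

lemma mix_mix_of_le {m n : ℕ} (h : m ≤ n) (x y z : Pt N) : mix m (mix n x y) z = mix m x z := by
  funext i
  unfold mix
  split_ifs <;> first | rfl | omega

lemma mix_mix_of_ge {m n : ℕ} (h : n ≤ m) (x y z : Pt N) :
    mix m (mix n x y) z = mix n x (mix m y z) := by
  funext i
  unfold mix
  split_ifs <;> first | rfl | omega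

lemma mix_self (n : ℕ) (x y : Pt N) : mix n (mix n x y) (mix n y x) = x := by
  funext i
  unfold mix
  split_ifs <;> rfl

lemma mix_of_ge {n : ℕ} (h : N ≤ n) (x y : Pt N) : mix n x y = x := by
  funext i
  unfold mix
  rw [if_pos (i.2.trans_le h)]

/-- The swap of tails. -/
def swp (n : ℕ) : Pt N × Pt N ≃ Pt N × Pt N where
  toFun p := (mix n p.1 p.2, mix n p.2 p.1)
  invFun p := (mix n p.1 p.2, mix n p.2 p.1)
  left_inv p := Prod.ext (mix_self n p.1 p.2) (mix_self n p.2 p.1)
  right_inv p := Prod.ext (mix_self n p.1 p.2) (mix_self n p.2 p.1)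

lemma expect_swp (n : ℕ) (g : Pt N → Pt N → ℂ) :
    𝔼 x, 𝔼 y, g (mix n x y) (mix n y x) = 𝔼 x, 𝔼 y, g x y := by
  have h1 : ∀ g : Pt N → Pt N → ℂ, 𝔼 x, 𝔼 y, g x y = 𝔼 p : Pt N × Pt N, g p.1 p.2 := by
    intro g
    rw [← univ_product_univ]
    exact (expect_product' univ univ g).symm
  rw [h1 g, h1 fun x y => g (mix n x y) (mix n y x)]
  exact Fintype.expect_equiv (swp n) _ _ fun p => rfl

/-- Conditional expectation on the first `n` coordinates. -/
def ce (n : ℕ) (f : Pt N → ℂ) : Pt N → ℂ := fun x => 𝔼 y, f (mix n x y)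

lemma ce_add (n : ℕ) (f g : Pt N → ℂ) : ce n (f + g) = ce n f + ce n g := by
  funext x
  exact expect_add_distrib _ _ _

lemma ce_sub (n : ℕ) (f g : Pt N → ℂ) : ce n (f - g) = ce n f - ce n g := by
  funext x
  exact expect_sub_distrib _ _ _

lemma ce_smul (n : ℕ) (c : ℂ) (f : Pt N → ℂ) : ce n (c • f) = c • ce n f := by
  funext x
  exact (mul_expect _ _ _).symm

lemma ce_one (n : ℕ) : ce n (1 : Pt N → ℂ) = 1 := by
  funext x
  exact Fintype.expect_const _

lemma ce_ce_of_le {m n : ℕ} (h : m ≤ n) (f : Pt N → ℂ) : ce n (ce m f) = ce m f := by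
  funext x
  unfold ce
  simp only [mix_mix_of_le h]
  exact Fintype.expect_const _

lemma ce_ce_of_ge {m n : ℕ} (h : n ≤ m) (f : Pt N → ℂ) : ce n (ce m f) = ce n f := by
  funext x
  unfold ce
  simp only [mix_mix_of_ge h]
  rw [expect_swp m (fun y _ => f (mix n x y))]
  exact expect_congr rfl fun y _ => Fintype.expect_const _

lemma expect_ce (n : ℕ) (f : Pt N → ℂ) : 𝔼 x, ce n f x = 𝔼 x, f x := by
  unfold ce
  rw [expect_swp n (fun y _ => f y)]
  exact expect_congr rfl fun y _ => Fintype.expect_const _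

lemma ce_adj (n : ℕ) (f g : Pt N → ℂ) : 𝔼 x, ce n f x * g x = 𝔼 x, f x * ce n g x := by
  unfold ce
  have h1 : ∀ x : Pt N, (𝔼 y, f (mix n x y)) * g x =
      𝔼 y, f (mix n x y) * g (mix n (mix n x y) (mix n y x)) := by
    intro x
    rw [expect_mul]
    exact expect_congr rfl fun y _ => by rw [mix_self]
  simp only [h1]
  rw [expect_swp n (fun x y => f x * g (mix n x y))]
  exact expect_congr rfl fun x _ => (mul_expect _ _ _).symm

/-- Measurability with respect to the first `n` coordinates. -/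
def Meas (n : ℕ) (g : Pt N → ℂ) : Prop := ∀ x y, g (mix n x y) = g x

lemma ce_mul_meas {n : ℕ} {g : Pt N → ℂ} (hg : Meas n g) (f : Pt N → ℂ) :
    ce n (g * f) = g * ce n f := by
  funext x
  rw [Pi.mul_apply]
  unfold ce
  rw [mul_expect]
  exact expect_congr rfl fun y _ => by rw [Pi.mul_apply, hg]

lemma meas_ce {m n : ℕ} (h : m ≤ n) (f : Pt N → ℂ) : Meas n (ce m f) := by
  intro x y
  unfold ce
  simp only [mix_mix_of_le h]

lemma ce_of_meas {n : ℕ} {g : Pt N → ℂ} (hg : Meas n g) : ce n g = g := by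
  funext x
  unfold ce
  rw [expect_congr rfl fun y _ => hg x y]
  exact Fintype.expect_const _

lemma Meas.mono {m n : ℕ} (h : m ≤ n) {g : Pt N → ℂ} (hg : Meas m g) : Meas n g := by
  rw [← ce_of_meas hg]
  exact meas_ce h g

lemma meas_one (n : ℕ) : Meas n (1 : Pt N → ℂ) := fun _ _ => rfl

lemma Meas.mul {n : ℕ} {f g : Pt N → ℂ} (hf : Meas n f) (hg : Meas n g) : Meas n (f * g) := by
  intro x y
  rw [Pi.mul_apply, Pi.mul_apply, hf, hg]

lemma ce_of_ge {n : ℕ} (h : N ≤ n) (f : Pt N → ℂ) : ce n f = f :=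
  ce_of_meas fun x y => by rw [mix_of_ge h]

lemma norm_ce_le {n : ℕ} {f : Pt N → ℂ} {C : ℝ} (h : ∀ x, ‖f x‖ ≤ C) (x : Pt N) :
    ‖ce n f x‖ ≤ C := by
  refine (RCLike.norm_expect_le (K := ℂ)).trans ?_
  exact expect_le univ_nonempty fun y _ => h _

lemma norm_expect_le' {f : Pt N → ℂ} {C : ℝ} (h : ∀ x, ‖f x‖ ≤ C) : ‖𝔼 x, f x‖ ≤ C := by
  refine (RCLike.norm_expect_le (K := ℂ)).trans ?_
  exact expect_le univ_nonempty fun y _ => h _

/-- The square of the two-norm. -/
def sq (f : Pt N → ℂ) : ℝ := 𝔼 x, ‖f x‖ ^ 2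

lemma sq_nonneg' (f : Pt N → ℂ) : 0 ≤ sq f := expect_nonneg fun x _ => by positivity

lemma sq_mono {f g : Pt N → ℂ} (h : ∀ x, ‖f x‖ ≤ ‖g x‖) : sq f ≤ sq g :=
  expect_le_expect fun x _ => pow_le_pow_left₀ (norm_nonneg _) (h x) 2

lemma sq_le_one {f : Pt N → ℂ} (h : ∀ x, ‖f x‖ ≤ 1) : sq f ≤ 1 :=
  expect_le univ_nonempty fun x _ => pow_le_one₀ (norm_nonneg _) (h x)

lemma sq_add_le (f g : Pt N → ℂ) : sq (f + g) ≤ 2 * sq f + 2 * sq g := by
  unfold sq
  rw [mul_expect, mul_expect, ← expect_add_distrib]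
  refine expect_le_expect fun x _ => ?_
  rw [Pi.add_apply]
  have h1 := norm_add_le (f x) (g x)
  have h2 := norm_nonneg (f x + g x)
  nlinarith [_root_.sq_nonneg (‖f x‖ - ‖g x‖)]

lemma norm_expect_mul_le (f g : Pt N → ℂ) : ‖𝔼 x, f x * g x‖ ≤ (sq f + sq g) / 2 := by
  refine (RCLike.norm_expect_le (K := ℂ)).trans ?_
  unfold sq
  rw [← expect_add_distrib, expect_div]
  refine expect_le_expect fun x _ => ?_
  rw [norm_mul]
  nlinarith [_root_.sq_nonneg (‖f x‖ - ‖g x‖)]

lemma ofReal_sq (f : Pt N → ℂ) : ((sq f : ℝ) : ℂ) = 𝔼 x, f x * conj (f x) := by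
  unfold sq
  have h1 : ((𝔼 x, ‖f x‖ ^ 2 : ℝ) : ℂ) = 𝔼 x, ((‖f x‖ ^ 2 : ℝ) : ℂ) := by
    rw [Fintype.expect_eq_sum_div_card, Fintype.expect_eq_sum_div_card]
    push_cast
    rfl
  rw [h1]
  refine expect_congr rfl fun x _ => ?_
  rw [Complex.mul_conj, Complex.normSq_eq_norm_sq]

lemma ce_conj (n : ℕ) (f : Pt N → ℂ) (x : Pt N) :
    ce n (fun y => conj (f y)) x = conj (ce n f x) := by
  unfold ce
  rw [Fintype.expect_eq_sum_div_card, Fintype.expect_eq_sum_div_card, map_div₀, map_sum,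
    map_natCast]

/-- Pythagoras. -/
lemma sq_diff {m n : ℕ} (h : n ≤ m) (f : Pt N → ℂ) :
    sq (ce m f - ce n f) = sq (ce m f) - sq (ce n f) := by
  have key : ∀ g : Pt N → ℂ, 𝔼 x, g x * conj (ce n f x) = 𝔼 x, ce n g x * conj (f x) := by
    intro g
    rw [ce_adj n g fun x => conj (f x)]
    exact expect_congr rfl fun x _ => by rw [ce_conj]
  have h1 : 𝔼 x, ce m f x * conj (ce n f x) = ((sq (ce n f) : ℝ) : ℂ) := by
    rw [ofReal_sq, key, key, ce_ce_of_ge h, ce_ce_of_le le_rfl]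
  have h2 : 𝔼 x, ce n f x * conj (ce m f x) = ((sq (ce n f) : ℝ) : ℂ) := by
    have h3 : 𝔼 x, ce n f x * conj (ce m f x) = conj (𝔼 x, ce m f x * conj (ce n f x)) := by
      rw [Fintype.expect_eq_sum_div_card, Fintype.expect_eq_sum_div_card, map_div₀, map_sum,
        map_natCast]
      congr 1
      refine sum_congr rfl fun x _ => ?_
      rw [map_mul, Complex.conj_conj, mul_comm]
    rw [h3, h1, Complex.conj_ofReal]
  have h4 : ((sq (ce m f - ce n f) : ℝ) : ℂ) =
      ((sq (ce m f) - sq (ce n f) : ℝ) : ℂ) := by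
    rw [ofReal_sq]
    have e : ∀ x, (ce m f - ce n f) x * conj ((ce m f - ce n f) x) =
        ce m f x * conj (ce m f x) - ce m f x * conj (ce n f x) -
        (ce n f x * conj (ce m f x) - ce n f x * conj (ce n f x)) := by
      intro x
      rw [Pi.sub_apply, map_sub]
      ring
    rw [expect_congr rfl fun x _ => e x, expect_sub_distrib, expect_sub_distrib,
      expect_sub_distrib, h1, h2, ← ofReal_sq, ← ofReal_sq]
    push_cast
    ring
  exact_mod_cast h4

lemma sq_ce_le (n : ℕ) (f : Pt N → ℂ) : sq (ce n f) ≤ sq f := by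
  have h1 := sq_diff (le_max_left n N) f
  rw [ce_of_ge (le_max_right n N)] at h1
  have := sq_nonneg' (f - ce n f)
  linarith

lemma sq_diff_le {m n : ℕ} (h : n ≤ m) (f : Pt N → ℂ) : sq (ce m f - ce n f) ≤ sq f := by
  rw [sq_diff h]
  have := sq_ce_le m f
  have := sq_nonneg' (ce n f)
  linarith

end CEsec

section Chainsec

variable {N : ℕ}

/-- Martingale difference. -/
def df (c : ℕ → ℕ) (t : ℕ) (f : Pt N → ℂ) : Pt N → ℂ := ce (c (t + 1)) f - ce (c t) f

section Diff

variable {c : ℕ → ℕ} (hc : Monotone c)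

lemma df_mul_meas {t : ℕ} {g : Pt N → ℂ} (hc : Monotone c) (hg : Meas (c t) g) (f : Pt N → ℂ) :
    df c t (g * f) = g * df c t f := by
  unfold df
  rw [ce_mul_meas hg, ce_mul_meas (hg.mono (hc (Nat.le_succ t))), mul_sub]

lemma df_add (t : ℕ) (f g : Pt N → ℂ) : df c t (f + g) = df c t f + df c t g := by
  unfold df
  rw [ce_add, ce_add]
  abel

lemma sq_df_le (hc : Monotone c) (t : ℕ) (f : Pt N → ℂ) : sq (df c t f) ≤ sq f :=
  sq_diff_le (hc (Nat.le_succ t)) f

lemma sum_sq_df_le (hc : Monotone c) (r : ℕ) (f : Pt N → ℂ) :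
    ∑ t ∈ range r, sq (df c t f) ≤ sq f := by
  have h1 : ∀ t ∈ range r, sq (df c t f) = sq (ce (c (t + 1)) f) - sq (ce (c t) f) :=
    fun t _ => sq_diff (hc (Nat.le_succ t)) f
  rw [sum_congr rfl h1, sum_range_sub (fun t => sq (ce (c t) f))]
  have := sq_ce_le (c r) f
  have := sq_nonneg' (ce (c 0) f)
  linarith

lemma df_adj (hc : Monotone c) (t : ℕ) (f g : Pt N → ℂ) :
    𝔼 x, f x * df c t g x = 𝔼 x, df c t f x * df c t g x := by
  have hle : c t ≤ c (t + 1) := hc (Nat.le_succ t)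
  have e1 : df c t (df c t g) = df c t g := by
    unfold df
    rw [ce_sub, ce_sub, ce_ce_of_le le_rfl, ce_ce_of_le hle, ce_ce_of_ge hle,
      ce_ce_of_le le_rfl]
    abel
  have e2 : ∀ f g : Pt N → ℂ, 𝔼 x, f x * df c t g x = 𝔼 x, df c t f x * g x := by
    intro f g
    have h1 : ∀ x, f x * df c t g x = f x * ce (c (t + 1)) g x - f x * ce (c t) g x := by
      intro x
      unfold df
      rw [Pi.sub_apply, mul_sub]
    have h2 : ∀ x, df c t f x * g x = ce (c (t + 1)) f x * g x - ce (c t) f x * g x := by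
      intro x
      unfold df
      rw [Pi.sub_apply, sub_mul]
    rw [expect_congr rfl fun x _ => h1 x, expect_congr rfl fun x _ => h2 x,
      expect_sub_distrib, expect_sub_distrib, ce_adj, ce_adj]
  rw [← e2, e1]

end Diff

/-- The class of controlled families. -/
def PC (c : ℕ → ℕ) (r : ℕ) (C : ℝ) (W : ℕ → Pt N → ℂ) : Prop :=
  ∃ (h : Pt N → ℂ) (g : ℕ → Pt N → ℂ), (∀ x, ‖h x‖ ≤ 1) ∧ (∀ t < r, ∀ x, ‖g t x‖ ≤ 1) ∧
    (∀ t < r, Meas (c (t + 1)) (g t)) ∧ ∑ t ∈ range r, sq (df c t (g t)) ≤ C ∧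
    ∀ t < r, W t = h * g t

variable {c : ℕ → ℕ} {r : ℕ} {C : ℝ} {W : ℕ → Pt N → ℂ}

lemma PC.nonneg (h : PC c r C W) : 0 ≤ C := by
  obtain ⟨_, g, _, _, _, h1, _⟩ := h
  exact (sum_nonneg fun t _ => sq_nonneg' _).trans h1

lemma PC.mono {C' : ℝ} (h : PC c r C W) (hC : C ≤ C') : PC c r C' W := by
  obtain ⟨u, g, h1, h2, h3, h4, h5⟩ := h
  exact ⟨u, g, h1, h2, h3, h4.trans hC, h5⟩

lemma PC.congr {W' : ℕ → Pt N → ℂ} (h : PC c r C W) (hW : ∀ t < r, W' t = W t) :
    PC c r C W' := by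
  obtain ⟨u, g, h1, h2, h3, h4, h5⟩ := h
  exact ⟨u, g, h1, h2, h3, h4, fun t ht => (hW t ht).trans (h5 t ht)⟩

lemma PC.norm_le (h : PC c r C W) {t : ℕ} (ht : t < r) (x : Pt N) : ‖W t x‖ ≤ 1 := by
  obtain ⟨u, g, h1, h2, h3, h4, h5⟩ := h
  rw [h5 t ht, Pi.mul_apply, norm_mul]
  exact mul_le_one₀ (h1 x) (norm_nonneg _) (h2 t ht x)

lemma df_split (hc : Monotone c) {t : ℕ} {g : Pt N → ℂ} (hg : Meas (c (t + 1)) g)
    (h : Pt N → ℂ) :
    df c t (h * g) = ce (c t) g * df c t h + df c t (h * df c t g) := by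
  have e1 : g = ce (c t) g + df c t g := by
    unfold df
    rw [ce_of_meas hg]
    abel
  have e2 : h * g = ce (c t) g * h + h * df c t g := by
    conv_lhs => rw [e1]
    ring
  rw [e2, df_add, df_mul_meas hc (meas_ce le_rfl g)]

lemma PC.sum_sq (hc : Monotone c) (h : PC c r C W) :
    ∑ t ∈ range r, sq (df c t (W t)) ≤ 2 * (1 + C) := by
  obtain ⟨u, g, h1, h2, h3, h4, h5⟩ := h
  have key : ∀ t ∈ range r, sq (df c t (W t)) ≤ 2 * sq (df c t u) + 2 * sq (df c t (g t)) := by
    intro t ht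
    rw [mem_range] at ht
    rw [h5 t ht, df_split hc (h3 t ht)]
    refine (sq_add_le _ _).trans ?_
    have a1 : sq (ce (c t) (g t) * df c t u) ≤ sq (df c t u) := by
      refine sq_mono fun x => ?_
      rw [Pi.mul_apply, norm_mul]
      exact mul_le_of_le_one_left (norm_nonneg _) (norm_ce_le (h2 t ht) x)
    have a2 : sq (df c t (u * df c t (g t))) ≤ sq (df c t (g t)) := by
      refine (sq_df_le hc t _).trans (sq_mono fun x => ?_)
      rw [Pi.mul_apply, norm_mul]
      exact mul_le_of_le_one_left (norm_nonneg _) (h1 x)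
    linarith
  refine (sum_le_sum key).trans ?_
  rw [sum_add_distrib, ← mul_sum, ← mul_sum]
  have := sum_sq_df_le hc r u
  have := sq_le_one h1
  linarith

lemma PC.const {ξ : Pt N → ℂ} (h : ∀ x, ‖ξ x‖ ≤ 1) : PC c r 0 (fun _ => ξ) := by
  refine ⟨ξ, fun _ => 1, h, fun t _ x => by simp, fun t _ => meas_one _, ?_, fun t _ => by
    rw [mul_one]⟩
  refine le_of_eq (sum_eq_zero fun t _ => ?_)
  have : df c t (1 : Pt N → ℂ) = 0 := by
    unfold df
    rw [ce_one, ce_one, sub_self]
  rw [this]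
  unfold sq
  simp

lemma PC.mul_left {f : Pt N → ℂ} (hf : ∀ x, ‖f x‖ ≤ 1) (h : PC c r C W) :
    PC c r C (fun t => f * W t) := by
  obtain ⟨u, g, h1, h2, h3, h4, h5⟩ := h
  refine ⟨f * u, g, fun x => ?_, h2, h3, h4, fun t ht => by
    show f * W t = f * u * g t
    rw [h5 t ht, mul_assoc]⟩
  rw [Pi.mul_apply, norm_mul]
  exact mul_le_one₀ (hf x) (norm_nonneg _) (h1 x)

/-- Admissible levels. -/
def Ty (c : ℕ → ℕ) (r : ℕ) (n : ℕ → ℕ) : Prop :=
  (∃ m ≤ c 0, ∀ t < r, n t = m) ∨ (∃ m, c r ≤ m ∧ ∀ t < r, n t = m) ∨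
    (∀ t < r, n t = c t) ∨ ∀ t < r, n t = c (t + 1)

lemma sq_zero' : sq (0 : Pt N → ℂ) = 0 := by
  unfold sq
  simp

lemma PC.of_meas {r : ℕ} {W : ℕ → Pt N → ℂ} (hc : Monotone c)
    (h1 : ∀ t < r, ∀ x, ‖W t x‖ ≤ 1) (h2 : ∀ t < r, Meas (c t) (W t)) : PC c r 0 W := by
  refine ⟨1, W, fun x => by simp, h1, fun t ht => (h2 t ht).mono (hc (Nat.le_succ t)), ?_,
    fun t ht => by rw [one_mul]⟩
  refine le_of_eq (sum_eq_zero fun t ht => ?_)
  rw [mem_range] at ht
  have : df c t (W t) = 0 := by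
    unfold df
    rw [ce_of_meas (h2 t ht), ce_of_meas ((h2 t ht).mono (hc (Nat.le_succ t))), sub_self]
  rw [this, sq_zero']

lemma PC.ce (hc : Monotone c) {n : ℕ → ℕ} (hn : Ty c r n) (h : PC c r C W) :
    PC c r (2 * (1 + C)) (fun t => ce (n t) (W t)) := by
  have hC := h.nonneg
  rcases hn with ⟨m, hm, hn⟩ | ⟨m, hm, hn⟩ | hn | hn
  · refine (PC.of_meas hc (fun t ht x => norm_ce_le (fun y => h.norm_le ht y) x)
      fun t ht => ?_).mono (by linarith)
    rw [hn t ht]
    exact meas_ce (hm.trans (hc (Nat.zero_le t))) _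
  · obtain ⟨u, g, h1, h2, h3, h4, h5⟩ := h
    refine PC.mono ⟨LB.ce m u, g, norm_ce_le h1, h2, h3, h4, fun t ht => ?_⟩
      (by linarith : C ≤ 2 * (1 + C))
    have hle : c (t + 1) ≤ m := (hc (by omega)).trans hm
    show LB.ce (n t) (W t) = LB.ce m u * g t
    rw [hn t ht, h5 t ht, mul_comm u, ce_mul_meas ((h3 t ht).mono hle), mul_comm]
  · refine (PC.of_meas hc (fun t ht x => norm_ce_le (fun y => h.norm_le ht y) x)
      fun t ht => ?_).mono (by linarith)
    rw [hn t ht]
    exact meas_ce le_rfl _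
  · refine ⟨1, fun t => LB.ce (c (t + 1)) (W t), fun x => by simp,
      fun t ht x => norm_ce_le (fun y => h.norm_le ht y) x, fun t ht => meas_ce le_rfl _, ?_,
      fun t ht => by
        show LB.ce (n t) (W t) = 1 * LB.ce (c (t + 1)) (W t)
        rw [one_mul, hn t ht]⟩
    refine le_trans (le_of_eq (sum_congr rfl fun t ht => ?_)) (h.sum_sq hc)
    congr 1
    have hle : c t ≤ c (t + 1) := hc (Nat.le_succ t)
    unfold df
    rw [ce_ce_of_le le_rfl, ce_ce_of_ge hle]

/-- The chain. -/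
def Rc : ℕ → (ℕ → Pt N → ℂ) → (ℕ → ℕ) → (Pt N → ℂ) → (Pt N → ℂ)
  | 0, _, _, ξ => ξ
  | k + 1, f, n, ξ => f 0 * ce (n 0) (Rc k (fun i => f (i + 1)) (fun i => n (i + 1)) ξ)

lemma Rc_succ (k : ℕ) (f : ℕ → Pt N → ℂ) (n : ℕ → ℕ) (ξ : Pt N → ℂ) :
    Rc (k + 1) f n ξ = f 0 * ce (n 0) (Rc k (fun i => f (i + 1)) (fun i => n (i + 1)) ξ) := rfl

lemma norm_Rc_le {k : ℕ} {f : ℕ → Pt N → ℂ} {n : ℕ → ℕ} {ξ : Pt N → ℂ} {a : ℕ → ℝ} {b : ℝ}
    (hf : ∀ i x, ‖f i x‖ ≤ a i) (hξ : ∀ x, ‖ξ x‖ ≤ b) (x : Pt N) :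
    ‖Rc k f n ξ x‖ ≤ (∏ i ∈ range k, a i) * b := by
  induction k generalizing f n a x with
  | zero => simpa [Rc] using hξ x
  | succ k ih =>
    rw [Rc_succ, Pi.mul_apply, norm_mul, prod_range_succ']
    have h1 := norm_ce_le (n := n 0) (fun x => ih (f := fun i => f (i + 1))
      (n := fun i => n (i + 1)) (a := fun i => a (i + 1)) (fun i x => hf _ x) x) x
    have h2 := hf 0 x
    have h3 : 0 ≤ a 0 := (norm_nonneg _).trans h2
    calc _ ≤ a 0 * ((∏ i ∈ range k, a (i + 1)) * b) :=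
          mul_le_mul h2 h1 (norm_nonneg _) h3
      _ = _ := by ring

/-- The constants. -/
def Cf : ℕ → ℝ
  | 0 => 0
  | k + 1 => 2 * (1 + Cf k)

lemma PC_Rc (hc : Monotone c) {k : ℕ} {f : ℕ → Pt N → ℂ} {n : ℕ → ℕ → ℕ} {ξ : Pt N → ℂ}
    (hf : ∀ i x, ‖f i x‖ ≤ 1) (hξ : ∀ x, ‖ξ x‖ ≤ 1) (hn : ∀ i < k, Ty c r (n i)) :
    PC c r (Cf k) (fun t => Rc k f (fun i => n i t) ξ) := by
  induction k generalizing f n with
  | zero => exact PC.const hξ
  | succ k ih =>
    have h1 := ih (f := fun i => f (i + 1)) (n := fun i => n (i + 1)) (fun i x => hf _ x)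
      (fun i hi => hn _ (by omega))
    exact (h1.ce hc (hn 0 (by omega))).mul_left (hf 0)

/-- The bound for the merging lemma. -/
def Mf : ℕ → ℝ → ℝ
  | 0, _ => 0
  | k + 1, C => (1 + C) + (1 + Cf k) + Mf k (2 * (1 + C))

lemma Cf_nonneg (k : ℕ) : 0 ≤ Cf k := by
  induction k with
  | zero => exact le_rfl
  | succ k ih => unfold Cf; linarith

lemma merge_bound (hc : Monotone c) {k : ℕ} {f : ℕ → Pt N → ℂ} {n n' : ℕ → ℕ → ℕ}
    {ξ : Pt N → ℂ} (hf : ∀ i x, ‖f i x‖ ≤ 1) (hξ : ∀ x, ‖ξ x‖ ≤ 1)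
    (hn : ∀ i < k, Ty c r (n i)) (hn' : ∀ i < k, Ty c r (n' i))
    (hnn : ∀ i < k, (∀ t < r, n i t = n' i t) ∨ ∀ t < r, n i t = c (t + 1) ∧ n' i t = c t)
    {U : ℕ → Pt N → ℂ} {C : ℝ} (hU : PC c r C U) :
    ‖∑ t ∈ range r, 𝔼 x, U t x * (Rc k f (fun i => n i t) ξ - Rc k f (fun i => n' i t) ξ) x‖ ≤
      Mf k C := by
  induction k generalizing f n n' U C with
  | zero =>
    have : ∀ t ∈ range r, 𝔼 x, U t x *
        (Rc 0 f (fun i => n i t) ξ - Rc 0 f (fun i => n' i t) ξ) x = 0 := by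
      intro t _
      refine expect_eq_zero fun x _ => ?_
      unfold Rc
      rw [sub_self, Pi.zero_apply, mul_zero]
    rw [sum_eq_zero this, norm_zero]
    exact le_rfl
  | succ k ih =>
    set f' : ℕ → Pt N → ℂ := fun i => f (i + 1) with hf'
    set V : ℕ → Pt N → ℂ := fun t => Rc k f' (fun i => n (i + 1) t) ξ with hV
    set V' : ℕ → Pt N → ℂ := fun t => Rc k f' (fun i => n' (i + 1) t) ξ with hV'
    have hPV : PC c r (Cf k) V := PC_Rc hc (fun i x => hf _ x) hξ fun i hi => hn _ (by omega)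
    have hUf : PC c r C (fun t => f 0 * U t) := hU.mul_left (hf 0)
    have split : ∀ t ∈ range r, 𝔼 x, U t x *
        (Rc (k + 1) f (fun i => n i t) ξ - Rc (k + 1) f (fun i => n' i t) ξ) x =
        𝔼 x, (f 0 * U t) x * (ce (n 0 t) (V t) - ce (n' 0 t) (V t)) x +
        𝔼 x, (ce (n' 0 t) (f 0 * U t)) x * (V t - V' t) x := by
      intro t _
      rw [ce_adj, ← expect_add_distrib]
      refine expect_congr rfl fun x _ => ?_
      rw [ce_sub]
      simp only [Pi.sub_apply, Pi.mul_apply, Rc_succ]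
      ring
    rw [sum_congr rfl split, sum_add_distrib]
    have hC := hU.nonneg
    have hCf := Cf_nonneg k
    have first : ‖∑ t ∈ range r, 𝔼 x, (f 0 * U t) x * (ce (n 0 t) (V t) - ce (n' 0 t) (V t)) x‖
        ≤ (1 + C) + (1 + Cf k) := by
      rcases hnn 0 (by omega) with h | h
      · have : ∀ t ∈ range r, 𝔼 x, (f 0 * U t) x *
            (ce (n 0 t) (V t) - ce (n' 0 t) (V t)) x = 0 := by
          intro t ht
          refine expect_eq_zero fun x _ => ?_
          rw [h t (mem_range.1 ht), sub_self, Pi.zero_apply, mul_zero]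
        rw [sum_eq_zero this, norm_zero]
        linarith
      · have e : ∀ t ∈ range r, ‖𝔼 x, (f 0 * U t) x *
            (ce (n 0 t) (V t) - ce (n' 0 t) (V t)) x‖ ≤
            (sq (df c t (f 0 * U t)) + sq (df c t (V t))) / 2 := by
          intro t ht
          obtain ⟨h1, h2⟩ := h t (mem_range.1 ht)
          rw [h1, h2]
          have h3 : ce (c (t + 1)) (V t) - ce (c t) (V t) = df c t (V t) := rfl
          rw [h3, df_adj hc]
          exact norm_expect_mul_le _ _
        refine (norm_sum_le _ _).trans ((sum_le_sum e).trans ?_)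
        rw [← sum_div, sum_add_distrib]
        have a1 := hUf.sum_sq hc
        have a2 := hPV.sum_sq hc
        linarith
    have second := ih (f := f') (n := fun i => n (i + 1)) (n' := fun i => n' (i + 1))
      (fun i x => hf _ x) (fun i hi => hn _ (by omega)) (fun i hi => hn' _ (by omega))
      (fun i hi => hnn _ (by omega)) (hUf.ce hc (hn' 0 (by omega)))
    refine (norm_add_le _ _).trans ?_
    unfold Mf
    exact add_le_add first second

/-- Small oscillation. -/
def Osc (δ : ℝ) (c : ℕ) (U : Pt N → ℂ) : Prop :=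
  ∀ x y : Pt N, (∀ i : Fin N, (i : ℕ) < c → x i = y i) → ‖U x - U y‖ ≤ δ

lemma Osc.ce {δ : ℝ} {c : ℕ} {U : Pt N → ℂ} (h : Osc δ c U) (n : ℕ) : Osc δ c (ce n U) := by
  intro x y hxy
  unfold LB.ce
  rw [← expect_sub_distrib]
  refine norm_expect_le' fun z => h _ _ fun i hi => ?_
  unfold mix
  split_ifs
  · exact hxy i hi
  · rfl

lemma Osc.mul {δ δ' : ℝ} {c : ℕ} {U V : Pt N → ℂ} (hU : Osc δ c U) (hV : Osc δ' c V)
    (hU1 : ∀ x, ‖U x‖ ≤ 1) (hV1 : ∀ x, ‖V x‖ ≤ 1) : Osc (δ + δ') c (U * V) := by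
  intro x y hxy
  have e : (U * V) x - (U * V) y = (U x - U y) * V x + U y * (V x - V y) := by
    simp only [Pi.mul_apply]
    ring
  rw [e]
  refine (norm_add_le _ _).trans ?_
  rw [norm_mul, norm_mul]
  have h1 := hU x y hxy
  have h2 := hV x y hxy
  exact add_le_add ((mul_le_of_le_one_right (norm_nonneg _) (hV1 x)).trans h1)
    ((mul_le_of_le_one_left (norm_nonneg _) (hU1 y)).trans h2)

lemma Osc.sub_ce {δ : ℝ} {c : ℕ} {U : Pt N → ℂ} (h : Osc δ c U) (x : Pt N) :
    ‖LB.ce c U x - U x‖ ≤ δ := by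
  unfold LB.ce
  rw [← Fintype.expect_const (ι := Pt N) (U x), ← expect_sub_distrib]
  refine norm_expect_le' fun z => h _ _ fun i hi => ?_
  unfold mix
  rw [if_pos hi]

/-- The bound for small oscillations. -/
lemma osc_bound {k : ℕ} {c : ℕ} {f : ℕ → Pt N → ℂ} {n n' : ℕ → ℕ}
    {ξ : Pt N → ℂ} (hf : ∀ i x, ‖f i x‖ ≤ 1) (hξ : ∀ x, ‖ξ x‖ ≤ 1) {δ : ℝ} (hδ : 0 ≤ δ)
    (hfo : ∀ i < k, Osc δ c (f i))
    (hnn : ∀ i < k, n i = n' i ∨ (n i = c ∧ N ≤ n' i))
    {U : Pt N → ℂ} {η : ℝ} (hη : 0 ≤ η) (hU : ∀ x, ‖U x‖ ≤ 1) (hUo : Osc η c U) :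
    ‖𝔼 x, U x * (Rc k f n ξ - Rc k f n' ξ) x‖ ≤ k * (η + k * δ) := by
  induction k generalizing f n n' U η with
  | zero =>
    have : 𝔼 x, U x * (Rc 0 f n ξ - Rc 0 f n' ξ) x = 0 := by
      refine expect_eq_zero fun x _ => ?_
      unfold Rc
      rw [sub_self, Pi.zero_apply, mul_zero]
    rw [this, norm_zero]
    simp
  | succ k ih =>
    set f' : ℕ → Pt N → ℂ := fun i => f (i + 1) with hf'
    set V : Pt N → ℂ := Rc k f' (fun i => n (i + 1)) ξ with hV
    set V' : Pt N → ℂ := Rc k f' (fun i => n' (i + 1)) ξ with hV'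
    have hV1 : ∀ x, ‖V x‖ ≤ 1 := by
      intro x
      have := norm_Rc_le (k := k) (f := f') (n := fun i => n (i + 1)) (ξ := ξ) (a := fun _ => 1)
        (b := 1) (fun i x => hf _ x) hξ x
      simpa using this
    have hUf : ∀ x, ‖(f 0 * U) x‖ ≤ 1 := by
      intro x
      rw [Pi.mul_apply, norm_mul]
      exact mul_le_one₀ (hf 0 x) (norm_nonneg _) (hU x)
    have hUfo : Osc (δ + η) c (f 0 * U) := (hfo 0 (by omega)).mul hUo (hf 0) hU
    have split : 𝔼 x, U x * (Rc (k + 1) f n ξ - Rc (k + 1) f n' ξ) x =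
        𝔼 x, (f 0 * U) x * (ce (n 0) V - ce (n' 0) V) x +
        𝔼 x, (ce (n' 0) (f 0 * U)) x * (V - V') x := by
      rw [ce_adj, ← expect_add_distrib]
      refine expect_congr rfl fun x _ => ?_
      rw [ce_sub]
      simp only [Pi.sub_apply, Pi.mul_apply, Rc_succ]
      ring
    rw [split]
    have first : ‖𝔼 x, (f 0 * U) x * (ce (n 0) V - ce (n' 0) V) x‖ ≤ δ + η := by
      rcases hnn 0 (by omega) with h | ⟨h, h'⟩
      · have : 𝔼 x, (f 0 * U) x * (ce (n 0) V - ce (n' 0) V) x = 0 := by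
          refine expect_eq_zero fun x _ => ?_
          rw [h, sub_self, Pi.zero_apply, mul_zero]
        rw [this, norm_zero]
        positivity
      · rw [h, ce_of_ge h']
        have e1 : 𝔼 x, (f 0 * U) x * (ce c V - V) x =
            𝔼 x, (ce c (f 0 * U) - f 0 * U) x * V x := by
          have h1 : ∀ x, (f 0 * U) x * (ce c V - V) x =
              (f 0 * U) x * ce c V x - (f 0 * U) x * V x := fun x => by
            rw [Pi.sub_apply, mul_sub]
          have h2 : ∀ x, (ce c (f 0 * U) - f 0 * U) x * V x =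
              ce c (f 0 * U) x * V x - (f 0 * U) x * V x := fun x => by
            rw [Pi.sub_apply, sub_mul]
          rw [expect_congr rfl fun x _ => h1 x, expect_congr rfl fun x _ => h2 x,
            expect_sub_distrib, expect_sub_distrib, ce_adj]
        rw [e1]
        refine norm_expect_le' fun x => ?_
        rw [norm_mul, Pi.sub_apply]
        exact (mul_le_of_le_one_right (norm_nonneg _) (hV1 x)).trans (hUfo.sub_ce x)
    have second := ih (f := f') (n := fun i => n (i + 1)) (n' := fun i => n' (i + 1))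
      (fun i x => hf _ x) (fun i hi => hfo _ (by omega))
      (fun i hi => hnn _ (by omega)) (by positivity : 0 ≤ δ + η)
      (norm_ce_le (n := n' 0) hUf) (hUfo.ce (n' 0))
    refine (norm_add_le _ _).trans ((add_le_add first second).trans ?_)
    push_cast
    have hk : (0 : ℝ) ≤ k := Nat.cast_nonneg k
    nlinarith [mul_nonneg hk hδ, mul_nonneg hk hη]

end Chainsec

/-- Eventually bounded functions. -/
def bddSub : Submodule ℂ (ℕ → ℂ) where
  carrier := {f | ∃ M : ℝ, ∀ᶠ n in atTop, ‖f n‖ ≤ M}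
  add_mem' := by
    rintro f g ⟨M, hM⟩ ⟨M', hM'⟩
    refine ⟨M + M', ?_⟩
    filter_upwards [hM, hM'] with n h h'
    exact (norm_add_le _ _).trans (add_le_add h h')
  zero_mem' := ⟨0, Eventually.of_forall fun n => by simp⟩
  smul_mem' := by
    rintro c f ⟨M, hM⟩
    refine ⟨‖c‖ * M, ?_⟩
    filter_upwards [hM] with n h
    rw [Pi.smul_apply, norm_smul]
    exact mul_le_mul_of_nonneg_left h (norm_nonneg _)

lemma exists_ulim (f : bddSub) : ∃ z : ℂ, Tendsto (f : ℕ → ℂ) (hyperfilter ℕ : Filter ℕ) (𝓝 z) := by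
  obtain ⟨f, M, hM⟩ := f
  have h1 : ∀ᶠ n in (hyperfilter ℕ : Filter ℕ), f n ∈ Metric.closedBall (0 : ℂ) M := by
    have hle : (hyperfilter ℕ : Filter ℕ) ≤ atTop := by
      rw [← Nat.cofinite_eq_atTop]
      exact hyperfilter_le_cofinite
    filter_upwards [hle hM] with n hn
    rw [mem_closedBall_zero_iff]
    exact hn
  have h2 : IsCompact (Metric.closedBall (0 : ℂ) M) := isCompact_closedBall _ _
  obtain ⟨z, _, hz⟩ := h2.ultrafilter_le_nhds ((hyperfilter ℕ).map f) (le_principal_iff.2 h1)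
  exact ⟨z, hz⟩

lemma exists_genlim : ∃ L : (ℕ → ℂ) →ₗ[ℂ] ℂ, (∀ c : ℂ, L (fun _ => c) = c) ∧
    ∀ (f : ℕ → ℂ) (M : ℝ), (∀ᶠ n in atTop, ‖f n‖ ≤ M) → ‖L f‖ ≤ M := by
  classical
  choose l hl using exists_ulim
  let L0 : bddSub →ₗ[ℂ] ℂ :=
    { toFun := l
      map_add' := fun f g => tendsto_nhds_unique (hl (f + g)) ((hl f).add (hl g))
      map_smul' := fun c f => tendsto_nhds_unique (hl (c • f)) ((hl f).const_smul c) }
  obtain ⟨L, hL⟩ := LinearMap.exists_extend L0
  have hL' : ∀ f : bddSub, L f = l f := fun f => by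
    have := LinearMap.congr_fun hL f
    exact this
  refine ⟨L, fun c => ?_, fun f M hM => ?_⟩
  · have h1 := hL' ⟨fun _ => c, ‖c‖, Eventually.of_forall fun _ => le_rfl⟩
    rw [h1]
    exact tendsto_nhds_unique (hl _) tendsto_const_nhds
  · have h1 := hL' ⟨f, M, hM⟩
    rw [h1]
    have hle : (hyperfilter ℕ : Filter ℕ) ≤ atTop := by
      rw [← Nat.cofinite_eq_atTop]
      exact hyperfilter_le_cofinite
    have h3 := (hl ⟨f, M, hM⟩).norm
    exact le_of_tendsto h3 (hle hM)

/-- A generalised limit. -/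
def gl : (ℕ → ℂ) →ₗ[ℂ] ℂ := exists_genlim.choose

lemma gl_const (c : ℂ) : gl (fun _ => c) = c := exists_genlim.choose_spec.1 c

lemma gl_bound {f : ℕ → ℂ} {M : ℝ} (h : ∀ᶠ n in atTop, ‖f n‖ ≤ M) : ‖gl f‖ ≤ M :=
  exists_genlim.choose_spec.2 f M h

section It

variable {α : Type*}

/-- Iterated functionals. -/
def It (d : α) : (m : ℕ) → (ℕ → ((α → ℂ) →ₗ[ℂ] ℂ)) → ((ℕ → α) → ℂ) →ₗ[ℂ] ℂ
  | 0, _ =>
    { toFun := fun F => F fun _ => d
      map_add' := fun _ _ => rfl
      map_smul' := fun _ _ => rfl }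
  | m + 1, M =>
    { toFun := fun F => M 0 fun a => It d m (fun i => M (i + 1)) fun x => F (insN 0 a x)
      map_add' := fun F G => by
        have : (fun a => It d m (fun i => M (i + 1)) fun x => (F + G) (insN 0 a x)) =
            (fun a => It d m (fun i => M (i + 1)) fun x => F (insN 0 a x)) +
            (fun a => It d m (fun i => M (i + 1)) fun x => G (insN 0 a x)) := by
          funext a
          have e : (fun x => (F + G) (insN 0 a x)) =
              (fun x => F (insN 0 a x)) + (fun x => G (insN 0 a x)) := rfl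
          rw [e, map_add, Pi.add_apply]
        rw [this, map_add]
      map_smul' := fun c F => by
        have : (fun a => It d m (fun i => M (i + 1)) fun x => (c • F) (insN 0 a x)) =
            c • (fun a => It d m (fun i => M (i + 1)) fun x => F (insN 0 a x)) := by
          funext a
          have e : (fun x => (c • F) (insN 0 a x)) = c • (fun x => F (insN 0 a x)) := rfl
          rw [e, map_smul, Pi.smul_apply]
        rw [this, map_smul, RingHom.id_apply] }

lemma It_zero (d : α) (M : ℕ → ((α → ℂ) →ₗ[ℂ] ℂ)) (F : (ℕ → α) → ℂ) :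
    It d 0 M F = F fun _ => d := rfl

lemma It_succ (d : α) (m : ℕ) (M : ℕ → ((α → ℂ) →ₗ[ℂ] ℂ)) (F : (ℕ → α) → ℂ) :
    It d (m + 1) M F = M 0 fun a => It d m (fun i => M (i + 1)) fun x => F (insN 0 a x) := rfl

lemma It_const (d : α) (m : ℕ) (M : ℕ → ((α → ℂ) →ₗ[ℂ] ℂ))
    (hM : ∀ i c, M i (fun _ => c) = c) (c : ℂ) : It d m M (fun _ => c) = c := by
  induction m generalizing M with
  | zero => rfl
  | succ m ih =>
    rw [It_succ]
    have : (fun _ : α => It d m (fun i => M (i + 1)) fun _ => c) = fun _ => c := by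
      funext a
      exact ih _ fun i c => hM _ _
    rw [this, hM]

/-- Independence of a variable. -/
def Indep (i : ℕ) (F : (ℕ → α) → ℂ) : Prop := ∀ x a b, F (insN i a x) = F (insN i b x)

lemma It_drop (d : α) (m : ℕ) (M : ℕ → ((α → ℂ) →ₗ[ℂ] ℂ)) (hM : ∀ i c, M i (fun _ => c) = c)
    {i : ℕ} (hi : i ≤ m) (F : (ℕ → α) → ℂ) (hF : Indep i F) :
    It d (m + 1) M F = It d m (fun t => if t < i then M t else M (t + 1))
      (fun x => F (insN i d x)) := by
  induction m generalizing M i F with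
  | zero =>
    have : i = 0 := by omega
    subst this
    rw [It_succ]
    have e : (fun a => It d 0 (fun i => M (i + 1)) fun x => F (insN 0 a x)) =
        fun _ => It d 0 (fun t => if t < 0 then M t else M (t + 1)) fun x => F (insN 0 d x) := by
      funext a
      rw [It_zero, It_zero]
      exact hF _ _ _
    rw [e, hM]
  | succ m ih =>
    cases i with
    | zero =>
      rw [It_succ]
      have e : (fun a => It d (m + 1) (fun i => M (i + 1)) fun x => F (insN 0 a x)) =
          fun _ => It d (m + 1) (fun t => if t < 0 then M t else M (t + 1))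
            fun x => F (insN 0 d x) := by
        funext a
        have e1 : (fun x => F (insN 0 a x)) = fun x => F (insN 0 d x) := by
          funext x
          exact hF _ _ _
        have e2 : (fun i => M (i + 1)) = fun t => if t < 0 then M t else M (t + 1) := by
          funext t
          rw [if_neg (by omega)]
        rw [e1, ← e2]
      rw [e, hM]
    | succ i =>
      rw [It_succ, It_succ]
      congr 1
      funext a
      rw [ih (fun i => M (i + 1)) (fun i c => hM _ _) (by omega : i ≤ m)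
        (fun x => F (insN 0 a x)) ?_]
      · have e1 : (fun t => if t < i then M (t + 1) else M (t + 1 + 1)) =
            fun t => if t + 1 < i + 1 then M (t + 1) else M (t + 1 + 1) := by
          funext t
          simp only [Nat.add_lt_add_iff_right]
        have e2 : (fun x => F (insN 0 a (insN i d x))) =
            fun x => F (insN (i + 1) d (insN 0 a x)) := by
          funext x
          rw [insN_insN' (Nat.zero_le i)]
        rw [← e1, e2]
      · intro x b c
        show F (insN 0 a (insN i b x)) = F (insN 0 a (insN i c x))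
        rw [← insN_insN' (Nat.zero_le i), ← insN_insN' (Nat.zero_le i)]
        exact hF _ _ _

end It

/-- The iterated generalised limit. -/
def Lam (m : ℕ) : ((ℕ → ℕ) → ℂ) →ₗ[ℂ] ℂ := It 0 m fun _ => gl

lemma Lam_succ (m : ℕ) (F : (ℕ → ℕ) → ℂ) :
    Lam (m + 1) F = gl fun a => Lam m fun x => F (insN 0 a x) := It_succ _ _ _ _

lemma Lam_const (m : ℕ) (c : ℂ) : Lam m (fun _ => c) = c := It_const _ _ _ (fun _ => gl_const) c

lemma Lam_drop {m i : ℕ} (hi : i ≤ m) (F : (ℕ → ℕ) → ℂ) (hF : Indep i F) :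
    Lam (m + 1) F = Lam m fun x => F (insN i 0 x) := by
  have := It_drop 0 m (fun _ => gl) (fun _ => gl_const) hi F hF
  simp only [ite_self] at this
  exact this

/-- Eventual bounds in all the variables. -/
def EvB : (m : ℕ) → ((ℕ → ℕ) → ℂ) → ℝ → Prop
  | 0, F, C => ‖F fun _ => 0‖ ≤ C
  | m + 1, F, C => ∀ᶠ a in atTop, EvB m (fun x => F (insN 0 a x)) C

lemma EvB_succ (m : ℕ) (F : (ℕ → ℕ) → ℂ) (C : ℝ) :
    EvB (m + 1) F C ↔ ∀ᶠ a in atTop, EvB m (fun x => F (insN 0 a x)) C := Iff.rfl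

lemma Lam_norm_le {m : ℕ} {F : (ℕ → ℕ) → ℂ} {C : ℝ} (h : EvB m F C) : ‖Lam m F‖ ≤ C := by
  induction m generalizing F with
  | zero => exact h
  | succ m ih =>
    rw [Lam_succ]
    apply gl_bound
    filter_upwards [h] with a ha
    exact ih ha

lemma Lam_eq_zero {m : ℕ} {F : (ℕ → ℕ) → ℂ} (h : ∀ ε : ℝ, 0 < ε → EvB m F ε) : Lam m F = 0 := by
  rw [← norm_le_zero_iff]
  refine le_of_forall_pos_le_add fun ε hε => ?_
  rw [zero_add]
  exact Lam_norm_le (h ε hε)

/-- The first `m` entries are increasing and larger than `b`. -/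
def Inc (b m : ℕ) (x : ℕ → ℕ) : Prop := (∀ i < m, b < x i) ∧ ∀ i, i + 1 < m → x i < x (i + 1)

lemma Inc.cons {b m a : ℕ} {x : ℕ → ℕ} (ha : b < a) (h : Inc a m x) :
    Inc b (m + 1) (insN 0 a x) := by
  constructor
  · intro i hi
    rcases Nat.eq_zero_or_pos i with h0 | h0
    · subst h0
      rw [insN_eq]
      exact ha
    · rw [insN_gt _ _ h0]
      exact ha.trans (h.1 _ (by omega))
  · intro i hi
    rcases Nat.eq_zero_or_pos i with h0 | h0
    · subst h0
      rw [insN_eq, insN_gt _ _ (by omega)]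
      exact h.1 _ (by omega)
    · rw [insN_gt _ _ h0, insN_gt _ _ (by omega)]
      have := h.2 (i - 1) (by omega)
      rw [Nat.sub_add_cancel h0] at this
      rw [Nat.add_sub_cancel]
      exact this

lemma Inc.lt {b m : ℕ} {x : ℕ → ℕ} (h : Inc b m x) {i j : ℕ} (hij : i < j) (hj : j < m) :
    x i < x j := by
  induction j with
  | zero => omega
  | succ j ih =>
    rcases Nat.lt_succ_iff_lt_or_eq.1 hij with h' | h'
    · exact (ih h' (by omega)).trans (h.2 j hj)
    · subst h'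
      exact h.2 i hj

lemma Inc.le {b m : ℕ} {x : ℕ → ℕ} (h : Inc b m x) {i j : ℕ} (hij : i ≤ j) (hj : j < m) :
    x i ≤ x j := by
  rcases hij.eq_or_lt with h' | h'
  · rw [h']
  · exact (h.lt h' hj).le

lemma Inc.mono {b m m' : ℕ} {x : ℕ → ℕ} (h : Inc b m x) (hm : m' ≤ m) : Inc b m' x :=
  ⟨fun i hi => h.1 i (by omega), fun i hi => h.2 i (by omega)⟩

/-- Fill the first `q` entries. -/
def app (q : ℕ) (o x : ℕ → ℕ) : ℕ → ℕ := fun t => if t < q then o t else x (t - q)

lemma app_zero (o x : ℕ → ℕ) : app 0 o x = x := by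
  funext t
  simp [app]

lemma insN_app (a q : ℕ) (o x : ℕ → ℕ) : insN 0 a (app q o x) = app (q + 1) (insN 0 a o) x := by
  funext t
  unfold app
  rcases Nat.eq_zero_or_pos t with h | h
  · subst h
    rw [insN_eq, if_pos (by omega), insN_eq]
  · rw [insN_gt _ _ h]
    by_cases h' : t < q + 1
    · rw [if_pos h', if_pos (by omega), insN_gt _ _ h]
    · rw [if_neg h', if_neg (by omega)]
      congr 1
      omega

lemma EvB_outer {q m : ℕ} (b : ℕ) {F : (ℕ → ℕ) → ℂ} {C : ℝ}
    (h : ∀ o : ℕ → ℕ, Inc b q o → EvB m (fun x => F (app q o x)) C) : EvB (q + m) F C := by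
  induction q generalizing b F with
  | zero =>
    have := h (fun _ => 0) ⟨fun i hi => by omega, fun i hi => by omega⟩
    simp only [app_zero] at this
    rw [Nat.zero_add]
    exact this
  | succ q ih =>
    rw [show q + 1 + m = q + m + 1 by ring, EvB_succ]
    filter_upwards [eventually_gt_atTop b] with a ha
    refine ih a fun o ho => ?_
    have := h (insN 0 a o) (ho.cons ha)
    simp only [insN_app]
    exact this

lemma EvB_of_inc {m : ℕ} (b : ℕ) {F : (ℕ → ℕ) → ℂ} {C : ℝ}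
    (h : ∀ x : ℕ → ℕ, Inc b m x → ‖F x‖ ≤ C) : EvB m F C := by
  induction m generalizing b F with
  | zero => exact h _ ⟨fun i hi => by omega, fun i hi => by omega⟩
  | succ m ih =>
    rw [EvB_succ]
    filter_upwards [eventually_gt_atTop b] with a ha
    exact ih a fun x hx => h _ (hx.cons ha)

lemma Lam_norm_le_of_inc {m : ℕ} {F : (ℕ → ℕ) → ℂ} {C : ℝ}
    (h : ∀ x : ℕ → ℕ, Inc 0 m x → ‖F x‖ ≤ C) : ‖Lam m F‖ ≤ C := Lam_norm_le (EvB_of_inc 0 h)

/-- Functions that agree on increasing sequences have the same limit. -/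
lemma Lam_congr {m : ℕ} {F F' : (ℕ → ℕ) → ℂ} (h : ∀ x, Inc 0 m x → F x = F' x) :
    Lam m F = Lam m F' := by
  rw [← sub_eq_zero, ← map_sub]
  refine norm_le_zero_iff.1 (Lam_norm_le_of_inc fun x hx => ?_)
  rw [Pi.sub_apply, h x hx, sub_self, norm_zero]

/-- Smallness when one gap is large. -/
lemma Lam_gap {m q : ℕ} (hq : q + 1 < m) {F : (ℕ → ℕ) → ℂ} (C : ℝ)
    (h : ∀ x : ℕ → ℕ, Inc 0 m x → ‖F x‖ ≤ C * (1 / 2 : ℝ) ^ (x (q + 1) - x q)) :
    Lam m F = 0 := by
  refine Lam_eq_zero fun ε hε => ?_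
  obtain ⟨r, hr⟩ : ∃ r, m = (q + 1) + (r + 1) := ⟨m - q - 2, by omega⟩
  subst hr
  refine EvB_outer 0 fun o ho => ?_
  rw [EvB_succ]
  have hlim : Tendsto (fun n : ℕ => C * (1 / 2 : ℝ) ^ (n - o q)) atTop (𝓝 (C * 0)) := by
    refine Tendsto.const_mul C ?_
    have h1 : Tendsto (fun n : ℕ => (1 / 2 : ℝ) ^ n) atTop (𝓝 0) :=
      tendsto_pow_atTop_nhds_zero_of_lt_one (by norm_num) (by norm_num)
    exact h1.comp (tendsto_sub_atTop_nat _)
  rw [mul_zero] at hlim
  filter_upwards [(tendsto_order.1 hlim).2 ε hε, eventually_gt_atTop (o q)] with a ha hoa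
  refine EvB_of_inc a fun x hx => ?_
  have hinc : Inc 0 (q + 1 + (r + 1)) (app (q + 1) o (insN 0 a x)) := by
    have hc : Inc (o q) (r + 1) (insN 0 a x) := hx.cons hoa
    constructor
    · intro i hi
      unfold app
      split_ifs with h'
      · exact ho.1 _ h'
      · exact (Nat.zero_le _).trans_lt (hc.1 _ (by omega))
    · intro i hi
      unfold app
      split_ifs with h1 h2 h3
      · exact ho.2 _ h2
      · have : i = q := by omega
        subst this
        exact hc.1 _ (by omega)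
      · omega
      · have e : i + 1 - (q + 1) = i - (q + 1) + 1 := by omega
        rw [e]
        exact hc.2 _ (by omega)
  refine (h _ hinc).trans ?_
  have e1 : app (q + 1) o (insN 0 a x) (q + 1) = a := by
    unfold app
    rw [if_neg (by omega), Nat.sub_self, insN_eq]
  have e2 : app (q + 1) o (insN 0 a x) q = o q := by
    unfold app
    rw [if_pos (by omega)]
  rw [e1, e2]
  exact ha.le

/-- Selecting two consecutive entries out of a chain. -/
def sel (q s r : ℕ) (z : ℕ → ℕ) : ℕ → ℕ := fun t =>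
  if t < q then z t else if t = q then z (q + s) else if t = q + 1 then z (q + s + 1)
  else z (t + r)

lemma sel_zero (q : ℕ) (z : ℕ → ℕ) : sel q 0 0 z = z := by
  funext t
  unfold sel
  split_ifs with h1 h2 h3
  · rfl
  · rw [h2, Nat.add_zero]
  · rw [h3]
  · rfl

lemma sel_ins_pos (q s r : ℕ) (a : ℕ) (z : ℕ → ℕ) :
    sel q (s + 1) (r + 1) (insN q a z) = sel q s r z := by
  funext t
  unfold sel
  split_ifs with h1 h2 h3
  · rw [insN_lt _ _ h1]
  · rw [insN_gt _ _ (by omega)]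
    congr 1
  · rw [insN_gt _ _ (by omega)]
    congr 1
  · rw [insN_gt _ _ (by omega)]
    congr 1

lemma sel_ins_zero (q r : ℕ) (a : ℕ) (z : ℕ → ℕ) :
    sel q 0 (r + 1) (insN (q + 2) a z) = sel q 0 r z := by
  funext t
  unfold sel
  split_ifs with h1 h2 h3
  · rw [insN_lt _ _ (by omega)]
  · rw [insN_lt _ _ (by omega)]
  · rw [insN_lt _ _ (by omega)]
  · rw [insN_gt _ _ (by omega)]
    congr 1

lemma Lam_sel {m q : ℕ} (hq : q + 1 < m) (D : (ℕ → ℕ) → ℂ) (r s : ℕ) (hs : s ≤ r) :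
    Lam (m + r) (fun z => D (sel q s r z)) = Lam m D := by
  induction r generalizing s with
  | zero =>
    have : s = 0 := by omega
    subst this
    simp only [sel_zero]
    rfl
  | succ r ih =>
    rw [show m + (r + 1) = m + r + 1 by ring]
    rcases Nat.eq_zero_or_pos s with h0 | h0
    · subst h0
      rw [Lam_drop (i := q + 2) (by omega)]
      · simp only [sel_ins_zero]
        exact ih 0 (by omega)
      · intro x a b
        simp only [sel_ins_zero]
    · obtain ⟨s', rfl⟩ : ∃ s', s = s' + 1 := ⟨s - 1, by omega⟩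
      rw [Lam_drop (i := q) (by omega)]
      · simp only [sel_ins_pos]
        exact ih s' (by omega)
      · intro x a b
        simp only [sel_ins_pos]

/-- The merging lemma. -/
theorem Lam_merge {m q : ℕ} (hq : q + 1 < m) (F : (ℕ → ℕ) → ℂ) (M : ℝ)
    (h : ∀ (r : ℕ) (z : ℕ → ℕ), Inc 0 (m + r) z → ‖∑ s ∈ range (r + 1),
      (F (sel q s r z) - F (Function.update (sel q s r z) (q + 1) (sel q s r z q)))‖ ≤ M) :
    Lam m F = Lam m fun x => F (Function.update x (q + 1) (x q)) := by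
  rw [← sub_eq_zero, ← map_sub]
  set D : (ℕ → ℕ) → ℂ := F - fun x => F (Function.update x (q + 1) (x q)) with hD
  have h1 : ∀ r : ℕ, ((r : ℝ) + 1) * ‖Lam m D‖ ≤ M := by
    intro r
    have e1 : Lam (m + r) (∑ s ∈ range (r + 1), fun z => D (sel q s r z)) =
        ((r : ℂ) + 1) * Lam m D := by
      rw [map_sum, sum_congr rfl (fun s hs => Lam_sel hq D r s (by
        rw [mem_range] at hs; omega)), sum_const, card_range, nsmul_eq_mul]
      push_cast
      ring
    have e2 : ‖Lam (m + r) (∑ s ∈ range (r + 1), fun z => D (sel q s r z))‖ ≤ M := by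
      refine Lam_norm_le_of_inc fun z hz => ?_
      rw [Finset.sum_apply]
      exact h r z hz
    rw [e1, norm_mul] at e2
    have e3 : ‖(r : ℂ) + 1‖ = (r : ℝ) + 1 := by
      have : (r : ℂ) + 1 = ((r + 1 : ℕ) : ℂ) := by push_cast; ring
      rw [this, Complex.norm_natCast]
      push_cast
      ring
    rw [e3] at e2
    exact e2
  by_contra hne
  have hpos : 0 < ‖Lam m D‖ := norm_pos_iff.2 hne
  obtain ⟨r, hr⟩ := exists_nat_gt (M / ‖Lam m D‖)
  rw [div_lt_iff₀ hpos] at hr
  have := h1 r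
  nlinarith

/-- The Cantor set. -/
abbrev Cn : Type := ℕ → Bool

/-- The sign of a bit. -/
def bs (b : Bool) : ℂ := if b then -1 else 1

lemma bs_mul (b b' : Bool) : bs b * bs b' = if b = b' then 1 else -1 := by
  cases b <;> cases b' <;> simp [bs]

lemma norm_bs (b : Bool) : ‖bs b‖ = 1 := by cases b <;> simp [bs]

/-- Coordinate characters. -/
def cc (i : ℕ) : C(Cn, ℂ) := ⟨fun ω => bs (ω i), by
  exact (continuous_of_discreteTopology (f := bs)).comp (continuous_apply i)⟩

/-- Walsh characters. -/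
def ch (T : Finset ℕ) : C(Cn, ℂ) := ∏ i ∈ T, cc i

lemma ch_apply (T : Finset ℕ) (ω : Cn) : ch T ω = ∏ i ∈ T, bs (ω i) := by
  unfold ch
  rw [ContinuousMap.coe_prod, Finset.prod_apply]
  rfl

lemma ch_empty : ch ∅ = 1 := by
  unfold ch
  exact prod_empty

lemma norm_ch_apply (T : Finset ℕ) (ω : Cn) : ‖ch T ω‖ = 1 := by
  rw [ch_apply, norm_prod]
  exact prod_eq_one fun i _ => norm_bs _

lemma norm_ch_le (T : Finset ℕ) : ‖ch T‖ ≤ 1 := by
  rw [ContinuousMap.norm_le _ zero_le_one]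
  intro ω
  rw [norm_ch_apply]

lemma ch_mul (T S : Finset ℕ) : ch T * ch S = ch (symmDiff T S) := by
  ext ω
  rw [ContinuousMap.mul_apply, ch_apply, ch_apply, ch_apply]
  have h1 : ∏ i ∈ T, bs (ω i) = (∏ i ∈ T \ S, bs (ω i)) * ∏ i ∈ T ∩ S, bs (ω i) := by
    rw [← prod_union (disjoint_sdiff_inter T S), sdiff_union_inter]
  have h2 : ∏ i ∈ S, bs (ω i) = (∏ i ∈ S \ T, bs (ω i)) * ∏ i ∈ T ∩ S, bs (ω i) := by
    rw [inter_comm T S, ← prod_union (disjoint_sdiff_inter S T), sdiff_union_inter]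
  have h3 : ∏ i ∈ symmDiff T S, bs (ω i) =
      (∏ i ∈ T \ S, bs (ω i)) * ∏ i ∈ S \ T, bs (ω i) := by
    rw [← prod_union]
    · rfl
    · exact disjoint_sdiff_sdiff
  have h4 : (∏ i ∈ T ∩ S, bs (ω i)) * ∏ i ∈ T ∩ S, bs (ω i) = 1 := by
    rw [← prod_mul_distrib]
    exact prod_eq_one fun i _ => by rw [bs_mul, if_pos rfl]
  rw [h1, h2, h3]
  linear_combination (∏ i ∈ T \ S, bs (ω i)) * (∏ i ∈ S \ T, bs (ω i)) * h4

lemma ch_sq (T : Finset ℕ) : ch T * ch T = 1 := by
  rw [ch_mul, symmDiff_self]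
  exact ch_empty

/-- The average over the characters of level `l`. -/
def Av (l : ℕ) : (C(Cn, ℂ) → ℂ) →ₗ[ℂ] ℂ where
  toFun φ := 𝔼 T ∈ (range l).powerset, φ (ch T)
  map_add' _ _ := expect_add_distrib _ _ _
  map_smul' _ _ := (mul_expect _ _ _).symm

lemma Av_apply (l : ℕ) (φ : C(Cn, ℂ) → ℂ) : Av l φ = 𝔼 T ∈ (range l).powerset, φ (ch T) := rfl

lemma Av_const (l : ℕ) (c : ℂ) : Av l (fun _ => c) = c := by
  rw [Av_apply]
  exact expect_const ⟨∅, empty_mem_powerset _⟩ _

/-- The set of all characters. -/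
def Chs : Set C(Cn, ℂ) := Set.range ch

lemma Av_congr (l : ℕ) {φ φ' : C(Cn, ℂ) → ℂ} (h : ∀ u ∈ Chs, φ u = φ' u) : Av l φ = Av l φ' := by
  rw [Av_apply, Av_apply]
  exact expect_congr rfl fun T _ => h _ ⟨T, rfl⟩

lemma Av_norm_le (l : ℕ) {φ : C(Cn, ℂ) → ℂ} {C : ℝ} (h : ∀ u ∈ Chs, ‖φ u‖ ≤ C) :
    ‖Av l φ‖ ≤ C := by
  rw [Av_apply]
  refine (RCLike.norm_expect_le (K := ℂ)).trans ?_
  exact expect_le ⟨∅, empty_mem_powerset _⟩ fun T _ => h _ ⟨T, rfl⟩

lemma Av_shift {l : ℕ} {W : Finset ℕ} (hW : W ⊆ range l) (φ : C(Cn, ℂ) → ℂ) :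
    Av l (fun u => φ (ch W * u)) = Av l φ := by
  rw [Av_apply, Av_apply]
  have hmem : ∀ T ∈ (range l).powerset, symmDiff W T ∈ (range l).powerset := by
    intro T hT
    rw [mem_powerset] at hT ⊢
    exact (symmDiff_le_sup (a := W) (b := T)).trans (union_subset hW hT)
  refine expect_nbij' (fun T => symmDiff W T) (fun T => symmDiff W T) hmem hmem ?_ ?_ ?_
  · intro T _
    exact symmDiff_symmDiff_cancel_left W T
  · intro T _
    exact symmDiff_symmDiff_cancel_left W T
  · intro T _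
    show φ (ch W * ch T) = φ (ch (symmDiff W T))
    rw [ch_mul]

lemma Av_kernel (l : ℕ) (ω ω' : Cn) :
    Av l (fun u => u ω * u ω') = if ∀ i < l, ω i = ω' i then 1 else 0 := by
  rw [Av_apply]
  have h1 : ∀ T ∈ (range l).powerset, ch T ω * ch T ω' = ∏ i ∈ T, bs (ω i) * bs (ω' i) := by
    intro T _
    rw [ch_apply, ch_apply, prod_mul_distrib]
  rw [expect_congr rfl h1, expect_eq_sum_div_card, card_powerset, card_range, ← prod_one_add]
  split_ifs with h
  · have : ∏ i ∈ range l, (1 + bs (ω i) * bs (ω' i)) = 2 ^ l := by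
      rw [prod_congr rfl fun i hi => by rw [bs_mul, if_pos (h i (mem_range.1 hi))], prod_const,
        card_range]
      norm_num
    rw [this]
    push_cast
    exact div_self (pow_ne_zero _ two_ne_zero)
  · push Not at h
    obtain ⟨i, hi, hne⟩ := h
    rw [prod_eq_zero (mem_range.2 hi), zero_div]
    rw [bs_mul, if_neg hne]
    norm_num

section ItAv

lemma It_congr_on {α : Type*} (S : Set α) (d : α) (hd : d ∈ S) (m : ℕ)
    (M : ℕ → ((α → ℂ) →ₗ[ℂ] ℂ))
    (hM : ∀ i (φ φ' : α → ℂ), (∀ a ∈ S, φ a = φ' a) → M i φ = M i φ')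
    (F F' : (ℕ → α) → ℂ) (h : ∀ x, (∀ i, x i ∈ S) → F x = F' x) : It d m M F = It d m M F' := by
  induction m generalizing M F F' with
  | zero => exact h _ fun _ => hd
  | succ m ih =>
    rw [It_succ, It_succ]
    refine hM 0 _ _ fun a ha => ?_
    refine ih (fun i => M (i + 1)) (fun i => hM _) _ _ fun x hx => h _ fun i => ?_
    unfold insN
    split_ifs
    · exact hx _
    · exact ha
    · exact hx _

lemma It_norm_le_on {α : Type*} (S : Set α) (d : α) (hd : d ∈ S) (m : ℕ)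
    (M : ℕ → ((α → ℂ) →ₗ[ℂ] ℂ)) {C : ℝ}
    (hM : ∀ i (φ : α → ℂ), (∀ a ∈ S, ‖φ a‖ ≤ C) → ‖M i φ‖ ≤ C)
    (F : (ℕ → α) → ℂ) (h : ∀ x, (∀ i, x i ∈ S) → ‖F x‖ ≤ C) : ‖It d m M F‖ ≤ C := by
  induction m generalizing M F with
  | zero => exact h _ fun _ => hd
  | succ m ih =>
    rw [It_succ]
    refine hM 0 _ fun a ha => ?_
    refine ih (fun i => M (i + 1)) (fun i => hM _) _ fun x hx => h _ fun i => ?_
    unfold insN
    split_ifs
    · exact hx _
    · exact ha
    · exact hx _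

/-- Iterated averages over characters. -/
def IA (m : ℕ) (l : ℕ → ℕ) : ((ℕ → C(Cn, ℂ)) → ℂ) →ₗ[ℂ] ℂ := It 1 m fun i => Av (l i)

lemma one_mem_Chs : (1 : C(Cn, ℂ)) ∈ Chs := ⟨∅, ch_empty⟩

lemma IA_zero (l : ℕ → ℕ) (F : (ℕ → C(Cn, ℂ)) → ℂ) : IA 0 l F = F fun _ => 1 := rfl

lemma IA_succ (m : ℕ) (l : ℕ → ℕ) (F : (ℕ → C(Cn, ℂ)) → ℂ) :
    IA (m + 1) l F = Av (l 0) fun u => IA m (fun i => l (i + 1)) fun x => F (insN 0 u x) := rfl

lemma IA_const (m : ℕ) (l : ℕ → ℕ) (c : ℂ) : IA m l (fun _ => c) = c :=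
  It_const _ _ _ (fun _ => Av_const _) c

lemma IA_congr {m : ℕ} {l : ℕ → ℕ} {F F' : (ℕ → C(Cn, ℂ)) → ℂ}
    (h : ∀ x, (∀ i, x i ∈ Chs) → F x = F' x) : IA m l F = IA m l F' :=
  It_congr_on Chs 1 one_mem_Chs m _ (fun _ _ _ => Av_congr _) F F' h

lemma IA_norm_le {m : ℕ} {l : ℕ → ℕ} {F : (ℕ → C(Cn, ℂ)) → ℂ} {C : ℝ}
    (h : ∀ x, (∀ i, x i ∈ Chs) → ‖F x‖ ≤ C) : ‖IA m l F‖ ≤ C :=
  It_norm_le_on Chs 1 one_mem_Chs m _ (fun _ _ => Av_norm_le _) F h

/-- Omit one entry. -/
def del {α : Type*} (i : ℕ) (x : ℕ → α) : ℕ → α := fun t => if t < i then x t else x (t + 1)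

lemma del_insN {α : Type*} (i : ℕ) (a : α) (x : ℕ → α) : del i (insN i a x) = x := by
  funext t
  unfold del
  split_ifs with h
  · rw [insN_lt _ _ h]
  · rw [insN_gt _ _ (by omega), Nat.add_sub_cancel]

lemma IA_drop {m i : ℕ} (hi : i ≤ m) (l : ℕ → ℕ) (F : (ℕ → C(Cn, ℂ)) → ℂ) :
    IA (m + 1) l (fun x => F (del i x)) = IA m (del i l) F := by
  have h := It_drop 1 m (fun i => Av (l i)) (fun i => Av_const _) hi (fun x => F (del i x))
    (fun x a b => by
      show F (del i (insN i a x)) = F (del i (insN i b x))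
      rw [del_insN, del_insN])
  unfold IA
  rw [h]
  have e1 : (fun x => F (del i (insN i (1 : C(Cn, ℂ)) x))) = F := by
    funext x
    rw [del_insN]
  rw [e1]
  congr 1
  congr 1
  funext t
  unfold del
  split_ifs <;> rfl

lemma IA_shift {m : ℕ} {l : ℕ → ℕ} {W : Finset ℕ} (hW : ∀ i < m, W ⊆ range (l i))
    (F : (ℕ → C(Cn, ℂ)) → ℂ) (hF : ∀ x y, (∀ i < m, x i = y i) → F x = F y) :
    IA m l (fun x => F (fun i => ch W * x i)) = IA m l F := by
  induction m generalizing l F with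
  | zero =>
    rw [IA_zero, IA_zero]
    exact hF _ _ fun i hi => by omega
  | succ m ih =>
    rw [IA_succ, IA_succ]
    rw [← Av_shift (hW 0 (by omega)) (fun u => IA m (fun i => l (i + 1)) fun x => F (insN 0 u x))]
    congr 1
    funext u
    rw [← ih (l := fun i => l (i + 1)) (fun i hi => hW _ (by omega))
      (fun x => F (insN 0 (ch W * u) x)) (fun x y hxy => hF _ _ fun i hi => ?_)]
    · congr 1
      funext x
      refine hF _ _ fun i hi => ?_
      rcases Nat.eq_zero_or_pos i with h | h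
      · subst h
        rw [insN_eq, insN_eq]
      · rw [insN_gt _ _ h, insN_gt _ _ h]
    · rcases Nat.eq_zero_or_pos i with h | h
      · subst h
        rw [insN_eq, insN_eq]
      · rw [insN_gt _ _ h, insN_gt _ _ h]
        exact hxy _ (by omega)

end ItAv

/-- The algebra. -/
abbrev Al : Type := C(Cn, ℂ)

section Embsec

variable {N : ℕ}

/-- Zero extension of a point. -/
def emb (N : ℕ) (x : Pt N) : Cn := fun i => if h : i < N then x ⟨i, h⟩ else false

lemma emb_fin (x : Pt N) (i : Fin N) : emb N x i = x i := by simp [emb]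

lemma emb_ge (x : Pt N) {i : ℕ} (hi : N ≤ i) : emb N x i = false := by
  unfold emb
  rw [dif_neg (by omega)]

lemma emb_fin' (x : Pt N) : (fun i : Fin N => emb N x i) = x := funext fun i => emb_fin x i

/-- Restriction of a continuous function. -/
def rs (N : ℕ) (a : Al) : Pt N → ℂ := fun x => a (emb N x)

lemma norm_rs_le (a : Al) (x : Pt N) : ‖rs N a x‖ ≤ ‖a‖ := ContinuousMap.norm_coe_le_norm a _

lemma rs_mul (a b : Al) : rs N (a * b) = rs N a * rs N b := rfl

lemma rs_one : rs N 1 = 1 := rfl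

lemma rs_add (a b : Al) : rs N (a + b) = rs N a + rs N b := rfl

lemma rs_smul (c : ℂ) (a : Al) : rs N (c • a) = c • rs N a := rfl

end Embsec

section QNsec

variable {N k : ℕ}

lemma Rc_congr {k : ℕ} {f f' : ℕ → Pt N → ℂ} {n n' : ℕ → ℕ} (ξ : Pt N → ℂ)
    (hf : ∀ i < k, f i = f' i) (hn : ∀ i < k, n i = n' i) : Rc k f n ξ = Rc k f' n' ξ := by
  induction k generalizing f f' n n' with
  | zero => rfl
  | succ k ih =>
    rw [Rc_succ, Rc_succ, hf 0 (by omega), hn 0 (by omega),
      ih (fun i hi => hf (i + 1) (by omega)) fun i hi => hn (i + 1) (by omega)]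

lemma Rc_add (k : ℕ) (f : ℕ → Pt N → ℂ) (n : ℕ → ℕ) (ξ η : Pt N → ℂ) :
    Rc k f n (ξ + η) = Rc k f n ξ + Rc k f n η := by
  induction k generalizing f n with
  | zero => rfl
  | succ k ih => rw [Rc_succ, ih, ce_add, mul_add, Rc_succ, Rc_succ]

lemma Rc_smul (k : ℕ) (f : ℕ → Pt N → ℂ) (n : ℕ → ℕ) (c : ℂ) (ξ : Pt N → ℂ) :
    Rc k f n (c • ξ) = c • Rc k f n ξ := by
  induction k generalizing f n with
  | zero => rfl
  | succ k ih => rw [Rc_succ, ih, ce_smul, mul_smul_comm, Rc_succ]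

lemma Rc_sum (k : ℕ) (f : ℕ → Pt N → ℂ) (n : ℕ → ℕ) {κ : Type*} (s : Finset κ)
    (ξ : κ → Pt N → ℂ) : Rc k f n (∑ i ∈ s, ξ i) = ∑ i ∈ s, Rc k f n (ξ i) := by
  classical
  induction s using Finset.induction_on with
  | empty =>
    rw [sum_empty, sum_empty]
    have := Rc_smul k f n 0 0
    rw [zero_smul, zero_smul] at this
    exact this
  | insert j s hj ih => rw [sum_insert hj, sum_insert hj, Rc_add, ih]

lemma tail_update (f : ℕ → Pt N → ℂ) (i : ℕ) (g : Pt N → ℂ) :
    (fun j => Function.update f (i + 1) g (j + 1)) =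
      Function.update (fun j => f (j + 1)) i g := by
  funext j
  by_cases h : j = i
  · subst h
    rw [Function.update_self, Function.update_self]
  · rw [Function.update_of_ne h, Function.update_of_ne (by omega)]

lemma Rc_update_add {k : ℕ} (f : ℕ → Pt N → ℂ) (n : ℕ → ℕ) (ξ : Pt N → ℂ) {i : ℕ} (hi : i < k)
    (u v : Pt N → ℂ) : Rc k (Function.update f i (u + v)) n ξ =
      Rc k (Function.update f i u) n ξ + Rc k (Function.update f i v) n ξ := by
  induction k generalizing f n i with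
  | zero => omega
  | succ k ih =>
    cases i with
    | zero =>
      simp only [Rc_succ, Function.update_self]
      have : ∀ w : Pt N → ℂ, (fun j => Function.update f 0 w (j + 1)) = fun j => f (j + 1) :=
        fun w => funext fun j => Function.update_of_ne (by omega) _ _
      simp only [this]
      rw [add_mul]
    | succ i =>
      simp only [Rc_succ]
      rw [tail_update, tail_update, tail_update, ih _ _ (by omega), ce_add,
        Function.update_of_ne (by omega), Function.update_of_ne (by omega),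
        Function.update_of_ne (by omega), mul_add]

lemma Rc_update_smul {k : ℕ} (f : ℕ → Pt N → ℂ) (n : ℕ → ℕ) (ξ : Pt N → ℂ) {i : ℕ} (hi : i < k)
    (c : ℂ) (u : Pt N → ℂ) : Rc k (Function.update f i (c • u)) n ξ =
      c • Rc k (Function.update f i u) n ξ := by
  induction k generalizing f n i with
  | zero => omega
  | succ k ih =>
    cases i with
    | zero =>
      simp only [Rc_succ, Function.update_self]
      have : ∀ w : Pt N → ℂ, (fun j => Function.update f 0 w (j + 1)) = fun j => f (j + 1) :=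
        fun w => funext fun j => Function.update_of_ne (by omega) _ _
      simp only [this]
      rw [smul_mul_assoc]
    | succ i =>
      simp only [Rc_succ]
      rw [tail_update, tail_update, ih _ _ (by omega), ce_smul,
        Function.update_of_ne (by omega), Function.update_of_ne (by omega), mul_smul_comm]

/-- Recursion from the right. -/
lemma Rc_succ' (k : ℕ) (f : ℕ → Pt N → ℂ) (n : ℕ → ℕ) (ξ : Pt N → ℂ) :
    Rc (k + 1) f n ξ = Rc k f n (f k * ce (n k) ξ) := by
  induction k generalizing f n with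
  | zero => rfl
  | succ k ih =>
    rw [Rc_succ, ih]
    rfl

lemma Rc_ins {k : ℕ} (f : ℕ → Pt N → ℂ) (m : ℕ → ℕ) (ξ : Pt N → ℂ) {i : ℕ} (hi : i < k) :
    Rc (k + 1) f (insN i N m) ξ = Rc k (mergeN i f) m ξ := by
  induction k generalizing f m i with
  | zero => omega
  | succ k ih =>
    cases i with
    | zero =>
      rw [Rc_succ, insN_eq, ce_of_ge le_rfl]
      have e1 : (fun j => insN 0 N m (j + 1)) = m := by
        funext j
        rw [insN_gt _ _ (by omega), Nat.add_sub_cancel]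
      rw [e1, Rc_succ, Rc_succ, mergeN_eq, ← mul_assoc]
      congr 3
    | succ i =>
      rw [Rc_succ, insN_lt _ _ (by omega)]
      have e1 : (fun j => insN (i + 1) N m (j + 1)) = insN i N fun j => m (j + 1) := by
        funext j
        rcases lt_trichotomy j i with h | h | h
        · rw [insN_lt _ _ (by omega), insN_lt _ _ h]
        · subst h
          rw [insN_eq, insN_eq]
        · rw [insN_gt _ _ (by omega), insN_gt _ _ h]
          have : j + 1 - 1 = j - 1 + 1 := by omega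
          rw [this]
      rw [e1, ih _ _ (by omega), Rc_succ, mergeN_lt _ (by omega)]
      congr 3
      funext j
      rcases lt_trichotomy j i with h | h | h
      · rw [mergeN_lt _ h, mergeN_lt _ (by omega)]
      · subst h
        rw [mergeN_eq, mergeN_eq]
      · rw [mergeN_gt _ h, mergeN_gt _ (by omega)]

lemma Rc_ins_last (k : ℕ) (f : ℕ → Pt N → ℂ) (m : ℕ → ℕ) (ξ : Pt N → ℂ) :
    Rc (k + 1) f (insN k N m) ξ = Rc k f m (f k * ξ) := by
  rw [Rc_succ', insN_eq, ce_of_ge le_rfl]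
  exact Rc_congr _ (fun _ _ => rfl) fun i hi => insN_lt _ _ hi

/-- The real version of the swap. -/
lemma expect_swpR (n : ℕ) (g : Pt N → Pt N → ℝ) :
    𝔼 x, 𝔼 y, g (mix n x y) (mix n y x) = 𝔼 x, 𝔼 y, g x y := by
  have h1 : ∀ g : Pt N → Pt N → ℝ, 𝔼 x, 𝔼 y, g x y = 𝔼 p : Pt N × Pt N, g p.1 p.2 := by
    intro g
    rw [← univ_product_univ]
    exact (expect_product' univ univ g).symm
  rw [h1 g, h1 fun x y => g (mix n x y) (mix n y x)]
  exact Fintype.expect_equiv (swp n) _ _ fun p => rfl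

/-- Domination of a chain by one conditional expectation. -/
lemma Rc_dom (k : ℕ) {f : ℕ → Pt N → ℂ} (hf : ∀ i x, ‖f i x‖ ≤ 1) (n : ℕ → ℕ) :
    ∃ M : ℕ, (∀ i < k, M ≤ n i) ∧ ∀ (ζ : Pt N → ℂ) (ψ : Pt N → ℝ), (∀ x, ‖ζ x‖ ≤ ψ x) →
      ∀ x, ‖Rc k f n ζ x‖ ≤ 𝔼 y, ψ (mix M x y) := by
  induction k generalizing f n with
  | zero =>
    refine ⟨N, fun i hi => by omega, fun ζ ψ h x => ?_⟩
    have : ∀ y : Pt N, ψ (mix N x y) = ψ x := fun y => by rw [mix_of_ge le_rfl]
    rw [expect_congr rfl fun y _ => this y, Fintype.expect_const]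
    exact h x
  | succ k ih =>
    obtain ⟨M, h1, h2⟩ := ih (f := fun i => f (i + 1)) (fun i x => hf _ x) fun i => n (i + 1)
    refine ⟨min (n 0) M, fun i hi => ?_, fun ζ ψ h x => ?_⟩
    · cases i with
      | zero => exact min_le_left _ _
      | succ i => exact (min_le_right _ _).trans (h1 i (by omega))
    · rw [Rc_succ, Pi.mul_apply, norm_mul]
      have h3 := h2 ζ ψ h
      have h4 : ‖ce (n 0) (Rc k (fun i => f (i + 1)) (fun i => n (i + 1)) ζ) x‖ ≤
          𝔼 y, 𝔼 z, ψ (mix M (mix (n 0) x y) z) := by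
        refine (RCLike.norm_expect_le (K := ℂ)).trans ?_
        exact expect_le_expect fun y _ => h3 _
      refine (mul_le_of_le_one_left (norm_nonneg _) (hf 0 x)).trans (h4.trans (le_of_eq ?_))
      rcases le_total M (n 0) with hle | hle
      · rw [min_eq_right hle]
        simp only [mix_mix_of_le hle]
        exact Fintype.expect_const _
      · rw [min_eq_left hle]
        simp only [mix_mix_of_ge hle]
        rw [expect_swpR M (fun y _ => ψ (mix (n 0) x y))]
        exact expect_congr rfl fun y _ => Fintype.expect_const _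

/-- Agreement of the first `l` coordinates. -/
lemma count_agree (M l : ℕ) (hl : l ≤ N) (x : Pt N) :
    𝔼 y : Pt N, (if ∀ i : Fin N, (i : ℕ) < l → mix M x y i = x i then (1 : ℝ) else 0) =
      (1 / 2 : ℝ) ^ (l - M) := by
  have h1 : ∀ y : Pt N, (if ∀ i : Fin N, (i : ℕ) < l → mix M x y i = x i then (1 : ℝ) else 0) =
      ∏ i : Fin N, (if M ≤ (i : ℕ) ∧ (i : ℕ) < l ∧ y i ≠ x i then (0 : ℝ) else 1) := by
    intro y
    split_ifs with h
    · refine (prod_eq_one fun i _ => ?_).symm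
      rw [if_neg]
      rintro ⟨h2, h3, h4⟩
      have := h i h3
      unfold mix at this
      rw [if_neg (by omega)] at this
      exact h4 this
    · push Not at h
      obtain ⟨i, hi, hne⟩ := h
      refine (prod_eq_zero (mem_univ i) ?_).symm
      unfold mix at hne
      split_ifs at hne with h5
      · exact absurd rfl hne
      · rw [if_pos ⟨by omega, hi, hne⟩]
  rw [expect_congr rfl fun y _ => h1 y, Fintype.expect_eq_sum_div_card]
  have h2 := (Finset.prod_univ_sum (fun _ : Fin N => (univ : Finset Bool))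
    (fun i b => if M ≤ (i : ℕ) ∧ (i : ℕ) < l ∧ b ≠ x i then (0 : ℝ) else 1)).symm
  rw [Fintype.piFinset_univ] at h2
  rw [h2]
  have h3 : ∀ i : Fin N, ∑ b : Bool, (if M ≤ (i : ℕ) ∧ (i : ℕ) < l ∧ b ≠ x i then (0 : ℝ) else 1) =
      2 * (if M ≤ (i : ℕ) ∧ (i : ℕ) < l then (1 / 2 : ℝ) else 1) := by
    intro i
    rw [Fintype.sum_bool]
    by_cases h : M ≤ (i : ℕ) ∧ (i : ℕ) < l
    · rw [if_pos h]
      cases x i
      · rw [if_pos ⟨h.1, h.2, by simp⟩, if_neg (by simp)]
        norm_num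
      · rw [if_neg (by simp), if_pos ⟨h.1, h.2, by simp⟩]
        norm_num
    · rw [if_neg h, if_neg (fun h' => h ⟨h'.1, h'.2.1⟩), if_neg (fun h' => h ⟨h'.1, h'.2.1⟩)]
      norm_num
  rw [prod_congr rfl fun i _ => h3 i, prod_mul_distrib, prod_const, card_univ, Fintype.card_fin]
  have h4 : ∏ i : Fin N, (if M ≤ (i : ℕ) ∧ (i : ℕ) < l then (1 / 2 : ℝ) else 1) =
      (1 / 2 : ℝ) ^ (l - M) := by
    rw [Fin.prod_univ_eq_prod_range (fun i => if M ≤ i ∧ i < l then (1 / 2 : ℝ) else 1),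
      ← prod_filter, prod_const]
    congr 1
    have : (range N).filter (fun i => M ≤ i ∧ i < l) = Ico M l := by
      ext i
      simp only [mem_filter, mem_range, mem_Ico]
      omega
    rw [this, Nat.card_Ico]
  rw [h4, Fintype.card_fun, Fintype.card_fin, Fintype.card_bool]
  push_cast
  rw [mul_div_assoc, mul_comm, div_mul_cancel₀]
  exact pow_ne_zero _ two_ne_zero


end QNsec

section WFsec

variable {N k : ℕ}

lemma Av_eq_sum (l : ℕ) (φ : Al → ℂ) :
    Av l φ = ((2 : ℂ) ^ l)⁻¹ * ∑ W ∈ (range l).powerset, φ (ch W) := by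
  rw [Av_apply, expect_eq_sum_div_card, card_powerset, card_range]
  push_cast
  rw [div_eq_inv_mul]

lemma agree_iff {l : ℕ} (hl : l ≤ N) (p q : Pt N) :
    (∀ i < l, emb N p i = emb N q i) ↔ ∀ i : Fin N, (i : ℕ) < l → q i = p i := by
  constructor
  · intro h i hi
    have := h i hi
    rw [emb_fin, emb_fin] at this
    exact this.symm
  · intro h i hi
    have := h ⟨i, by omega⟩ hi
    have e1 : emb N p i = p ⟨i, by omega⟩ := emb_fin p ⟨i, by omega⟩
    have e2 : emb N q i = q ⟨i, by omega⟩ := emb_fin q ⟨i, by omega⟩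
    rw [e1, e2, this]

/-- The reduced chain. -/
def Rst : ℕ → (ℕ → ℕ) → (ℕ → Al) → Pt N → ℂ
  | 0, _, _ => 1
  | k + 1, m, u => rs N (u 0) *
      ce (m 0) (rs N (u 0) * Rst k (fun i => m (i + 1)) fun i => u (i + 1))

lemma Rst_succ (k : ℕ) (m : ℕ → ℕ) (u : ℕ → Al) : Rst (N := N) (k + 1) m u = rs N (u 0) *
    ce (m 0) (rs N (u 0) * Rst k (fun i => m (i + 1)) fun i => u (i + 1)) := rfl

lemma Rc_eq_Rst (K : ℕ) (m : ℕ → ℕ) (w : Al) (u : ℕ → Al) :
    Rc K (fun i => rs N ((if i = 0 then w else u (i - 1)) * u i)) m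
      (rs N (if K = 0 then w else u (K - 1))) = rs N w * Rst K m u := by
  induction K generalizing m w u with
  | zero =>
    unfold Rc Rst
    rw [if_pos rfl, mul_one]
  | succ K ih =>
    rw [Rc_succ, if_pos rfl, rs_mul]
    have h := ih (fun i => m (i + 1)) (u 0) fun i => u (i + 1)
    have e1 : (fun i => rs N ((if i + 1 = 0 then w else u (i + 1 - 1)) * u (i + 1))) =
        fun i => rs N ((if i = 0 then u 0 else (fun i => u (i + 1)) (i - 1)) * u (i + 1)) := by
      funext i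
      rw [if_neg (by omega), Nat.add_sub_cancel]
      by_cases hi : i = 0
      · rw [if_pos hi, hi]
      · rw [if_neg hi]
        have : i - 1 + 1 = i := by omega
        simp only [this]
    have e2 : (if K + 1 = 0 then w else u (K + 1 - 1)) =
        if K = 0 then u 0 else (fun i => u (i + 1)) (K - 1) := by
      rw [if_neg (by omega), Nat.add_sub_cancel]
      by_cases hi : K = 0
      · rw [if_pos hi, hi]
      · rw [if_neg hi]
        have : K - 1 + 1 = K := by omega
        simp only [this]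
    rw [e1, e2, h, Rst_succ, mul_assoc]

lemma IA_expect {m : ℕ} {l : ℕ → ℕ} (F : Pt N → (ℕ → Al) → ℂ) :
    IA m l (fun x => 𝔼 p, F p x) = 𝔼 p, IA m l (F p) := by
  have e1 : (fun x => 𝔼 p, F p x) = ((Fintype.card (Pt N) : ℂ))⁻¹ • ∑ p, F p := by
    funext x
    rw [Pi.smul_apply, Finset.sum_apply, Fintype.expect_eq_sum_div_card, div_eq_inv_mul,
      smul_eq_mul]
  rw [e1, map_smul, map_sum, Fintype.expect_eq_sum_div_card, div_eq_inv_mul, smul_eq_mul]

lemma IA_Rst (K : ℕ) (m l : ℕ → ℕ) (hl : ∀ i < K, l i ≤ N) (p : Pt N) :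
    IA K l (fun u => Rst K m u p) = ∏ i ∈ range K, (1 / 2 : ℂ) ^ (l i - m i) := by
  induction K generalizing m l p with
  | zero => simp [IA_zero, Rst]
  | succ K ih =>
    rw [IA_succ, prod_range_succ']
    set c : ℂ := ∏ i ∈ range K, (1 / 2 : ℂ) ^ (l (i + 1) - m (i + 1)) with hc
    have e1 : ∀ u : Al, IA K (fun i => l (i + 1)) (fun x => Rst (N := N) (K + 1) m (insN 0 u x) p) =
        c • 𝔼 y, rs N u p * rs N u (mix (m 0) p y) := by
      intro u
      have e2 : (fun x => Rst (N := N) (K + 1) m (insN 0 u x) p) = fun x => 𝔼 y,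
          (rs N u p * rs N u (mix (m 0) p y)) *
            Rst K (fun i => m (i + 1)) x (mix (m 0) p y) := by
        funext x
        have e3 : (fun i => insN 0 u x (i + 1)) = x := by
          funext i
          rw [insN_gt _ _ (by omega), Nat.add_sub_cancel]
        rw [Rst_succ, e3, insN_eq, Pi.mul_apply]
        unfold ce
        rw [mul_expect]
        refine expect_congr rfl fun y _ => ?_
        rw [Pi.mul_apply, mul_assoc]
      rw [e2, IA_expect]
      have e4 : ∀ y : Pt N, IA K (fun i => l (i + 1)) (fun x =>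
          (rs N u p * rs N u (mix (m 0) p y)) * Rst K (fun i => m (i + 1)) x (mix (m 0) p y)) =
          (rs N u p * rs N u (mix (m 0) p y)) * c := by
        intro y
        have e5 := ih (fun i => m (i + 1)) (fun i => l (i + 1)) (fun i hi => hl _ (by omega))
          (mix (m 0) p y)
        have e6 : (fun x => (rs N u p * rs N u (mix (m 0) p y)) *
            Rst K (fun i => m (i + 1)) x (mix (m 0) p y)) =
            (rs N u p * rs N u (mix (m 0) p y)) •
              fun x => Rst K (fun i => m (i + 1)) x (mix (m 0) p y) := rfl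
        rw [e6, map_smul, e5, smul_eq_mul]
      rw [expect_congr rfl fun y _ => e4 y, ← expect_mul, mul_comm, smul_eq_mul]
    have e6 : (fun u => IA K (fun i => l (i + 1))
        (fun x => Rst (N := N) (K + 1) m (insN 0 u x) p)) =
        c • fun u => 𝔼 y, rs N u p * rs N u (mix (m 0) p y) := funext e1
    rw [e6, map_smul, smul_eq_mul]
    congr 1
    have e7 : Av (l 0) (fun u => 𝔼 y, rs N u p * rs N u (mix (m 0) p y)) =
        𝔼 y, Av (l 0) fun u => rs N u p * rs N u (mix (m 0) p y) := by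
      rw [Av_apply]
      exact expect_comm _ _ _
    rw [e7]
    have e8 : ∀ y : Pt N, (Av (l 0) fun u => rs N u p * rs N u (mix (m 0) p y)) =
        ((if ∀ i : Fin N, (i : ℕ) < l 0 → mix (m 0) p y i = p i then (1 : ℝ) else 0 : ℝ) : ℂ) := by
      intro y
      have e9 := Av_kernel (l 0) (emb N p) (emb N (mix (m 0) p y))
      unfold rs
      rw [e9]
      by_cases h : ∀ i < l 0, emb N p i = emb N (mix (m 0) p y) i
      · rw [if_pos h, if_pos ((agree_iff (hl 0 (by omega)) _ _).1 h)]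
        norm_num
      · rw [if_neg h, if_neg fun h' => h ((agree_iff (hl 0 (by omega)) _ _).2 h')]
        norm_num
    rw [expect_congr rfl fun y _ => e8 y]
    have e10 := count_agree (m 0) (l 0) (hl 0 (by omega)) p
    have e11 : 𝔼 y : Pt N, ((if ∀ i : Fin N, (i : ℕ) < l 0 → mix (m 0) p y i = p i then
        (1 : ℝ) else 0 : ℝ) : ℂ) = ((𝔼 y : Pt N, (if ∀ i : Fin N, (i : ℕ) < l 0 →
          mix (m 0) p y i = p i then (1 : ℝ) else 0) : ℝ) : ℂ) := by
      rw [Fintype.expect_eq_sum_div_card, Fintype.expect_eq_sum_div_card]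
      push_cast
      rfl
    rw [e11, e10]
    push_cast
    rfl

/-- The word of a sequence of characters. -/
def aw (K : ℕ) (u : ℕ → Al) : ℕ → Al := fun i =>
  (if i = 0 then 1 else u (i - 1)) * (if i = K then 1 else u i)

lemma merge_aw {K i : ℕ} (hi : i ≤ K) (u : ℕ → Al) (hu : u i * u i = 1) {j : ℕ} (hj : j ≤ K) :
    mergeN i (aw (K + 1) u) j = aw K (del i u) j := by
  have d1 : ∀ t, t < i → del i u t = u t := fun t ht => by unfold del; rw [if_pos ht]
  have d2 : ∀ t, i ≤ t → del i u t = u (t + 1) := fun t ht => by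
    unfold del; rw [if_neg (by omega)]
  rcases lt_trichotomy j i with h | h | h
  · rw [mergeN_lt _ h]
    unfold aw
    rw [if_neg (by omega : ¬ j = K + 1), if_neg (by omega : ¬ j = K), d1 j h]
    by_cases h0 : j = 0
    · rw [if_pos h0, if_pos h0]
    · rw [if_neg h0, if_neg h0, d1 _ (by omega)]
  · subst h
    rw [mergeN_eq]
    unfold aw
    rw [if_neg (by omega : ¬ j = K + 1), if_neg (by omega : ¬ j + 1 = 0), Nat.add_sub_cancel,
      d2 j le_rfl]
    have e1 : (if j = 0 then (1 : Al) else u (j - 1)) =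
        if j = 0 then (1 : Al) else del j u (j - 1) := by
      by_cases h0 : j = 0
      · rw [if_pos h0, if_pos h0]
      · rw [if_neg h0, if_neg h0, d1 _ (by omega)]
    have e2 : (if j + 1 = K + 1 then (1 : Al) else u (j + 1)) =
        if j = K then (1 : Al) else u (j + 1) := by
      by_cases h0 : j = K
      · rw [if_pos h0, if_pos (by omega)]
      · rw [if_neg h0, if_neg (by omega)]
    rw [e1, e2]
    calc _ = (u j * u j) * ((if j = 0 then (1 : Al) else del j u (j - 1)) *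
          if j = K then (1 : Al) else u (j + 1)) := by ring
      _ = _ := by rw [hu, one_mul]
  · rw [mergeN_gt _ h]
    unfold aw
    rw [if_neg (by omega : ¬ j + 1 = 0), if_neg (by omega : ¬ j = 0), Nat.add_sub_cancel,
      d2 (j - 1) (by omega), d2 j (by omega)]
    have e0 : j - 1 + 1 = j := by omega
    rw [e0]
    by_cases h0 : j = K
    · rw [if_pos h0, if_pos (by omega)]
    · rw [if_neg h0, if_neg (by omega)]

lemma aw_last (K : ℕ) (u : ℕ → Al) : aw (K + 1) u (K + 1) = u K := by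
  unfold aw
  rw [if_neg (by omega), if_pos rfl, mul_one, Nat.add_sub_cancel]


end WFsec

lemma chs_sq {u : Al} (hu : u ∈ Chs) : u * u = 1 := by
  obtain ⟨T, hT⟩ := hu
  rw [← hT, ch_sq]

end

end Pool.Agent.Helper53.LB
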