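import Mathlib
import Pool.Agent.Helper53.LBbase

set_option autoImplicit false

namespace Pool.Agent.Helper53.LB

open Finset Filter Topology
open scoped BigOperators ComplexConjugate

noncomputable section

/-- The value of a chain of `K` conditional expectations on `K + 1` functions. -/
def QV (K N : ℕ) (n : ℕ → ℕ) (f : ℕ → Pt N → ℂ) : ℂ := 𝔼 x, Rc K f n (f K) x

/-- The finite game: averaged values of a cochain on the basic forms. -/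
structure Game (m : ℕ) where
  G : ℕ → (ℕ → ℕ) → (ℕ → ℕ) → ℂ
  P : ℕ → (ℕ → ℕ) → (ℕ → ℕ) → ℂ
  C : ℝ
  hC : 0 ≤ C
  congr_n : ∀ (N : ℕ) (n n' l : ℕ → ℕ), (∀ i < m + 2, n i = n' i) → G N n l = G N n' l
  congr_l : ∀ (N : ℕ) (n l l' : ℕ → ℕ), (∀ i < m + 1, l i = l' i) → G N n l = G N n l'
  bound : ∀ (N : ℕ) (l : ℕ → ℕ) (r : ℕ) (n n' : ℕ → ℕ → ℕ) (M : ℝ),
    (∀ f : ℕ → Pt N → ℂ, (∀ i x, ‖f i x‖ ≤ 1) →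
      ‖∑ t ∈ range r, (QV (m + 2) N (n t) f - QV (m + 2) N (n' t) f)‖ ≤ M) →
    ‖∑ t ∈ range r, (G N (n t) l - G N (n' t) l)‖ ≤ C * M
  rel : ∀ (N : ℕ) (n l : ℕ → ℕ),
    ∑ i ∈ range (m + 2), (-1 : ℂ) ^ i * G N n (del i l) + (-1 : ℂ) ^ (m + 2) * P N n l = 0
  P_le : ∀ (N : ℕ) (n l : ℕ → ℕ) (i : ℕ), i < m + 2 → (∀ j < m + 2, l 0 ≤ l j) →
    (∀ j < m + 2, l j ≤ N) → ‖P N n l‖ ≤ C * (1 / 2 : ℝ) ^ (l 0 - n i)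
  tame : ∀ δ : ℝ, 0 < δ → ∃ c0 : ℕ, ∀ c ≥ c0, ∀ N ≥ c, ∀ l n n' : ℕ → ℕ, (∀ i < m + 1, l i < c) →
    (∀ i, n i = n' i ∨ (n i = c ∧ N ≤ n' i)) → ‖G N n l - G N n' l‖ ≤ δ
  bdry : ∀ (N : ℕ) (μ l : ℕ → ℕ), (∀ i < m + 1, l i ≤ N) →
    ∑ i ∈ range (m + 2), (-1 : ℂ) ^ i * G N (insN i N μ) l =
      ∑ j ∈ range (m + 1), (-1 : ℂ) ^ j * ∏ i ∈ range m, (1 / 2 : ℂ) ^ (del j l i - μ i) +
        (-1 : ℂ) ^ (m + 1) * ∏ i ∈ range (m + 1), (1 / 2 : ℂ) ^ (l i - μ i)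

end

end Pool.Agent.Helper53.LB
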