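import Mathlib
import Pool.Agent.Helper53.LBgame
import Pool.Agent.Helper53.HomC
import Pool.Agent.Helper53.CxD

set_option autoImplicit false
set_option maxSynthPendingDepth 3
set_option linter.unusedSectionVars false

namespace Pool.Agent.Helper53.LB

open Finset Filter Topology
open scoped BigOperators ComplexConjugate
open Pool.Agent.Helper53.BanachHomology (Tens tens lift lift_tens tens_ext)
open Pool.Agent.Helper53.Dim3 (Van4 Coc4 d3 Bimod)

noncomputable section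

section TensorPowers

variable {X : Type} [TopologicalSpace X] [CompactSpace X]
variable {P P' : Type} [NormedAddCommGroup P] [NormedSpace ℂ P] [NormedAddCommGroup P']
  [NormedSpace ℂ P']

/-- The left action on a tensor product. -/
def lT (X : Type) [TopologicalSpace X] [CompactSpace X] (P : Type) [NormedAddCommGroup P]
    [NormedSpace ℂ P] : C(X, ℂ) →L[ℂ] Tens C(X, ℂ) P →L[ℂ] Tens C(X, ℂ) P :=
  (lift (P := C(X, ℂ)) (Q := P) (Z := Tens C(X, ℂ) P)).comp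
    ((ContinuousLinearMap.compL ℂ C(X, ℂ) C(X, ℂ) (P →L[ℂ] Tens C(X, ℂ) P) tens).comp
      (ContinuousLinearMap.mul ℂ C(X, ℂ)))

lemma lT_tens (a b : C(X, ℂ)) (t : P) : lT X P a (tens b t) = tens (a * b) t :=
  lift_tens _ _ _

/-- The operator on a tensor product induced by an operator on the second factor. -/
def idT (X : Type) [TopologicalSpace X] [CompactSpace X] :
    (P →L[ℂ] P') →L[ℂ] (Tens C(X, ℂ) P →L[ℂ] Tens C(X, ℂ) P') :=
  (lift (P := C(X, ℂ)) (Q := P) (Z := Tens C(X, ℂ) P')).comp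
    (((ContinuousLinearMap.compL ℂ C(X, ℂ) (P' →L[ℂ] Tens C(X, ℂ) P')
      (P →L[ℂ] Tens C(X, ℂ) P')).flip tens).comp
        (ContinuousLinearMap.compL ℂ P P' (Tens C(X, ℂ) P')).flip)

lemma idT_tens (β : P →L[ℂ] P') (a : C(X, ℂ)) (t : P) : idT X β (tens a t) = tens a (β t) :=
  lift_tens _ _ _

/-- The right action on a tensor product. -/
def rT (R : C(X, ℂ) →L[ℂ] P →L[ℂ] P) :
    C(X, ℂ) →L[ℂ] Tens C(X, ℂ) P →L[ℂ] Tens C(X, ℂ) P := (idT X).comp R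

lemma rT_tens (R : C(X, ℂ) →L[ℂ] P →L[ℂ] P) (a b : C(X, ℂ)) (t : P) :
    rT R a (tens b t) = tens b (R a t) := idT_tens _ _ _

/-- The next differential. -/
def bS (β : Tens C(X, ℂ) P →L[ℂ] P) : Tens C(X, ℂ) (Tens C(X, ℂ) P) →L[ℂ] Tens C(X, ℂ) P :=
  lift (P := C(X, ℂ)) (Q := Tens C(X, ℂ) P) (Z := Tens C(X, ℂ) P) (lT X P) - idT X β

lemma bS_tens (β : Tens C(X, ℂ) P →L[ℂ] P) (a : C(X, ℂ)) (t : Tens C(X, ℂ) P) :
    bS β (tens a t) = lT X P a t - tens a (β t) := by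
  have h1 : lift (P := C(X, ℂ)) (Q := Tens C(X, ℂ) P) (Z := Tens C(X, ℂ) P) (lT X P) (tens a t)
      = lT X P a t := lift_tens _ _ _
  have h2 : idT X β (tens a t) = tens a (β t) := idT_tens _ _ _
  show lift (P := C(X, ℂ)) (Q := Tens C(X, ℂ) P) (Z := Tens C(X, ℂ) P) (lT X P) (tens a t)
    - idT X β (tens a t) = _
  rw [h1, h2]

/-- The tensor powers. -/
abbrev T2 (X : Type) [TopologicalSpace X] [CompactSpace X] : Type := Tens C(X, ℂ) C(X, ℂ)
abbrev T3 (X : Type) [TopologicalSpace X] [CompactSpace X] : Type := Tens C(X, ℂ) (T2 X)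
abbrev T4 (X : Type) [TopologicalSpace X] [CompactSpace X] : Type := Tens C(X, ℂ) (T3 X)
abbrev T5 (X : Type) [TopologicalSpace X] [CompactSpace X] : Type := Tens C(X, ℂ) (T4 X)

variable (X)

/-- The differentials. -/
def b1 : T2 X →L[ℂ] C(X, ℂ) :=
  lift (P := C(X, ℂ)) (Q := C(X, ℂ)) (Z := C(X, ℂ)) (ContinuousLinearMap.mul ℂ C(X, ℂ))

def b2 : T3 X →L[ℂ] T2 X := bS (b1 X)

def b3 : T4 X →L[ℂ] T3 X := bS (b2 X)

def b4 : T5 X →L[ℂ] T4 X := bS (b3 X)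

/-- The right actions. -/
def r2 : C(X, ℂ) →L[ℂ] T2 X →L[ℂ] T2 X := rT (ContinuousLinearMap.mul ℂ C(X, ℂ))

def r3 : C(X, ℂ) →L[ℂ] T3 X →L[ℂ] T3 X := rT (r2 X)

def r4 : C(X, ℂ) →L[ℂ] T4 X →L[ℂ] T4 X := rT (r3 X)

def r5 : C(X, ℂ) →L[ℂ] T5 X →L[ℂ] T5 X := rT (r4 X)

variable {X}

/-- Elementary tensors. -/
def el (a b c d e : C(X, ℂ)) : T5 X := tens a (tens b (tens c (tens d e)))

def el4 (a b c d : C(X, ℂ)) : T4 X := tens a (tens b (tens c d))

lemma b1_tens (a b : C(X, ℂ)) : b1 X (tens a b) = a * b := lift_tens _ _ _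

lemma b2_tens (a : C(X, ℂ)) (t : T2 X) : b2 X (tens a t) = lT X C(X, ℂ) a t - tens a (b1 X t) :=
  bS_tens _ _ _

lemma b3_tens (a : C(X, ℂ)) (t : T3 X) : b3 X (tens a t) = lT X (T2 X) a t - tens a (b2 X t) :=
  bS_tens _ _ _

lemma b4_tens (a : C(X, ℂ)) (t : T4 X) : b4 X (tens a t) = lT X (T3 X) a t - tens a (b3 X t) :=
  bS_tens _ _ _

lemma r2_tens (a b c : C(X, ℂ)) : r2 X a (tens b c) = tens b (a * c) := rT_tens _ _ _ _

lemma r3_tens (a b : C(X, ℂ)) (t : T2 X) : r3 X a (tens b t) = tens b (r2 X a t) :=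
  rT_tens _ _ _ _

lemma r4_tens (a b : C(X, ℂ)) (t : T3 X) : r4 X a (tens b t) = tens b (r3 X a t) :=
  rT_tens _ _ _ _

lemma r5_tens (a b : C(X, ℂ)) (t : T4 X) : r5 X a (tens b t) = tens b (r4 X a t) :=
  rT_tens _ _ _ _

/-- Composition with a finite family of points. -/
def cp {N : ℕ} (x : Pt N → X) : C(X, ℂ) →L[ℂ] (Pt N → ℂ) :=
  LinearMap.mkContinuous
    { toFun := fun a => fun τ => a (x τ)
      map_add' := fun _ _ => rfl
      map_smul' := fun _ _ => rfl } 1 (fun a => by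
    rw [one_mul]
    exact (pi_norm_le_iff_of_nonneg (norm_nonneg a)).2 fun τ => a.norm_coe_le_norm _)

/-- Conditional expectation as an operator. -/
def ceL {N : ℕ} (n : ℕ) : (Pt N → ℂ) →L[ℂ] (Pt N → ℂ) :=
  LinearMap.mkContinuous
    { toFun := fun f => ce n f
      map_add' := fun f g => ce_add n f g
      map_smul' := fun c f => ce_smul n c f } 1 (fun f => by
    rw [one_mul]
    exact (pi_norm_le_iff_of_nonneg (norm_nonneg f)).2 fun τ =>
      norm_ce_le (fun y => norm_le_pi_norm f y) τ)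

/-- The next evaluation: `a ⊗ t ↦ a * ce n (ν t)`. -/
def nuS {N : ℕ} (x : Pt N → X) (n : ℕ) (ν : P →L[ℂ] (Pt N → ℂ)) :
    Tens C(X, ℂ) P →L[ℂ] (Pt N → ℂ) :=
  lift (P := C(X, ℂ)) (Q := P) (Z := Pt N → ℂ)
    (((ContinuousLinearMap.compL ℂ P (Pt N → ℂ) (Pt N → ℂ)).flip ((ceL n).comp ν)).comp
      ((ContinuousLinearMap.mul ℂ (Pt N → ℂ)).comp (cp x)))

lemma nuS_tens {N : ℕ} (x : Pt N → X) (n : ℕ) (ν : P →L[ℂ] (Pt N → ℂ)) (a : C(X, ℂ)) (t : P) :
    nuS x n ν (tens a t) = (fun τ => a (x τ)) * ce n (ν t) := lift_tens _ _ _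

/-- The mean. -/
def exL {N : ℕ} : (Pt N → ℂ) →L[ℂ] ℂ :=
  LinearMap.mkContinuous
    { toFun := fun f => 𝔼 τ, f τ
      map_add' := fun f g => expect_add_distrib _ _ _
      map_smul' := fun c f => (mul_expect _ _ _).symm } 1 (fun f => by
    rw [one_mul]
    exact norm_expect_le' fun y => norm_le_pi_norm f y)

/-- The basic functional on five-fold tensors. -/
def fQ {N : ℕ} (x : Pt N → X) (n : ℕ → ℕ) : T5 X →L[ℂ] ℂ :=
  exL.comp (nuS x (n 0) (nuS x (n 1) (nuS x (n 2) (nuS x (n 3) (cp x)))))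

/-- The basic functional on four-fold tensors. -/
def fR {N : ℕ} (x : Pt N → X) (n : ℕ → ℕ) : T4 X →L[ℂ] ℂ :=
  exL.comp (nuS x (n 0) (nuS x (n 1) (nuS x (n 2) (cp x))))

/-- Five functions as a sequence. -/
def seq5 {α : Type*} (a b c d e : α) : ℕ → α := fun i =>
  if i = 0 then a else if i = 1 then b else if i = 2 then c else if i = 3 then d else e

end TensorPowers

section Averages

variable {X : Type} [TopologicalSpace X] [CompactSpace X]

/-- The sizes of the boxes. -/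
def Lb : ℕ → ℕ
  | 0 => 2
  | k + 1 => 2 ^ (k + 2) * (k + 1) * Lb k

/-- The functions of a box. -/
def ub (r : ℕ → C(X, ℂ)) (k : ℕ) (e : Fin k → Fin (Lb k)) : C(X, ℂ) :=
  ∏ j : Fin k, r j ^ (e j : ℕ)

/-- The average over a box. -/
def AvB (r : ℕ → C(X, ℂ)) (k : ℕ) (φ : C(X, ℂ) → ℂ) : ℂ :=
  𝔼 e : Fin k → Fin (Lb k), φ (ub r k e)

/-- Unimodular functions. -/
def Uni (u : C(X, ℂ)) : Prop := ∀ p, ‖u p‖ = 1

lemma Lb_pos (k : ℕ) : 0 < Lb k := by
  induction k with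
  | zero => norm_num [Lb]
  | succ k ih => unfold Lb; positivity

instance (k : ℕ) : Nonempty (Fin k → Fin (Lb k)) := ⟨fun _ => ⟨0, Lb_pos k⟩⟩

lemma AvB_const (r : ℕ → C(X, ℂ)) (k : ℕ) (c : ℂ) : AvB r k (fun _ => c) = c :=
  Fintype.expect_const _

lemma AvB_add (r : ℕ → C(X, ℂ)) (k : ℕ) (φ ψ : C(X, ℂ) → ℂ) :
    AvB r k (fun u => φ u + ψ u) = AvB r k φ + AvB r k ψ := expect_add_distrib _ _ _

lemma AvB_sub (r : ℕ → C(X, ℂ)) (k : ℕ) (φ ψ : C(X, ℂ) → ℂ) :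
    AvB r k (fun u => φ u - ψ u) = AvB r k φ - AvB r k ψ := expect_sub_distrib _ _ _

lemma AvB_mul (r : ℕ → C(X, ℂ)) (k : ℕ) (c : ℂ) (φ : C(X, ℂ) → ℂ) :
    AvB r k (fun u => c * φ u) = c * AvB r k φ := (mul_expect _ _ _).symm

lemma AvB_sum {κ : Type*} (r : ℕ → C(X, ℂ)) (k : ℕ) (s : Finset κ) (φ : κ → C(X, ℂ) → ℂ) :
    AvB r k (fun u => ∑ i ∈ s, φ i u) = ∑ i ∈ s, AvB r k (φ i) := by
  unfold AvB
  rw [Finset.expect_sum_comm]

lemma Uni.norm_le {u : C(X, ℂ)} (h : Uni u) : ‖u‖ ≤ 1 := by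
  rw [ContinuousMap.norm_le _ zero_le_one]
  exact fun p => (h p).le

lemma Uni.one : Uni (1 : C(X, ℂ)) := fun p => by simp

lemma Uni.mul {u v : C(X, ℂ)} (hu : Uni u) (hv : Uni v) : Uni (u * v) := fun p => by
  rw [ContinuousMap.mul_apply, norm_mul, hu p, hv p, one_mul]

lemma Uni.star {u : C(X, ℂ)} (hu : Uni u) : Uni (star u) := fun p => by
  rw [ContinuousMap.star_apply, norm_star, hu p]

lemma Uni.star_mul {u : C(X, ℂ)} (hu : Uni u) : Star.star u * u = 1 := by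
  ext p
  rw [ContinuousMap.mul_apply, ContinuousMap.star_apply, ContinuousMap.one_apply]
  have h := RCLike.conj_mul (u p)
  rw [hu p] at h
  simpa using h

lemma Uni.mul_star {u : C(X, ℂ)} (hu : Uni u) : u * Star.star u = 1 := by
  rw [mul_comm, hu.star_mul]

lemma Uni.pow {u : C(X, ℂ)} (hu : Uni u) (n : ℕ) : Uni (u ^ n) := by
  induction n with
  | zero => rw [pow_zero]; exact Uni.one
  | succ n ih => rw [pow_succ]; exact ih.mul hu

lemma Uni.prod {κ : Type*} (s : Finset κ) (u : κ → C(X, ℂ)) (hu : ∀ i ∈ s, Uni (u i)) :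
    Uni (∏ i ∈ s, u i) := by
  classical
  induction s using Finset.induction_on with
  | empty => rw [prod_empty]; exact Uni.one
  | insert j s hj ih =>
    rw [prod_insert hj]
    exact (hu j (mem_insert_self _ _)).mul (ih fun i hi => hu i (mem_insert_of_mem hi))

lemma uni_ub {r : ℕ → C(X, ℂ)} (hr : ∀ j, Uni (r j)) (k : ℕ) (e : Fin k → Fin (Lb k)) :
    Uni (ub r k e) := Uni.prod _ _ fun i _ => (hr i).pow _

lemma AvB_norm_le {r : ℕ → C(X, ℂ)} (hr : ∀ j, Uni (r j)) (k : ℕ) {φ : C(X, ℂ) → ℂ} {M : ℝ}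
    (h : ∀ u, Uni u → ‖φ u‖ ≤ M) : ‖AvB r k φ‖ ≤ M := by
  refine (RCLike.norm_expect_le (K := ℂ)).trans ?_
  exact expect_le univ_nonempty fun e _ => h _ (uni_ub hr k e)

lemma AvB_congr {r : ℕ → C(X, ℂ)} (hr : ∀ j, Uni (r j)) (k : ℕ) {φ ψ : C(X, ℂ) → ℂ}
    (h : ∀ u, Uni u → φ u = ψ u) : AvB r k φ = AvB r k ψ :=
  expect_congr rfl fun e _ => h _ (uni_ub hr k e)

end Averages

section Words

variable {X : Type} [TopologicalSpace X] [CompactSpace X]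
variable (s : C(X, ℂ) →L[ℂ] C(X, ℂ) →L[ℂ] C(X, ℂ) →L[ℂ] T5 X)

/-- The basic word. -/
def word (u0 u1 u2 : C(X, ℂ)) : T5 X :=
  lT X (T4 X) (star u0) (s (u0 * star u1) (u1 * star u2) u2)

/-- The basic word with a right multiplication. -/
def word4 (u0 u1 u2 u3 : C(X, ℂ)) : T5 X :=
  r5 X u3 (lT X (T4 X) (star u0) (s (u0 * star u1) (u1 * star u2) (u2 * star u3)))

/-- The averaged values. -/
def G3 {N : ℕ} (x : Pt N → X) (r : ℕ → C(X, ℂ)) (n l : ℕ → ℕ) : ℂ :=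
  AvB r (l 0) fun u0 => AvB r (l 1) fun u1 => AvB r (l 2) fun u2 => fQ x n (word s u0 u1 u2)

/-- The remainder. -/
def P4 {N : ℕ} (x : Pt N → X) (r : ℕ → C(X, ℂ)) (n l : ℕ → ℕ) : ℂ :=
  AvB r (l 0) fun u0 => AvB r (l 1) fun u1 => AvB r (l 2) fun u2 => AvB r (l 3) fun u3 =>
    fQ x n (word4 s u0 u1 u2 u3)

end Words

end

end Pool.Agent.Helper53.LB
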