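import Mathlib
import Pool.Agent.Helper53.LBx

set_option autoImplicit false
set_option maxSynthPendingDepth 3
set_option linter.unusedSectionVars false

namespace Pool.Agent.Helper53.LB

open Finset Filter Topology
open scoped BigOperators ComplexConjugate

noncomputable section

section Averages

variable {X : Type} [TopologicalSpace X] [CompactSpace X]


theorem expect_parity (L k : ℕ) (hL : 0 < L) (M : ℕ) (hM : M = L * 2) (G : (Fin k → Fin 2) → ℂ) :
    𝔼 e : Fin k → Fin M, G (fun j => ⟨(e j : ℕ) % 2, Nat.mod_lt _ two_pos⟩) = 𝔼 p : Fin k → Fin 2, G p := by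
  subst hM
  have : Nonempty (Fin k → Fin L) := ⟨fun _ => ⟨0, hL⟩⟩
  let E : (Fin k → Fin (L * 2)) ≃ (Fin k → Fin L) × (Fin k → Fin 2) :=
    (Equiv.arrowCongr (Equiv.refl _) finProdFinEquiv.symm).trans
      (Equiv.arrowProdEquivProdArrow (Fin k) (fun _ => Fin L) (fun _ => Fin 2))
  have h1 : 𝔼 e : Fin k → Fin (L * 2), G (fun j => ⟨(e j : ℕ) % 2, Nat.mod_lt _ two_pos⟩)
      = 𝔼 q : (Fin k → Fin L) × (Fin k → Fin 2), G q.2 := by
    apply Fintype.expect_equiv E
    intro e
    rfl
  rw [h1, ← univ_product_univ, expect_product' univ univ (fun _ p => G p)]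
  exact Fintype.expect_const _

theorem bs_pow_mod (b : Bool) (n : ℕ) : bs b ^ n = bs b ^ (n % 2) := by
  have h1 : bs b ^ 2 = 1 := by cases b <;> simp [bs]
  conv_lhs => rw [← Nat.div_add_mod n 2]
  rw [pow_add, pow_mul, h1, one_pow, one_mul]

theorem expect_pattern (k : ℕ) (G : (Fin k → Fin 2) → ℂ) (H : Finset ℕ → ℂ)
    (h : ∀ p : Fin k → Fin 2, G p = H ((univ.filter (fun j => p j = 1)).map Fin.valEmbedding)) :
    𝔼 p : Fin k → Fin 2, G p = 𝔼 T ∈ (range k).powerset, H T := by
  refine expect_nbij' (fun p : Fin k → Fin 2 => (univ.filter (fun j => p j = 1)).map Fin.valEmbedding)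
    (fun T : Finset ℕ => fun j : Fin k => if (j : ℕ) ∈ T then 1 else 0) ?_ ?_ ?_ ?_ ?_
  · intro p _
    rw [mem_powerset]
    intro x hx
    simp only [Finset.mem_map, mem_filter, mem_univ, true_and, Fin.valEmbedding_apply] at hx
    obtain ⟨j, -, rfl⟩ := hx
    exact mem_range.2 j.2
  · intro T _
    exact mem_univ _
  · intro p _
    funext j
    have : (j : ℕ) ∈ (univ.filter (fun j => p j = 1)).map Fin.valEmbedding ↔ p j = 1 := by
      simp only [Finset.mem_map, mem_filter, mem_univ, true_and, Fin.valEmbedding_apply]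
      constructor
      · rintro ⟨i, hi, hij⟩
        rw [← Fin.ext hij]
        exact hi
      · intro hj
        exact ⟨j, hj, rfl⟩
    by_cases hj : p j = 1
    · simp only [this, hj, if_true]
    · simp only [this, hj, if_false]
      have h2 := (p j).2
      have h3 : (p j : ℕ) ≠ 1 := fun h4 => hj (Fin.ext h4)
      apply Fin.ext
      show 0 = (p j : ℕ)
      omega
  · intro T hT
    rw [mem_powerset] at hT
    ext x
    simp only [Finset.mem_map, mem_filter, mem_univ, true_and, Fin.valEmbedding_apply]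
    constructor
    · rintro ⟨j, hj, rfl⟩
      by_contra hcon
      rw [if_neg hcon] at hj
      exact absurd hj (by decide)
    · intro hx
      exact ⟨⟨x, mem_range.1 (hT hx)⟩, by simp [hx], rfl⟩
  · intro p _
    exact h p

theorem Lb_even (k : ℕ) : ∃ L, 0 < L ∧ Lb k = L * 2 := by
  have hpos : ∀ k, 0 < Lb k := by
    intro k
    induction k with
    | zero => unfold Lb; norm_num
    | succ k ih => unfold Lb; positivity
  rcases k with _ | k
  · exact ⟨1, one_pos, rfl⟩
  · refine ⟨2 ^ (k + 1) * (k + 1) * Lb k, by have := hpos k; positivity, ?_⟩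
    show 2 ^ (k + 2) * (k + 1) * Lb k = 2 ^ (k + 1) * (k + 1) * Lb k * 2
    ring

theorem AvB_pt {N : ℕ} (x : Pt N → X) (r : ℕ → C(X, ℂ))
    (hr : ∀ j < N, ∀ τ, r j (x τ) = bs (emb N τ j)) {k : ℕ} (hk : k ≤ N)
    (Ψ : (Pt N → ℂ) → ℂ) : AvB r k (fun u => Ψ (fun τ => u (x τ))) = Av k (fun w => Ψ (rs N w)) := by
  obtain ⟨L, hL, hLb⟩ := Lb_even k
  unfold AvB
  rw [Av_apply]
  set G : (Fin k → Fin 2) → ℂ := fun p => Ψ (fun τ => ∏ j : Fin k, bs (emb N τ j) ^ (p j : ℕ)) with hG
  have h1 : ∀ e : Fin k → Fin (Lb k), Ψ (fun τ => ub r k e (x τ)) =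
      G (fun j => ⟨(e j : ℕ) % 2, Nat.mod_lt _ two_pos⟩) := by
    intro e
    simp only [hG]
    congr 1
    funext τ
    unfold ub
    rw [ContinuousMap.coe_prod, Finset.prod_apply]
    apply prod_congr rfl
    intro j _
    rw [ContinuousMap.coe_pow, Pi.pow_apply, hr j (by omega) τ]
    exact bs_pow_mod _ _
  rw [expect_congr rfl fun e _ => h1 e, expect_parity L k hL (Lb k) hLb G]
  apply expect_pattern
  intro p
  simp only [hG]
  congr 1
  funext τ
  show _ = ch _ (emb N τ)
  rw [ch_apply, prod_map, prod_filter]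
  apply prod_congr rfl
  intro j _
  by_cases hj : p j = 1
  · rw [hj, if_pos rfl]
    simp
  · rw [if_neg hj]
    have h2 := (p j).2
    have h3 : (p j : ℕ) ≠ 1 := fun h4 => hj (Fin.ext h4)
    have h4 : (p j : ℕ) = 0 := by omega
    rw [h4, pow_zero]


end Averages

end

end Pool.Agent.Helper53.LB
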