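import Mathlib
import Pool.Agent.Helper53.LBx

set_option autoImplicit false
set_option maxSynthPendingDepth 3
set_option linter.unusedSectionVars false

namespace Pool.Agent.Helper53.LB

open Finset Filter Topology
open scoped BigOperators ComplexConjugate

noncomputable section

section Averages

variable {X : Type} [TopologicalSpace X] [CompactSpace X]


theorem b2_Lb_pos (k : ℕ) : 0 < Lb k := by
  induction k with
  | zero => simp [Lb]
  | succ k ih => rw [Lb]; positivity

theorem Lb_le_succ (k : ℕ) : Lb k ≤ Lb (k + 1) := by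
  rw [Lb]
  exact Nat.le_mul_of_pos_left _ (by positivity)

theorem Lb_mono : Monotone Lb := monotone_nat_of_le_succ Lb_le_succ

theorem Uni_pow_aux {u : C(X, ℂ)} (hu : Uni u) (n : ℕ) : Uni (u ^ n) := by
  intro p
  simp [hu p]

theorem Uni_mul_aux {u v : C(X, ℂ)} (hu : Uni u) (hv : Uni v) : Uni (u * v) := by
  intro p
  simp [hu p, hv p]

theorem Uni_prod_aux {ι : Type} (t : Finset ι) (f : ι → C(X, ℂ)) (hf : ∀ i, Uni (f i)) :
    Uni (∏ i ∈ t, f i) := by
  classical
  induction t using Finset.induction_on with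
  | empty => intro p; simp
  | insert a t ha ih =>
    rw [Finset.prod_insert ha]
    exact Uni_mul_aux (hf a) ih

theorem Uni_ub_aux (r : ℕ → C(X, ℂ)) (hr : ∀ j, Uni (r j)) (k : ℕ) (e : Fin k → Fin (Lb k)) :
    Uni (ub r k e) := by
  unfold ub
  exact Uni_prod_aux _ _ (fun j => Uni_pow_aux (hr j) _)

/-- The shift vector. -/
def shv {k : ℕ} (e : Fin k → Fin (Lb k)) (i : ℕ) : ℕ :=
  if h : i < k then (e ⟨i, h⟩ : ℕ) else 0

theorem shv_lt {k : ℕ} (e : Fin k → Fin (Lb k)) (i : ℕ) : shv e i < Lb k := by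
  unfold shv
  split_ifs with h
  · exact (e ⟨i, h⟩).2
  · exact b2_Lb_pos k

theorem ub_eq_shv (r : ℕ → C(X, ℂ)) {k k' : ℕ} (hk : k < k') (e : Fin k → Fin (Lb k)) :
    ub r k e = ∏ j : Fin k', r j ^ shv e j := by
  have h1 : ∏ j : Fin k', r j ^ shv e j = ∏ i ∈ range k', r i ^ shv e i :=
    Fin.prod_univ_eq_prod_range (fun i => r i ^ shv e i) k'
  have h2 : ∏ j : Fin k, r j ^ shv e j = ∏ i ∈ range k, r i ^ shv e i :=
    Fin.prod_univ_eq_prod_range (fun i => r i ^ shv e i) k
  have h3 : ∏ i ∈ range k, r i ^ shv e i = ∏ i ∈ range k', r i ^ shv e i := by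
    apply Finset.prod_subset (Finset.range_mono hk.le)
    intro i _ hi
    rw [Finset.mem_range] at hi
    simp [shv, hi]
  rw [h1, ← h3, ← h2]
  unfold ub
  apply Finset.prod_congr rfl
  intro j _
  simp [shv]

theorem sum_shv_le {k k' : ℕ} (hk : k < k') (e : Fin k → Fin (Lb k)) :
    ∑ j : Fin k', shv e j ≤ k * Lb k := by
  have h1 : ∑ j : Fin k', shv e j = ∑ i ∈ range k', shv e i :=
    Fin.sum_univ_eq_sum_range (fun i => shv e i) k'
  have h3 : ∑ i ∈ range k, shv e i = ∑ i ∈ range k', shv e i := by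
    apply Finset.sum_subset (Finset.range_mono hk.le)
    intro i _ hi
    rw [Finset.mem_range] at hi
    simp [shv, hi]
  rw [h1, ← h3]
  calc ∑ i ∈ range k, shv e i ≤ ∑ i ∈ range k, Lb k :=
        Finset.sum_le_sum (fun i _ => (shv_lt e i).le)
    _ = k * Lb k := by simp

theorem card_bad_one {n L : ℕ} (j : Fin n) (s : ℕ) :
    (univ.filter (fun e' : Fin n → Fin L => L ≤ (e' j : ℕ) + s)).card ≤ s * L ^ (n - 1) := by
  classical
  have hsub : (univ.filter (fun e' : Fin n → Fin L => L ≤ (e' j : ℕ) + s)) ⊆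
      Fintype.piFinset (fun i : Fin n =>
        if i = j then (univ.filter (fun x : Fin L => L ≤ (x : ℕ) + s)) else univ) := by
    intro e' he'
    rw [Finset.mem_filter] at he'
    rw [Fintype.mem_piFinset]
    intro i
    by_cases hi : i = j
    · subst hi
      simp [he'.2]
    · simp [hi]
  refine (Finset.card_le_card hsub).trans ?_
  rw [Fintype.card_piFinset]
  have h1 : ∀ i : Fin n, (if i = j then (univ.filter (fun x : Fin L => L ≤ (x : ℕ) + s))
      else univ).card = if i = j then (univ.filter (fun x : Fin L => L ≤ (x : ℕ) + s)).card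
        else L := by
    intro i
    split_ifs <;> simp
  rw [Finset.prod_congr rfl (fun i _ => h1 i)]
  rw [← Finset.mul_prod_erase _ _ (Finset.mem_univ j)]
  have h2 : ∏ x ∈ univ.erase j, (if x = j then
      (univ.filter (fun x : Fin L => L ≤ (x : ℕ) + s)).card else L) = L ^ (n - 1) := by
    rw [Finset.prod_congr rfl (g := fun _ => L)]
    · rw [Finset.prod_const, Finset.card_erase_of_mem (Finset.mem_univ j)]
      simp
    · intro x hx
      rw [Finset.mem_erase] at hx
      simp [hx.1]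
  rw [h2, if_pos rfl]
  apply Nat.mul_le_mul_right
  have h3 : (univ.filter (fun x : Fin L => L ≤ (x : ℕ) + s)).card =
      ((univ.filter (fun x : Fin L => L ≤ (x : ℕ) + s)).image (Fin.val)).card := by
    rw [Finset.card_image_of_injective _ Fin.val_injective]
  rw [h3]
  calc _ ≤ (Finset.Ico (L - s) L).card := by
        apply Finset.card_le_card
        intro x hx
        rw [Finset.mem_image] at hx
        obtain ⟨y, hy, rfl⟩ := hx
        rw [Finset.mem_filter] at hy
        rw [Finset.mem_Ico]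
        exact ⟨by omega, y.2⟩
    _ ≤ s := by rw [Nat.card_Ico]; omega

theorem card_bad {k k' : ℕ} (hk : k < k') (e : Fin k → Fin (Lb k)) :
    (univ.filter (fun e' : Fin k' → Fin (Lb k') =>
      ∃ j : Fin k', Lb k' ≤ (e' j : ℕ) + shv e j)).card ≤ k * Lb k * Lb k' ^ (k' - 1) := by
  classical
  have hsub : (univ.filter (fun e' : Fin k' → Fin (Lb k') =>
      ∃ j : Fin k', Lb k' ≤ (e' j : ℕ) + shv e j)) ⊆
      (univ : Finset (Fin k')).biUnion (fun j =>
        univ.filter (fun e' : Fin k' → Fin (Lb k') => Lb k' ≤ (e' j : ℕ) + shv e j)) := by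
    intro e' he'
    rw [Finset.mem_filter] at he'
    obtain ⟨-, j, hj⟩ := he'
    rw [Finset.mem_biUnion]
    exact ⟨j, Finset.mem_univ _, by simp [hj]⟩
  refine (Finset.card_le_card hsub).trans ?_
  refine Finset.card_biUnion_le.trans ?_
  refine (Finset.sum_le_sum (fun j _ => card_bad_one j (shv e j))).trans ?_
  rw [← Finset.sum_mul]
  exact Nat.mul_le_mul_right _ (sum_shv_le hk e)

theorem AvB_shift (r : ℕ → C(X, ℂ)) (hr : ∀ j, Uni (r j)) {k k' : ℕ} (hk : k < k')
    (e : Fin k → Fin (Lb k)) (φ : C(X, ℂ) → ℂ) (M : ℝ) (hφ : ∀ u, Uni u → ‖φ u‖ ≤ M) :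
    ‖AvB r k' (fun u => φ (ub r k e * u)) - AvB r k' φ‖ ≤ M * (1 / 2 : ℝ) ^ k := by
  classical
  have hM : 0 ≤ M := (norm_nonneg _).trans (hφ 1 (by intro p; simp))
  have hLpos : 0 < Lb k' := b2_Lb_pos k'
  have : NeZero (Lb k') := ⟨hLpos.ne'⟩
  have hkk : Lb k ≤ Lb k' := Lb_mono hk.le
  -- the cyclic shift
  set t : Fin k' → Fin (Lb k') := fun j => ⟨shv e j, (shv_lt e j).trans_le hkk⟩ with ht
  have hre : AvB r k' φ = 𝔼 e' : Fin k' → Fin (Lb k'), φ (ub r k' (e' + t)) := by
    unfold AvB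
    exact (Fintype.expect_equiv (Equiv.addRight t) _ _ (fun e' => by simp)).symm
  rw [hre]
  unfold AvB
  rw [← Finset.expect_sub_distrib]
  -- pointwise
  have hpt : ∀ e' : Fin k' → Fin (Lb k'),
      ‖φ (ub r k e * ub r k' e') - φ (ub r k' (e' + t))‖ ≤
        if (∃ j : Fin k', Lb k' ≤ (e' j : ℕ) + shv e j) then 2 * M else 0 := by
    intro e'
    split_ifs with hb
    · calc _ ≤ ‖φ (ub r k e * ub r k' e')‖ + ‖φ (ub r k' (e' + t))‖ := norm_sub_le _ _
        _ ≤ M + M := add_le_add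
            (hφ _ (Uni_mul_aux (Uni_ub_aux r hr k e) (Uni_ub_aux r hr k' e')))
            (hφ _ (Uni_ub_aux r hr k' _))
        _ = 2 * M := by ring
    · push Not at hb
      have he : ub r k e * ub r k' e' = ub r k' (e' + t) := by
        rw [ub_eq_shv r hk e]
        unfold ub
        rw [← Finset.prod_mul_distrib]
        apply Finset.prod_congr rfl
        intro j _
        rw [← pow_add]
        congr 1
        have h1 : ((e' + t) j : ℕ) = ((e' j : ℕ) + shv e j) % Lb k' := by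
          rw [Pi.add_apply, Fin.val_add]
        rw [h1, Nat.mod_eq_of_lt (hb j)]
        ring
      rw [he, sub_self, norm_zero]
  have hcard := card_bad hk e
  have hstep : ‖𝔼 e' : Fin k' → Fin (Lb k'),
      (φ (ub r k e * ub r k' e') - φ (ub r k' (e' + t)))‖ ≤
      ((Fintype.card (Fin k' → Fin (Lb k')) : ℝ))⁻¹ *
        (((univ.filter (fun e' : Fin k' → Fin (Lb k') =>
          ∃ j : Fin k', Lb k' ≤ (e' j : ℕ) + shv e j)).card : ℝ) * (2 * M)) := by
    rw [Fintype.expect_eq_sum_div_card, norm_div]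
    have h1 : ‖((Fintype.card (Fin k' → Fin (Lb k')) : ℕ) : ℂ)‖ =
        (Fintype.card (Fin k' → Fin (Lb k')) : ℝ) := by simp
    rw [h1, div_eq_inv_mul]
    apply mul_le_mul_of_nonneg_left _ (by positivity)
    refine (norm_sum_le _ _).trans ?_
    refine (Finset.sum_le_sum (fun e' _ => hpt e')).trans ?_
    rw [← Finset.sum_filter, Finset.sum_const, nsmul_eq_mul]
  refine hstep.trans ?_
  have hc2 : (Fintype.card (Fin k' → Fin (Lb k')) : ℝ) = (Lb k' : ℝ) ^ k' := by
    simp
  rw [hc2]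
  have hc3 : (((univ.filter (fun e' : Fin k' → Fin (Lb k') =>
          ∃ j : Fin k', Lb k' ≤ (e' j : ℕ) + shv e j)).card : ℝ)) ≤
      (k : ℝ) * Lb k * (Lb k' : ℝ) ^ (k' - 1) := by
    exact_mod_cast hcard
  have hL0 : (0 : ℝ) < Lb k' := by exact_mod_cast hLpos
  have hpw : (Lb k' : ℝ) ^ k' = (Lb k' : ℝ) ^ (k' - 1) * Lb k' := by
    rw [← pow_succ]
    congr 1
    omega
  have hL1 : (2 : ℝ) ^ (k + 2) * (k + 1) * Lb k ≤ Lb k' := by
    have h1 : Lb (k + 1) ≤ Lb k' := Lb_mono hk
    rw [Lb] at h1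
    exact_mod_cast h1
  have hLk : (0 : ℝ) < Lb k := by exact_mod_cast b2_Lb_pos k
  calc ((Lb k' : ℝ) ^ k')⁻¹ * ((((univ.filter (fun e' : Fin k' → Fin (Lb k') =>
          ∃ j : Fin k', Lb k' ≤ (e' j : ℕ) + shv e j)).card : ℝ)) * (2 * M))
      ≤ ((Lb k' : ℝ) ^ k')⁻¹ * (((k : ℝ) * Lb k * (Lb k' : ℝ) ^ (k' - 1)) * (2 * M)) := by
        apply mul_le_mul_of_nonneg_left _ (by positivity)
        exact mul_le_mul_of_nonneg_right hc3 (by positivity)
    _ = ((k : ℝ) * Lb k / Lb k') * (2 * M) := by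
        rw [hpw]
        field_simp
    _ ≤ (1 / 2 : ℝ) ^ (k + 1) * M := by
        have h1 : (k : ℝ) * Lb k / Lb k' ≤ (1 / 2 : ℝ) ^ (k + 2) := by
          rw [div_le_iff₀ hL0]
          have h2 : (1 / 2 : ℝ) ^ (k + 2) * ((2 : ℝ) ^ (k + 2) * (k + 1) * Lb k) ≤
              (1 / 2 : ℝ) ^ (k + 2) * Lb k' :=
            mul_le_mul_of_nonneg_left hL1 (by positivity)
          have h3 : (1 / 2 : ℝ) ^ (k + 2) * ((2 : ℝ) ^ (k + 2) * (k + 1) * Lb k) =
              (k + 1) * Lb k := by
            rw [one_div, inv_pow]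
            field_simp
          rw [h3] at h2
          nlinarith
        calc ((k : ℝ) * Lb k / Lb k') * (2 * M) ≤ (1 / 2 : ℝ) ^ (k + 2) * (2 * M) :=
              mul_le_mul_of_nonneg_right h1 (by positivity)
          _ = (1 / 2 : ℝ) ^ (k + 1) * M := by ring
    _ ≤ M * (1 / 2 : ℝ) ^ k := by
        rw [pow_succ]
        have : 0 ≤ (1 / 2 : ℝ) ^ k := by positivity
        nlinarith [mul_nonneg hM this]

end Averages

end

end Pool.Agent.Helper53.LB
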