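import Mathlib
import Pool.Agent.Helper53.LBx

set_option autoImplicit false
set_option maxSynthPendingDepth 3
set_option linter.unusedSectionVars false

namespace Pool.Agent.Helper53.LB

open Finset Filter Topology
open scoped BigOperators ComplexConjugate

noncomputable section

section Embedding

variable {X : Type} [TopologicalSpace X] [CompactSpace X] [T2Space X]

lemma cb_closed (n : ℕ) : IsClosed (CX.cb X n) := by
  cases n with
  | zero => exact isClosed_univ
  | succ n => exact isClosed_derivedSet _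

lemma cb_sub (n : ℕ) : CX.cb X (n + 1) ⊆ CX.cb X n :=
  (isClosed_iff_derivedSet_subset _).1 (cb_closed n)

/-- a unimodular function separating two finite sets -/
lemma sep_unimodular (F0 F1 : Set X) (h0 : F0.Finite) (h1 : F1.Finite) (hd : Disjoint F0 F1) :
    ∃ (u : C(X, ℂ)) (U0 U1 : Set X), Uni u ∧ IsOpen U0 ∧ IsOpen U1 ∧ F0 ⊆ U0 ∧ F1 ⊆ U1 ∧
      (∀ p ∈ U0, u p = 1) ∧ (∀ p ∈ U1, u p = -1) := by
  obtain ⟨θ, g0, g1, -⟩ := exists_continuous_zero_one_of_isClosed h0.isClosed h1.isClosed hd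
  let g : X → ℝ := fun p => max 0 (min 1 (3 * θ p - 1))
  have hg : Continuous g := by
    have := θ.continuous
    fun_prop
  let u : C(X, ℂ) := ⟨fun p => Complex.exp (((Real.pi * g p : ℝ) : ℂ) * Complex.I), by fun_prop⟩
  refine ⟨u, {p | θ p < 1 / 3}, {p | 2 / 3 < θ p}, ?_, ?_, ?_, ?_, ?_, ?_, ?_⟩
  · intro p
    exact Complex.norm_exp_ofReal_mul_I _
  · exact isOpen_lt θ.continuous continuous_const
  · exact isOpen_lt continuous_const θ.continuous
  · intro p hp
    have := g0 hp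
    simp only [Set.mem_setOf_eq]
    rw [this]
    norm_num
  · intro p hp
    have := g1 hp
    simp only [Set.mem_setOf_eq]
    rw [this]
    norm_num
  · intro p hp
    have h2 : g p = 0 := by
      simp only [Set.mem_setOf_eq] at hp
      apply max_eq_left
      exact (min_le_right _ _).trans (by linarith)
    show Complex.exp (((Real.pi * g p : ℝ) : ℂ) * Complex.I) = 1
    rw [h2]
    simp
  · intro p hp
    have h2 : g p = 1 := by
      simp only [Set.mem_setOf_eq] at hp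
      show max 0 (min 1 (3 * θ p - 1)) = 1
      rw [min_eq_left (by linarith)]
      norm_num
    show Complex.exp (((Real.pi * g p : ℝ) : ℂ) * Complex.I) = -1
    rw [h2]
    simp

/-- the data after `k` steps -/
def Stage (N : ℕ) (Φ : (k : ℕ) → (Fin k → C(X, ℂ)) → Finset C(X, ℂ))
    (η : (k : ℕ) → (Fin k → C(X, ℂ)) → ℝ) (k : ℕ) (y : Pt k → X) (O : Pt k → Set X)
    (r : ℕ → C(X, ℂ)) : Prop :=
  Function.Injective y ∧ (∀ σ, y σ ∈ CX.cb X (N - k)) ∧ (∀ σ, IsOpen (O σ) ∧ y σ ∈ O σ) ∧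
  (∀ j, Uni (r j)) ∧ (∀ (j : ℕ) (hj : j < k) (σ : Pt k), ∀ p ∈ O σ, r j p = bs (σ ⟨j, hj⟩)) ∧
  (∀ k' < k, ∀ c, k' < c → ∀ f ∈ Φ k' (fun j : Fin k' => r j), ∀ σ σ' : Pt k,
    (∀ i : Fin k, (i : ℕ) < c → σ i = σ' i) → ∀ p ∈ O σ, ∀ q ∈ O σ',
      ‖f p - f q‖ ≤ η k' (fun j : Fin k' => r j))

lemma stage_zero (hcb : ∀ n, (CX.cb X n).Nonempty) (N : ℕ)
    (Φ : (k : ℕ) → (Fin k → C(X, ℂ)) → Finset C(X, ℂ)) (η : (k : ℕ) → (Fin k → C(X, ℂ)) → ℝ) :
    ∃ (y : Pt 0 → X) (O : Pt 0 → Set X) (r : ℕ → C(X, ℂ)), Stage N Φ η 0 y O r := by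
  obtain ⟨y0, hy0⟩ := hcb N
  refine ⟨fun _ => y0, fun _ => Set.univ, fun _ => 1, ?_, ?_, ?_, ?_, ?_, ?_⟩
  · intro a b _
    exact Subsingleton.elim a b
  · intro _
    exact hy0
  · intro _
    exact ⟨isOpen_univ, Set.mem_univ _⟩
  · intro j p
    simp
  · intro j hj
    exact absurd hj (Nat.not_lt_zero j)
  · intro k' hk'
    exact absurd hk' (Nat.not_lt_zero k')

lemma stage_succ (N : ℕ)
    (Φ : (k : ℕ) → (Fin k → C(X, ℂ)) → Finset C(X, ℂ)) (η : (k : ℕ) → (Fin k → C(X, ℂ)) → ℝ)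
    (hη : ∀ k r, 0 < η k r) (k : ℕ) (hk : k < N) (y : Pt k → X) (O : Pt k → Set X)
    (r : ℕ → C(X, ℂ)) (hS : Stage N Φ η k y O r) :
    ∃ (y : Pt (k + 1) → X) (O : Pt (k + 1) → Set X) (r : ℕ → C(X, ℂ)),
      Stage N Φ η (k + 1) y O r := by
  obtain ⟨s1, s2, s3, s4, s5, s6⟩ := hS
  -- disjoint neighbourhoods
  obtain ⟨U, hU, hUd⟩ := (Set.finite_range y).t2_separation
  -- small neighbourhoods
  let O' : Pt k → Set X := fun σ => (O σ ∩ U (y σ)) ∩
    ⋂ f ∈ Φ k (fun j : Fin k => r j), {p | ‖f p - f (y σ)‖ < η k (fun j : Fin k => r j) / 2}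
  have hO'o : ∀ σ, IsOpen (O' σ) := by
    intro σ
    apply IsOpen.inter ((s3 σ).1.inter (hU _).2)
    apply isOpen_biInter_finset
    intro f _
    apply isOpen_lt ?_ continuous_const
    have := f.continuous
    fun_prop
  have hO'y : ∀ σ, y σ ∈ O' σ := by
    intro σ
    refine ⟨⟨(s3 σ).2, (hU _).1⟩, ?_⟩
    simp only [Set.mem_iInter, Set.mem_setOf_eq, sub_self, norm_zero]
    intro _ _
    have := hη k (fun j : Fin k => r j)
    linarith
  have hO'O : ∀ σ, O' σ ⊆ O σ := fun σ p hp => hp.1.1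
  have hO'd : ∀ σ σ' p, p ∈ O' σ → p ∈ O' σ' → σ = σ' := by
    intro σ σ' p hp hp'
    by_contra hne
    have h1 := hUd (Set.mem_range_self σ) (Set.mem_range_self σ') (fun h => hne (s1 h))
    exact Set.disjoint_left.1 h1 hp.1.2 hp'.1.2
  have hO'f : ∀ σ, ∀ f ∈ Φ k (fun j : Fin k => r j), ∀ p ∈ O' σ, ∀ q ∈ O' σ,
      ‖f p - f q‖ ≤ η k (fun j : Fin k => r j) := by
    intro σ f hf p hp q hq
    have h1 := hp.2
    have h2 := hq.2
    simp only [Set.mem_iInter, Set.mem_setOf_eq] at h1 h2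
    have h3 := h1 f hf
    have h4 := h2 f hf
    have h5 : f p - f q = (f p - f (y σ)) - (f q - f (y σ)) := by ring
    rw [h5]
    have h6 := norm_sub_le (f p - f (y σ)) (f q - f (y σ))
    linarith
  -- new points
  have hnew : ∀ σ, ∃ z, z ∈ O' σ ∧ z ∈ CX.cb X (N - (k + 1)) ∧ z ≠ y σ := by
    intro σ
    have h1 := s2 σ
    have h2 : N - k = (N - (k + 1)) + 1 := by omega
    rw [h2] at h1
    have h3 : AccPt (y σ) (𝓟 (CX.cb X (N - (k + 1)))) := h1
    rw [accPt_iff_nhds] at h3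
    obtain ⟨z, hz, hne⟩ := h3 (O' σ) ((hO'o σ).mem_nhds (hO'y σ))
    exact ⟨z, hz.1, hz.2, hne⟩
  choose z hz1 hz2 hz3 using hnew
  let y' : Pt (k + 1) → X := fun τ =>
    if τ (Fin.last k) then z (Fin.init τ) else y (Fin.init τ)
  have hy'O : ∀ τ, y' τ ∈ O' (Fin.init τ) := by
    intro τ
    by_cases h : τ (Fin.last k)
    · simp only [y', h, if_true]
      exact hz1 _
    · simp only [y', h]
      exact hO'y _
  have hinj : Function.Injective y' := by
    intro τ τ' h
    have h1 : (Fin.init τ : Pt k) = Fin.init τ' := by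
      apply hO'd _ _ (y' τ) (hy'O τ)
      rw [h]
      exact hy'O τ'
    have h2 : τ (Fin.last k) = τ' (Fin.last k) := by
      simp only [y', h1] at h
      cases h3 : τ (Fin.last k) <;> cases h4 : τ' (Fin.last k)
      · rfl
      · simp only [h3, h4] at h
        exact absurd h.symm (hz3 _)
      · simp only [h3, h4] at h
        exact absurd h (hz3 _)
      · rfl
    rw [← Fin.snoc_init_self τ, ← Fin.snoc_init_self τ', h1, h2]
  have hdis : Disjoint (y' '' {τ | τ (Fin.last k) = false}) (y' '' {τ | τ (Fin.last k) = true}) := by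
    rw [Set.disjoint_left]
    rintro p ⟨τ, h1, h2⟩ ⟨τ', h3, h4⟩
    rw [← h4] at h2
    have h5 := hinj h2
    rw [Set.mem_setOf_eq] at h1 h3
    rw [h5, h3] at h1
    exact absurd h1 (by simp)
  obtain ⟨u, U0, U1, hu, hU0, hU1, hF0, hF1, hu0, hu1⟩ :=
    sep_unimodular _ _ ((Set.toFinite _).image y') ((Set.toFinite _).image y') hdis
  let r' : ℕ → C(X, ℂ) := fun j => if j = k then u else r j
  have hr' : ∀ j, j < k → r' j = r j := by
    intro j hj
    simp only [r', if_neg (Nat.ne_of_lt hj)]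
  have hr'k : r' k = u := by simp only [r', if_true]
  have hrf : ∀ k' ≤ k, (fun j : Fin k' => r' j) = (fun j : Fin k' => r j) := by
    intro k' hk'
    funext j
    exact hr' j (lt_of_lt_of_le j.2 hk')
  refine ⟨y', fun τ => O' (Fin.init τ) ∩ (if τ (Fin.last k) then U1 else U0), r', hinj,
    ?_, ?_, ?_, ?_, ?_⟩
  · intro τ
    by_cases h : τ (Fin.last k)
    · simp only [y', h, if_true]
      exact hz2 _
    · simp only [y', h]
      have h1 := s2 (Fin.init τ)
      have h2 : N - k = (N - (k + 1)) + 1 := by omega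
      rw [h2] at h1
      exact cb_sub _ h1
  · intro τ
    constructor
    · apply (hO'o _).inter
      by_cases h : τ (Fin.last k)
      · simp only [h, if_true]
        exact hU1
      · simp only [h]
        exact hU0
    · refine ⟨hy'O τ, ?_⟩
      by_cases h : τ (Fin.last k)
      · simp only [h, if_true]
        exact hF1 ⟨τ, h, rfl⟩
      · simp only [h]
        exact hF0 ⟨τ, by simpa using h, rfl⟩
  · intro j
    by_cases h : j = k
    · rw [h, hr'k]
      exact hu
    · simp only [r', if_neg h]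
      exact s4 j
  · intro j hj τ p hp
    by_cases h : j = k
    · subst h
      rw [hr'k]
      have h1 : (⟨j, hj⟩ : Fin (j + 1)) = Fin.last j := rfl
      rw [h1]
      have h2 := hp.2
      by_cases h : τ (Fin.last j)
      · simp only [h, if_true] at h2
        rw [hu1 p h2, h]
        simp [bs]
      · simp only [h] at h2
        rw [hu0 p h2]
        simp [bs, h]
    · have h1 : j < k := by omega
      rw [hr' j h1]
      exact s5 j h1 (Fin.init τ) p (hO'O _ hp.1)
  · intro k' hk' c hc f hf σ σ' hσ p hp q hq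
    rw [hrf k' (by omega)] at hf ⊢
    by_cases h : k' = k
    · subst h
      have h1 : σ = σ' := by
        funext i
        apply hσ
        have := i.2
        omega
      subst h1
      exact hO'f _ f hf p hp.1 q hq.1
    · have h1 : k' < k := by omega
      refine s6 k' h1 c hc f hf (Fin.init σ) (Fin.init σ') ?_ p (hO'O _ hp.1) q (hO'O _ hq.1)
      intro i hi
      exact hσ (Fin.castSucc i) hi

theorem exists_embedding (hcb : ∀ n, (CX.cb X n).Nonempty) (N : ℕ)
    (Φ : (k : ℕ) → (Fin k → C(X, ℂ)) → Finset C(X, ℂ)) (η : (k : ℕ) → (Fin k → C(X, ℂ)) → ℝ)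
    (hη : ∀ k r, 0 < η k r) :
    ∃ (x : Pt N → X) (r : ℕ → C(X, ℂ)), (∀ j, Uni (r j)) ∧
      (∀ j < N, ∀ τ, r j (x τ) = bs (emb N τ j)) ∧
      ∀ k < N, ∀ c, k < c → ∀ f ∈ Φ k (fun j : Fin k => r j),
        Osc (η k (fun j : Fin k => r j)) c (fun τ => f (x τ)) := by
  have h : ∀ k, k ≤ N → ∃ (y : Pt k → X) (O : Pt k → Set X) (r : ℕ → C(X, ℂ)),
      Stage N Φ η k y O r := by
    intro k
    induction k with
    | zero => exact fun _ => stage_zero hcb N Φ η
    | succ k ih =>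
      intro hk
      obtain ⟨y, O, r, hS⟩ := ih (by omega)
      exact stage_succ N Φ η hη k hk y O r hS
  obtain ⟨y, O, r, s1, s2, s3, s4, s5, s6⟩ := h N le_rfl
  refine ⟨y, r, s4, ?_, ?_⟩
  · intro j hj τ
    rw [s5 j hj τ _ (s3 τ).2]
    simp [emb, hj]
  · intro k hk c hc f hf σ σ' hσ
    exact s6 k hk c hc f hf σ σ' hσ _ (s3 σ).2 _ (s3 σ').2

end Embedding

end

end Pool.Agent.Helper53.LB
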