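import Mathlib
import Pool.Agent.Helper53.LBgame

set_option autoImplicit false
set_option maxSynthPendingDepth 3
set_option linter.unusedSectionVars false

namespace Pool.Agent.Helper53.LB

open Finset Filter Topology
open scoped BigOperators ComplexConjugate

noncomputable section



section GameFalse

variable {m : ℕ} (S : Game m)

/-- The generic value. -/
def Psi (N : ℕ) (lev lam l : ℕ → ℕ) : ℂ := S.G N (fun i => lev (lam i)) l

/-- The limit. -/
def GG (lam : ℕ → ℕ) : ℂ :=
  Lam (2 * m + 3) fun x => Psi S (x (2 * m + 2)) (fun t => x (2 * t)) lam fun i => x (2 * i + 1)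

/-- The terms of the relation. -/
def Phi (lam : ℕ → ℕ) (j : ℕ) (x : ℕ → ℕ) : ℂ :=
  Psi S (x (2 * m + 4)) (fun t => x (2 * t)) lam (del j fun i => x (2 * i + 1))

/-- The terms of the relation, one variable less. -/
def Phi1 (lam : ℕ → ℕ) (j : ℕ) (y : ℕ → ℕ) : ℂ :=
  Psi S (y (2 * m + 3)) (fun t => y (if t ≤ j then 2 * t else 2 * t - 1)) lam
    fun i => y (if i < j then 2 * i + 1 else 2 * i + 2)

lemma Phi_ins (lam : ℕ → ℕ) {j : ℕ} (hj : j ≤ m + 1) (a : ℕ) (y : ℕ → ℕ) :
    Phi S lam j (insN (2 * j + 1) a y) = Phi1 S lam j y := by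
  unfold Phi Phi1
  have e1 : insN (2 * j + 1) a y (2 * m + 4) = y (2 * m + 3) := by
    rw [insN_gt _ _ (by omega)]
    congr 1
  have e2 : (fun t => insN (2 * j + 1) a y (2 * t)) =
      fun t => y (if t ≤ j then 2 * t else 2 * t - 1) := by
    funext t
    split_ifs with h
    · rw [insN_lt _ _ (by omega)]
    · rw [insN_gt _ _ (by omega)]
  have e3 : (del j fun i => insN (2 * j + 1) a y (2 * i + 1)) =
      fun i => y (if i < j then 2 * i + 1 else 2 * i + 2) := by
    funext i
    unfold del
    split_ifs with h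
    · show insN (2 * j + 1) a y (2 * i + 1) = _
      rw [insN_lt _ _ (by omega)]
    · show insN (2 * j + 1) a y (2 * (i + 1) + 1) = _
      rw [insN_gt _ _ (by omega)]
      congr 1
  rw [e1, e2, e3]

lemma Lam_Phi (lam : ℕ → ℕ) {j : ℕ} (hj : j ≤ m + 1) :
    Lam (2 * m + 5) (Phi S lam j) = Lam (2 * m + 4) (Phi1 S lam j) := by
  rw [show 2 * m + 5 = 2 * m + 4 + 1 by ring, Lam_drop (i := 2 * j + 1) (by omega)]
  · congr 1
    funext y
    exact Phi_ins S lam hj _ _
  · intro x a b
    rw [Phi_ins S lam hj, Phi_ins S lam hj]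

/-- The remainder tends to zero. -/
lemma Lam_Phi_sum (lam : ℕ → ℕ) (h0 : ∃ i ≤ m + 1, lam i = 0) :
    ∑ j ∈ range (m + 2), (-1 : ℂ) ^ j * Lam (2 * m + 5) (Phi S lam j) = 0 := by
  have e1 : ∑ j ∈ range (m + 2), (-1 : ℂ) ^ j * Lam (2 * m + 5) (Phi S lam j) =
      Lam (2 * m + 5) (∑ j ∈ range (m + 2), (-1 : ℂ) ^ j • Phi S lam j) := by
    rw [map_sum]
    exact sum_congr rfl fun j _ => by rw [map_smul, smul_eq_mul]
  rw [e1]
  refine Lam_gap (q := 0) (by omega) S.C fun x hx => ?_
  obtain ⟨i0, hi0, hz⟩ := h0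
  have h1 := S.rel (x (2 * m + 4)) (fun i => x (2 * lam i)) fun i => x (2 * i + 1)
  have h2 : (∑ j ∈ range (m + 2), (-1 : ℂ) ^ j • Phi S lam j) x =
      - ((-1 : ℂ) ^ (m + 2) * S.P (x (2 * m + 4)) (fun i => x (2 * lam i))
        fun i => x (2 * i + 1)) := by
    rw [Finset.sum_apply, ← sub_eq_zero, sub_neg_eq_add, ← h1]
    congr 1
  rw [h2, norm_neg, norm_mul, norm_pow, norm_neg, norm_one, one_pow, one_mul]
  have h3 := S.P_le (x (2 * m + 4)) (fun i => x (2 * lam i)) (fun i => x (2 * i + 1)) i0 (by omega)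
    (fun j hj => hx.le (by omega) (by omega)) (fun j hj => hx.le (by omega) (by omega))
  simp only [hz, Nat.mul_zero, Nat.zero_add] at h3
  simpa using h3

lemma Phi1_merge (lam : ℕ → ℕ) (hlam : ∀ i, lam i ≤ m + 2) {j : ℕ} (hj : j ≤ m) :
    Lam (2 * m + 4) (Phi1 S lam j) = Lam (2 * m + 4) fun y =>
      Phi1 S lam j (Function.update y (2 * j + 1) (y (2 * j))) := by
  refine Lam_merge (q := 2 * j) (by omega) _ (S.C * Mf (m + 2) 0) fun r z hz => ?_
  set c : ℕ → ℕ := fun s => z (2 * j + min s (r + 1)) with hc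
  have hcm : Monotone c := by
    intro s t hst
    refine hz.le ?_ ?_
    · have : min s (r + 1) ≤ min t (r + 1) := min_le_min_right _ hst
      omega
    · have : min t (r + 1) ≤ r + 1 := min_le_right _ _
      omega
  set lz : ℕ → ℕ := fun i => if i < j then z (2 * i + 1) else z (2 * i + 2 + r) with hlz
  set n : ℕ → ℕ → ℕ := fun i s => if lam i < j then z (2 * lam i) else if lam i = j then c s
    else if lam i = j + 1 then c (s + 1) else z (2 * lam i - 1 + r) with hn
  set n' : ℕ → ℕ → ℕ := fun i s => if lam i < j then z (2 * lam i) else if lam i = j then c s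
    else if lam i = j + 1 then c s else z (2 * lam i - 1 + r) with hn'
  have hcs : ∀ s < r + 1, c s = z (2 * j + s) := by
    intro s hs
    simp only [hc]
    rw [min_eq_left hs.le]
  have hcs' : ∀ s < r + 1, c (s + 1) = z (2 * j + s + 1) := by
    intro s hs
    simp only [hc]
    rw [min_eq_left (by omega), Nat.add_assoc]
  set N : ℕ := z (2 * m + 3 + r) with hN
  have term1 : ∀ s ∈ range (r + 1), Phi1 S lam j (sel (2 * j) s r z) =
      S.G N (fun i => n i s) lz := by
    intro s hs
    rw [mem_range] at hs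
    unfold Phi1 Psi
    have e1 : sel (2 * j) s r z (2 * m + 3) = N := by
      unfold sel
      rw [if_neg (by omega), if_neg (by omega), if_neg (by omega)]
    have e2 : (fun i => sel (2 * j) s r z (if lam i ≤ j then 2 * lam i else 2 * lam i - 1)) =
        fun i => n i s := by
      funext i
      simp only [hn, sel]
      by_cases h1 : lam i < j
      · rw [if_pos (by omega : lam i ≤ j), if_pos (by omega), if_pos h1]
      · by_cases h2 : lam i = j
        · rw [if_pos (by omega : lam i ≤ j), if_neg (by omega), if_pos (by omega), if_neg h1,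
            if_pos h2, hcs s hs]
        · by_cases h3 : lam i = j + 1
          · rw [if_neg (by omega : ¬ lam i ≤ j), if_neg (by omega), if_neg (by omega),
              if_pos (by omega), if_neg h1, if_neg h2, if_pos h3, hcs' s hs]
          · rw [if_neg (by omega : ¬ lam i ≤ j), if_neg (by omega), if_neg (by omega),
              if_neg (by omega), if_neg h1, if_neg h2, if_neg h3]
    have e3 : (fun i => sel (2 * j) s r z (if i < j then 2 * i + 1 else 2 * i + 2)) = lz := by
      funext i
      simp only [hlz, sel]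
      by_cases h1 : i < j
      · rw [if_pos h1, if_pos (by omega), if_pos h1]
      · rw [if_neg h1, if_neg (by omega), if_neg (by omega), if_neg (by omega), if_neg h1]
    rw [e1, e2, e3]
  have term2 : ∀ s ∈ range (r + 1), Phi1 S lam j (Function.update (sel (2 * j) s r z)
      (2 * j + 1) (sel (2 * j) s r z (2 * j))) =
      S.G N (fun i => n' i s) lz := by
    intro s hs
    rw [mem_range] at hs
    unfold Phi1 Psi
    have e0 : sel (2 * j) s r z (2 * j) = z (2 * j + s) := by
      unfold sel
      rw [if_neg (by omega), if_pos rfl]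
    have e1 : Function.update (sel (2 * j) s r z) (2 * j + 1) (sel (2 * j) s r z (2 * j))
        (2 * m + 3) = N := by
      rw [Function.update_of_ne (by omega)]
      unfold sel
      rw [if_neg (by omega), if_neg (by omega), if_neg (by omega)]
    have e2 : (fun i => Function.update (sel (2 * j) s r z) (2 * j + 1)
        (sel (2 * j) s r z (2 * j)) (if lam i ≤ j then 2 * lam i else 2 * lam i - 1)) =
        fun i => n' i s := by
      funext i
      simp only [hn']
      by_cases h1 : lam i < j
      · rw [if_pos (by omega : lam i ≤ j), Function.update_of_ne (by omega), if_pos h1]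
        unfold sel
        rw [if_pos (by omega)]
      · by_cases h2 : lam i = j
        · rw [if_pos (by omega : lam i ≤ j), Function.update_of_ne (by omega), if_neg h1,
            if_pos h2, hcs s hs, h2, e0]
        · by_cases h3 : lam i = j + 1
          · rw [if_neg (by omega : ¬ lam i ≤ j), if_neg h1, if_neg h2, if_pos h3, hcs s hs]
            have h4 : 2 * lam i - 1 = 2 * j + 1 := by omega
            rw [h4, Function.update_self, e0]
          · rw [if_neg (by omega : ¬ lam i ≤ j), Function.update_of_ne (by omega), if_neg h1,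
              if_neg h2, if_neg h3]
            unfold sel
            rw [if_neg (by omega), if_neg (by omega), if_neg (by omega)]
    have e3 : (fun i => Function.update (sel (2 * j) s r z) (2 * j + 1)
        (sel (2 * j) s r z (2 * j)) (if i < j then 2 * i + 1 else 2 * i + 2)) = lz := by
      funext i
      simp only [hlz]
      by_cases h1 : i < j
      · rw [if_pos h1, Function.update_of_ne (by omega), if_pos h1]
        unfold sel
        rw [if_pos (by omega)]
      · rw [if_neg h1, Function.update_of_ne (by omega), if_neg h1]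
        unfold sel
        rw [if_neg (by omega), if_neg (by omega), if_neg (by omega)]
    rw [e1, e2, e3]
  have hsum : ∑ s ∈ range (r + 1), (Phi1 S lam j (sel (2 * j) s r z) -
      Phi1 S lam j (Function.update (sel (2 * j) s r z) (2 * j + 1)
        (sel (2 * j) s r z (2 * j)))) =
      ∑ s ∈ range (r + 1), (S.G N (fun i => n i s) lz - S.G N (fun i => n' i s) lz) := by
    refine sum_congr rfl fun s hs => ?_
    rw [term1 s hs, term2 s hs]
  rw [hsum]
  have hc0 : c 0 = z (2 * j) := hcs 0 (by omega)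
  have hcr : c (r + 1) = z (2 * j + r + 1) := by
    simp only [hc]
    rw [min_self, Nat.add_assoc]
  have hTlow : ∀ i, lam i < j → z (2 * lam i) ≤ c 0 := by
    intro i hi
    rw [hc0]
    exact hz.le (by omega) (by omega)
  have hThigh : ∀ i, j + 1 < lam i → c (r + 1) ≤ z (2 * lam i - 1 + r) := by
    intro i hi
    rw [hcr]
    have := hlam i
    exact hz.le (by omega) (by omega)
  refine S.bound N lz (r + 1) (fun s i => n i s) (fun s i => n' i s) (Mf (m + 2) 0) fun f hf => ?_
  have hmb := merge_bound (N := N) hcm (k := m + 2) (r := r + 1) (f := f) (ξ := f (m + 2))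
    (n := n) (n' := n') hf (hf _) ?_ ?_ ?_ (U := fun _ => 1) (PC.const fun x => by simp)
  · refine le_trans (le_of_eq ?_) hmb
    congr 1
    refine sum_congr rfl fun t _ => ?_
    unfold QV
    rw [← expect_sub_distrib]
    refine expect_congr rfl fun x _ => ?_
    rw [Pi.one_apply, one_mul, Pi.sub_apply]
  all_goals intro i _
  · by_cases h1 : lam i < j
    · exact Or.inl ⟨_, hTlow i h1, fun t _ => by simp only [hn, if_pos h1]⟩
    · by_cases h2 : lam i = j
      · exact Or.inr (Or.inr (Or.inl fun t _ => by simp only [hn, if_neg h1, if_pos h2]))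
      · by_cases h3 : lam i = j + 1
        · exact Or.inr (Or.inr (Or.inr fun t _ => by
            simp only [hn, if_neg h1, if_neg h2, if_pos h3]))
        · exact Or.inr (Or.inl ⟨_, hThigh i (by omega), fun t _ => by
            simp only [hn, if_neg h1, if_neg h2, if_neg h3]⟩)
  · by_cases h1 : lam i < j
    · exact Or.inl ⟨_, hTlow i h1, fun t _ => by simp only [hn', if_pos h1]⟩
    · by_cases h2 : lam i = j
      · exact Or.inr (Or.inr (Or.inl fun t _ => by simp only [hn', if_neg h1, if_pos h2]))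
      · by_cases h3 : lam i = j + 1
        · exact Or.inr (Or.inr (Or.inl fun t _ => by
            simp only [hn', if_neg h1, if_neg h2, if_pos h3]))
        · exact Or.inr (Or.inl ⟨_, hThigh i (by omega), fun t _ => by
            simp only [hn', if_neg h1, if_neg h2, if_neg h3]⟩)
  · by_cases h1 : lam i < j
    · exact Or.inl fun t _ => by simp only [hn, hn', if_pos h1]
    · by_cases h2 : lam i = j
      · exact Or.inl fun t _ => by simp only [hn, hn', if_neg h1, if_pos h2]
      · by_cases h3 : lam i = j + 1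
        · exact Or.inr fun t _ => ⟨by simp only [hn, if_neg h1, if_neg h2, if_pos h3],
            by simp only [hn', if_neg h1, if_neg h2, if_pos h3]⟩
        · exact Or.inl fun t _ => by
            simp only [hn, hn', if_neg h1, if_neg h2, if_neg h3]


lemma update_insN (i : ℕ) (a b : ℕ) (z : ℕ → ℕ) :
    Function.update (insN i a z) i b = insN i b z := by
  funext t
  by_cases h : t = i
  · subst h
    rw [Function.update_self, insN_eq]
  · rw [Function.update_of_ne h]
    rcases lt_or_gt_of_ne h with h' | h'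
    · rw [insN_lt _ _ h', insN_lt _ _ h']
    · rw [insN_gt _ _ h', insN_gt _ _ h']

lemma Phi1_ins (lam : ℕ → ℕ) {j : ℕ} (hj : j ≤ m) (z : ℕ → ℕ) :
    Phi1 S lam j (insN (2 * j + 1) (z (2 * j)) z) =
      Psi S (z (2 * m + 2)) (fun t => z (2 * t)) (sj j ∘ lam) fun i => z (2 * i + 1) := by
  unfold Phi1 Psi
  have e1 : insN (2 * j + 1) (z (2 * j)) z (2 * m + 3) = z (2 * m + 2) := by
    rw [insN_gt _ _ (by omega)]
    congr 1
  have e2 : (fun i => insN (2 * j + 1) (z (2 * j)) z
      (if lam i ≤ j then 2 * lam i else 2 * lam i - 1)) = fun i => z (2 * (sj j ∘ lam) i) := by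
    funext i
    rw [Function.comp]
    by_cases h1 : lam i ≤ j
    · rw [if_pos h1, insN_lt _ _ (by omega), sj_le h1]
    · rw [if_neg h1, sj_gt (by omega)]
      by_cases h2 : lam i = j + 1
      · have h3 : 2 * lam i - 1 = 2 * j + 1 := by omega
        rw [h3, insN_eq]
        congr 1
        omega
      · rw [insN_gt _ _ (by omega)]
        congr 1
        omega
  have e3 : (fun i => insN (2 * j + 1) (z (2 * j)) z (if i < j then 2 * i + 1 else 2 * i + 2)) =
      fun i => z (2 * i + 1) := by
    funext i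
    by_cases h1 : i < j
    · rw [if_pos h1, insN_lt _ _ (by omega)]
    · rw [if_neg h1, insN_gt _ _ (by omega)]
      congr 1
  rw [e1, e2, e3]

lemma Lam_Phi1_le (lam : ℕ → ℕ) (hlam : ∀ i, lam i ≤ m + 2) {j : ℕ} (hj : j ≤ m) :
    Lam (2 * m + 4) (Phi1 S lam j) = GG S (sj j ∘ lam) := by
  rw [Phi1_merge S lam hlam hj, show 2 * m + 4 = 2 * m + 3 + 1 by ring,
    Lam_drop (i := 2 * j + 1) (by omega)]
  · unfold GG
    congr 1
    funext z
    rw [update_insN, insN_lt _ _ (by omega : 2 * j < 2 * j + 1)]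
    exact Phi1_ins S lam hj z
  · intro x a b
    show Phi1 S lam j (Function.update (insN (2 * j + 1) a x) (2 * j + 1)
      (insN (2 * j + 1) a x (2 * j))) = Phi1 S lam j (Function.update (insN (2 * j + 1) b x)
      (2 * j + 1) (insN (2 * j + 1) b x (2 * j)))
    rw [update_insN, update_insN, insN_lt _ _ (by omega : 2 * j < 2 * j + 1),
      insN_lt _ _ (by omega : 2 * j < 2 * j + 1)]

lemma Phi1_last (lam : ℕ → ℕ) (hlam : ∀ i, lam i ≤ m + 2) :
    Lam (2 * m + 4) (Phi1 S lam (m + 1)) = Lam (2 * m + 4) fun y =>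
      Phi1 S lam (m + 1) (Function.update y (2 * m + 2) (y (2 * m + 3))) := by
  rw [← sub_eq_zero, ← map_sub]
  refine Lam_eq_zero fun ε hε => ?_
  rw [show 2 * m + 4 = (2 * m + 2) + 2 by ring]
  refine EvB_outer 0 fun o _ => ?_
  set n : ℕ → ℕ → ℕ → ℕ := fun c N i => if lam i ≤ m then o (2 * lam i)
    else if lam i = m + 1 then c else N with hn
  set n' : ℕ → ℕ → ℕ → ℕ := fun c N i => if lam i ≤ m then o (2 * lam i)
    else if lam i = m + 1 then N else N with hn'
  set lo : ℕ → ℕ := fun i => o (2 * i + 1) with hlo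
  have key : ∀ c N : ℕ, ∀ y : ℕ → ℕ, (∀ t < 2 * m + 2, y t = o t) → y (2 * m + 2) = c →
      y (2 * m + 3) = N → Phi1 S lam (m + 1) y -
        Phi1 S lam (m + 1) (Function.update y (2 * m + 2) (y (2 * m + 3))) =
        S.G N (n c N) lo - S.G N (n' c N) lo := by
    intro c N y hy hyc hyN
    have eA : Phi1 S lam (m + 1) y = S.G N (n c N) lo := by
      unfold Phi1 Psi
      rw [hyN]
      have e2 : (fun i => y (if lam i ≤ m + 1 then 2 * lam i else 2 * lam i - 1)) = n c N := by
        funext i
        simp only [hn]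
        by_cases h1 : lam i ≤ m
        · rw [if_pos (by omega : lam i ≤ m + 1), if_pos h1, hy _ (by omega)]
        · by_cases h2 : lam i = m + 1
          · rw [if_pos (by omega : lam i ≤ m + 1), if_neg h1, if_pos h2, ← hyc]
            congr 1
            omega
          · have h3 : lam i = m + 2 := by have := hlam i; omega
            rw [if_neg (by omega : ¬ lam i ≤ m + 1), if_neg h1, if_neg h2, ← hyN]
            congr 1
            omega
      rw [e2]
      refine S.congr_l _ _ _ _ fun i hi => ?_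
      rw [if_pos hi, hlo, hy _ (by omega)]
    have eB : Phi1 S lam (m + 1) (Function.update y (2 * m + 2) (y (2 * m + 3))) =
        S.G N (n' c N) lo := by
      unfold Phi1 Psi
      rw [Function.update_of_ne (by omega : 2 * m + 3 ≠ 2 * m + 2), hyN]
      have e2 : (fun i => Function.update y (2 * m + 2) N
          (if lam i ≤ m + 1 then 2 * lam i else 2 * lam i - 1)) = n' c N := by
        funext i
        simp only [hn']
        by_cases h1 : lam i ≤ m
        · rw [if_pos (by omega : lam i ≤ m + 1), if_pos h1, Function.update_of_ne (by omega),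
            hy _ (by omega)]
        · by_cases h2 : lam i = m + 1
          · rw [if_pos (by omega : lam i ≤ m + 1), if_neg h1, if_pos h2]
            have h4 : 2 * lam i = 2 * m + 2 := by omega
            rw [h4, Function.update_self]
          · have h3 : lam i = m + 2 := by have := hlam i; omega
            rw [if_neg (by omega : ¬ lam i ≤ m + 1), if_neg h1, if_neg h2,
              Function.update_of_ne (by omega)]
            have h4 : 2 * lam i - 1 = 2 * m + 3 := by omega
            rw [h4, hyN]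
      rw [e2]
      refine S.congr_l _ _ _ _ fun i hi => ?_
      rw [if_pos hi, hlo, Function.update_of_ne (by omega), hy _ (by omega)]
    rw [eA, eB]
  obtain ⟨c0, hc0⟩ := S.tame ε hε
  rw [EvB_succ]
  have hev : ∀ᶠ c in atTop, ∀ i ∈ range (m + 1), lo i < c := by
    rw [Filter.eventually_all_finset]
    exact fun i _ => eventually_gt_atTop _
  filter_upwards [hev, eventually_ge_atTop c0] with c hcl hcc
  rw [EvB_succ]
  filter_upwards [eventually_ge_atTop c] with N hN
  show ‖Phi1 S lam (m + 1) (app (2 * m + 2) o (insN 0 c (insN 0 N fun _ => 0))) -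
    Phi1 S lam (m + 1) (Function.update (app (2 * m + 2) o (insN 0 c (insN 0 N fun _ => 0)))
      (2 * m + 2) (app (2 * m + 2) o (insN 0 c (insN 0 N fun _ => 0)) (2 * m + 3)))‖ ≤ ε
  rw [key c N]
  · refine hc0 c hcc N hN lo _ _ (fun i hi => hcl i (mem_range.2 hi)) fun i => ?_
    simp only [hn, hn']
    by_cases h1 : lam i ≤ m
    · left
      rw [if_pos h1, if_pos h1]
    · rw [if_neg h1, if_neg h1]
      by_cases h2 : lam i = m + 1
      · right
        rw [if_pos h2, if_pos h2]
        exact ⟨rfl, le_rfl⟩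
      · left
        rw [if_neg h2, if_neg h2]
  · intro t ht
    unfold app
    rw [if_pos ht]
  · unfold app
    rw [if_neg (by omega), Nat.sub_self, insN_eq]
  · unfold app
    rw [if_neg (by omega)]
    have : 2 * m + 3 - (2 * m + 2) = 1 := by omega
    rw [this, insN_gt _ _ (by omega), Nat.sub_self, insN_eq]

lemma Phi1_last_ins (lam : ℕ → ℕ) (z : ℕ → ℕ) :
    Phi1 S lam (m + 1) (insN (2 * m + 2) (z (2 * m + 2)) z) =
      Psi S (z (2 * m + 2)) (fun t => z (2 * t)) (sj (m + 1) ∘ lam) fun i => z (2 * i + 1) := by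
  unfold Phi1 Psi
  have e1 : insN (2 * m + 2) (z (2 * m + 2)) z (2 * m + 3) = z (2 * m + 2) := by
    rw [insN_gt _ _ (by omega)]
    congr 1
  have e2 : (fun i => insN (2 * m + 2) (z (2 * m + 2)) z
      (if lam i ≤ m + 1 then 2 * lam i else 2 * lam i - 1)) =
      fun i => z (2 * (sj (m + 1) ∘ lam) i) := by
    funext i
    rw [Function.comp]
    by_cases h1 : lam i ≤ m + 1
    · rw [if_pos h1, sj_le h1]
      by_cases h2 : lam i = m + 1
      · have h3 : 2 * lam i = 2 * m + 2 := by omega
        rw [h3, insN_eq]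
      · rw [insN_lt _ _ (by omega)]
    · rw [if_neg h1, sj_gt (by omega), insN_gt _ _ (by omega)]
      congr 1
      omega
  have e3 : (fun i => insN (2 * m + 2) (z (2 * m + 2)) z
      (if i < m + 1 then 2 * i + 1 else 2 * i + 2)) = fun i => z (2 * i + 1) := by
    funext i
    by_cases h1 : i < m + 1
    · rw [if_pos h1, insN_lt _ _ (by omega)]
    · rw [if_neg h1, insN_gt _ _ (by omega)]
      congr 1
  rw [e1, e2, e3]

lemma Lam_Phi1_last (lam : ℕ → ℕ) (hlam : ∀ i, lam i ≤ m + 2) :
    Lam (2 * m + 4) (Phi1 S lam (m + 1)) = GG S (sj (m + 1) ∘ lam) := by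
  rw [Phi1_last S lam hlam, show 2 * m + 4 = 2 * m + 3 + 1 by ring,
    Lam_drop (i := 2 * m + 2) (by omega)]
  · unfold GG
    refine congrArg _ (funext fun z => ?_)
    rw [update_insN, insN_gt _ _ (by omega : 2 * m + 2 < 2 * m + 3)]
    exact Phi1_last_ins S lam z
  · intro x a b
    show Phi1 S lam (m + 1) (Function.update (insN (2 * m + 2) a x) (2 * m + 2)
      (insN (2 * m + 2) a x (2 * m + 3))) = Phi1 S lam (m + 1)
      (Function.update (insN (2 * m + 2) b x) (2 * m + 2) (insN (2 * m + 2) b x (2 * m + 3)))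
    rw [update_insN, update_insN, insN_gt _ _ (by omega : 2 * m + 2 < 2 * m + 3),
      insN_gt _ _ (by omega : 2 * m + 2 < 2 * m + 3)]

/-- The first family of relations. -/
theorem GG_rel1 (lam : ℕ → ℕ) (hlam : ∀ i, lam i ≤ m + 2) (h0 : ∃ i ≤ m + 1, lam i = 0) :
    ∑ j ∈ range (m + 2), (-1 : ℂ) ^ j * GG S (sj j ∘ lam) = 0 := by
  rw [← Lam_Phi_sum S lam h0]
  refine sum_congr rfl fun j hj => ?_
  rw [mem_range] at hj
  rw [Lam_Phi S lam (by omega : j ≤ m + 1)]
  rcases Nat.lt_or_ge j (m + 1) with h | h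
  · rw [Lam_Phi1_le S lam hlam (by omega : j ≤ m)]
  · have : j = m + 1 := by omega
    subst this
    rw [Lam_Phi1_last S lam hlam]
lemma norm_half_pow (n : ℕ) : ‖(1 / 2 : ℂ) ^ n‖ = (1 / 2 : ℝ) ^ n := by
  rw [norm_pow]
  norm_num

lemma norm_prod_half_le {n i : ℕ} (hi : i < n) (f : ℕ → ℕ) :
    ‖∏ i ∈ range n, (1 / 2 : ℂ) ^ f i‖ ≤ (1 / 2 : ℝ) ^ f i := by
  rw [norm_prod, ← Finset.mul_prod_erase _ _ (mem_range.2 hi), norm_half_pow]
  refine mul_le_of_le_one_right (by positivity) (prod_le_one (fun _ _ => norm_nonneg _)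
    fun j _ => ?_)
  rw [norm_half_pow]
  exact pow_le_one₀ (by norm_num) (by norm_num)

lemma half_pow_le {a b : ℕ} (h : a ≤ b) : (1 / 2 : ℝ) ^ b ≤ 1 * (1 / 2 : ℝ) ^ a := by
  rw [one_mul]
  exact pow_le_pow_of_le_one (by norm_num) (by norm_num) h

lemma Lam_prod1 (μ : ℕ → ℕ) (hμ : ∀ i, μ i ≤ m + 1) {j : ℕ} :
    Lam (2 * m + 3) (fun x => ∏ i ∈ range m,
      (1 / 2 : ℂ) ^ (del j (fun i => x (2 * i + 1)) i - x (2 * μ i))) = Th m (sj j ∘ μ) := by
  by_cases hall : ∀ i < m, i + 1 ≤ (sj j ∘ μ) i
  · have e1 : Th m (sj j ∘ μ) = 1 := by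
      unfold Th
      exact prod_eq_one fun i hi => if_pos (hall i (mem_range.1 hi))
    rw [e1, ← Lam_const (2 * m + 3) 1]
    refine Lam_congr fun x hx => ?_
    refine prod_eq_one fun i hi => ?_
    rw [mem_range] at hi
    have h2 := hall i hi
    rw [Function.comp, sj_ge_iff] at h2
    have hμi := hμ i
    have e2 : del j (fun i => x (2 * i + 1)) i - x (2 * μ i) = 0 := by
      rw [Nat.sub_eq_zero_iff_le]
      unfold del
      split_ifs with h3
      · rw [if_pos h3] at h2
        exact hx.le (by omega) (by omega)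
      · rw [if_neg h3] at h2
        exact hx.le (by omega) (by omega)
    rw [e2, pow_zero]
  · push Not at hall
    obtain ⟨i, hi, hlt⟩ := hall
    have e1 : Th m (sj j ∘ μ) = 0 := by
      unfold Th
      exact prod_eq_zero (mem_range.2 hi) (if_neg (by omega))
    have h2 : ¬ (i + 1 ≤ (sj j ∘ μ) i) := by omega
    rw [Function.comp, sj_ge_iff] at h2
    rw [e1]
    have hμi := hμ i
    by_cases h3 : i < j
    · rw [if_pos h3] at h2
      refine Lam_gap (q := 2 * i) (by omega) 1 fun x hx => ?_
      refine (norm_prod_half_le hi _).trans (half_pow_le ?_)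
      unfold del
      rw [if_pos h3]
      have h4 : x (2 * μ i) ≤ x (2 * i) := hx.le (by omega) (by omega)
      show x (2 * i + 1) - x (2 * i) ≤ x (2 * i + 1) - x (2 * μ i)
      omega
    · rw [if_neg h3] at h2
      refine Lam_gap (q := 2 * i + 2) (by omega) 1 fun x hx => ?_
      refine (norm_prod_half_le hi _).trans (half_pow_le ?_)
      unfold del
      rw [if_neg h3]
      have h4 : x (2 * μ i) ≤ x (2 * i + 2) := hx.le (by omega) (by omega)
      show x (2 * i + 2 + 1) - x (2 * i + 2) ≤ x (2 * (i + 1) + 1) - x (2 * μ i)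
      have e5 : 2 * (i + 1) + 1 = 2 * i + 2 + 1 := by ring
      rw [e5]
      omega

lemma Lam_prod2 (μ : ℕ → ℕ) (h0 : ∃ i ≤ m, μ i = 0) :
    Lam (2 * m + 3) (fun x => ∏ i ∈ range (m + 1),
      (1 / 2 : ℂ) ^ ((fun i => x (2 * i + 1)) i - x (2 * μ i))) = 0 := by
  obtain ⟨i, hi, hz⟩ := h0
  refine Lam_gap (q := 0) (by omega) 1 fun x hx => ?_
  refine (norm_prod_half_le (i := i) (by omega) _).trans (half_pow_le ?_)
  rw [hz]
  have h4 : x 1 ≤ x (2 * i + 1) := hx.le (by omega) (by omega)
  show x (0 + 1) - x 0 ≤ x (2 * i + 1) - x (2 * 0)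
  rw [Nat.zero_add, Nat.mul_zero]
  omega

/-- The second family of relations. -/
theorem GG_rel2 (μ : ℕ → ℕ) (hμ : ∀ i, μ i ≤ m + 1) (h0 : ∃ i ≤ m, μ i = 0) :
    ∑ i ∈ range (m + 2), (-1 : ℂ) ^ i * GG S (insN i (m + 1) μ) =
      ∑ j ∈ range (m + 1), (-1 : ℂ) ^ j * Th m (sj j ∘ μ) := by
  have e1 : ∑ i ∈ range (m + 2), (-1 : ℂ) ^ i * GG S (insN i (m + 1) μ) =
      Lam (2 * m + 3) (∑ i ∈ range (m + 2), (-1 : ℂ) ^ i • fun x : ℕ → ℕ =>
          Psi S (x (2 * m + 2)) (fun t => x (2 * t)) (insN i (m + 1) μ)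
            fun i => x (2 * i + 1)) := by
    rw [map_sum]
    exact sum_congr rfl fun i _ => by rw [map_smul, smul_eq_mul]; rfl
  rw [e1]
  have e5 : Lam (2 * m + 3) (∑ i ∈ range (m + 2), (-1 : ℂ) ^ i • fun x : ℕ → ℕ =>
          Psi S (x (2 * m + 2)) (fun t => x (2 * t)) (insN i (m + 1) μ)
            fun i => x (2 * i + 1)) =
      Lam (2 * m + 3) ((∑ j ∈ range (m + 1), (-1 : ℂ) ^ j • fun x : ℕ → ℕ =>
        ∏ i ∈ range m, (1 / 2 : ℂ) ^ (del j (fun i => x (2 * i + 1)) i - x (2 * μ i))) +
        (-1 : ℂ) ^ (m + 1) • fun x : ℕ → ℕ => ∏ i ∈ range (m + 1),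
          (1 / 2 : ℂ) ^ ((fun i => x (2 * i + 1)) i - x (2 * μ i))) := by
    refine Lam_congr fun x hx => ?_
    have hb := S.bdry (x (2 * m + 2)) (fun t => x (2 * μ t)) (fun i => x (2 * i + 1))
      (fun i hi => hx.le (by omega) (by omega))
    rw [Pi.add_apply, Finset.sum_apply, Finset.sum_apply, Pi.smul_apply, smul_eq_mul]
    refine Eq.trans ?_ hb
    refine sum_congr rfl fun i _ => ?_
    rw [Pi.smul_apply, smul_eq_mul]
    unfold Psi
    have e3 := comp_insN (fun t => x (2 * t)) i (m + 1) μ
    have e4 : (fun t => x (2 * insN i (m + 1) μ t)) =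
        insN i (x (2 * m + 2)) fun t => x (2 * μ t) := e3
    rw [e4]
  rw [e5, map_add, map_sum, map_smul, Lam_prod2 μ h0, smul_zero, add_zero]
  refine sum_congr rfl fun j _ => ?_
  rw [map_smul, smul_eq_mul, Lam_prod1 μ hμ]


end GameFalse

theorem game_false {m : ℕ} (g : Game m) : False :=
  alg_contra m (GG g) (fun lam h h0 => GG_rel1 g lam h h0) fun μ h h0 => GG_rel2 g μ h h0


end

end Pool.Agent.Helper53.LB
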