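import Mathlib
import Pool.Agent.Helper53.LBgame

set_option autoImplicit false
set_option maxSynthPendingDepth 3
set_option linter.unusedSectionVars false

namespace Pool.Agent.Helper53.LB

open Finset Filter Topology
open scoped BigOperators ComplexConjugate

noncomputable section



theorem QV_shift_le {N K l : ℕ} (hl : l ≤ N) (n : ℕ → ℕ) {i : ℕ} (hi : i < K)
    (f : ℕ → Pt N → ℂ) (hf : ∀ i x, ‖f i x‖ ≤ 1) :
    ‖Av l fun w => QV K N n (fun j => if j = 0 then rs N w * f 0 else
      if j = K then rs N w * f K else f j)‖ ≤ (1 / 2 : ℝ) ^ (l - n i) := by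
  obtain ⟨k, rfl⟩ : ∃ k, K = k + 1 := ⟨K - 1, by omega⟩
  set η : Pt N → ℂ := f (k + 1) with hη
  have hη1 : ∀ p, ‖η p‖ ≤ 1 := fun p => hf _ p
  have e1 : (fun w : Al => QV (k + 1) N n (fun j => if j = 0 then rs N w * f 0 else
      if j = k + 1 then rs N w * η else f j)) =
      fun w => 𝔼 p, rs N w p * Rc (k + 1) f n (rs N w * η) p := by
    funext w
    obtain ⟨F, hF⟩ : ∃ F : ℕ → Pt N → ℂ, F = fun j => if j = 0 then rs N w * f 0 else
      if j = k + 1 then rs N w * η else f j := ⟨_, rfl⟩
    rw [← hF]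
    have hF0 : F 0 = rs N w * f 0 := by rw [hF]; exact if_pos rfl
    have hFK : F (k + 1) = rs N w * η := by
      rw [hF]; exact (if_neg (by omega)).trans (if_pos rfl)
    have hFm : ∀ j < k, F (j + 1) = f (j + 1) := by
      intro j hj
      rw [hF]
      exact (if_neg (by omega)).trans (if_neg (by omega))
    have hR : Rc (k + 1) F n (F (k + 1)) = rs N w * Rc (k + 1) f n (rs N w * η) := by
      rw [Rc_succ, Rc_succ, hF0, hFK, Rc_congr (f := fun j => F (j + 1))
        (f' := fun j => f (j + 1)) (n := fun j => n (j + 1)) (n' := fun j => n (j + 1)) _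
        hFm (fun j hj => rfl), mul_assoc]
    unfold QV
    rw [hR]
    rfl
  have e2 : Av l (fun w => 𝔼 p, rs N w p * Rc (k + 1) f n (rs N w * η) p) =
      𝔼 p, Av l fun w => rs N w p * Rc (k + 1) f n (rs N w * η) p := by
    rw [Av_apply]
    exact expect_comm _ _ _
  have e3 : ∀ p : Pt N, (Av l fun w => rs N w p * Rc (k + 1) f n (rs N w * η) p) =
      Rc (k + 1) f n (fun q => (if ∀ i : Fin N, (i : ℕ) < l → q i = p i then (1 : ℂ) else 0) *
        η q) p := by
    intro p
    have e4 : (fun q => (if ∀ i : Fin N, (i : ℕ) < l → q i = p i then (1 : ℂ) else 0) * η q) =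
        ((2 : ℂ) ^ l)⁻¹ • ∑ W ∈ (range l).powerset, rs N (ch W) p • (rs N (ch W) * η) := by
      funext q
      rw [Pi.smul_apply, Finset.sum_apply]
      have e5 := Av_kernel l (emb N p) (emb N q)
      rw [Av_eq_sum] at e5
      have e6 : (if ∀ i : Fin N, (i : ℕ) < l → q i = p i then (1 : ℂ) else 0) =
          if ∀ i < l, emb N p i = emb N q i then (1 : ℂ) else 0 := by
        congr 1
        exact (propext (agree_iff hl p q)).symm
      rw [e6, ← e5, smul_eq_mul, mul_assoc, sum_mul]
      congr 1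
      refine sum_congr rfl fun W _ => ?_
      rw [Pi.smul_apply, Pi.mul_apply, smul_eq_mul, ← mul_assoc]
      rfl
    rw [e4, Rc_smul, Rc_sum, Av_eq_sum, Pi.smul_apply, Finset.sum_apply, smul_eq_mul]
    congr 1
    refine sum_congr rfl fun W _ => ?_
    rw [Rc_smul]
    rfl
  rw [e1, e2, expect_congr rfl fun p _ => e3 p]
  refine norm_expect_le' fun p => ?_
  obtain ⟨M, hM1, hM2⟩ := Rc_dom (k + 1) hf n
  refine (hM2 _ (fun q => if ∀ i : Fin N, (i : ℕ) < l → q i = p i then (1 : ℝ) else 0)
    (fun q => ?_) p).trans ?_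
  · split_ifs
    · rw [one_mul]
      exact hη1 q
    · rw [zero_mul, norm_zero]
  · rw [count_agree M l hl p]
    refine pow_le_pow_of_le_one (by norm_num) (by norm_num) ?_
    have := hM1 i hi
    omega


end

end Pool.Agent.Helper53.LB
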