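import Mathlib
import Pool.Agent.Helper53.LBgame

set_option autoImplicit false
set_option maxSynthPendingDepth 3
set_option linter.unusedSectionVars false

namespace Pool.Agent.Helper53.LB

open Finset Filter Topology
open scoped BigOperators ComplexConjugate

noncomputable section



lemma h399_Tval (m N : ℕ) (μ l : ℕ → ℕ) (hl : ∀ i < m, l i ≤ N) :
    IA m l (fun v => 𝔼 p : Pt N, Rc m (fun i => rs N (aw m v i)) μ (rs N (aw m v m)) p) =
      ∏ i ∈ range m, (1 / 2 : ℂ) ^ (l i - μ i) := by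
  have e1 : ∀ v : ℕ → Al, Rc m (fun i => rs N (aw m v i)) μ (rs N (aw m v m)) =
      Rst m μ v := by
    intro v
    have h1 : Rc m (fun i => rs N (aw m v i)) μ (rs N (aw m v m)) =
        Rc m (fun i => rs N ((if i = 0 then 1 else v (i - 1)) * v i)) μ (rs N (aw m v m)) := by
      refine Rc_congr _ (fun i hi => ?_) (fun _ _ => rfl)
      show rs N (aw m v i) = _
      unfold aw
      rw [if_neg (by omega : ¬ i = m)]
    have h2 : aw m v m = (if m = 0 then 1 else v (m - 1)) := by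
      unfold aw
      rw [if_pos (rfl : m = m), mul_one]
    rw [h1, h2, Rc_eq_Rst, rs_one, one_mul]
  have e2 : (fun v : ℕ → Al =>
      𝔼 p : Pt N, Rc m (fun i => rs N (aw m v i)) μ (rs N (aw m v m)) p) =
      fun v => 𝔼 p : Pt N, (fun (p : Pt N) (v : ℕ → Al) => Rst m μ v p) p v := by
    funext v
    rw [e1 v]
  rw [e2, IA_expect (N := N) (fun (p : Pt N) (v : ℕ → Al) => Rst m μ v p)]
  have e3 : ∀ p : Pt N, IA m l ((fun (p : Pt N) (v : ℕ → Al) => Rst m μ v p) p) =
      ∏ i ∈ range m, (1 / 2 : ℂ) ^ (l i - μ i) := fun p => IA_Rst m μ l hl p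
  rw [expect_congr rfl fun p _ => e3 p]
  exact Fintype.expect_const _

lemma h399_last (m N : ℕ) (μ : ℕ → ℕ) (u : ℕ → Al) :
    QV (m + 2) N (insN (m + 1) N μ) (fun j => if j = m + 2 then 1 else rs N (aw (m + 1) u j)) =
      𝔼 p : Pt N, Rc (m + 1) (fun i => rs N (aw (m + 1) u i)) μ
        (rs N (aw (m + 1) u (m + 1))) p := by
  unfold QV
  have h1 : Rc (m + 2) (fun j => if j = m + 2 then (1 : Pt N → ℂ) else rs N (aw (m + 1) u j))
      (insN (m + 1) N μ)
      ((fun j => if j = m + 2 then (1 : Pt N → ℂ) else rs N (aw (m + 1) u j)) (m + 2)) =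
      Rc (m + 1) (fun i => rs N (aw (m + 1) u i)) μ (rs N (aw (m + 1) u (m + 1))) := by
    rw [Rc_ins_last (m + 1)]
    have h2 : (fun j => if j = m + 2 then (1 : Pt N → ℂ) else rs N (aw (m + 1) u j)) (m + 1) *
        (fun j => if j = m + 2 then (1 : Pt N → ℂ) else rs N (aw (m + 1) u j)) (m + 2) =
        rs N (aw (m + 1) u (m + 1)) := by
      show (if m + 1 = m + 2 then (1 : Pt N → ℂ) else rs N (aw (m + 1) u (m + 1))) *
        (if m + 2 = m + 2 then (1 : Pt N → ℂ) else rs N (aw (m + 1) u (m + 2))) = _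
      rw [if_neg (by omega : ¬ m + 1 = m + 2), if_pos rfl, mul_one]
    rw [h2]
    refine Rc_congr _ (fun i hi => ?_) (fun _ _ => rfl)
    show (if i = m + 2 then (1 : Pt N → ℂ) else rs N (aw (m + 1) u i)) = _
    rw [if_neg (by omega : ¬ i = m + 2)]
  rw [h1]

lemma h399_mid (m N : ℕ) (μ : ℕ → ℕ) (u : ℕ → Al) (i : ℕ) (hi : i < m + 1)
    (hu : u i * u i = 1) :
    QV (m + 2) N (insN i N μ) (fun j => if j = m + 2 then 1 else rs N (aw (m + 1) u j)) =
      𝔼 p : Pt N, Rc m (fun j => rs N (aw m (del i u) j)) μ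
        (rs N (aw m (del i u) m)) p := by
  unfold QV
  have hm : ∀ j ≤ m, mergeN i (fun j => if j = m + 2 then (1 : Pt N → ℂ) else
      rs N (aw (m + 1) u j)) j = rs N (aw m (del i u) j) := by
    intro j hj
    rw [← merge_aw (by omega : i ≤ m) u hu hj]
    rcases lt_trichotomy j i with h | h | h
    · rw [mergeN_lt _ h, mergeN_lt _ h, if_neg (by omega : ¬ j = m + 2)]
    · subst h
      rw [mergeN_eq, mergeN_eq, if_neg (by omega : ¬ j = m + 2),
        if_neg (by omega : ¬ j + 1 = m + 2), rs_mul]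
    · rw [mergeN_gt _ h, mergeN_gt _ h, if_neg (by omega : ¬ j + 1 = m + 2)]
  have h1 : Rc (m + 2) (fun j => if j = m + 2 then (1 : Pt N → ℂ) else rs N (aw (m + 1) u j))
      (insN i N μ)
      ((fun j => if j = m + 2 then (1 : Pt N → ℂ) else rs N (aw (m + 1) u j)) (m + 2)) =
      Rc m (fun j => rs N (aw m (del i u) j)) μ (rs N (aw m (del i u) m)) := by
    rw [Rc_ins (k := m + 1) _ _ _ hi]
    have h2 : (fun j => if j = m + 2 then (1 : Pt N → ℂ) else rs N (aw (m + 1) u j)) (m + 2) =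
        1 := by
      show (if m + 2 = m + 2 then (1 : Pt N → ℂ) else rs N (aw (m + 1) u (m + 2))) = _
      rw [if_pos rfl]
    rw [h2, Rc_succ', ce_one, mul_one, hm m le_rfl]
    exact Rc_congr _ (fun j hj => hm j hj.le) (fun _ _ => rfl)
  rw [h1]

theorem QV_word (m N : ℕ) (μ l : ℕ → ℕ) (hl : ∀ i < m + 1, l i ≤ N) :
    IA (m + 1) l (fun u => ∑ i ∈ range (m + 2), (-1 : ℂ) ^ i *
      QV (m + 2) N (insN i N μ) (fun j => if j = m + 2 then 1 else rs N (aw (m + 1) u j))) =
      ∑ j ∈ range (m + 1), (-1 : ℂ) ^ j * ∏ i ∈ range m, (1 / 2 : ℂ) ^ (del j l i - μ i) +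
        (-1 : ℂ) ^ (m + 1) * ∏ i ∈ range (m + 1), (1 / 2 : ℂ) ^ (l i - μ i) := by
  have hlin : (fun u : ℕ → Al => ∑ i ∈ range (m + 2), (-1 : ℂ) ^ i *
      QV (m + 2) N (insN i N μ) (fun j => if j = m + 2 then 1 else rs N (aw (m + 1) u j))) =
      ∑ i ∈ range (m + 2), ((-1 : ℂ) ^ i) • (fun u : ℕ → Al =>
        QV (m + 2) N (insN i N μ)
          (fun j => if j = m + 2 then 1 else rs N (aw (m + 1) u j))) := by
    funext u
    rw [Finset.sum_apply]
    rfl
  rw [hlin, map_sum, sum_range_succ]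
  congr 1
  · refine sum_congr rfl fun i hi => ?_
    rw [mem_range] at hi
    rw [map_smul, smul_eq_mul]
    congr 1
    have e1 : IA (m + 1) l (fun u : ℕ → Al => QV (m + 2) N (insN i N μ)
          (fun j => if j = m + 2 then 1 else rs N (aw (m + 1) u j))) =
        IA (m + 1) l (fun u : ℕ → Al => (fun v : ℕ → Al =>
          𝔼 p : Pt N, Rc m (fun j => rs N (aw m v j)) μ (rs N (aw m v m)) p) (del i u)) :=
      IA_congr fun u hu => h399_mid m N μ u i hi (chs_sq (hu i))
    rw [e1, IA_drop (by omega : i ≤ m) l (fun v : ℕ → Al =>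
          𝔼 p : Pt N, Rc m (fun j => rs N (aw m v j)) μ (rs N (aw m v m)) p)]
    refine h399_Tval m N μ (del i l) fun j hj => ?_
    unfold del
    split_ifs
    · exact hl _ (by omega)
    · exact hl _ (by omega)
  · rw [map_smul, smul_eq_mul]
    congr 1
    have e1 : (fun u : ℕ → Al => QV (m + 2) N (insN (m + 1) N μ)
          (fun j => if j = m + 2 then 1 else rs N (aw (m + 1) u j))) =
        fun u : ℕ → Al => 𝔼 p : Pt N, Rc (m + 1) (fun i => rs N (aw (m + 1) u i)) μ
          (rs N (aw (m + 1) u (m + 1))) p := funext fun u => h399_last m N μ u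
    rw [e1]
    exact h399_Tval (m + 1) N μ l hl

end

end Pool.Agent.Helper53.LB
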