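import Mathlib
import Pool.Agent.Helper53.LBx

set_option autoImplicit false
set_option maxSynthPendingDepth 3
set_option linter.unusedSectionVars false

namespace Pool.Agent.Helper53.LB

open Finset Filter Topology
open scoped BigOperators ComplexConjugate
open Pool.Agent.Helper53.BanachHomology (Tens tens lift lift_tens tens_ext)

noncomputable section

section H845

open Pool.Agent.Helper53.BanachHomology

variable {X : Type} [TopologicalSpace X] [CompactSpace X]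
variable {P P' Q Z : Type} [NormedAddCommGroup P] [NormedSpace ℂ P] [NormedAddCommGroup P']
  [NormedSpace ℂ P'] [NormedAddCommGroup Q] [NormedSpace ℂ Q] [NormedAddCommGroup Z] [NormedSpace ℂ Z]

lemma h845_norm_lift [CompleteSpace Z] (m : P →L[ℂ] Q →L[ℂ] Z) (t : Tens P Q) :
    ‖lift m t‖ ≤ ‖m‖ * ‖t‖ := by
  have h := norm_lift0_le m t
  rw [one_mul] at h
  exact h

lemma h845_norm_tens (p : P) (q : Q) : ‖(tens p q : Tens P Q)‖ ≤ ‖p‖ * ‖q‖ := by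
  refine (ContinuousLinearMap.opNorm_le_bound _ (by positivity) (fun β => ?_) : ‖tm p q‖ ≤ ‖p‖ * ‖q‖)
  calc ‖β p q‖ ≤ ‖β‖ * ‖p‖ * ‖q‖ := β.le_opNorm₂ p q
    _ = ‖p‖ * ‖q‖ * ‖β‖ := by ring

lemma h845_norm_lT (a : C(X, ℂ)) (t : Tens C(X, ℂ) P) : ‖lT X P a t‖ ≤ ‖a‖ * ‖t‖ := by
  refine (h845_norm_lift (P := C(X, ℂ)) (Q := P) (Z := Tens C(X, ℂ) P) _ t).trans ?_
  refine mul_le_mul_of_nonneg_right ?_ (norm_nonneg _)
  refine ContinuousLinearMap.opNorm_le_bound _ (norm_nonneg _) (fun b => ?_)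
  refine ContinuousLinearMap.opNorm_le_bound _ (by positivity) (fun q => ?_)
  show ‖(tens (a * b) q : Tens C(X, ℂ) P)‖ ≤ _
  refine (h845_norm_tens _ _).trans ?_
  exact mul_le_mul_of_nonneg_right (norm_mul_le _ _) (norm_nonneg _)

lemma h845_norm_idT (β : P →L[ℂ] P') (t : Tens C(X, ℂ) P) : ‖idT X β t‖ ≤ ‖β‖ * ‖t‖ := by
  refine (h845_norm_lift (P := C(X, ℂ)) (Q := P) (Z := Tens C(X, ℂ) P') _ t).trans ?_
  refine mul_le_mul_of_nonneg_right ?_ (norm_nonneg _)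
  refine ContinuousLinearMap.opNorm_le_bound _ (norm_nonneg _) (fun b => ?_)
  refine ContinuousLinearMap.opNorm_le_bound _ (by positivity) (fun q => ?_)
  show ‖(tens b (β q) : Tens C(X, ℂ) P')‖ ≤ _
  refine (h845_norm_tens _ _).trans ?_
  calc ‖b‖ * ‖β q‖ ≤ ‖b‖ * (‖β‖ * ‖q‖) := mul_le_mul_of_nonneg_left (β.le_opNorm q) (norm_nonneg _)
    _ = _ := by ring

lemma h845_norm_rT (R : C(X, ℂ) →L[ℂ] P →L[ℂ] P) (a : C(X, ℂ)) (h : ‖R a‖ ≤ ‖a‖) :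
    ‖rT R a‖ ≤ ‖a‖ := by
  refine ContinuousLinearMap.opNorm_le_bound _ (norm_nonneg _) (fun t => ?_)
  refine (h845_norm_idT (R a) t).trans ?_
  exact mul_le_mul_of_nonneg_right h (norm_nonneg _)

lemma h845_norm_nuS {N : ℕ} (x : Pt N → X) (n : ℕ) (ν : P →L[ℂ] (Pt N → ℂ)) :
    ‖nuS x n ν‖ ≤ ‖ν‖ := by
  refine ContinuousLinearMap.opNorm_le_bound _ (norm_nonneg _) (fun t => ?_)
  refine (h845_norm_lift (P := C(X, ℂ)) (Q := P) (Z := Pt N → ℂ) _ t).trans ?_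
  refine mul_le_mul_of_nonneg_right ?_ (norm_nonneg _)
  refine ContinuousLinearMap.opNorm_le_bound _ (norm_nonneg _) (fun a => ?_)
  refine ContinuousLinearMap.opNorm_le_bound _ (by positivity) (fun q => ?_)
  show ‖(cp x a) * (ceL n (ν q))‖ ≤ _
  have h1 : ‖cp x a‖ ≤ ‖a‖ := (pi_norm_le_iff_of_nonneg (norm_nonneg a)).2 fun τ => a.norm_coe_le_norm _
  have h2 : ‖ceL n (ν q)‖ ≤ ‖ν q‖ := by
    refine (ContinuousLinearMap.le_opNorm _ _).trans ?_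
    have : ‖(ceL n : (Pt N → ℂ) →L[ℂ] (Pt N → ℂ))‖ ≤ 1 := LinearMap.mkContinuous_norm_le _ zero_le_one _
    calc _ ≤ 1 * ‖ν q‖ := mul_le_mul_of_nonneg_right this (norm_nonneg _)
      _ = _ := one_mul _
  calc ‖(cp x a) * (ceL n (ν q))‖ ≤ ‖cp x a‖ * ‖ceL n (ν q)‖ := norm_mul_le _ _
    _ ≤ ‖a‖ * (‖ν‖ * ‖q‖) := mul_le_mul h1 (h2.trans (ν.le_opNorm q)) (norm_nonneg _) (norm_nonneg _)
    _ = _ := by ring

lemma h845_norm_cp {N : ℕ} (x : Pt N → X) : ‖cp x‖ ≤ 1 := LinearMap.mkContinuous_norm_le _ zero_le_one _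

lemma h845_norm_exL {N : ℕ} : ‖(exL : (Pt N → ℂ) →L[ℂ] ℂ)‖ ≤ 1 := LinearMap.mkContinuous_norm_le _ zero_le_one _

lemma h845_norm_mul (a : C(X, ℂ)) : ‖ContinuousLinearMap.mul ℂ C(X, ℂ) a‖ ≤ ‖a‖ := by
  refine ContinuousLinearMap.opNorm_le_bound _ (norm_nonneg _) (fun t => ?_)
  exact norm_mul_le _ _

end H845

section Vs

variable {X : Type} [TopologicalSpace X] [CompactSpace X]
variable (s : C(X, ℂ) →L[ℂ] C(X, ℂ) →L[ℂ] C(X, ℂ) →L[ℂ] T5 X)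

theorem norm_ops (a : C(X, ℂ)) (t : T5 X) :
    ‖lT X (T4 X) a t‖ ≤ ‖a‖ * ‖t‖ ∧ ‖r5 X a t‖ ≤ ‖a‖ * ‖t‖ ∧
      ∀ (N : ℕ) (x : Pt N → X) (n : ℕ → ℕ), ‖fQ x n t‖ ≤ ‖t‖ := by
  refine ⟨h845_norm_lT a t, ?_, ?_⟩
  · have h2 : ‖r2 X a‖ ≤ ‖a‖ := h845_norm_rT _ a (h845_norm_mul a)
    have h3 : ‖r3 X a‖ ≤ ‖a‖ := h845_norm_rT _ a h2
    have h4 : ‖r4 X a‖ ≤ ‖a‖ := h845_norm_rT _ a h3
    have h5 : ‖r5 X a‖ ≤ ‖a‖ := h845_norm_rT _ a h4
    exact (ContinuousLinearMap.le_opNorm _ _).trans (mul_le_mul_of_nonneg_right h5 (norm_nonneg _))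
  · intro N x n
    have h3 : ‖nuS x (n 3) (cp x)‖ ≤ 1 := (h845_norm_nuS x (n 3) (cp x)).trans (h845_norm_cp x)
    have h2 := (h845_norm_nuS x (n 2) (nuS x (n 3) (cp x))).trans h3
    have h1 := (h845_norm_nuS x (n 1) (nuS x (n 2) (nuS x (n 3) (cp x)))).trans h2
    have h0 := (h845_norm_nuS x (n 0) (nuS x (n 1) (nuS x (n 2) (nuS x (n 3) (cp x))))).trans h1
    show ‖exL (nuS x (n 0) (nuS x (n 1) (nuS x (n 2) (nuS x (n 3) (cp x)))) t)‖ ≤ ‖t‖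
    refine (ContinuousLinearMap.le_opNorm _ _).trans ?_
    have h5 := (ContinuousLinearMap.le_opNorm (nuS x (n 0) (nuS x (n 1) (nuS x (n 2) (nuS x (n 3) (cp x))))) t).trans
      (mul_le_mul_of_nonneg_right h0 (norm_nonneg t))
    rw [one_mul] at h5
    have h6 : ‖(exL : (Pt N → ℂ) →L[ℂ] ℂ)‖ ≤ 1 := h845_norm_exL
    calc _ ≤ 1 * ‖t‖ := mul_le_mul h6 h5 (norm_nonneg _) zero_le_one
      _ = _ := one_mul _


end Vs

end

end Pool.Agent.Helper53.LB
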