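import Mathlib
import Pool.Agent.Helper53.LBx

set_option autoImplicit false
set_option maxSynthPendingDepth 3
set_option linter.unusedSectionVars false

namespace Pool.Agent.Helper53.LB

open Finset Filter Topology
open scoped BigOperators ComplexConjugate
open Pool.Agent.Helper53.BanachHomology (Tens tens lift lift_tens tens_ext)

noncomputable section

section Vs

variable {X : Type} [TopologicalSpace X] [CompactSpace X]
variable (s : C(X, ℂ) →L[ℂ] C(X, ℂ) →L[ℂ] C(X, ℂ) →L[ℂ] T5 X)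

lemma lT_mul_aux {P : Type} [NormedAddCommGroup P] [NormedSpace ℂ P] (a b : C(X, ℂ))
    (t : Tens C(X, ℂ) P) : lT X P (a * b) t = lT X P a (lT X P b t) := by
  have h : lT X P (a * b) = (lT X P a).comp (lT X P b) := by
    refine tens_ext fun p q => ?_
    rw [ContinuousLinearMap.comp_apply, lT_tens, lT_tens, lT_tens, mul_assoc]
  rw [h]; rfl

lemma lT_r5_aux (a b : C(X, ℂ)) (t : T5 X) :
    lT X (T4 X) a (r5 X b t) = r5 X b (lT X (T4 X) a t) := by
  have h : (lT X (T4 X) a).comp (r5 X b) = (r5 X b).comp (lT X (T4 X) a) := by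
    refine tens_ext fun p q => ?_
    rw [ContinuousLinearMap.comp_apply, ContinuousLinearMap.comp_apply, r5_tens, lT_tens,
      lT_tens, r5_tens]
  have := congrArg (fun f => f t) h
  exact this

lemma AvB_zero_aux {r : ℕ → C(X, ℂ)} (hr : ∀ j, Uni (r j)) (k : ℕ)
    (φ0 φ1 φ2 φ3 φ4 : C(X, ℂ) → ℂ)
    (h : ∀ u, Uni u → φ0 u - φ1 u + φ2 u - φ3 u + φ4 u = 0) :
    AvB r k φ0 - AvB r k φ1 + AvB r k φ2 - AvB r k φ3 + AvB r k φ4 = 0 := by
  rw [← AvB_sub, ← AvB_add, ← AvB_sub, ← AvB_add]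
  rw [AvB_congr hr k (ψ := fun _ => 0) h, AvB_const]

lemma word_rel_aux
    (hs : ∀ a b c d, lT X (T4 X) a (s b c d) - s (a * b) c d + s a (b * c) d - s a b (c * d)
        + r5 X d (s a b c) = 0) (u0 u1 u2 u3 : C(X, ℂ)) (h0 : Uni u0) (h1 : Uni u1)
    (h2 : Uni u2) (h3 : Uni u3) :
    word s u1 u2 u3 - word s u0 u2 u3 + word s u0 u1 u3 - word s u0 u1 u2
      + word4 s u0 u1 u2 u3 = 0 := by
  have h := hs (u0 * star u1) (u1 * star u2) (u2 * star u3) u3
  have e1 : (u0 * star u1) * (u1 * star u2) = u0 * star u2 := by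
    rw [mul_assoc, ← mul_assoc (star u1), h1.star_mul, one_mul]
  have e2 : (u1 * star u2) * (u2 * star u3) = u1 * star u3 := by
    rw [mul_assoc, ← mul_assoc (star u2), h2.star_mul, one_mul]
  have e3 : (u2 * star u3) * u3 = u2 := by
    rw [mul_assoc, h3.star_mul, mul_one]
  rw [e1, e2, e3] at h
  have h' := congrArg (lT X (T4 X) (star u0)) h
  rw [map_add, map_sub, map_add, map_sub, map_zero, ← lT_mul_aux, lT_r5_aux] at h'
  have e4 : star u0 * (u0 * star u1) = star u1 := by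
    rw [← mul_assoc, h0.star_mul, one_mul]
  rw [e4] at h'
  exact h'

theorem G3_rel {N : ℕ} (x : Pt N → X) (r : ℕ → C(X, ℂ)) (hr : ∀ j, Uni (r j))
    (hs : ∀ a b c d, lT X (T4 X) a (s b c d) - s (a * b) c d + s a (b * c) d - s a b (c * d)
        + r5 X d (s a b c) = 0) (n l : ℕ → ℕ) :
    ∑ i ∈ range 4, (-1 : ℂ) ^ i * G3 s x r n (del i l) + P4 s x r n l = 0 := by
  have F : ∀ u0 u1 u2 u3 : C(X, ℂ), Uni u0 → Uni u1 → Uni u2 → Uni u3 →
      fQ x n (word s u1 u2 u3) - fQ x n (word s u0 u2 u3) + fQ x n (word s u0 u1 u3)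
        - fQ x n (word s u0 u1 u2) + fQ x n (word4 s u0 u1 u2 u3) = 0 := by
    intro u0 u1 u2 u3 h0 h1 h2 h3
    rw [← map_sub, ← map_add, ← map_sub, ← map_add, word_rel_aux s hs u0 u1 u2 u3 h0 h1 h2 h3,
      map_zero]
  have g0 : G3 s x r n (del 0 l) = AvB r (l 0) fun _ => AvB r (l 1) fun u1 =>
      AvB r (l 2) fun u2 => AvB r (l 3) fun u3 => fQ x n (word s u1 u2 u3) := by
    rw [AvB_const]; rfl
  have g1 : G3 s x r n (del 1 l) = AvB r (l 0) fun u0 => AvB r (l 1) fun _ =>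
      AvB r (l 2) fun u2 => AvB r (l 3) fun u3 => fQ x n (word s u0 u2 u3) := by
    simp only [AvB_const]; rfl
  have g2 : G3 s x r n (del 2 l) = AvB r (l 0) fun u0 => AvB r (l 1) fun u1 =>
      AvB r (l 2) fun _ => AvB r (l 3) fun u3 => fQ x n (word s u0 u1 u3) := by
    simp only [AvB_const]; rfl
  have g3 : G3 s x r n (del 3 l) = AvB r (l 0) fun u0 => AvB r (l 1) fun u1 =>
      AvB r (l 2) fun u2 => AvB r (l 3) fun _ => fQ x n (word s u0 u1 u2) := by
    simp only [AvB_const]; rfl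
  have hS : ∑ i ∈ range 4, (-1 : ℂ) ^ i * G3 s x r n (del i l)
      = G3 s x r n (del 0 l) - G3 s x r n (del 1 l) + G3 s x r n (del 2 l)
        - G3 s x r n (del 3 l) := by
    rw [Finset.sum_range_succ, Finset.sum_range_succ, Finset.sum_range_succ,
      Finset.sum_range_succ, Finset.sum_range_zero]
    ring
  rw [hS, g0, g1, g2, g3]
  exact AvB_zero_aux hr (l 0) _ _ _ _ _ fun u0 h0 =>
    AvB_zero_aux hr (l 1) _ _ _ _ _ fun u1 h1 =>
    AvB_zero_aux hr (l 2) _ _ _ _ _ fun u2 h2 =>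
    AvB_zero_aux hr (l 3) _ _ _ _ _ fun u3 h3 => F u0 u1 u2 u3 h0 h1 h2 h3



end Vs

end

end Pool.Agent.Helper53.LB
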