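import Mathlib
import Pool.Agent.Helper53.LBx

set_option autoImplicit false
set_option maxSynthPendingDepth 3
set_option linter.unusedSectionVars false

namespace Pool.Agent.Helper53.LB

open Finset Filter Topology
open scoped BigOperators ComplexConjugate
open Pool.Agent.Helper53.BanachHomology (Tens tens lift lift_tens tens_ext)

noncomputable section

section Vs

variable {X : Type} [TopologicalSpace X] [CompactSpace X]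
variable (s : C(X, ℂ) →L[ℂ] C(X, ℂ) →L[ℂ] C(X, ℂ) →L[ℂ] T5 X)

theorem G3_bound
    (hT5 : ∀ (φ : T5 X →L[ℂ] ℂ) (M : ℝ),
      (∀ a b c d e : C(X, ℂ), ‖a‖ ≤ 1 → ‖b‖ ≤ 1 → ‖c‖ ≤ 1 → ‖d‖ ≤ 1 → ‖e‖ ≤ 1 →
        ‖φ (el a b c d e)‖ ≤ M) → ∀ t : T5 X, ‖φ t‖ ≤ M * ‖t‖)
    (hfQ : ∀ (N : ℕ) (x : Pt N → X) (n : ℕ → ℕ) (a b c d e : C(X, ℂ)),
      fQ x n (el a b c d e) = QV 4 N n (fun i τ => seq5 a b c d e i (x τ)))
    (hops : ∀ (a : C(X, ℂ)) (t : T5 X), ‖lT X (T4 X) a t‖ ≤ ‖a‖ * ‖t‖)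
    {N : ℕ} (x : Pt N → X) (r : ℕ → C(X, ℂ)) (hr : ∀ j, Uni (r j)) (l : ℕ → ℕ) (q : ℕ)
    (n n' : ℕ → ℕ → ℕ) (M : ℝ)
    (hM : ∀ f : ℕ → Pt N → ℂ, (∀ i x, ‖f i x‖ ≤ 1) →
      ‖∑ t ∈ range q, (QV 4 N (n t) f - QV 4 N (n' t) f)‖ ≤ M) :
    ‖∑ t ∈ range q, (G3 s x r (n t) l - G3 s x r (n' t) l)‖ ≤ ‖s‖ * M := by
  have hM0 : 0 ≤ M := (norm_nonneg _).trans (hM (fun _ _ => 0) (fun _ _ => by simp))
  set φ : T5 X →L[ℂ] ℂ := ∑ t ∈ range q, (fQ x (n t) - fQ x (n' t)) with hφ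
  have hφa : ∀ t5 : T5 X, φ t5 = ∑ t ∈ range q, (fQ x (n t) t5 - fQ x (n' t) t5) := by
    intro t5
    rw [hφ, ContinuousLinearMap.sum_apply]
    rfl
  have hseq : ∀ (a b c d e : C(X, ℂ)), ‖a‖ ≤ 1 → ‖b‖ ≤ 1 → ‖c‖ ≤ 1 → ‖d‖ ≤ 1 → ‖e‖ ≤ 1 →
      ∀ i, ‖seq5 a b c d e i‖ ≤ 1 := by
    intro a b c d e ha hb hc hd he i
    unfold seq5
    split_ifs <;> assumption
  have hφn : ∀ t : T5 X, ‖φ t‖ ≤ M * ‖t‖ := by
    refine hT5 φ M ?_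
    intro a b c d e ha hb hc hd he
    rw [hφa]
    simp only [hfQ]
    exact hM _ fun i τ => (ContinuousMap.norm_coe_le_norm _ _).trans
      (hseq a b c d e ha hb hc hd he i)
  have hword : ∀ u0 u1 u2 : C(X, ℂ), Uni u0 → Uni u1 → Uni u2 → ‖word s u0 u1 u2‖ ≤ ‖s‖ := by
    intro u0 u1 u2 h0 h1 h2
    unfold word
    have e1 := hops (star u0) (s (u0 * star u1) (u1 * star u2) u2)
    have e2 : ‖s (u0 * star u1) (u1 * star u2) u2‖ ≤ ‖s‖ := by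
      calc ‖s (u0 * star u1) (u1 * star u2) u2‖
          ≤ ‖s (u0 * star u1) (u1 * star u2)‖ * ‖u2‖ := ContinuousLinearMap.le_opNorm _ _
        _ ≤ ‖s (u0 * star u1) (u1 * star u2)‖ * 1 := by gcongr; exact h2.norm_le
        _ ≤ (‖s (u0 * star u1)‖ * ‖u1 * star u2‖) * 1 := by
            gcongr; exact ContinuousLinearMap.le_opNorm _ _
        _ ≤ (‖s (u0 * star u1)‖ * 1) * 1 := by gcongr; exact (h1.mul h2.star).norm_le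
        _ ≤ ((‖s‖ * ‖u0 * star u1‖) * 1) * 1 := by
            gcongr; exact ContinuousLinearMap.le_opNorm _ _
        _ ≤ ((‖s‖ * 1) * 1) * 1 := by gcongr; exact (h0.mul h1.star).norm_le
        _ = ‖s‖ := by ring
    calc _ ≤ ‖star u0‖ * ‖s (u0 * star u1) (u1 * star u2) u2‖ := e1
      _ ≤ 1 * ‖s‖ := by gcongr; exact h0.star.norm_le
      _ = ‖s‖ := one_mul _
  have hG : ∑ t ∈ range q, (G3 s x r (n t) l - G3 s x r (n' t) l) =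
      AvB r (l 0) fun u0 => AvB r (l 1) fun u1 => AvB r (l 2) fun u2 => φ (word s u0 u1 u2) := by
    simp only [G3, hφa, AvB_sub, AvB_sum]
  rw [hG]
  refine AvB_norm_le hr _ fun u0 h0 => AvB_norm_le hr _ fun u1 h1 => AvB_norm_le hr _ fun u2 h2 => ?_
  calc ‖φ (word s u0 u1 u2)‖ ≤ M * ‖word s u0 u1 u2‖ := hφn _
    _ ≤ M * ‖s‖ := mul_le_mul_of_nonneg_left (hword u0 u1 u2 h0 h1 h2) hM0
    _ = ‖s‖ * M := mul_comm _ _



end Vs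

end

end Pool.Agent.Helper53.LB

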