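import Mathlib
import Pool.Agent.Helper53.LBx

set_option autoImplicit false
set_option maxSynthPendingDepth 3
set_option linter.unusedSectionVars false

namespace Pool.Agent.Helper53.LB

open Finset Filter Topology
open scoped BigOperators ComplexConjugate
open Pool.Agent.Helper53.BanachHomology (Tens tens lift lift_tens tens_ext)

noncomputable section

section Vs

variable {X : Type} [TopologicalSpace X] [CompactSpace X]
variable (s : C(X, ℂ) →L[ℂ] C(X, ℂ) →L[ℂ] C(X, ℂ) →L[ℂ] T5 X)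

/-- exchange of two box averages -/
theorem V3_comm (r : ℕ → C(X, ℂ)) (k k' : ℕ) (G : C(X, ℂ) → C(X, ℂ) → ℂ) :
    AvB r k (fun w => AvB r k' (fun u => G w u)) = AvB r k' (fun u => AvB r k (fun w => G w u)) := by
  unfold AvB
  exact Finset.expect_comm _ _ _

theorem V3_step
    (hshift : ∀ r : ℕ → C(X, ℂ), (∀ j, Uni (r j)) → ∀ k k' : ℕ, k < k' →
      ∀ (e : Fin k → Fin (Lb k)) (φ : C(X, ℂ) → ℂ) (M : ℝ), (∀ u, Uni u → ‖φ u‖ ≤ M) →
        ‖AvB r k' (fun u => φ (ub r k e * u)) - AvB r k' φ‖ ≤ M * (1 / 2 : ℝ) ^ k)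
    (r : ℕ → C(X, ℂ)) (hr : ∀ j, Uni (r j)) (k k' : ℕ) (hk : k < k') (e : Fin k → Fin (Lb k))
    (G G' : C(X, ℂ) → ℂ) (M δ : ℝ) (hGG : ∀ a, Uni a → ‖G' a - G a‖ ≤ δ)
    (hG : ∀ a, Uni a → ‖G a‖ ≤ M) :
    ‖AvB r k' (fun u => G' (ub r k e * u)) - AvB r k' G‖ ≤ δ + M * (1 / 2 : ℝ) ^ k := by
  have h1 : AvB r k' (fun u => G' (ub r k e * u)) - AvB r k' G
      = AvB r k' (fun u => G' (ub r k e * u) - G (ub r k e * u))
        + (AvB r k' (fun u => G (ub r k e * u)) - AvB r k' G) := by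
    rw [AvB_sub]; ring
  rw [h1]
  refine (norm_add_le _ _).trans (add_le_add ?_ (hshift r hr k k' hk e G M hG))
  exact AvB_norm_le hr k' (fun u hu => hGG _ ((uni_ub hr k e).mul hu))

theorem V3_shift
    (hshift : ∀ r : ℕ → C(X, ℂ), (∀ j, Uni (r j)) → ∀ k k' : ℕ, k < k' →
      ∀ (e : Fin k → Fin (Lb k)) (φ : C(X, ℂ) → ℂ) (M : ℝ), (∀ u, Uni u → ‖φ u‖ ≤ M) →
        ‖AvB r k' (fun u => φ (ub r k e * u)) - AvB r k' φ‖ ≤ M * (1 / 2 : ℝ) ^ k)
    (r : ℕ → C(X, ℂ)) (hr : ∀ j, Uni (r j)) (k : ℕ) (l : ℕ → ℕ) (hk : ∀ j < 4, k < l j)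
    (e : Fin k → Fin (Lb k)) (F : C(X, ℂ) → C(X, ℂ) → C(X, ℂ) → C(X, ℂ) → ℂ) (M : ℝ)
    (hF : ∀ a b c d, Uni a → Uni b → Uni c → Uni d → ‖F a b c d‖ ≤ M) :
    ‖AvB r (l 0) (fun u0 => AvB r (l 1) fun u1 => AvB r (l 2) fun u2 => AvB r (l 3) fun u3 =>
        F (ub r k e * u0) (ub r k e * u1) (ub r k e * u2) (ub r k e * u3))
      - AvB r (l 0) (fun u0 => AvB r (l 1) fun u1 => AvB r (l 2) fun u2 => AvB r (l 3) fun u3 =>
        F u0 u1 u2 u3)‖ ≤ 4 * (M * (1 / 2 : ℝ) ^ k) := by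
  set δ := M * (1 / 2 : ℝ) ^ k with hδ
  have s1 : ∀ a b c, Uni a → Uni b → Uni c →
      ‖AvB r (l 3) (fun u3 => F a b c (ub r k e * u3)) - AvB r (l 3) (fun u3 => F a b c u3)‖
        ≤ 0 + δ := by
    intro a b c ha hb hc
    exact V3_step hshift r hr k (l 3) (hk 3 (by norm_num)) e (fun u => F a b c u)
      (fun u => F a b c u) M 0 (fun u _ => by rw [sub_self, norm_zero])
      (fun u hu => hF a b c u ha hb hc hu)
  have s2 : ∀ a b, Uni a → Uni b →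
      ‖AvB r (l 2) (fun u2 => AvB r (l 3) (fun u3 => F a b (ub r k e * u2) (ub r k e * u3)))
        - AvB r (l 2) (fun u2 => AvB r (l 3) (fun u3 => F a b u2 u3))‖ ≤ (0 + δ) + δ := by
    intro a b ha hb
    exact V3_step hshift r hr k (l 2) (hk 2 (by norm_num)) e
      (fun u2 => AvB r (l 3) (fun u3 => F a b u2 u3))
      (fun u2 => AvB r (l 3) (fun u3 => F a b u2 (ub r k e * u3))) M _
      (fun u hu => s1 a b u ha hb hu)
      (fun u hu => AvB_norm_le hr _ (fun u' hu' => hF a b u u' ha hb hu hu'))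
  have s3 : ∀ a, Uni a →
      ‖AvB r (l 1) (fun u1 => AvB r (l 2) (fun u2 => AvB r (l 3)
          (fun u3 => F a (ub r k e * u1) (ub r k e * u2) (ub r k e * u3))))
        - AvB r (l 1) (fun u1 => AvB r (l 2) (fun u2 => AvB r (l 3) (fun u3 => F a u1 u2 u3)))‖
        ≤ ((0 + δ) + δ) + δ := by
    intro a ha
    exact V3_step hshift r hr k (l 1) (hk 1 (by norm_num)) e
      (fun u1 => AvB r (l 2) (fun u2 => AvB r (l 3) (fun u3 => F a u1 u2 u3)))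
      (fun u1 => AvB r (l 2) (fun u2 => AvB r (l 3)
        (fun u3 => F a u1 (ub r k e * u2) (ub r k e * u3)))) M _
      (fun u hu => s2 a u ha hu)
      (fun u hu => AvB_norm_le hr _ (fun u' hu' => AvB_norm_le hr _
        (fun u'' hu'' => hF a u u' u'' ha hu hu' hu'')))
  have s4 := V3_step hshift r hr k (l 0) (hk 0 (by norm_num)) e
      (fun u0 => AvB r (l 1) (fun u1 => AvB r (l 2) (fun u2 => AvB r (l 3)
        (fun u3 => F u0 u1 u2 u3))))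
      (fun u0 => AvB r (l 1) (fun u1 => AvB r (l 2) (fun u2 => AvB r (l 3)
        (fun u3 => F u0 (ub r k e * u1) (ub r k e * u2) (ub r k e * u3))))) M _
      (fun u hu => s3 u hu)
      (fun u hu => AvB_norm_le hr _ (fun u' hu' => AvB_norm_le hr _
        (fun u'' hu'' => AvB_norm_le hr _ (fun u3 hu3 => hF u u' u'' u3 hu hu' hu'' hu3))))
  refine s4.trans (le_of_eq ?_)
  rw [← hδ]; ring

theorem V3_lT_mul (P : Type) [NormedAddCommGroup P] [NormedSpace ℂ P] (a b : C(X, ℂ))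
    (t : Tens C(X, ℂ) P) : lT X P (a * b) t = lT X P a (lT X P b t) := by
  have h : lT X P (a * b) = (lT X P a).comp (lT X P b) := by
    apply tens_ext
    intro p q
    rw [ContinuousLinearMap.comp_apply, lT_tens, lT_tens, lT_tens, mul_assoc]
  rw [h]; rfl

theorem V3_rT_mul {P : Type} [NormedAddCommGroup P] [NormedSpace ℂ P]
    (R : C(X, ℂ) →L[ℂ] P →L[ℂ] P) (hR : ∀ a b t, R (a * b) t = R a (R b t)) (a b : C(X, ℂ))
    (t : Tens C(X, ℂ) P) : rT R (a * b) t = rT R a (rT R b t) := by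
  have h : rT R (a * b) = (rT R a).comp (rT R b) := by
    apply tens_ext
    intro p q
    rw [ContinuousLinearMap.comp_apply, rT_tens, rT_tens, rT_tens, hR]
  rw [h]; rfl

theorem V3_r5_mul (a b : C(X, ℂ)) (t : T5 X) : r5 X (a * b) t = r5 X a (r5 X b t) := by
  have h2 : ∀ (a b : C(X, ℂ)) (t : T2 X), r2 X (a * b) t = r2 X a (r2 X b t) :=
    fun a b t => V3_rT_mul _ (fun a b t => by
      show a * b * t = a * (b * t)
      rw [mul_assoc]) a b t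
  have h3 : ∀ (a b : C(X, ℂ)) (t : T3 X), r3 X (a * b) t = r3 X a (r3 X b t) :=
    fun a b t => V3_rT_mul _ h2 a b t
  have h4 : ∀ (a b : C(X, ℂ)) (t : T4 X), r4 X (a * b) t = r4 X a (r4 X b t) :=
    fun a b t => V3_rT_mul _ h3 a b t
  exact V3_rT_mul _ h4 a b t

theorem V3_comm_lr (a b : C(X, ℂ)) (t : T5 X) :
    r5 X a (lT X (T4 X) b t) = lT X (T4 X) b (r5 X a t) := by
  have h : (r5 X a).comp (lT X (T4 X) b) = (lT X (T4 X) b).comp (r5 X a) := by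
    apply tens_ext
    intro p q
    rw [ContinuousLinearMap.comp_apply, ContinuousLinearMap.comp_apply, lT_tens, r5_tens, r5_tens,
      lT_tens]
  exact congrArg (fun f : T5 X →L[ℂ] T5 X => f t) h

/-- the word of translated unimodular functions -/
theorem V3_word (w u0 u1 u2 u3 : C(X, ℂ)) (hw : Uni w) :
    word4 s (w * u0) (w * u1) (w * u2) (w * u3)
      = r5 X w (lT X (T4 X) (star w) (word4 s u0 u1 u2 u3)) := by
  have hc : ∀ a b : C(X, ℂ), (w * a) * star (w * b) = a * star b := by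
    intro a b
    rw [star_mul', mul_mul_mul_comm, hw.mul_star, one_mul]
  unfold word4
  rw [hc, hc, hc, star_mul', V3_r5_mul, V3_lT_mul, V3_comm_lr u3 (star w)]

theorem V3_el (w a b c d e : C(X, ℂ)) :
    r5 X w (lT X (T4 X) (star w) (el a b c d e)) = el (star w * a) b c d (w * e) := by
  unfold el
  rw [lT_tens, r5_tens, r4_tens, r3_tens, r2_tens]

theorem V3_QV_congr {N : ℕ} (n : ℕ → ℕ) (f f' : ℕ → Pt N → ℂ) (h : ∀ j ≤ 4, f j = f' j) :
    QV 4 N n f = QV 4 N n f' := by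
  unfold QV
  have h0 := h 0 (by norm_num)
  have h1 := h 1 (by norm_num)
  have h2 := h 2 (by norm_num)
  have h3 := h 3 (by norm_num)
  have h4 := h 4 (by norm_num)
  have e : ∀ f : ℕ → Pt N → ℂ, Rc 4 f n (f 4) = f 0 * ce (n 0) (f 1 * ce (n 1) (f 2 * ce (n 2)
    (f 3 * ce (n 3) (f 4)))) := fun f => rfl
  rw [e, e, h0, h1, h2, h3, h4]

/-- the averaged functional -/
def PsiV {N : ℕ} (x : Pt N → X) (r : ℕ → C(X, ℂ)) (n : ℕ → ℕ) (k : ℕ) : T5 X →L[ℂ] ℂ :=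
  ((Fintype.card (Fin k → Fin (Lb k)) : ℂ)⁻¹) • ∑ e : Fin k → Fin (Lb k),
    (fQ x n).comp ((r5 X (ub r k e)).comp (lT X (T4 X) (star (ub r k e))))

theorem PsiV_apply {N : ℕ} (x : Pt N → X) (r : ℕ → C(X, ℂ)) (n : ℕ → ℕ) (k : ℕ) (t : T5 X) :
    PsiV x r n k t = AvB r k (fun w => fQ x n (r5 X w (lT X (T4 X) (star w) t))) := by
  unfold PsiV AvB
  rw [Fintype.expect_eq_sum_div_card, ContinuousLinearMap.smul_apply, ContinuousLinearMap.sum_apply,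
    smul_eq_mul, div_eq_inv_mul]
  rfl

theorem P4_le
    (hT5 : ∀ (φ : T5 X →L[ℂ] ℂ) (M : ℝ),
      (∀ a b c d e : C(X, ℂ), ‖a‖ ≤ 1 → ‖b‖ ≤ 1 → ‖c‖ ≤ 1 → ‖d‖ ≤ 1 → ‖e‖ ≤ 1 →
        ‖φ (el a b c d e)‖ ≤ M) → ∀ t : T5 X, ‖φ t‖ ≤ M * ‖t‖)
    (hfQ : ∀ (N : ℕ) (x : Pt N → X) (n : ℕ → ℕ) (a b c d e : C(X, ℂ)),
      fQ x n (el a b c d e) = QV 4 N n (fun i τ => seq5 a b c d e i (x τ)))
    (hops : ∀ (a : C(X, ℂ)) (t : T5 X), ‖lT X (T4 X) a t‖ ≤ ‖a‖ * ‖t‖ ∧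
      ‖r5 X a t‖ ≤ ‖a‖ * ‖t‖ ∧ ∀ (N : ℕ) (x : Pt N → X) (n : ℕ → ℕ), ‖fQ x n t‖ ≤ ‖t‖)
    (hpt : ∀ (N : ℕ) (x : Pt N → X) (r : ℕ → C(X, ℂ)),
      (∀ j < N, ∀ τ, r j (x τ) = bs (emb N τ j)) → ∀ k ≤ N, ∀ (Ψ : (Pt N → ℂ) → ℂ),
        AvB r k (fun u => Ψ (fun τ => u (x τ))) = Av k (fun w => Ψ (rs N w)))
    (hshift : ∀ r : ℕ → C(X, ℂ), (∀ j, Uni (r j)) → ∀ k k' : ℕ, k < k' →
      ∀ (e : Fin k → Fin (Lb k)) (φ : C(X, ℂ) → ℂ) (M : ℝ), (∀ u, Uni u → ‖φ u‖ ≤ M) →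
        ‖AvB r k' (fun u => φ (ub r k e * u)) - AvB r k' φ‖ ≤ M * (1 / 2 : ℝ) ^ k)
    (hQV : ∀ (N l : ℕ), l ≤ N → ∀ (n : ℕ → ℕ) (i : ℕ), i < 4 → ∀ f : ℕ → Pt N → ℂ,
      (∀ i x, ‖f i x‖ ≤ 1) → ‖Av l fun w => QV 4 N n (fun j => if j = 0 then rs N w * f 0 else
        if j = 4 then rs N w * f 4 else f j)‖ ≤ (1 / 2 : ℝ) ^ (l - n i))
    {N : ℕ} (x : Pt N → X) (r : ℕ → C(X, ℂ)) (hr : ∀ j, Uni (r j))
    (hrx : ∀ j < N, ∀ τ, r j (x τ) = bs (emb N τ j)) (n l : ℕ → ℕ) (i : ℕ) (hi : i < 4)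
    (hl : ∀ j < 4, l 0 ≤ l j) (hlN : ∀ j < 4, l j ≤ N) :
    ‖P4 s x r n l‖ ≤ 10 * ‖s‖ * (1 / 2 : ℝ) ^ (l 0 - n i) := by
  -- bound of the words
  have hword : ∀ u0 u1 u2 u3, Uni u0 → Uni u1 → Uni u2 → Uni u3 →
      ‖word4 s u0 u1 u2 u3‖ ≤ ‖s‖ := by
    intro u0 u1 u2 u3 h0 h1 h2 h3
    unfold word4
    refine ((hops _ _).2.1).trans ?_
    have a1 : ‖u3‖ ≤ 1 := h3.norm_le
    have a2 : ‖star u0‖ ≤ 1 := h0.star.norm_le
    have a3 : ‖u0 * star u1‖ ≤ 1 := (h0.mul h1.star).norm_le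
    have a4 : ‖u1 * star u2‖ ≤ 1 := (h1.mul h2.star).norm_le
    have a5 : ‖u2 * star u3‖ ≤ 1 := (h2.mul h3.star).norm_le
    have b1 : ‖s (u0 * star u1) (u1 * star u2) (u2 * star u3)‖ ≤ ‖s‖ := by
      have c1 : ‖s (u0 * star u1)‖ ≤ ‖s‖ :=
        (s.le_of_opNorm_le_of_le (a := ‖s‖) (b := 1) le_rfl a3).trans (by rw [mul_one])
      have c2 : ‖s (u0 * star u1) (u1 * star u2)‖ ≤ ‖s‖ :=
        ((s (u0 * star u1)).le_of_opNorm_le_of_le (a := ‖s‖) (b := 1) c1 a4).trans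
          (by rw [mul_one])
      exact ((s (u0 * star u1) (u1 * star u2)).le_of_opNorm_le_of_le
        (a := ‖s‖) (b := 1) c2 a5).trans (by rw [mul_one])
    have b2 : ‖lT X (T4 X) (star u0) (s (u0 * star u1) (u1 * star u2) (u2 * star u3))‖ ≤ ‖s‖ := by
      refine ((hops _ _).1).trans ?_
      calc ‖star u0‖ * ‖s (u0 * star u1) (u1 * star u2) (u2 * star u3)‖ ≤ 1 * ‖s‖ :=
            mul_le_mul a2 b1 (norm_nonneg _) zero_le_one
        _ = ‖s‖ := one_mul _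
    calc ‖u3‖ * ‖lT X (T4 X) (star u0) (s (u0 * star u1) (u1 * star u2) (u2 * star u3))‖
        ≤ 1 * ‖s‖ := mul_le_mul a1 b2 (norm_nonneg _) zero_le_one
      _ = ‖s‖ := one_mul _
  have hF : ∀ u0 u1 u2 u3, Uni u0 → Uni u1 → Uni u2 → Uni u3 →
      ‖fQ x n (word4 s u0 u1 u2 u3)‖ ≤ ‖s‖ := by
    intro u0 u1 u2 u3 h0 h1 h2 h3
    exact ((hops 1 (word4 s u0 u1 u2 u3)).2.2 N x n).trans (hword _ _ _ _ h0 h1 h2 h3)
  have hs0 := norm_nonneg s
  rcases Nat.eq_zero_or_pos (l 0) with hl0 | hl0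
  · rw [hl0, Nat.zero_sub, pow_zero, mul_one]
    have h1 : ‖P4 s x r n l‖ ≤ ‖s‖ := by
      unfold P4
      exact AvB_norm_le hr _ fun u0 h0 => AvB_norm_le hr _ fun u1 h1 => AvB_norm_le hr _
        fun u2 h2 => AvB_norm_le hr _ fun u3 h3 => hF u0 u1 u2 u3 h0 h1 h2 h3
    linarith
  obtain ⟨k, hk⟩ : ∃ k, l 0 = k + 1 := ⟨l 0 - 1, by omega⟩
  have hkl : ∀ j < 4, k < l j := fun j hj => by have := hl j hj; omega
  have hkN : k ≤ N := by have := hlN 0 (by norm_num); omega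
  -- the averaged functional is small
  have hPsi : ∀ t : T5 X, ‖PsiV x r n k t‖ ≤ (1 / 2 : ℝ) ^ (k - n i) * ‖t‖ := by
    apply hT5
    intro a b c d e ha hb hc hd he
    rw [PsiV_apply]
    set Ψ : (Pt N → ℂ) → ℂ := fun v => QV 4 N n (fun j => if j = 0 then
            v * (fun τ => seq5 a b c d e 0 (x τ)) else if j = 4 then
            v * (fun τ => seq5 a b c d e 4 (x τ)) else (fun τ => seq5 a b c d e j (x τ))) with hΨ
    have h1 : AvB r k (fun w => fQ x n (r5 X w (lT X (T4 X) (star w) (el a b c d e))))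
        = AvB r k (fun w => Ψ (fun τ => w (x τ))) := by
      unfold AvB
      apply expect_congr rfl
      intro E _
      show fQ x n (r5 X (ub r k E) (lT X (T4 X) (star (ub r k E)) (el a b c d e)))
        = Ψ (fun τ => ub r k E (x τ))
      rw [V3_el, hfQ]
      apply V3_QV_congr
      intro j hj
      have hreal : ∀ τ, star (ub r k E (x τ)) = ub r k E (x τ) := by
        intro τ
        unfold ub
        rw [ContinuousMap.coe_prod, Finset.prod_apply, star_prod]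
        apply Finset.prod_congr rfl
        intro j _
        rw [ContinuousMap.pow_apply, star_pow, hrx j (lt_of_lt_of_le j.2 hkN) τ]
        congr 1
        unfold bs
        split_ifs <;> simp
      have hj5 : j = 0 ∨ j = 1 ∨ j = 2 ∨ j = 3 ∨ j = 4 := by omega
      rcases hj5 with rfl | rfl | rfl | rfl | rfl
      · funext τ
        show (star (ub r k E) * a) (x τ) = ub r k E (x τ) * a (x τ)
        rw [ContinuousMap.mul_apply, ContinuousMap.star_apply, hreal]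
      · rfl
      · rfl
      · rfl
      · rfl
    rw [h1, hpt N x r hrx k hkN Ψ]
    have h2 := hQV N k hkN n i hi (fun j τ => seq5 a b c d e j (x τ)) (by
      intro j τ
      have hb1 : ∀ a : C(X, ℂ), ‖a‖ ≤ 1 → ‖a (x τ)‖ ≤ 1 :=
        fun a ha => (a.norm_coe_le_norm _).trans ha
      unfold seq5
      split_ifs <;> apply hb1 <;> assumption)
    exact h2
  -- the average of the translated remainders
  have hav : AvB r k (fun w => AvB r (l 0) (fun u0 => AvB r (l 1) fun u1 => AvB r (l 2) fun u2 =>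
      AvB r (l 3) fun u3 => fQ x n (word4 s (w * u0) (w * u1) (w * u2) (w * u3))))
      = AvB r (l 0) (fun u0 => AvB r (l 1) fun u1 => AvB r (l 2) fun u2 =>
      AvB r (l 3) fun u3 => PsiV x r n k (word4 s u0 u1 u2 u3)) := by
    rw [AvB_congr hr k (fun w hw => by
      show _ = AvB r (l 0) (fun u0 => AvB r (l 1) fun u1 => AvB r (l 2) fun u2 =>
        AvB r (l 3) fun u3 => fQ x n (r5 X w (lT X (T4 X) (star w) (word4 s u0 u1 u2 u3))))
      simp only [V3_word s w _ _ _ _ hw])]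
    simp only [PsiV_apply]
    rw [V3_comm]
    congr 1; funext u0
    rw [V3_comm]
    congr 1; funext u1
    rw [V3_comm]
    congr 1; funext u2
    rw [V3_comm]
  have hsmall : ‖AvB r (l 0) (fun u0 => AvB r (l 1) fun u1 => AvB r (l 2) fun u2 =>
      AvB r (l 3) fun u3 => PsiV x r n k (word4 s u0 u1 u2 u3))‖ ≤ (1 / 2 : ℝ) ^ (k - n i) * ‖s‖ := by
    exact AvB_norm_le hr _ fun u0 h0 => AvB_norm_le hr _ fun u1 h1 => AvB_norm_le hr _
        fun u2 h2 => AvB_norm_le hr _ fun u3 h3 => (hPsi _).trans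
          (mul_le_mul_of_nonneg_left (hword u0 u1 u2 u3 h0 h1 h2 h3) (by positivity))
  -- comparison
  have hcmp : ‖AvB r k (fun w => AvB r (l 0) (fun u0 => AvB r (l 1) fun u1 => AvB r (l 2) fun u2 =>
      AvB r (l 3) fun u3 => fQ x n (word4 s (w * u0) (w * u1) (w * u2) (w * u3)))
      - P4 s x r n l)‖ ≤ 4 * (‖s‖ * (1 / 2 : ℝ) ^ k) := by
    unfold AvB
    refine (RCLike.norm_expect_le (K := ℂ)).trans ?_
    refine expect_le univ_nonempty fun e _ => ?_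
    exact V3_shift hshift r hr k l hkl e (fun u0 u1 u2 u3 => fQ x n (word4 s u0 u1 u2 u3)) ‖s‖ hF
  have hP : P4 s x r n l = AvB r k (fun w => AvB r (l 0) (fun u0 => AvB r (l 1) fun u1 =>
      AvB r (l 2) fun u2 => AvB r (l 3) fun u3 => fQ x n (word4 s (w * u0) (w * u1) (w * u2) (w * u3))))
      - AvB r k (fun w => AvB r (l 0) (fun u0 => AvB r (l 1) fun u1 => AvB r (l 2) fun u2 =>
      AvB r (l 3) fun u3 => fQ x n (word4 s (w * u0) (w * u1) (w * u2) (w * u3)))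
      - P4 s x r n l) := by
    rw [AvB_sub, AvB_const]; ring
  rw [hP, hav]
  refine (norm_sub_le _ _).trans ?_
  have hp1 : (1 / 2 : ℝ) ^ k ≤ (1 / 2 : ℝ) ^ (k - n i) :=
    pow_le_pow_of_le_one (by norm_num) (by norm_num) (Nat.sub_le _ _)
  have hp2 : (1 / 2 : ℝ) ^ (k - n i) ≤ 2 * (1 / 2 : ℝ) ^ (l 0 - n i) := by
    have h1 : (1 / 2 : ℝ) ^ (k - n i + 1) ≤ (1 / 2 : ℝ) ^ (l 0 - n i) :=
      pow_le_pow_of_le_one (by norm_num) (by norm_num) (by omega)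
    rw [pow_succ] at h1
    linarith
  have hp0 : 0 ≤ (1 / 2 : ℝ) ^ (k - n i) := by positivity
  have f1 : ‖s‖ * (1 / 2 : ℝ) ^ k ≤ ‖s‖ * (1 / 2 : ℝ) ^ (k - n i) :=
    mul_le_mul_of_nonneg_left hp1 hs0
  have f2 : ‖s‖ * (1 / 2 : ℝ) ^ (k - n i) ≤ ‖s‖ * (2 * (1 / 2 : ℝ) ^ (l 0 - n i)) :=
    mul_le_mul_of_nonneg_left hp2 hs0
  calc _ ≤ (1 / 2 : ℝ) ^ (k - n i) * ‖s‖ + 4 * (‖s‖ * (1 / 2 : ℝ) ^ k) := add_le_add hsmall hcmp
    _ ≤ 10 * ‖s‖ * (1 / 2 : ℝ) ^ (l 0 - n i) := by linarith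


end Vs

end

end Pool.Agent.Helper53.LB
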