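import Mathlib
import Pool.Agent.Helper53.LBx

set_option autoImplicit false
set_option maxSynthPendingDepth 3
set_option linter.unusedSectionVars false

namespace Pool.Agent.Helper53.LB

open Finset Filter Topology
open scoped BigOperators ComplexConjugate
open Pool.Agent.Helper53.BanachHomology (Tens tens lift lift_tens tens_ext)

noncomputable section

section Vs

variable {X : Type} [TopologicalSpace X] [CompactSpace X]
variable (s : C(X, ℂ) →L[ℂ] C(X, ℂ) →L[ℂ] C(X, ℂ) →L[ℂ] T5 X)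

lemma star_bs_aux (b : Bool) : star (bs b) = bs b := by cases b <;> simp [bs]

lemma ub_real_aux {N : ℕ} (x : Pt N → X) (r : ℕ → C(X, ℂ))
    (hrx : ∀ j < N, ∀ τ, r j (x τ) = bs (emb N τ j)) {k : ℕ} (hk : k ≤ N)
    (e : Fin k → Fin (Lb k)) (τ : Pt N) : star (ub r k e (x τ)) = ub r k e (x τ) := by
  unfold ub
  rw [ContinuousMap.coe_prod, Finset.prod_apply, star_prod]
  refine Finset.prod_congr rfl fun j _ => ?_
  rw [ContinuousMap.pow_apply, star_pow, hrx j (by omega), star_bs_aux]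

theorem G3_bdry
    (hb : ∀ a b c, b4 X (s a b c) = b4 X (el 1 a b c 1))
    (hb4 : ∀ (a : C(X, ℂ)) (t : T5 X), b4 X (lT X (T4 X) a t) = lT X (T3 X) a (b4 X t))
    (hbd : ∀ (N : ℕ) (x : Pt N → X) (μ : ℕ → ℕ) (t : T5 X),
      ∑ i ∈ range 4, (-1 : ℂ) ^ i * fQ x (insN i N μ) t = fR x μ (b4 X t))
    (hfQ : ∀ (N : ℕ) (x : Pt N → X) (n : ℕ → ℕ) (a b c d e : C(X, ℂ)),
      fQ x n (el a b c d e) = QV 4 N n (fun i τ => seq5 a b c d e i (x τ)))
    (hpt : ∀ (N : ℕ) (x : Pt N → X) (r : ℕ → C(X, ℂ)),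
      (∀ j < N, ∀ τ, r j (x τ) = bs (emb N τ j)) → ∀ k ≤ N, ∀ (Ψ : (Pt N → ℂ) → ℂ),
        AvB r k (fun u => Ψ (fun τ => u (x τ))) = Av k (fun w => Ψ (rs N w)))
    {N : ℕ} (x : Pt N → X) (r : ℕ → C(X, ℂ)) (hr : ∀ j, Uni (r j))
    (hrx : ∀ j < N, ∀ τ, r j (x τ) = bs (emb N τ j)) (μ l : ℕ → ℕ) (hl : ∀ i < 3, l i ≤ N) :
    ∑ i ∈ range 4, (-1 : ℂ) ^ i * G3 s x r (insN i N μ) l =
      IA 3 l (fun u => ∑ i ∈ range 4, (-1 : ℂ) ^ i *
        QV 4 N (insN i N μ) (fun j => if j = 4 then 1 else rs N (aw 3 u j))) := by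
  have hAc : ∀ k ≤ N, ∀ φ ψ : C(X, ℂ) → ℂ,
      (∀ u : C(X, ℂ), (∀ τ, star (u (x τ)) = u (x τ)) → φ u = ψ u) →
      AvB r k φ = AvB r k ψ := by
    intro k hk φ ψ h
    exact expect_congr rfl fun e _ => h _ fun τ => ub_real_aux x r hrx hk e τ
  obtain ⟨Ψ, hΨ⟩ : ∃ Ψ : (Pt N → ℂ) → (Pt N → ℂ) → (Pt N → ℂ) → ℂ, ∀ v0 v1 v2,
      Ψ v0 v1 v2 = ∑ i ∈ range 4, (-1 : ℂ) ^ i *
        QV 4 N (insN i N μ) (seq5 v0 (v0 * v1) (v1 * v2) v2 1) := ⟨_, fun _ _ _ => rfl⟩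
  have hcore : ∀ u0 u1 u2 : C(X, ℂ), (∀ τ, star (u0 (x τ)) = u0 (x τ)) →
      (∀ τ, star (u1 (x τ)) = u1 (x τ)) → (∀ τ, star (u2 (x τ)) = u2 (x τ)) →
      ∑ i ∈ range 4, (-1 : ℂ) ^ i * fQ x (insN i N μ) (word s u0 u1 u2) =
        Ψ (fun τ => u0 (x τ)) (fun τ => u1 (x τ)) (fun τ => u2 (x τ)) := by
    intro u0 u1 u2 h0 h1 h2
    have e1 : b4 X (word s u0 u1 u2) =
        b4 X (el (star u0) (u0 * star u1) (u1 * star u2) u2 1) := by
      unfold word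
      rw [hb4, hb, ← hb4]
      unfold el
      rw [lT_tens, mul_one]
    rw [hbd, e1, ← hbd, hΨ]
    refine sum_congr rfl fun i _ => ?_
    rw [hfQ]
    have e2 : (fun (j : ℕ) (τ : Pt N) =>
        seq5 (star u0) (u0 * star u1) (u1 * star u2) u2 1 j (x τ)) =
        seq5 (fun τ => u0 (x τ)) ((fun τ => u0 (x τ)) * (fun τ => u1 (x τ)))
          ((fun τ => u1 (x τ)) * (fun τ => u2 (x τ))) (fun τ => u2 (x τ)) 1 := by
      funext j τ
      unfold seq5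
      split_ifs
      · rw [ContinuousMap.star_apply, h0]
      · rw [ContinuousMap.mul_apply, ContinuousMap.star_apply, h1]
        rfl
      · rw [ContinuousMap.mul_apply, ContinuousMap.star_apply, h2]
        rfl
      · rfl
      · rfl
    rw [e2]
  have hL : ∑ i ∈ range 4, (-1 : ℂ) ^ i * G3 s x r (insN i N μ) l =
      AvB r (l 0) fun u0 => AvB r (l 1) fun u1 => AvB r (l 2) fun u2 =>
        ∑ i ∈ range 4, (-1 : ℂ) ^ i * fQ x (insN i N μ) (word s u0 u1 u2) := by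
    unfold G3
    simp only [AvB_sum, AvB_mul]
  have h1 : (AvB r (l 0) fun u0 => AvB r (l 1) fun u1 => AvB r (l 2) fun u2 =>
      ∑ i ∈ range 4, (-1 : ℂ) ^ i * fQ x (insN i N μ) (word s u0 u1 u2)) =
      AvB r (l 0) fun u0 => AvB r (l 1) fun u1 => AvB r (l 2) fun u2 =>
        Ψ (fun τ => u0 (x τ)) (fun τ => u1 (x τ)) (fun τ => u2 (x τ)) := by
    refine hAc _ (hl 0 (by norm_num)) _ _ fun u0 h0 => ?_
    refine hAc _ (hl 1 (by norm_num)) _ _ fun u1 h1 => ?_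
    refine hAc _ (hl 2 (by norm_num)) _ _ fun u2 h2 => ?_
    exact hcore u0 u1 u2 h0 h1 h2
  rw [hL, h1]
  have h2 : ∀ v0 v1 : Pt N → ℂ, (AvB r (l 2) fun u2 => Ψ v0 v1 (fun τ => u2 (x τ))) =
      Av (l 2) (fun w => Ψ v0 v1 (rs N w)) :=
    fun v0 v1 => hpt N x r hrx (l 2) (hl 2 (by norm_num)) (Ψ v0 v1)
  simp only [h2]
  have h3 : ∀ v0 : Pt N → ℂ, (AvB r (l 1) fun u1 =>
      Av (l 2) (fun w => Ψ v0 (fun τ => u1 (x τ)) (rs N w))) =
      Av (l 1) fun w1 => Av (l 2) (fun w => Ψ v0 (rs N w1) (rs N w)) :=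
    fun v0 => hpt N x r hrx (l 1) (hl 1 (by norm_num))
      (fun v => Av (l 2) (fun w => Ψ v0 v (rs N w)))
  simp only [h3]
  refine (hpt N x r hrx (l 0) (hl 0 (by norm_num))
    (fun v => Av (l 1) fun w1 => Av (l 2) (fun w => Ψ v (rs N w1) (rs N w)))).trans ?_
  rw [IA_succ]
  congr 1
  funext u0
  rw [IA_succ]
  congr 1
  funext u1
  rw [IA_succ]
  congr 1
  funext u2
  rw [IA_zero, hΨ]
  refine sum_congr rfl fun i _ => ?_
  have e3 : (seq5 (rs N u0) (rs N u0 * rs N u1) (rs N u1 * rs N u2) (rs N u2) 1 :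
      ℕ → Pt N → ℂ) = fun j => if j = 4 then 1 else
        rs N (aw 3 (insN 0 u0 (insN 0 u1 (insN 0 u2 fun _ => 1))) j) := by
    funext j
    rcases j with _ | _ | _ | _ | _ | j
    · simp [seq5, aw, insN]
    · simp [seq5, aw, insN, rs_mul]
    · simp [seq5, aw, insN, rs_mul]
    · simp [seq5, aw, insN]
    · simp [seq5]
    · rw [if_neg (by omega)]
      have f1 : ∀ t : ℕ, (insN 0 u0 (insN 0 u1 (insN 0 u2 fun _ => (1 : Al)))) (t + 3) = 1 := by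
        intro t
        rw [insN_gt _ _ (by omega), insN_gt _ _ (by omega), insN_gt _ _ (by omega)]
      have f2 : aw 3 (insN 0 u0 (insN 0 u1 (insN 0 u2 fun _ => (1 : Al)))) (j + 1 + 1 + 1 + 1 + 1) =
          1 := by
        unfold aw
        rw [if_neg (by omega), if_neg (by omega)]
        have g1 := f1 (j + 1)
        have g2 := f1 (j + 2)
        have g3 : j + 1 + 1 + 1 + 1 + 1 - 1 = j + 1 + 3 := by omega
        have g4 : j + 1 + 1 + 1 + 1 + 1 = j + 2 + 3 := by omega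
        rw [g3, g4, g1, g2, one_mul]
      rw [f2, rs_one]
      unfold seq5
      rw [if_neg (by omega), if_neg (by omega), if_neg (by omega), if_neg (by omega)]
  rw [e3]

end Vs

end

end Pool.Agent.Helper53.LB
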