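import Mathlib
import Pool.Agent.Helper53.LBx

set_option autoImplicit false
set_option maxSynthPendingDepth 3
set_option linter.unusedSectionVars false

namespace Pool.Agent.Helper53.LB

open Finset Filter Topology
open scoped BigOperators ComplexConjugate
open Pool.Agent.Helper53.BanachHomology (Tens tens lift lift_tens tens_ext)

noncomputable section

section TensorPowers

variable {X : Type} [TopologicalSpace X] [CompactSpace X]
variable {P P' : Type} [NormedAddCommGroup P] [NormedSpace ℂ P] [NormedAddCommGroup P']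
  [NormedSpace ℂ P']


theorem fQ_el {N : ℕ} (x : Pt N → X) (n : ℕ → ℕ) (a b c d e : C(X, ℂ)) :
    fQ x n (el a b c d e) = QV 4 N n (fun i τ => seq5 a b c d e i (x τ)) := by
  have h4 : nuS x (n 3) (cp x) (tens d e) = (fun τ => d (x τ)) * ce (n 3) (cp x e) :=
    nuS_tens x (n 3) (cp x) d e
  have h3 : nuS x (n 2) (nuS x (n 3) (cp x)) (tens c (tens d e)) =
      (fun τ => c (x τ)) * ce (n 2) (nuS x (n 3) (cp x) (tens d e)) :=
    nuS_tens x (n 2) (nuS x (n 3) (cp x)) c (tens d e)
  have h2 : nuS x (n 1) (nuS x (n 2) (nuS x (n 3) (cp x))) (tens b (tens c (tens d e))) =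
      (fun τ => b (x τ)) * ce (n 1) (nuS x (n 2) (nuS x (n 3) (cp x)) (tens c (tens d e))) :=
    nuS_tens x (n 1) (nuS x (n 2) (nuS x (n 3) (cp x))) b (tens c (tens d e))
  have h1 : nuS x (n 0) (nuS x (n 1) (nuS x (n 2) (nuS x (n 3) (cp x))))
      (tens a (tens b (tens c (tens d e)))) =
      (fun τ => a (x τ)) * ce (n 0) (nuS x (n 1) (nuS x (n 2) (nuS x (n 3) (cp x)))
        (tens b (tens c (tens d e)))) :=
    nuS_tens x (n 0) (nuS x (n 1) (nuS x (n 2) (nuS x (n 3) (cp x)))) a (tens b (tens c (tens d e)))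
  have h0 : fQ x n (el a b c d e) = 𝔼 τ, nuS x (n 0) (nuS x (n 1) (nuS x (n 2) (nuS x (n 3) (cp x))))
      (tens a (tens b (tens c (tens d e)))) τ := rfl
  rw [h0, h1, h2, h3, h4]
  have hcp : cp x e = fun τ => e (x τ) := rfl
  rw [hcp]
  rfl


end TensorPowers

end

end Pool.Agent.Helper53.LB
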