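import Mathlib
import Pool.Agent.Helper53.LBx

set_option autoImplicit false
set_option maxSynthPendingDepth 3
set_option linter.unusedSectionVars false

namespace Pool.Agent.Helper53.LB

open Finset Filter Topology
open scoped BigOperators ComplexConjugate
open Pool.Agent.Helper53.BanachHomology (Tens tens lift lift_tens tens_ext)

noncomputable section

section TensorPowers

variable {X : Type} [TopologicalSpace X] [CompactSpace X]
variable {P P' : Type} [NormedAddCommGroup P] [NormedSpace ℂ P] [NormedAddCommGroup P']
  [NormedSpace ℂ P']


lemma lT_mul_7780 (a b : C(X, ℂ)) (t : Tens C(X, ℂ) P) :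
    lT X P (a * b) t = lT X P a (lT X P b t) := by
  have h : lT X P (a * b) = (lT X P a).comp (lT X P b) := by
    apply tens_ext
    intro p q
    rw [ContinuousLinearMap.comp_apply, lT_tens, lT_tens, lT_tens, mul_assoc]
  rw [h, ContinuousLinearMap.comp_apply]

theorem b4_lT (a : C(X, ℂ)) (t : T5 X) : b4 X (lT X (T4 X) a t) = lT X (T3 X) a (b4 X t) := by
  have h : (b4 X).comp (lT X (T4 X) a) = (lT X (T3 X) a).comp (b4 X) := by
    apply tens_ext
    intro p q
    rw [ContinuousLinearMap.comp_apply, ContinuousLinearMap.comp_apply, lT_tens, b4_tens, b4_tens,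
      map_sub, lT_tens, lT_mul_7780]
  exact congrArg (fun F => F t) h


end TensorPowers

end

end Pool.Agent.Helper53.LB
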