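import Mathlib
import Pool.Agent.Helper53.LBx

set_option autoImplicit false
set_option maxSynthPendingDepth 3
set_option linter.unusedSectionVars false

namespace Pool.Agent.Helper53.LB

open Finset Filter Topology
open scoped BigOperators ComplexConjugate
open Pool.Agent.Helper53.BanachHomology (Tens tens lift lift_tens tens_ext)

noncomputable section

section TensorPowers

variable {X : Type} [TopologicalSpace X] [CompactSpace X]
variable {P P' : Type} [NormedAddCommGroup P] [NormedSpace ℂ P] [NormedAddCommGroup P']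
  [NormedSpace ℂ P']


theorem lT_rT_7781 (R : C(X, ℂ) →L[ℂ] P →L[ℂ] P) (a b : C(X, ℂ)) (t : Tens C(X, ℂ) P) :
    lT X P b (rT R a t) = rT R a (lT X P b t) := by
  have h : (lT X P b).comp (rT R a) = (rT R a).comp (lT X P b) := by
    apply tens_ext
    intro c p
    show lT X P b (rT R a (tens c p)) = rT R a (lT X P b (tens c p))
    rw [rT_tens, lT_tens, lT_tens, rT_tens]
  exact congrArg (fun f => f t) h

theorem bS_rT_7781 (β : Tens C(X, ℂ) P →L[ℂ] P) (R : C(X, ℂ) →L[ℂ] P →L[ℂ] P)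
    (hβ : ∀ a t, β (rT R a t) = R a (β t)) (a : C(X, ℂ)) (t : Tens C(X, ℂ) (Tens C(X, ℂ) P)) :
    bS β (rT (rT R) a t) = rT R a (bS β t) := by
  have h : (bS β).comp (rT (rT R) a) = (rT R a).comp (bS β) := by
    apply tens_ext
    intro c p
    show bS β (rT (rT R) a (tens c p)) = rT R a (bS β (tens c p))
    rw [rT_tens, bS_tens, bS_tens, map_sub, rT_tens, hβ, lT_rT_7781]
  exact congrArg (fun f => f t) h

theorem b1_r2_7781 (a : C(X, ℂ)) (t : T2 X) :
    b1 X (rT (ContinuousLinearMap.mul ℂ C(X, ℂ)) a t) =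
      ContinuousLinearMap.mul ℂ C(X, ℂ) a (b1 X t) := by
  have h : (b1 X).comp (rT (ContinuousLinearMap.mul ℂ C(X, ℂ)) a) =
      (ContinuousLinearMap.mul ℂ C(X, ℂ) a).comp (b1 X) := by
    apply tens_ext
    intro c p
    show b1 X (rT (ContinuousLinearMap.mul ℂ C(X, ℂ)) a (tens c p)) =
      ContinuousLinearMap.mul ℂ C(X, ℂ) a (b1 X (tens c p))
    rw [rT_tens, b1_tens, b1_tens]
    show c * (a * p) = a * (c * p)
    ring
  exact congrArg (fun f => f t) h

theorem b2_r3_7781 (a : C(X, ℂ)) (t : T3 X) : b2 X (rT (r2 X) a t) = r2 X a (b2 X t) :=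
  bS_rT_7781 (b1 X) (ContinuousLinearMap.mul ℂ C(X, ℂ)) b1_r2_7781 a t

theorem b3_r4_7781 (a : C(X, ℂ)) (t : T4 X) : b3 X (rT (r3 X) a t) = r3 X a (b3 X t) :=
  bS_rT_7781 (b2 X) (r2 X) b2_r3_7781 a t

theorem b4_r5 (a : C(X, ℂ)) (t : T5 X) : b4 X (r5 X a t) = r4 X a (b4 X t) := by
  exact bS_rT_7781 (b3 X) (r3 X) b3_r4_7781 a t


end TensorPowers

end

end Pool.Agent.Helper53.LB
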