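import Mathlib
import Pool.Agent.Helper53.LBx

set_option autoImplicit false
set_option maxSynthPendingDepth 3
set_option linter.unusedSectionVars false

namespace Pool.Agent.Helper53.LB

open Finset Filter Topology
open scoped BigOperators ComplexConjugate
open Pool.Agent.Helper53.BanachHomology (Tens tens lift lift_tens tens_ext)

noncomputable section

section TensorPowers

variable {X : Type} [TopologicalSpace X] [CompactSpace X]
variable {P P' : Type} [NormedAddCommGroup P] [NormedSpace ℂ P] [NormedAddCommGroup P']
  [NormedSpace ℂ P']


theorem b4_el (a b c d e : C(X, ℂ)) : b4 X (el a b c d e) =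
    el4 (a * b) c d e - el4 a (b * c) d e + el4 a b (c * d) e - el4 a b c (d * e) := by
  have h2 : ∀ u v w : C(X, ℂ), b2 X (tens u (tens v w)) = tens (u * v) w - tens u (v * w) := by
    intro u v w
    rw [b2_tens, lT_tens, b1_tens]
  have h3 : b3 X (tens b (tens c (tens d e))) =
      tens (b * c) (tens d e) - tens b (tens (c * d) e - tens c (d * e)) := by
    rw [b3_tens, lT_tens, h2]
  unfold el el4
  rw [b4_tens, lT_tens, h3, map_sub, map_sub, map_sub]
  abel


end TensorPowers

end

end Pool.Agent.Helper53.LB
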