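import Mathlib
import Pool.Agent.Helper53.LBx

set_option autoImplicit false
set_option maxSynthPendingDepth 3
set_option linter.unusedSectionVars false

namespace Pool.Agent.Helper53.LB

open Finset Filter Topology
open scoped BigOperators ComplexConjugate
open Pool.Agent.Helper53.BanachHomology (Tens tens lift lift_tens tens_ext)
open Pool.Agent.Helper53.Dim3 (Van4 Coc4 d3 Bimod)

noncomputable section

section TensorPowers

variable {X : Type} [TopologicalSpace X] [CompactSpace X]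
variable {P P' : Type} [NormedAddCommGroup P] [NormedSpace ℂ P] [NormedAddCommGroup P']
  [NormedSpace ℂ P']


/-! ### auxiliary for `exists_s` -/

lemma lT_mul7773 (a b : C(X, ℂ)) (t : Tens C(X, ℂ) P) :
    lT X P (a * b) t = lT X P a (lT X P b t) := by
  have h : lT X P (a * b) = (lT X P a).comp (lT X P b) := by
    refine tens_ext fun p q => ?_
    show lT X P (a * b) (tens p q) = lT X P a (lT X P b (tens p q))
    rw [lT_tens, lT_tens, lT_tens, mul_assoc]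
  exact congrArg (fun f : Tens C(X, ℂ) P →L[ℂ] Tens C(X, ℂ) P => f t) h

lemma rT_mul7773 (R : C(X, ℂ) →L[ℂ] P →L[ℂ] P) (hR : ∀ a b t, R (a * b) t = R b (R a t))
    (a b : C(X, ℂ)) (t : Tens C(X, ℂ) P) : rT R (a * b) t = rT R b (rT R a t) := by
  have h : rT R (a * b) = (rT R b).comp (rT R a) := by
    refine tens_ext fun p q => ?_
    show rT R (a * b) (tens p q) = rT R b (rT R a (tens p q))
    rw [rT_tens, rT_tens, rT_tens, hR]
  exact congrArg (fun f : Tens C(X, ℂ) P →L[ℂ] Tens C(X, ℂ) P => f t) h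

lemma lT_rT7773 (R : C(X, ℂ) →L[ℂ] P →L[ℂ] P) (a b : C(X, ℂ)) (t : Tens C(X, ℂ) P) :
    lT X P a (rT R b t) = rT R b (lT X P a t) := by
  have h : (lT X P a).comp (rT R b) = (rT R b).comp (lT X P a) := by
    refine tens_ext fun p q => ?_
    show lT X P a (rT R b (tens p q)) = rT R b (lT X P a (tens p q))
    rw [rT_tens, lT_tens, lT_tens, rT_tens]
  exact congrArg (fun f : Tens C(X, ℂ) P →L[ℂ] Tens C(X, ℂ) P => f t) h

lemma r2_mul7773 (a b : C(X, ℂ)) (t : T2 X) : r2 X (a * b) t = r2 X b (r2 X a t) :=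
  rT_mul7773 _ (fun a b t => by
    show a * b * t = b * (a * t)
    rw [mul_comm a b, mul_assoc]) a b t

lemma r3_mul7773 (a b : C(X, ℂ)) (t : T3 X) : r3 X (a * b) t = r3 X b (r3 X a t) :=
  rT_mul7773 _ r2_mul7773 a b t

lemma r4_mul7773 (a b : C(X, ℂ)) (t : T4 X) : r4 X (a * b) t = r4 X b (r4 X a t) :=
  rT_mul7773 _ r3_mul7773 a b t

lemma r5_mul7773 (a b : C(X, ℂ)) (t : T5 X) : r5 X (a * b) t = r5 X b (r5 X a t) :=
  rT_mul7773 _ r4_mul7773 a b t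

variable (X) in
/-- the bimodule of fivefold tensors -/
def m5_7773 : Bimod C(X, ℂ) (T5 X) where
  left := lT X (T4 X)
  right := r5 X
  left_mul := lT_mul7773
  right_mul := r5_mul7773
  left_right := fun a b t => lT_rT7773 _ a b t

variable (X) in
/-- `c ↦ c ⊗ 1` -/
def G7773 : C(X, ℂ) →L[ℂ] T2 X := (tens (P := C(X, ℂ)) (Q := C(X, ℂ))).flip 1

lemma G7773_apply (c : C(X, ℂ)) : G7773 X c = tens c 1 := rfl

variable (X) in
/-- `b, c ↦ b ⊗ c ⊗ 1` -/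
def F7773 : C(X, ℂ) →L[ℂ] C(X, ℂ) →L[ℂ] T3 X :=
  ((ContinuousLinearMap.compL ℂ C(X, ℂ) (T2 X) (T3 X)).flip (G7773 X)).comp
    (tens (P := C(X, ℂ)) (Q := T2 X))

lemma F7773_apply (b c : C(X, ℂ)) : F7773 X b c = tens b (tens c 1) := rfl

variable (X) in
/-- `a, b, c ↦ a ⊗ b ⊗ c ⊗ 1` -/
def H7773 : C(X, ℂ) →L[ℂ] C(X, ℂ) →L[ℂ] C(X, ℂ) →L[ℂ] T4 X :=
  ((ContinuousLinearMap.compL ℂ C(X, ℂ) (C(X, ℂ) →L[ℂ] T3 X) (C(X, ℂ) →L[ℂ] T4 X)).flip
    (F7773 X)).comp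
    ((ContinuousLinearMap.compL ℂ C(X, ℂ) (T3 X) (T4 X)).comp (tens (P := C(X, ℂ)) (Q := T3 X)))

lemma H7773_apply (a b c : C(X, ℂ)) : H7773 X a b c = tens a (tens b (tens c 1)) := rfl

/-- postcomposition of a trilinear map -/
def post7773 {C P P' : Type} [NormedAddCommGroup C] [NormedSpace ℂ C] [NormedAddCommGroup P]
    [NormedSpace ℂ P] [NormedAddCommGroup P'] [NormedSpace ℂ P'] (L : P →L[ℂ] P')
    (S : C →L[ℂ] C →L[ℂ] C →L[ℂ] P) : C →L[ℂ] C →L[ℂ] C →L[ℂ] P' :=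
  (ContinuousLinearMap.compL ℂ C (C →L[ℂ] P) (C →L[ℂ] P')
    (ContinuousLinearMap.compL ℂ C P P' L)).comp S

lemma post7773_apply {C P P' : Type} [NormedAddCommGroup C] [NormedSpace ℂ C] [NormedAddCommGroup P]
    [NormedSpace ℂ P] [NormedAddCommGroup P'] [NormedSpace ℂ P'] (L : P →L[ℂ] P')
    (S : C →L[ℂ] C →L[ℂ] C →L[ℂ] P) (a b c : C) : post7773 L S a b c = L (S a b c) := rfl

lemma coc_d3_7773 {Q Z : Type} [NonUnitalNormedCommRing Q] [NormedSpace ℂ Q] [IsScalarTower ℂ Q Q]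
    [SMulCommClass ℂ Q Q] [NormedAddCommGroup Z] [NormedSpace ℂ Z] (m : Bimod Q Z)
    (S : Q →L[ℂ] Q →L[ℂ] Q →L[ℂ] Z) : Coc4 m (d3 m S) :=
  (Pool.Agent.Helper53.Dim3.coc4_iff m _).mpr (Pool.Agent.Helper53.Dim3.coc_d2 m.shift S)

variable (X) in
/-- `a, b, c ↦ 1 ⊗ a ⊗ b ⊗ c ⊗ 1` -/
def E7773 : C(X, ℂ) →L[ℂ] C(X, ℂ) →L[ℂ] C(X, ℂ) →L[ℂ] T5 X :=
  post7773 (tens (P := C(X, ℂ)) (Q := T4 X) 1) (H7773 X)

lemma E7773_apply (a b c : C(X, ℂ)) : E7773 X a b c = el 1 a b c 1 := rfl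

/-- the cocycle -/
lemma T7773_apply (a b c d : C(X, ℂ)) : d3 (m5_7773 X) (E7773 X) a b c d =
    lT X (T4 X) a (el 1 b c d 1) - el 1 (a * b) c d 1 + el 1 a (b * c) d 1 - el 1 a b (c * d) 1
      + r5 X d (el 1 a b c 1) := by
  rw [Pool.Agent.Helper53.Dim3.d3_apply]
  rfl

lemma lT_el4_7773 (a x y z w : C(X, ℂ)) : lT X (T3 X) a (el4 x y z w) = el4 (a * x) y z w :=
  lT_tens _ _ _

lemma r4_el4_7773 (a x y z w : C(X, ℂ)) : r4 X a (el4 x y z w) = el4 x y z (a * w) := by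
  unfold el4
  rw [r4_tens, r3_tens, r2_tens]

lemma lin5_7773 {Y Z : Type} [NormedAddCommGroup Y] [NormedSpace ℂ Y] [NormedAddCommGroup Z]
    [NormedSpace ℂ Z] (L : Y →L[ℂ] Z) (u v w x y : Y) :
    L (u - v + w - x + y) = L u - L v + L w - L x + L y := by
  rw [map_add, map_sub, map_add, map_sub]

lemma lin4_7773 {Y Z : Type} [NormedAddCommGroup Y] [NormedSpace ℂ Y] [NormedAddCommGroup Z]
    [NormedSpace ℂ Z] (L : Y →L[ℂ] Z) (u v w x : Y) :
    L (u - v + w - x) = L u - L v + L w - L x := by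
  rw [map_sub, map_add, map_sub]

lemma cancel_7773 {Z : Type} [AddCommGroup Z] (p1 p2 p3 p4 p5 p6 p7 p8 p9 p10 : Z) :
    (p1 - p2 + p3 - p4) - (p1 - p5 + p6 - p7) + (p2 - p5 + p8 - p9) - (p3 - p6 + p8 - p10)
      + (p4 - p7 + p9 - p10) = 0 := by
  abel

lemma b4_T7773
    (hb4_lT : ∀ (a : C(X, ℂ)) (t : T5 X), b4 X (lT X (T4 X) a t) = lT X (T3 X) a (b4 X t))
    (hb4_r5 : ∀ (a : C(X, ℂ)) (t : T5 X), b4 X (r5 X a t) = r4 X a (b4 X t))
    (hb4_el : ∀ a b c d e : C(X, ℂ), b4 X (el a b c d e) =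
      el4 (a * b) c d e - el4 a (b * c) d e + el4 a b (c * d) e - el4 a b c (d * e))
    (a b c d : C(X, ℂ)) : b4 X (d3 (m5_7773 X) (E7773 X) a b c d) = 0 := by
  rw [T7773_apply, lin5_7773, hb4_lT, hb4_r5, hb4_el, hb4_el, hb4_el, hb4_el, hb4_el,
    lin4_7773, lin4_7773]
  simp only [lT_el4_7773, r4_el4_7773, one_mul, mul_one]
  rw [← mul_assoc a b c, ← mul_assoc b c d, mul_comm d c]
  exact cancel_7773 (Z := T4 X) _ _ _ _ _ _ _ _ _ _

/-- the bimodule structure on an invariant subspace -/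
def mN7773 {Q Y : Type} [NonUnitalNormedCommRing Q] [NormedSpace ℂ Q] [IsScalarTower ℂ Q Q]
    [SMulCommClass ℂ Q Q] [NormedAddCommGroup Y] [NormedSpace ℂ Y] (m : Bimod Q Y) (N : Submodule ℂ Y)
    (h1 : ∀ a, ∀ y ∈ N, m.left a y ∈ N) (h2 : ∀ a, ∀ y ∈ N, m.right a y ∈ N) : Bimod Q N where
  left := Pool.Agent.Helper53.BanachHomology.res2 N m.left h1
  right := Pool.Agent.Helper53.BanachHomology.res2 N m.right h2
  left_mul := fun a b y => Subtype.ext (m.left_mul a b y)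
  right_mul := fun a b y => Subtype.ext (m.right_mul a b y)
  left_right := fun a b y => Subtype.ext (m.left_right a b y)

/-- abstract splitting -/
theorem split7773 {Q Y : Type} [NonUnitalNormedCommRing Q] [NormedSpace ℂ Q] [IsScalarTower ℂ Q Q]
    [SMulCommClass ℂ Q Q] [NormedAddCommGroup Y] [NormedSpace ℂ Y] [CompleteSpace Y]
    (h : Van4 Q) (m : Bimod Q Y) (N : Submodule ℂ Y) (hN : IsClosed (N : Set Y))
    (h1 : ∀ a, ∀ y ∈ N, m.left a y ∈ N) (h2 : ∀ a, ∀ y ∈ N, m.right a y ∈ N)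
    (E : Q →L[ℂ] Q →L[ℂ] Q →L[ℂ] Y) (hE : ∀ a b c d, d3 m E a b c d ∈ N) :
    ∃ s : Q →L[ℂ] Q →L[ℂ] Q →L[ℂ] Y,
      (∀ a b c d, m.left a (s b c d) - s (a * b) c d + s a (b * c) d - s a b (c * d)
        + m.right d (s a b c) = 0) ∧ ∀ a b c, E a b c - s a b c ∈ N := by
  haveI : CompleteSpace N := hN.completeSpace_coe
  have hcoc : Coc4 (mN7773 m N h1 h2) (Pool.Agent.Helper53.BanachHomology.cod4 N (d3 m E) hE) := by
    intro a b c d e
    apply Subtype.ext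
    exact coc_d3_7773 m E a b c d e
  obtain ⟨S, hS⟩ := h N (mN7773 m N h1 h2) _ hcoc
  have hS' : ∀ a b c d, d3 m E a b c d = m.left a (S b c d : Y) - (S (a * b) c d : Y)
      + (S a (b * c) d : Y) - (S a b (c * d) : Y) + m.right d (S a b c : Y) := by
    intro a b c d
    have e1 : (Pool.Agent.Helper53.BanachHomology.cod4 N (d3 m E) hE) a b c d =
        d3 (mN7773 m N h1 h2) S a b c d := by rw [hS]
    rw [Pool.Agent.Helper53.Dim3.d3_apply] at e1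
    exact congrArg (Subtype.val : N → Y) e1
  refine ⟨E - post7773 N.subtypeL S, ?_, ?_⟩
  · intro a b c d
    have e2 := hS' a b c d
    rw [Pool.Agent.Helper53.Dim3.d3_apply] at e2
    show m.left a (E b c d - (S b c d : Y)) - (E (a * b) c d - (S (a * b) c d : Y))
      + (E a (b * c) d - (S a (b * c) d : Y)) - (E a b (c * d) - (S a b (c * d) : Y))
      + m.right d (E a b c - (S a b c : Y)) = 0
    rw [map_sub, map_sub]
    linear_combination (norm := abel) e2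
  · intro a b c
    show E a b c - (E a b c - (S a b c : Y)) ∈ N
    rw [sub_sub_cancel]
    exact (S a b c).2

theorem exists_s
    (hb4_lT : ∀ (a : C(X, ℂ)) (t : T5 X), b4 X (lT X (T4 X) a t) = lT X (T3 X) a (b4 X t))
    (hb4_r5 : ∀ (a : C(X, ℂ)) (t : T5 X), b4 X (r5 X a t) = r4 X a (b4 X t))
    (hb4_el : ∀ a b c d e : C(X, ℂ), b4 X (el a b c d e) =
      el4 (a * b) c d e - el4 a (b * c) d e + el4 a b (c * d) e - el4 a b c (d * e))
    (h : Van4 C(X, ℂ)) :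
    ∃ s : C(X, ℂ) →L[ℂ] C(X, ℂ) →L[ℂ] C(X, ℂ) →L[ℂ] T5 X,
      (∀ a b c d, lT X (T4 X) a (s b c d) - s (a * b) c d + s a (b * c) d - s a b (c * d)
        + r5 X d (s a b c) = 0) ∧
      ∀ a b c, b4 X (s a b c) = b4 X (el 1 a b c 1) := by
  set N : Submodule ℂ (T5 X) := LinearMap.ker (b4 X).toLinearMap with hN
  have hmem : ∀ t, t ∈ N ↔ b4 X t = 0 := fun t => LinearMap.mem_ker
  have hNc : IsClosed (N : Set (T5 X)) := (b4 X).isClosed_ker
  have h1 : ∀ a, ∀ y ∈ N, (m5_7773 X).left a y ∈ N := by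
    intro a y hy
    rw [hmem] at hy ⊢
    have e : b4 X ((m5_7773 X).left a y) = lT X (T3 X) a (b4 X y) := hb4_lT a y
    rw [e, hy, map_zero]
  have h2 : ∀ a, ∀ y ∈ N, (m5_7773 X).right a y ∈ N := by
    intro a y hy
    rw [hmem] at hy ⊢
    have e : b4 X ((m5_7773 X).right a y) = r4 X a (b4 X y) := hb4_r5 a y
    rw [e, hy, map_zero]
  obtain ⟨s, hs1, hs2⟩ := split7773 h (m5_7773 X) N hNc h1 h2 (E7773 X)
    (fun a b c d => (hmem _).mpr (b4_T7773 hb4_lT hb4_r5 hb4_el a b c d))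
  refine ⟨s, hs1, ?_⟩
  intro a b c
  have e := (hmem _).mp (hs2 a b c)
  rw [map_sub, E7773_apply, sub_eq_zero] at e
  exact e.symm

end TensorPowers

end

end Pool.Agent.Helper53.LB
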