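import Mathlib
import Pool.Agent.Helper53.LBx

set_option autoImplicit false
set_option maxSynthPendingDepth 3
set_option linter.unusedSectionVars false

namespace Pool.Agent.Helper53.LB

open Finset Filter Topology
open scoped BigOperators ComplexConjugate
open Pool.Agent.Helper53.BanachHomology (Tens tens lift lift_tens tens_ext)

noncomputable section

section TensorPowers

variable {X : Type} [TopologicalSpace X] [CompactSpace X]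
variable {P P' : Type} [NormedAddCommGroup P] [NormedSpace ℂ P] [NormedAddCommGroup P']
  [NormedSpace ℂ P']


lemma scal7777 {E Z : Type} [NormedAddCommGroup E] [NormedSpace ℂ E] [NormedAddCommGroup Z]
    [NormedSpace ℂ Z] (ψ : E →L[ℂ] Z) (K : ℝ) (h : ∀ a, ‖a‖ ≤ 1 → ‖ψ a‖ ≤ K) (a : E) :
    ‖ψ a‖ ≤ K * ‖a‖ := by
  by_cases ha : a = 0
  · rw [ha, map_zero, norm_zero, norm_zero, mul_zero]
  · have hn : 0 < ‖a‖ := norm_pos_iff.2 ha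
    have hnc : ((‖a‖ : ℝ) : ℂ) ≠ 0 := Complex.ofReal_ne_zero.2 hn.ne'
    have h1 : ‖(((‖a‖ : ℝ) : ℂ))⁻¹ • a‖ ≤ 1 := by
      rw [norm_smul, norm_inv, Complex.norm_real, norm_norm, inv_mul_cancel₀ hn.ne']
    have h2 := h _ h1
    rw [map_smul, norm_smul, norm_inv, Complex.norm_real, norm_norm, inv_mul_le_iff₀ hn] at h2
    linarith

lemma gen7777 {P Q Z : Type} [NormedAddCommGroup P] [NormedSpace ℂ P]
    [NormedAddCommGroup Q] [NormedSpace ℂ Q] [NormedAddCommGroup Z] [NormedSpace ℂ Z]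
    [CompleteSpace Z] (φ : Tens P Q →L[ℂ] Z) (K : ℝ) (hK : 0 ≤ K)
    (h : ∀ (p : P) (q : Q), ‖p‖ ≤ 1 → ‖φ (tens p q)‖ ≤ K * ‖q‖) (t : Tens P Q) :
    ‖φ t‖ ≤ K * ‖t‖ := by
  have h1 : ∀ (p : P) (q : Q), ‖φ (tens p q)‖ ≤ K * ‖p‖ * ‖q‖ := by
    intro p q
    have h2 := scal7777 (φ.comp ((tens : P →L[ℂ] Q →L[ℂ] Tens P Q).flip q)) (K * ‖q‖)
      (fun a ha => h a q ha) p
    have h3 : (φ.comp ((tens : P →L[ℂ] Q →L[ℂ] Tens P Q).flip q)) p = φ (tens p q) := rfl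
    rw [h3] at h2
    linarith
  have h4 : lift (BanachHomology.unlift φ) = φ := by
    apply tens_ext
    intro p q
    rw [lift_tens, BanachHomology.unlift_apply]
  have h5 : ‖BanachHomology.unlift φ‖ ≤ K := by
    apply ContinuousLinearMap.opNorm_le_bound₂ _ hK
    intro p q
    rw [BanachHomology.unlift_apply]
    exact h1 p q
  have h6 : ‖lift (BanachHomology.unlift φ) t‖ ≤ 1 * ‖BanachHomology.unlift φ‖ * ‖t‖ := BanachHomology.norm_lift0_le (BanachHomology.unlift φ) t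
  rw [h4, one_mul] at h6
  exact h6.trans (mul_le_mul_of_nonneg_right h5 (norm_nonneg _))

theorem norm_T5_le (φ : T5 X →L[ℂ] ℂ) (M : ℝ)
    (h : ∀ a b c d e : C(X, ℂ), ‖a‖ ≤ 1 → ‖b‖ ≤ 1 → ‖c‖ ≤ 1 → ‖d‖ ≤ 1 → ‖e‖ ≤ 1 →
      ‖φ (el a b c d e)‖ ≤ M) (t : T5 X) : ‖φ t‖ ≤ M * ‖t‖ := by
  have hM : 0 ≤ M := by
    have h1 := h 0 0 0 0 0 (by simp) (by simp) (by simp) (by simp) (by simp)
    exact (norm_nonneg _).trans h1
  -- innermost variable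
  have s1 : ∀ a b c d : C(X, ℂ), ‖a‖ ≤ 1 → ‖b‖ ≤ 1 → ‖c‖ ≤ 1 → ‖d‖ ≤ 1 → ∀ e : C(X, ℂ),
      ‖φ (tens a (tens b (tens c (tens d e))))‖ ≤ M * ‖e‖ := by
    intro a b c d ha hb hc hd e
    exact scal7777 (φ.comp ((tens a : T4 X →L[ℂ] T5 X).comp ((tens b : T3 X →L[ℂ] T4 X).comp
      ((tens c : T2 X →L[ℂ] T3 X).comp (tens d : C(X, ℂ) →L[ℂ] T2 X))))) M
      (fun e he => h a b c d e ha hb hc hd he) e
  have s2 : ∀ a b c : C(X, ℂ), ‖a‖ ≤ 1 → ‖b‖ ≤ 1 → ‖c‖ ≤ 1 → ∀ t : T2 X,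
      ‖φ (tens a (tens b (tens c t)))‖ ≤ M * ‖t‖ := by
    intro a b c ha hb hc t
    exact gen7777 (φ.comp ((tens a : T4 X →L[ℂ] T5 X).comp ((tens b : T3 X →L[ℂ] T4 X).comp
      (tens c : T2 X →L[ℂ] T3 X)))) M hM (fun d e hd => s1 a b c d ha hb hc hd e) t
  have s3 : ∀ a b : C(X, ℂ), ‖a‖ ≤ 1 → ‖b‖ ≤ 1 → ∀ t : T3 X,
      ‖φ (tens a (tens b t))‖ ≤ M * ‖t‖ := by
    intro a b ha hb t
    exact gen7777 (φ.comp ((tens a : T4 X →L[ℂ] T5 X).comp (tens b : T3 X →L[ℂ] T4 X))) M hM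
      (fun c t hc => s2 a b c ha hb hc t) t
  have s4 : ∀ a : C(X, ℂ), ‖a‖ ≤ 1 → ∀ t : T4 X, ‖φ (tens a t)‖ ≤ M * ‖t‖ := by
    intro a ha t
    exact gen7777 (φ.comp (tens a : T4 X →L[ℂ] T5 X)) M hM (fun b t hb => s3 a b ha hb t) t
  exact gen7777 φ M hM (fun a t ha => s4 a ha t) t


end TensorPowers

end

end Pool.Agent.Helper53.LB
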