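import Mathlib
import Pool.Agent.Helper53.LBx

set_option autoImplicit false
set_option maxSynthPendingDepth 3
set_option linter.unusedSectionVars false

namespace Pool.Agent.Helper53.LB

open Finset Filter Topology
open scoped BigOperators ComplexConjugate
open Pool.Agent.Helper53.BanachHomology (Tens tens lift lift_tens tens_ext)

noncomputable section

section TensorPowers

variable {X : Type} [TopologicalSpace X] [CompactSpace X]
variable {P P' : Type} [NormedAddCommGroup P] [NormedSpace ℂ P] [NormedAddCommGroup P']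
  [NormedSpace ℂ P']


lemma closed_tens_7774 {P Q : Type} [NormedAddCommGroup P] [NormedSpace ℂ P]
    [NormedAddCommGroup Q] [NormedSpace ℂ Q] (W : Submodule ℂ (Tens P Q))
    (hW : IsClosed (W : Set (Tens P Q))) (h : ∀ p q, tens p q ∈ W) (t : Tens P Q) : t ∈ W := by
  have hle : (BanachHomology.spanTm P Q : Set (BanachHomology.BD P Q)) ⊆
      (BanachHomology.tensSub P Q : Set (BanachHomology.BD P Q)) :=
    Submodule.le_topologicalClosure _
  have hd : DenseRange (Set.inclusion hle) := by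
    rw [denseRange_inclusion_iff]
    exact le_of_eq rfl
  have hx : ∀ x (hx : x ∈ BanachHomology.spanTm P Q),
      BanachHomology.mkT x (hle hx) ∈ W := by
    intro x hx
    have hx' : x ∈ Submodule.span ℂ (Set.range (fun pq : P × Q =>
      BanachHomology.tm pq.1 pq.2)) := hx
    induction hx' using Submodule.span_induction with
    | mem y hy =>
      obtain ⟨⟨p, q⟩, rfl⟩ := hy
      exact h p q
    | zero => exact W.zero_mem
    | add y z hy hz h1 h2 =>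
      rw [BanachHomology.mkT_add y z (hle hy) (hle hz)]
      exact W.add_mem (h1 hy) (h2 hz)
    | smul c y hy h1 =>
      rw [BanachHomology.mkT_smul c y (hle hy)]
      exact W.smul_mem c (h1 hy)
  exact hd.induction_on (p := fun t : Tens P Q => t ∈ W) t hW (fun x => hx x.1 x.2)

lemma all_el_7774 (W : Submodule ℂ (T5 X)) (hW : IsClosed (W : Set (T5 X)))
    (h : ∀ a b c d e : C(X, ℂ), el a b c d e ∈ W) (t : T5 X) : t ∈ W := by
  refine closed_tens_7774 W hW (fun a t4 => ?_) t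
  refine closed_tens_7774 (W.comap (tens a : T4 X →L[ℂ] T5 X).toLinearMap)
    (hW.preimage (tens a : T4 X →L[ℂ] T5 X).continuous) (fun b t3 => ?_) t4
  refine closed_tens_7774 ((W.comap (tens a : T4 X →L[ℂ] T5 X).toLinearMap).comap
    (tens b : T3 X →L[ℂ] T4 X).toLinearMap)
    ((hW.preimage (tens a : T4 X →L[ℂ] T5 X).continuous).preimage
      (tens b : T3 X →L[ℂ] T4 X).continuous) (fun c t2 => ?_) t3
  refine closed_tens_7774 (((W.comap (tens a : T4 X →L[ℂ] T5 X).toLinearMap).comap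
    (tens b : T3 X →L[ℂ] T4 X).toLinearMap).comap (tens c : T2 X →L[ℂ] T3 X).toLinearMap)
    (((hW.preimage (tens a : T4 X →L[ℂ] T5 X).continuous).preimage
      (tens b : T3 X →L[ℂ] T4 X).continuous).preimage
      (tens c : T2 X →L[ℂ] T3 X).continuous) (fun d e => ?_) t2
  exact h a b c d e

lemma norm_cp_7774 {N : ℕ} (x : Pt N → X) (a : C(X, ℂ)) : ‖cp x a‖ ≤ ‖a‖ :=
  (pi_norm_le_iff_of_nonneg (norm_nonneg a)).2 fun τ => a.norm_coe_le_norm _

lemma norm_nuS_7774 {N : ℕ} (x : Pt N → X) (n : ℕ) (ν : P →L[ℂ] (Pt N → ℂ)) (C : ℝ)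
    (hC : 0 ≤ C) (hν : ∀ t, ‖ν t‖ ≤ C * ‖t‖) (t : Tens C(X, ℂ) P) :
    ‖nuS x n ν t‖ ≤ C * ‖t‖ := by
  obtain ⟨m, hm⟩ : ∃ m : C(X, ℂ) →L[ℂ] P →L[ℂ] (Pt N → ℂ), m =
    (((ContinuousLinearMap.compL ℂ P (Pt N → ℂ) (Pt N → ℂ)).flip ((ceL n).comp ν)).comp
      ((ContinuousLinearMap.mul ℂ (Pt N → ℂ)).comp (cp x))) := ⟨_, rfl⟩
  have h1 : nuS x n ν t = BanachHomology.lift0 m t := by rw [hm]; rfl
  rw [h1]
  refine (BanachHomology.norm_lift0_le m t).trans ?_
  rw [one_mul]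
  apply mul_le_mul_of_nonneg_right _ (norm_nonneg t)
  refine ContinuousLinearMap.opNorm_le_bound₂ _ hC (fun a s => ?_)
  have h2 : m a s = cp x a * ce n (ν s) := by rw [hm]; rfl
  rw [h2]
  refine (norm_mul_le _ _).trans ?_
  have h3 : ‖ce n (ν s)‖ ≤ ‖ν s‖ :=
    (pi_norm_le_iff_of_nonneg (norm_nonneg _)).2 fun τ =>
      norm_ce_le (fun y => norm_le_pi_norm (ν s) y) τ
  calc ‖cp x a‖ * ‖ce n (ν s)‖ ≤ ‖a‖ * (C * ‖s‖) :=
        mul_le_mul (norm_cp_7774 x a) (h3.trans (hν s)) (norm_nonneg _) (norm_nonneg _)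
    _ = C * ‖a‖ * ‖s‖ := by ring

lemma norm_fQ_7774 {N : ℕ} (x : Pt N → X) (n : ℕ → ℕ) (t : T5 X) : ‖fQ x n t‖ ≤ ‖t‖ := by
  have h0 : ∀ a : C(X, ℂ), ‖cp x a‖ ≤ 1 * ‖a‖ := fun a => by
    rw [one_mul]; exact norm_cp_7774 x a
  have h1 := norm_nuS_7774 x (n 3) (cp x) 1 zero_le_one h0
  have h2 := norm_nuS_7774 x (n 2) (nuS x (n 3) (cp x)) 1 zero_le_one h1
  have h3 := norm_nuS_7774 x (n 1) (nuS x (n 2) (nuS x (n 3) (cp x))) 1 zero_le_one h2
  have h4 := norm_nuS_7774 x (n 0) (nuS x (n 1) (nuS x (n 2) (nuS x (n 3) (cp x)))) 1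
    zero_le_one h3 t
  rw [one_mul] at h4
  refine le_trans ?_ h4
  show ‖𝔼 τ, nuS x (n 0) (nuS x (n 1) (nuS x (n 2) (nuS x (n 3) (cp x)))) t τ‖ ≤ _
  exact norm_expect_le' fun y => norm_le_pi_norm _ y

lemma fQ_el_7774 {N : ℕ} (x : Pt N → X) (n : ℕ → ℕ) (a b c d e : C(X, ℂ)) :
    fQ x n (el a b c d e) =
      𝔼 y, Rc 4 (fun i τ => seq5 a b c d e i (x τ)) n (fun τ => e (x τ)) y := by
  unfold fQ el
  rw [ContinuousLinearMap.comp_apply, nuS_tens, nuS_tens, nuS_tens, nuS_tens]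
  rfl

/-- the approximation property -/
def Tame_7774 (t : T5 X) : Prop := ∀ δ : ℝ, 0 < δ →
    ∃ (Φ : Finset C(X, ℂ)) (η : ℝ), 0 < η ∧ ∀ (N : ℕ) (x : Pt N → X) (c : ℕ) (n n' : ℕ → ℕ),
      (∀ f ∈ Φ, Osc η c (fun τ => f (x τ))) → (∀ i < 4, n i = n' i ∨ (n i = c ∧ N ≤ n' i)) →
      ‖fQ x n t - fQ x n' t‖ ≤ δ

lemma osc_mono_7774 {N : ℕ} {η η' : ℝ} (h : η ≤ η') {c : ℕ} {U : Pt N → ℂ} (hU : Osc η c U) :
    Osc η' c U := fun x y hxy => (hU x y hxy).trans h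

lemma tame_add_7774 {t t' : T5 X} (h : Tame_7774 t) (h' : Tame_7774 t') : Tame_7774 (t + t') := by
  classical
  intro δ hδ
  obtain ⟨Φ, η, hη, h1⟩ := h (δ / 2) (by positivity)
  obtain ⟨Φ', η', hη', h1'⟩ := h' (δ / 2) (by positivity)
  refine ⟨Φ ∪ Φ', min η η', lt_min hη hη', fun N x c n n' ho hn => ?_⟩
  have a1 := h1 N x c n n' (fun f hf => osc_mono_7774 (min_le_left _ _)
    (ho f (Finset.mem_union_left _ hf))) hn
  have a2 := h1' N x c n n' (fun f hf => osc_mono_7774 (min_le_right _ _)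
    (ho f (Finset.mem_union_right _ hf))) hn
  rw [map_add, map_add]
  have e : fQ x n t + fQ x n t' - (fQ x n' t + fQ x n' t') =
    (fQ x n t - fQ x n' t) + (fQ x n t' - fQ x n' t') := by ring
  rw [e]
  refine (norm_add_le _ _).trans ?_
  linarith

lemma tame_smul_7774 (k : ℂ) {t : T5 X} (h : Tame_7774 t) : Tame_7774 (k • t) := by
  intro δ hδ
  have hk : 0 < ‖k‖ + 1 := by positivity
  obtain ⟨Φ, η, hη, h1⟩ := h (δ / (‖k‖ + 1)) (by positivity)
  refine ⟨Φ, η, hη, fun N x c n n' ho hn => ?_⟩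
  have a1 := h1 N x c n n' ho hn
  rw [map_smul, map_smul, ← smul_sub, norm_smul]
  rw [le_div_iff₀ hk] at a1
  have := norm_nonneg (fQ x n t - fQ x n' t)
  nlinarith

lemma tame_zero_7774 : Tame_7774 (0 : T5 X) := by
  intro δ hδ
  refine ⟨∅, 1, one_pos, fun N x c n n' _ _ => ?_⟩
  rw [map_zero, map_zero, sub_zero, norm_zero]
  exact hδ.le

lemma tame_closure_7774 {t : T5 X} (h : t ∈ closure {t : T5 X | Tame_7774 t}) : Tame_7774 t := by
  intro δ hδ
  obtain ⟨t', ht', hd⟩ := Metric.mem_closure_iff.1 h (δ / 4) (by positivity)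
  obtain ⟨Φ, η, hη, h1⟩ := ht' (δ / 2) (by positivity)
  refine ⟨Φ, η, hη, fun N x c n n' ho hn => ?_⟩
  have a1 := h1 N x c n n' ho hn
  have e : fQ x n t - fQ x n' t =
    fQ x n (t - t') + (fQ x n t' - fQ x n' t') - fQ x n' (t - t') := by
    rw [map_sub, map_sub]; ring
  rw [dist_eq_norm] at hd
  have a2 := norm_fQ_7774 x n (t - t')
  have a3 := norm_fQ_7774 x n' (t - t')
  rw [e]
  refine (norm_sub_le _ _).trans ?_
  have a4 := norm_add_le (fQ x n (t - t')) (fQ x n t' - fQ x n' t')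
  linarith

lemma tame_el_one_7774 (a b c d e : C(X, ℂ)) (ha : ‖a‖ ≤ 1) (hb : ‖b‖ ≤ 1) (hc : ‖c‖ ≤ 1)
    (hd : ‖d‖ ≤ 1) (he : ‖e‖ ≤ 1) : Tame_7774 (el a b c d e) := by
  classical
  intro δ hδ
  refine ⟨{a, b, c, d}, δ / 16, by positivity, fun N x c0 n n' ho hn => ?_⟩
  rw [fQ_el_7774, fQ_el_7774]
  have hseq : ∀ i, ‖seq5 a b c d e i‖ ≤ 1 := by
    intro i
    unfold seq5
    split_ifs <;> assumption
  have hbd := osc_bound (k := 4) (c := c0) (f := fun i τ => seq5 a b c d e i (x τ)) (n := n)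
    (n' := n') (ξ := fun τ => e (x τ)) (N := N)
    (fun i y => ((seq5 a b c d e i).norm_coe_le_norm _).trans (hseq i))
    (fun y => (e.norm_coe_le_norm _).trans he) (δ := δ / 16) (by positivity)
    (by
      intro i hi
      apply ho
      unfold seq5
      have : i = 0 ∨ i = 1 ∨ i = 2 ∨ i = 3 := by omega
      rcases this with h | h | h | h <;> subst h <;> simp)
    hn (U := fun _ => 1) (η := 0) le_rfl (fun _ => by simp) (fun _ _ _ => by simp)
  have e1 : (𝔼 y, Rc 4 (fun i τ => seq5 a b c d e i (x τ)) n (fun τ => e (x τ)) y) -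
      (𝔼 y, Rc 4 (fun i τ => seq5 a b c d e i (x τ)) n' (fun τ => e (x τ)) y) =
      𝔼 y, (fun _ : Pt N => (1 : ℂ)) y *
        (Rc 4 (fun i τ => seq5 a b c d e i (x τ)) n (fun τ => e (x τ)) -
        Rc 4 (fun i τ => seq5 a b c d e i (x τ)) n' (fun τ => e (x τ))) y := by
    rw [← expect_sub_distrib]
    refine expect_congr rfl fun y _ => ?_
    rw [one_mul, Pi.sub_apply]
  rw [e1]
  refine hbd.trans ?_
  push_cast
  linarith

lemma scale_7774 (a : C(X, ℂ)) : ∃ (k : ℂ) (a' : C(X, ℂ)), ‖a'‖ ≤ 1 ∧ a = k • a' := by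
  have hk : 0 < ‖a‖ + 1 := by positivity
  have hk' : (((‖a‖ + 1 : ℝ)) : ℂ) ≠ 0 := Complex.ofReal_ne_zero.2 hk.ne'
  refine ⟨((‖a‖ + 1 : ℝ) : ℂ), (((‖a‖ + 1 : ℝ) : ℂ))⁻¹ • a, ?_, ?_⟩
  · rw [norm_smul, norm_inv, Complex.norm_real, Real.norm_eq_abs, abs_of_pos hk,
      inv_mul_le_iff₀ hk]
    linarith
  · rw [smul_smul, mul_inv_cancel₀ hk', one_smul]

lemma tame_el_7774 (a b c d e : C(X, ℂ)) : Tame_7774 (el a b c d e) := by
  obtain ⟨ka, a', ha, rfl⟩ := scale_7774 a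
  obtain ⟨kb, b', hb, rfl⟩ := scale_7774 b
  obtain ⟨kc, c', hc, rfl⟩ := scale_7774 c
  obtain ⟨kd, d', hd, rfl⟩ := scale_7774 d
  obtain ⟨ke, e', he, rfl⟩ := scale_7774 e
  have h1 : el (ka • a') (kb • b') (kc • c') (kd • d') (ke • e') =
      (ka * (kb * (kc * (kd * ke)))) • el a' b' c' d' e' := by
    unfold el
    simp only [map_smul, ContinuousLinearMap.smul_apply, smul_smul]
    congr 1
    ring
  rw [h1]
  exact tame_smul_7774 _ (tame_el_one_7774 a' b' c' d' e' ha hb hc hd he)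

theorem tame_T5 (t : T5 X) (δ : ℝ) (hδ : 0 < δ) :
    ∃ (Φ : Finset C(X, ℂ)) (η : ℝ), 0 < η ∧ ∀ (N : ℕ) (x : Pt N → X) (c : ℕ) (n n' : ℕ → ℕ),
      (∀ f ∈ Φ, Osc η c (fun τ => f (x τ))) → (∀ i < 4, n i = n' i ∨ (n i = c ∧ N ≤ n' i)) →
      ‖fQ x n t - fQ x n' t‖ ≤ δ := by
  let W : Submodule ℂ (T5 X) := {
    carrier := {t | Tame_7774 t}
    add_mem' := fun h h' => tame_add_7774 h h'
    zero_mem' := tame_zero_7774
    smul_mem' := fun k _ h => tame_smul_7774 k h }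
  have hW : IsClosed (W : Set (T5 X)) := by
    rw [← closure_subset_iff_isClosed]
    intro s hs
    exact tame_closure_7774 hs
  exact all_el_7774 W hW (fun a b c d e => tame_el_7774 a b c d e) t δ hδ


end TensorPowers

end

end Pool.Agent.Helper53.LB
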