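import Mathlib
import Pool.Agent.Helper53.LBx

set_option autoImplicit false
set_option maxSynthPendingDepth 3
set_option linter.unusedSectionVars false

namespace Pool.Agent.Helper53.LB

open Finset Filter Topology
open scoped BigOperators ComplexConjugate
open Pool.Agent.Helper53.BanachHomology (Tens tens lift lift_tens tens_ext)

noncomputable section

section TensorPowers

variable {X : Type} [TopologicalSpace X] [CompactSpace X]
variable {P P' : Type} [NormedAddCommGroup P] [NormedSpace ℂ P] [NormedAddCommGroup P']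
  [NormedSpace ℂ P']



omit [NormedAddCommGroup P] [NormedSpace ℂ P] [NormedAddCommGroup P'] [NormedSpace ℂ P'] in
lemma ext5_el {f g : T5 X →L[ℂ] ℂ} (h : ∀ a b c d e, f (el a b c d e) = g (el a b c d e)) :
    f = g := by
  refine tens_ext fun a t => ?_
  have h1 : f.comp (tens a) = g.comp (tens a) := by
    refine tens_ext fun b t => ?_
    have h2 : (f.comp (tens a)).comp (tens b) = (g.comp (tens a)).comp (tens b) := by
      refine tens_ext fun c t => ?_
      have h3 : ((f.comp (tens a)).comp (tens b)).comp (tens c) =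
          ((g.comp (tens a)).comp (tens b)).comp (tens c) := by
        refine tens_ext fun d e => ?_
        exact h a b c d e
      exact congrArg (fun F : T2 X →L[ℂ] ℂ => F t) h3
    exact congrArg (fun F : T3 X →L[ℂ] ℂ => F t) h2
  exact congrArg (fun F : T4 X →L[ℂ] ℂ => F t) h1

lemma x7_fQ_el {N : ℕ} (x : Pt N → X) (n : ℕ → ℕ) (a b c d e : C(X, ℂ)) :
    fQ x n (el a b c d e) = 𝔼 τ, ((fun τ => a (x τ)) * ce (n 0) ((fun τ => b (x τ)) *
      ce (n 1) ((fun τ => c (x τ)) * ce (n 2) ((fun τ => d (x τ)) *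
        ce (n 3) (fun τ => e (x τ)))))) τ := by
  have h1 : fQ x n (el a b c d e) = exL (nuS x (n 0) (nuS x (n 1) (nuS x (n 2)
    (nuS x (n 3) (cp x)))) (tens a (tens b (tens c (tens d e))))) := rfl
  rw [h1, nuS_tens, nuS_tens, nuS_tens, nuS_tens]
  rfl

lemma fR_el {N : ℕ} (x : Pt N → X) (n : ℕ → ℕ) (a b c d : C(X, ℂ)) :
    fR x n (el4 a b c d) = 𝔼 τ, ((fun τ => a (x τ)) * ce (n 0) ((fun τ => b (x τ)) *
      ce (n 1) ((fun τ => c (x τ)) * ce (n 2) (fun τ => d (x τ))))) τ := by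
  have h1 : fR x n (el4 a b c d) = exL (nuS x (n 0) (nuS x (n 1) (nuS x (n 2)
    (cp x))) (tens a (tens b (tens c d)))) := rfl
  rw [h1, nuS_tens, nuS_tens, nuS_tens]
  rfl

lemma x7_b4_el (a b c d e : C(X, ℂ)) : b4 X (el a b c d e) =
    el4 (a * b) c d e - el4 a (b * c) d e + el4 a b (c * d) e - el4 a b c (d * e) := by
  have h0 : el a b c d e = tens a (tens b (tens c (tens d e))) := rfl
  rw [h0, b4_tens, b3_tens, b2_tens, b1_tens, lT_tens, lT_tens, lT_tens]
  unfold el4
  simp only [map_sub]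
  abel

lemma cmul_comp {N : ℕ} (x : Pt N → X) (a b : C(X, ℂ)) :
    (fun τ => (a * b) (x τ)) = (fun τ => a (x τ)) * (fun τ => b (x τ)) := rfl

theorem fQ_bdry {N : ℕ} (x : Pt N → X) (μ : ℕ → ℕ) (t : T5 X) :
    ∑ i ∈ range 4, (-1 : ℂ) ^ i * fQ x (insN i N μ) t = fR x μ (b4 X t) := by
  have key : (∑ i ∈ range 4, (-1 : ℂ) ^ i • fQ x (insN i N μ)) = (fR x μ).comp (b4 X) := by
    refine ext5_el fun a b c d e => ?_
    have hL : (∑ i ∈ range 4, (-1 : ℂ) ^ i • fQ x (insN i N μ)) (el a b c d e) =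
        fQ x (insN 0 N μ) (el a b c d e) - fQ x (insN 1 N μ) (el a b c d e)
          + fQ x (insN 2 N μ) (el a b c d e) - fQ x (insN 3 N μ) (el a b c d e) := by
      simp only [sum_range_succ, sum_range_zero, ContinuousLinearMap.add_apply,
        ContinuousLinearMap.smul_apply, smul_eq_mul, zero_add]
      ring
    rw [hL]
    have hR : ((fR x μ).comp (b4 X)) (el a b c d e) = fR x μ (b4 X (el a b c d e)) := rfl
    rw [hR, x7_b4_el, map_sub, map_add, map_sub]
    rw [x7_fQ_el, x7_fQ_el, x7_fQ_el, x7_fQ_el, fR_el, fR_el, fR_el, fR_el]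
    simp only [cmul_comp]
    have v00 : insN 0 N μ 0 = N := insN_eq _ _ _
    have v01 : insN 0 N μ 1 = μ 0 := insN_gt _ _ (by norm_num)
    have v02 : insN 0 N μ 2 = μ 1 := insN_gt _ _ (by norm_num)
    have v03 : insN 0 N μ 3 = μ 2 := insN_gt _ _ (by norm_num)
    have v10 : insN 1 N μ 0 = μ 0 := insN_lt _ _ (by norm_num)
    have v11 : insN 1 N μ 1 = N := insN_eq _ _ _
    have v12 : insN 1 N μ 2 = μ 1 := insN_gt _ _ (by norm_num)
    have v13 : insN 1 N μ 3 = μ 2 := insN_gt _ _ (by norm_num)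
    have v20 : insN 2 N μ 0 = μ 0 := insN_lt _ _ (by norm_num)
    have v21 : insN 2 N μ 1 = μ 1 := insN_lt _ _ (by norm_num)
    have v22 : insN 2 N μ 2 = N := insN_eq _ _ _
    have v23 : insN 2 N μ 3 = μ 2 := insN_gt _ _ (by norm_num)
    have v30 : insN 3 N μ 0 = μ 0 := insN_lt _ _ (by norm_num)
    have v31 : insN 3 N μ 1 = μ 1 := insN_lt _ _ (by norm_num)
    have v32 : insN 3 N μ 2 = μ 2 := insN_lt _ _ (by norm_num)
    have v33 : insN 3 N μ 3 = N := insN_eq _ _ _
    rw [v00, v01, v02, v03, v10, v11, v12, v13, v20, v21, v22, v23, v30, v31, v32, v33]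
    simp only [ce_of_ge (le_refl N), mul_assoc]
  have h := congrArg (fun F : T5 X →L[ℂ] ℂ => F t) key
  have hL : (∑ i ∈ range 4, (-1 : ℂ) ^ i • fQ x (insN i N μ)) t =
      ∑ i ∈ range 4, (-1 : ℂ) ^ i * fQ x (insN i N μ) t := by
    simp only [sum_range_succ, sum_range_zero, ContinuousLinearMap.add_apply,
      ContinuousLinearMap.smul_apply, smul_eq_mul, zero_add]
  rw [← hL]
  exact h

end TensorPowers

end

end Pool.Agent.Helper53.LB
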