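import Mathlib
import Pool.Agent.Helper53.LBx
import Pool.Agent.Helper53.LBG1
import Pool.Agent.Helper53.LBG2
import Pool.Agent.Helper53.LBG3
import Pool.Agent.Helper53.LBX0
import Pool.Agent.Helper53.LBX1
import Pool.Agent.Helper53.LBX2
import Pool.Agent.Helper53.LBX3
import Pool.Agent.Helper53.LBX4
import Pool.Agent.Helper53.LBX5
import Pool.Agent.Helper53.LBX6
import Pool.Agent.Helper53.LBX7
import Pool.Agent.Helper53.LBB1
import Pool.Agent.Helper53.LBB2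
import Pool.Agent.Helper53.LBE1
import Pool.Agent.Helper53.LBV0
import Pool.Agent.Helper53.LBV1
import Pool.Agent.Helper53.LBV2
import Pool.Agent.Helper53.LBV3
import Pool.Agent.Helper53.LBV4

set_option autoImplicit false
set_option maxSynthPendingDepth 3
set_option linter.unusedSectionVars false

namespace Pool.Agent.Helper53.LB

open Finset Filter Topology
open scoped BigOperators ComplexConjugate
open Pool.Agent.Helper53.BanachHomology (Tens tens lift lift_tens tens_ext)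
open Pool.Agent.Helper53.Dim3 (Van4 Coc4 d3 Bimod)

noncomputable section

section Final

variable {X : Type} [TopologicalSpace X] [CompactSpace X]

/-- Box functions up to level `k`. -/
abbrev JB (k : ℕ) : Type := Σ l : Fin (k + 1), (Fin (l : ℕ) → Fin (Lb (l : ℕ)))

instance (k : ℕ) : Nonempty (JB k) := ⟨⟨⟨0, by omega⟩, fun i => absurd i.2 (Nat.not_lt_zero _)⟩⟩

/-- Extension of a finite family by one. -/
def extF (k : ℕ) (ρ : Fin k → C(X, ℂ)) : ℕ → C(X, ℂ) := fun j => if h : j < k then ρ ⟨j, h⟩ else 1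

/-- The functions with index in `JB`. -/
def uJ (k : ℕ) (ρ : Fin k → C(X, ℂ)) (j : JB k) : C(X, ℂ) := ub (extF k ρ) j.1 j.2

lemma uJ_eq (k : ℕ) (r : ℕ → C(X, ℂ)) (l : ℕ) (hl : l < k + 1) (e : Fin l → Fin (Lb l)) :
    uJ k (fun j : Fin k => r j) ⟨⟨l, hl⟩, e⟩ = ub r l e := by
  unfold uJ ub
  refine prod_congr rfl fun i _ => ?_
  have h1 : ((i : ℕ)) < k := lt_of_lt_of_le i.2 (Nat.lt_succ_iff.1 hl)
  have h2 : extF k (fun j : Fin k => r j) (i : ℕ) = r i := by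
    unfold extF
    rw [dif_pos h1]
  rw [h2]

lemma fQ_congr {N : ℕ} (x : Pt N → X) {n n' : ℕ → ℕ} (h : ∀ i < 4, n i = n' i) :
    fQ x n = fQ x n' := by
  unfold fQ
  rw [h 0 (by norm_num), h 1 (by norm_num), h 2 (by norm_num), h 3 (by norm_num)]

lemma G3_diff_le (s : C(X, ℂ) →L[ℂ] C(X, ℂ) →L[ℂ] C(X, ℂ) →L[ℂ] T5 X) {N : ℕ} (x : Pt N → X)
    (r : ℕ → C(X, ℂ)) (n n' l : ℕ → ℕ) (δ : ℝ)
    (h : ∀ (e0 : Fin (l 0) → Fin (Lb (l 0))) (e1 : Fin (l 1) → Fin (Lb (l 1)))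
      (e2 : Fin (l 2) → Fin (Lb (l 2))),
      ‖fQ x n (word s (ub r (l 0) e0) (ub r (l 1) e1) (ub r (l 2) e2))
        - fQ x n' (word s (ub r (l 0) e0) (ub r (l 1) e1) (ub r (l 2) e2))‖ ≤ δ) :
    ‖G3 s x r n l - G3 s x r n' l‖ ≤ δ := by
  have e : G3 s x r n l - G3 s x r n' l = AvB r (l 0) fun u0 => AvB r (l 1) fun u1 =>
      AvB r (l 2) fun u2 => (fQ x n (word s u0 u1 u2) - fQ x n' (word s u0 u1 u2)) := by
    unfold G3
    rw [← AvB_sub]
    congr 1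
    funext u0
    rw [← AvB_sub]
    congr 1
    funext u1
    rw [← AvB_sub]
  rw [e]
  unfold AvB
  refine (RCLike.norm_expect_le (K := ℂ)).trans (expect_le univ_nonempty fun e0 _ => ?_)
  refine (RCLike.norm_expect_le (K := ℂ)).trans (expect_le univ_nonempty fun e1 _ => ?_)
  refine (RCLike.norm_expect_le (K := ℂ)).trans (expect_le univ_nonempty fun e2 _ => ?_)
  exact h e0 e1 e2

variable [T2Space X]

theorem no_van4 (hcb : ∀ n, (CX.cb X n).Nonempty) : ¬ Van4 C(X, ℂ) := by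
  classical
  intro hvan
  have hX0 : ∀ (N : ℕ) (x : Pt N → X) (n : ℕ → ℕ) (a b c d e : C(X, ℂ)),
      fQ x n (el a b c d e) = QV 4 N n (fun i τ => seq5 a b c d e i (x τ)) :=
    fun N x n a b c d e => fQ_el x n a b c d e
  have hX1 : ∀ (a : C(X, ℂ)) (t : T5 X), b4 X (lT X (T4 X) a t) = lT X (T3 X) a (b4 X t) := b4_lT
  obtain ⟨s, hs, hb⟩ := exists_s (X := X) hX1 b4_r5 b4_el hvan
  have hT5 : ∀ (φ : T5 X →L[ℂ] ℂ) (M : ℝ),
      (∀ a b c d e : C(X, ℂ), ‖a‖ ≤ 1 → ‖b‖ ≤ 1 → ‖c‖ ≤ 1 → ‖d‖ ≤ 1 → ‖e‖ ≤ 1 →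
        ‖φ (el a b c d e)‖ ≤ M) → ∀ t : T5 X, ‖φ t‖ ≤ M * ‖t‖ :=
    fun φ M h t => norm_T5_le φ M h t
  have hpt : ∀ (N : ℕ) (x : Pt N → X) (r : ℕ → C(X, ℂ)),
      (∀ j < N, ∀ τ, r j (x τ) = bs (emb N τ j)) → ∀ k ≤ N, ∀ (Ψ : (Pt N → ℂ) → ℂ),
        AvB r k (fun u => Ψ (fun τ => u (x τ))) = Av k (fun w => Ψ (rs N w)) :=
    fun N x r hr k hk Ψ => AvB_pt x r hr hk Ψ
  have hshift : ∀ r : ℕ → C(X, ℂ), (∀ j, Uni (r j)) → ∀ k k' : ℕ, k < k' →
      ∀ (e : Fin k → Fin (Lb k)) (φ : C(X, ℂ) → ℂ) (M : ℝ), (∀ u, Uni u → ‖φ u‖ ≤ M) →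
        ‖AvB r k' (fun u => φ (ub r k e * u)) - AvB r k' φ‖ ≤ M * (1 / 2 : ℝ) ^ k :=
    fun r hr k k' hk e φ M hφ => AvB_shift r hr hk e φ M hφ
  have hQV : ∀ (N l : ℕ), l ≤ N → ∀ (n : ℕ → ℕ) (i : ℕ), i < 4 → ∀ f : ℕ → Pt N → ℂ,
      (∀ i x, ‖f i x‖ ≤ 1) → ‖Av l fun w => QV 4 N n (fun j => if j = 0 then rs N w * f 0 else
        if j = 4 then rs N w * f 4 else f j)‖ ≤ (1 / 2 : ℝ) ^ (l - n i) :=
    fun N l hl n i hi f hf => QV_shift_le hl n hi f hf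
  -- the data
  choose FΦ Fη hF0 hF using fun (t : T5 X) (k : ℕ) =>
    tame_T5 t ((1 / 2 : ℝ) ^ k) (by positivity)
  let wJ : (k : ℕ) → (Fin k → C(X, ℂ)) → JB k × JB k × JB k → T5 X := fun k ρ j =>
    word s (uJ k ρ j.1) (uJ k ρ j.2.1) (uJ k ρ j.2.2)
  let Φ : (k : ℕ) → (Fin k → C(X, ℂ)) → Finset C(X, ℂ) := fun k ρ =>
    univ.biUnion fun j : JB k × JB k × JB k => FΦ (wJ k ρ j) k
  let η : (k : ℕ) → (Fin k → C(X, ℂ)) → ℝ := fun k ρ =>
    univ.inf' univ_nonempty fun j : JB k × JB k × JB k => Fη (wJ k ρ j) k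
  have hη : ∀ k r, 0 < η k r := fun k r => (Finset.lt_inf'_iff _).2 fun j _ => hF0 _ _
  choose x r hr hrx hosc using fun N => exists_embedding (X := X) hcb N Φ η hη
  -- the game
  refine game_false (m := 2)
    { G := fun N n l => G3 s (x N) (r N) n l
      P := fun N n l => P4 s (x N) (r N) n l
      C := 10 * ‖s‖
      hC := by positivity
      congr_n := fun N n n' l h => ?_
      congr_l := fun N n l l' h => ?_
      bound := fun N l q n n' M hM => ?_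
      rel := fun N n l => ?_
      P_le := fun N n l i hi hl hlN => ?_
      tame := fun δ hδ => ?_
      bdry := fun N μ l hl => ?_ }
  · show G3 s (x N) (r N) n l = G3 s (x N) (r N) n' l
    unfold G3
    rw [fQ_congr (x N) (fun i hi => h i hi)]
  · show G3 s (x N) (r N) n l = G3 s (x N) (r N) n l'
    unfold G3
    rw [h 0 (by norm_num), h 1 (by norm_num), h 2 (by norm_num)]
  · have h1 := G3_bound s hT5 hX0 (fun a t => (norm_ops a t).1) (x N) (r N) (hr N) l q n n' M hM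
    have hM0 : 0 ≤ M := (norm_nonneg _).trans (hM (fun _ _ => 0) (fun _ _ => by simp))
    refine h1.trans ?_
    have := norm_nonneg s
    nlinarith [mul_nonneg this hM0]
  · have h1 := G3_rel s (x N) (r N) (hr N) hs n l
    have e : ((-1 : ℂ)) ^ (2 + 2) = 1 := by norm_num
    rw [e, one_mul]
    exact h1
  · exact P4_le s hT5 hX0 norm_ops hpt hshift hQV (x N) (r N) (hr N) (hrx N) n l i hi hl hlN
  · obtain ⟨k0, hk0⟩ := exists_pow_lt_of_lt_one hδ (by norm_num : (1 / 2 : ℝ) < 1)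
    refine ⟨k0 + 1, fun c hc N hN l n n' hl hnn => ?_⟩
    obtain ⟨k, rfl⟩ : ∃ k, c = k + 1 := ⟨c - 1, by omega⟩
    refine G3_diff_le s (x N) (r N) n n' l δ fun e0 e1 e2 => ?_
    have hl0 : l 0 < k + 1 := hl 0 (by norm_num)
    have hl1 : l 1 < k + 1 := hl 1 (by norm_num)
    have hl2 : l 2 < k + 1 := hl 2 (by norm_num)
    let j : JB k × JB k × JB k := ⟨⟨⟨l 0, hl0⟩, e0⟩, ⟨⟨l 1, hl1⟩, e1⟩, ⟨⟨l 2, hl2⟩, e2⟩⟩
    have hj : wJ k (fun i : Fin k => r N i) j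
        = word s (ub (r N) (l 0) e0) (ub (r N) (l 1) e1) (ub (r N) (l 2) e2) := by
      show word s (uJ k _ ⟨⟨l 0, hl0⟩, e0⟩) (uJ k _ ⟨⟨l 1, hl1⟩, e1⟩) (uJ k _ ⟨⟨l 2, hl2⟩, e2⟩) = _
      rw [uJ_eq, uJ_eq, uJ_eq]
    rw [← hj]
    refine (hF (wJ k (fun i : Fin k => r N i) j) k N (x N) (k + 1) n n' ?_ ?_).trans ?_
    · intro f hf
      have h1 : f ∈ Φ k (fun i : Fin k => r N i) :=
        mem_biUnion.2 ⟨j, mem_univ _, hf⟩
      have h2 := hosc N k (by omega) (k + 1) (by omega) f h1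
      have h3 : η k (fun i : Fin k => r N i) ≤ Fη (wJ k (fun i : Fin k => r N i) j) k :=
        Finset.inf'_le _ (mem_univ j)
      intro y z hyz
      exact (h2 y z hyz).trans h3
    · exact fun i _ => hnn i
    · refine le_trans ?_ hk0.le
      exact pow_le_pow_of_le_one (by norm_num) (by norm_num) (by omega)
  · have h1 := G3_bdry s hb hX1 (fun N x μ t => fQ_bdry x μ t) hX0 hpt (x N) (r N) (hr N) (hrx N)
      μ l (fun i hi => hl i hi)
    have h2 := QV_word 2 N μ l (fun i hi => hl i hi)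
    exact h1.trans h2

end Final

end

end Pool.Agent.Helper53.LB
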