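import Pool.Agent.Helper53.TestModule

set_option autoImplicit false
set_option maxSynthPendingDepth 3

namespace Pool.Agent.Helper53

open scoped ENNReal
open Filter Topology ContinuousLinearMap

universe u

/-- the Banach space `ℓ¹(α)` -/
abbrev L1 (α : Type u) : Type u := lp (fun _ : α => ℂ) 1

namespace L1

variable {α : Type u}

lemma hasSum_norm (x : L1 α) : HasSum (fun i => ‖x i‖) ‖x‖ := by
  have := lp.hasSum_norm (p := 1) (by simp) x
  simpa using this

lemma summable_norm (x : L1 α) : Summable (fun i => ‖x i‖) := (hasSum_norm x).summable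

lemma sum_norm_le (x : L1 α) (F : Finset α) : ∑ i ∈ F, ‖x i‖ ≤ ‖x‖ :=
  sum_le_hasSum F (fun _ _ => norm_nonneg _) (hasSum_norm x)

lemma norm_apply_le (x : L1 α) (i : α) : ‖x i‖ ≤ ‖x‖ := by
  simpa using sum_norm_le x {i}

lemma norm_le_of_sum_le (x : L1 α) (C : ℝ) (h : ∀ F : Finset α, ∑ i ∈ F, ‖x i‖ ≤ C) :
    ‖x‖ ≤ C :=
  hasSum_le_of_sum_le (hasSum_norm x) h

lemma mem_of_summable (f : α → ℂ) (hf : Summable (fun i => ‖f i‖)) :
    Memℓp f (1 : ℝ≥0∞) := by
  refine memℓp_gen ?_
  simpa using hf

/-- an element of `ℓ¹` from an absolutely summable family -/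
noncomputable def mk (f : α → ℂ) (hf : Summable (fun i => ‖f i‖)) : L1 α :=
  ⟨f, mem_of_summable f hf⟩

@[simp] lemma mk_apply (f : α → ℂ) (hf : Summable (fun i => ‖f i‖)) (i : α) :
    mk f hf i = f i := rfl

/-- coordinate functionals -/
noncomputable def coord (i : α) : L1 α →L[ℂ] ℂ := lp.evalCLM ℂ (fun _ : α => ℂ) 1 i

@[simp] lemma coord_apply (i : α) (x : L1 α) : coord i x = x i := rfl

lemma countable_support (x : L1 α) : {i | x i ≠ 0}.Countable := by
  have := (summable_norm x).countable_support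
  refine this.mono (fun i hi => ?_)
  simpa [Function.mem_support] using hi

lemma summable_indicator (x : L1 α) (B : Set α) :
    Summable (fun i => ‖B.indicator (fun i => x i) i‖) := by
  refine Summable.of_nonneg_of_le (fun _ => norm_nonneg _) (fun i => ?_) (summable_norm x)
  exact norm_indicator_le_norm_self _ _

/-- sum of the coordinates over a set -/
noncomputable def sumOn (B : Set α) : L1 α →L[ℂ] ℂ :=
  LinearMap.mkContinuous
    { toFun := fun x => ∑' i, B.indicator (fun i => x i) i
      map_add' := fun x y => by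
        rw [← Summable.tsum_add (summable_indicator x B).of_norm (summable_indicator y B).of_norm]
        refine tsum_congr (fun i => ?_)
        simp only [lp.coeFn_add, Pi.add_apply]
        by_cases h : i ∈ B <;> simp [h]
      map_smul' := fun c x => by
        simp only [RingHom.id_apply, smul_eq_mul]
        rw [← tsum_mul_left]
        refine tsum_congr (fun i => ?_)
        simp only [lp.coeFn_smul, Pi.smul_apply, smul_eq_mul]
        by_cases h : i ∈ B <;> simp [h] }
    1 (fun x => by
      simp only [LinearMap.coe_mk, AddHom.coe_mk, one_mul]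
      refine (norm_tsum_le_tsum_norm (summable_indicator x B)).trans ?_
      refine ((summable_indicator x B).tsum_le_tsum (fun i => ?_) (summable_norm x)).trans_eq
        (hasSum_norm x).tsum_eq
      exact norm_indicator_le_norm_self _ _)

lemma sumOn_apply (B : Set α) (x : L1 α) :
    sumOn B x = ∑' i, B.indicator (fun i => x i) i := rfl

lemma sumOn_eq_zero (B : Set α) (x : L1 α) (h : ∀ i ∈ B, x i = 0) : sumOn B x = 0 := by
  rw [sumOn_apply]
  have : (fun i => B.indicator (fun i => x i) i) = fun _ => 0 := by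
    funext i
    by_cases hi : i ∈ B
    · rw [Set.indicator_of_mem hi, h i hi]
    · rw [Set.indicator_of_notMem hi]
  rw [this, tsum_zero]

lemma sumOn_eq_univ (B : Set α) (x : L1 α) (h : ∀ i ∉ B, x i = 0) :
    sumOn B x = sumOn Set.univ x := by
  rw [sumOn_apply, sumOn_apply]
  refine tsum_congr (fun i => ?_)
  rw [Set.indicator_univ]
  by_cases hi : i ∈ B
  · rw [Set.indicator_of_mem hi]
  · rw [Set.indicator_of_notMem hi, h i hi]

/-- product of a bounded family and an absolutely summable family -/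
noncomputable def mulL : lp (fun _ : α => ℂ) ∞ →L[ℂ] L1 α →L[ℂ] L1 α :=
  LinearMap.mkContinuous₂
    (LinearMap.mk₂ ℂ (fun (b : lp (fun _ : α => ℂ) ∞) (x : L1 α) =>
        mk (fun i => b i * x i) (by
          refine Summable.of_nonneg_of_le (fun _ => norm_nonneg _) (fun i => ?_)
            ((summable_norm x).mul_left ‖b‖)
          rw [norm_mul]
          exact mul_le_mul_of_nonneg_right (lp.norm_apply_le_norm (by simp) b i)
            (norm_nonneg _)))
      (fun a b y => by ext i; simp [add_mul]) (fun c a y => by ext i; simp [mul_assoc])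
      (fun a y z => by ext i; simp [mul_add]) (fun c a y => by ext i; simp [mul_left_comm]))
    1 (fun b x => by
      rw [one_mul]
      refine norm_le_of_sum_le _ _ (fun F => ?_)
      calc ∑ i ∈ F, ‖b i * x i‖ ≤ ∑ i ∈ F, ‖b‖ * ‖x i‖ := by
            refine Finset.sum_le_sum (fun i _ => ?_)
            rw [norm_mul]
            exact mul_le_mul_of_nonneg_right (lp.norm_apply_le_norm (by simp) b i)
              (norm_nonneg _)
        _ = ‖b‖ * ∑ i ∈ F, ‖x i‖ := by rw [Finset.mul_sum]
        _ ≤ ‖b‖ * ‖x‖ := mul_le_mul_of_nonneg_left (sum_norm_le x F) (norm_nonneg _))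

@[simp] lemma mulL_apply (b : lp (fun _ : α => ℂ) ∞) (x : L1 α) (i : α) :
    mulL b x i = b i * x i := rfl

lemma norm_mulL_le (b : lp (fun _ : α => ℂ) ∞) (x : L1 α) : ‖mulL b x‖ ≤ ‖b‖ * ‖x‖ := by
  have := LinearMap.mkContinuous₂_norm_le
    (LinearMap.mk₂ ℂ (fun (b : lp (fun _ : α => ℂ) ∞) (x : L1 α) =>
        mk (fun i => b i * x i) (by
          refine Summable.of_nonneg_of_le (fun _ => norm_nonneg _) (fun i => ?_)
            ((summable_norm x).mul_left ‖b‖)
          rw [norm_mul]
          exact mul_le_mul_of_nonneg_right (lp.norm_apply_le_norm (by simp) b i)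
            (norm_nonneg _)))
      (fun a b y => by ext i; simp [add_mul]) (fun c a y => by ext i; simp [mul_assoc])
      (fun a y z => by ext i; simp [mul_add]) (fun c a y => by ext i; simp [mul_left_comm]))
    zero_le_one (fun b x => by
      rw [one_mul]
      refine norm_le_of_sum_le _ _ (fun F => ?_)
      calc ∑ i ∈ F, ‖b i * x i‖ ≤ ∑ i ∈ F, ‖b‖ * ‖x i‖ := by
            refine Finset.sum_le_sum (fun i _ => ?_)
            rw [norm_mul]
            exact mul_le_mul_of_nonneg_right (lp.norm_apply_le_norm (by simp) b i)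
              (norm_nonneg _)
        _ = ‖b‖ * ∑ i ∈ F, ‖x i‖ := by rw [Finset.mul_sum]
        _ ≤ ‖b‖ * ‖x‖ := mul_le_mul_of_nonneg_left (sum_norm_le x F) (norm_nonneg _))
  have h2 : ‖(mulL : lp (fun _ : α => ℂ) ∞ →L[ℂ] L1 α →L[ℂ] L1 α)‖ ≤ 1 := this
  calc ‖mulL b x‖ ≤ ‖(mulL : lp (fun _ : α => ℂ) ∞ →L[ℂ] L1 α →L[ℂ] L1 α)‖ * ‖b‖ * ‖x‖ :=
        mulL.le_opNorm₂ b x
    _ ≤ 1 * ‖b‖ * ‖x‖ := by gcongr
    _ = ‖b‖ * ‖x‖ := by ring

end L1

end Pool.Agent.Helper53
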