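import Mathlib

set_option autoImplicit false
set_option maxSynthPendingDepth 3

namespace Pool.Agent.Helper53

/-- an infinite set of natural numbers splits into infinitely many infinite pieces -/
lemma exists_split (J : Set ℕ) (hJ : J.Infinite) :
    ∃ P : ℕ → Set ℕ, (∀ k, P k ⊆ J) ∧ (∀ k, (P k).Infinite) ∧
      ∀ k l, k ≠ l → Disjoint (P k) (P l) := by
  classical
  let e : ℕ ↪ J := hJ.natEmbedding
  let g : ℕ → ℕ := fun n => (e n : ℕ)
  have hg : Function.Injective g := fun a b h => e.injective (Subtype.ext h)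
  refine ⟨fun k => Set.range (fun l => g (Nat.pair k l)), ?_, ?_, ?_⟩
  · rintro k _ ⟨l, rfl⟩
    exact (e _).2
  · intro k
    refine Set.infinite_range_of_injective ?_
    intro a b h
    have := hg h
    exact (Nat.pair_eq_pair.mp this).2
  · intro k l hkl
    rw [Set.disjoint_left]
    rintro _ ⟨a, rfl⟩ ⟨b, hb⟩
    have := hg hb
    exact hkl (Nat.pair_eq_pair.mp this).1.symm

/-- Rosenthal's lemma for a bounded family of superadditive set functions. -/
theorem rosenthal (μ : ℕ → Set ℕ → ℝ) (hnn : ∀ i J, 0 ≤ μ i J)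
    (hsup : ∀ i J J', Disjoint J J' → μ i J + μ i J' ≤ μ i (J ∪ J'))
    (hmono : ∀ i J J', J ⊆ J' → μ i J ≤ μ i J')
    (C : ℝ) (hC : ∀ i J, μ i J ≤ C) (δ : ℝ) (hδ : 0 < δ) :
    ∃ J : Set ℕ, J.Infinite ∧ ∀ i ∈ J, μ i (J \ {i}) ≤ δ := by
  have key : ∀ n : ℕ, ∀ J : Set ℕ, J.Infinite → (∀ i ∈ J, μ i J ≤ n * δ) →
      ∃ J' : Set ℕ, J'.Infinite ∧ ∀ i ∈ J', μ i (J' \ {i}) ≤ δ := by
    intro n
    induction n with
    | zero =>
      intro J hJ h
      refine ⟨J, hJ, fun i hi => ?_⟩
      have h1 := hmono i _ _ (Set.diff_subset : J \ {i} ⊆ J)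
      have h2 := h i hi
      simp only [Nat.cast_zero, zero_mul] at h2
      linarith
    | succ n ih =>
      intro J hJ h
      obtain ⟨P, hPJ, hPinf, hPdisj⟩ := exists_split J hJ
      by_cases hex : ∃ k, ∀ i ∈ P k, μ i (P k \ {i}) ≤ δ
      · obtain ⟨k, hk⟩ := hex
        exact ⟨P k, hPinf k, hk⟩
      · push Not at hex
        choose f hfP hf using hex
        have hfinj : Function.Injective f := by
          intro a b hab
          by_contra hne
          have := hPdisj a b hne
          rw [Set.disjoint_left] at this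
          exact this (hfP a) (hab ▸ hfP b)
        refine ih (Set.range f) (Set.infinite_range_of_injective hfinj) ?_
        rintro _ ⟨k, rfl⟩
        have hdis : Disjoint (Set.range f) (P k \ {f k}) := by
          rw [Set.disjoint_left]
          rintro _ ⟨l, rfl⟩ ⟨h1, h2⟩
          by_cases hlk : l = k
          · subst hlk; exact h2 rfl
          · have := hPdisj l k hlk
            rw [Set.disjoint_left] at this
            exact this (hfP l) h1
        have h1 := hsup (f k) _ _ hdis
        have h2 : Set.range f ∪ P k \ {f k} ⊆ J := by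
          rintro x (⟨l, rfl⟩ | hx)
          · exact hPJ l (hfP l)
          · exact hPJ k hx.1
        have h3 := hmono (f k) _ _ h2
        have h4 := h (f k) (hPJ k (hfP k))
        have h5 := hf k
        push_cast at h4
        linarith
  obtain ⟨n, hn⟩ := exists_nat_ge (C / δ)
  refine key n Set.univ Set.infinite_univ (fun i _ => ?_)
  have := hC i Set.univ
  rw [div_le_iff₀ hδ] at hn
  linarith

end Pool.Agent.Helper53
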