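import Pool.Agent.Helper53.Setup
import Pool.Agent.Helper53.EllOne
import Pool.Agent.Helper53.Rosenthal

set_option autoImplicit false
set_option maxSynthPendingDepth 8

namespace Pool.Agent.Helper53

open ContinuousLinearMap Filter
open scoped ENNReal

namespace Left

/-- bounded operators on `ℓ¹` -/
abbrev B : Type := Ell1 →L[ℂ] Ell1
/-- compact operators on `ℓ¹` -/
abbrev K : Type := compactOps Ell1

/-- the bilinear form `(U, V) ↦ (U R V e_s)_i` -/
noncomputable def form (R : B) (s i : ℕ) : Bil B K :=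
  LinearMap.mkContinuous₂
    (LinearMap.mk₂ ℂ (fun (U : B) (V : K) => (U (R ((V : B) (Ell1.e s)))) i)
      (fun a b y => by simp) (fun c a y => by simp)
      (fun a y z => by simp) (fun c a y => by simp))
    ‖R‖ (fun U V => by
      rw [LinearMap.mk₂_apply]
      calc ‖(U (R ((V : B) (Ell1.e s)))) i‖ ≤ ‖U (R ((V : B) (Ell1.e s)))‖ :=
            Ell1.norm_apply_le _ _
        _ ≤ ‖U‖ * (‖R‖ * (‖V‖ * ‖Ell1.e s‖)) := by
            refine (U.le_opNorm _).trans ?_
            gcongr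
            refine (R.le_opNorm _).trans ?_
            gcongr
            exact (V : B).le_opNorm _
        _ = ‖R‖ * ‖U‖ * ‖V‖ := by rw [Ell1.norm_e]; ring)

@[simp] lemma form_apply (R : B) (s i : ℕ) (U : B) (V : K) :
    form R s i U V = (U (R ((V : B) (Ell1.e s)))) i := rfl

lemma norm_form_le (R : B) (s i : ℕ) : ‖form R s i‖ ≤ ‖R‖ :=
  LinearMap.mkContinuous₂_norm_le _ (norm_nonneg _) _

/-- the tail operators -/
noncomputable abbrev tail (M : ℕ) : B := Ell1.restr (Set.Ici M)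
/-- the head operators -/
noncomputable abbrev head (M : ℕ) : B := Ell1.restr (Set.Iio M)

lemma head_add_tail (M : ℕ) : head M + tail M = ContinuousLinearMap.id ℂ Ell1 := by
  rw [← Ell1.restr_union, ← Ell1.restr_univ]
  · congr 1
    ext x; simp
  · rw [Set.disjoint_left]; intro x hx hx'; simp at hx hx'; omega

lemma form_head_add_tail (M s i : ℕ) :
    form (head M) s i + form (tail M) s i = form (ContinuousLinearMap.id ℂ Ell1) s i := by
  rw [← head_add_tail M]
  ext U V
  simp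

/-- compact operators on `ℓ¹` have uniformly small tails -/
lemma exists_tail_small (V : K) (ε : ℝ) (hε : 0 < ε) :
    ∃ M0 : ℕ, ∀ M ≥ M0, ∀ s : ℕ, ‖tail M ((V : B) (Ell1.e s))‖ ≤ ε := by
  have hc : IsCompactOperator (V : B) := V.2
  obtain ⟨C, hC, hVC⟩ := hc.image_closedBall_subset_compact (M₁ := Ell1) (M₂ := Ell1) 1
  have htb := hC.totallyBounded
  rw [Metric.totallyBounded_iff] at htb
  obtain ⟨t, htfin, ht⟩ := htb (ε / 2) (by positivity)
  have h1 : ∀ y ∈ t, ∀ᶠ M : ℕ in atTop, ‖tail M y‖ < ε / 2 := by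
    intro y _
    exact (Ell1.tendsto_restr_Ici y).eventually (gt_mem_nhds (by positivity))
  have h2 : ∀ᶠ M : ℕ in atTop, ∀ y ∈ t, ‖tail M y‖ < ε / 2 :=
    (htfin.eventually_all).2 h1
  obtain ⟨M0, hM0⟩ := eventually_atTop.1 h2
  refine ⟨M0, fun M hM s => ?_⟩
  have hmem : (V : B) (Ell1.e s) ∈ C := by
    apply hVC
    refine ⟨Ell1.e s, ?_, rfl⟩
    simp [Ell1.norm_e]
  obtain ⟨y, hy, hy'⟩ := Set.mem_iUnion₂.1 (ht hmem)
  have h3 := hM0 M hM y hy
  have h4 : ‖tail M ((V : B) (Ell1.e s) - y)‖ ≤ ‖(V : B) (Ell1.e s) - y‖ :=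
    Ell1.norm_restr_apply_le _ _
  rw [Metric.mem_ball, dist_eq_norm] at hy'
  have h5 : tail M ((V : B) (Ell1.e s)) = tail M ((V : B) (Ell1.e s) - y) + tail M y := by
    rw [← map_add]; simp
  rw [h5]
  refine (norm_add_le _ _).trans ?_
  linarith

/-- functionals in the closed span of elementary tensors have uniformly small tails -/
lemma exists_tail_small_tens (y : BilDual B K) (hy : y ∈ tensClosure B K)
    (ε : ℝ) (hε : 0 < ε) :
    ∃ M0 : ℕ, ∀ M ≥ M0, ∀ s : ℕ, ‖y (form (tail M) s 0)‖ ≤ ε := by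
  let S : Submodule ℂ (BilDual B K) :=
    { carrier := {y | ∀ ε > (0 : ℝ), ∃ M0 : ℕ, ∀ M ≥ M0, ∀ s : ℕ,
        ‖y (form (tail M) s 0)‖ ≤ ε}
      zero_mem' := fun ε hε => ⟨0, fun M _ s => by simpa using hε.le⟩
      add_mem' := fun {a b} ha hb ε hε => by
        obtain ⟨M1, h1⟩ := ha (ε / 2) (by positivity)
        obtain ⟨M2, h2⟩ := hb (ε / 2) (by positivity)
        refine ⟨max M1 M2, fun M hM s => ?_⟩
        have h3 := h1 M (le_trans (le_max_left _ _) hM) s
        have h4 := h2 M (le_trans (le_max_right _ _) hM) s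
        rw [add_apply]
        refine (norm_add_le _ _).trans ?_
        linarith
      smul_mem' := fun c a ha ε hε => by
        obtain ⟨M1, h1⟩ := ha (ε / (‖c‖ + 1)) (by positivity)
        refine ⟨M1, fun M hM s => ?_⟩
        have h3 := h1 M hM s
        rw [smul_apply, norm_smul]
        calc ‖c‖ * ‖a (form (tail M) s 0)‖ ≤ (‖c‖ + 1) * (ε / (‖c‖ + 1)) := by
              gcongr; linarith
          _ = ε := by field_simp }
  have hle : tensClosure B K ≤ S := by
    refine Submodule.topologicalClosure_minimal _ ?_ ?_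
    · rw [Submodule.span_le]
      rintro _ ⟨⟨U, V⟩, rfl⟩
      intro ε hε
      obtain ⟨M0, h0⟩ := exists_tail_small V (ε / (‖U‖ + 1)) (by positivity)
      refine ⟨M0, fun M hM s => ?_⟩
      simp only [tm_apply, form_apply]
      calc ‖(U (tail M ((V : B) (Ell1.e s)))) 0‖ ≤ ‖U (tail M ((V : B) (Ell1.e s)))‖ :=
            Ell1.norm_apply_le _ _
        _ ≤ ‖U‖ * ‖tail M ((V : B) (Ell1.e s))‖ := U.le_opNorm _
        _ ≤ (‖U‖ + 1) * (ε / (‖U‖ + 1)) := by
              have := h0 M hM s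
              gcongr; linarith
        _ = ε := by field_simp
    · rw [← isSeqClosed_iff_isClosed]
      intro u z hu huz ε hε
      have h1 : ∀ᶠ n in atTop, ‖u n - z‖ < ε / 2 := by
        have := (tendsto_iff_norm_sub_tendsto_zero.1 huz)
        exact this.eventually (gt_mem_nhds (by positivity))
      obtain ⟨n, hn⟩ := h1.exists
      obtain ⟨M0, h0⟩ := hu n (ε / 2) (by positivity)
      refine ⟨M0, fun M hM s => ?_⟩
      have h2 := h0 M hM s
      have h3 : ‖(u n - z) (form (tail M) s 0)‖ ≤ ‖u n - z‖ := by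
        refine ((u n - z).le_opNorm _).trans ?_
        have : ‖form (tail M) s 0‖ ≤ 1 := (norm_form_le _ _ _).trans (Ell1.norm_restr_le _)
        nlinarith [norm_nonneg (u n - z)]
      have h4 : z (form (tail M) s 0) = u n (form (tail M) s 0)
          - (u n - z) (form (tail M) s 0) := by
        rw [sub_apply]; ring
      rw [h4]
      refine (norm_sub_le _ _).trans ?_
      linarith
  exact hle hy ε hε

/-- the dual of `ℓ¹` -/
abbrev Du : Type := Ell1 →L[ℂ] ℂ

/-- restriction of functionals to a set of coordinates -/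
noncomputable def dres (J : Set ℕ) : Du →L[ℂ] Du :=
  (compL ℂ Ell1 Ell1 ℂ).flip (Ell1.restr J)

@[simp] lemma dres_apply (J : Set ℕ) (f : Du) : dres J f = f.comp (Ell1.restr J) := rfl

lemma norm_dres_le (J : Set ℕ) : ‖dres J‖ ≤ 1 :=
  opNorm_le_bound _ zero_le_one (fun f => by
    rw [dres_apply, one_mul]
    refine (opNorm_comp_le _ _).trans ?_
    have := Ell1.norm_restr_le J
    nlinarith [norm_nonneg f])

lemma comp_dres_mono (w : Du →L[ℂ] ℂ) {J J' : Set ℕ} (h : J ⊆ J') :
    ‖w.comp (dres J)‖ ≤ ‖w.comp (dres J')‖ := by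
  have h1 : w.comp (dres J) = (w.comp (dres J')).comp (dres J) := by
    ext f
    simp only [ContinuousLinearMap.comp_apply, dres_apply]
    congr 1
    ext x
    simp only [ContinuousLinearMap.comp_apply]
    rw [Ell1.restr_restr, Set.inter_eq_left.2 h]
  rw [h1]
  refine (opNorm_comp_le _ _).trans ?_
  have := norm_dres_le J
  nlinarith [norm_nonneg (w.comp (dres J'))]

lemma comp_dres_super (w : Du →L[ℂ] ℂ) {J J' : Set ℕ} (h : Disjoint J J') :
    ‖w.comp (dres J)‖ + ‖w.comp (dres J')‖ ≤ ‖w.comp (dres (J ∪ J'))‖ := by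
  set c := ‖w.comp (dres (J ∪ J'))‖ with hc
  have key : ∀ f1 f2 : Du, ‖f1‖ ≤ 1 → ‖f2‖ ≤ 1 →
      ‖w.comp (dres J) f1‖ + ‖w.comp (dres J') f2‖ ≤ c := by
    intro f1 f2 h1 h2
    obtain ⟨θ1, hθ1, e1⟩ := exists_phase (w.comp (dres J) f1)
    obtain ⟨θ2, hθ2, e2⟩ := exists_phase (w.comp (dres J') f2)
    let g : Du := θ1 • dres J f1 + θ2 • dres J' f2
    have hg : ‖g‖ ≤ 1 := by
      refine opNorm_le_bound _ zero_le_one (fun x => ?_)
      have h3 := Ell1.norm_restr_add_le h x
      calc ‖g x‖ = ‖θ1 * f1 (Ell1.restr J x) + θ2 * f2 (Ell1.restr J' x)‖ := by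
            simp [g]
        _ ≤ ‖θ1‖ * ‖f1 (Ell1.restr J x)‖ + ‖θ2‖ * ‖f2 (Ell1.restr J' x)‖ := by
            refine (norm_add_le _ _).trans ?_
            rw [norm_mul, norm_mul]
        _ ≤ 1 * ‖Ell1.restr J x‖ + 1 * ‖Ell1.restr J' x‖ := by
            have a1 := f1.le_opNorm (Ell1.restr J x)
            have a2 := f2.le_opNorm (Ell1.restr J' x)
            gcongr
            · nlinarith [norm_nonneg (Ell1.restr J x)]
            · nlinarith [norm_nonneg (Ell1.restr J' x)]
        _ ≤ 1 * ‖x‖ := by linarith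
    have hgg : dres (J ∪ J') g = g := by
      ext x
      simp only [g, dres_apply, ContinuousLinearMap.comp_apply, add_apply, smul_apply]
      rw [Ell1.restr_restr, Ell1.restr_restr, Set.inter_eq_left.2 Set.subset_union_left,
        Set.inter_eq_left.2 Set.subset_union_right]
    have h4 : w.comp (dres (J ∪ J')) g =
        ((‖w.comp (dres J) f1‖ + ‖w.comp (dres J') f2‖ : ℝ) : ℂ) := by
      calc w.comp (dres (J ∪ J')) g = w g := by rw [ContinuousLinearMap.comp_apply, hgg]
        _ = θ1 * w.comp (dres J) f1 + θ2 * w.comp (dres J') f2 := by simp [g]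
        _ = _ := by rw [e1, e2, Complex.ofReal_add]
    have h5 := (w.comp (dres (J ∪ J'))).le_opNorm g
    rw [h4, Complex.norm_real, Real.norm_of_nonneg (by positivity)] at h5
    nlinarith [norm_nonneg (w.comp (dres (J ∪ J')))]
  have h2 : ∀ f1 : Du, ‖f1‖ ≤ 1 → ‖w.comp (dres J')‖ ≤ c - ‖w.comp (dres J) f1‖ := by
    intro f1 h1
    refine opNorm_le_of_unit_norm ?_ (fun f2 hf2 => ?_)
    · have := key f1 0 h1 (by simp)
      simp only [map_zero, norm_zero, add_zero] at this
      linarith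
    · have := key f1 f2 h1 hf2.le
      linarith
  have h3 : ‖w.comp (dres J)‖ ≤ c - ‖w.comp (dres J')‖ := by
    refine opNorm_le_of_unit_norm ?_ (fun f1 hf1 => ?_)
    · have := h2 0 (by simp)
      simp only [map_zero, norm_zero] at this
      linarith
    · have := h2 f1 hf1.le
      linarith
  linarith

/-- the sum functional -/
noncomputable def sumf : Du := lp.tsumCLM ℂ ℕ ℂ

lemma norm_sumf_le : ‖sumf‖ ≤ 1 :=
  opNorm_le_bound _ zero_le_one (fun x => by rw [one_mul]; exact lp.norm_tsum_le x)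

lemma sumf_restr_singleton (k : ℕ) : sumf.comp (Ell1.restr {k}) = Ell1.coord k := by
  ext x
  show ∑' i, Ell1.restr {k} x i = x k
  rw [tsum_eq_single k]
  · exact Ell1.restr_apply_mem x rfl
  · intro j hj
    exact Ell1.restr_apply_notMem x hj

lemma form_comp_rk (R : B) (s i j : ℕ) :
    (form R s j).comp (compL ℂ Ell1 Ell1 Ell1 (rk Ell1 (Ell1.e i) (Ell1.coord 0) : B)) =
      if j = i then form R s 0 else 0 := by
  ext U V
  simp only [ContinuousLinearMap.comp_apply, form_apply, compL_apply, rk_apply, Ell1.coord_apply,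
    lp.coeFn_smul, Pi.smul_apply, smul_eq_mul, Ell1.e_apply]
  split_ifs <;> simp

section Main

variable (ρ : K →L[ℂ] BilDual B K)

/-- auxiliary element -/
noncomputable def zz (f : Du) : BilDual B K := ρ (rk Ell1 (Ell1.e 0) f)

/-- auxiliary functional -/
noncomputable def ww (β : Bil B K) : Du →L[ℂ] ℂ :=
  (ContinuousLinearMap.apply ℂ ℂ β).comp (ρ.comp (rkL Ell1 (Ell1.e 0)))

lemma ww_apply (β : Bil B K) (f : Du) : ww ρ β f = zz ρ f β := rfl

lemma norm_ww_le (β : Bil B K) : ‖ww ρ β‖ ≤ ‖β‖ * ‖ρ‖ := by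
  refine opNorm_le_bound _ (by positivity) (fun f => ?_)
  rw [ww_apply, zz]
  refine (le_opNorm _ _).trans ?_
  have h1 : ‖ρ (rk Ell1 (Ell1.e 0) f)‖ ≤ ‖ρ‖ * ‖f‖ := by
    refine (le_opNorm _ _).trans ?_
    rw [norm_rk, Ell1.norm_e, mul_one]
  calc ‖ρ (rk Ell1 (Ell1.e 0) f)‖ * ‖β‖ ≤ (‖ρ‖ * ‖f‖) * ‖β‖ := by gcongr
    _ = ‖β‖ * ‖ρ‖ * ‖f‖ := by ring

/-- The key step: for some truncation level the tails are small at infinitely many places. -/
lemma exists_frequently (h3 : ∀ x, ρ x ∈ tensClosure B K) :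
    ∃ M : ℕ, ∃ᶠ s in atTop, ‖zz ρ (Ell1.coord s) (form (tail M) s 0)‖ ≤ 1 / 2 := by
  by_contra hcon
  push Not at hcon
  have hcon' : ∀ M : ℕ, ∀ᶠ s in atTop, 1 / 2 < ‖zz ρ (Ell1.coord s) (form (tail M) s 0)‖ := by
    intro M
    have := hcon M
    simpa [Filter.Frequently] using this
  obtain ⟨φ, hφ, hφ'⟩ := extraction_forall_of_eventually hcon'
  let w : ℕ → (Du →L[ℂ] ℂ) := fun i => ww ρ (form (tail i) (φ i) 0)
  have hwn : ∀ i, ‖w i‖ ≤ ‖ρ‖ := by
    intro i
    refine (norm_ww_le ρ _).trans ?_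
    have : ‖form (tail i) (φ i) 0‖ ≤ 1 := (norm_form_le _ _ _).trans (Ell1.norm_restr_le _)
    nlinarith [norm_nonneg ρ]
  obtain ⟨J, hJ, hJ'⟩ := rosenthal (fun i J => ‖(w i).comp (dres (φ '' J))‖)
    (fun i J => norm_nonneg _)
    (fun i J J' hd => by
      have h1 : Disjoint (φ '' J) (φ '' J') :=
        Set.disjoint_image_of_injective hφ.injective hd
      have h2 := comp_dres_super (w i) h1
      rwa [← Set.image_union] at h2)
    (fun i J J' hs => comp_dres_mono (w i) (Set.image_mono hs))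
    ‖ρ‖ (fun i J => by
      refine (opNorm_comp_le _ _).trans ?_
      have h1 := norm_dres_le (φ '' J)
      have h2 := hwn i
      nlinarith [norm_nonneg (w i), norm_nonneg (dres (φ '' J))]) (1 / 4) (by norm_num)
  let f : Du := sumf.comp (Ell1.restr (φ '' J))
  obtain ⟨M0, hM0⟩ := exists_tail_small_tens (zz ρ f) (h3 _) (1 / 8) (by norm_num)
  obtain ⟨i, hiJ, hi⟩ := hJ.exists_gt M0
  have h1 := hM0 i hi.le (φ i)
  have hdec : f = Ell1.coord (φ i) + dres (φ '' (J \ {i})) sumf := by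
    have hset : φ '' J = {φ i} ∪ φ '' (J \ {i}) := by
      rw [← Set.image_singleton, ← Set.image_union]
      congr 1
      rw [Set.union_sdiff_self]
      exact (Set.union_eq_right.2 (Set.singleton_subset_iff.2 hiJ)).symm
    have hdis : Disjoint ({φ i} : Set ℕ) (φ '' (J \ {i})) := by
      rw [Set.disjoint_singleton_left]
      rintro ⟨k, hk, hk'⟩
      exact hk.2 (hφ.injective hk')
    simp only [f]
    rw [hset, Ell1.restr_union hdis, ContinuousLinearMap.comp_add, sumf_restr_singleton]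
    rfl
  have h2 : w i f = w i (Ell1.coord (φ i)) + (w i).comp (dres (φ '' (J \ {i}))) sumf := by
    conv_lhs => rw [hdec, map_add]
    rfl
  have h4 : ‖(w i).comp (dres (φ '' (J \ {i}))) sumf‖ ≤ 1 / 4 := by
    refine (le_opNorm _ _).trans ?_
    have h5 := hJ' i hiJ
    have h6 := norm_sumf_le
    nlinarith [norm_nonneg sumf, norm_nonneg ((w i).comp (dres (φ '' (J \ {i}))))]
  have h7 : 1 / 2 < ‖w i (Ell1.coord (φ i))‖ := hφ' i
  have h8 : ‖w i f‖ ≤ 1 / 8 := h1
  have h9 : w i (Ell1.coord (φ i)) = w i f - (w i).comp (dres (φ '' (J \ {i}))) sumf := by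
    rw [h2]; ring
  rw [h9] at h7
  have h10 := norm_sub_le (w i f) ((w i).comp (dres (φ '' (J \ {i}))) sumf)
  linarith

lemma zz_head_ge (h2 : ∀ (x : K) (φ : K →L[ℂ] ℂ), ρ x ((compL ℂ K K ℂ φ).comp (mL Ell1)) = φ x)
    {M s : ℕ} (h : ‖zz ρ (Ell1.coord s) (form (tail M) s 0)‖ ≤ 1 / 2) :
    1 / 2 ≤ ‖zz ρ (Ell1.coord s) (form (head M) s 0)‖ := by
  let φ : K →L[ℂ] ℂ := ((Ell1.coord 0).comp
    ((ContinuousLinearMap.apply ℂ Ell1 (Ell1.e s)).comp (inclK Ell1)))
  have e1 : (compL ℂ K K ℂ φ).comp (mL Ell1) = form (ContinuousLinearMap.id ℂ Ell1) s 0 := by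
    ext U V
    rfl
  have e2 := h2 (rk Ell1 (Ell1.e 0) (Ell1.coord s)) φ
  rw [e1] at e2
  have e3 : φ (rk Ell1 (Ell1.e 0) (Ell1.coord s)) = 1 := by
    show (Ell1.coord s (Ell1.e s) • Ell1.e 0) 0 = 1
    simp
  rw [e3] at e2
  have e4 : zz ρ (Ell1.coord s) (form (head M) s 0)
      + zz ρ (Ell1.coord s) (form (tail M) s 0) = 1 := by
    rw [← map_add, form_head_add_tail]
    exact e2
  have e5 : (1 : ℝ) ≤ ‖zz ρ (Ell1.coord s) (form (head M) s 0)‖
      + ‖zz ρ (Ell1.coord s) (form (tail M) s 0)‖ := by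
    have := norm_add_le (zz ρ (Ell1.coord s) (form (head M) s 0))
      (zz ρ (Ell1.coord s) (form (tail M) s 0))
    rw [e4] at this
    simpa using this
  linarith

theorem contradiction
    (h1 : ∀ (a x : K) (β : Bil B K), ρ (a * x) β = ρ x (β.comp (compL ℂ Ell1 Ell1 Ell1 (a : B))))
    (h2 : ∀ (x : K) (φ : K →L[ℂ] ℂ), ρ x ((compL ℂ K K ℂ φ).comp (mL Ell1)) = φ x)
    (h3 : ∀ x, ρ x ∈ tensClosure B K) : False := by
  obtain ⟨M, hM⟩ := exists_frequently ρ h3
  obtain ⟨φ, hφ, hφ'⟩ := extraction_of_frequently_atTop hM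
  have hge : ∀ j, 1 / 2 ≤ ‖zz ρ (Ell1.coord (φ j)) (form (head M) (φ j) 0)‖ :=
    fun j => zz_head_ge ρ h2 (hφ' j)
  have hth : ∀ j, ∃ θ : ℂ, ‖θ‖ ≤ 1 ∧ θ * zz ρ (Ell1.coord (φ j)) (form (head M) (φ j) 0) =
      (‖zz ρ (Ell1.coord (φ j)) (form (head M) (φ j) 0)‖ : ℂ) := fun j => exists_phase _
  choose θ hθ hθ' using hth
  -- the estimate for each `n`
  have main : ∀ n : ℕ, (n : ℝ) / 2 ≤ ‖ρ‖ * M := by
    intro n
    let T : K := ∑ i ∈ Finset.range n, rk Ell1 (Ell1.e i) (Ell1.coord (φ i))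
    let β : Bil B K := ∑ j ∈ Finset.range n, θ j • form (head M) (φ j) j
    have hT : ‖T‖ ≤ 1 := by
      rw [← norm_coeK]
      refine opNorm_le_bound _ zero_le_one (fun x => ?_)
      have e1 : (T : B) x = ∑ i ∈ Finset.range n, x (φ i) • Ell1.e i := by
        simp only [T]
        rw [AddSubmonoidClass.coe_finsetSum, sum_apply]
        rfl
      rw [e1, one_mul]
      calc ‖∑ i ∈ Finset.range n, x (φ i) • Ell1.e i‖
          ≤ ∑ i ∈ Finset.range n, ‖x (φ i) • Ell1.e i‖ := norm_sum_le _ _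
        _ = ∑ i ∈ Finset.range n, ‖x (φ i)‖ := by
            refine Finset.sum_congr rfl (fun i _ => ?_)
            rw [norm_smul, Ell1.norm_e, mul_one]
        _ = ∑ k ∈ (Finset.range n).image φ, ‖x k‖ := by
            rw [Finset.sum_image (fun a _ b _ h => hφ.injective h)]
        _ ≤ ‖x‖ := Ell1.sum_norm_le x _
    have hβ : ‖β‖ ≤ M := by
      refine opNorm_le_bound₂ _ (by positivity) (fun U V => ?_)
      have e1 : β U V = ∑ j ∈ Finset.range n, θ j *
          ∑ m ∈ Finset.range M, ((V : B) (Ell1.e (φ j))) m * (U (Ell1.e m)) j := by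
        simp only [β, sum_apply, smul_apply, form_apply, smul_eq_mul]
        refine Finset.sum_congr rfl (fun j _ => ?_)
        congr 1
        rw [Ell1.restr_Iio_eq, map_sum, lp.coeFn_sum, Finset.sum_apply]
        refine Finset.sum_congr rfl (fun m _ => ?_)
        rw [map_smul, lp.coeFn_smul]
        rfl
      rw [e1]
      calc ‖∑ j ∈ Finset.range n, θ j *
          ∑ m ∈ Finset.range M, ((V : B) (Ell1.e (φ j))) m * (U (Ell1.e m)) j‖
          ≤ ∑ j ∈ Finset.range n, ∑ m ∈ Finset.range M, ‖V‖ * ‖(U (Ell1.e m)) j‖ := by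
            refine (norm_sum_le _ _).trans (Finset.sum_le_sum (fun j _ => ?_))
            rw [norm_mul]
            have e2 : ‖∑ m ∈ Finset.range M, ((V : B) (Ell1.e (φ j))) m * (U (Ell1.e m)) j‖
                ≤ ∑ m ∈ Finset.range M, ‖V‖ * ‖(U (Ell1.e m)) j‖ := by
              refine (norm_sum_le _ _).trans (Finset.sum_le_sum (fun m _ => ?_))
              rw [norm_mul]
              gcongr
              refine (Ell1.norm_apply_le _ _).trans ?_
              refine ((V : B).le_opNorm _).trans ?_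
              rw [Ell1.norm_e, mul_one, norm_coeK]
            have e3 : (0 : ℝ) ≤ ∑ m ∈ Finset.range M, ‖V‖ * ‖(U (Ell1.e m)) j‖ := by positivity
            calc _ ≤ 1 * ∑ m ∈ Finset.range M, ‖V‖ * ‖(U (Ell1.e m)) j‖ := by
                  have := hθ j
                  gcongr
              _ = _ := one_mul _
        _ = ∑ m ∈ Finset.range M, ∑ j ∈ Finset.range n, ‖V‖ * ‖(U (Ell1.e m)) j‖ :=
            Finset.sum_comm
        _ ≤ ∑ m ∈ Finset.range M, ‖V‖ * ‖U‖ := by
            refine Finset.sum_le_sum (fun m _ => ?_)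
            rw [← Finset.mul_sum]
            gcongr
            refine (Ell1.sum_norm_le _ _).trans ?_
            refine (U.le_opNorm _).trans ?_
            rw [Ell1.norm_e, mul_one]
        _ = M * ‖U‖ * ‖V‖ := by
            rw [Finset.sum_const, Finset.card_range, nsmul_eq_mul]; ring
    have hval : ρ T β = ((∑ j ∈ Finset.range n,
        ‖zz ρ (Ell1.coord (φ j)) (form (head M) (φ j) 0)‖ : ℝ) : ℂ) := by
      have e1 : ∀ i j : ℕ, ρ (rk Ell1 (Ell1.e i) (Ell1.coord (φ i))) (form (head M) (φ j) j) =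
          if j = i then zz ρ (Ell1.coord (φ i)) (form (head M) (φ j) 0) else 0 := by
        intro i j
        have e2 : rk Ell1 (Ell1.e i) (Ell1.coord (φ i)) =
            rk Ell1 (Ell1.e i) (Ell1.coord 0) * rk Ell1 (Ell1.e 0) (Ell1.coord (φ i)) := by
          rw [rk_mul_rk]; simp
        rw [e2, h1, form_comp_rk]
        split_ifs with h
        · rfl
        · simp
      calc ρ T β = ∑ j ∈ Finset.range n, ∑ i ∈ Finset.range n, θ j *
            ρ (rk Ell1 (Ell1.e i) (Ell1.coord (φ i))) (form (head M) (φ j) j) := by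
            simp only [T, β, map_sum, sum_apply, map_smul, smul_eq_mul]
            refine Finset.sum_congr rfl (fun j _ => ?_)
            rw [Finset.mul_sum]
        _ = ∑ j ∈ Finset.range n, θ j * zz ρ (Ell1.coord (φ j)) (form (head M) (φ j) 0) := by
            refine Finset.sum_congr rfl (fun j hj => ?_)
            simp only [e1]
            rw [Finset.sum_eq_single j]
            · simp
            · intro b _ hb
              simp [Ne.symm hb]
            · intro hj'; exact absurd hj hj'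
        _ = _ := by
            push_cast
            exact Finset.sum_congr rfl (fun j _ => hθ' j)
    have hle : ‖ρ T β‖ ≤ ‖ρ‖ * M := by
      calc ‖ρ T β‖ ≤ ‖ρ T‖ * ‖β‖ := le_opNorm _ _
        _ ≤ (‖ρ‖ * ‖T‖) * ‖β‖ := by
            gcongr; exact le_opNorm _ _
        _ ≤ (‖ρ‖ * 1) * M := by gcongr
        _ = ‖ρ‖ * M := by ring
    rw [hval, Complex.norm_real, Real.norm_of_nonneg (by positivity)] at hle
    refine le_trans ?_ hle
    calc (n : ℝ) / 2 = ∑ j ∈ Finset.range n, (1 / 2 : ℝ) := by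
          rw [Finset.sum_const, Finset.card_range, nsmul_eq_mul]; ring
      _ ≤ _ := Finset.sum_le_sum (fun j _ => hge j)
  obtain ⟨n, hn⟩ := exists_nat_gt (2 * (‖ρ‖ * M))
  have := main n
  linarith

end Main

end Left

/-- `K(ℓ¹)` is not projective as a Banach left module over itself. -/
theorem not_leftProjective_ell1 :
    ¬ LeftProjective (leftRegular (compactOps Ell1)) := by
  intro h
  obtain ⟨ρ, h1, h2, h3⟩ := exists_rho_left Ell1 h
  exact Left.contradiction ρ h1 h2 h3

end Pool.Agent.Helper53
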