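import Pool.Agent.Helper53.TestModule

set_option autoImplicit false
set_option maxSynthPendingDepth 3

namespace Pool.Agent.Helper53

universe u

open ContinuousLinearMap

section General

variable (E : Type u) [NormedAddCommGroup E] [NormedSpace ℂ E]

/-- `K(E)` is a normed space for the operator norm. -/
noncomputable instance compactOpsNormedSpace : NormedSpace ℂ (compactOps E) where
  norm_smul_le := fun c x => norm_smul_le c (x : E →L[ℂ] E)

lemma compact_coe (V : compactOps E) : IsCompactOperator (V : E →L[ℂ] E) := V.2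

/-- inclusion of the compact operators -/
noncomputable def inclK : compactOps E →L[ℂ] (E →L[ℂ] E) :=
  LinearMap.mkContinuous
    { toFun := fun V => (V : E →L[ℂ] E)
      map_add' := fun _ _ => rfl
      map_smul' := fun _ _ => rfl } 1 (fun V => by rw [one_mul]; exact le_refl _)

@[simp] lemma inclK_apply (V : compactOps E) : inclK E V = (V : E →L[ℂ] E) := rfl

lemma norm_coeK (V : compactOps E) : ‖(V : E →L[ℂ] E)‖ = ‖V‖ := rfl

/-- left multiplication of compact operators by bounded operators, `(U, V) ↦ U ∘ V` -/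
noncomputable def mL : (E →L[ℂ] E) →L[ℂ] compactOps E →L[ℂ] compactOps E :=
  LinearMap.mkContinuous₂
    (LinearMap.mk₂ ℂ (fun (U : E →L[ℂ] E) (V : compactOps E) =>
        (⟨U.comp (V : E →L[ℂ] E), (compact_coe E V).clm_comp U⟩ : compactOps E))
      (fun a b y => by ext; simp) (fun c a y => by ext; simp)
      (fun a y z => by ext; simp) (fun c a y => by ext; simp))
    1 (fun U V => by
      rw [one_mul]
      exact opNorm_comp_le U (V : E →L[ℂ] E))

@[simp] lemma mL_coe (U : E →L[ℂ] E) (V : compactOps E) :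
    ((mL E U V : compactOps E) : E →L[ℂ] E) = U.comp (V : E →L[ℂ] E) := rfl

/-- right multiplication of compact operators by bounded operators, `(V, U) ↦ U ∘ V` -/
noncomputable def mR : (E →L[ℂ] E) →L[ℂ] compactOps E →L[ℂ] compactOps E :=
  LinearMap.mkContinuous₂
    (LinearMap.mk₂ ℂ (fun (V : E →L[ℂ] E) (U : compactOps E) =>
        (⟨(U : E →L[ℂ] E).comp V, (compact_coe E U).comp_clm V⟩ : compactOps E))
      (fun a b y => by ext; simp) (fun c a y => by ext; simp)
      (fun a y z => by ext; simp) (fun c a y => by ext; simp))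
    1 (fun V U => by
      rw [one_mul, mul_comm]
      exact opNorm_comp_le (U : E →L[ℂ] E) V)

@[simp] lemma mR_coe (V : E →L[ℂ] E) (U : compactOps E) :
    ((mR E V U : compactOps E) : E →L[ℂ] E) = (U : E →L[ℂ] E).comp V := rfl

lemma isClosed_compactOps [CompleteSpace E] :
    IsClosed ((compactOps E : NonUnitalSubalgebra ℂ (E →L[ℂ] E)) : Set (E →L[ℂ] E)) :=
  isClosed_setOfPred_isCompactOperator

instance completeSpace_compactOps [CompleteSpace E] : CompleteSpace (compactOps E) :=
  (isClosed_compactOps E).completeSpace_coe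

/-- rank one operators as elements of `K(E)` -/
noncomputable def rk (v : E) (f : E →L[ℂ] ℂ) : compactOps E :=
  ⟨f.smulRight v, by
    have h : IsCompactOperator (f : E → ℂ) := isCompactOperator_of_locallyCompactSpace_dom f
    exact h.clm_comp (ContinuousLinearMap.toSpanSingleton ℂ v)⟩

@[simp] lemma rk_apply (v : E) (f : E →L[ℂ] ℂ) (x : E) :
    (rk E v f : E →L[ℂ] E) x = f x • v := rfl

lemma norm_rk (v : E) (f : E →L[ℂ] ℂ) : ‖rk E v f‖ = ‖f‖ * ‖v‖ :=
  ContinuousLinearMap.norm_smulRight_apply f v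

/-- `f ↦ v ⊗ f` as a bounded linear map -/
noncomputable def rkL (v : E) : (E →L[ℂ] ℂ) →L[ℂ] compactOps E :=
  LinearMap.mkContinuous
    { toFun := fun f => rk E v f
      map_add' := fun f g => by ext; simp [add_smul]
      map_smul' := fun c f => by ext; simp [mul_smul] } ‖v‖ (fun f => by
        simp only [LinearMap.coe_mk, AddHom.coe_mk]
        rw [norm_rk, mul_comm])

@[simp] lemma rkL_apply (v : E) (f : E →L[ℂ] ℂ) : rkL E v f = rk E v f := rfl

lemma norm_rkL_le (v : E) : ‖rkL E v‖ ≤ ‖v‖ :=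
  LinearMap.mkContinuous_norm_le _ (norm_nonneg _) _

lemma rk_mul_rk (v w : E) (f g : E →L[ℂ] ℂ) : rk E v f * rk E w g = f w • rk E v g := by
  ext x
  show f (g x • w) • v = f w • (g x • v)
  rw [map_smul, smul_smul, smul_eq_mul, mul_comm]

/-- a phase -/
lemma exists_phase (z : ℂ) : ∃ θ : ℂ, ‖θ‖ ≤ 1 ∧ θ * z = (‖z‖ : ℂ) := by
  by_cases h : z = 0
  · exact ⟨0, by simp, by simp [h]⟩
  · refine ⟨(‖z‖ : ℂ) / z, ?_, ?_⟩
    · rw [norm_div, Complex.norm_real, norm_norm, div_self (norm_ne_zero_iff.2 h)]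
    · field_simp

/-- consequence of left projectivity of `K(E)` -/
theorem exists_rho_left [CompleteSpace E]
    (h : LeftProjective (leftRegular (compactOps E))) :
    ∃ ρ : compactOps E →L[ℂ] BilDual (E →L[ℂ] E) (compactOps E),
      (∀ (a x : compactOps E) (β : Bil (E →L[ℂ] E) (compactOps E)),
        ρ (a * x) β = ρ x (β.comp (compL ℂ E E E (a : E →L[ℂ] E)))) ∧
      (∀ (x : compactOps E) (φ : compactOps E →L[ℂ] ℂ),
        ρ x ((compL ℂ (compactOps E) (compactOps E) ℂ φ).comp (mL E)) = φ x) ∧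
      ∀ x, ρ x ∈ tensClosure (E →L[ℂ] E) (compactOps E) := by
  obtain ⟨ρ, h1, h2, h3⟩ := left_rho (leftRegular (compactOps E))
    ((compL ℂ E E E).comp (inclK E)) (fun a b p => by ext; simp)
    (mL E) (fun a p q => by ext; simp [leftRegular]) (ContinuousLinearMap.id ℂ E)
    (ContinuousLinearMap.id ℂ (compactOps E)) (fun x => by ext; simp) h
  exact ⟨ρ, fun a x β => h1 a x β, h2, h3⟩

/-- consequence of right projectivity of `K(E)` -/
theorem exists_rho_right [CompleteSpace E]
    (h : RightProjective (rightRegular (compactOps E))) :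
    ∃ ρ : compactOps E →L[ℂ] BilDual (E →L[ℂ] E) (compactOps E),
      (∀ (a x : compactOps E) (β : Bil (E →L[ℂ] E) (compactOps E)),
        ρ (x * a) β = ρ x (β.comp ((compL ℂ E E E).flip (a : E →L[ℂ] E)))) ∧
      (∀ (x : compactOps E) (φ : compactOps E →L[ℂ] ℂ),
        ρ x ((compL ℂ (compactOps E) (compactOps E) ℂ φ).comp (mR E)) = φ x) ∧
      ∀ x, ρ x ∈ tensClosure (E →L[ℂ] E) (compactOps E) := by
  obtain ⟨ρ, h1, h2, h3⟩ := right_rho (rightRegular (compactOps E))
    (((compL ℂ E E E).flip).comp (inclK E)) (fun a b p => by ext; simp)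
    (mR E) (fun a p q => by ext; simp [rightRegular]) (ContinuousLinearMap.id ℂ E)
    (ContinuousLinearMap.id ℂ (compactOps E)) (fun x => by ext; simp) h
  exact ⟨ρ, fun a x β => h1 a x β, h2, h3⟩

end General

end Pool.Agent.Helper53
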