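import Pool.Agent.Helper53.LOne
import Pool.Agent.Helper53.Setup

set_option autoImplicit false
set_option maxSynthPendingDepth 3

namespace Pool.Agent.Helper53

open scoped ENNReal
open Filter Topology ContinuousLinearMap

universe u v

/-- phases turn a bound for signed sums into a bound for the sum of the norms -/
lemma sum_norm_le_of_phase {W : Type u} {ι : Type v} [NormedAddCommGroup W] [NormedSpace ℂ W]
    (y : W →L[ℂ] ℂ) (I : Finset ι) (w : ι → W) (C : ℝ)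
    (h : ∀ θ : ι → ℂ, (∀ i, ‖θ i‖ ≤ 1) → ‖∑ i ∈ I, θ i • w i‖ ≤ C) :
    ∑ i ∈ I, ‖y (w i)‖ ≤ ‖y‖ * C := by
  choose θ h1 h2 using fun i => exists_phase (y (w i))
  have key : ((∑ i ∈ I, ‖y (w i)‖ : ℝ) : ℂ) = y (∑ i ∈ I, θ i • w i) := by
    rw [map_sum, Complex.ofReal_sum]
    refine Finset.sum_congr rfl (fun i _ => ?_)
    rw [map_smul, smul_eq_mul, h2]
  have hn : (0 : ℝ) ≤ ∑ i ∈ I, ‖y (w i)‖ := Finset.sum_nonneg (fun _ _ => norm_nonneg _)
  calc ∑ i ∈ I, ‖y (w i)‖ = ‖((∑ i ∈ I, ‖y (w i)‖ : ℝ) : ℂ)‖ := by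
        rw [Complex.norm_real, Real.norm_of_nonneg hn]
    _ = ‖y (∑ i ∈ I, θ i • w i)‖ := by rw [key]
    _ ≤ ‖y‖ * ‖∑ i ∈ I, θ i • w i‖ := y.le_opNorm _
    _ ≤ ‖y‖ * C := mul_le_mul_of_nonneg_left (h θ h1) (norm_nonneg _)

section

variable {P Q : Type u} [NormedAddCommGroup P] [NormedSpace ℂ P]
  [NormedAddCommGroup Q] [NormedSpace ℂ Q] {α : Type u}

/-- coordinate of an `ℓ¹`-valued bilinear map -/
noncomputable def cf (F : P →L[ℂ] Q →L[ℂ] L1 α) (m : α) : Bil P Q :=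
  (compL ℂ Q (L1 α) ℂ (L1.coord m)).comp F

@[simp] lemma cf_apply (F : P →L[ℂ] Q →L[ℂ] L1 α) (m : α) (p : P) (q : Q) :
    cf F m p q = F p q m := rfl

lemma sum_cf_le (F : P →L[ℂ] Q →L[ℂ] L1 α) (y : BilDual P Q) (G : Finset α) :
    ∑ m ∈ G, ‖y (cf F m)‖ ≤ ‖y‖ * ‖F‖ := by
  refine sum_norm_le_of_phase y G (cf F) ‖F‖ (fun θ hθ => ?_)
  refine ContinuousLinearMap.opNorm_le_bound₂ _ (norm_nonneg _) (fun p q => ?_)
  rw [ContinuousLinearMap.sum_apply, ContinuousLinearMap.sum_apply]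
  calc ‖∑ m ∈ G, (θ m • cf F m) p q‖ ≤ ∑ m ∈ G, ‖(θ m • cf F m) p q‖ := norm_sum_le _ _
    _ ≤ ∑ m ∈ G, ‖F p q m‖ := by
        refine Finset.sum_le_sum (fun m _ => ?_)
        simp only [ContinuousLinearMap.smul_apply, cf_apply, norm_smul]
        exact mul_le_of_le_one_left (norm_nonneg _) (hθ m)
    _ ≤ ‖F p q‖ := L1.sum_norm_le _ _
    _ ≤ ‖F‖ * ‖p‖ * ‖q‖ := F.le_opNorm₂ p q

lemma summable_cf (F : P →L[ℂ] Q →L[ℂ] L1 α) (y : BilDual P Q) :
    Summable (fun m => ‖y (cf F m)‖) :=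
  summable_of_sum_le (fun _ => norm_nonneg _) (sum_cf_le F y)

/-- extension of an `ℓ¹`-valued bilinear map to `BilDual` -/
noncomputable def LL (F : P →L[ℂ] Q →L[ℂ] L1 α) : BilDual P Q →L[ℂ] L1 α :=
  LinearMap.mkContinuous
    { toFun := fun y => L1.mk (fun m => y (cf F m)) (summable_cf F y)
      map_add' := fun x y => by ext i; simp
      map_smul' := fun c x => by ext i; simp }
    ‖F‖ (fun y => by
      refine L1.norm_le_of_sum_le _ _ (fun G => ?_)
      simp only [LinearMap.coe_mk, AddHom.coe_mk, L1.mk_apply]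
      rw [mul_comm]
      exact sum_cf_le F y G)

lemma LL_apply (F : P →L[ℂ] Q →L[ℂ] L1 α) (y : BilDual P Q) (m : α) :
    LL F y m = y (cf F m) := rfl

lemma norm_LL_le (F : P →L[ℂ] Q →L[ℂ] L1 α) : ‖LL F‖ ≤ ‖F‖ :=
  LinearMap.mkContinuous_norm_le _ (norm_nonneg _) _

lemma LL_tm (F : P →L[ℂ] Q →L[ℂ] L1 α) (p : P) (q : Q) : LL F (tm p q) = F p q := by
  ext m; rfl

/-- induction principle for the closed span of the elementary tensors -/
lemma tens_induction (p : BilDual P Q → Prop) (h0 : p 0) (hadd : ∀ x y, p x → p y → p (x + y))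
    (hsmul : ∀ (c : ℂ) x, p x → p (c • x)) (ht : ∀ a b, p (tm a b))
    (hcl : IsClosed {x | p x}) (y : BilDual P Q) (hy : y ∈ tensClosure P Q) : p y := by
  have key : ∀ z ∈ Submodule.span ℂ (Set.range (fun pq : P × Q => tm pq.1 pq.2)), p z := by
    intro z hz
    induction hz using Submodule.span_induction with
    | mem z hz => obtain ⟨q, rfl⟩ := hz; exact ht q.1 q.2
    | zero => exact h0
    | add a b ha hb iha ihb => exact hadd _ _ iha ihb
    | smul c a ha iha => exact hsmul c _ iha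
  have : closure (Submodule.span ℂ (Set.range (fun pq : P × Q => tm pq.1 pq.2)) : Set _)
      ⊆ {x | p x} := closure_minimal key hcl
  exact this hy

lemma LL_functional (F : P →L[ℂ] Q →L[ℂ] L1 α) (Φ : L1 α →L[ℂ] ℂ) (y : BilDual P Q)
    (hy : y ∈ tensClosure P Q) : Φ (LL F y) = y ((compL ℂ Q (L1 α) ℂ Φ).comp F) := by
  refine tens_induction (fun y => Φ (LL F y) = y ((compL ℂ Q (L1 α) ℂ Φ).comp F)) ?_ ?_ ?_ ?_ ?_
    y hy
  · simp
  · intro x y hx hy; rw [map_add, map_add, hx, hy]; rfl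
  · intro c x hx; rw [map_smul, map_smul, hx]; rfl
  · intro a b; rw [LL_tm]; rfl
  · refine isClosed_eq (by fun_prop) ?_
    exact (ContinuousLinearMap.apply ℂ ℂ ((compL ℂ Q (L1 α) ℂ Φ).comp F)).continuous

lemma LL_tendsto (F : ℕ → P →L[ℂ] Q →L[ℂ] L1 α) (F' : P →L[ℂ] Q →L[ℂ] L1 α) (C : ℝ)
    (hC : ∀ n, ‖F n‖ ≤ C) (h : ∀ p q, Tendsto (fun n => F n p q) atTop (𝓝 (F' p q)))
    (y : BilDual P Q) (hy : y ∈ tensClosure P Q) :
    Tendsto (fun n => LL (F n) y) atTop (𝓝 (LL F' y)) := by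
  have hC0 : 0 ≤ C := (norm_nonneg _).trans (hC 0)
  refine tens_induction (fun y => Tendsto (fun n => LL (F n) y) atTop (𝓝 (LL F' y)))
    ?_ ?_ ?_ ?_ ?_ y hy
  · simp
  · intro x y hx hy
    simp only [map_add]
    exact hx.add hy
  · intro c x hx
    simp only [map_smul]
    exact hx.const_smul c
  · intro a b
    simp only [LL_tm]
    exact h a b
  · refine isClosed_of_closure_subset (fun z hz => ?_)
    rw [Metric.mem_closure_iff] at hz
    show Tendsto (fun n => LL (F n) z) atTop (𝓝 (LL F' z))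
    rw [Metric.tendsto_atTop]
    intro ε hε
    set D : ℝ := C + ‖F'‖ + 1 with hD
    have hD0 : 0 < D := by positivity
    obtain ⟨w, hw, hzw⟩ := hz (ε / (2 * D)) (by positivity)
    have hw' : Tendsto (fun n => LL (F n) w) atTop (𝓝 (LL F' w)) := hw
    rw [Metric.tendsto_atTop] at hw'
    obtain ⟨n0, hn0⟩ := hw' (ε / 2) (by positivity)
    refine ⟨n0, fun n hn => ?_⟩
    have h1 := hn0 n hn
    rw [dist_eq_norm] at h1 hzw ⊢
    have e1 : LL (F n) z - LL F' z =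
        LL (F n) (z - w) - LL F' (z - w) + (LL (F n) w - LL F' w) := by
      rw [map_sub, map_sub]; abel
    have h2 : ‖LL (F n) (z - w)‖ ≤ C * ‖z - w‖ :=
      ((LL (F n)).le_opNorm _).trans (mul_le_mul_of_nonneg_right
        ((norm_LL_le _).trans (hC n)) (norm_nonneg _))
    have h3 : ‖LL F' (z - w)‖ ≤ ‖F'‖ * ‖z - w‖ :=
      ((LL F').le_opNorm _).trans (mul_le_mul_of_nonneg_right (norm_LL_le _) (norm_nonneg _))
    have h4 : (C + ‖F'‖) * ‖z - w‖ ≤ ε / 2 := by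
      have : (C + ‖F'‖) * ‖z - w‖ ≤ D * (ε / (2 * D)) := by
        apply mul_le_mul (by linarith) hzw.le (norm_nonneg _) hD0.le
      calc (C + ‖F'‖) * ‖z - w‖ ≤ D * (ε / (2 * D)) := this
        _ = ε / 2 := by field_simp
    calc ‖LL (F n) z - LL F' z‖ ≤ ‖LL (F n) (z - w) - LL F' (z - w)‖ + ‖LL (F n) w - LL F' w‖ := by
          rw [e1]; exact norm_add_le _ _
      _ ≤ ‖LL (F n) (z - w)‖ + ‖LL F' (z - w)‖ + ‖LL (F n) w - LL F' w‖ := by
          gcongr; exact norm_sub_le _ _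
      _ < ε := by nlinarith

end

end Pool.Agent.Helper53
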