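import Pool.Agent.Helper53.PsiSpace
import Pool.Agent.Helper53.LiftL

set_option autoImplicit false
set_option maxSynthPendingDepth 3

namespace Pool.Agent.Helper53

open scoped ENNReal
open Filter Topology ContinuousLinearMap

namespace Psi

variable {N Γ : Type} (S : Γ → ℕ → N)

/-- basic neighbourhoods -/
def Bset (m : N ⊕ Γ) (k : ℕ) : Set (N ⊕ Γ) :=
  match m with
  | Sum.inl l => {Sum.inl l}
  | Sum.inr γ => tset S γ k

/-- their indicator functions as vectors -/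
noncomputable def vec (m : N ⊕ Γ) (k : ℕ) : Sp S :=
  match m with
  | Sum.inl l => e S l
  | Sum.inr γ => xx S γ k

lemma incl_vec (m : N ⊕ Γ) (k : ℕ) : incl S (vec S m k) = ind (Bset S m k) := by
  cases m <;> rfl

/-- standing assumptions: injective sequences with pairwise almost disjoint ranges -/
structure AD : Prop where
  inj : ∀ γ, Function.Injective (S γ)
  ad : ∀ γ γ', γ ≠ γ' → ∃ k, ∀ n, k ≤ n → ∀ n', S γ n ≠ S γ' n'

variable {S}

lemma mem_tset_inr (γ : Γ) (k : ℕ) : (Sum.inr γ : N ⊕ Γ) ∈ tset S γ k := Or.inl rfl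

lemma mem_tset_inl (γ : Γ) {k n : ℕ} (hn : k ≤ n) : (Sum.inl (S γ n) : N ⊕ Γ) ∈ tset S γ k :=
  Or.inr ⟨n, hn, rfl⟩

lemma AD.ne (h : AD S) (γ : Γ) (l : N) : ∃ k, ∀ n, k ≤ n → S γ n ≠ l := by
  by_cases hl : ∃ n0, S γ n0 = l
  · obtain ⟨n0, rfl⟩ := hl
    refine ⟨n0 + 1, fun n hn he => ?_⟩
    have := h.inj γ he
    omega
  · push Not at hl
    exact ⟨0, fun n _ => hl n⟩

lemma AD.disj (h : AD S) {m m' : N ⊕ Γ} (hm : m ≠ m') :
    ∀ᶠ k in atTop, Disjoint (Bset S m k) (Bset S m' k) := by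
  rw [eventually_atTop]
  rcases m with l | γ <;> rcases m' with l' | γ'
  · refine ⟨0, fun k _ => ?_⟩
    simpa [Bset] using hm
  · obtain ⟨k0, hk0⟩ := h.ne γ' l
    refine ⟨k0, fun k hk => ?_⟩
    rw [Set.disjoint_left]
    rintro t ht (ht' | ⟨n, hn, ht'⟩)
    · simp only [Bset, Set.mem_singleton_iff] at ht ht'
      rw [ht] at ht'; exact absurd ht' (by simp)
    · simp only [Bset, Set.mem_singleton_iff] at ht
      rw [ht] at ht'
      exact hk0 n (hk.trans hn) (Sum.inl_injective ht').symm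
  · obtain ⟨k0, hk0⟩ := h.ne γ l'
    refine ⟨k0, fun k hk => ?_⟩
    rw [Set.disjoint_right]
    rintro t ht (ht' | ⟨n, hn, ht'⟩)
    · simp only [Bset, Set.mem_singleton_iff] at ht ht'
      rw [ht] at ht'; exact absurd ht' (by simp)
    · simp only [Bset, Set.mem_singleton_iff] at ht
      rw [ht] at ht'
      exact hk0 n (hk.trans hn) (Sum.inl_injective ht').symm
  · obtain ⟨k0, hk0⟩ := h.ad γ γ' (fun e => hm (by rw [e]))
    refine ⟨k0, fun k hk => ?_⟩
    rw [Set.disjoint_left]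
    rintro t (ht | ⟨n, hn, ht⟩) (ht' | ⟨n', hn', ht'⟩)
    · simp only [Set.mem_singleton_iff] at ht ht'
      exact hm (ht.symm.trans ht')
    · simp only [Set.mem_singleton_iff] at ht
      rw [ht] at ht'; exact absurd ht' (by simp)
    · simp only [Set.mem_singleton_iff] at ht'
      rw [ht] at ht'; exact absurd ht' (by simp)
    · rw [ht] at ht'
      exact hk0 n (hk.trans hn) n' (Sum.inl_injective ht')

lemma AD.disj_finset (h : AD S) (F : Finset (N ⊕ Γ)) :
    ∀ᶠ k in atTop, ∀ m ∈ F, ∀ m' ∈ F, m ≠ m' → Disjoint (Bset S m k) (Bset S m' k) := by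
  rw [Filter.eventually_all_finset]
  intro m _
  rw [Filter.eventually_all_finset]
  intro m' _
  by_cases hm : m = m'
  · exact Eventually.of_forall (fun k h' => absurd hm h')
  · exact (h.disj hm).mono (fun k hk _ => hk)

lemma norm_sum_vec (F : Finset (N ⊕ Γ)) (k : ℕ)
    (hd : ∀ m ∈ F, ∀ m' ∈ F, m ≠ m' → Disjoint (Bset S m k) (Bset S m' k))
    (θ : N ⊕ Γ → ℂ) (C : ℝ) (hC : 0 ≤ C) (hθ : ∀ m ∈ F, ‖θ m‖ ≤ C) :
    ‖∑ m ∈ F, θ m • vec S m k‖ ≤ C := by
  rw [← norm_incl, map_sum]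
  simp only [map_smul, incl_vec]
  exact norm_sum_ind_le F (fun m => Bset S m k) hd θ C hC hθ

lemma AD.sum_norm_vec (h : AD S) (φ : Sp S →L[ℂ] ℂ) (F : Finset (N ⊕ Γ)) :
    ∀ᶠ k in atTop, ∑ m ∈ F, ‖φ (vec S m k)‖ ≤ ‖φ‖ := by
  refine (h.disj_finset F).mono (fun k hk => ?_)
  have := sum_norm_le_of_phase φ F (fun m => vec S m k) 1
    (fun θ hθ => norm_sum_vec F k hk θ 1 zero_le_one (fun m _ => hθ m))
  simpa using this

lemma AD.sum_norm_e (h : AD S) (φ : Sp S →L[ℂ] ℂ) (G : Finset N) :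
    ∑ l ∈ G, ‖φ (e S l)‖ ≤ ‖φ‖ := by
  classical
  obtain ⟨k, hk⟩ := (h.sum_norm_vec φ (G.image Sum.inl)).exists
  rw [Finset.sum_image (fun _ _ _ _ h => Sum.inl_injective h)] at hk
  exact hk

lemma xx_succ (h : AD S) (γ : Γ) (k : ℕ) : xx S γ k = e S (S γ k) + xx S γ (k + 1) := by
  apply incl_injective
  rw [map_add, incl_xx, incl_e, incl_xx]
  ext t
  rw [lp.coeFn_add, Pi.add_apply]
  by_cases h1 : t = Sum.inl (S γ k)
  · have h2 : t ∈ tset S γ k := Or.inr ⟨k, le_refl k, h1⟩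
    have h3 : t ∉ tset S γ (k + 1) := by
      rintro (h4 | ⟨n, hn, h4⟩)
      · rw [h1] at h4; exact absurd h4 (by simp)
      · rw [h1] at h4
        have := h.inj γ (Sum.inl_injective h4)
        omega
    rw [ind_apply_mem h2, ind_apply_mem (by simpa using h1), ind_apply_notMem h3, add_zero]
  · rw [ind_apply_notMem (B := {Sum.inl (S γ k)}) (by simpa using h1), zero_add]
    by_cases h2 : t ∈ tset S γ (k + 1)
    · have h3 : t ∈ tset S γ k := by
        rcases h2 with h2 | ⟨n, hn, h2⟩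
        · exact Or.inl h2
        · exact Or.inr ⟨n, by omega, h2⟩
      rw [ind_apply_mem h2, ind_apply_mem h3]
    · have h3 : t ∉ tset S γ k := by
        rintro (h3 | ⟨n, hn, h3⟩)
        · exact h2 (Or.inl h3)
        · rcases Nat.lt_or_ge k n with h4 | h4
          · exact h2 (Or.inr ⟨n, h4, h3⟩)
          · have : n = k := by omega
            rw [this] at h3
            exact h1 h3
      rw [ind_apply_notMem h2, ind_apply_notMem h3]

lemma xx_eq (h : AD S) (γ : Γ) (k : ℕ) :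
    xx S γ k = xx S γ 0 - ∑ n ∈ Finset.range k, e S (S γ n) := by
  induction k with
  | zero => simp
  | succ k ih =>
    have := xx_succ h γ k
    rw [Finset.sum_range_succ]
    rw [ih] at this
    have h2 : xx S γ (k + 1) = xx S γ 0 - ∑ n ∈ Finset.range k, e S (S γ n) - e S (S γ k) := by
      rw [this]; abel
    rw [h2]; abel

/-- along the tails -/
lemma tail_summable (h : AD S) {W : Type} [NormedAddCommGroup W] [NormedSpace ℂ W]
    [CompleteSpace W] (R : Sp S →L[ℂ] W) (C : ℝ)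
    (hR : ∀ G : Finset N, ∑ l ∈ G, ‖R (e S l)‖ ≤ C) (γ : Γ) :
    Summable (fun n => R (e S (S γ n))) := by
  classical
  refine Summable.of_norm (summable_of_sum_le (c := C) (fun _ => norm_nonneg _) (fun G => ?_))
  have := hR (G.image (S γ))
  rwa [Finset.sum_image (fun _ _ _ _ h' => h.inj γ h')] at this

lemma tail_tendsto (h : AD S) {W : Type} [NormedAddCommGroup W] [NormedSpace ℂ W]
    [CompleteSpace W] (R : Sp S →L[ℂ] W) (C : ℝ)
    (hR : ∀ G : Finset N, ∑ l ∈ G, ‖R (e S l)‖ ≤ C) (γ : Γ) :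
    Tendsto (fun k => R (xx S γ k)) atTop
      (𝓝 (R (xx S γ 0) - ∑' n, R (e S (S γ n)))) := by
  have h1 := (tail_summable h R C hR γ).hasSum.tendsto_sum_nat
  have h2 : (fun k => R (xx S γ k)) =
      fun k => R (xx S γ 0) - ∑ n ∈ Finset.range k, R (e S (S γ n)) := by
    funext k
    rw [xx_eq h γ k, map_sub, map_sum]
  rw [h2]
  exact tendsto_const_nhds.sub h1

variable (S) in
/-- coordinates of a functional -/
noncomputable def cc (m : N ⊕ Γ) (φ : Sp S →L[ℂ] ℂ) : ℂ :=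
  match m with
  | Sum.inl l => φ (e S l)
  | Sum.inr γ => φ (xx S γ 0) - ∑' n, φ (e S (S γ n))

lemma tendsto_cc (h : AD S) (m : N ⊕ Γ) (φ : Sp S →L[ℂ] ℂ) :
    Tendsto (fun k => φ (vec S m k)) atTop (𝓝 (cc S m φ)) := by
  rcases m with l | γ
  · exact tendsto_const_nhds
  · exact tail_tendsto h φ ‖φ‖ (h.sum_norm_e φ) γ

lemma sum_norm_cc (h : AD S) (φ : Sp S →L[ℂ] ℂ) (F : Finset (N ⊕ Γ)) :
    ∑ m ∈ F, ‖cc S m φ‖ ≤ ‖φ‖ := by
  have h1 : Tendsto (fun k => ∑ m ∈ F, ‖φ (vec S m k)‖) atTop (𝓝 (∑ m ∈ F, ‖cc S m φ‖)) :=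
    tendsto_finsetSum F (fun m _ => (tendsto_cc h m φ).norm)
  exact le_of_tendsto h1 (h.sum_norm_vec φ F)

lemma cc_add (h : AD S) (m : N ⊕ Γ) (φ ψ : Sp S →L[ℂ] ℂ) :
    cc S m (φ + ψ) = cc S m φ + cc S m ψ :=
  tendsto_nhds_unique (tendsto_cc h m (φ + ψ)) ((tendsto_cc h m φ).add (tendsto_cc h m ψ))

lemma cc_smul (h : AD S) (m : N ⊕ Γ) (c : ℂ) (φ : Sp S →L[ℂ] ℂ) :
    cc S m (c • φ) = c * cc S m φ :=
  tendsto_nhds_unique (tendsto_cc h m (c • φ)) ((tendsto_cc h m φ).const_mul c)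

/-- the coordinate map on the dual -/
noncomputable def CC (h : AD S) : (Sp S →L[ℂ] ℂ) →L[ℂ] L1 (N ⊕ Γ) :=
  LinearMap.mkContinuous
    { toFun := fun φ => L1.mk (fun m => cc S m φ)
        (summable_of_sum_le (fun _ => norm_nonneg _) (sum_norm_cc h φ))
      map_add' := fun φ ψ => by ext m; simp [cc_add h]
      map_smul' := fun c φ => by ext m; simp [cc_smul h] }
    1 (fun φ => by
      rw [one_mul]
      exact L1.norm_le_of_sum_le _ _ (sum_norm_cc h φ))

@[simp] lemma CC_apply (h : AD S) (φ : Sp S →L[ℂ] ℂ) (m : N ⊕ Γ) : CC h φ m = cc S m φ := rfl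

lemma norm_CC_apply_le (h : AD S) (φ : Sp S →L[ℂ] ℂ) : ‖CC h φ‖ ≤ ‖φ‖ :=
  L1.norm_le_of_sum_le _ _ (sum_norm_cc h φ)

/-- values at points along the sequences converge -/
lemma tendsto_ev (h : AD S) (γ : Γ) (x : Sp S) :
    Tendsto (fun n => ev S (Sum.inl (S γ n)) x) atTop (𝓝 (ev S (Sum.inr γ) x)) := by
  refine induction_closed S
    (fun x => Tendsto (fun n => ev S (Sum.inl (S γ n)) x) atTop (𝓝 (ev S (Sum.inr γ) x)))
    ?_ ?_ ?_ ?_ ?_ ?_ x
  · simp
  · intro x y hx hy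
    simp only [map_add]; exact hx.add hy
  · intro c x hx
    simp only [map_smul]; exact hx.const_smul c
  · intro l
    rw [ev_e_ne S (by simp)]
    obtain ⟨k, hk⟩ := h.ne γ l
    refine tendsto_const_nhds.congr' ?_
    rw [EventuallyEq, eventually_atTop]
    refine ⟨k, fun n hn => ?_⟩
    rw [ev_e_ne S (fun e => hk n hn (Sum.inl_injective e))]
  · intro γ' k
    by_cases hγ : γ = γ'
    · subst hγ
      have h1 : ev S (Sum.inr γ) (xx S γ k) = 1 := by
        rw [ev_apply, incl_xx, ind_apply_mem (mem_tset_inr γ k)]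
      rw [h1]
      refine tendsto_const_nhds.congr' ?_
      rw [EventuallyEq, eventually_atTop]
      refine ⟨k, fun n hn => ?_⟩
      rw [ev_apply, incl_xx, ind_apply_mem (mem_tset_inl γ hn)]
    · have h1 : ev S (Sum.inr γ) (xx S γ' k) = 0 := by
        rw [ev_apply, incl_xx, ind_apply_notMem]
        rintro (h2 | ⟨n, _, h2⟩)
        · exact hγ (Sum.inr_injective h2)
        · exact absurd h2 (by simp)
      rw [h1]
      obtain ⟨k0, hk0⟩ := h.ad γ γ' hγ
      refine tendsto_const_nhds.congr' ?_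
      rw [EventuallyEq, eventually_atTop]
      refine ⟨k0, fun n hn => ?_⟩
      rw [ev_apply, incl_xx, ind_apply_notMem]
      rintro (h2 | ⟨n', _, h2⟩)
      · exact absurd h2 (by simp)
      · exact hk0 n hn n' (Sum.inl_injective h2)
  · refine isClosed_of_closure_subset (fun z hz => ?_)
    rw [Metric.mem_closure_iff] at hz
    show Tendsto (fun n => ev S (Sum.inl (S γ n)) z) atTop (𝓝 (ev S (Sum.inr γ) z))
    rw [Metric.tendsto_atTop]
    intro ε hε
    obtain ⟨w, hw, hzw⟩ := hz (ε / 4) (by positivity)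
    have hw' : Tendsto (fun n => ev S (Sum.inl (S γ n)) w) atTop (𝓝 (ev S (Sum.inr γ) w)) := hw
    rw [Metric.tendsto_atTop] at hw'
    obtain ⟨n0, hn0⟩ := hw' (ε / 2) (by positivity)
    refine ⟨n0, fun n hn => ?_⟩
    have h1 := hn0 n hn
    rw [dist_eq_norm] at h1 hzw ⊢
    have e1 : ev S (Sum.inl (S γ n)) z - ev S (Sum.inr γ) z =
        ev S (Sum.inl (S γ n)) (z - w) - ev S (Sum.inr γ) (z - w) +
          (ev S (Sum.inl (S γ n)) w - ev S (Sum.inr γ) w) := by
      rw [map_sub, map_sub]; ring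
    have h2 := norm_ev_apply_le S (Sum.inl (S γ n)) (z - w)
    have h3 := norm_ev_apply_le S (Sum.inr γ) (z - w)
    calc ‖ev S (Sum.inl (S γ n)) z - ev S (Sum.inr γ) z‖
        ≤ ‖ev S (Sum.inl (S γ n)) (z - w) - ev S (Sum.inr γ) (z - w)‖ +
          ‖ev S (Sum.inl (S γ n)) w - ev S (Sum.inr γ) w‖ := by rw [e1]; exact norm_add_le _ _
      _ ≤ ‖ev S (Sum.inl (S γ n)) (z - w)‖ + ‖ev S (Sum.inr γ) (z - w)‖ +
          ‖ev S (Sum.inl (S γ n)) w - ev S (Sum.inr γ) w‖ := by gcongr; exact norm_sub_le _ _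
      _ < ε := by linarith

end Psi

end Pool.Agent.Helper53
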