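import Pool.Agent.Helper53.PsiDual

set_option autoImplicit false
set_option maxSynthPendingDepth 8

namespace Pool.Agent.Helper53

open scoped ENNReal
open Filter Topology ContinuousLinearMap

namespace Psi

variable {N Γ : Type} {S : Γ → ℕ → N}

lemma pairing_e (h : AD S) (φ : Sp S →L[ℂ] ℂ) (l : N) :
    L1.sumOn Set.univ (L1.mulL (incl S (e S l)) (CC h φ)) = φ (e S l) := by
  rw [L1.sumOn_apply, tsum_eq_single (Sum.inl l)]
  · rw [Set.indicator_univ]
    simp only [L1.mulL_apply, CC_apply, incl_e]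
    rw [ind_apply_mem (by simp), one_mul]; rfl
  · intro t ht
    rw [Set.indicator_univ]
    simp only [L1.mulL_apply, incl_e]
    rw [ind_apply_notMem (by simpa using ht), zero_mul]

lemma pairing_xx (h : AD S) (φ : Sp S →L[ℂ] ℂ) (γ : Γ) :
    L1.sumOn Set.univ (L1.mulL (incl S (xx S γ 0)) (CC h φ)) = φ (xx S γ 0) := by
  classical
  rw [L1.sumOn_apply]
  simp only [Set.indicator_univ, L1.mulL_apply, CC_apply, incl_xx]
  refine HasSum.tsum_eq ?_
  have h1 : HasSum (fun t : N ⊕ Γ => if t = Sum.inr γ then cc S (Sum.inr γ) φ else 0)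
      (cc S (Sum.inr γ) φ) := hasSum_ite_eq _ _
  have hinj : Function.Injective (fun n => (Sum.inl (S γ n) : N ⊕ Γ)) := fun a b hab =>
    h.inj γ (Sum.inl_injective hab)
  have h2 : HasSum ((Set.range (fun n => (Sum.inl (S γ n) : N ⊕ Γ))).indicator
      (fun t => cc S t φ)) (∑' n, φ (e S (S γ n))) := by
    rw [← hinj.hasSum_iff]
    · have h3 : ((Set.range (fun n => (Sum.inl (S γ n) : N ⊕ Γ))).indicator
          (fun t => cc S t φ)) ∘ (fun n => (Sum.inl (S γ n) : N ⊕ Γ)) =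
          fun n => φ (e S (S γ n)) := by
        funext n
        simp only [Function.comp_apply]
        rw [Set.indicator_of_mem (Set.mem_range_self n)]
        rfl
      rw [h3]
      exact (tail_summable h φ ‖φ‖ (h.sum_norm_e φ) γ).hasSum
    · intro t ht
      exact Set.indicator_of_notMem ht _
  have h3 := h1.add h2
  have h4 : cc S (Sum.inr γ) φ + ∑' n, φ (e S (S γ n)) = φ (xx S γ 0) := by
    simp [cc]
  rw [h4] at h3
  convert h3 using 1
  funext t
  by_cases ht : t = Sum.inr γ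
  · subst ht
    rw [ind_apply_mem (mem_tset_inr γ 0), if_pos rfl, Set.indicator_of_notMem]
    · simp
    · rintro ⟨n, hn⟩
      exact absurd hn (by simp)
  · rw [if_neg ht, zero_add]
    by_cases ht' : t ∈ Set.range (fun n => (Sum.inl (S γ n) : N ⊕ Γ))
    · rw [Set.indicator_of_mem ht']
      obtain ⟨n, rfl⟩ := ht'
      rw [ind_apply_mem (mem_tset_inl γ (Nat.zero_le n)), one_mul]
    · rw [Set.indicator_of_notMem ht', ind_apply_notMem, zero_mul]
      rintro (h5 | ⟨n, _, h5⟩)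
      · exact ht h5
      · exact ht' ⟨n, h5.symm⟩

/-- duality formula -/
lemma pairing (h : AD S) (φ : Sp S →L[ℂ] ℂ) (x : Sp S) :
    L1.sumOn Set.univ (L1.mulL (incl S x) (CC h φ)) = φ x := by
  refine induction_closed S
    (fun x => L1.sumOn Set.univ (L1.mulL (incl S x) (CC h φ)) = φ x) ?_ ?_ ?_ ?_ ?_ ?_ x
  · simp
  · intro x y hx hy
    simp only [map_add, ContinuousLinearMap.add_apply] at hx hy ⊢
    rw [hx, hy]
  · intro c x hx
    simp only [map_smul, ContinuousLinearMap.smul_apply] at hx ⊢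
    rw [hx]
  · exact pairing_e h φ
  · intro γ k
    rw [xx_eq h γ k]
    simp only [map_sub, map_sum, ContinuousLinearMap.sub_apply, ContinuousLinearMap.sum_apply,
      pairing_e, pairing_xx]
  · refine isClosed_eq ?_ φ.continuous
    exact ((L1.sumOn Set.univ).comp ((L1.mulL.flip (CC h φ)).comp (incl S))).continuous

/-- the basic forms -/
noncomputable def FF (h : AD S) (s : N ⊕ Γ) (y : Sp S) :
    (Sp S →L[ℂ] Sp S) →L[ℂ] compactOps (Sp S) →L[ℂ] L1 (N ⊕ Γ) :=
  LinearMap.mkContinuous₂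
    (LinearMap.mk₂ ℂ (fun (V : Sp S →L[ℂ] Sp S) (U : compactOps (Sp S)) =>
        L1.mulL (incl S (V y)) (CC h ((ev S s).comp (U : Sp S →L[ℂ] Sp S))))
      (fun a b u => by simp)
      (fun c a u => by simp)
      (fun a u v => by
        have : (ev S s).comp ((u + v : compactOps (Sp S)) : Sp S →L[ℂ] Sp S) =
          (ev S s).comp (u : Sp S →L[ℂ] Sp S) + (ev S s).comp (v : Sp S →L[ℂ] Sp S) := by
          ext z; simp
        rw [this, map_add, map_add])
      (fun c a u => by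
        have : (ev S s).comp ((c • u : compactOps (Sp S)) : Sp S →L[ℂ] Sp S) =
          c • (ev S s).comp (u : Sp S →L[ℂ] Sp S) := by
          ext z; simp
        rw [this, map_smul, map_smul]))
    ‖y‖ (fun V U => by
      simp only [LinearMap.mk₂_apply]
      refine (L1.norm_mulL_le _ _).trans ?_
      have h1 : ‖incl S (V y)‖ ≤ ‖V‖ * ‖y‖ := by rw [norm_incl]; exact V.le_opNorm y
      have h2 : ‖CC h ((ev S s).comp (U : Sp S →L[ℂ] Sp S))‖ ≤ ‖U‖ := by
        refine (norm_CC_apply_le h _).trans ?_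
        refine (opNorm_comp_le _ _).trans ?_
        calc ‖ev S s‖ * ‖(U : Sp S →L[ℂ] Sp S)‖ ≤ 1 * ‖(U : Sp S →L[ℂ] Sp S)‖ :=
              mul_le_mul_of_nonneg_right (norm_ev_le S s) (norm_nonneg _)
          _ = ‖U‖ := one_mul _
      calc ‖incl S (V y)‖ * ‖CC h ((ev S s).comp (U : Sp S →L[ℂ] Sp S))‖
          ≤ (‖V‖ * ‖y‖) * ‖U‖ := mul_le_mul h1 h2 (norm_nonneg _) (by positivity)
        _ = ‖y‖ * ‖V‖ * ‖U‖ := by ring)

lemma FF_apply (h : AD S) (s : N ⊕ Γ) (y : Sp S) (V : Sp S →L[ℂ] Sp S)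
    (U : compactOps (Sp S)) :
    FF h s y V U = L1.mulL (incl S (V y)) (CC h ((ev S s).comp (U : Sp S →L[ℂ] Sp S))) := rfl

lemma FF_apply_apply (h : AD S) (s : N ⊕ Γ) (y : Sp S) (V : Sp S →L[ℂ] Sp S)
    (U : compactOps (Sp S)) (m : N ⊕ Γ) :
    FF h s y V U m = ev S m (V y) * cc S m ((ev S s).comp (U : Sp S →L[ℂ] Sp S)) := rfl

lemma norm_FF_le (h : AD S) (s : N ⊕ Γ) (y : Sp S) : ‖FF h s y‖ ≤ ‖y‖ :=
  LinearMap.mkContinuous₂_norm_le _ (norm_nonneg _) _

end Psi

end Pool.Agent.Helper53
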