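import Mathlib

set_option autoImplicit false
set_option maxSynthPendingDepth 3

namespace Pool.Agent.Helper53

open scoped ENNReal
open Filter Topology

namespace Psi

variable {N Γ : Type}

/-- bounded functions -/
abbrev Linf (α : Type) : Type := lp (fun _ : α => ℂ) ∞

/-- indicator functions as bounded functions -/
noncomputable def ind {α : Type} (B : Set α) : Linf α :=
  ⟨B.indicator (fun _ => (1 : ℂ)), memℓp_infty ⟨1, by
    rintro _ ⟨i, rfl⟩
    by_cases h : i ∈ B <;> simp [h]⟩⟩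

lemma ind_apply {α : Type} (B : Set α) (i : α) : ind B i = B.indicator (fun _ => (1 : ℂ)) i := rfl

lemma ind_apply_mem {α : Type} {B : Set α} {i : α} (h : i ∈ B) : ind B i = 1 := by
  rw [ind_apply, Set.indicator_of_mem h]

lemma ind_apply_notMem {α : Type} {B : Set α} {i : α} (h : i ∉ B) : ind B i = 0 := by
  rw [ind_apply, Set.indicator_of_notMem h]

lemma norm_sum_ind_le {α ι : Type} (J : Finset ι) (B : ι → Set α)
    (hB : ∀ i ∈ J, ∀ j ∈ J, i ≠ j → Disjoint (B i) (B j)) (a : ι → ℂ) (C : ℝ) (hC : 0 ≤ C)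
    (ha : ∀ i ∈ J, ‖a i‖ ≤ C) : ‖∑ i ∈ J, a i • ind (B i)‖ ≤ C := by
  classical
  refine lp.norm_le_of_forall_le hC (fun t => ?_)
  rw [lp.coeFn_sum, Finset.sum_apply]
  by_cases h : ∃ i ∈ J, t ∈ B i
  · obtain ⟨i, hi, hti⟩ := h
    rw [Finset.sum_eq_single i]
    · rw [lp.coeFn_smul, Pi.smul_apply, ind_apply_mem hti]
      simpa using ha i hi
    · intro j hj hji
      have : t ∉ B j := fun h' => Set.disjoint_left.mp (hB j hj i hi hji) h' hti
      rw [lp.coeFn_smul, Pi.smul_apply, ind_apply_notMem this, smul_zero]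
    · intro hi'; exact absurd hi hi'
  · push Not at h
    rw [Finset.sum_eq_zero]
    · simpa using hC
    · intro j hj
      rw [lp.coeFn_smul, Pi.smul_apply, ind_apply_notMem (h j hj), smul_zero]

variable (S : Γ → ℕ → N)

/-- the point `γ` together with the tail of the sequence `S γ` -/
def tset (γ : Γ) (k : ℕ) : Set (N ⊕ Γ) := {Sum.inr γ} ∪ {t | ∃ n, k ≤ n ∧ t = Sum.inl (S γ n)}

/-- the generators -/
def gen : Set (Linf (N ⊕ Γ)) :=
  Set.range (fun l : N => ind {(Sum.inl l : N ⊕ Γ)}) ∪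
    Set.range (fun p : Γ × ℕ => ind (tset S p.1 p.2))

/-- the closed linear span of the generators -/
noncomputable def EE : Submodule ℂ (Linf (N ⊕ Γ)) := (Submodule.span ℂ (gen S)).topologicalClosure

/-- the Banach space -/
def Sp : Type := EE S

noncomputable instance : NormedAddCommGroup (Sp S) := inferInstanceAs (NormedAddCommGroup (EE S))
noncomputable instance : NormedSpace ℂ (Sp S) := inferInstanceAs (NormedSpace ℂ (EE S))
instance : CompleteSpace (Sp S) := by
  show CompleteSpace (EE S)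
  unfold EE; infer_instance

/-- the inclusion -/
noncomputable def incl : Sp S →L[ℂ] Linf (N ⊕ Γ) := (EE S).subtypeL

lemma norm_incl (x : Sp S) : ‖incl S x‖ = ‖x‖ := rfl

lemma incl_injective : Function.Injective (incl S) := Subtype.val_injective

/-- evaluation functionals -/
noncomputable def ev (t : N ⊕ Γ) : Sp S →L[ℂ] ℂ :=
  (lp.evalCLM ℂ (fun _ : N ⊕ Γ => ℂ) ∞ t).comp (incl S)

lemma ev_apply (t : N ⊕ Γ) (x : Sp S) : ev S t x = incl S x t := rfl

lemma norm_ev_apply_le (t : N ⊕ Γ) (x : Sp S) : ‖ev S t x‖ ≤ ‖x‖ := by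
  rw [ev_apply, ← norm_incl S x]
  exact lp.norm_apply_le_norm (by simp) _ _

lemma norm_ev_le (t : N ⊕ Γ) : ‖ev S t‖ ≤ 1 :=
  ContinuousLinearMap.opNorm_le_bound _ zero_le_one (fun x => by
    simpa using norm_ev_apply_le S t x)

/-- the vectors at isolated points -/
noncomputable def e (l : N) : Sp S :=
  ⟨ind {(Sum.inl l : N ⊕ Γ)}, Submodule.le_topologicalClosure _
    (Submodule.subset_span (Or.inl ⟨l, rfl⟩))⟩

/-- the tail vectors -/
noncomputable def xx (γ : Γ) (k : ℕ) : Sp S :=
  ⟨ind (tset S γ k), Submodule.le_topologicalClosure _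
    (Submodule.subset_span (Or.inr ⟨(γ, k), rfl⟩))⟩

@[simp] lemma incl_e (l : N) : incl S (e S l) = ind {(Sum.inl l : N ⊕ Γ)} := rfl
@[simp] lemma incl_xx (γ : Γ) (k : ℕ) : incl S (xx S γ k) = ind (tset S γ k) := rfl

lemma ev_e_self (l : N) : ev S (Sum.inl l) (e S l) = 1 := by
  rw [ev_apply, incl_e]; exact ind_apply_mem rfl

lemma ev_e_ne {l : N} {t : N ⊕ Γ} (h : t ≠ Sum.inl l) : ev S t (e S l) = 0 := by
  rw [ev_apply, incl_e]; exact ind_apply_notMem h

lemma norm_e_le (l : N) : ‖e S l‖ ≤ 1 := by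
  rw [← norm_incl, incl_e]
  have := norm_sum_ind_le (Finset.univ : Finset Unit) (fun _ => {(Sum.inl l : N ⊕ Γ)})
    (fun i _ j _ h => absurd rfl h) (fun _ => 1) 1 zero_le_one (by simp)
  simpa using this

lemma norm_xx_le (γ : Γ) (k : ℕ) : ‖xx S γ k‖ ≤ 1 := by
  rw [← norm_incl, incl_xx]
  have := norm_sum_ind_le (Finset.univ : Finset Unit) (fun _ => tset S γ k)
    (fun i _ j _ h => absurd rfl h) (fun _ => 1) 1 zero_le_one (by simp)
  simpa using this

/-- induction principle from density of the span of the generators -/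
lemma induction_closed (p : Sp S → Prop) (h0 : p 0) (hadd : ∀ x y, p x → p y → p (x + y))
    (hsmul : ∀ (c : ℂ) x, p x → p (c • x)) (he : ∀ l, p (e S l)) (hx : ∀ γ k, p (xx S γ k))
    (hcl : IsClosed {x | p x}) (x : Sp S) : p x := by
  have key : ∀ z (hz : z ∈ Submodule.span ℂ (gen S)),
      p ⟨z, Submodule.le_topologicalClosure _ hz⟩ := by
    intro z hz
    induction hz using Submodule.span_induction with
    | mem z hz =>
      rcases hz with ⟨l, rfl⟩ | ⟨q, rfl⟩
      · exact he l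
      · exact hx q.1 q.2
    | zero => exact h0
    | add a b ha hb iha ihb => exact hadd _ _ iha ihb
    | smul c a ha iha => exact hsmul c _ iha
  have hx' : (incl S x : Linf (N ⊕ Γ)) ∈ closure (Submodule.span ℂ (gen S) : Set _) := x.2
  rw [mem_closure_iff_seq_limit] at hx'
  obtain ⟨u, hu, hux⟩ := hx'
  let v : ℕ → Sp S := fun n => ⟨u n, Submodule.le_topologicalClosure _ (hu n)⟩
  have hv : Tendsto v atTop (𝓝 x) := by
    rw [tendsto_iff_norm_sub_tendsto_zero] at hux ⊢
    exact hux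
  exact hcl.mem_of_tendsto hv (Eventually.of_forall (fun n => key _ (hu n)))

end Psi

end Pool.Agent.Helper53
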