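import Pool.Agent.Helper53.PsiForms

set_option autoImplicit false
set_option maxSynthPendingDepth 8

namespace Pool.Agent.Helper53

open scoped ENNReal
open Filter Topology ContinuousLinearMap

universe u v

/-- pointwise convergence of functionals becomes norm convergence after a compact operator -/
lemma compact_comp_tendsto {E : Type u} [NormedAddCommGroup E] [NormedSpace ℂ E]
    (U : compactOps E) (f : ℕ → E →L[ℂ] ℂ) (f' : E →L[ℂ] ℂ) (hf : ∀ n, ‖f n‖ ≤ 1)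
    (hf' : ‖f'‖ ≤ 1) (h : ∀ x, Tendsto (fun n => f n x) atTop (𝓝 (f' x))) :
    Tendsto (fun n => (f n).comp (U : E →L[ℂ] E)) atTop (𝓝 (f'.comp (U : E →L[ℂ] E))) := by
  have hc : IsCompact (closure ((U : E →L[ℂ] E) '' Metric.closedBall 0 1)) :=
    IsCompactOperator.isCompact_closure_image_closedBall (compact_coe E U) 1
  rw [Metric.tendsto_atTop]
  intro ε hε
  obtain ⟨t, _, ht, hcov⟩ := hc.finite_cover_balls (e := ε / 8) (by positivity)
  have hfin : ∀ᶠ n in atTop, ∀ z ∈ t, ‖f n z - f' z‖ < ε / 8 := by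
    rw [Filter.eventually_all_finite ht]
    intro z _
    have := (tendsto_iff_norm_sub_tendsto_zero.mp (h z))
    exact this.eventually (gt_mem_nhds (by positivity))
  rw [eventually_atTop] at hfin
  obtain ⟨n0, hn0⟩ := hfin
  refine ⟨n0, fun n hn => ?_⟩
  have hn' := hn0 n hn
  have key : ∀ z ∈ (U : E →L[ℂ] E) '' Metric.closedBall 0 1, ‖f n z - f' z‖ ≤ ε / 2 := by
    intro z hz
    have hz' := hcov (subset_closure hz)
    simp only [Set.mem_iUnion] at hz'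
    obtain ⟨w, hw, hzw⟩ := hz'
    rw [Metric.mem_ball, dist_eq_norm] at hzw
    have h1 : f n z - f' z = f n (z - w) - f' (z - w) + (f n w - f' w) := by
      rw [map_sub, map_sub]; ring
    have h2 : ‖f n (z - w)‖ ≤ ‖z - w‖ := by
      simpa using (f n).le_of_opNorm_le (hf n) (z - w)
    have h3 : ‖f' (z - w)‖ ≤ ‖z - w‖ := by
      simpa using f'.le_of_opNorm_le hf' (z - w)
    have h4 := hn' w hw
    calc ‖f n z - f' z‖ ≤ ‖f n (z - w) - f' (z - w)‖ + ‖f n w - f' w‖ := by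
          rw [h1]; exact norm_add_le _ _
      _ ≤ ‖f n (z - w)‖ + ‖f' (z - w)‖ + ‖f n w - f' w‖ := by gcongr; exact norm_sub_le _ _
      _ ≤ ε / 2 := by linarith
  rw [dist_eq_norm]
  have hb : ‖(f n).comp (U : E →L[ℂ] E) - f'.comp (U : E →L[ℂ] E)‖ ≤ ε / 2 := by
    refine ContinuousLinearMap.opNorm_le_of_unit_norm (by positivity) (fun x hx => ?_)
    exact key _ ⟨x, by simp [hx], rfl⟩
  linarith

namespace Psi

variable {N Γ : Type} {S : Γ → ℕ → N}

lemma FF_tendsto (h : AD S) (γ : Γ) (y : Sp S) (V : Sp S →L[ℂ] Sp S) (U : compactOps (Sp S)) :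
    Tendsto (fun n => FF h (Sum.inl (S γ n)) y V U) atTop (𝓝 (FF h (Sum.inr γ) y V U)) := by
  have h1 := compact_comp_tendsto U (fun n => ev S (Sum.inl (S γ n))) (ev S (Sum.inr γ))
    (fun n => norm_ev_le S _) (norm_ev_le S _) (tendsto_ev h γ)
  have h2 := ((L1.mulL (incl S (V y))).comp (CC h)).continuous.tendsto
    ((ev S (Sum.inr γ)).comp (U : Sp S →L[ℂ] Sp S))
  exact h2.comp h1

/-- evaluation of an operator at a vector and a point -/
noncomputable def evK (s : N ⊕ Γ) (y : Sp S) : compactOps (Sp S) →L[ℂ] ℂ :=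
  (ev S s).comp ((ContinuousLinearMap.apply ℂ (Sp S) y).comp (inclK (Sp S)))

lemma evK_apply (s : N ⊕ Γ) (y : Sp S) (W : compactOps (Sp S)) :
    evK s y W = ev S s ((W : Sp S →L[ℂ] Sp S) y) := rfl

lemma sumOn_FF (h : AD S) (s : N ⊕ Γ) (y : Sp S) :
    (compL ℂ (compactOps (Sp S)) (L1 (N ⊕ Γ)) ℂ (L1.sumOn Set.univ)).comp (FF h s y) =
      (compL ℂ (compactOps (Sp S)) (compactOps (Sp S)) ℂ (evK s y)).comp (mR (Sp S)) := by
  ext V U
  exact pairing h ((ev S s).comp (U : Sp S →L[ℂ] Sp S)) (V y)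

/-- `v ↦ v ⊗ f` -/
noncomputable def rkV {E : Type u} [NormedAddCommGroup E] [NormedSpace ℂ E] (f : E →L[ℂ] ℂ) :
    E →L[ℂ] compactOps E :=
  LinearMap.mkContinuous
    { toFun := fun v => rk E v f
      map_add' := fun v w => by ext x; simp
      map_smul' := fun c v => by
        ext x
        show f x • (c • v) = c • (f x • v)
        rw [smul_comm] } ‖f‖ (fun v => by
        simp only [LinearMap.coe_mk, AddHom.coe_mk]
        rw [norm_rk])

@[simp] lemma rkV_apply {E : Type u} [NormedAddCommGroup E] [NormedSpace ℂ E] (f : E →L[ℂ] ℂ)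
    (v : E) : rkV f v = rk E v f := rfl

section Main

variable (h : AD S)
  (ρ : compactOps (Sp S) →L[ℂ] BilDual (Sp S →L[ℂ] Sp S) (compactOps (Sp S))) (l0 : N)

/-- the transfer operators -/
noncomputable def RR (s : N ⊕ Γ) : Sp S →L[ℂ] L1 (N ⊕ Γ) :=
  (LL (FF h s (e S l0))).comp (ρ.comp (rkV (ev S (Sum.inl l0))))

lemma RR_apply (s : N ⊕ Γ) (v : Sp S) :
    RR h ρ l0 s v = LL (FF h s (e S l0)) (ρ (rk (Sp S) v (ev S (Sum.inl l0)))) := rfl

lemma RR_apply_apply (s : N ⊕ Γ) (v : Sp S) (m : N ⊕ Γ) :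
    RR h ρ l0 s v m = ρ (rk (Sp S) v (ev S (Sum.inl l0))) (cf (FF h s (e S l0)) m) := rfl

variable {ρ} (hρ1 : ∀ (a x : compactOps (Sp S))
    (β : Bil (Sp S →L[ℂ] Sp S) (compactOps (Sp S))),
    ρ (x * a) β = ρ x (β.comp ((compL ℂ (Sp S) (Sp S) (Sp S)).flip (a : Sp S →L[ℂ] Sp S))))

include hρ1 in
lemma rho_rk (v : Sp S) (f : Sp S →L[ℂ] ℂ) (s m : N ⊕ Γ) (y : Sp S) :
    ρ (rk (Sp S) v f) (cf (FF h s y) m) = f y * RR h ρ l0 s v m := by
  have h1 : rk (Sp S) v f = rk (Sp S) v (ev S (Sum.inl l0)) * rk (Sp S) (e S l0) f := by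
    rw [rk_mul_rk, ev_e_self, one_smul]
  have h2 : (cf (FF h s y) m).comp
      ((compL ℂ (Sp S) (Sp S) (Sp S)).flip (rk (Sp S) (e S l0) f : Sp S →L[ℂ] Sp S)) =
      f y • cf (FF h s (e S l0)) m := by
    ext V U
    show ev S m (V (f y • e S l0)) * cc S m ((ev S s).comp (U : Sp S →L[ℂ] Sp S)) =
      f y * (ev S m (V (e S l0)) * cc S m ((ev S s).comp (U : Sp S →L[ℂ] Sp S)))
    rw [map_smul, map_smul, smul_eq_mul, mul_assoc]
  rw [h1, hρ1, h2, map_smul, smul_eq_mul, RR_apply_apply]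

lemma form_bound {ι : Type} (I : Finset ι) (T : compactOps (Sp S)) (hT : ‖T‖ ≤ 1)
    (m s : ι → N ⊕ Γ) (y : ι → Sp S)
    (hb : ∀ (V : Sp S →L[ℂ] Sp S) (U : compactOps (Sp S)) (θ : ι → ℂ), (∀ i, ‖θ i‖ ≤ 1) →
      ‖∑ i ∈ I, θ i * (ev S (m i) (V (y i)) *
        cc S (m i) ((ev S (s i)).comp (U : Sp S →L[ℂ] Sp S)))‖ ≤ ‖V‖ * ‖U‖) :
    ∑ i ∈ I, ‖ρ T (cf (FF h (s i) (y i)) (m i))‖ ≤ ‖ρ‖ := by
  have h1 := sum_norm_le_of_phase (ρ T) I (fun i => cf (FF h (s i) (y i)) (m i)) 1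
    (fun θ hθ => by
      refine ContinuousLinearMap.opNorm_le_bound₂ _ zero_le_one (fun V U => ?_)
      rw [ContinuousLinearMap.sum_apply, ContinuousLinearMap.sum_apply, one_mul]
      exact hb V U θ hθ)
  calc ∑ i ∈ I, ‖ρ T (cf (FF h (s i) (y i)) (m i))‖ ≤ ‖ρ T‖ * 1 := h1
    _ ≤ ‖ρ‖ * ‖T‖ := by rw [mul_one]; exact ρ.le_opNorm T
    _ ≤ ‖ρ‖ * 1 := mul_le_mul_of_nonneg_left hT (norm_nonneg _)
    _ = ‖ρ‖ := mul_one _

/-- sums of rank one operators with disjoint supports are contractive -/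
lemma norm_T_le {ι : Type} (I : Finset ι) (x : ι → Sp S) (B : ι → Set (N ⊕ Γ))
    (hx : ∀ i ∈ I, incl S (x i) = ind (B i))
    (hB : ∀ i ∈ I, ∀ j ∈ I, i ≠ j → Disjoint (B i) (B j)) (t : ι → N ⊕ Γ) :
    ‖∑ i ∈ I, rk (Sp S) (x i) (ev S (t i))‖ ≤ 1 := by
  rw [← norm_coeK]
  refine ContinuousLinearMap.opNorm_le_bound _ zero_le_one (fun z => ?_)
  have h1 : ((∑ i ∈ I, rk (Sp S) (x i) (ev S (t i)) : compactOps (Sp S)) :
      Sp S →L[ℂ] Sp S) z = ∑ i ∈ I, ev S (t i) z • x i := by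
    have : inclK (Sp S) (∑ i ∈ I, rk (Sp S) (x i) (ev S (t i))) z =
        ∑ i ∈ I, ev S (t i) z • x i := by
      rw [map_sum, ContinuousLinearMap.sum_apply]
      rfl
    exact this
  rw [h1, one_mul, ← norm_incl, map_sum]
  have h2 : ∑ i ∈ I, incl S (ev S (t i) z • x i) = ∑ i ∈ I, ev S (t i) z • ind (B i) := by
    refine Finset.sum_congr rfl (fun i hi => ?_)
    rw [map_smul, hx i hi]
  rw [h2]
  exact norm_sum_ind_le I B hB _ ‖z‖ (norm_nonneg _) (fun i _ => norm_ev_apply_le S _ z)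

include hρ1 in
lemma rho_T {ι : Type} (I : Finset ι) (x : ι → Sp S) (t : ι → N ⊕ Γ) (i : ι) (hi : i ∈ I)
    (y : Sp S) (hy : ev S (t i) y = 1) (hy' : ∀ j ∈ I, j ≠ i → ev S (t j) y = 0)
    (s m : N ⊕ Γ) :
    ρ (∑ j ∈ I, rk (Sp S) (x j) (ev S (t j))) (cf (FF h s y) m) = RR h ρ l0 s (x i) m := by
  rw [map_sum, ContinuousLinearMap.sum_apply, Finset.sum_eq_single i]
  · rw [rho_rk h l0 hρ1, hy, one_mul]
  · intro j hj hji
    rw [rho_rk h l0 hρ1, hy' j hj hji, zero_mul]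
  · intro hi'; exact absurd hi hi'

include hρ1 in
/-- first summability estimate -/
lemma sum_RR_e (s : N ⊕ Γ) (G : Finset N) : ∑ l ∈ G, ‖RR h ρ l0 s (e S l)‖ ≤ ‖ρ‖ := by
  classical
  have h1 : ∀ F : Finset (N ⊕ Γ), ∑ m ∈ F, ∑ l ∈ G, ‖RR h ρ l0 s (e S l) m‖ ≤ ‖ρ‖ := by
    intro F
    have hT : ‖∑ l ∈ G, rk (Sp S) (e S l) (ev S (Sum.inl l))‖ ≤ 1 :=
      norm_T_le G (fun l => e S l) (fun l => {Sum.inl l}) (fun _ _ => rfl)
        (fun i _ j _ hij => by simpa using hij) (fun l => Sum.inl l)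
    have h2 := form_bound h (ρ := ρ) (F ×ˢ G) _ hT (fun p => p.1) (fun _ => s)
      (fun p => e S p.2) (fun V U θ hθ => by
        rw [Finset.sum_product]
        have h3 : ∀ m ∈ F, ‖∑ l ∈ G, θ (m, l) * (ev S m (V (e S l)) *
            cc S m ((ev S s).comp (U : Sp S →L[ℂ] Sp S)))‖ ≤
            ‖V‖ * ‖cc S m ((ev S s).comp (U : Sp S →L[ℂ] Sp S))‖ := by
          intro m _
          have h4 : ∑ l ∈ G, θ (m, l) * (ev S m (V (e S l)) *
            cc S m ((ev S s).comp (U : Sp S →L[ℂ] Sp S))) =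
            ev S m (V (∑ l ∈ G, θ (m, l) • e S l)) *
              cc S m ((ev S s).comp (U : Sp S →L[ℂ] Sp S)) := by
            rw [map_sum, map_sum, Finset.sum_mul]
            refine Finset.sum_congr rfl (fun l _ => ?_)
            rw [map_smul, map_smul, smul_eq_mul, mul_assoc]
          rw [h4, norm_mul]
          refine mul_le_mul_of_nonneg_right ?_ (norm_nonneg _)
          refine (norm_ev_apply_le S m _).trans ?_
          refine (V.le_opNorm _).trans ?_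
          have h5 : ‖∑ l ∈ G, θ (m, l) • e S l‖ ≤ 1 := by
            rw [← norm_incl, map_sum]
            simp only [map_smul, incl_e]
            exact norm_sum_ind_le G (fun l => {(Sum.inl l : N ⊕ Γ)})
              (fun i _ j _ hij => by simpa using hij) (fun l => θ (m, l)) 1 zero_le_one
              (fun l _ => hθ (m, l))
          calc ‖V‖ * ‖∑ l ∈ G, θ (m, l) • e S l‖ ≤ ‖V‖ * 1 :=
                mul_le_mul_of_nonneg_left h5 (norm_nonneg _)
            _ = ‖V‖ := mul_one _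
        calc ‖∑ m ∈ F, ∑ l ∈ G, θ (m, l) * (ev S m (V (e S l)) *
              cc S m ((ev S s).comp (U : Sp S →L[ℂ] Sp S)))‖
            ≤ ∑ m ∈ F, ‖V‖ * ‖cc S m ((ev S s).comp (U : Sp S →L[ℂ] Sp S))‖ :=
              norm_sum_le_of_le _ h3
          _ = ‖V‖ * ∑ m ∈ F, ‖cc S m ((ev S s).comp (U : Sp S →L[ℂ] Sp S))‖ := by
              rw [Finset.mul_sum]
          _ ≤ ‖V‖ * ‖U‖ := by
              refine mul_le_mul_of_nonneg_left ?_ (norm_nonneg _)
              refine (sum_norm_cc h _ F).trans ?_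
              refine (opNorm_comp_le _ _).trans ?_
              calc ‖ev S s‖ * ‖(U : Sp S →L[ℂ] Sp S)‖ ≤ 1 * ‖(U : Sp S →L[ℂ] Sp S)‖ :=
                    mul_le_mul_of_nonneg_right (norm_ev_le S s) (norm_nonneg _)
                _ = ‖U‖ := one_mul _)
    rw [Finset.sum_product] at h2
    refine le_of_eq_of_le ?_ h2
    refine Finset.sum_congr rfl (fun m _ => Finset.sum_congr rfl (fun l hl => ?_))
    rw [rho_T h l0 hρ1 G (fun l => e S l) (fun l => Sum.inl l) l hl (e S l) (ev_e_self S l)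
      (fun j _ hj => ev_e_ne S (fun hh => hj (Sum.inl_injective hh))) s m]
  have h6 : HasSum (fun m => ∑ l ∈ G, ‖RR h ρ l0 s (e S l) m‖)
      (∑ l ∈ G, ‖RR h ρ l0 s (e S l)‖) :=
    hasSum_sum (fun l _ => L1.hasSum_norm (RR h ρ l0 s (e S l)))
  exact hasSum_le_of_sum_le h6 h1

end Main

end Psi

end Pool.Agent.Helper53
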