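import Pool.Agent.Helper53.RightCase

set_option autoImplicit false
set_option maxSynthPendingDepth 8

namespace Pool.Agent.Helper53

open scoped ENNReal
open Filter Topology ContinuousLinearMap

universe u v

namespace Psi

variable {N Γ : Type} {S : Γ → ℕ → N}

section Main

variable (h : AD S)
  {ρ : compactOps (Sp S) →L[ℂ] BilDual (Sp S →L[ℂ] Sp S) (compactOps (Sp S))} (l0 : N)
  (hρ1 : ∀ (a x : compactOps (Sp S))
    (β : Bil (Sp S →L[ℂ] Sp S) (compactOps (Sp S))),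
    ρ (x * a) β = ρ x (β.comp ((compL ℂ (Sp S) (Sp S) (Sp S)).flip (a : Sp S →L[ℂ] Sp S))))

include hρ1 in
/-- second summability estimate -/
lemma sum_RR_xx (σ : Γ → N ⊕ Γ) (m : N ⊕ Γ) (D : Finset Γ) :
    ∀ᶠ k in atTop, ∑ γ ∈ D, ‖RR h ρ l0 (σ γ) (xx S γ k) m‖ ≤ ‖ρ‖ := by
  classical
  have hd : ∀ᶠ k in atTop, ∀ γ ∈ D, ∀ γ' ∈ D, γ ≠ γ' → Disjoint (tset S γ k) (tset S γ' k) := by
    refine (h.disj_finset (D.image Sum.inr)).mono (fun k hk γ hγ γ' hγ' hne => ?_)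
    exact hk (Sum.inr γ) (Finset.mem_image_of_mem _ hγ) (Sum.inr γ')
      (Finset.mem_image_of_mem _ hγ') (fun e => hne (Sum.inr_injective e))
  refine hd.mono (fun k hk => ?_)
  have hne : ∀ γ ∈ D, ∀ γ' ∈ D, γ ≠ γ' → S γ k ≠ S γ' k := by
    intro γ hγ γ' hγ' hne he
    have h1 := hk γ hγ γ' hγ' hne
    rw [Set.disjoint_left] at h1
    refine h1 (mem_tset_inl γ (le_refl k)) ?_
    rw [he]
    exact mem_tset_inl γ' (le_refl k)
  have hT : ‖∑ γ ∈ D, rk (Sp S) (xx S γ k) (ev S (Sum.inl (S γ k)))‖ ≤ 1 :=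
    norm_T_le D (fun γ => xx S γ k) (fun γ => tset S γ k) (fun _ _ => rfl) hk
      (fun γ => Sum.inl (S γ k))
  have h2 := form_bound h (ρ := ρ) D _ hT (fun _ => m) σ (fun γ => e S (S γ k))
    (fun V U θ hθ => by
      have h3 : ∀ γ ∈ D, ‖θ γ * (ev S m (V (e S (S γ k))) *
          cc S m ((ev S (σ γ)).comp (U : Sp S →L[ℂ] Sp S)))‖ ≤
          ‖((ev S m).comp V) (e S (S γ k))‖ * ‖U‖ := by
        intro γ _
        rw [norm_mul, norm_mul]
        have h4 : ‖cc S m ((ev S (σ γ)).comp (U : Sp S →L[ℂ] Sp S))‖ ≤ ‖U‖ := by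
          have := sum_norm_cc h ((ev S (σ γ)).comp (U : Sp S →L[ℂ] Sp S)) {m}
          rw [Finset.sum_singleton] at this
          refine this.trans ?_
          refine (opNorm_comp_le _ _).trans ?_
          calc ‖ev S (σ γ)‖ * ‖(U : Sp S →L[ℂ] Sp S)‖ ≤ 1 * ‖(U : Sp S →L[ℂ] Sp S)‖ :=
                mul_le_mul_of_nonneg_right (norm_ev_le S _) (norm_nonneg _)
            _ = ‖U‖ := one_mul _
        calc ‖θ γ‖ * (‖ev S m (V (e S (S γ k)))‖ *
              ‖cc S m ((ev S (σ γ)).comp (U : Sp S →L[ℂ] Sp S))‖)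
            ≤ 1 * (‖ev S m (V (e S (S γ k)))‖ * ‖U‖) := by
              refine mul_le_mul (hθ γ) ?_ (by positivity) zero_le_one
              exact mul_le_mul_of_nonneg_left h4 (norm_nonneg _)
          _ = ‖((ev S m).comp V) (e S (S γ k))‖ * ‖U‖ := by rw [one_mul]; rfl
      have h5 : ∑ γ ∈ D, ‖((ev S m).comp V) (e S (S γ k))‖ ≤ ‖V‖ := by
        have h6 := h.sum_norm_e ((ev S m).comp V) (D.image (fun γ => S γ k))
        rw [Finset.sum_image (fun γ hγ γ' hγ' he => by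
          by_contra hcon
          exact hne γ hγ γ' hγ' hcon he)] at h6
        refine h6.trans ?_
        refine (opNorm_comp_le _ _).trans ?_
        calc ‖ev S m‖ * ‖V‖ ≤ 1 * ‖V‖ :=
              mul_le_mul_of_nonneg_right (norm_ev_le S m) (norm_nonneg _)
          _ = ‖V‖ := one_mul _
      calc ‖∑ γ ∈ D, θ γ * (ev S m (V (e S (S γ k))) *
            cc S m ((ev S (σ γ)).comp (U : Sp S →L[ℂ] Sp S)))‖
          ≤ ∑ γ ∈ D, ‖((ev S m).comp V) (e S (S γ k))‖ * ‖U‖ := norm_sum_le_of_le _ h3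
        _ = (∑ γ ∈ D, ‖((ev S m).comp V) (e S (S γ k))‖) * ‖U‖ := by rw [Finset.sum_mul]
        _ ≤ ‖V‖ * ‖U‖ := mul_le_mul_of_nonneg_right h5 (norm_nonneg _))
  refine le_of_eq_of_le ?_ h2
  refine Finset.sum_congr rfl (fun γ hγ => ?_)
  rw [rho_T h l0 hρ1 D (fun γ => xx S γ k) (fun γ => Sum.inl (S γ k)) γ hγ (e S (S γ k))
    (ev_e_self S _)
    (fun j hj hjγ => ev_e_ne S (fun hh => hne j hj γ hγ hjγ (Sum.inl_injective hh))) (σ γ) m]

variable (ρ) in
/-- the tail limits -/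
noncomputable def WW (s : N ⊕ Γ) (γ : Γ) : L1 (N ⊕ Γ) :=
  RR h ρ l0 s (xx S γ 0) - ∑' n, RR h ρ l0 s (e S (S γ n))

include hρ1 in
lemma tendsto_WW (s : N ⊕ Γ) (γ : Γ) :
    Tendsto (fun k => RR h ρ l0 s (xx S γ k)) atTop (𝓝 (WW h ρ l0 s γ)) :=
  tail_tendsto h (RR h ρ l0 s) ‖ρ‖ (sum_RR_e h l0 hρ1 s) γ

include hρ1 in
lemma sum_WW (σ : Γ → N ⊕ Γ) (m : N ⊕ Γ) (D : Finset Γ) :
    ∑ γ ∈ D, ‖WW h ρ l0 (σ γ) γ m‖ ≤ ‖ρ‖ := by
  have h1 : Tendsto (fun k => ∑ γ ∈ D, ‖RR h ρ l0 (σ γ) (xx S γ k) m‖) atTop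
      (𝓝 (∑ γ ∈ D, ‖WW h ρ l0 (σ γ) γ m‖)) := by
    refine tendsto_finsetSum D (fun γ _ => ?_)
    have h2 := ((L1.coord m).continuous.tendsto (WW h ρ l0 (σ γ) γ)).comp
      (tendsto_WW h l0 hρ1 (σ γ) γ)
    exact h2.norm
  exact le_of_tendsto h1 (sum_RR_xx h l0 hρ1 σ m D)

include hρ1 in
lemma countable_WW (σ : Γ → N ⊕ Γ) (m : N ⊕ Γ) :
    {γ | WW h ρ l0 (σ γ) γ m ≠ 0}.Countable := by
  have h1 : Summable (fun γ => ‖WW h ρ l0 (σ γ) γ m‖) :=
    summable_of_sum_le (fun _ => norm_nonneg _) (sum_WW h l0 hρ1 σ m)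
  refine h1.countable_support.mono (fun γ hγ => ?_)
  simpa [Function.mem_support] using hγ

variable (hρ2 : ∀ (x : compactOps (Sp S)) (φ : compactOps (Sp S) →L[ℂ] ℂ),
    ρ x ((compL ℂ (compactOps (Sp S)) (compactOps (Sp S)) ℂ φ).comp (mR (Sp S))) = φ x)
  (hρ3 : ∀ x, ρ x ∈ tensClosure (Sp S →L[ℂ] Sp S) (compactOps (Sp S)))

include hρ2 hρ3 in
lemma sumOn_RR (s : N ⊕ Γ) (v : Sp S) : L1.sumOn Set.univ (RR h ρ l0 s v) = ev S s v := by
  rw [RR_apply, LL_functional _ _ _ (hρ3 _), sumOn_FF, hρ2, evK_apply, rk_apply, ev_e_self,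
    one_smul]

include hρ3 in
lemma tendsto_RR (γ : Γ) (v : Sp S) :
    Tendsto (fun n => RR h ρ l0 (Sum.inl (S γ n)) v) atTop (𝓝 (RR h ρ l0 (Sum.inr γ) v)) := by
  simp only [RR_apply]
  exact LL_tendsto _ _ ‖e S l0‖ (fun n => norm_FF_le h _ _)
    (fun V U => FF_tendsto h γ (e S l0) V U) _ (hρ3 _)

include h l0 hρ1 hρ2 hρ3 in
theorem contradiction_right [Countable N] [Uncountable Γ] : False := by
  let M : Set (N ⊕ Γ) := ⋃ l : N, ⋃ s : N, {m | RR h ρ l0 (Sum.inl s) (e S l) m ≠ 0}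
  have hM : M.Countable := Set.countable_iUnion (fun l => Set.countable_iUnion (fun s =>
    L1.countable_support _))
  let bad : Set Γ := ⋃ m ∈ M, ((⋃ s : N, {γ | WW h ρ l0 (Sum.inl s) γ m ≠ 0}) ∪
    {γ | WW h ρ l0 (Sum.inr γ) γ m ≠ 0})
  have hbad : bad.Countable := by
    refine hM.biUnion (fun m _ => ?_)
    refine (Set.countable_iUnion (fun s => ?_)).union ?_
    · exact countable_WW h l0 hρ1 (fun _ => Sum.inl s) m
    · exact countable_WW h l0 hρ1 (fun γ => Sum.inr γ) m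
  obtain ⟨γ, hγ⟩ : ∃ γ, γ ∉ bad := by
    by_contra hcon
    push Not at hcon
    have : (Set.univ : Set Γ).Countable := hbad.mono (fun γ _ => hcon γ)
    exact Set.not_countable_univ this
  have hW1 : ∀ (s : N), ∀ m ∈ M, WW h ρ l0 (Sum.inl s) γ m = 0 := by
    intro s m hm
    by_contra hcon
    exact hγ (Set.mem_biUnion hm (Or.inl (Set.mem_iUnion.2 ⟨s, hcon⟩)))
  have hW2 : ∀ m ∈ M, WW h ρ l0 (Sum.inr γ) γ m = 0 := by
    intro m hm
    by_contra hcon
    exact hγ (Set.mem_biUnion hm (Or.inr hcon))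
  have hs1 : ∀ (s l : N), ∀ m ∉ M, RR h ρ l0 (Sum.inl s) (e S l) m = 0 := by
    intro s l m hm
    by_contra hcon
    exact hm (Set.mem_iUnion.2 ⟨l, Set.mem_iUnion.2 ⟨s, hcon⟩⟩)
  have hs2 : ∀ (l : N), ∀ m ∉ M, RR h ρ l0 (Sum.inr γ) (e S l) m = 0 := by
    intro l m hm
    have h1 := ((L1.coord m).continuous.tendsto _).comp (tendsto_RR h l0 hρ3 γ (e S l))
    have h2 : (L1.coord m) ∘ (fun n => RR h ρ l0 (Sum.inl (S γ n)) (e S l)) = fun _ => 0 := by
      funext n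
      exact hs1 (S γ n) l m hm
    rw [h2] at h1
    exact (tendsto_nhds_unique tendsto_const_nhds h1).symm
  have hA : ∀ s : N ⊕ Γ, (∀ m ∈ M, WW h ρ l0 s γ m = 0) →
      (∀ l, ∀ m ∉ M, RR h ρ l0 s (e S l) m = 0) →
      L1.sumOn M (RR h ρ l0 s (xx S γ 0)) = ∑' n, ev S s (e S (S γ n)) := by
    intro s h1 h2
    have h3 : RR h ρ l0 s (xx S γ 0) = WW h ρ l0 s γ + ∑' n, RR h ρ l0 s (e S (S γ n)) := by
      unfold WW; abel
    have h4 := tail_summable h (RR h ρ l0 s) ‖ρ‖ (sum_RR_e h l0 hρ1 s) γ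
    rw [h3, map_add, L1.sumOn_eq_zero M _ h1, zero_add, (L1.sumOn M).map_tsum h4]
    refine tsum_congr (fun n => ?_)
    rw [L1.sumOn_eq_univ M _ (h2 (S γ n)), sumOn_RR h l0 hρ2 hρ3]
  have hA1 : ∀ n, L1.sumOn M (RR h ρ l0 (Sum.inl (S γ n)) (xx S γ 0)) = 1 := by
    intro n
    rw [hA _ (hW1 _) (hs1 _), tsum_eq_single n, ev_e_self]
    intro n' hn'
    exact ev_e_ne S (fun hh => hn' (h.inj γ (Sum.inl_injective hh)).symm)
  have hA2 : L1.sumOn M (RR h ρ l0 (Sum.inr γ) (xx S γ 0)) = 0 := by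
    rw [hA _ hW2 hs2]
    have : ∀ n, ev S (Sum.inr γ) (e S (S γ n)) = 0 := fun n => ev_e_ne S (by simp)
    simp [this]
  have h5 := ((L1.sumOn M).continuous.tendsto _).comp (tendsto_RR h l0 hρ3 γ (xx S γ 0))
  have h6 : (L1.sumOn M) ∘ (fun n => RR h ρ l0 (Sum.inl (S γ n)) (xx S γ 0)) = fun _ => 1 := by
    funext n
    exact hA1 n
  rw [h6, hA2] at h5
  exact one_ne_zero (tendsto_nhds_unique tendsto_const_nhds h5)

end Main

/-- the concrete almost disjoint family of branches of the binary tree -/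
def branch (γ : ℕ → Bool) (n : ℕ) : List Bool := (List.range n).map γ

lemma branch_AD : AD branch where
  inj := fun γ a b hab => by
    have := congrArg List.length hab
    simpa [branch] using this
  ad := fun γ γ' hne => by
    obtain ⟨k, hk⟩ := Function.ne_iff.1 hne
    refine ⟨k + 1, fun n hn n' he => hk ?_⟩
    have hl := congrArg List.length he
    simp only [branch, List.length_map, List.length_range] at hl
    subst hl
    have h1 := congrArg (fun l : List Bool => l[k]?) he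
    simp only [branch, List.getElem?_map] at h1
    rw [List.getElem?_range (by omega)] at h1
    simpa using h1

lemma uncountable_branches : Uncountable (ℕ → Bool) := by
  rw [← not_countable_iff]
  intro hc
  obtain ⟨f, hf⟩ := exists_surjective_nat (ℕ → Bool)
  obtain ⟨n, hn⟩ := hf (fun k => !(f k k))
  have := congrFun hn n
  simp at this

end Psi

/-- The compact operators on this space are not right projective. -/
theorem not_rightProjective_psi :
    ¬ RightProjective (rightRegular (compactOps (Psi.Sp Psi.branch))) := by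
  intro hp
  obtain ⟨ρ, h1, h2, h3⟩ := exists_rho_right (Psi.Sp Psi.branch) hp
  have := Psi.uncountable_branches
  exact Psi.contradiction_right Psi.branch_AD ([] : List Bool) h1 h2 h3

theorem not_KRightProjective_psi : ¬ KRightProjective (Psi.Sp Psi.branch) :=
  not_rightProjective_psi

end Pool.Agent.Helper53

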