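import Pool.Agent.Helper53.BanachMod

set_option autoImplicit false
set_option maxSynthPendingDepth 3

namespace Pool.Agent.Helper53

universe u

open ContinuousLinearMap

section Restrict

variable {A Z : Type u} [NonUnitalNormedRing A] [NormedSpace ℂ A]
  [NormedAddCommGroup Z] [NormedSpace ℂ Z]

/-- restriction of a bounded bilinear action to an invariant subspace -/
noncomputable def restrictAct (Φ : A →L[ℂ] Z →L[ℂ] Z) (Y : Submodule ℂ Z)
    (h : ∀ a, ∀ y ∈ Y, Φ a y ∈ Y) : A →L[ℂ] Y →L[ℂ] Y :=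
  LinearMap.mkContinuous₂
    (LinearMap.mk₂ ℂ (fun (a : A) (y : Y) => (⟨Φ a y, h a y y.2⟩ : Y))
      (fun a b y => by ext; simp) (fun c a y => by ext; simp)
      (fun a y z => by ext; simp) (fun c a y => by ext; simp))
    ‖Φ‖ (fun a y => by
      simpa using Φ.le_opNorm₂ a (y : Z))

@[simp] lemma restrictAct_coe (Φ : A →L[ℂ] Z →L[ℂ] Z) (Y : Submodule ℂ Z)
    (h : ∀ a, ∀ y ∈ Y, Φ a y ∈ Y) (a : A) (y : Y) :
    ((restrictAct Φ Y h a y : Y) : Z) = Φ a y := rfl

end Restrict

section Tensor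

variable {A P Q X : Type u} [NonUnitalNormedRing A] [NormedSpace ℂ A]
  [NormedAddCommGroup P] [NormedSpace ℂ P] [NormedAddCommGroup Q] [NormedSpace ℂ Q]
  [NormedAddCommGroup X] [NormedSpace ℂ X]

/-- bounded bilinear forms on `P × Q` -/
abbrev Bil (P Q : Type u) [NormedAddCommGroup P] [NormedSpace ℂ P]
    [NormedAddCommGroup Q] [NormedSpace ℂ Q] : Type u := P →L[ℂ] Q →L[ℂ] ℂ

/-- dual of the space of bounded bilinear forms -/
abbrev BilDual (P Q : Type u) [NormedAddCommGroup P] [NormedSpace ℂ P]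
    [NormedAddCommGroup Q] [NormedSpace ℂ Q] : Type u := Bil P Q →L[ℂ] ℂ

/-- elementary tensor, as a functional on bilinear forms -/
noncomputable def tm (p : P) (q : Q) : BilDual P Q :=
  (ContinuousLinearMap.apply ℂ ℂ q).comp (ContinuousLinearMap.apply ℂ (Q →L[ℂ] ℂ) p)

@[simp] lemma tm_apply (p : P) (q : Q) (β : Bil P Q) : tm p q β = β p q := rfl

/-- elementary tensor as a bounded bilinear map -/
noncomputable def tmL : P →L[ℂ] Q →L[ℂ] BilDual P Q :=
  LinearMap.mkContinuous₂
    (LinearMap.mk₂ ℂ (fun (p : P) (q : Q) => tm p q)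
      (fun a b y => by ext; simp) (fun c a y => by ext; simp)
      (fun a y z => by ext; simp) (fun c a y => by ext; simp))
    1 (fun p q => by
      refine ContinuousLinearMap.opNorm_le_bound _ (by positivity) (fun β => ?_)
      have := β.le_opNorm₂ p q
      simp only [LinearMap.mk₂_apply, tm_apply]
      calc ‖β p q‖ ≤ ‖β‖ * ‖p‖ * ‖q‖ := this
        _ = 1 * ‖p‖ * ‖q‖ * ‖β‖ := by ring)

@[simp] lemma tmL_apply (p : P) (q : Q) : tmL p q = tm p q := rfl

/-- closed span of the elementary tensors -/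
noncomputable def tensClosure (P Q : Type u) [NormedAddCommGroup P] [NormedSpace ℂ P]
    [NormedAddCommGroup Q] [NormedSpace ℂ Q] : Submodule ℂ (BilDual P Q) :=
  (Submodule.span ℂ (Set.range (fun pq : P × Q => tm pq.1 pq.2))).topologicalClosure

/-- the action on functionals on bilinear forms induced by an action on the first factor -/
noncomputable def actD (LP : A →L[ℂ] P →L[ℂ] P) : A →L[ℂ] BilDual P Q →L[ℂ] BilDual P Q :=
  ((compL ℂ (Bil P Q) (Bil P Q) ℂ).flip).comp (((compL ℂ P P (Q →L[ℂ] ℂ)).flip).comp LP)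

@[simp] lemma actD_apply (LP : A →L[ℂ] P →L[ℂ] P) (a : A) (y : BilDual P Q) (β : Bil P Q) :
    actD LP a y β = y (β.comp (LP a)) := rfl

/-- the generators of the test module -/
noncomputable def gens (m : P →L[ℂ] Q →L[ℂ] X) : Set (BilDual P Q × X) :=
  Set.range (fun pq : P × Q => ((tm pq.1 pq.2 : BilDual P Q), m pq.1 pq.2))

/-- the test module -/
noncomputable def testMod (m : P →L[ℂ] Q →L[ℂ] X) : Submodule ℂ (BilDual P Q × X) :=
  (Submodule.span ℂ (gens m)).topologicalClosure

/-- the action on the ambient space of the test module -/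
noncomputable def actZ (LP : A →L[ℂ] P →L[ℂ] P) (LX : A →L[ℂ] X →L[ℂ] X) :
    A →L[ℂ] (BilDual P Q × X) →L[ℂ] (BilDual P Q × X) :=
  (ContinuousLinearMap.prodMapL ℂ (BilDual P Q) (BilDual P Q) X X).comp
    ((actD (Q := Q) LP).prod LX)

@[simp] lemma actZ_apply (LP : A →L[ℂ] P →L[ℂ] P) (LX : A →L[ℂ] X →L[ℂ] X) (a : A)
    (z : BilDual P Q × X) : actZ LP LX a z = (actD LP a z.1, LX a z.2) := rfl

lemma actZ_mem (LP : A →L[ℂ] P →L[ℂ] P) (LX : A →L[ℂ] X →L[ℂ] X) (m : P →L[ℂ] Q →L[ℂ] X)
    (hm : ∀ a p q, m (LP a p) q = LX a (m p q)) (a : A) :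
    ∀ y ∈ testMod m, actZ (Q := Q) LP LX a y ∈ testMod m := by
  intro y hy
  have hmaps : Set.MapsTo (actZ (Q := Q) LP LX a) (Submodule.span ℂ (gens m) : Set _)
      (Submodule.span ℂ (gens m) : Set _) := by
    intro z hz
    have hle : Submodule.span ℂ (gens m) ≤
        (Submodule.span ℂ (gens m)).comap (actZ (Q := Q) LP LX a).toLinearMap := by
      rw [Submodule.span_le]
      rintro _ ⟨⟨p, q⟩, rfl⟩
      refine Submodule.subset_span ⟨(LP a p, q), ?_⟩
      ext β
      · simp
      · simp [hm]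
    exact hle hz
  have := hmaps.closure (actZ (Q := Q) LP LX a).continuous
  exact this hy

lemma testMod_spec (m : P →L[ℂ] Q →L[ℂ] X) (z : BilDual P Q × X) (hz : z ∈ testMod m)
    (φ : X →L[ℂ] ℂ) : z.1 ((compL ℂ Q X ℂ φ).comp m) = φ z.2 := by
  have hle : testMod m ≤ LinearMap.ker
      (((ContinuousLinearMap.apply ℂ ℂ ((compL ℂ Q X ℂ φ).comp m)).comp
        (ContinuousLinearMap.fst ℂ (BilDual P Q) X) -
        φ.comp (ContinuousLinearMap.snd ℂ (BilDual P Q) X)).toLinearMap) := by
    refine Submodule.topologicalClosure_minimal _ ?_ ?_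
    · rw [Submodule.span_le]
      rintro _ ⟨⟨p, q⟩, rfl⟩
      simp
    · exact ContinuousLinearMap.isClosed_ker _
  have := hle hz
  simp only [LinearMap.mem_ker, ContinuousLinearMap.coe_coe, sub_apply] at this
  exact sub_eq_zero.mp this

lemma testMod_fst (m : P →L[ℂ] Q →L[ℂ] X) (z : BilDual P Q × X) (hz : z ∈ testMod m) :
    z.1 ∈ tensClosure P Q := by
  have hmaps : Set.MapsTo (Prod.fst : BilDual P Q × X → BilDual P Q)
      (Submodule.span ℂ (gens m) : Set _)
      (Submodule.span ℂ (Set.range (fun pq : P × Q => tm pq.1 pq.2)) : Set _) := by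
    intro z hz
    have hle : Submodule.span ℂ (gens m) ≤
        (Submodule.span ℂ (Set.range (fun pq : P × Q => tm pq.1 pq.2))).comap
          (LinearMap.fst ℂ (BilDual P Q) X) := by
      rw [Submodule.span_le]
      rintro _ ⟨⟨p, q⟩, rfl⟩
      exact Submodule.subset_span ⟨(p, q), rfl⟩
    exact hle hz
  exact hmaps.closure continuous_fst hz

/-- The data extracted from a module section of the test module. -/
theorem exists_rho_of_section [CompleteSpace X]
    (LP : A →L[ℂ] P →L[ℂ] P) (LX : A →L[ℂ] X →L[ℂ] X) (m : P →L[ℂ] Q →L[ℂ] X)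
    (hm : ∀ a p q, m (LP a p) q = LX a (m p q))
    (ψ : X →L[ℂ] testMod m)
    (hψ : ∀ a x, ψ (LX a x) = restrictAct (actZ LP LX) (testMod m) (actZ_mem LP LX m hm) a (ψ x))
    (hs : ∀ x, ((ψ x : testMod m) : BilDual P Q × X).2 = x) :
    ∃ ρ : X →L[ℂ] BilDual P Q,
      (∀ a x β, ρ (LX a x) β = ρ x (β.comp (LP a))) ∧
      (∀ x (φ : X →L[ℂ] ℂ), ρ x ((compL ℂ Q X ℂ φ).comp m) = φ x) ∧
      ∀ x, ρ x ∈ tensClosure P Q := by
  refine ⟨(ContinuousLinearMap.fst ℂ (BilDual P Q) X).comp ((testMod m).subtypeL.comp ψ),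
    ?_, ?_, ?_⟩
  · intro a x β
    have := congrArg (fun z : testMod m => (z : BilDual P Q × X).1 β) (hψ a x)
    simpa using this
  · intro x φ
    have := testMod_spec m _ (ψ x).2 φ
    rw [hs x] at this
    simpa using this
  · intro x
    exact testMod_fst m _ (ψ x).2

theorem left_rho [CompleteSpace X] (mX : LeftModule A X)
    (LP : A →L[ℂ] P →L[ℂ] P) (hLP : ∀ a b p, LP (a * b) p = LP a (LP b p))
    (m : P →L[ℂ] Q →L[ℂ] X)
    (hm : ∀ a p q, m (LP a p) q = mX.act a (m p q))
    (p0 : P) (j : X →L[ℂ] Q) (hj : ∀ x, m p0 (j x) = x)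
    (hproj : LeftProjective mX) :
    ∃ ρ : X →L[ℂ] BilDual P Q,
      (∀ a x β, ρ (mX.act a x) β = ρ x (β.comp (LP a))) ∧
      (∀ x (φ : X →L[ℂ] ℂ), ρ x ((compL ℂ Q X ℂ φ).comp m) = φ x) ∧
      ∀ x, ρ x ∈ tensClosure P Q := by
  have hinv := actZ_mem (Q := Q) LP mX.act m hm
  let mY : LeftModule A (testMod m) :=
    { act := restrictAct (actZ LP mX.act) (testMod m) hinv
      act_mul := fun a b y => by
        ext β
        · simp only [restrictAct_coe, actZ_apply, actD_apply]
          congr 1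
          ext p q
          simp [hLP]
        · simp [mX.act_mul] }
  have hcl : CompleteSpace (testMod m) := by
    unfold testMod; infer_instance
  obtain ⟨ψ, h1, h2⟩ := hproj (testMod m) mY
    ((ContinuousLinearMap.snd ℂ (BilDual P Q) X).comp (testMod m).subtypeL)
    (fun a y => by simp [mY])
    ⟨ContinuousLinearMap.codRestrict ((((tmL p0).comp j)).prod (ContinuousLinearMap.id ℂ X))
        (testMod m) (fun x => by
          apply Submodule.le_topologicalClosure
          apply Submodule.subset_span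
          exact ⟨(p0, j x), by simp [hj]⟩), fun x => by simp⟩
  exact exists_rho_of_section LP mX.act m hm ψ h1 (fun x => by simpa using h2 x)

theorem right_rho [CompleteSpace X] (mX : RightModule A X)
    (LP : A →L[ℂ] P →L[ℂ] P) (hLP : ∀ a b p, LP (a * b) p = LP b (LP a p))
    (m : P →L[ℂ] Q →L[ℂ] X)
    (hm : ∀ a p q, m (LP a p) q = mX.act a (m p q))
    (p0 : P) (j : X →L[ℂ] Q) (hj : ∀ x, m p0 (j x) = x)
    (hproj : RightProjective mX) :
    ∃ ρ : X →L[ℂ] BilDual P Q,
      (∀ a x β, ρ (mX.act a x) β = ρ x (β.comp (LP a))) ∧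
      (∀ x (φ : X →L[ℂ] ℂ), ρ x ((compL ℂ Q X ℂ φ).comp m) = φ x) ∧
      ∀ x, ρ x ∈ tensClosure P Q := by
  have hinv := actZ_mem (Q := Q) LP mX.act m hm
  let mY : RightModule A (testMod m) :=
    { act := restrictAct (actZ LP mX.act) (testMod m) hinv
      act_mul := fun a b y => by
        ext β
        · simp only [restrictAct_coe, actZ_apply, actD_apply]
          congr 1
          ext p q
          simp [hLP]
        · simp [mX.act_mul] }
  have hcl : CompleteSpace (testMod m) := by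
    unfold testMod; infer_instance
  obtain ⟨ψ, h1, h2⟩ := hproj (testMod m) mY
    ((ContinuousLinearMap.snd ℂ (BilDual P Q) X).comp (testMod m).subtypeL)
    (fun a y => by simp [mY])
    ⟨ContinuousLinearMap.codRestrict ((((tmL p0).comp j)).prod (ContinuousLinearMap.id ℂ X))
        (testMod m) (fun x => by
          apply Submodule.le_topologicalClosure
          apply Submodule.subset_span
          exact ⟨(p0, j x), by simp [hj]⟩), fun x => by simp⟩
  exact exists_rho_of_section LP mX.act m hm ψ h1 (fun x => by simpa using h2 x)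

end Tensor

end Pool.Agent.Helper53
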